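import Pool.Agent.P.MP_53fdf1_co.Sound

set_option autoImplicit false

open MeasureTheory Set

namespace Pool.Agent.P.MP_53fdf1_co

theorem band (B : Set (ℝ × ℝ)) (hB : MeasurableSet B) (u0 u1 α β : ℝ) (hu : u0 ≤ u1) (a : ℝ → ℝ)
    (H : ∀ p ∈ B, p.1 ∈ Ioo u0 u1 ∧ a p.1 ≤ p.2 ∧ p.2 ≤ a p.1 + (α + β * p.1)) :
    volume B ≤ ENNReal.ofReal ((u1 - u0) * (max (α + β * u0) 0 + max (α + β * u1) 0) / 2) := by
  rcases hu.eq_or_lt with rfl | hlt
  · have : B = ∅ := eq_empty_of_forall_notMem fun p hp => by simpa using (H p hp).1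
    simp [this]
  set h0 := max (α + β * u0) 0 with e0
  set h1 := max (α + β * u1) 0 with e1
  have p0 : 0 ≤ h0 := le_max_right _ _
  have p1 : 0 ≤ h1 := le_max_right _ _
  have q0 : α + β * u0 ≤ h0 := le_max_left _ _
  have q1 : α + β * u1 ≤ h1 := le_max_left _ _
  have hd : 0 < u1 - u0 := sub_pos.2 hlt
  set f : ℝ → ℝ := fun u => (u1 * h0 - u0 * h1) / (u1 - u0) + (h1 - h0) / (u1 - u0) * u with hf
  have fe : ∀ u, f u = ((u1 - u) * h0 + (u - u0) * h1) / (u1 - u0) := fun u => by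
    simp only [hf]; field_simp; ring
  have hc : Continuous f := by rw [hf]; fun_prop
  rw [Measure.volume_eq_prod, Measure.prod_apply hB]
  calc ∫⁻ u, volume (Prod.mk u ⁻¹' B)
      ≤ ∫⁻ u, (Ioc u0 u1).indicator (fun u => ENNReal.ofReal (f u)) u := by
        refine lintegral_mono fun u => ?_
        by_cases h : u ∈ Ioo u0 u1
        · rw [indicator_of_mem (Ioo_subset_Ioc_self h)]
          refine (measure_mono (t := Icc (a u) (a u + f u)) fun v hv => ?_).trans (by simp)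
          obtain ⟨-, b, c⟩ := H _ hv
          refine ⟨b, c.trans (add_le_add le_rfl ?_)⟩
          rw [fe, le_div_iff₀ hd]
          nlinarith [mul_le_mul_of_nonneg_left q0 (sub_pos.2 h.2).le,
            mul_le_mul_of_nonneg_left q1 (sub_pos.2 h.1).le]
        · have : Prod.mk u ⁻¹' B = ∅ := eq_empty_of_forall_notMem fun v hv => h (H _ hv).1
          simp [this]
    _ = ENNReal.ofReal (∫ u in Ioc u0 u1, f u) := by
        rw [lintegral_indicator measurableSet_Ioc, ofReal_integral_eq_lintegral_ofReal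
          (hc.integrableOn_Icc.mono_set Ioc_subset_Icc_self)]
        refine (ae_restrict_iff' measurableSet_Ioc).2 (Filter.Eventually.of_forall fun u h => ?_)
        rw [Pi.zero_apply, fe]
        have := sub_nonneg.2 h.2
        have := sub_nonneg.2 h.1.le
        positivity
    _ = _ := by
        congr 1
        rw [← intervalIntegral.integral_of_le hu, hf, intervalIntegral.integral_add (by simp)
          (Continuous.intervalIntegrable (by fun_prop) _ _), intervalIntegral.integral_const_mul,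
          integral_id, intervalIntegral.integral_const, smul_eq_mul]
        field_simp
        ring

theorem band' (B : Set (ℝ × ℝ)) (hB : MeasurableSet B) (u0 u1 α β : ℝ) (hu : u0 ≤ u1) (a : ℝ → ℝ)
    (H : ∀ p ∈ B, p.2 ∈ Ioo u0 u1 ∧ a p.2 ≤ p.1 ∧ p.1 ≤ a p.2 + (α + β * p.2)) :
    volume B ≤ ENNReal.ofReal ((u1 - u0) * (max (α + β * u0) 0 + max (α + β * u1) 0) / 2) := by
  have := band (Prod.swap ⁻¹' B) (measurable_swap hB) u0 u1 α β hu a fun p hp => H _ hp
  rwa [Measure.volume_eq_prod, Measure.measurePreserving_swap.measure_preimage hB.nullMeasurableSet,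
    ← Measure.volume_eq_prod] at this

/-- the open rectangle with slope parameter `t` and four offsets -/
def SV (t pp pm qp qm : ℝ) : Set (ℝ × ℝ) :=
  {z | pm < upR t z.1 z.2 ∧ upR t z.1 z.2 < pp ∧ qm < dnR t z.2 z.1 ∧ dnR t z.2 z.1 < qp}

def box (x0 x1 y0 y1 : ℕ) : Set (ℝ × ℝ) := Ioo (x0 : ℝ) x1 ×ˢ Ioo (y0 : ℝ) y1

noncomputable def ar (S : Set (ℝ × ℝ)) (x0 x1 y0 y1 : ℕ) : ℝ := volume.real (S ∩ box x0 x1 y0 y1)

theorem meas_box (x0 x1 y0 y1 : ℕ) : MeasurableSet (box x0 x1 y0 y1) :=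
  measurableSet_Ioo.prod measurableSet_Ioo

theorem vol_box (x0 x1 y0 y1 : ℕ) :
    volume (box x0 x1 y0 y1) = ENNReal.ofReal (x1 - x0) * ENNReal.ofReal (y1 - y0) := by
  rw [box, Measure.volume_eq_prod, Measure.prod_prod, Real.volume_Ioo, Real.volume_Ioo]

theorem fin_box (S : Set (ℝ × ℝ)) (x0 x1 y0 y1 : ℕ) : volume (S ∩ box x0 x1 y0 y1) ≠ ⊤ :=
  ne_top_of_le_ne_top (by rw [vol_box]; finiteness) (measure_mono inter_subset_right)

theorem ar_mono {S T : Set (ℝ × ℝ)} (h : S ⊆ T) (x0 x1 y0 y1 : ℕ) : ar S x0 x1 y0 y1 ≤ ar T x0 x1 y0 y1 :=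
  measureReal_mono (inter_subset_inter_left _ h) (fin_box _ _ _ _ _)

theorem cont_up (t : ℝ) : Continuous fun z : ℝ × ℝ => upR t z.1 z.2 := by unfold upR; fun_prop

theorem cont_dn (t : ℝ) : Continuous fun z : ℝ × ℝ => dnR t z.2 z.1 := by unfold dnR; fun_prop

theorem meas_SV (t pp pm qp qm : ℝ) : MeasurableSet (SV t pp pm qp qm) :=
  ((isOpen_lt continuous_const (cont_up t)).inter ((isOpen_lt (cont_up t) continuous_const).inter
    ((isOpen_lt continuous_const (cont_dn t)).inter (isOpen_lt (cont_dn t) continuous_const)))).measurableSet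

theorem max_div (a : ℝ) : max (a / 2 ^ 20) 0 = max a 0 / 2 ^ 20 := by
  rw [← max_div_div_right (by positivity), zero_div]

theorem areaOK (t pp pm qp qm : ℝ) : AreaOK t pp pm qp qm (ar (SV t pp pm qp qm)) where
  nonneg _ _ _ _ := measureReal_nonneg
  spY x0 x1 y0 ys y1 h1 h2 := by
    have a : (y0 : ℝ) < ys := by exact_mod_cast h1
    have b : (ys : ℝ) < y1 := by exact_mod_cast h2
    unfold ar
    rw [← measureReal_union _ ((meas_SV _ _ _ _ _).inter (meas_box _ _ _ _)) (fin_box _ _ _ _ _)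
      (fin_box _ _ _ _ _)]
    · refine measureReal_mono ?_ (fin_box _ _ _ _ _)
      rintro z (⟨h, h3, h4, h5⟩ | ⟨h, h3, h4, h5⟩)
      · exact ⟨h, h3, h4, h5.trans b⟩
      · exact ⟨h, h3, a.trans h4, h5⟩
    · exact disjoint_left.2 fun z hz hz' => lt_asymm hz.2.2.2 hz'.2.2.1
  spX x0 xs x1 y0 y1 h1 h2 := by
    have a : (x0 : ℝ) < xs := by exact_mod_cast h1
    have b : (xs : ℝ) < x1 := by exact_mod_cast h2
    unfold ar
    rw [← measureReal_union _ ((meas_SV _ _ _ _ _).inter (meas_box _ _ _ _)) (fin_box _ _ _ _ _)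
      (fin_box _ _ _ _ _)]
    · refine measureReal_mono ?_ (fin_box _ _ _ _ _)
      rintro z (⟨h, ⟨h4, h5⟩, h3⟩ | ⟨h, ⟨h4, h5⟩, h3⟩)
      · exact ⟨h, ⟨h4, h5.trans b⟩, h3⟩
      · exact ⟨h, ⟨a.trans h4, h5⟩, h3⟩
    · exact disjoint_left.2 fun z hz hz' => lt_asymm hz.2.1.2 hz'.2.1.1
  acc x0 x1 y0 y1 h1 h2 := by
    have a : (x0 : ℝ) ≤ x1 := by exact_mod_cast h1
    have b : (y0 : ℝ) ≤ y1 := by exact_mod_cast h2
    have a' := sub_nonneg.2 a
    have b' := sub_nonneg.2 b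
    have mb := meas_box x0 x1 y0 y1
    have b0 := band' ({z | pp ≤ upR t z.1 z.2} ∩ box x0 x1 y0 y1)
      ((isClosed_le continuous_const (cont_up t)).measurableSet.inter mb) y0 y1
      ((2 ^ 34 + 2 ^ 20 * x1 - pp) / 2 ^ 20) (t / 2 ^ 20) b
      (fun y => x1 - ((2 ^ 34 + 2 ^ 20 * x1 - pp) / 2 ^ 20 + t / 2 ^ 20 * y)) (by
        rintro p ⟨h, ⟨-, h4⟩, h5⟩
        refine ⟨h5, ?_, by linarith⟩
        simp only [mem_ofPred, upR] at h
        linarith)
    have b1 := band' ({z | upR t z.1 z.2 ≤ pm} ∩ box x0 x1 y0 y1)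
      ((isClosed_le (cont_up t) continuous_const).measurableSet.inter mb) y0 y1
      ((pm - 2 ^ 34 - 2 ^ 20 * x0) / 2 ^ 20) (-t / 2 ^ 20) b (fun _ => x0) (by
        rintro p ⟨h, ⟨h4, -⟩, h5⟩
        refine ⟨h5, h4.le, ?_⟩
        simp only [mem_ofPred, upR] at h
        linarith)
    have b2 := band ({z | qp ≤ dnR t z.2 z.1} ∩ box x0 x1 y0 y1)
      ((isClosed_le continuous_const (cont_dn t)).measurableSet.inter mb) x0 x1
      ((2 ^ 34 + 2 ^ 20 * y1 - qp) / 2 ^ 20) (-t / 2 ^ 20) a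
      (fun x => y1 - ((2 ^ 34 + 2 ^ 20 * y1 - qp) / 2 ^ 20 + -t / 2 ^ 20 * x)) (by
        rintro p ⟨h, h5, -, h4⟩
        refine ⟨h5, ?_, by linarith⟩
        simp only [mem_ofPred, dnR] at h
        linarith)
    have b3 := band ({z | dnR t z.2 z.1 ≤ qm} ∩ box x0 x1 y0 y1)
      ((isClosed_le (cont_dn t) continuous_const).measurableSet.inter mb) x0 x1
      ((qm - 2 ^ 34 - 2 ^ 20 * y0) / 2 ^ 20) (t / 2 ^ 20) a (fun _ => y0) (by
        rintro p ⟨h, h5, h4, -⟩
        refine ⟨h5, h4.le, ?_⟩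
        simp only [mem_ofPred, dnR] at h
        linarith)
    have r0 : ∀ y : ℝ, (2 ^ 34 + 2 ^ 20 * x1 - pp) / 2 ^ 20 + t / 2 ^ 20 * y = (upR t x1 y - pp) / 2 ^ 20 :=
      fun y => by unfold upR; ring
    have r1 : ∀ y : ℝ, (pm - 2 ^ 34 - 2 ^ 20 * x0) / 2 ^ 20 + -t / 2 ^ 20 * y = (pm - upR t x0 y) / 2 ^ 20 :=
      fun y => by unfold upR; ring
    have r2 : ∀ x : ℝ, (2 ^ 34 + 2 ^ 20 * y1 - qp) / 2 ^ 20 + -t / 2 ^ 20 * x = (dnR t y1 x - qp) / 2 ^ 20 :=
      fun y => by unfold dnR; ring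
    have r3 : ∀ x : ℝ, (qm - 2 ^ 34 - 2 ^ 20 * y0) / 2 ^ 20 + t / 2 ^ 20 * x = (qm - dnR t y0 x) / 2 ^ 20 :=
      fun y => by unfold dnR; ring
    rw [r0, r0, max_div, max_div] at b0
    rw [r1, r1, max_div, max_div] at b1
    rw [r2, r2, max_div, max_div] at b2
    rw [r3, r3, max_div, max_div] at b3
    have c0 := ENNReal.toReal_le_of_le_ofReal (by positivity) b0
    have c1 := ENNReal.toReal_le_of_le_ofReal (by positivity) b1
    have c2 := ENNReal.toReal_le_of_le_ofReal (by positivity) b2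
    have c3 := ENNReal.toReal_le_of_le_ofReal (by positivity) b3
    have vb : volume.real (box x0 x1 y0 y1) = (x1 - x0) * (y1 - y0) := by
      rw [Measure.real, vol_box, ENNReal.toReal_mul, ENNReal.toReal_ofReal a', ENNReal.toReal_ofReal b']
    have cov : box x0 x1 y0 y1 ⊆ SV t pp pm qp qm ∩ box x0 x1 y0 y1 ∪
        {z | pp ≤ upR t z.1 z.2} ∩ box x0 x1 y0 y1 ∪ {z | upR t z.1 z.2 ≤ pm} ∩ box x0 x1 y0 y1 ∪
        {z | qp ≤ dnR t z.2 z.1} ∩ box x0 x1 y0 y1 ∪ {z | dnR t z.2 z.1 ≤ qm} ∩ box x0 x1 y0 y1 := by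
      intro z hz
      simp only [mem_union, mem_inter_iff, hz, and_true, SV, mem_ofPred]
      by_contra h
      push Not at h
      obtain ⟨⟨⟨⟨k, k0⟩, k1⟩, k2⟩, k3⟩ := h
      exact absurd (k k1 k0 k3) (not_le.2 k2)
    have m := measureReal_mono (μ := volume) cov (by
      refine measure_union_ne_top (measure_union_ne_top (measure_union_ne_top
        (measure_union_ne_top ?_ ?_) ?_) ?_) ?_ <;> apply fin_box)
    have m1 := m.trans ((measureReal_union_le _ _).trans (add_le_add ((measureReal_union_le _ _).trans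
      (add_le_add ((measureReal_union_le _ _).trans (add_le_add (measureReal_union_le _ _) c1)) c2)) c3))
    rw [vb] at m1
    have c0' : volume.real ({z : ℝ × ℝ | pp ≤ upR t z.1 z.2} ∩ box x0 x1 y0 y1) ≤ _ := c0
    unfold ar
    linear_combination 2 ^ 21 * m1 + 2 ^ 21 * c0'

end Pool.Agent.P.MP_53fdf1_co
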