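import Pool.Agent.P.MP_53fdf1_co.Data

set_option autoImplicit false
set_option maxRecDepth 100000

namespace Pool.Agent.P.MP_53fdf1_co

theorem c1_0 : chk ty1 0 128 384 0
    0x4300ee0c006783300a4026c000e702c0f6803c070c2430e040890dded0401cbe6ec20b080b0c6e0418106c101c34109b020aec202d08c30e704810e12e028007ac302c092e00e80c0170057ac301d01e014202c5c07050c6bb4070e2050405c10783804b022e7bbb = true := by
  decide +kernel

theorem c1_1 : chk ty1 128 256 384 0
    0x430830ee0c38300e4002e5ec01806f038108f08306ee083046c38104701c3045e04209c20b6c20b04182f01430580504c26e041806c106041bc3043d041e0430940c075ebbb = true := by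
  decide +kernel

theorem c1_2 : chk ty1 256 384 384 0
    0x4230830ee0c38301ec082f0380b04181086ee08128301806c0601bec20c1b0806c106c10604bec07060c34107b01c430d8107041c1076e081405c107041ebbb = true := by
  decide +kernel

theorem c1_3 : chk ty1 384 512 384 0
    0x4233230138300eee030ec20c01bb0180602bc201831b0c380710c16082436ee0c101e02b813024ec104160405b0c30db0814106c1304d82106041be0182c30ebbb = true := by
  decide +kernel

theorem c1_4 : chk ty1 512 640 384 0
    0x42323023830820eee030ec203b02c2018b8101b04016b01c24087820d8107070c31d041c42070c15e0c181204bc1041b6ee0c2078106c304e0417034204d8106c20730441cd8060ee04c23bbb = true := by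
  decide +kernel

theorem c1_5 : chk ty1 640 768 384 0
    0x42233230101f830280b042eee00ec203b0406c20a082c104bb80602b04181070426c04d0341ec10827005e041c13810efae0282c060b08c1382e0c3bbb = true := by
  decide +kernel

theorem c1_6 : chk ty1 768 896 384 0
    0x412233230c202b80b00780b08206eee08070ec0a0b080f8202e0406810704305af820f0c3806c101603b038fae082c13082e042bbb = true := by
  decide +kernel

theorem c1_7 : chk ty1 896 1024 384 0
    0x4230e30c208b801b01c101b8303e0c3810704eeee00b0ec20b0182c207081e04c107b81301382ee08c20e03bbb = true := by
  decide +kernel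

end Pool.Agent.P.MP_53fdf1_co
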