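import Pool.Agent.P.MP_53fdf1_co.Data

set_option autoImplicit false
set_option maxRecDepth 100000

namespace Pool.Agent.P.MP_53fdf1_co

theorem c2_6 : chk ty2 768 896 256 512
    0x42087201c341072c8b0e01c01f41041720348311dc88070d01c17204241d02c2432c1370e2c20bb007830182ec10405e041c10107908101e7b040d4060419c105041f041430c19d8106041b040643060439e01409c20b082d80b0839082c30e6de0141c2070181d810436c1041e04806504182057041813413c210704f608141c0507bb810e0c3b0418c1050e01b83082eee = true := by
  decide +kernel

theorem c2_7 : chk ty2 896 1024 256 512
    0x41082720c0748052070432d2cb0e0c14820705c830504172c1810415041c304d7062041c805047482308d04d01c9cb2c201bb018204ec09041017b0405c1041904107782041904170cc1070409f6e01c10d8104ec10702409d01406041b4060b04182de041411c106050417bb830e0c3b08241c13041e0b8130182eee = true := by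
  decide +kernel

end Pool.Agent.P.MP_53fdf1_co
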