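import Pool.Agent.P.MP_53fdf1_co.Data

set_option autoImplicit false
set_option maxRecDepth 100000

namespace Pool.Agent.P.MP_53fdf1_co

theorem c3_0 : chk ty3 0 128 0 256
    0x430e02c10e0c2001dbbb080406ec01c0720c1b0c3c0e0c3c90c30f0c431e79a00c6c0e1002fd04012dc8104c30e0c9602101bc34042c3b0003b581108c0f6db604101e041d8101816c31410a0418109d041e041c3805b01078140d20b0c43041d8310c1076d83041e05082c10710c4701074041de6dbb8070810411ee0306c301c02deb041007e0c239c30d04340de041d00581818107222c20b0d082e043110c470340de9082c1074207810c832c0e03b6760183041e01806dc02d2042c107026081241b783005e01382c7018420c380e580620180e40700de08c201e08799c0160182701c1c07a0405822b04230e0c3b0c3d9e7820904c1c342c2090704d04140d04eb04181381f81304e0c90c1b0c8f830f10cc70814205c31420504b0c5c10730d0c107409ec20b0c3832c30f5082c120f0c3d708c1c205087040d81b7a6ee = true := by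
  decide +kernel

theorem c3_1 : chk ty3 128 256 0 256
    0x42002ec202c10bbb080ec0601342c2a084043801e6c041920141820419c3014058106dc012508127014830c57bb81042e082c2090bb04c0416042c041e78304d0c3604c301d60c1076005c1060c3407b430d0802ddb80501b018060d410e0c5e02098701c10983060c26c0b041c3904c1270804b4121e4204d081d0431836eee = true := by
  decide +kernel

end Pool.Agent.P.MP_53fdf1_co
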