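import Pool.Agent.P.MP_53fdf1_co.Data

set_option autoImplicit false
set_option maxRecDepth 100000

namespace Pool.Agent.P.MP_53fdf1_co

theorem c3_7 : chk ty3 896 1024 0 256
    0x410418e3018c1046338e0b041380641094106304405938c1204059040560b38c0501633041420450581ce078101ee01c0b803a08041ac20b4110c160418214105015bb04106c1078105041608604281241209bec20b02e01c2812041b041ec20c3bbb041380642049078c204250418066074c105081065040560738c105046304420581ce078070ec2090163063081058cc123930c342218e0b820b082e01830ec10c260c201bbb0806c078101b048209e0c410d81050416c0602c190c3820b4120c079bb040506c0d805041d0c1076042410680501601c07a7012418107042d0c81076eeee = true := by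
  decide +kernel

end Pool.Agent.P.MP_53fdf1_co
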