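import Mathlib

set_option autoImplicit false

namespace Pool.Agent.P.MP_53fdf1_co

/-- eight numbers, one per vertex of a parameter box -/
structure V8 where
  (a0 a1 a2 a3 a4 a5 a6 a7 : ℕ)

/-- the running constant and the eight running cut sums -/
structure St where
  (c : ℕ) (v : V8)

/-- the four offsets of a rectangle -/
structure V4 where
  (pp pm qp qm : ℕ)

/-- data of a parameter box -/
structure Ctx where
  (tl th tc tol : ℕ) (c d ml mh vx vy : V4) (PP PM QP QM : V8)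

/-- evaluate `n` before passing it on -/
noncomputable def frc {α : Type} (n : ℕ) (k : ℕ → α) : α :=
  @Nat.rec (fun _ => α) (k n) (fun m _ => k m) (Nat.succ n)

noncomputable def andb (a b : Bool) : Bool := @Bool.rec (fun _ => Bool) false b a

noncomputable def orb (a b : Bool) : Bool := @Bool.rec (fun _ => Bool) b true a

noncomputable def frb {α : Type} (b : Bool) (k : Bool → α) : α :=
  @Bool.rec (fun _ => α) (k false) (k true) b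

noncomputable def mk4 {α : Type} (a0 a1 a2 a3 : ℕ) (k : ℕ → ℕ → ℕ → ℕ → α) : α :=
  frc a0 fun b0 => frc a1 fun b1 => frc a2 fun b2 => frc a3 (k b0 b1 b2)

noncomputable def mk8 {α : Type} (a0 a1 a2 a3 a4 a5 a6 a7 : ℕ) (k : V8 → α) : α :=
  mk4 a0 a1 a2 a3 fun b0 b1 b2 b3 => mk4 a4 a5 a6 a7 fun b4 b5 b6 b7 => k ⟨b0, b1, b2, b3, b4, b5, b6, b7⟩

def cA (a c u0 u1 p : ℕ) : ℕ := Nat.add a (Nat.mul c (Nat.add (Nat.sub u0 p) (Nat.sub u1 p)))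

def cB (a c u0 u1 p : ℕ) : ℕ := Nat.add a (Nat.mul c (Nat.add (Nat.sub p u0) (Nat.sub p u1)))

noncomputable def addG (f : ℕ → ℕ → ℕ → ℕ → ℕ → ℕ) (c u0 u1 w0 w1 : ℕ) (P v : V8)
    (k : V8 → St) : St :=
  @V8.rec (fun _ => St) (fun p0 p1 p2 p3 p4 p5 p6 p7 =>
    @V8.rec (fun _ => St) (fun a0 a1 a2 a3 a4 a5 a6 a7 =>
      mk8 (f a0 c u0 u1 p0) (f a1 c u0 u1 p1) (f a2 c u0 u1 p2) (f a3 c u0 u1 p3)
        (f a4 c w0 w1 p4) (f a5 c w0 w1 p5) (f a6 c w0 w1 p6) (f a7 c w0 w1 p7) k) v) P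

def big (x : ℕ) : ℕ := Nat.add (nat_lit 17179869184) (Nat.mul x (nat_lit 1048576))

def up (x t y : ℕ) : ℕ := Nat.add (big x) (Nat.mul t y)

def dn (y t x : ℕ) : ℕ := Nat.sub (big y) (Nat.mul t x)

noncomputable def addH (f : ℕ → ℕ → ℕ → ℕ → ℕ → ℕ) (g : ℕ → ℕ → ℕ → ℕ) (tl th c x y0 y1 : ℕ) (P v : V8)
    (k : V8 → St) : St :=
  addG f c (g x tl y0) (g x tl y1) (g x th y0) (g x th y1) P v k

noncomputable def opt (u : Bool) (f : V8 → (V8 → St) → St) (v : V8) (k : V8 → St) : St :=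
  @Bool.rec (fun _ => St) (k v) (f v k) u

noncomputable def accept2 (C : Ctx) (x0 x1 y0 y1 : ℕ) (u0 u1 u2 u3 : Bool) (v : V8) (cx cy c : ℕ) : St :=
  opt u0 (addH cA up C.tl C.th cy x1 y0 y1 C.PP) v fun v =>
  opt u1 (addH cB up C.tl C.th cy x0 y0 y1 C.PM) v fun v =>
  opt u2 (addH cA dn C.tl C.th cx y1 x0 x1 C.QP) v fun v =>
  opt u3 (addH cB dn C.tl C.th cx y0 x0 x1 C.QM) v (St.mk c)

noncomputable def accept (C : Ctx) (w x0 x1 y0 y1 : ℕ) (u0 u1 u2 u3 : Bool) (s : St) : St :=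
  @St.rec (fun _ => St) (fun c v =>
    frc (Nat.add c (Nat.mul (Nat.mul (Nat.mul w (Nat.sub y1 y0)) (Nat.sub x1 x0)) (nat_lit 2097152)))
      (accept2 C x0 x1 y0 y1 u0 u1 u2 u3 v (Nat.mul w (Nat.sub x1 x0)) (Nat.mul w (Nat.sub y1 y0)))) s

noncomputable def tr (tol a b cand alt : ℕ) : ℕ :=
  @Bool.rec (fun _ => ℕ) alt
    (@Bool.rec (fun _ => ℕ) alt cand (Nat.ble (Nat.succ (Nat.add cand tol)) b))
    (Nat.ble (Nat.succ (Nat.add a tol)) cand)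

noncomputable def sel (v : V4) (p q : Bool) : ℕ :=
  @Bool.rec (fun _ => ℕ) (@Bool.rec (fun _ => ℕ) v.pp v.pm q) (@Bool.rec (fun _ => ℕ) v.qp v.qm q) p

noncomputable def twoY (C : Ctx) (a b p x0 x1 alt : ℕ) : ℕ :=
  tr C.tol a b (Nat.div (Nat.sub p (big x0)) C.tc) (tr C.tol a b (Nat.div (Nat.sub p (big x1)) C.tc) alt)

noncomputable def twoX (C : Ctx) (a b p y0 y1 alt : ℕ) : ℕ :=
  tr C.tol a b (Nat.div (Nat.sub (big y0) p) C.tc) (tr C.tol a b (Nat.div (Nat.sub (big y1) p) C.tc) alt)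

noncomputable def opn (u : Bool) (f : ℕ → ℕ) (alt : ℕ) : ℕ := @Bool.rec (fun _ => ℕ) alt (f alt) u

noncomputable def vtx (tol a b : ℕ) (v : V4) (u0 u1 u2 u3 : Bool) : ℕ :=
  @Bool.rec (fun _ => ℕ) (nat_lit 0) (tr tol a b (sel v u0 u2) (nat_lit 0)) (andb (orb u0 u1) (orb u2 u3))

noncomputable def candY (C : Ctx) (x0 x1 y0 y1 : ℕ) (u0 u1 u2 u3 : Bool) : ℕ :=
  opn u0 (twoY C y0 y1 C.c.pp x0 x1) (opn u1 (twoY C y0 y1 C.c.pm x0 x1) (vtx C.tol y0 y1 C.vy u0 u1 u2 u3))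

noncomputable def candX (C : Ctx) (x0 x1 y0 y1 : ℕ) (u0 u1 u2 u3 : Bool) : ℕ :=
  opn u2 (twoX C x0 x1 C.c.qp y0 y1) (opn u3 (twoX C x0 x1 C.c.qm y0 y1) (vtx C.tol x0 x1 C.vx u0 u1 u2 u3))

noncomputable def seq2 (s : St) (k : St → St) : St :=
  @St.rec (fun _ => St) (fun c v => k ⟨c, v⟩) s

noncomputable def btw (a m b : ℕ) : Bool := andb (Nat.ble (Nat.succ a) m) (Nat.ble (Nat.succ m) b)

noncomputable def splitX (C : Ctx) (w : ℕ) (ih : ℕ → ℕ → ℕ → ℕ → St → St)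
    (x0 x1 y0 y1 : ℕ) (u0 u1 u2 u3 : Bool) (s : St) (xs : ℕ) : St :=
  @Bool.rec (fun _ => St) (accept C w x0 x1 y0 y1 u0 u1 u2 u3 s)
    (seq2 (ih x0 xs y0 y1 s) (ih xs x1 y0 y1)) (btw x0 xs x1)

noncomputable def splitY (C : Ctx) (w : ℕ) (ih : ℕ → ℕ → ℕ → ℕ → St → St)
    (x0 x1 y0 y1 : ℕ) (u0 u1 u2 u3 : Bool) (s : St) (ys : ℕ) : St :=
  @Bool.rec (fun _ => St)
    (frc (candX C x0 x1 y0 y1 u0 u1 u2 u3) (splitX C w ih x0 x1 y0 y1 u0 u1 u2 u3 s))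
    (seq2 (ih x0 x1 y0 ys s) (ih x0 x1 ys y1)) (btw y0 ys y1)

noncomputable def split (C : Ctx) (w : ℕ) (ih : ℕ → ℕ → ℕ → ℕ → St → St)
    (x0 x1 y0 y1 : ℕ) (u0 u1 u2 u3 : Bool) (s : St) : St :=
  frc (candY C x0 x1 y0 y1 u0 u1 u2 u3) (splitY C w ih x0 x1 y0 y1 u0 u1 u2 u3 s)

noncomputable def dropT (tc : ℕ) (d : V4) (x0 x1 y0 y1 : ℕ) : Bool :=
  orb (Nat.ble d.pp (up x0 tc y0)) (orb (Nat.ble (up x1 tc y1) d.pm)
    (orb (Nat.ble d.qp (dn y0 tc x1)) (Nat.ble (dn y1 tc x0) d.qm)))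

/-- `false` exactly when both comparisons hold -/
noncomputable def nand (a b c d : ℕ) : Bool :=
  @Bool.rec (fun _ => Bool) true (@Bool.rec (fun _ => Bool) true false (Nat.ble c d)) (Nat.ble a b)

noncomputable def flags (C : Ctx) (k : ℕ → ℕ → ℕ → ℕ → Bool → Bool → Bool → Bool → St → St)
    (x0 x1 y0 y1 : ℕ) (s : St) : St :=
  frb (nand (up x1 C.tl y1) C.ml.pp (up x1 C.th y1) C.mh.pp) fun u0 =>
  frb (nand C.ml.pm (up x0 C.tl y0) C.mh.pm (up x0 C.th y0)) fun u1 =>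
  frb (nand (dn y1 C.tl x0) C.ml.qp (dn y1 C.th x0) C.mh.qp) fun u2 =>
  frb (nand C.ml.qm (dn y0 C.tl x1) C.mh.qm (dn y0 C.th x1)) fun u3 => k x0 x1 y0 y1 u0 u1 u2 u3 s

noncomputable def step (C : Ctx) (k : ℕ → ℕ → ℕ → ℕ → Bool → Bool → Bool → Bool → St → St)
    (x0 x1 y0 y1 : ℕ) (s : St) : St :=
  @Bool.rec (fun _ => St) (flags C k x0 x1 y0 y1 s) s (dropT C.tc C.d x0 x1 y0 y1)

noncomputable def plan (C : Ctx) (w fuel : ℕ) : ℕ → ℕ → ℕ → ℕ → St → St :=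
  @Nat.rec (fun _ => ℕ → ℕ → ℕ → ℕ → St → St) (step C (accept C w))
    (fun _ ih => step C (split C w ih)) fuel

/-- weighted cells -/
inductive CL where
  | nil : CL
  | cons : ℕ → ℕ → ℕ → ℕ → ℕ → CL → CL

noncomputable def run (C : Ctx) (l : CL) : St → St :=
  @CL.rec (fun _ => St → St) (fun s => s)
    (fun w x0 x1 y0 y1 _ ih s => seq2 (plan C w (nat_lit 6) x0 x1 y0 y1 s) ih) l

def mn (a b : ℕ) : ℕ := Nat.sub a (Nat.sub a b)

def mx (a b : ℕ) : ℕ := Nat.add a (Nat.sub b a)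

/-- the six constants of a tile -/
structure Ty where
  (b bb a1 a2 a3 a4 : ℕ)

def rad (al be t : ℕ) : ℕ := Nat.add (Nat.mul al (nat_lit 1024)) (Nat.mul be t)

def vP (y : Ty) (al be t s r : ℕ) : ℕ :=
  Nat.add (Nat.add (Nat.add (nat_lit 20401094656)
    (Nat.mul (Nat.add y.a1 (Nat.mul y.b s)) (nat_lit 4194304)))
    (Nat.mul t (Nat.add (Nat.mul (Nat.add y.a2 (Nat.mul y.b r)) (nat_lit 4096)) (nat_lit 3145728))))
    (Nat.mul (Nat.add y.a3 (Nat.mul y.bb s)) (rad al be t))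

def vQ (y : Ty) (al be t s r : ℕ) : ℕ :=
  Nat.sub (Nat.add (Nat.add (nat_lit 20401094656)
    (Nat.mul (Nat.add y.a2 (Nat.mul y.b r)) (nat_lit 4194304)))
    (Nat.mul (Nat.add y.a4 (Nat.mul y.bb r)) (rad al be t)))
    (Nat.mul t (Nat.add (Nat.mul (Nat.add y.a1 (Nat.mul y.b s)) (nat_lit 4096)) (nat_lit 3145728)))

noncomputable def all8 {α : Type} (f : ℕ → ℕ → ℕ → ℕ) (tl th sl sh rl rh : ℕ) (k : V8 → α) : α :=
  mk8 (f tl sl rl) (f tl sh rl) (f tl sl rh) (f tl sh rh) (f th sl rl) (f th sh rl) (f th sl rh)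
    (f th sh rh) k

noncomputable def low8 {α : Type} (P : V8) (dl dh : ℕ) (k : V8 → α) : α :=
  mk8 (Nat.sub P.a0 dl) (Nat.sub P.a1 dl) (Nat.sub P.a2 dl) (Nat.sub P.a3 dl) (Nat.sub P.a4 dh)
    (Nat.sub P.a5 dh) (Nat.sub P.a6 dh) (Nat.sub P.a7 dh) k

def loG (f : ℕ → ℕ → ℕ) (P : V8) : ℕ := f (f P.a0 P.a1) (f P.a2 P.a3)

def hiG (f : ℕ → ℕ → ℕ) (P : V8) : ℕ := f (f P.a4 P.a5) (f P.a6 P.a7)

def cY (tc den P Q : ℕ) : ℕ :=
  Nat.div (Nat.sub (Nat.add (Nat.mul Q (nat_lit 1048576)) (Nat.mul tc P))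
    (Nat.mul (nat_lit 17179869184) (Nat.add (nat_lit 1048576) tc))) den

def cX (tc den P Q : ℕ) : ℕ :=
  Nat.div (Nat.sub (Nat.add (Nat.mul P (nat_lit 1048576)) (Nat.mul tc (nat_lit 17179869184)))
    (Nat.add (Nat.mul tc Q) (nat_lit 18014398509481984))) den

def hf (a b : ℕ) : ℕ := Nat.div (Nat.add a b) (nat_lit 2)

noncomputable def fin8 (M : ℕ) (s : St) : Bool :=
  @St.rec (fun _ => Bool) (fun c v => Nat.ble (Nat.add (mx (loG mx v) (hiG mx v)) M) c) s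

noncomputable def mkV {α : Type} (a0 a1 a2 a3 : ℕ) (k : V4 → α) : α :=
  mk4 a0 a1 a2 a3 fun b0 b1 b2 b3 => k ⟨b0, b1, b2, b3⟩

noncomputable def leaf4 (l : CL) (M tl th tc tol : ℕ) (PP PM QP QM : V8) (cp cm cq cn den : ℕ) : Bool :=
  mkV (loG mn PP) (loG mx PM) (loG mn QP) (loG mx QM) fun ml =>
  mkV (hiG mn PP) (hiG mx PM) (hiG mn QP) (hiG mx QM) fun mh =>
  mkV (cX tc den cm cn) (cX tc den cm cq) (cX tc den cp cn) (cX tc den cp cq) fun vx =>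
  mkV (cY tc den cm cn) (cY tc den cm cq) (cY tc den cp cn) (cY tc den cp cq) fun vy =>
  mkV (Nat.sub cp (Nat.mul tol (nat_lit 1048576))) (Nat.add cm (Nat.mul tol (nat_lit 1048576)))
    (Nat.sub cq (Nat.mul tol (nat_lit 1048576))) (Nat.add cn (Nat.mul tol (nat_lit 1048576))) fun d =>
  fin8 M (run ⟨tl, th, tc, tol, ⟨cp, cm, cq, cn⟩, d, ml, mh, vx, vy, PP, PM, QP, QM⟩ l
    ⟨nat_lit 0, ⟨nat_lit 0, nat_lit 0, nat_lit 0, nat_lit 0, nat_lit 0, nat_lit 0, nat_lit 0, nat_lit 0⟩⟩)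

noncomputable def leaf3 (l : CL) (M : ℕ) (PP PM QP QM : V8) (cp cq dc tl th tc tol : ℕ) : Bool :=
  mk4 cp (Nat.sub cp dc) cq (Nat.sub cq dc) fun cp cm cq cn =>
    frc (Nat.add (nat_lit 1099511627776) (Nat.mul tc tc)) (leaf4 l M tl th tc tol PP PM QP QM cp cm cq cn)

noncomputable def leaf2 (l : CL) (M : ℕ) (y : Ty) (tm tl th sl sh rl rh al be : ℕ) : Bool :=
  all8 (vP y al be) tl th sl sh rl rh fun PP => all8 (vQ y al be) tl th sl sh rl rh fun QP =>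
  low8 PP (Nat.mul (nat_lit 1024) (rad al be tl)) (Nat.mul (nat_lit 1024) (rad al be th)) fun PM =>
  low8 QP (Nat.mul (nat_lit 1024) (rad al be tl)) (Nat.mul (nat_lit 1024) (rad al be th)) fun QM =>
  mk4 (Nat.mul tl (nat_lit 1024)) (Nat.mul th (nat_lit 1024)) (Nat.mul tm (nat_lit 1024))
    (Nat.mul (nat_lit 2) (mx (Nat.sub sh sl) (Nat.sub rh rl)))
    (leaf3 l M PP PM QP QM (vP y al be tm (hf sl sh) (hf rl rh)) (vQ y al be tm (hf sl sh) (hf rl rh))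
      (Nat.mul (nat_lit 1024) (rad al be tm)))

noncomputable def leaf (l : CL) (M : ℕ) (y : Ty) (tl th sl sh rl rh : ℕ) : Bool :=
  frc (hf tl th) fun tm =>
  frc (Nat.mul (Nat.add (nat_lit 1048576) (Nat.mul tm tm)) (nat_lit 4096)) fun n2 =>
  frc (Nat.mul (Nat.add (nat_lit 1024) (Nat.div (Nat.mul (Nat.mul tm tm) (nat_lit 53)) (nat_lit 131072)))
    (nat_lit 64)) fun s0 =>
  frc (hf s0 (Nat.div n2 s0)) fun s1 => frc (Nat.succ (hf s1 (Nat.div n2 s1))) fun s2 =>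
  frc (Nat.div (nat_lit 268435456) s2) fun al => frc (Nat.div (Nat.mul tm (nat_lit 262144)) s2) fun be =>
  andb (Nat.ble (Nat.add (Nat.mul al al) (Nat.mul be be)) (nat_lit 16777216))
    (leaf2 l M y tm tl th sl sh rl rh al be)

noncomputable def nz (n : ℕ) (k : ℕ → ℕ) : ℕ :=
  @Nat.rec (fun _ => ℕ) (nat_lit 0) (fun m _ => k (Nat.succ m)) n

/-- branch and bound along a code; returns the unread code, `0` on failure -/
noncomputable def bb (lf : ℕ → ℕ → ℕ → ℕ → ℕ → ℕ → Bool) (fuel : ℕ) :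
    ℕ → ℕ → ℕ → ℕ → ℕ → ℕ → ℕ → ℕ :=
  @Nat.rec (fun _ => ℕ → ℕ → ℕ → ℕ → ℕ → ℕ → ℕ → ℕ) (fun _ _ _ _ _ _ _ => nat_lit 0)
    (fun _ ih tl th sl sh rl rh cd =>
      frc (Nat.mod cd (nat_lit 4)) fun d => frc (Nat.div cd (nat_lit 4)) fun q =>
      @Bool.rec (fun _ => ℕ)
        (@Bool.rec (fun _ => ℕ)
          (@Bool.rec (fun _ => ℕ)
            (frc (hf rl rh) fun m => nz (ih tl th sl sh rl m q) (ih tl th sl sh m rh))
            (frc (hf sl sh) fun m => nz (ih tl th sl m rl rh q) (ih tl th m sh rl rh))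
            (Nat.beq d (nat_lit 2)))
          (frc (hf tl th) fun m => nz (ih tl m sl sh rl rh q) (ih m th sl sh rl rh))
          (Nat.beq d (nat_lit 1)))
        (@Bool.rec (fun _ => ℕ) (nat_lit 0) q (lf tl th sl sh rl rh))
        (Nat.beq d (nat_lit 0))) fuel

end Pool.Agent.P.MP_53fdf1_co
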