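import Pool.Agent.P.MP_53fdf1_co.Check

set_option autoImplicit false

namespace Pool.Agent.P.MP_53fdf1_co

def cells : CL :=
  CL.cons (nat_lit 88) (nat_lit 0) (nat_lit 1024) (nat_lit 1024) (nat_lit 2048) <|
  CL.cons (nat_lit 162) (nat_lit 0) (nat_lit 1024) (nat_lit 2048) (nat_lit 3072) <|
  CL.cons (nat_lit 135) (nat_lit 0) (nat_lit 1024) (nat_lit 3072) (nat_lit 4096) <|
  CL.cons (nat_lit 121) (nat_lit 0) (nat_lit 1024) (nat_lit 4096) (nat_lit 5120) <|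
  CL.cons (nat_lit 121) (nat_lit 0) (nat_lit 1024) (nat_lit 5120) (nat_lit 6144) <|
  CL.cons (nat_lit 135) (nat_lit 0) (nat_lit 1024) (nat_lit 6144) (nat_lit 7168) <|
  CL.cons (nat_lit 162) (nat_lit 0) (nat_lit 1024) (nat_lit 7168) (nat_lit 8192) <|
  CL.cons (nat_lit 88) (nat_lit 0) (nat_lit 1024) (nat_lit 8192) (nat_lit 9216) <|
  CL.cons (nat_lit 88) (nat_lit 1024) (nat_lit 2048) (nat_lit 0) (nat_lit 1024) <|
  CL.cons (nat_lit 150) (nat_lit 1024) (nat_lit 2048) (nat_lit 1024) (nat_lit 2048) <|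
  CL.cons (nat_lit 152) (nat_lit 1024) (nat_lit 2048) (nat_lit 2048) (nat_lit 3072) <|
  CL.cons (nat_lit 151) (nat_lit 1024) (nat_lit 2048) (nat_lit 3072) (nat_lit 4096) <|
  CL.cons (nat_lit 105) (nat_lit 1024) (nat_lit 2048) (nat_lit 4096) (nat_lit 5120) <|
  CL.cons (nat_lit 105) (nat_lit 1024) (nat_lit 2048) (nat_lit 5120) (nat_lit 6144) <|
  CL.cons (nat_lit 151) (nat_lit 1024) (nat_lit 2048) (nat_lit 6144) (nat_lit 7168) <|
  CL.cons (nat_lit 152) (nat_lit 1024) (nat_lit 2048) (nat_lit 7168) (nat_lit 8192) <|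
  CL.cons (nat_lit 150) (nat_lit 1024) (nat_lit 2048) (nat_lit 8192) (nat_lit 9216) <|
  CL.cons (nat_lit 88) (nat_lit 1024) (nat_lit 2048) (nat_lit 9216) (nat_lit 10240) <|
  CL.cons (nat_lit 162) (nat_lit 2048) (nat_lit 3072) (nat_lit 0) (nat_lit 1024) <|
  CL.cons (nat_lit 152) (nat_lit 2048) (nat_lit 3072) (nat_lit 1024) (nat_lit 2048) <|
  CL.cons (nat_lit 123) (nat_lit 2048) (nat_lit 3072) (nat_lit 2048) (nat_lit 3072) <|
  CL.cons (nat_lit 123) (nat_lit 2048) (nat_lit 3072) (nat_lit 7168) (nat_lit 8192) <|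
  CL.cons (nat_lit 152) (nat_lit 2048) (nat_lit 3072) (nat_lit 8192) (nat_lit 9216) <|
  CL.cons (nat_lit 162) (nat_lit 2048) (nat_lit 3072) (nat_lit 9216) (nat_lit 10240) <|
  CL.cons (nat_lit 135) (nat_lit 3072) (nat_lit 4096) (nat_lit 0) (nat_lit 1024) <|
  CL.cons (nat_lit 151) (nat_lit 3072) (nat_lit 4096) (nat_lit 1024) (nat_lit 2048) <|
  CL.cons (nat_lit 151) (nat_lit 3072) (nat_lit 4096) (nat_lit 8192) (nat_lit 9216) <|
  CL.cons (nat_lit 135) (nat_lit 3072) (nat_lit 4096) (nat_lit 9216) (nat_lit 10240) <|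
  CL.cons (nat_lit 121) (nat_lit 4096) (nat_lit 5120) (nat_lit 0) (nat_lit 1024) <|
  CL.cons (nat_lit 105) (nat_lit 4096) (nat_lit 5120) (nat_lit 1024) (nat_lit 2048) <|
  CL.cons (nat_lit 256) (nat_lit 4096) (nat_lit 5120) (nat_lit 4096) (nat_lit 5120) <|
  CL.cons (nat_lit 256) (nat_lit 4096) (nat_lit 5120) (nat_lit 5120) (nat_lit 6144) <|
  CL.cons (nat_lit 105) (nat_lit 4096) (nat_lit 5120) (nat_lit 8192) (nat_lit 9216) <|
  CL.cons (nat_lit 121) (nat_lit 4096) (nat_lit 5120) (nat_lit 9216) (nat_lit 10240) <|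
  CL.cons (nat_lit 121) (nat_lit 5120) (nat_lit 6144) (nat_lit 0) (nat_lit 1024) <|
  CL.cons (nat_lit 105) (nat_lit 5120) (nat_lit 6144) (nat_lit 1024) (nat_lit 2048) <|
  CL.cons (nat_lit 256) (nat_lit 5120) (nat_lit 6144) (nat_lit 4096) (nat_lit 5120) <|
  CL.cons (nat_lit 256) (nat_lit 5120) (nat_lit 6144) (nat_lit 5120) (nat_lit 6144) <|
  CL.cons (nat_lit 105) (nat_lit 5120) (nat_lit 6144) (nat_lit 8192) (nat_lit 9216) <|
  CL.cons (nat_lit 121) (nat_lit 5120) (nat_lit 6144) (nat_lit 9216) (nat_lit 10240) <|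
  CL.cons (nat_lit 135) (nat_lit 6144) (nat_lit 7168) (nat_lit 0) (nat_lit 1024) <|
  CL.cons (nat_lit 151) (nat_lit 6144) (nat_lit 7168) (nat_lit 1024) (nat_lit 2048) <|
  CL.cons (nat_lit 151) (nat_lit 6144) (nat_lit 7168) (nat_lit 8192) (nat_lit 9216) <|
  CL.cons (nat_lit 135) (nat_lit 6144) (nat_lit 7168) (nat_lit 9216) (nat_lit 10240) <|
  CL.cons (nat_lit 162) (nat_lit 7168) (nat_lit 8192) (nat_lit 0) (nat_lit 1024) <|
  CL.cons (nat_lit 152) (nat_lit 7168) (nat_lit 8192) (nat_lit 1024) (nat_lit 2048) <|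
  CL.cons (nat_lit 123) (nat_lit 7168) (nat_lit 8192) (nat_lit 2048) (nat_lit 3072) <|
  CL.cons (nat_lit 123) (nat_lit 7168) (nat_lit 8192) (nat_lit 7168) (nat_lit 8192) <|
  CL.cons (nat_lit 152) (nat_lit 7168) (nat_lit 8192) (nat_lit 8192) (nat_lit 9216) <|
  CL.cons (nat_lit 162) (nat_lit 7168) (nat_lit 8192) (nat_lit 9216) (nat_lit 10240) <|
  CL.cons (nat_lit 88) (nat_lit 8192) (nat_lit 9216) (nat_lit 0) (nat_lit 1024) <|
  CL.cons (nat_lit 150) (nat_lit 8192) (nat_lit 9216) (nat_lit 1024) (nat_lit 2048) <|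
  CL.cons (nat_lit 152) (nat_lit 8192) (nat_lit 9216) (nat_lit 2048) (nat_lit 3072) <|
  CL.cons (nat_lit 151) (nat_lit 8192) (nat_lit 9216) (nat_lit 3072) (nat_lit 4096) <|
  CL.cons (nat_lit 105) (nat_lit 8192) (nat_lit 9216) (nat_lit 4096) (nat_lit 5120) <|
  CL.cons (nat_lit 105) (nat_lit 8192) (nat_lit 9216) (nat_lit 5120) (nat_lit 6144) <|
  CL.cons (nat_lit 151) (nat_lit 8192) (nat_lit 9216) (nat_lit 6144) (nat_lit 7168) <|
  CL.cons (nat_lit 152) (nat_lit 8192) (nat_lit 9216) (nat_lit 7168) (nat_lit 8192) <|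
  CL.cons (nat_lit 150) (nat_lit 8192) (nat_lit 9216) (nat_lit 8192) (nat_lit 9216) <|
  CL.cons (nat_lit 88) (nat_lit 8192) (nat_lit 9216) (nat_lit 9216) (nat_lit 10240) <|
  CL.cons (nat_lit 88) (nat_lit 9216) (nat_lit 10240) (nat_lit 1024) (nat_lit 2048) <|
  CL.cons (nat_lit 162) (nat_lit 9216) (nat_lit 10240) (nat_lit 2048) (nat_lit 3072) <|
  CL.cons (nat_lit 135) (nat_lit 9216) (nat_lit 10240) (nat_lit 3072) (nat_lit 4096) <|
  CL.cons (nat_lit 121) (nat_lit 9216) (nat_lit 10240) (nat_lit 4096) (nat_lit 5120) <|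
  CL.cons (nat_lit 121) (nat_lit 9216) (nat_lit 10240) (nat_lit 5120) (nat_lit 6144) <|
  CL.cons (nat_lit 135) (nat_lit 9216) (nat_lit 10240) (nat_lit 6144) (nat_lit 7168) <|
  CL.cons (nat_lit 162) (nat_lit 9216) (nat_lit 10240) (nat_lit 7168) (nat_lit 8192) <|
  CL.cons (nat_lit 88) (nat_lit 9216) (nat_lit 10240) (nat_lit 8192) (nat_lit 9216) <|
  CL.nil

def ty0 : Ty := ⟨nat_lit 1, nat_lit 0, nat_lit 0, nat_lit 0, nat_lit 512, nat_lit 512⟩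
def ty1 : Ty := ⟨nat_lit 0, nat_lit 1, nat_lit 1024, nat_lit 1024, nat_lit 0, nat_lit 0⟩
def ty2 : Ty := ⟨nat_lit 1, nat_lit 0, nat_lit 0, nat_lit 0, nat_lit 1024, nat_lit 0⟩
def ty3 : Ty := ⟨nat_lit 1, nat_lit 0, nat_lit 0, nat_lit 0, nat_lit 1024, nat_lit 1024⟩

noncomputable def chk (y : Ty) (tl th sl rl cd : ℕ) : Bool :=
  Nat.beq (bb (leaf cells (nat_lit 2202932630228537) y) (nat_lit 40) tl th sl (nat_lit 1024) rl
    (nat_lit 1024) cd) (nat_lit 1)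

end Pool.Agent.P.MP_53fdf1_co
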