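import Mathlib

set_option autoImplicit false

open MeasureTheory Set

namespace Pool.Agent.P.MP_53fdf1_co.H

abbrev E3 : Type := EuclideanSpace ℝ (Fin 3)

structure V where
  (x y z : ℚ)

/-- a corner and three edge vectors -/
structure Cb where
  (o a b c : V)

def V.d (p q : V) : ℚ := p.x * q.x + p.y * q.y + p.z * q.z

def V.r (p : V) (t : E3) : ℝ := p.x * t 0 + p.y * t 1 + p.z * t 2

noncomputable def V.e (p : V) : E3 := !₂[(p.x : ℝ), (p.y : ℝ), (p.z : ℝ)]

def Cb.ok (A : Cb) : Prop :=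
  A.a.d A.a = 1 ∧ A.b.d A.b = 1 ∧ A.c.d A.c = 1 ∧ A.a.d A.b = 0 ∧ A.a.d A.c = 0 ∧ A.b.d A.c = 0

instance (A : Cb) : Decidable A.ok := by unfold Cb.ok; infer_instance

noncomputable def Cb.lin (A : Cb) : E3 →ₗ[ℝ] E3 :=
  (EuclideanSpace.projₗ (0 : Fin 3)).smulRight A.a.e + (EuclideanSpace.projₗ (1 : Fin 3)).smulRight A.b.e +
    (EuclideanSpace.projₗ (2 : Fin 3)).smulRight A.c.e

theorem Cb.lin_ap (A : Cb) (t : E3) : A.lin t 0 = t 0 * A.a.x + t 1 * A.b.x + t 2 * A.c.x ∧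
    A.lin t 1 = t 0 * A.a.y + t 1 * A.b.y + t 2 * A.c.y ∧ A.lin t 2 = t 0 * A.a.z + t 1 * A.b.z + t 2 * A.c.z := by
  simp [Cb.lin, V.e]

theorem dc {p q : V} {s : ℚ} (h : p.d q = s) : (p.x : ℝ) * q.x + p.y * q.y + p.z * q.z = s := by
  rw [← h, V.d]
  push_cast
  rfl

theorem Cb.nrm {A : Cb} (h : A.ok) (t : E3) : ‖A.lin t‖ = ‖t‖ := by
  obtain ⟨h1, h2, h3, h4, h5, h6⟩ := h
  obtain ⟨e0, e1, e2⟩ := A.lin_ap t
  have := dc h1
  have := dc h2
  have := dc h3
  have := dc h4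
  have := dc h5
  have := dc h6
  rw [EuclideanSpace.norm_eq, EuclideanSpace.norm_eq]
  congr 1
  simp only [Fin.sum_univ_three, Real.norm_eq_abs, sq_abs, e0, e1, e2]
  push_cast at *
  linear_combination t 0 ^ 2 * dc h1 + t 1 ^ 2 * dc h2 + t 2 ^ 2 * dc h3 + 2 * t 0 * t 1 * dc h4 +
    2 * t 0 * t 2 * dc h5 + 2 * t 1 * t 2 * dc h6

noncomputable def Cb.iso (A : Cb) (h : A.ok) : E3 ≃ᵢ E3 :=
  ((⟨A.lin, Cb.nrm h⟩ : E3 →ₗᵢ[ℝ] E3).toLinearIsometryEquiv rfl).toIsometryEquiv.trans (IsometryEquiv.addLeft A.o.e)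

theorem Cb.iso_ap {A : Cb} (h : A.ok) (t : E3) : A.iso h t = A.o.e + A.lin t := rfl

def box : Set E3 := {x | ∀ i, x i ∈ Icc (0 : ℝ) 1}

def Cb.set (A : Cb) (h : A.ok) : Set E3 := A.iso h '' box

theorem Cb.r_ap {A : Cb} (h : A.ok) (n : V) (t : E3) :
    n.r (A.iso h t) = n.d A.o + t 0 * n.d A.a + t 1 * n.d A.b + t 2 * n.d A.c := by
  obtain ⟨e0, e1, e2⟩ := A.lin_ap t
  simp only [Cb.iso_ap, V.r, PiLp.add_apply, e0, e1, e2, V.d]
  simp [V.e]
  ring

theorem d_comm (p q : V) : p.d q = q.d p := by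
  simp only [V.d]
  ring

theorem Cb.mem {A : Cb} (h : A.ok) {x : E3} (ha : A.a.r x - A.a.d A.o ∈ Icc (0 : ℝ) 1)
    (hb : A.b.r x - A.b.d A.o ∈ Icc (0 : ℝ) 1) (hc : A.c.r x - A.c.d A.o ∈ Icc (0 : ℝ) 1) : x ∈ A.set h := by
  obtain ⟨t, rfl⟩ := (A.iso h).surjective x
  refine ⟨t, fun i => ?_, rfl⟩
  rw [Cb.r_ap] at ha hb hc
  obtain ⟨h1, h2, h3, h4, h5, h6⟩ := h
  rw [h1, h4, h5] at ha
  rw [d_comm A.b A.a, h2, h4, h6] at hb
  rw [d_comm A.c A.a, d_comm A.c A.b, h3, h5, h6] at hc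
  fin_cases i
  · simpa using ha
  · simpa using hb
  · simpa using hc

def Cb.hi (A : Cb) (n : V) : ℚ := n.d A.o + max (n.d A.a) 0 + max (n.d A.b) 0 + max (n.d A.c) 0

def Cb.lo (A : Cb) (n : V) : ℚ := n.d A.o + min (n.d A.a) 0 + min (n.d A.b) 0 + min (n.d A.c) 0

theorem le_mx {t a : ℝ} (h : t ∈ Icc (0 : ℝ) 1) : t * a ≤ max a 0 ∧ min a 0 ≤ t * a := by
  rcases le_total a 0 with k | k
  · rw [max_eq_right k, min_eq_left k]
    constructor <;> nlinarith [h.1, h.2]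
  · rw [max_eq_left k, min_eq_right k]
    constructor <;> nlinarith [h.1, h.2]

theorem Cb.bd {A : Cb} (h : A.ok) (n : V) {x : E3} (hx : x ∈ A.set h) : n.r x ≤ A.hi n ∧ (A.lo n : ℝ) ≤ n.r x := by
  obtain ⟨t, ht, rfl⟩ := hx
  have a := le_mx (a := n.d A.a) (ht 0)
  have b := le_mx (a := n.d A.b) (ht 1)
  have c := le_mx (a := n.d A.c) (ht 2)
  rw [Cb.r_ap, Cb.hi, Cb.lo]
  push_cast
  constructor <;> linarith [a.1, a.2, b.1, b.2, c.1, c.2]

theorem push {S : Set E3} {x : E3} (hx : x ∈ interior S) (w : E3) : ∃ d : ℝ, 0 < d ∧ x + d • w ∈ S := by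
  have c : Continuous fun d : ℝ => x + d • w := by fun_prop
  have m : (fun d : ℝ => x + d • w) ⁻¹' S ∈ nhds (0 : ℝ) :=
    c.continuousAt.preimage_mem_nhds (by simpa using mem_interior_iff_mem_nhds.1 hx)
  obtain ⟨e, e0, he⟩ := Metric.mem_nhds_iff.1 m
  exact ⟨e / 2, by linarith, he (by rw [mem_ball_zero_iff, Real.norm_eq_abs, abs_of_pos] <;> linarith)⟩

def Sep (A B : Cb) (n : V) : Prop := 0 < n.d n ∧ A.hi n ≤ B.lo n

instance (A B : Cb) (n : V) : Decidable (Sep A B n) := by unfold Sep; infer_instance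

theorem r_add (n : V) (x : E3) (d : ℝ) : n.r (x + d • n.e) = n.r x + d * n.d n := by
  simp [V.r, V.e, V.d]
  ring

theorem Sep.dis {A B : Cb} (hA : A.ok) (hB : B.ok) {n : V} (h : Sep A B n) :
    Disjoint (interior (A.set hA)) (B.set hB) ∧ Disjoint (A.set hA) (interior (B.set hB)) := by
  have n0 : (0 : ℝ) < n.d n := by exact_mod_cast h.1
  have l : (A.hi n : ℝ) ≤ B.lo n := by exact_mod_cast h.2
  refine ⟨disjoint_left.2 fun x a b => ?_, disjoint_left.2 fun x a b => ?_⟩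
  · obtain ⟨d, d0, hd⟩ := push a n.e
    have := (Cb.bd hA n hd).1
    rw [r_add] at this
    nlinarith [(Cb.bd hB n b).2, mul_pos d0 n0]
  · obtain ⟨d, d0, hd⟩ := push b (-n.e)
    have := (Cb.bd hB n hd).2
    rw [smul_neg, ← neg_smul, r_add] at this
    nlinarith [(Cb.bd hA n a).1, mul_pos d0 n0]

/-- the vector with entry `h` on the axis `k` and `u`, `v` on the next two axes -/
def vec (k : Fin 3) (h u v : ℚ) : V := ![⟨h, u, v⟩, ⟨v, h, u⟩, ⟨u, v, h⟩] k

noncomputable def emb (k : Fin 3) (h : ℝ) (z : Fin 2 → ℝ) : E3 := ![!₂[h, z 0, z 1], !₂[z 1, h, z 0], !₂[z 0, z 1, h]] k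

def prj (k : Fin 3) (x : E3) : Fin 2 → ℝ := ![x (k + 1), x (k + 2)]

theorem prj_emb (k : Fin 3) (h : ℝ) (z : Fin 2 → ℝ) : prj k (emb k h z) = z := by
  funext i
  fin_cases k <;> fin_cases i <;> rfl

theorem prj_lip (k : Fin 3) : LipschitzWith 1 (prj k) := by
  refine LipschitzWith.of_dist_le_mul fun x y => ?_
  rw [NNReal.coe_one, one_mul, dist_pi_le_iff dist_nonneg]
  intro i
  fin_cases i <;> exact PiLp.dist_apply_le x y _

theorem area {S : Set E3} (k : Fin 3) (h u v r : ℝ) (r0 : 0 < r)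
    (hS : ∀ z : Fin 2 → ℝ, |z 0 - u| < r → |z 1 - v| < r → emb k h z ∈ S) : 0 < μH[2] S := by
  have l := (prj_lip k).hausdorffMeasure_image_le (d := 2) (by norm_num) S
  have e : (μH[2] : Measure (Fin 2 → ℝ)) = volume := by simpa using hausdorffMeasure_pi_real (ι := Fin 2)
  have s : Metric.ball (![u, v] : Fin 2 → ℝ) r ⊆ prj k '' S := fun z hz => by
    rw [Metric.mem_ball, dist_pi_lt_iff r0] at hz
    exact ⟨_, hS z (hz 0) (hz 1), prj_emb k h z⟩
  have p := (Metric.measure_ball_pos volume (![u, v] : Fin 2 → ℝ) r0).trans_le (measure_mono s)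
  rw [← e] at p
  simpa using p.trans_le l

def Near (n : V) (o : V) (k : Fin 3) (h u v r : ℚ) : Prop :=
  r * (|n.d (vec k 0 1 0)| + |n.d (vec k 0 0 1)|) ≤ n.d (vec k h u v) - n.d o ∧
    n.d (vec k h u v) - n.d o + r * (|n.d (vec k 0 1 0)| + |n.d (vec k 0 0 1)|) ≤ 1

theorem Near.mem {n o : V} {k : Fin 3} {h u v r : ℚ} (H : Near n o k h u v r) {z : Fin 2 → ℝ} (a : |z 0 - u| < r)
    (b : |z 1 - v| < r) : n.r (emb k h z) - n.d o ∈ Icc (0 : ℝ) 1 := by
  have e : n.r (emb k h z) = n.d (vec k h u v) + ((z 0 - u) * n.d (vec k 0 1 0) + (z 1 - v) * n.d (vec k 0 0 1)) := by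
    fin_cases k <;> simp [V.r, V.d, emb, vec] <;> ring
  have h1 : ((r * (|n.d (vec k 0 1 0)| + |n.d (vec k 0 0 1)|) : ℚ) : ℝ) ≤ (n.d (vec k h u v) - n.d o : ℚ) :=
    Rat.cast_le.2 H.1
  have h2 : ((n.d (vec k h u v) - n.d o + r * (|n.d (vec k 0 1 0)| + |n.d (vec k 0 0 1)|) : ℚ) : ℝ) ≤ (1 : ℚ) :=
    Rat.cast_le.2 H.2
  push_cast at h1 h2
  have k1 := abs_le.1 ((abs_mul _ _).trans_le
    (mul_le_mul_of_nonneg_right a.le (abs_nonneg (n.d (vec k 0 1 0) : ℝ))))
  have k2 := abs_le.1 ((abs_mul _ _).trans_le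
    (mul_le_mul_of_nonneg_right b.le (abs_nonneg (n.d (vec k 0 0 1) : ℝ))))
  rw [e]
  constructor <;> linarith [k1.1, k1.2, k2.1, k2.2]

def Cb.nr (A : Cb) (k : Fin 3) (h u v r : ℚ) : Prop :=
  Near A.a A.o k h u v r ∧ Near A.b A.o k h u v r ∧ Near A.c A.o k h u v r

instance (A : Cb) (k : Fin 3) (h u v r : ℚ) : Decidable (A.nr k h u v r) := by
  unfold Cb.nr Near
  infer_instance

theorem touch {A B : Cb} (hA : A.ok) (hB : B.ok) {n : V} (s : Sep A B n) {k : Fin 3} {h u v r : ℚ} (r0 : 0 < r)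
    (a : A.nr k h u v r) (b : B.nr k h u v r) : 0 < μH[2] (frontier (A.set hA) ∩ frontier (B.set hB)) := by
  refine area k h u v r (by exact_mod_cast r0) fun z p q => ?_
  have x := Cb.mem hA (a.1.mem p q) (a.2.1.mem p q) (a.2.2.mem p q)
  have y := Cb.mem hB (b.1.mem p q) (b.2.1.mem p q) (b.2.2.mem p q)
  exact ⟨⟨subset_closure x, fun i => disjoint_left.1 (s.dis hA hB).1 i y⟩,
    ⟨subset_closure y, fun i => disjoint_left.1 (s.dis hA hB).2 x i⟩⟩

/-- axis and side of the face, centre, tangent of the half angle, a point of contact -/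
structure Dt where
  (k : Fin 3) (h u v m p q : ℚ)

def Dt.cb (D : Dt) : Cb :=
  let c := (1 - D.m * D.m) / (1 + D.m * D.m)
  let s := 2 * D.m / (1 + D.m * D.m)
  ⟨vec D.k (2 * D.h - 1) (D.u - (c - s) / 2) (D.v - (s + c) / 2), vec D.k 0 c s, vec D.k 0 (-s) c, vec D.k 1 0 0⟩

def dt : Fin 24 → Dt :=
  ![⟨0, 0, (-45213 / 100000), (-54313 / 100000), (57 / 1250), (77 / 500000), (69 / 500000)⟩,
    ⟨0, 0, (-54313 / 100000), (22641 / 50000), (57 / 1250), (69 / 500000), (67 / 125000)⟩,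
    ⟨0, 0, (-51791 / 100000), (148081 / 100000), (58 / 3125), (9 / 62500), (249963 / 250000)⟩,
    ⟨0, 0, (6901 / 12500), (-54271 / 100000), (57 / 1250), (499929 / 500000), (71 / 500000)⟩,
    ⟨0, 0, (4611 / 10000), (11331 / 25000), (2279 / 50000), (464173 / 1000000), (456931 / 1000000)⟩,
    ⟨0, 0, (4817 / 10000), (15123 / 10000), (58 / 3125), (3439 / 1000000), (997151 / 1000000)⟩,
    ⟨0, 0, (19289 / 12500), (-39791 / 100000), (2279 / 50000), (499933 / 500000), (54399 / 1000000)⟩,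
    ⟨0, 1, (-22031 / 50000), (-55253 / 100000), (2807 / 50000), (147 / 1000000), (131 / 1000000)⟩,
    ⟨0, 1, (-55253 / 100000), (1379 / 3125), (2807 / 50000), (131 / 1000000), (513 / 1000000)⟩,
    ⟨0, 1, (-5237 / 10000), (2949 / 2000), (1231 / 50000), (143 / 1000000), (999853 / 1000000)⟩,
    ⟨0, 1, (29619 / 50000), (-358 / 625), (1013 / 12500), (199973 / 200000), (27 / 200000)⟩,
    ⟨0, 1, (5747 / 12500), (11763 / 25000), (3269 / 50000), (5747 / 12500), (11763 / 25000)⟩,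
    ⟨0, 1, (603 / 1250), (151721 / 100000), (223 / 12500), (7 / 10000), (249963 / 250000)⟩,
    ⟨0, 1, (19671 / 12500), (-1883 / 5000), (1013 / 12500), (249967 / 250000), (36239 / 1000000)⟩,
    ⟨1, 1, (-10903 / 25000), (1 / 2), 0, (1597 / 50000), (48403 / 50000)⟩,
    ⟨1, 1, (83271 / 100000), (-68681 / 100000), (3507 / 12500), (249901 / 250000), (53 / 500000)⟩,
    ⟨1, 1, (37689 / 50000), (21809 / 50000), (3507 / 12500), (676881 / 1000000), (28429 / 62500)⟩,
    ⟨1, 1, (44229 / 50000), (168681 / 100000), (3507 / 12500), (358843 / 500000), (499947 / 500000)⟩,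
    ⟨1, 1, (168681 / 100000), (-8327 / 50000), (3507 / 12500), (499947 / 500000), (177 / 500000)⟩,
    ⟨1, 1, (20099 / 12500), (47819 / 50000), (3507 / 12500), (99873 / 100000), (99873 / 100000)⟩,
    ⟨1, 0, 1, (1 / 2), 0, (3 / 4), (3 / 4)⟩,
    ⟨1, 0, 0, (1 / 2), 0, (1 / 4), (3 / 4)⟩,
    ⟨2, 0, (1 / 2), (1 / 2), 0, (1 / 2), (1 / 2)⟩,
    ⟨2, 1, (1 / 2), (1 / 2), 0, (1 / 2), (1 / 2)⟩]

def G0 : Cb := ⟨⟨0, 0, 0⟩, ⟨1, 0, 0⟩, ⟨0, 1, 0⟩, ⟨0, 0, 1⟩⟩

def Cb.ed (A : Cb) (i : ℕ) : V := if i = 0 then A.a else if i = 1 then A.b else A.c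

def V.cr (p q : V) : V := ⟨p.y * q.z - p.z * q.y, p.z * q.x - p.x * q.z, p.x * q.y - p.y * q.x⟩

def V.sg (p : V) (g : ℕ) : V := if g = 0 then p else ⟨-p.x, -p.y, -p.z⟩

def cand (A B : Cb) (h : ℕ) : V :=
  (if h < 6 then A.ed (h / 2) else if h < 12 then B.ed (h / 2 - 3)
    else (A.ed ((h / 2 - 6) / 3)).cr (B.ed (h / 2 % 3))).sg (h % 2)

def hint (i j : ℕ) : ℕ := (0x20000000000000000000000000000000080000000000000000000000000000081080000000000000000000000000005084a0000000000000000000000000028445100000000000000000000000000c2128c6000000000000000000000000a5294031000000000000000000000000108a00004000000000000000000000014a00000000000000000000000000008210885c494a0000000000000000000a30954551ca318000000000000000005294a0002452a500000000000000000114a2000000140210000000000000001463280000000000c600000000000000032940000000000004000000000000002944000000000000084000000000001042110846e10822102108000000000106121144528632106108c60000000008421000000042088410480100000000221040000002104420824008400000020c64000000000018c8318003180000006420000000000100420c00001000000420800000000008011080000021000428c621084210000000000842108420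 >>> (5 * (25 * i + j))) % 32

theorem g_ok : G0.ok := by decide +kernel

theorem c_ok : ∀ i, (dt i).cb.ok := by decide +kernel

theorem c_g : ∀ i : Fin 24, Sep G0 (dt i).cb (cand G0 (dt i).cb (hint 0 (i + 1))) := by decide +kernel

theorem c_n : ∀ i, G0.nr (dt i).k (dt i).h (dt i).p (dt i).q (1 / 20000) ∧
    (dt i).cb.nr (dt i).k (dt i).h (dt i).p (dt i).q (1 / 20000) := by decide +kernel

theorem c_c : ∀ i j : Fin 24, i < j → Sep (dt i).cb (dt j).cb (cand (dt i).cb (dt j).cb (hint (i + 1) (j + 1))) := by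
  decide +kernel

/-- twenty-four cubes around any unit cube -/
theorem ex24 (φ : E3 ≃ᵢ E3) : ∃ ψ : Fin 24 → E3 ≃ᵢ E3,
    (∀ i, Disjoint (interior (φ '' box)) (interior (ψ i '' box))) ∧
    (∀ i j, i ≠ j → Disjoint (interior (ψ i '' box)) (interior (ψ j '' box))) ∧
    ∀ i, 0 < μH[2] (frontier (φ '' box) ∩ frontier (ψ i '' box)) := by
  set T := (G0.iso g_ok).symm.trans φ with hT
  have e0 : φ '' box = T '' G0.set g_ok := by
    rw [Cb.set, ← image_comp]
    congr 1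
    funext x
    simp [hT]
  have e : ∀ i, (((dt i).cb.iso (c_ok i)).trans T) '' box = T '' (dt i).cb.set (c_ok i) := fun i => by
    rw [Cb.set, ← image_comp]
    rfl
  have di : ∀ S S' : Set E3, Disjoint (interior S) S' → Disjoint (interior (T '' S)) (interior (T '' S')) :=
    fun S S' h => by
      have a := T.toHomeomorph.image_interior S
      have b := T.toHomeomorph.image_interior S'
      rw [IsometryEquiv.coe_toHomeomorph] at a b
      rw [← a, ← b, disjoint_image_iff T.injective]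
      exact h.mono_right interior_subset
  refine ⟨fun i => ((dt i).cb.iso (c_ok i)).trans T, fun i => ?_, fun i j n => ?_, fun i => ?_⟩
  · rw [e0, e]
    exact di _ _ ((c_g i).dis g_ok (c_ok i)).1
  · rw [e, e]
    rcases lt_or_gt_of_ne n with l | l
    · exact di _ _ ((c_c i j l).dis (c_ok i) (c_ok j)).1
    · exact (di _ _ ((c_c j i l).dis (c_ok j) (c_ok i)).1).symm
  · have a := T.toHomeomorph.image_frontier (G0.set g_ok)
    have b := T.toHomeomorph.image_frontier ((dt i).cb.set (c_ok i))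
    rw [IsometryEquiv.coe_toHomeomorph] at a b
    rw [e0, e, ← a, ← b, ← image_inter T.injective, T.isometry.hausdorffMeasure_image (Or.inl (by norm_num))]
    exact touch g_ok (c_ok i) (c_g i) (by norm_num) (c_n i).1 (c_n i).2

end Pool.Agent.P.MP_53fdf1_co.H
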