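import Pool.Agent.P.MP_53fdf1_co.Area

set_option autoImplicit false

open MeasureTheory Set

namespace Pool.Agent.P.MP_53fdf1_co

/-- the open square of side `4096` with centre `(c1, c2)` and direction `(a, b)` -/
def Sq (c1 c2 a b : ℝ) : Set (ℝ × ℝ) :=
  {z | |a * (z.1 - c1) + b * (z.2 - c2)| < 2048 ∧ |a * (z.2 - c2) - b * (z.1 - c1)| < 2048}

def radR (al be : ℕ) (t : ℝ) : ℝ := al * 1024 + be * t

def vPR (y : Ty) (al be : ℕ) (t s r : ℝ) : ℝ :=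
  20401094656 + (y.a1 + y.b * s) * 4194304 + t * ((y.a2 + y.b * r) * 4096 + 3145728) +
    (y.a3 + y.bb * s) * radR al be t

def vQR (y : Ty) (al be : ℕ) (t s r : ℝ) : ℝ :=
  20401094656 + (y.a2 + y.b * r) * 4194304 + (y.a4 + y.bb * r) * radR al be t -
    t * ((y.a1 + y.b * s) * 4096 + 3145728)

structure TyOK (y : Ty) : Prop where
  h1 : y.a1 + y.b * 1024 ≤ 1024
  h3 : y.a3 + y.bb * 1024 ≤ 1024
  h4 : y.a4 + y.bb * 1024 ≤ 1024

theorem rad_cast (al be t : ℕ) : ((rad al be t : ℕ) : ℝ) = radR al be t := by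
  have e : rad al be t = al * 1024 + be * t := rfl
  rw [e, radR]; push_cast; ring

theorem vP_cast (y : Ty) (al be t s r : ℕ) : ((vP y al be t s r : ℕ) : ℝ) = vPR y al be t s r := by
  have e : vP y al be t s r = 20401094656 + (y.a1 + y.b * s) * 4194304 +
    t * ((y.a2 + y.b * r) * 4096 + 3145728) + (y.a3 + y.bb * s) * rad al be t := rfl
  rw [e, vPR, ← rad_cast]; push_cast; ring

theorem vQ_cast {y : Ty} (hy : TyOK y) (al be t s r : ℕ) (ht : t ≤ 1024) (hs : s ≤ 1024) :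
    ((vQ y al be t s r : ℕ) : ℝ) = vQR y al be t s r := by
  have e : vQ y al be t s r = 20401094656 + (y.a2 + y.b * r) * 4194304 +
    (y.a4 + y.bb * r) * rad al be t - t * ((y.a1 + y.b * s) * 4096 + 3145728) := rfl
  have h1 : y.a1 + y.b * s ≤ 1024 := le_trans (by gcongr) hy.h1
  have h2 : t * ((y.a1 + y.b * s) * 4096 + 3145728) ≤ 1024 * (1024 * 4096 + 3145728) := by gcongr
  rw [e, Nat.cast_sub (by omega), vQR, ← rad_cast]; push_cast; ring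

def tri (p q w : ℝ) (hp : p ∈ Icc (0 : ℝ) 1) (hq : q ∈ Icc (0 : ℝ) 1) (hw : w ∈ Icc (0 : ℝ) 1) : L8 where
  l0 := (1 - p) * (1 - q) * (1 - w)
  l1 := (1 - p) * q * (1 - w)
  l2 := (1 - p) * (1 - q) * w
  l3 := (1 - p) * q * w
  l4 := p * (1 - q) * (1 - w)
  l5 := p * q * (1 - w)
  l6 := p * (1 - q) * w
  l7 := p * q * w
  h0 := mul_nonneg (mul_nonneg (sub_nonneg.2 hp.2) (sub_nonneg.2 hq.2)) (sub_nonneg.2 hw.2)
  h1 := mul_nonneg (mul_nonneg (sub_nonneg.2 hp.2) hq.1) (sub_nonneg.2 hw.2)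
  h2 := mul_nonneg (mul_nonneg (sub_nonneg.2 hp.2) (sub_nonneg.2 hq.2)) hw.1
  h3 := mul_nonneg (mul_nonneg (sub_nonneg.2 hp.2) hq.1) hw.1
  h4 := mul_nonneg (mul_nonneg hp.1 (sub_nonneg.2 hq.2)) (sub_nonneg.2 hw.2)
  h5 := mul_nonneg (mul_nonneg hp.1 hq.1) (sub_nonneg.2 hw.2)
  h6 := mul_nonneg (mul_nonneg hp.1 (sub_nonneg.2 hq.2)) hw.1
  h7 := mul_nonneg (mul_nonneg hp.1 hq.1) hw.1
  sum := by ring

theorem ex_par {a b x : ℝ} (h1 : a ≤ x) (h2 : x ≤ b) : ∃ p ∈ Icc (0 : ℝ) 1, x = a + p * (b - a) := by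
  rcases (h1.trans h2).eq_or_lt with rfl | h
  · exact ⟨0, by simp, by linarith⟩
  · have := sub_pos.2 h
    refine ⟨(x - a) / (b - a), ⟨div_nonneg (by linarith) this.le, (div_le_one this).2 (by linarith)⟩, ?_⟩
    field_simp
    ring

/-- the mass bound for the squares with parameters `t, s, r` in a tile -/
def GT (L : CL) (M : ℕ) (y : Ty) (t s r : ℝ) : Prop :=
  ∀ a b : ℝ, 0 < a → a ^ 2 + b ^ 2 = 1 → t * a = 1024 * b →
    (M : ℝ) ≤ 2 ^ 21 * L.mass (ar (Sq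
      (4 * (y.a1 + y.b * s) + 3072 + (4 * (y.a3 + y.bb * s) - 2048) * a - (4 * (y.a4 + y.bb * r) - 2048) * b)
      (4 * (y.a2 + y.b * r) + 3072 + (4 * (y.a3 + y.bb * s) - 2048) * b + (4 * (y.a4 + y.bb * r) - 2048) * a)
      a b))

theorem mass_mono {A B : ℕ → ℕ → ℕ → ℕ → ℝ} (h : ∀ a b c d, A a b c d ≤ B a b c d) (L : CL) :
    L.mass A ≤ L.mass B := by
  induction L with
  | nil => exact le_rfl
  | cons w x0 x1 y0 y1 t ih =>
    exact add_le_add (mul_le_mul_of_nonneg_left (h _ _ _ _) (Nat.cast_nonneg w)) ih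

theorem sub_Sq {a b t k1 k2 u v R pp pm qp qm : ℝ} (ha : 0 < a) (hab : a ^ 2 + b ^ 2 = 1)
    (ht : t * a = 1024 * b) (hR : R * a ≤ 4194304) (u0 : 0 ≤ u) (u1 : u ≤ 1024) (v0 : 0 ≤ v)
    (v1 : v ≤ 1024)
    (hpp : pp = 20401094656 + k1 * 4194304 + t * (k2 * 4096 + 3145728) + u * R)
    (hqp : qp = 20401094656 + k2 * 4194304 + v * R - t * (k1 * 4096 + 3145728))
    (hpm : pp - 1024 * R ≤ pm) (hqm : qp - 1024 * R ≤ qm) :
    SV (1024 * t) pp pm qp qm ⊆ Sq (4 * k1 + 3072 + (4 * u - 2048) * a - (4 * v - 2048) * b)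
      (4 * k2 + 3072 + (4 * u - 2048) * b + (4 * v - 2048) * a) a b := by
  rintro ⟨x, y⟩ ⟨h1, h2, h3, h4⟩
  simp only [upR, dnR] at h1 h2 h3 h4
  have g1 := mul_lt_mul_of_pos_right (hpm.trans_lt h1) ha
  have g2 := mul_lt_mul_of_pos_right h2 ha
  have g3 := mul_lt_mul_of_pos_right (hqm.trans_lt h3) ha
  have g4 := mul_lt_mul_of_pos_right h4 ha
  have m1 := mul_le_mul_of_nonneg_left hR u0
  have m2 := mul_le_mul_of_nonneg_left hR (sub_nonneg.2 u1)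
  have m3 := mul_le_mul_of_nonneg_left hR v0
  have m4 := mul_le_mul_of_nonneg_left hR (sub_nonneg.2 v1)
  subst hpp hqp
  refine ⟨abs_lt.2 ⟨?_, ?_⟩, abs_lt.2 ⟨?_, ?_⟩⟩ <;> simp only
  · linear_combination (1 / 2 ^ 20) * g1 + (1 / 2 ^ 20) * m2 + (4 * u - 2048) * hab +
      (1 / 2 ^ 20) * (1024 * y - k2 * 4096 - 3145728) * ht
  · linear_combination (1 / 2 ^ 20) * g2 + (1 / 2 ^ 20) * m1 - (4 * u - 2048) * hab -
      (1 / 2 ^ 20) * (1024 * y - k2 * 4096 - 3145728) * ht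
  · linear_combination (1 / 2 ^ 20) * g3 + (1 / 2 ^ 20) * m4 + (4 * v - 2048) * hab -
      (1 / 2 ^ 20) * (1024 * x - k1 * 4096 - 3145728) * ht
  · linear_combination (1 / 2 ^ 20) * g4 + (1 / 2 ^ 20) * m3 - (4 * v - 2048) * hab +
      (1 / 2 ^ 20) * (1024 * x - k1 * 4096 - 3145728) * ht

theorem leaf2_sound (L : CL) (hL : L.ok) (M : ℕ) {y : Ty} (hy : TyOK y) (tm tl th sl sh rl rh al be : ℕ)
    (hab : al * al + be * be ≤ 16777216) (b1 : th ≤ 1024) (b2 : sh ≤ 1024) (b3 : rh ≤ 1024)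
    (h : leaf2 L M y tm tl th sl sh rl rh al be = true) (t s r : ℝ) (t1 : tl ≤ t) (t2 : t ≤ th)
    (s1 : sl ≤ s) (s2 : s ≤ sh) (r1 : rl ≤ r) (r2 : r ≤ rh) : GT L M y t s r := by
  intro a b ha hn hta
  have c1 : tl ≤ 1024 := le_trans (by exact_mod_cast t1.trans t2) b1
  have c2 : sl ≤ 1024 := le_trans (by exact_mod_cast s1.trans s2) b2
  have s0 : 0 ≤ s := (Nat.cast_nonneg _).trans s1
  have r0 : 0 ≤ r := (Nat.cast_nonneg _).trans r1
  have s3 : s ≤ 1024 := s2.trans (by exact_mod_cast b2)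
  have r3 : r ≤ 1024 := r2.trans (by exact_mod_cast b3)
  obtain ⟨p, hp, ep⟩ := ex_par t1 t2
  obtain ⟨q, hq, eq⟩ := ex_par s1 s2
  obtain ⟨w, hw, ew⟩ := ex_par r1 r2
  unfold leaf2 all8 low8 at h
  simp only [mk8_eq, mk4_eq] at h
  have key := leaf3_sound (l := tri p q w hp hq hw) L hL M _ _ _ _ _ _ _ _ _ _ _
    (show tl * 1024 ≤ 2 ^ 20 by omega) (show th * 1024 ≤ 2 ^ 20 by omega) (areaOK _ _ _ _ _) h
  refine key.trans (mul_le_mul_of_nonneg_left (mass_mono (fun _ _ _ _ => ar_mono ?_ _ _ _ _) L)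
    (by positivity))
  have e1 : (tri p q w hp hq hw).mix (tl * 1024 : ℕ) (th * 1024 : ℕ) = 1024 * t := by
    simp only [L8.mix, tri, ep]; push_cast; ring
  have e2 : (tri p q w hp hq hw).mix (1024 * rad al be tl : ℕ) (1024 * rad al be th : ℕ) =
      1024 * radR al be t := by
    simp only [L8.mix, tri, ep, Nat.cast_mul, rad_cast, radR]; push_cast; ring
  rw [e1]
  have y3 : (y.a3 : ℝ) + y.bb * 1024 ≤ 1024 := by exact_mod_cast hy.h3
  have y4 : (y.a4 : ℝ) + y.bb * 1024 ≤ 1024 := by exact_mod_cast hy.h4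
  have hab' : (al : ℝ) * al + be * be ≤ 16777216 := by exact_mod_cast hab
  refine sub_Sq (R := radR al be t) ha hn hta ?_ (by positivity) (le_trans (by gcongr) y3)
    (by positivity) (le_trans (by gcongr) y4) ?_ ?_ ?_ ?_
  · have : radR al be t * a = 1024 * (al * a + be * b) := by
      unfold radR; linear_combination be * hta
    rw [this]
    nlinarith [sq_nonneg (al - 4096 * a), sq_nonneg (be - 4096 * b)]
  · simp only [L8.dot, tri, vP_cast, vPR, radR, ep, eq, ew]; ring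
  · simp only [L8.dot, tri, vQ_cast hy _ _ _ _ _ c1 c2, vQ_cast hy _ _ _ _ _ c1 b2,
      vQ_cast hy _ _ _ _ _ b1 c2, vQ_cast hy _ _ _ _ _ b1 b2, vQR, radR, ep, eq, ew]
    ring
  · rw [← e2, ← dot_c8]
    exact (le_max_left _ _).trans (dot_sub _ _ _)
  · rw [← e2, ← dot_c8]
    exact (le_max_left _ _).trans (dot_sub _ _ _)

theorem leaf_sound (L : CL) (hL : L.ok) (M : ℕ) {y : Ty} (hy : TyOK y) (tl th sl sh rl rh : ℕ)
    (b1 : th ≤ 1024) (b2 : sh ≤ 1024) (b3 : rh ≤ 1024) (h : leaf L M y tl th sl sh rl rh = true)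
    (t s r : ℝ) (t1 : tl ≤ t) (t2 : t ≤ th) (s1 : sl ≤ s) (s2 : s ≤ sh) (r1 : rl ≤ r) (r2 : r ≤ rh) :
    GT L M y t s r := by
  unfold leaf at h
  simp only [frc_eq] at h
  obtain ⟨h1, h2⟩ := (andb_eq _ _).1 h
  exact leaf2_sound L hL M hy _ _ _ _ _ _ _ _ _ (Nat.le_of_ble_eq_true h1) b1 b2 b3 h2 t s r t1 t2 s1 s2
    r1 r2

end Pool.Agent.P.MP_53fdf1_co
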