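import Pool.Agent.P.MP_53fdf1_co.Tiles

set_option autoImplicit false

open MeasureTheory Set

namespace Pool.Agent.P.MP_53fdf1_co

def tw (k : ℕ) : ℕ :=
  if k = 513 then 16 else if k = 384 then 45 else if k = 336 then 43 else if k = 324 then 135 else if k = 321 then 105 else if k = 288 then 119 else if k = 258 then 256 else if k = 144 then 105 else if k = 132 then 16 else if k = 96 then 4 else 0

def al (I : ℕ) : ℕ := if 5 ≤ I then 4 ^ (I - 5) else 4 ^ (4 - I)

/-- the weight of the cell with indices `I, J, K` -/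
def T10 (I J K : ℕ) : ℕ := tw (al I + al J + al K)

def W10 (I J : ℕ) : ℕ := T10 0 I J + T10 1 I J + T10 2 I J

noncomputable def arc (S : Set (ℝ × ℝ)) (I J : ℕ) : ℝ :=
  ar S (1024 * I) (1024 * I + 1024) (1024 * J) (1024 * J + 1024)

noncomputable def mass2 (S : Set (ℝ × ℝ)) : ℝ :=
  ∑ I ∈ Finset.range 10, ∑ J ∈ Finset.range 10, (W10 I J : ℝ) * arc S I J

theorem cells_mass (S : Set (ℝ × ℝ)) : cells.mass (ar S) = mass2 S := by
  simp only [mass2, Finset.sum_range_succ, Finset.sum_range_zero, arc, cells, CL.mass]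
  norm_num [W10, T10, al, tw]
  ring

theorem W10_comm (I J : ℕ) : W10 I J = W10 J I := by
  simp only [W10, T10, add_right_comm _ (al I)]

theorem W10_refl : ∀ I < 10, ∀ J < 10, W10 (9 - I) J = W10 I J := by decide

def rho (z : ℝ × ℝ) : ℝ × ℝ := (10240 - z.1, z.2)

theorem rho_mp : MeasurePreserving rho volume volume :=
  (Measure.measurePreserving_sub_left volume 10240).prod (MeasurePreserving.id volume)

theorem mass2_rho {S : Set (ℝ × ℝ)} (hS : MeasurableSet S) : mass2 (rho ⁻¹' S) = mass2 S := by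
  unfold mass2
  rw [← Finset.sum_range_reflect]
  refine Finset.sum_congr rfl fun I hI => Finset.sum_congr rfl fun J hJ => ?_
  have hI' := Finset.mem_range.1 hI
  rw [W10_refl I hI' J (Finset.mem_range.1 hJ)]
  congr 1
  unfold arc ar
  rw [← rho_mp.measureReal_preimage (hS.inter (meas_box _ _ _ _)).nullMeasurableSet, preimage_inter]
  congr 2
  ext z
  have e : ((10 - 1 - I : ℕ) : ℝ) = 9 - I := by
    rw [show 10 - 1 - I = 9 - I from rfl, Nat.cast_sub (by omega)]; norm_num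
  simp only [box, rho, mem_prod, mem_Ioo, mem_preimage, Nat.cast_add, Nat.cast_mul, e, Nat.cast_ofNat]
  constructor <;> rintro ⟨⟨h1, h2⟩, h3⟩ <;> exact ⟨⟨by linarith, by linarith⟩, h3⟩

theorem mass2_swap {S : Set (ℝ × ℝ)} (hS : MeasurableSet S) : mass2 (Prod.swap ⁻¹' S) = mass2 S := by
  unfold mass2
  rw [Finset.sum_comm]
  refine Finset.sum_congr rfl fun I _ => Finset.sum_congr rfl fun J _ => ?_
  rw [W10_comm]
  congr 1
  unfold arc ar
  have mp : MeasurePreserving (Prod.swap : ℝ × ℝ → ℝ × ℝ) volume volume := Measure.measurePreserving_swap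
  rw [← mp.measureReal_preimage (hS.inter (meas_box _ _ _ _)).nullMeasurableSet, preimage_inter]
  congr 2
  ext z
  simp only [box, mem_prod, mem_preimage, Prod.fst_swap, Prod.snd_swap, and_comm]

theorem open_Sq (c1 c2 a b : ℝ) : IsOpen (Sq c1 c2 a b) := by
  unfold Sq
  rw [ofPred_and]
  exact (isOpen_lt (by fun_prop) continuous_const).inter (isOpen_lt (by fun_prop) continuous_const)

/-- the closed square meets the central square of side `4096` -/
def Meet (c1 c2 a b : ℝ) : Prop :=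
  ∃ x y : ℝ, 3072 ≤ x ∧ x ≤ 7168 ∧ 3072 ≤ y ∧ y ≤ 7168 ∧
    |a * (x - c1) + b * (y - c2)| ≤ 2048 ∧ |a * (y - c2) - b * (x - c1)| ≤ 2048

def Good (c1 c2 a b : ℝ) : Prop :=
  a ^ 2 + b ^ 2 = 1 → Meet c1 c2 a b → (2202932630228537 : ℝ) ≤ 2 ^ 21 * mass2 (Sq c1 c2 a b)

theorem good_base {c1 c2 a b : ℝ} (h1 : 5120 ≤ c1) (h2 : 5120 ≤ c2) (hb : 0 ≤ b) (hab : b ≤ a) :
    Good c1 c2 a b := by
  rintro hn ⟨x, y, x0, x1, y0, y1, m1, m2⟩
  have ha : 0 < a := by
    by_contra h
    have : a = 0 := by linarith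
    have : b = 0 := by linarith
    subst a b
    norm_num at hn
  obtain ⟨m1, m1'⟩ := abs_le.1 m1
  obtain ⟨m2, m2'⟩ := abs_le.1 m2
  have t0 : 0 ≤ 1024 * b / a := by positivity
  have t1 : 1024 * b / a ≤ 1024 := by rw [div_le_iff₀ ha]; linarith
  have te : 1024 * b / a * a = 1024 * b := by field_simp
  have w1 : a + b ≤ 3 / 2 := by nlinarith [sq_nonneg (a - b), sq_nonneg (a + b - 3 / 2)]
  have a1 : a ≤ 1 := by nlinarith
  have p1 : c1 ≤ 7168 + 2048 * (a + b) := by
    have e1 := mul_le_mul_of_nonneg_left m1 ha.le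
    have e2 := mul_le_mul_of_nonneg_left m2' hb
    linear_combination e1 + e2 + x1 + (x - c1) * hn
  have p2 : c2 ≤ 7168 + 2048 * (a + b) := by
    have e1 := mul_le_mul_of_nonneg_left m1 hb
    have e2 := mul_le_mul_of_nonneg_left m2 ha.le
    linear_combination e1 + e2 + y1 + (y - c2) * hn
  have p3 : a * (c1 - 7168) + b * (c2 - 7168) ≤ 2048 := by
    have e1 := mul_le_mul_of_nonneg_left x1 ha.le
    have e2 := mul_le_mul_of_nonneg_left y1 hb
    linear_combination e1 + e2 + m1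
  rw [← cells_mass]
  by_cases k0 : c1 ≤ 7168 ∧ c2 ≤ 7168
  · have := tile0 _ ((c1 - 3072) / 4) ((c2 - 3072) / 4) t0 t1 (by linarith) (by linarith [k0.1])
      (by linarith) (by linarith [k0.2]) a b ha hn te
    convert this using 5 <;> simp [ty0] <;> ring
  by_cases k2 : 7168 ≤ c1 ∧ c2 + 2048 * (a - b) ≤ 7168
  · have := tile2 _ ((c1 - 2048 * (a + b) - 3072) / 4) ((c2 + 2048 * (a - b) - 3072) / 4) t0 t1
      (by linarith [k2.1]) (by linarith) (by linarith) (by linarith [k2.2]) a b ha hn te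
    convert this using 5 <;> simp [ty2] <;> ring
  by_cases k3 : 7168 ≤ c2 ∧ c1 - 2048 * (a - b) ≤ 7168
  · have := tile3 _ ((c1 - 2048 * (a - b) - 3072) / 4) ((c2 - 2048 * (a + b) - 3072) / 4) t0 t1
      (by linarith) (by linarith [k3.2]) (by linarith [k3.1]) (by linarith) a b ha hn te
    convert this using 5 <;> simp [ty3] <;> ring
  have q1 : 7168 ≤ c1 := by
    by_contra h
    exact k3 ⟨by by_contra h'; exact k0 ⟨by linarith, by linarith⟩, by linarith⟩
  have q2 : 7168 ≤ c2 + 2048 * (a - b) := by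
    by_contra h
    exact k2 ⟨q1, by linarith⟩
  have e1 := mul_le_mul_of_nonneg_left q1 ha.le
  have e2 := mul_le_mul_of_nonneg_left q2 hb
  have e3 := mul_le_mul_of_nonneg_left q2 ha.le
  have e4 := mul_le_mul_of_nonneg_left p1 hb
  have q3 : a * (c2 - 7168) - b * (c1 - 7168) ≤ 2048 := by
    by_cases h : c2 ≤ 7168
    · nlinarith [mul_le_mul_of_nonneg_left h ha.le, mul_le_mul_of_nonneg_left q1 hb]
    · have h' : 7168 ≤ c1 - 2048 * (a - b) := by
        by_contra h'
        exact k3 ⟨by linarith, by linarith⟩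
      linear_combination mul_le_mul_of_nonneg_left h' hb + mul_le_mul_of_nonneg_left p2 ha.le + 2048 * hn
  have q4 : b * (a - b) ≤ 1 / 4 := by nlinarith [sq_nonneg (a - 2 * b), sq_nonneg b]
  have := tile1 _ ((a * (c1 - 7168) + b * (c2 - 7168) + 2048) / 4)
    ((a * (c2 - 7168) - b * (c1 - 7168) + 2048) / 4) t0 t1 (by linarith) (by linarith)
    (by linear_combination (1 / 4) * e3 + (1 / 4) * e4 + 512 * hn) (by linarith) a b ha hn te
  convert this using 5
  · simp
  · simp only [ty1]; push_cast; linear_combination (7168 - c1) * hn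
  · simp only [ty1]; push_cast; linear_combination (7168 - c2) * hn

theorem good_of {c1 c2 a b d1 d2 a' b' : ℝ} (f : ℝ × ℝ → ℝ × ℝ)
    (hm : ∀ S, MeasurableSet S → mass2 (f ⁻¹' S) = mass2 S) (hn : a ^ 2 + b ^ 2 = 1 → a' ^ 2 + b' ^ 2 = 1)
    (hM : Meet c1 c2 a b → Meet d1 d2 a' b') (hS : Sq c1 c2 a b = f ⁻¹' Sq d1 d2 a' b')
    (h : Good d1 d2 a' b') : Good c1 c2 a b := fun h1 h2 => by
  rw [hS, hm _ (open_Sq _ _ _ _).measurableSet]
  exact h (hn h1) (hM h2)

theorem good_swap {c1 c2 a b : ℝ} (h : Good c2 c1 b a) : Good c1 c2 a b := by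
  have e1 : ∀ p q : ℝ, |b * q + a * p| = |a * p + b * q| := fun p q => by rw [add_comm]
  have e2 : ∀ p q : ℝ, |b * p - a * q| = |a * q - b * p| := fun p q => abs_sub_comm _ _
  refine good_of Prod.swap (fun _ => mass2_swap) (fun h => by linarith) ?_ ?_ h
  · rintro ⟨x, y, x0, x1, y0, y1, m1, m2⟩
    exact ⟨y, x, y0, y1, x0, x1, by rwa [e1], by rwa [e2]⟩
  · ext z
    simp only [Sq, mem_preimage, mem_ofPred, Prod.fst_swap, Prod.snd_swap]
    rw [e1 (z.1 - c1), e2 (z.1 - c1)]

theorem good_rot {c1 c2 a b : ℝ} (h : Good c1 c2 (-b) a) : Good c1 c2 a b := by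
  have e1 : ∀ p q : ℝ, |-b * p + a * q| = |a * q - b * p| := fun p q => by congr 1; ring
  have e2 : ∀ p q : ℝ, |-b * q - a * p| = |a * p + b * q| := fun p q => by
    rw [← abs_neg]; congr 1; ring
  refine good_of id (fun _ _ => rfl) (fun h => by linarith) ?_ ?_ h
  · rintro ⟨x, y, x0, x1, y0, y1, m1, m2⟩
    exact ⟨x, y, x0, x1, y0, y1, by rwa [e1], by rwa [e2]⟩
  · ext z
    simp only [Sq, mem_preimage, mem_ofPred, id]
    rw [e1, e2, and_comm]

theorem good_rho {c1 c2 a b : ℝ} (h : Good (10240 - c1) c2 a (-b)) : Good c1 c2 a b := by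
  have e1 : ∀ x q : ℝ, |a * (10240 - x - (10240 - c1)) + -b * q| = |a * (x - c1) + b * q| := fun p q => by
    rw [← abs_neg]; congr 1; ring
  have e2 : ∀ x q : ℝ, |a * q - -b * (10240 - x - (10240 - c1))| = |a * q - b * (x - c1)| := fun p q => by
    congr 1; ring
  refine good_of rho (fun _ => mass2_rho) (fun h => by linarith) ?_ ?_ h
  · rintro ⟨x, y, x0, x1, y0, y1, m1, m2⟩
    exact ⟨10240 - x, y, by linarith, by linarith, y0, y1, by rwa [e1], by rwa [e2]⟩
  · ext z
    simp only [Sq, mem_preimage, mem_ofPred, rho]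
    rw [e1, e2]

theorem good_all (c1 c2 a b : ℝ) : Good c1 c2 a b := by
  have s1 : ∀ c1 c2 a b : ℝ, 5120 ≤ c1 → 5120 ≤ c2 → 0 ≤ a → 0 ≤ b → Good c1 c2 a b := by
    intro c1 c2 a b h1 h2 ha hb
    rcases le_total b a with h | h
    · exact good_base h1 h2 hb h
    · exact good_swap (good_base h2 h1 ha h)
  have s2 : ∀ c1 c2 a b : ℝ, 5120 ≤ c1 → 5120 ≤ c2 → Good c1 c2 a b := by
    intro c1 c2 a b h1 h2
    rcases le_total 0 a with ha | ha <;> rcases le_total 0 b with hb | hb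
    · exact s1 _ _ _ _ h1 h2 ha hb
    · exact good_rot (s1 _ _ _ _ h1 h2 (by linarith) ha)
    · exact good_rot (good_rot (good_rot (s1 _ _ _ _ h1 h2 (by linarith) (by linarith))))
    · exact good_rot (good_rot (s1 _ _ _ _ h1 h2 (by linarith) (by linarith)))
  have s3 : ∀ c1 c2 a b : ℝ, 5120 ≤ c2 → Good c1 c2 a b := by
    intro c1 c2 a b h2
    rcases le_total 5120 c1 with h | h
    · exact s2 _ _ _ _ h h2
    · exact good_rho (s2 _ _ _ _ (by linarith) h2)
  rcases le_total 5120 c2 with h | h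
  · exact s3 _ _ _ _ h
  · rcases le_total 5120 c1 with h' | h'
    · exact good_swap (s3 _ _ _ _ h')
    · exact good_rho (good_swap (s3 _ _ _ _ (by linarith)))

end Pool.Agent.P.MP_53fdf1_co
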