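import Mathlib

set_option autoImplicit false

namespace Pool.Agent.P.MP_53fdf1_co.Q

/-- a parameter box: centre, tangent of the half angle, bounds for cosine and sine -/
structure Bx where
  (x0 x1 y0 y1 t0 t1 c0 c1 s0 s1 : ℕ)

/-- class and the three entries of a lemma -/
structure Pb where
  (v : Bool) (T0 N0 g0 T1 N1 g1 T2 N2 g2 : ℕ)

noncomputable def frc {α : Type} (n : ℕ) (k : ℕ → α) : α :=
  @Nat.rec (fun _ => α) (k n) (fun m _ => k m) (Nat.succ n)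

noncomputable def andb (a b : Bool) : Bool := @Bool.rec (fun _ => Bool) false b a

noncomputable def orb (a b : Bool) : Bool := @Bool.rec (fun _ => Bool) b true a

noncomputable def ifb {α : Type} (a : Bool) (x y : α) : α := @Bool.rec (fun _ => α) y x a

def cmp (B : Bx) (K1 K2 a1 b1 a2 b2 : ℕ) : Bool :=
  Nat.ble (Nat.add (Nat.add K1 (Nat.mul B.c1 (Nat.sub a1 b1))) (Nat.mul B.s1 (Nat.sub a2 b2)))
    (Nat.add (Nat.add K2 (Nat.mul B.c0 (Nat.sub b1 a1))) (Nat.mul B.s0 (Nat.sub b2 a2)))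

def sR (B : Bx) (K1 K2 px py : ℕ) : Bool := cmp B K1 K2 px B.x0 py B.y0

def sL (B : Bx) (K1 K2 px py : ℕ) : Bool := cmp B K1 K2 B.x1 px B.y1 py

def sT (B : Bx) (K1 K2 px py : ℕ) : Bool := cmp B K1 K2 py B.y0 B.x1 px

def sB (B : Bx) (K1 K2 px py : ℕ) : Bool := cmp B K1 K2 B.y1 py px B.x0

def iR (B : Bx) (px py : ℕ) : Bool := sR B (nat_lit 1) (nat_lit 134217728) px py

def iL (B : Bx) (px py : ℕ) : Bool := sL B (nat_lit 1) (nat_lit 134217728) px py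

def iT (B : Bx) (px py : ℕ) : Bool := sT B (nat_lit 1) (nat_lit 134217728) px py

def iB (B : Bx) (px py : ℕ) : Bool := sB B (nat_lit 1) (nat_lit 134217728) px py

noncomputable def iH (B : Bx) (px py : ℕ) : Bool := andb (iR B px py) (iL B px py)

noncomputable def iV (B : Bx) (px py : ℕ) : Bool := andb (iT B px py) (iB B px py)

noncomputable def ins (B : Bx) (px py : ℕ) : Bool := andb (iH B px py) (iV B px py)

def far (B : Bx) (d : ℕ) : Bool :=
  Nat.ble (Nat.add (nat_lit 134217728) (Nat.mul (nat_lit 2048) (Nat.add B.c1 B.s1))) (Nat.mul d (nat_lit 65536))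

def wge (B : Bx) (d : ℕ) : Bool :=
  Nat.ble (Nat.add (Nat.mul (Nat.add B.c1 B.s1) (Nat.add B.c1 B.s1)) (Nat.mul d (nat_lit 2097152)))
    (Nat.add (Nat.mul (Nat.add B.c1 B.s1) (nat_lit 65536)) (nat_lit 4294967296))

noncomputable def kilA (B : Bx) (k : ℕ) : Bool :=
  ifb (Nat.beq k (nat_lit 7)) (ins B (nat_lit 8192) (nat_lit 8192)) <|
  ifb (Nat.beq k (nat_lit 0)) (sR B (nat_lit 134217728) (nat_lit 0) (nat_lit 10240) (nat_lit 10240)) <|
  ifb (Nat.beq k (nat_lit 1)) (sT B (nat_lit 134217728) (nat_lit 0) (nat_lit 6144) (nat_lit 10240)) <|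
  ifb (Nat.beq k (nat_lit 2)) (sL B (nat_lit 134217728) (nat_lit 0) (nat_lit 6144) (nat_lit 6144)) <|
  ifb (Nat.beq k (nat_lit 3)) (sB B (nat_lit 134217728) (nat_lit 0) (nat_lit 10240) (nat_lit 6144)) <|
  ifb (Nat.beq k (nat_lit 4)) (far B (Nat.sub B.y0 (nat_lit 8192))) <|
  ifb (Nat.beq k (nat_lit 5)) (far B (Nat.sub B.x0 (nat_lit 8192))) (far B (Nat.sub (nat_lit 8192) B.x1))

noncomputable def kilE (B : Bx) (k : ℕ) : Bool :=
  ifb (Nat.beq k (nat_lit 8)) (sL B (nat_lit 134217729) (nat_lit 0) (nat_lit 8192) (nat_lit 12288)) <|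
  ifb (Nat.beq k (nat_lit 9)) (sR B (nat_lit 134217729) (nat_lit 0) (nat_lit 8192) (nat_lit 12288)) <|
  ifb (Nat.beq k (nat_lit 10)) (sB B (nat_lit 134217729) (nat_lit 0) (nat_lit 8192) (nat_lit 12288))
    (sT B (nat_lit 134217729) (nat_lit 0) (nat_lit 8192) (nat_lit 12288))

noncomputable def kilV (B : Bx) (k : ℕ) : Bool :=
  ifb (Nat.beq k (nat_lit 8)) (ins B (nat_lit 8192) (nat_lit 12288)) <|
  ifb (Nat.beq k (nat_lit 9))
    (andb (iR B (nat_lit 12288) (nat_lit 8192)) (iV B (nat_lit 12288) (nat_lit 8192))) <|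
  ifb (Nat.ble k (nat_lit 11))
    (andb (wge B (Nat.sub B.x1 (nat_lit 8192)))
      (ins B (nat_lit 8192) (ifb (Nat.beq k (nat_lit 10)) (nat_lit 9216) (nat_lit 11264))))
    (andb (wge B (Nat.sub B.y1 (nat_lit 8192)))
      (ins B (ifb (Nat.beq k (nat_lit 12)) (nat_lit 9216) (nat_lit 11264)) (nat_lit 8192)))

noncomputable def kil (v : Bool) (B : Bx) (k : ℕ) : Bool :=
  ifb (Nat.ble k (nat_lit 7)) (kilA B k) (ifb v (kilV B k) (kilE B k))

noncomputable def tg1 (B : Bx) (k : ℕ) : Bool :=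
  ifb (Nat.beq k (nat_lit 0)) (ins B (nat_lit 12288) (nat_lit 12288))
    (andb (andb (iR B (nat_lit 8192) (nat_lit 12288)) (iV B (nat_lit 8192) (nat_lit 12288)))
      (andb (iH B (nat_lit 12288) (nat_lit 12288)) (iT B (nat_lit 12288) (nat_lit 12288))))

noncomputable def tg2 (B : Bx) : Bool :=
  andb (Nat.ble (Nat.mul (nat_lit 2) B.s1) B.c0) <|
  andb (andb (andb (ins B (nat_lit 11264) (nat_lit 11264)) (ins B (nat_lit 11264) (nat_lit 12288)))
    (andb (ins B (nat_lit 12288) (nat_lit 11264)) (ins B (nat_lit 12288) (nat_lit 12288))))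
    (andb (andb (iV B (nat_lit 8192) (nat_lit 11264)) (iV B (nat_lit 8192) (nat_lit 12288)))
      (andb (iH B (nat_lit 11264) (nat_lit 8192)) (iH B (nat_lit 12288) (nat_lit 8192))))

noncomputable def tg3 (B : Bx) (k : ℕ) : Bool :=
  ifb (Nat.beq k (nat_lit 0))
    (andb (wge B (Nat.sub (nat_lit 12288) B.y0)) (ins B (nat_lit 8192) (nat_lit 12288)))
    (andb (andb (wge B (Nat.sub (nat_lit 11264) B.y0)) (wge B (Nat.sub B.y1 (nat_lit 11264))))
      (ins B (nat_lit 8192) (nat_lit 11264)))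

noncomputable def tgc (B : Bx) (g k : ℕ) : Bool :=
  ifb (Nat.beq g (nat_lit 1)) (tg1 B k) <| ifb (Nat.beq g (nat_lit 2)) (tg2 B) <|
  ifb (Nat.beq g (nat_lit 3)) (tg3 B k) false

/-- one inequality at the witness with offset coordinates `p`, `q` -/
noncomputable def iq3 (B : Bx) (p q a b g : ℕ) : Bool :=
  frc (Nat.add (Nat.add (Nat.mul a p) (Nat.mul b q)) (nat_lit 523776)) fun A1 =>
  frc (Nat.add (Nat.mul (nat_lit 2046) (Nat.add a b)) (Nat.mul (nat_lit 128) (Nat.add p q))) fun A2 =>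
  frc (Nat.add (Nat.add (Nat.mul b p) (Nat.mul (nat_lit 2046) a)) (Nat.mul (nat_lit 128) q)) fun B1 =>
  frc (Nat.add (Nat.add (Nat.mul a q) (Nat.mul (nat_lit 2046) b)) (Nat.mul (nat_lit 128) p)) fun B2 =>
  cmp B
    (Nat.add (Nat.mul (nat_lit 65536) (Nat.add (Nat.mul B.x1 (Nat.sub a (nat_lit 128)))
      (Nat.mul B.y1 (Nat.sub b (nat_lit 128))))) (nat_lit 549755813889))
    (Nat.mul (nat_lit 65536) (Nat.add (Nat.add (Nat.mul B.x0 (Nat.sub (nat_lit 128) a))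
      (Nat.mul B.y0 (Nat.sub (nat_lit 128) b))) g)) A1 A2 B1 B2

noncomputable def iq (B : Bx) (p q w : ℕ) : Bool :=
  frc (Nat.mod w (nat_lit 256)) fun a => frc (Nat.mod (Nat.div w (nat_lit 256)) (nat_lit 256)) fun b =>
  iq3 B p q a b (Nat.div w (nat_lit 65536))

def cd0 (w : ℕ) : ℕ := Nat.mod w (nat_lit 1099511627776)

def cd1 (w : ℕ) : ℕ := Nat.mod (Nat.div w (nat_lit 1099511627776)) (nat_lit 1099511627776)

def cd2 (w : ℕ) : ℕ := Nat.div w (nat_lit 1208925819614629174706176)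

def row (tab j : ℕ) : ℕ :=
  Nat.mod (Nat.shiftRight tab (Nat.mul (nat_lit 120) j)) (nat_lit 1329227995784915872903807060280344576)

noncomputable def bn3 (B : Bx) (w p q : ℕ) : Bool :=
  andb (frc (cd0 w) (iq B p q)) (andb (frc (cd1 w) (iq B p q))
    (frc (cd2 w) fun z => orb (Nat.beq z (nat_lit 549755912320)) (iq B p q z)))

noncomputable def bn (B : Bx) (tab j h : ℕ) : Bool :=
  frc (row tab j) fun w => frc (Nat.mul (nat_lit 132) (Nat.mod h (nat_lit 32))) fun l =>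
  frc (Nat.mul (nat_lit 4092) (Nat.mod (Nat.div h (nat_lit 32)) (nat_lit 2))) fun e =>
  ifb (Nat.ble (nat_lit 64) h) (bn3 B w l e) (bn3 B w e l)

def hf (a b : ℕ) : ℕ := Nat.div (Nat.add a b) (nat_lit 2)

def cl (m : ℕ) : ℕ :=
  Nat.div (Nat.mul (nat_lit 65536) (Nat.sub (nat_lit 16777216) (Nat.mul m m)))
    (Nat.add (nat_lit 16777216) (Nat.mul m m))

def sl (m : ℕ) : ℕ := Nat.div (Nat.mul (nat_lit 536870912) m) (Nat.add (nat_lit 16777216) (Nat.mul m m))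

noncomputable def spl {α : Type} (d : ℕ) (B : Bx) (k : Bx → Bx → α) : α :=
  @Bx.rec (fun _ => α) (fun x0 x1 y0 y1 t0 t1 c0 c1 s0 s1 =>
    ifb (Nat.beq d (nat_lit 1))
      (frc (hf x0 x1) fun m => k ⟨x0, m, y0, y1, t0, t1, c0, c1, s0, s1⟩ ⟨m, x1, y0, y1, t0, t1, c0, c1, s0, s1⟩) <|
    ifb (Nat.beq d (nat_lit 2))
      (frc (hf y0 y1) fun m => k ⟨x0, x1, y0, m, t0, t1, c0, c1, s0, s1⟩ ⟨x0, x1, m, y1, t0, t1, c0, c1, s0, s1⟩)
      (frc (hf t0 t1) fun m => frc (cl m) fun c => frc (sl m) fun s => frc (Nat.succ c) fun c' =>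
        frc (Nat.succ s) fun s' =>
        k ⟨x0, x1, y0, y1, t0, m, c, c1, s0, s'⟩ ⟨x0, x1, y0, y1, m, t1, c0, c', s, s1⟩)) B

noncomputable def nz (n : ℕ) (k : ℕ → ℕ) : ℕ :=
  @Nat.rec (fun _ => ℕ) (nat_lit 0) (fun m _ => k (Nat.succ m)) n

noncomputable def com (P : Pb) (e : ℕ) (k : ℕ → ℕ → ℕ → ℕ) : ℕ :=
  ifb (Nat.beq e (nat_lit 0)) (frc P.T0 fun T => frc P.N0 fun N => frc P.g0 (k T N)) <|
  ifb (Nat.beq e (nat_lit 1)) (frc P.T1 fun T => frc P.N1 fun N => frc P.g1 (k T N))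
    (frc P.T2 fun T => frc P.N2 fun N => frc P.g2 (k T N))

noncomputable def stp (P : Pb) (ih : Bx → ℕ → ℕ → ℕ → ℕ → ℕ) (B : Bx) (tab mask g cd lo d : ℕ) : ℕ :=
  ifb (Nat.beq d (nat_lit 5))
    (frc (Nat.mod (Nat.div lo (nat_lit 8)) (nat_lit 64)) fun j =>
      ifb (frc (Nat.div lo (nat_lit 512)) (bn B tab j))
        (frc (Nat.xor mask (Nat.shiftLeft (nat_lit 1) j)) fun m =>
          frc (Nat.shiftRight cd (nat_lit 16)) (ih B tab m g)) (nat_lit 0)) <|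
  ifb (Nat.beq d (nat_lit 0))
    (ifb (frc (Nat.mod (Nat.div lo (nat_lit 8)) (nat_lit 16)) (kil P.v B)) (Nat.shiftRight cd (nat_lit 7))
      (nat_lit 0)) <|
  ifb (Nat.ble d (nat_lit 3))
    (spl d B fun B1 B2 => nz (frc (Nat.shiftRight cd (nat_lit 3)) (ih B1 tab mask g)) (ih B2 tab mask g)) <|
  ifb (Nat.beq d (nat_lit 7))
    (ifb (Nat.beq (Nat.add mask g) (nat_lit 0)) (Nat.shiftRight cd (nat_lit 3)) (nat_lit 0)) <|
  ifb (Nat.beq d (nat_lit 4))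
    (com P (Nat.mod (Nat.div lo (nat_lit 8)) (nat_lit 4)) fun T N g' =>
      frc (Nat.shiftRight cd (nat_lit 5)) (ih B T N g'))
    (ifb (tgc B g (Nat.mod (Nat.div lo (nat_lit 8)) (nat_lit 2)))
      (frc (Nat.shiftRight cd (nat_lit 4)) (ih B tab mask (nat_lit 0))) (nat_lit 0))

noncomputable def run (P : Pb) (fuel : ℕ) : Bx → ℕ → ℕ → ℕ → ℕ → ℕ :=
  @Nat.rec (fun _ => Bx → ℕ → ℕ → ℕ → ℕ → ℕ) (fun _ _ _ _ _ => nat_lit 0)
    (fun _ ih B tab mask g cd => frc (Nat.mod cd (nat_lit 65536)) fun lo =>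
      frc (Nat.mod lo (nat_lit 8)) (stp P ih B tab mask g cd lo)) fuel

/-- a tree of certificates -/
inductive CT where
  | lf : ℕ → CT
  | nd : ℕ → CT → CT → CT

noncomputable def top (P : Pb) (t : CT) : Bx → Bool :=
  @CT.rec (fun _ => Bx → Bool)
    (fun n B => Nat.ble (nat_lit 1) (run P (nat_lit 300) B (nat_lit 0) (nat_lit 0) (nat_lit 4) n))
    (fun d _ _ l r B => spl d B fun B1 B2 => andb (l B1) (r B2)) t

noncomputable def chk (P : Pb) (x0 x1 y0 y1 t0 t1 : ℕ) (t : CT) : Bool :=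
  frc (cl t1) fun c0 => frc (Nat.succ (cl t0)) fun c1 => frc (sl t0) fun s0 => frc (Nat.succ (sl t1)) fun s1 =>
  top P t ⟨x0, x1, y0, y1, t0, t1, c0, c1, s0, s1⟩

end Pool.Agent.P.MP_53fdf1_co.Q
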