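import Pool.Agent.P.MP_53fdf1_co.QFin

set_option autoImplicit false

open MeasureTheory Set Module
open scoped RealInnerProductSpace

namespace Pool.Agent.P.MP_53fdf1_co.Q

abbrev E3 : Type := EuclideanSpace ℝ (Fin 3)

theorem null_line {n m : E3} (hn : ⟪n, n⟫ = 1) (hm : ⟪m, m⟫ = 1) (h : ⟪n, m⟫ ^ 2 ≠ 1) (c d : ℝ) :
    μH[2] {y : E3 | ⟪n, y⟫ = c ∧ ⟪m, y⟫ = d} = 0 := by
  rcases eq_empty_or_nonempty {y : E3 | ⟪n, y⟫ = c ∧ ⟪m, y⟫ = d} with e | ⟨y0, h1, h2⟩
  · rw [e, measure_empty]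
  have li : LinearIndependent ℝ ![n, m] := by
    rw [LinearIndependent.pair_iff]
    intro s t hst
    have a := congrArg (fun z => ⟪n, z⟫) hst
    have b := congrArg (fun z => ⟪m, z⟫) hst
    simp only [inner_add_right, inner_smul_right, inner_zero_right, hn, hm, real_inner_comm n m] at a b
    have k : (1 : ℝ) - ⟪n, m⟫ ^ 2 ≠ 0 := fun k => h (by linarith)
    exact ⟨(mul_eq_zero.1 (show s * (1 - ⟪n, m⟫ ^ 2) = 0 by linear_combination a - ⟪n, m⟫ * b)).resolve_right k,
      (mul_eq_zero.1 (show t * (1 - ⟪n, m⟫ ^ 2) = 0 by linear_combination b - ⟪n, m⟫ * a)).resolve_right k⟩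
  obtain ⟨K, hK⟩ : ∃ K : Submodule ℝ E3, K = (Submodule.span ℝ (range ![n, m]))ᗮ := ⟨_, rfl⟩
  have fr : finrank ℝ K = 1 := by
    have a := Submodule.finrank_add_finrank_orthogonal (Submodule.span ℝ (range ![n, m]))
    rw [finrank_span_eq_card li, finrank_euclideanSpace, Fintype.card_fin, Fintype.card_fin, ← hK] at a
    omega
  have lip : LipschitzWith 1 fun k : K => y0 + (k : E3) :=
    LipschitzWith.of_dist_le_mul fun a b => by simp [Subtype.dist_eq]
  have dm : dimH (range fun k : K => y0 + (k : E3)) < (2 : NNReal) := by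
    refine lip.dimH_range_le.trans_lt ?_
    rw [Real.dimH_univ_eq_finrank, fr]
    norm_num
  have z := hausdorffMeasure_of_dimH_lt dm
  rw [NNReal.coe_ofNat] at z
  refine measure_mono_null (fun y hy => ?_) z
  refine ⟨⟨y - y0, ?_⟩, by simp⟩
  rw [hK, Submodule.mem_orthogonal]
  intro u hu
  induction hu using Submodule.span_induction with
  | mem x hx =>
    obtain ⟨i, rfl⟩ := hx
    fin_cases i
    · simp [inner_sub_right, hy.1, h1]
    · simp [inner_sub_right, hy.2, h2]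
  | zero => simp
  | add x z _ _ a b => rw [inner_add_left, a, b, add_zero]
  | smul r x _ a => rw [real_inner_smul_left, a, mul_zero]

def Act (n : E3) (c : ℝ) (y : E3) : Prop := ⟪n, y⟫ + c = 0 ∨ ⟪n, y⟫ + c = 1

theorem ae_par {v w : Fin 3 → E3} (hv : ∀ i, ⟪v i, v i⟫ = 1) (hw : ∀ i, ⟪w i, w i⟫ = 1) (q r : Fin 3 → ℝ) :
    ∀ᵐ y ∂(μH[2] : Measure E3), ∀ i k, Act (v i) (q i) y → Act (w k) (r k) y → ⟪v i, w k⟫ ^ 2 = 1 := by
  refine ae_all_iff.2 fun i => ae_all_iff.2 fun k => ?_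
  by_cases h : ⟪v i, w k⟫ ^ 2 = 1
  · exact Filter.Eventually.of_forall fun _ _ _ => h
  have n := fun c d => measure_eq_zero_iff_ae_notMem.1 (null_line (hv i) (hw k) h c d)
  filter_upwards [n (-q i) (-r k), n (-q i) (1 - r k), n (1 - q i) (-r k), n (1 - q i) (1 - r k)]
    with y a b c d h1 h2
  exfalso
  rcases h1 with h1 | h1 <;> rcases h2 with h2 | h2
  · exact a ⟨by linarith, by linarith⟩
  · exact b ⟨by linarith, by linarith⟩
  · exact c ⟨by linarith, by linarith⟩
  · exact d ⟨by linarith, by linarith⟩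

def Cb (f : Fin 3 → E3) (p : Fin 3 → ℝ) : Set E3 := {y | ∀ i, ⟪f i, y⟫ + p i ∈ Icc (0 : ℝ) 1}

def Op (f : Fin 3 → E3) (p : Fin 3 → ℝ) : Set E3 := {y | ∀ i, ⟪f i, y⟫ + p i ∈ Ioo (0 : ℝ) 1}

theorem Op_sub (f : Fin 3 → E3) (p : Fin 3 → ℝ) : Op f p ⊆ interior (Cb f p) := by
  refine interior_maximal (fun y hy i => Ioo_subset_Icc_self (hy i)) ?_
  unfold Op
  rw [ofPred_forall]
  exact isOpen_iInter_of_finite fun i => isOpen_Ioo.preimage (by fun_prop)

theorem front_sub {f : Fin 3 → E3} {p : Fin 3 → ℝ} {y : E3} (h : y ∈ frontier (Cb f p)) :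
    y ∈ Cb f p ∧ ∃ i, Act (f i) (p i) y := by
  have c : IsClosed (Cb f p) := by
    unfold Cb
    rw [ofPred_forall]
    exact isClosed_iInter fun i => isClosed_Icc.preimage (by fun_prop)
  have m : y ∈ Cb f p := c.frontier_subset h
  refine ⟨m, ?_⟩
  by_contra hh
  refine h.2 (Op_sub f p fun i => ⟨lt_of_le_of_ne (m i).1 fun e => hh ⟨i, Or.inl e.symm⟩,
    lt_of_le_of_ne (m i).2 fun e => hh ⟨i, Or.inr e⟩⟩)

noncomputable def eb (i : Fin 3) : E3 := EuclideanSpace.single i 1

theorem eb_inner (i : Fin 3) (y : E3) : ⟪eb i, y⟫ = y i := by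
  simp [eb, EuclideanSpace.inner_single_left]

theorem inner_split (j : Fin 3) (u z : E3) :
    ⟪u, z⟫ = u j * z j + u (j.succAbove 0) * z (j.succAbove 0) + u (j.succAbove 1) * z (j.succAbove 1) := by
  rw [PiLp.inner_apply, Fin.sum_univ_succAbove _ j, Fin.sum_univ_two]
  simp only [RCLike.inner_apply, conj_trivial]
  ring

noncomputable def sc (X : Fin 3 → ℝ) : E3 := WithLp.toLp 2 fun k => (X k + 2048) / 4096

theorem contact {f : Fin 3 → E3} {p : Fin 3 → ℝ} (h1 : ∀ i, ⟪f i, f i⟫ = 1)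
    (h0 : ∀ i k, i ≠ k → ⟪f i, f k⟫ = 0) (hd : Disjoint (interior (Cb eb 0)) (interior (Cb f p)))
    (hpos : 0 < μH[2] (frontier (Cb eb 0) ∩ frontier (Cb f p))) :
    IsPr fun u v w => sc ![u, v, w] ∈ interior (Cb f p) := by
  have e1 : ∀ i, ⟪eb i, eb i⟫ = 1 := fun i => by rw [eb_inner]; simp [eb]
  obtain ⟨y, ⟨yG, yC⟩, p1, p2, p3⟩ := Measure.exists_mem_of_measure_ne_zero_of_ae hpos.ne'
    (ae_restrict_of_ae ((ae_par e1 e1 0 0).and ((ae_par e1 h1 0 p).and (ae_par h1 h1 p p))))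
  obtain ⟨mG, j, aj⟩ := front_sub yG
  obtain ⟨mC, i, ai⟩ := front_sub yC
  have s2 : f i j ^ 2 = 1 := by simpa only [eb_inner] using p2 j i aj ai
  have oG : ∀ k, k ≠ j → y k ∈ Ioo (0 : ℝ) 1 := fun k hk => by
    have n : ¬ Act (eb k) ((0 : Fin 3 → ℝ) k) y := fun a => by
      have := p1 k j a aj
      rw [eb_inner] at this
      simp [eb, hk] at this
    have m := mG k
    simp only [Act, eb_inner, Pi.zero_apply, add_zero, not_or] at n m
    exact ⟨lt_of_le_of_ne m.1 (Ne.symm n.1), lt_of_le_of_ne m.2 n.2⟩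
  have oC : ∀ k, k ≠ i → ⟪f k, y⟫ + p k ∈ Ioo (0 : ℝ) 1 := fun k hk => by
    have n : ¬ Act (f k) (p k) y := fun a => by
      have := p3 k i a ai
      rw [h0 k i hk] at this
      norm_num at this
    simp only [Act, not_or] at n
    exact ⟨lt_of_le_of_ne (mC k).1 (Ne.symm n.1), lt_of_le_of_ne (mC k).2 n.2⟩
  have n1 := h1 i
  rw [inner_split j] at n1
  have z0 : f i (j.succAbove 0) = 0 := by nlinarith
  have z1 : f i (j.succAbove 1) = 0 := by nlinarith
  have fi : ∀ z : E3, ⟪f i, z⟫ = f i j * z j := fun z => by rw [inner_split j, z0, z1]; ring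
  have zk : ∀ k, k ≠ i → f k j = 0 := fun k hk => by
    have := h0 i k hk.symm
    rw [fi] at this
    linear_combination f i j * this - f k j * s2
  have fk : ∀ k, k ≠ i → ∀ z : E3, ⟪f k, z⟫ =
      f k (j.succAbove 0) * z (j.succAbove 0) + f k (j.succAbove 1) * z (j.succAbove 1) :=
    fun k hk z => by rw [inner_split j, zk k hk]; ring
  have out : f i j / 2 + p i ≠ 1 / 2 := fun hin => by
    refine disjoint_left.1 hd (Op_sub _ _ (a := y + (1 / 2 - y j) • eb j) fun k => ?_) (Op_sub _ _ fun k => ?_)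
    · rw [eb_inner]
      by_cases hk : k = j
      · subst hk; simp [eb]; norm_num
      · simpa [eb, hk] using oG k hk
    · rw [inner_add_right, inner_smul_right, real_inner_comm (eb j), eb_inner]
      by_cases hk : k = i
      · subst hk
        rw [fi]
        constructor <;> linarith
      · simpa [zk k hk] using oC k hk
  simp only [Act, eb_inner, Pi.zero_apply, add_zero, fi] at aj ai
  have sj : f i j = 1 ∨ f i j = -1 := sq_eq_one_iff.1 s2
  obtain ⟨z, hZ'⟩ : ∃ z : Bool, ∀ x, II x → f i j * ((fl z x + 2048) / 4096) + p i ∈ Ioo (0 : ℝ) 1 := by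
    rcases aj with aj | aj
    · refine ⟨false, fun x hx => ?_⟩
      obtain ⟨x1, x2⟩ := hx
      simp only [fl, cond_false]
      rcases sj with s | s <;> rcases ai with ai | ai <;> rw [s, aj] at ai <;> rw [s] at out ⊢
      · exact absurd (by linarith) out
      · constructor <;> linarith
      · constructor <;> linarith
      · exact absurd (by linarith) out
    · refine ⟨true, fun x hx => ?_⟩
      obtain ⟨x1, x2⟩ := hx
      simp only [fl, cond_true]
      rcases sj with s | s <;> rcases ai with ai | ai <;> rw [s, aj] at ai <;> rw [s] at out ⊢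
      · constructor <;> linarith
      · exact absurd (by linarith) out
      · exact absurd (by linarith) out
      · constructor <;> linarith
  have k0 : i.succAbove 0 ≠ i := Fin.succAbove_ne i 0
  have k1 : i.succAbove 1 ≠ i := Fin.succAbove_ne i 1
  have g0 := h1 (i.succAbove 0)
  have g1 := h1 (i.succAbove 1)
  have g2 := h0 (i.succAbove 0) (i.succAbove 1) (by simp)
  have F0 := fk _ k0
  have F1 := fk _ k1
  rw [F0] at g0 g2
  rw [F1] at g1
  generalize f (i.succAbove 0) (j.succAbove 0) = a at *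
  generalize f (i.succAbove 0) (j.succAbove 1) = b at *
  generalize f (i.succAbove 1) (j.succAbove 0) = a' at *
  generalize f (i.succAbove 1) (j.succAbove 1) = b' at *
  set P := p (i.succAbove 0) - 1 / 2 with hP
  set R := (a * b' - b * a') * (p (i.succAbove 1) - 1 / 2) with hR
  have ep : |a * b' - b * a'| = 1 := by
    rw [← sq_eq_sq₀ (abs_nonneg _) zero_le_one, sq_abs]
    linear_combination (a' * a' + b' * b') * g0 + g1 - (a * a' + b * b') * g2
  have E0 : ∀ u v : ℝ, |a * (4096 * u - 2048 - (-2048 - 4096 * (a * P - b * R))) +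
      b * (4096 * v - 2048 - (-2048 - 4096 * (b * P + a * R)))| =
      4096 * |a * u + b * v + p (i.succAbove 0) - 1 / 2| := fun u v => by
    rw [← abs_of_pos (show (0 : ℝ) < 4096 by norm_num), ← abs_mul, abs_of_pos (show (0 : ℝ) < 4096 by norm_num)]
    congr 1
    linear_combination 4096 * P * g0 + 4096 * hP
  have E1 : ∀ u v : ℝ, |a * (4096 * v - 2048 - (-2048 - 4096 * (b * P + a * R))) -
      b * (4096 * u - 2048 - (-2048 - 4096 * (a * P - b * R)))| =
      4096 * |a' * u + b' * v + p (i.succAbove 1) - 1 / 2| := fun u v => by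
    have e : |(a * b' - b * a') * (4096 * (a' * u + b' * v + p (i.succAbove 1) - 1 / 2))| =
        4096 * |a' * u + b' * v + p (i.succAbove 1) - 1 / 2| := by
      rw [abs_mul, ep, one_mul, abs_mul, abs_of_pos (show (0 : ℝ) < 4096 by norm_num)]
    rw [← e]
    congr 1
    linear_combination 4096 * R * g0 + 4096 * hR - 4096 * (a * v - b * u) * g1 +
      4096 * (a' * v - b' * u) * g2
  obtain ⟨S, hS⟩ : ∃ S, S = Sq (-2048 - 4096 * (a * P - b * R)) (-2048 - 4096 * (b * P + a * R)) a b := ⟨_, rfl⟩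
  have U : Un S := ⟨_, _, _, _, by linarith, hS⟩
  have M : Meets S := by
    have u := oG _ (Fin.succAbove_ne j 0)
    have v := oG _ (Fin.succAbove_ne j 1)
    have c0 := oC _ k0
    have c1 := oC _ k1
    rw [F0] at c0
    rw [F1] at c1
    refine ⟨4096 * y (j.succAbove 0) - 2048, 4096 * y (j.succAbove 1) - 2048,
      abs_lt.2 ⟨by linarith [u.1], by linarith [u.2]⟩, abs_lt.2 ⟨by linarith [v.1], by linarith [v.2]⟩, hS ▸ ⟨?_, ?_⟩⟩
    · rw [E0]
      linarith [abs_lt.2 (show -(1 / 2 : ℝ) < _ ∧ a * y (j.succAbove 0) + b * y (j.succAbove 1) +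
        p (i.succAbove 0) - 1 / 2 < 1 / 2 from ⟨by linarith [c0.1], by linarith [c0.2]⟩)]
    · rw [E1]
      linarith [abs_lt.2 (show -(1 / 2 : ℝ) < _ ∧ a' * y (j.succAbove 0) + b' * y (j.succAbove 1) +
        p (i.succAbove 1) - 1 / 2 < 1 / 2 from ⟨by linarith [c1.1], by linarith [c1.2]⟩)]
  have K : ∀ (X : Fin 3 → ℝ) (w : ℝ), S (X (j.succAbove 0)) (X (j.succAbove 1)) → II w → X j = fl z w →
      sc X ∈ interior (Cb f p) := fun X w hX x0 xj => by
    rw [hS] at hX
    obtain ⟨x1, x2⟩ := hX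
    have A0 := E0 ((X (j.succAbove 0) + 2048) / 4096) ((X (j.succAbove 1) + 2048) / 4096)
    have A1 := E1 ((X (j.succAbove 0) + 2048) / 4096) ((X (j.succAbove 1) + 2048) / 4096)
    have r : ∀ x : ℝ, 4096 * ((x + 2048) / 4096) - 2048 = x := fun x => by ring
    rw [r, r] at A0 A1
    rw [A0] at x1
    rw [A1] at x2
    have B0 := abs_lt.1 (show |_| < (1 / 2 : ℝ) by linarith only [x1] :
      |a * ((X (j.succAbove 0) + 2048) / 4096) + b * ((X (j.succAbove 1) + 2048) / 4096) +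
        p (i.succAbove 0) - 1 / 2| < 1 / 2)
    have B1 := abs_lt.1 (show |_| < (1 / 2 : ℝ) by linarith only [x2] :
      |a' * ((X (j.succAbove 0) + 2048) / 4096) + b' * ((X (j.succAbove 1) + 2048) / 4096) +
        p (i.succAbove 1) - 1 / 2| < 1 / 2)
    refine Op_sub _ _ ((Fin.forall_iff_succAbove i).2 ⟨?_, Fin.forall_fin_two.2 ⟨?_, ?_⟩⟩)
    · rw [fi]
      simpa only [sc, xj] using hZ' _ x0
    · rw [F0]; exact ⟨by simp only [sc]; linarith [B0.1], by simp only [sc]; linarith [B0.2]⟩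
    · rw [F1]; exact ⟨by simp only [sc]; linarith [B1.1], by simp only [sc]; linarith [B1.2]⟩
  clear_value P R
  obtain rfl | rfl | rfl : j = 0 ∨ j = 1 ∨ j = 2 := by omega
  · exact ⟨S, z, U, M, Or.inr (Or.inl fun u v w h k => K _ w h k rfl)⟩
  · obtain ⟨p, q, m1, m2, m3⟩ := M
    exact ⟨sw S, z, U.sw, ⟨q, p, m2, m1, m3⟩, Or.inr (Or.inr fun u v w h k => K _ w h k rfl)⟩
  · exact ⟨S, z, U, M, Or.inl fun u v w h k => K _ w h k rfl⟩

theorem frame (ψ : E3 ≃ᵢ E3) : ∃ (f : Fin 3 → E3) (p : Fin 3 → ℝ), (∀ i, ⟪f i, f i⟫ = 1) ∧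
    (∀ i k, i ≠ k → ⟪f i, f k⟫ = 0) ∧ ψ '' Cb eb 0 = Cb f p := by
  set A := ψ.symm.toRealAffineIsometryEquiv with hA
  refine ⟨fun i => A.linearIsometryEquiv.symm (eb i), fun i => A 0 i, fun i => ?_, fun i k h => ?_, ?_⟩
  · rw [LinearIsometryEquiv.inner_map_map, eb_inner]; simp [eb]
  · rw [LinearIsometryEquiv.inner_map_map, eb_inner]; simp [eb, h]
  · rw [← ψ.preimage_symm]
    ext y
    have e : ψ.symm y = A.linearIsometryEquiv y + A 0 := by
      have := A.map_vadd 0 y
      rw [vadd_eq_add, vadd_eq_add, add_zero] at this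
      exact this
    simp only [Cb, mem_preimage, mem_ofPred, e, eb_inner, Pi.zero_apply, add_zero, PiLp.add_apply,
      LinearIsometryEquiv.inner_map_eq_flip, LinearIsometryEquiv.symm_symm]

theorem main (φ : E3 ≃ᵢ E3) {k : ℕ} (ψ : Fin k → E3 ≃ᵢ E3) (Q : Set E3)
    (hQ : Q = {x | ∀ i, x i ∈ Icc (0 : ℝ) 1})
    (h1 : ∀ i, Disjoint (interior (φ '' Q)) (interior (ψ i '' Q)))
    (h2 : Pairwise fun i j => Disjoint (interior (ψ i '' Q)) (interior (ψ j '' Q)))
    (h3 : ∀ i, 0 < μH[2] (frontier (φ '' Q) ∩ frontier (ψ i '' Q))) : k ≤ 25 := by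
  have eQ : Q = Cb eb 0 := by
    rw [hQ]; ext y; simp [Cb, eb_inner]
  have key : ∀ i, IsPr fun u v w => φ (sc ![u, v, w]) ∈ interior (ψ i '' Q) := fun i => by
    obtain ⟨f, p, a, b, c⟩ := frame ((ψ i).trans φ.symm)
    have e : ψ i '' Q = φ '' Cb f p := by
      rw [← c, eQ, image_image]; simp
    have hi : ∀ S : Set E3, interior (φ '' S) = φ '' interior S := fun S =>
      (φ.toHomeomorph.image_interior S).symm
    have hf : ∀ S : Set E3, frontier (φ '' S) = φ '' frontier S := fun S =>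
      (φ.toHomeomorph.image_frontier S).symm
    have d := h1 i
    have m := h3 i
    rw [e, eQ] at d m
    rw [hi, hi, disjoint_image_iff φ.injective] at d
    rw [hf, hf, ← image_inter φ.injective, φ.hausdorffMeasure_image] at m
    simpa only [e, hi, φ.injective.mem_set_image] using contact a b d m
  exact count_le _ key fun i j h u v w a b => disjoint_left.1 (h2 h) a b

end Pool.Agent.P.MP_53fdf1_co.Q
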