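import Pool.Agent.P.MP_53fdf1_co.QRun

set_option autoImplicit false

namespace Pool.Agent.P.MP_53fdf1_co.Q

def Un (S : Pl) : Prop := ∃ x y c s, c ^ 2 + s ^ 2 = 1 ∧ S = Sq x y c s

theorem Un.sw {S : Pl} (h : Un S) : Un (sw S) := by
  obtain ⟨x, y, c, s, u, rfl⟩ := h
  exact ⟨y, x, c, -s, by linarith, sw_sq _ _ _ _⟩

theorem Un.rf {S : Pl} (h : Un S) : Un (rf S) := by
  obtain ⟨x, y, c, s, u, rfl⟩ := h
  exact ⟨-x, y, c, -s, by linarith, rf_sq _ _ _ _⟩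

theorem rf_rf (S : Pl) : rf (rf S) = S := by
  funext u v
  simp [rf]

theorem Un.convex {S : Pl} (h : Un S) : Convex ℝ {z : ℝ × ℝ | S z.1 z.2} := by
  obtain ⟨x, y, c, s, -, rfl⟩ := h
  intro p hp q hq a b ha hb hab
  simp only [Set.mem_ofPred, sq_iff, Prod.fst_add, Prod.snd_add, Prod.smul_fst, Prod.smul_snd,
    smul_eq_mul] at hp hq ⊢
  have k : ∀ {A B K : ℝ}, A < K → B < K → a * A + b * B < K := fun {A B K} h1 h2 =>
    convex_Iio (𝕜 := ℝ) K (x := A) h1 (y := B) h2 ha hb hab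
  have k' : ∀ {A B K : ℝ}, K < A → K < B → K < a * A + b * B := fun {A B K} h1 h2 =>
    convex_Ioi (𝕜 := ℝ) K (x := A) h1 (y := B) h2 ha hb hab
  refine ⟨⟨?_, ?_⟩, ?_, ?_⟩
  · linear_combination k hp.1.1 hq.1.1 + (c * x + s * y) * hab
  · linear_combination k' hp.1.2 hq.1.2 - (c * x + s * y) * hab
  · linear_combination k hp.2.1 hq.2.1 + (c * y - s * x) * hab
  · linear_combination k' hp.2.2 hq.2.2 - (c * y - s * x) * hab

theorem Un.open {S : Pl} (h : Un S) : IsOpen {z : ℝ × ℝ | S z.1 z.2} := by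
  obtain ⟨x, y, c, s, -, rfl⟩ := h
  simp only [Sq, Set.ofPred_and]
  exact (isOpen_lt (by fun_prop) (by fun_prop)).inter (isOpen_lt (by fun_prop) (by fun_prop))

def swI (I : In) : In := (I.2.1, I.1, I.2.2)

def rfI (I : In) : In := (-I.1, I.2.1, I.2.2)

def ngI (I : In) : In := (-I.1, -I.2.1, -I.2.2)

def swB (b : Bin) : Bin := (swI b.1, swI b.2.1, swI b.2.2)

def rfB (b : Bin) : Bin := (rfI b.1, rfI b.2.1, rfI b.2.2)

theorem hit_sw {S : Pl} {b : Bin} (h : Hit S (swB b)) : Hit (sw S) b := by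
  obtain ⟨u, v, h0, h⟩ := h
  refine ⟨v, u, h0, ?_⟩
  simp only [ok, swB, swI] at h ⊢
  exact ⟨by linarith [h.1], by linarith [h.2.1], by linarith [h.2.2]⟩

theorem hit_rf {S : Pl} {b : Bin} (h : Hit S (rfB b)) : Hit (rf S) b := by
  obtain ⟨u, v, h0, h⟩ := h
  refine ⟨-u, v, by simpa [rf] using h0, ?_⟩
  simp only [ok, rfB, rfI, Int.cast_neg] at h ⊢
  exact ⟨by linarith [h.1], by linarith [h.2.1], by linarith [h.2.2]⟩

theorem has_sw {S : Pl} {F : List Bin} (h : Has (F.map swB) S) : Has F (sw S) :=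
  fun _ hb => hit_sw (h _ (List.mem_map_of_mem hb))

theorem has_rf {S : Pl} {F : List Bin} (h : Has (F.map rfB) S) : Has F (rf S) :=
  fun _ hb => hit_rf (h _ (List.mem_map_of_mem hb))

theorem has_app {S : Pl} {F G : List Bin} (h : Has (F ++ G) S) : Has F S ∧ Has G S :=
  List.forall_mem_append.1 h

theorem has_dec {S : Pl} {T N n : ℕ} {F : List Bin} (h : Msk T N S) (h1 : N = 2 ^ n - 1) (h2 : decF T n = F) :
    Has F S := by
  subst h1 h2
  intro b hb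
  obtain ⟨j, hj, rfl⟩ := List.mem_map.1 hb
  exact h j (by simpa [Nat.testBit_two_pow_sub_one] using hj)

abbrev Wg : Type := List (In × In)

def lo (W : Wg) : List Bin := W.map fun p => (p.1, p.2, (0, 0, 1))

def hi (W : Wg) : List Bin := W.map fun p => (ngI p.1, ngI p.2, (0, 0, 1))

def Cov (W : Wg) (n m : ℝ) : Prop :=
  ∃ p ∈ W, ∃ a b : ℝ, 0 ≤ a ∧ 0 ≤ b ∧ n = a * p.1.1 + b * p.2.1 ∧ m = a * p.1.2.1 + b * p.2.2.1

def chn (a' b' : ℤ) : Wg → ℤ → ℤ → Bool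
  | [], _, _ => false
  | p :: L, a, b => decide (p.1.1 = a) && decide (p.1.2.1 = b) && decide (0 < a * p.2.2.1 - b * p.2.1) &&
    (decide (p.2.1 = a') && decide (p.2.2.1 = b') || chn a' b' L p.2.1 p.2.2.1)

theorem chn_s {a' b' : ℤ} {n m : ℝ} (h' : a' * m - b' * n ≤ 0) (L : Wg) :
    ∀ a b : ℤ, chn a' b' L a b = true → 0 ≤ a * m - b * n → Cov L n m := by
  induction L with
  | nil => exact fun _ _ h => absurd h (by simp [chn])
  | cons p L ih =>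
    intro a b h h0
    simp only [chn, Bool.and_eq_true, Bool.or_eq_true, decide_eq_true_eq] at h
    obtain ⟨⟨⟨rfl, rfl⟩, h1⟩, h2⟩ := h
    by_cases k : p.2.1 * m - p.2.2.1 * n ≤ 0
    · have d : (0 : ℝ) < p.1.1 * p.2.2.1 - p.1.2.1 * p.2.1 := by exact_mod_cast h1
      refine ⟨p, List.mem_cons_self, (p.2.2.1 * n - p.2.1 * m) / _, _ / _, div_nonneg (by linarith) d.le,
        div_nonneg h0 d.le, ?_, ?_⟩ <;>
      rw [div_mul_eq_mul_div, div_mul_eq_mul_div, ← add_div, eq_div_iff d.ne'] <;> ring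
    · rcases h2 with ⟨rfl, rfl⟩ | h2
      · exact absurd h' k
      · obtain ⟨q, hq, r⟩ := ih _ _ h2 (not_le.1 k).le
        exact ⟨q, List.mem_cons_of_mem _ hq, r⟩

/-- a wedge family with two shadow levels -/
structure Fm where
  (W : Wg) (k : ℕ) (d gl gh : ℤ)

def Fm.good (F : Fm) : Bool := chn (-F.d) 0 F.W F.d 0 && chn F.d 0 (F.W.drop F.k) (-F.d) 0

theorem Fm.cov {F : Fm} (h : F.good = true) (n m : ℝ) : Cov F.W n m := by
  rw [Fm.good, Bool.and_eq_true] at h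
  rcases le_total 0 (F.d * m) with k | k
  · exact chn_s (by push_cast; linarith) _ _ _ h.1 (by push_cast; linarith)
  · obtain ⟨q, hq, r⟩ := chn_s (n := n) (m := m) (by push_cast; linarith) _ _ _ h.2 (by push_cast; linarith)
    exact ⟨q, List.mem_of_mem_drop hq, r⟩

theorem sep {F : Fm} (h : F.good = true) {S T : Pl} (hS : Un S) (hT : Un T) (a : Has (hi F.W) S)
    (b : Has (lo F.W) T) : ∃ u v, S u v ∧ T u v := by
  by_contra n
  obtain ⟨f, r, f1, f2⟩ := geometric_hahn_banach_open_open hS.convex hS.open hT.convex hT.open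
    (Set.disjoint_left.2 fun z h1 h2 => n ⟨_, _, h1, h2⟩)
  have e : ∀ u v : ℝ, f (u, v) = f (1, 0) * u + f (0, 1) * v := fun u v => by
    rw [show (u, v) = u • ((1 : ℝ), (0 : ℝ)) + v • ((0 : ℝ), (1 : ℝ)) by simp, map_add, map_smul, map_smul]
    simp [mul_comm]
  obtain ⟨p, hp, α, β, a0, b0, e1, e2⟩ := Fm.cov h (f (1, 0)) (f (0, 1))
  obtain ⟨u, v, s0, s1, s2, -⟩ := a _ (List.mem_map_of_mem hp)
  obtain ⟨u', v', t0, t1, t2, -⟩ := b _ (List.mem_map_of_mem hp)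
  have g1 := f1 (u, v) s0
  have g2 := f2 (u', v') t0
  rw [e, e1, e2] at g1 g2
  simp only [ok, ngI, Int.cast_neg] at s1 s2 t1 t2
  have k1 := mul_le_mul_of_nonneg_left (add_lt_add s1 t1).le a0
  have k2 := mul_le_mul_of_nonneg_left (add_lt_add s2 t2).le b0
  linarith

def II (w : ℝ) : Prop := 2048 < w ∧ w < 6144

def shL (g : ℤ) : Bin := ((1, 0, g), (0, -1, -2048), (0, 1, 6144))

def shH (g : ℤ) : Bin := ((-1, 0, -g), (0, -1, -2048), (0, 1, 6144))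

theorem shad {S : Pl} (hS : Un S) {g h : ℤ} (a : Hit S (shL g)) (b : Hit S (shH h)) :
    ∃ p q : ℝ, p < g ∧ h < q ∧ (∃ v, II v ∧ S p v) ∧ ∀ u, p ≤ u → u ≤ q → ∃ v, II v ∧ S u v := by
  obtain ⟨p, v, s0, s1, s2, s3⟩ := a
  obtain ⟨q, w, t0, t1, t2, t3⟩ := b
  simp only [ok, shL, shH] at s1 s2 s3 t1 t2 t3
  push_cast at s1 s2 s3 t1 t2 t3
  have cv : Convex ℝ ((LinearMap.fst ℝ ℝ ℝ) '' ({z : ℝ × ℝ | S z.1 z.2} ∩
      (LinearMap.snd ℝ ℝ ℝ) ⁻¹' Set.Ioo 2048 6144)) :=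
    (hS.convex.inter ((convex_Ioo _ _).linear_preimage _)).linear_image _
  refine ⟨p, q, by linarith, by linarith, ⟨v, ⟨by linarith, by linarith⟩, s0⟩, fun u u1 u2 => ?_⟩
  obtain ⟨z, ⟨z1, z2⟩, rfl⟩ := cv.ordConnected.out (x := p) (y := q)
    ⟨(p, v), ⟨s0, show 2048 < v by linarith, show v < 6144 by linarith⟩, rfl⟩
    ⟨(q, w), ⟨t0, show 2048 < w by linarith, show w < 6144 by linarith⟩, rfl⟩ ⟨u1, u2⟩
  exact ⟨z.2, z2, z1⟩

theorem shad2 {S T : Pl} (hS : Un S) (hT : Un T) {g h g' h' : ℤ} (a : Hit S (shL g)) (b : Hit S (shH h))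
    (a' : Hit T (shL g')) (b' : Hit T (shH h')) (l1 : g ≤ h') (l2 : g' ≤ h) :
    ∃ u v w, II v ∧ II w ∧ S u v ∧ T u w := by
  obtain ⟨p, q, h1, h2, ⟨v, h3⟩, h4⟩ := shad hS a b
  obtain ⟨p', q', k1, k2, ⟨w, k3⟩, k4⟩ := shad hT a' b'
  have l1 : (g : ℝ) ≤ h' := by exact_mod_cast l1
  have l2 : (g' : ℝ) ≤ h := by exact_mod_cast l2
  rcases le_total p p' with e | e
  · obtain ⟨v, h5⟩ := h4 p' e (by linarith)
    exact ⟨p', v, w, h5.1, k3.1, h5.2, k3.2⟩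
  · obtain ⟨w, h5⟩ := k4 p e (by linarith)
    exact ⟨p, v, w, h3.1, h5.1, h3.2, h5.2⟩

def out (F : Fm) : List Bin := lo F.W ++ [shL F.gl, shH F.gh]

def kV (F : Fm) : List Bin := [shL F.gh, shH F.gl] ++ hi F.W

def kE (F : Fm) : List Bin := ([shL F.gh, shH F.gl] ++ [shL F.gh, shH F.gl].map swB) ++ hi F.W

theorem shad3 {F : Fm} {S T : Pl} (hS : Un S) (hT : Un T) (a : Has [shL F.gh, shH F.gl] S)
    (b : Has (out F) T) : ∃ u v w, II v ∧ II w ∧ S u v ∧ T u w :=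
  shad2 hS hT (a _ (by simp)) (a (shH F.gl) (by simp)) (b (shL F.gl) (by simp [out]))
    (b (shH F.gh) (by simp [out])) le_rfl le_rfl

end Pool.Agent.P.MP_53fdf1_co.Q
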