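import Pool.Agent.P.MP_53fdf1_co.QLem

set_option autoImplicit false

namespace Pool.Agent.P.MP_53fdf1_co.Q

def fl (a : Bool) (x : ℝ) : ℝ := cond a x (-x)

/-- twenty cubes, one for each vertex and each edge, in local coordinates -/
structure Cf where
  V : Bool → Bool → Bool → Sp
  E0 : Bool → Bool → Sp
  E1 : Bool → Bool → Sp
  E2 : Bool → Bool → Sp
  d0 : ∀ a b c, Dis (fun u v w => E0 b c (fl a u) v w) (V a b c)
  d1 : ∀ a b c, Dis (fun u v w => E1 a c (fl b u) v w) fun u v w => V a b c v u w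
  d2 : ∀ a b c, Dis (fun u v w => E2 a b (fl c u) v w) fun u v w => V a b c v w u

def Cf.AV (X : Cf) (P : Pl → Prop) : Prop := ∀ a b c, VC P (X.V a b c)

def Cf.AE (X : Cf) (P : Pl → Prop) : Prop := ∀ a b, EC P (X.E0 a b) ∧ EC P (X.E1 a b) ∧ EC P (X.E2 a b)

theorem EC.fl {g : ℕ} {O : List Bin} {C : Sp} (h : EC (PE g O) C) (a : Bool) :
    EC (PE g O) fun u v w => C (fl a u) v w := by
  cases a
  exacts [h.mir, h]

theorem Cf.rE (X : Cf) {F : Fm} (hF : F.good = true) {P : Pb} (h : CE P) {O : List Bin} {n m : ℕ}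
    (hT : Tab P rfB (kE F) O n m) {g : ℕ} {R : Pl → Prop} (hE : X.AE R) (hV : X.AV (PV g (out F))) :
    X.AE (PE P.g2 O) := fun a b =>
  ⟨stepE hF h hT (hE a b).1 (hV _ _ _) (hV _ _ _) (X.d0 true a b) (X.d0 false a b),
    stepE hF h hT (hE a b).2.1 (hV _ _ _).tr (hV _ _ _).tr (X.d1 a true b) (X.d1 a false b),
    stepE hF h hT (hE a b).2.2 (hV _ _ _).cyc (hV _ _ _).cyc (X.d2 a b true) (X.d2 a b false)⟩

theorem Cf.rV (X : Cf) {F : Fm} (hF : F.good = true) {P : Pb} (h : CV P) {O : List Bin} {n m : ℕ}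
    (hT : Tab P swB (kV F) O n m) {g : ℕ} {R : Pl → Prop} (hV : X.AV R) (hE : X.AE (PE g (out F))) :
    X.AV (PV P.g2 O) := fun a b c =>
  stepV hF h hT (hV a b c) ((hE b c).1.fl a) ((hE a c).2.1.fl b) ((hE a b).2.2.fl c) (X.d0 a b c) (X.d1 a b c)
    (X.d2 a b c)

def Seg (C : Sp) (h a : ℝ) : Prop := a < 3072 ∧ ∀ u, a < u → 0 < u → u ≤ 3072 → C u (2048 + h) (2048 + h)

theorem Ht.ii {h : ℝ} (k : Ht h) : II (2048 + h) := by
  rcases k with rfl | rfl <;> constructor <;> norm_num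

theorem finV {O : List Bin} {C : Sp} (hC : VC (PV 2 O) C) {h1 h2 h3 : ℝ} (k1 : Ht h1) (k2 : Ht h2) (k3 : Ht h3) :
    ∃ a1 a2 a3, Seg C h1 a1 ∧ Seg (fun u v w => C v u w) h2 a2 ∧ Seg (fun u v w => C v w u) h3 a3 ∧
      0 < (2048 - a1) / h1 + (2048 - a2) / h2 + (2048 - a3) / h3 := by
  obtain ⟨S, -, ⟨f, -⟩, c⟩ := hC
  obtain ⟨f1, f2⟩ := f rfl
  have i : ∀ u : ℝ, 2048 < u → u ≤ 3072 → II u := fun u a b => ⟨a, by linarith⟩
  rcases c with c | c | c
  · obtain ⟨a, b, p1, p2, p3, p4, p5⟩ := f2 h1 h2 k1 k2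
    exact ⟨a, b, 2048, ⟨p1, fun u x y z => c _ _ _ (p3 u x y z) k1.ii⟩,
      ⟨p2, fun u x y z => c _ _ _ (p4 u x y z) k2.ii⟩,
      ⟨by norm_num, fun u x _ z => c _ _ _ (f1 _ k3) (i u x z)⟩, by simpa using p5⟩
  · obtain ⟨a, b, p1, p2, p3, p4, p5⟩ := f2 h2 h3 k2 k3
    exact ⟨2048, a, b, ⟨by norm_num, fun u x _ z => c _ _ _ (f1 _ k1) (i u x z)⟩,
      ⟨p1, fun u x y z => c _ _ _ (p3 u x y z) k2.ii⟩,
      ⟨p2, fun u x y z => c _ _ _ (p4 u x y z) k3.ii⟩, by simpa using p5⟩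
  · obtain ⟨a, b, p1, p2, p3, p4, p5⟩ := f2 h3 h1 k3 k1
    exact ⟨b, 2048, a, ⟨p2, fun u x y z => c _ _ _ (p4 u x y z) k1.ii⟩,
      ⟨by norm_num, fun u x _ z => c _ _ _ (f1 _ k2) (i u x z)⟩,
      ⟨p1, fun u x y z => c _ _ _ (p3 u x y z) k3.ii⟩, by simpa [add_comm] using p5⟩

theorem finE {O : List Bin} {E : Sp} (hE : EC (PE 3 O) E) : ∃ h, Ht h ∧ ∀ (V V' : Sp) (a a' : ℝ),
    Dis E V → Dis (fun u v w => E (-u) v w) V' → Seg V h a → Seg V' h a' →
    (2048 - a) / h + (2048 - a') / h ≤ 0 := by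
  obtain ⟨S, -, ⟨f, -⟩, c⟩ := hE
  obtain ⟨h, k, p, q, p0, q0, l, m⟩ := f rfl
  have e : ∀ u, p < u → u < q → E u (2048 + h) (2048 + h) := fun u a b =>
    c.elim (fun c => c _ _ _ (m u a b) k.ii) fun c => c _ _ _ (m u a b) k.ii
  refine ⟨h, k, fun V V' a a' d d' s s' => ?_⟩
  have g : ∀ {V : Sp} {a q : ℝ}, 0 < q → Seg V h a → (∀ u, 0 < u → u < q → ¬ V u (2048 + h) (2048 + h)) →
      q ≤ a := fun {V a q} q0 s n => not_lt.1 fun z => by
    obtain ⟨u, u1, u2⟩ := exists_between (show max a 0 < min q 3072 from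
      max_lt (lt_min z s.1) (lt_min q0 (by norm_num)))
    rw [max_lt_iff] at u1
    rw [lt_min_iff] at u2
    exact n u u1.2 u2.1 (s.2 u u1.1 u1.2 u2.2.le)
  have g1 := g q0 s fun u x y => d _ _ _ (e u (by linarith) y)
  have g2 := g (neg_pos.2 p0) s' fun u x y => d' _ _ _ (e (-u) (by linarith) (by linarith))
  rcases k with rfl | rfl <;> linarith

theorem Cf.no (X : Cf) {R R' : Pl → Prop} (hV : X.AV R) (hE : X.AE R') : False := by
  have v0 : X.AV (PV 0 (out fOV0)) := fun a b c => by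
    obtain ⟨S, p, -, q⟩ := hV a b c
    exact ⟨S, p, (lem0 p).1, q⟩
  have e1 := X.rE gOV0 kE1 tE1 hE v0
  have e2 := X.rE gOV1 kE2 tE2 hE (X.rV gOE1 kV1 tV1 hV e1)
  have e3 := X.rE gOV2 kE3 tE3 hE (X.rV gOE2 kV2 tV2 hV e2)
  have e4 : X.AE (PE 3 _) := X.rE gOV3 kE4 tE4 hE (X.rV gOE3 kV3 tV3 hV e3)
  have v4 : X.AV (PV 2 _) := X.rV gOE4 kV4 tV4 hV e4
  choose h0 k0 m0 using fun a b => finE (e4 a b).1
  choose h1 k1 m1 using fun a b => finE (e4 a b).2.1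
  choose h2 k2 m2 using fun a b => finE (e4 a b).2.2
  choose A0 A1 A2 s0 s1 s2 p using fun a b c => finV (v4 a b c) (k0 b c) (k1 a c) (k2 a b)
  have n0 := fun a b => m0 a b _ _ _ _ (X.d0 true a b) (X.d0 false a b) (s0 true a b) (s0 false a b)
  have n1 := fun a b => m1 a b _ _ _ _ (X.d1 a true b) (X.d1 a false b) (s1 a true b) (s1 a false b)
  have n2 := fun a b => m2 a b _ _ _ _ (X.d2 a b true) (X.d2 a b false) (s2 a b true) (s2 a b false)
  linarith [n0 true true, n0 true false, n0 false true, n0 false false, n1 true true, n1 true false,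
    n1 false true, n1 false false, n2 true true, n2 true false, n2 false true, n2 false false,
    p true true true, p true true false, p true false true, p true false false, p false true true,
    p false true false, p false false true, p false false false]

theorem uniqE {R R' : Pl → Prop} {A B : Sp} (a : EC R A) (b : EC R' B) (d : Dis A B) : False := by
  have k : ∀ {R : Pl → Prop} {A : Sp}, EC R A → ∃ d : ℝ, 0 < d ∧ ∀ e, 0 < e → e < d → e < 2048 →
      A 0 (4096 - e) (4096 - e) := fun ⟨S, ⟨_, _, _, d, d0, h⟩, _, c⟩ =>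
    ⟨d, d0, fun e e0 e1 e2 => c.elim (fun c => c _ _ _ (h e e0 e1) ⟨by linarith, by linarith⟩)
      fun c => c _ _ _ (h e e0 e1) ⟨by linarith, by linarith⟩⟩
  obtain ⟨p, p0, hp⟩ := k a
  obtain ⟨q, q0, hq⟩ := k b
  obtain ⟨e, e0, e1⟩ := exists_between (lt_min p0 (lt_min q0 (show (0 : ℝ) < 2048 by norm_num)))
  simp only [lt_min_iff] at e1
  exact d _ _ _ (hp e e0 e1.1 e1.2.2) (hq e e0 e1.2.1 e1.2.2)

theorem fl_fl (a : Bool) (x : ℝ) : fl a (fl a x) = x := by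
  cases a <;> simp [fl]

theorem fl_abs (a : Bool) (x : ℝ) : |fl a x| = |x| := by
  cases a <;> simp [fl]

theorem fl_zero (a : Bool) : fl a 0 = 0 := by
  cases a <;> simp [fl]

theorem fl_sq (a b : Bool) (x y c s : ℝ) :
    (fun u v => Sq x y c s (fl a u) (fl b v)) = Sq (fl a x) (fl b y) c (fl a (fl b s)) := by
  funext u v
  cases a <;> cases b <;> simp only [fl, Sq, eq_iff_iff, cond_true, cond_false]
  · rw [← abs_neg, ← abs_neg (c * (-v - y) - _)]
    congr! 3 <;> ring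
  · rw [← abs_neg]
    congr! 3 <;> ring
  · rw [← abs_neg (c * (-v - y) - _)]
    congr! 3 <;> ring

theorem classes {S : Pl} (hS : Un S) (m : Meets S) : S 0 0 ∨ (∃ a, BE fun u v => S u (fl a v)) ∨
    (∃ a, BE fun u v => S (fl a v) u) ∨ ∃ a b, BV fun u v => S (fl a u) (fl b v) := by
  obtain ⟨x, y, c, s, un, rfl⟩ := hS
  obtain ⟨p, q, hp, hq, m⟩ := m
  have sq : ∀ a b, c ^ 2 + fl a (fl b s) ^ 2 = 1 := fun a b => by
    rw [← sq_abs (fl a _), fl_abs, fl_abs, sq_abs, un]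
  have U : ∀ a b, Un fun u v => Sq x y c s (fl a u) (fl b v) := fun a b => ⟨_, _, _, _, sq a b, fl_sq _ _ _ _ _ _⟩
  have ex : ∀ x : ℝ, ∃ a, 0 ≤ fl a x := fun x =>
    (le_total 0 x).elim (fun h => ⟨true, h⟩) fun h => ⟨false, neg_nonneg.2 h⟩
  obtain ⟨a, ha⟩ := ex x
  obtain ⟨b, hb⟩ := ex y
  by_cases h0 : Sq x y c s 0 0
  · exact Or.inl h0
  by_cases h1 : EvTop fun u v => Sq x y c s u (fl b v)
  · exact Or.inr (Or.inl ⟨b, U true b, ⟨p, fl b q, hp, by rwa [fl_abs], by simpa only [fl_fl] using m⟩,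
      by simpa only [fl_zero] using h0, h1⟩)
  by_cases h2 : EvTop fun u v => Sq x y c s (fl a v) u
  · exact Or.inr (Or.inr (Or.inl ⟨a, (U a true).sw, ⟨q, fl a p, hq, by rwa [fl_abs],
      by simpa only [fl_fl] using m⟩, by simpa only [fl_zero] using h0, h2⟩))
  exact Or.inr (Or.inr (Or.inr ⟨a, b, ⟨_, _, _, _, sq a b, fl_sq _ _ _ _ _ _, ha, hb⟩,
    ⟨fl a p, fl b q, by rwa [fl_abs], by rwa [fl_abs], by simpa only [fl_fl] using m⟩,
    by simpa only [fl_zero] using h0, by simpa only [EvTop, fl_zero] using h1,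
    by simpa only [EvTop, sw, fl_zero] using h2⟩))

/-- a prism over a square that meets an open face of the central cube -/
def IsPr (D : Sp) : Prop := ∃ S a, Un S ∧ Meets S ∧ ((On S fun u v w => D u v (fl a w)) ∨
  (On S fun u v w => D (fl a w) u v) ∨ On S fun u v w => D v (fl a w) u)

abbrev Lb : Type := (Fin 3 × Bool) ⊕ (Fin 3 × Bool × Bool) ⊕ (Bool × Bool × Bool)

def vC (a : Bool) (D : Sp) : Fin 3 → Prop := ![D (fl a 4096) 0 0, D 0 (fl a 4096) 0, D 0 0 (fl a 4096)]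

def vE (a b : Bool) (D : Sp) : Fin 3 → Sp :=
  ![fun u v w => D u (fl a v) (fl b w), fun u v w => D (fl a v) u (fl b w), fun u v w => D (fl a v) (fl b w) u]

def vV (a b c : Bool) (D : Sp) : Sp := fun u v w => D (fl a u) (fl b v) (fl c w)

def Lab (D : Sp) : Lb → Prop
  | .inl p => vC p.2 D p.1
  | .inr (.inl p) => EC (fun _ => True) (vE p.2.1 p.2.2 D p.1)
  | .inr (.inr p) => VC (fun _ => True) (vV p.1 p.2.1 p.2.2 D)

theorem lab_ex {D : Sp} (h : IsPr D) : ∃ l, Lab D l := by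
  obtain ⟨S, z, u, m, c⟩ := h
  rcases classes u m with k | ⟨a, k⟩ | ⟨a, k⟩ | ⟨a, b, k⟩ <;> rcases c with c | c | c
  · exact ⟨.inl (2, z), c _ _ _ k i4⟩
  · exact ⟨.inl (0, z), c _ _ _ k i4⟩
  · exact ⟨.inl (1, z), c _ _ _ k i4⟩
  · exact ⟨.inr (.inl (0, a, z)), _, k, trivial, Or.inl fun _ _ _ => c _ _ _⟩
  · exact ⟨.inr (.inl (1, z, a)), _, k, trivial, Or.inr fun _ _ _ => c _ _ _⟩
  · exact ⟨.inr (.inl (2, a, z)), _, k, trivial, Or.inl fun _ _ _ => c _ _ _⟩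
  · exact ⟨.inr (.inl (1, a, z)), _, k, trivial, Or.inl fun _ _ _ => c _ _ _⟩
  · exact ⟨.inr (.inl (2, z, a)), _, k, trivial, Or.inr fun _ _ _ => c _ _ _⟩
  · exact ⟨.inr (.inl (0, z, a)), _, k, trivial, Or.inr fun _ _ _ => c _ _ _⟩
  · exact ⟨.inr (.inr (a, b, z)), _, k, trivial, Or.inl fun _ _ _ => c _ _ _⟩
  · exact ⟨.inr (.inr (z, a, b)), _, k, trivial, Or.inr (Or.inl fun _ _ _ => c _ _ _)⟩
  · exact ⟨.inr (.inr (b, z, a)), _, k, trivial, Or.inr (Or.inr fun _ _ _ => c _ _ _)⟩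

theorem lab_un {A B : Sp} (d : Dis A B) {l : Lb} (a : Lab A l) (b : Lab B l) : False := by
  rcases l with ⟨j, z⟩ | ⟨j, y, z⟩ | ⟨x, y, z⟩
  · fin_cases j <;> exact d _ _ _ a b
  · refine uniqE a b ?_
    fin_cases j <;> exact fun _ _ _ => d _ _ _
  · exact uniqV a b fun _ _ _ => d _ _ _

theorem count_le {k : ℕ} (D : Fin k → Sp) (hD : ∀ i, IsPr (D i)) (hd : ∀ i j, i ≠ j → Dis (D i) (D j)) :
    k ≤ 25 := by
  choose f hf using fun i => lab_ex (hD i)
  have inj : Function.Injective f := fun i j e => by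
    by_contra n
    exact lab_un (hd i j n) (hf i) (e ▸ hf j)
  have cd : Fintype.card Lb = 26 := by simp
  have le := Fintype.card_le_of_injective f inj
  rw [Fintype.card_fin, cd] at le
  by_contra n
  have bj := (Fintype.bijective_iff_injective_and_card f).2 ⟨inj, by rw [Fintype.card_fin, cd]; omega⟩
  choose g hg using bj.2
  have L : ∀ l, Lab (D (g l)) l := fun l => by simpa only [hg] using hf (g l)
  have d : ∀ p q, Dis (D (g (.inr (.inl p)))) (D (g (.inr (.inr q)))) := fun p q =>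
    hd _ _ fun e => by simpa only [hg, reduceCtorEq, Sum.inr.injEq] using congrArg f e
  exact Cf.no ⟨fun a b c => vV a b c (D (g (.inr (.inr (a, b, c))))),
    fun a b => vE a b (D (g (.inr (.inl (0, a, b))))) 0, fun a b => vE a b (D (g (.inr (.inl (1, a, b))))) 1,
    fun a b => vE a b (D (g (.inr (.inl (2, a, b))))) 2, fun a b c _ _ _ => d _ _ _ _ _,
    fun a b c _ _ _ => d _ _ _ _ _, fun a b c _ _ _ => d _ _ _ _ _⟩
    (fun a b c => L (.inr (.inr (a, b, c))))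
    fun a b => ⟨L (.inr (.inl (0, a, b))), L (.inr (.inl (1, a, b))), L (.inr (.inl (2, a, b)))⟩

end Pool.Agent.P.MP_53fdf1_co.Q
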