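import Mathlib

set_option autoImplicit false

namespace Pool.Agent.P.MP_53fdf1_co.Q

abbrev Pl : Type := ℝ → ℝ → Prop

/-- the open square of side 4096 with centre `(x, y)` and axis `(c, s)` -/
def Sq (x y c s : ℝ) : Pl := fun u v =>
  |c * (u - x) + s * (v - y)| < 2048 ∧ |c * (v - y) - s * (u - x)| < 2048

def Meets (S : Pl) : Prop := ∃ p q, |p| < 2048 ∧ |q| < 2048 ∧ S p q

def EvTop (S : Pl) : Prop := ∃ d : ℝ, 0 < d ∧ ∀ e, 0 < e → e < d → S 0 (4096 - e)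

def sw (S : Pl) : Pl := fun u v => S v u

def rf (S : Pl) : Pl := fun u v => S (-u) v

def Ht (h : ℝ) : Prop := h = 1024 ∨ h = 2048

def FE (S : Pl) : Prop :=
  ∃ h, Ht h ∧ ∃ a b, a < 0 ∧ 0 < b ∧ a + 4096 ≤ b ∧ ∀ u, a < u → u < b → S u (2048 + h)

def FV (S : Pl) : Prop :=
  (∀ h, Ht h → S (2048 + h) (2048 + h)) ∧ ∀ h1 h2, Ht h1 → Ht h2 → ∃ a1 a2, a1 < 3072 ∧ a2 < 3072 ∧
    (∀ u, a1 < u → 0 < u → u ≤ 3072 → S u (2048 + h1)) ∧ (∀ v, a2 < v → 0 < v → v ≤ 3072 → S (2048 + h2) v) ∧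
    0 < (2048 - a1) / h1 + (2048 - a2) / h2

theorem sq_iff (x y c s u v : ℝ) : Sq x y c s u v ↔
    (c * (u - x) + s * (v - y) < 2048 ∧ -2048 < c * (u - x) + s * (v - y)) ∧
    c * (v - y) - s * (u - x) < 2048 ∧ -2048 < c * (v - y) - s * (u - x) := by
  unfold Sq
  rw [abs_lt, abs_lt]
  tauto

theorem cpos {c s : ℝ} (un : c ^ 2 + s ^ 2 = 1) (s0 : 0 ≤ s) (sc : s ≤ c) : 0 < c := by
  rcases (s0.trans sc).lt_or_eq with h | h
  · exact h
  · have : s = 0 := by linarith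
    rw [← h, this] at un
    norm_num at un

theorem chord {c s d z0 : ℝ} (un : c ^ 2 + s ^ 2 = 1) (s0 : 0 ≤ s) (c0 : 0 < c)
    (h1 : d ≤ 2048 * (c + s) - 4096 * (c * s)) (h2 : -d ≤ 2048 * (c + s) - 4096 * (c * s))
    (a1 : |c * z0 + s * d| < 2048) (a2 : |c * d - s * z0| < 2048) :
    ∃ a b, a < z0 ∧ z0 < b ∧ a + 4096 ≤ b ∧
      ∀ z, a < z → z < b → |c * z + s * d| < 2048 ∧ |c * d - s * z| < 2048 := by
  have c1 : c ≤ 1 := by nlinarith
  have s1 : s ≤ 1 := by nlinarith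
  rw [abs_lt] at a1 a2
  have e1 : (-2048 - s * d) / c + 4096 ≤ (2048 - s * d) / c := by
    rw [div_add' _ _ _ c0.ne', div_le_div_iff_of_pos_right c0]; linarith
  have l1 : ∀ z, (-2048 - s * d) / c < z ↔ -2048 < c * z + s * d := fun z => by
    rw [div_lt_iff₀ c0]; constructor <;> intro <;> linarith
  have r1 : ∀ z, z < (2048 - s * d) / c ↔ c * z + s * d < 2048 := fun z => by
    rw [lt_div_iff₀ c0]; constructor <;> intro <;> linarith
  rcases s0.lt_or_eq with sp | sz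
  · have l2 : ∀ z, (c * d - 2048) / s < z ↔ c * d - s * z < 2048 := fun z => by
      rw [div_lt_iff₀ sp]; constructor <;> intro <;> linarith
    have r2 : ∀ z, z < (c * d + 2048) / s ↔ -2048 < c * d - s * z := fun z => by
      rw [lt_div_iff₀ sp]; constructor <;> intro <;> linarith
    have e2 : (c * d - 2048) / s + 4096 ≤ (c * d + 2048) / s := by
      rw [div_add' _ _ _ sp.ne', div_le_div_iff_of_pos_right sp]; linarith
    have e3 : (c * d - 2048) / s + 4096 ≤ (2048 - s * d) / c := by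
      rw [div_add' _ _ _ sp.ne', div_le_div_iff₀ sp c0]
      linear_combination h1 + d * un
    have e4 : (-2048 - s * d) / c + 4096 ≤ (c * d + 2048) / s := by
      rw [div_add' _ _ _ c0.ne', div_le_div_iff₀ c0 sp]
      linear_combination h2 - d * un
    refine ⟨max ((-2048 - s * d) / c) ((c * d - 2048) / s), min ((2048 - s * d) / c) ((c * d + 2048) / s),
      max_lt ((l1 _).2 a1.1) ((l2 _).2 a2.2), lt_min ((r1 _).2 a1.2) ((r2 _).2 a2.1), ?_, fun z h h' => ?_⟩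
    · rw [← max_add_add_right]
      exact max_le (le_min e1 e4) (le_min e3 e2)
    · rw [max_lt_iff] at h
      rw [lt_min_iff] at h'
      exact ⟨abs_lt.2 ⟨(l1 _).1 h.1, (r1 _).1 h'.1⟩, abs_lt.2 ⟨(r2 _).1 h'.2, (l2 _).1 h.2⟩⟩
  · refine ⟨_, _, (l1 _).2 a1.1, (r1 _).2 a1.2, e1, fun z h h' =>
      ⟨abs_lt.2 ⟨(l1 _).1 h, (r1 _).1 h'⟩, abs_lt.2 ?_⟩⟩
    rw [← sz] at a2 ⊢
    simpa using a2

variable {x y c s : ℝ}

theorem chordH (un : c ^ 2 + s ^ 2 = 1) (s0 : 0 ≤ s) (c0 : 0 < c) {u0 v0 : ℝ}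
    (h1 : v0 - y ≤ 2048 * (c + s) - 4096 * (c * s)) (h2 : y - v0 ≤ 2048 * (c + s) - 4096 * (c * s))
    (h : Sq x y c s u0 v0) :
    ∃ a b, a < u0 ∧ u0 < b ∧ a + 4096 ≤ b ∧ ∀ u, a < u → u < b → Sq x y c s u v0 := by
  obtain ⟨a, b, p1, p2, p3, p4⟩ := chord un s0 c0 h1 (by linarith) h.1 h.2
  exact ⟨a + x, b + x, by linarith, by linarith, by linarith,
    fun u k1 k2 => p4 (u - x) (by linarith) (by linarith)⟩

theorem chordV (un : c ^ 2 + s ^ 2 = 1) (s0 : 0 ≤ s) (c0 : 0 < c) {u0 v0 : ℝ}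
    (h1 : u0 - x ≤ 2048 * (c + s) - 4096 * (c * s)) (h2 : x - u0 ≤ 2048 * (c + s) - 4096 * (c * s))
    (h : Sq x y c s u0 v0) :
    ∃ a b, a < v0 ∧ v0 < b ∧ a + 4096 ≤ b ∧ ∀ v, a < v → v < b → Sq x y c s u0 v := by
  rw [sq_iff] at h
  obtain ⟨a, b, p1, p2, p3, p4⟩ := chord (z0 := y - v0) un s0 c0 h1 (by linarith)
    (abs_lt.2 ⟨by linarith, by linarith⟩) (abs_lt.2 ⟨by linarith, by linarith⟩)
  refine ⟨y - b, y - a, by linarith, by linarith, by linarith, fun v k1 k2 => ?_⟩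
  obtain ⟨q1, q2⟩ := p4 (y - v) (by linarith) (by linarith)
  rw [abs_lt] at q1 q2
  rw [sq_iff]
  exact ⟨⟨by linarith, by linarith⟩, by linarith, by linarith⟩

theorem strip {S : Pl} {a b z : ℝ} (h0 : ¬ S 0 0) (z0 : 0 < z) (z1 : z < 4096) (p1 : a < z) (p2 : z < b)
    (p3 : a + 4096 ≤ b) (p4 : ∀ v, a < v → v < b → S 0 v) : EvTop S := by
  have : 0 ≤ a := not_lt.1 fun h => h0 (p4 0 h (by linarith))
  exact ⟨4096 - z, by linarith, fun e e0 e1 => p4 _ (by linarith) (by linarith)⟩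

theorem ev_of (un : c ^ 2 + s ^ 2 = 1) (h : Sq x y c s 0 4096) : EvTop (Sq x y c s) := by
  have c1 : |c| ≤ 1 := abs_le.2 ⟨by nlinarith, by nlinarith⟩
  have s1 : |s| ≤ 1 := abs_le.2 ⟨by nlinarith, by nlinarith⟩
  obtain ⟨h1, h2⟩ := h
  refine ⟨min (2048 - |c * (0 - x) + s * (4096 - y)|) (2048 - |c * (4096 - y) - s * (0 - x)|),
    lt_min (by linarith) (by linarith), fun e e0 e1 => ?_⟩
  rw [lt_min_iff] at e1
  have k1 : |s * e| ≤ e := by rw [abs_mul, abs_of_pos e0]; nlinarith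
  have k2 : |c * e| ≤ e := by rw [abs_mul, abs_of_pos e0]; nlinarith
  constructor
  · rw [show c * (0 - x) + s * (4096 - e - y) = (c * (0 - x) + s * (4096 - y)) - s * e by ring]
    linarith [abs_sub (c * (0 - x) + s * (4096 - y)) (s * e)]
  · rw [show c * (4096 - e - y) - s * (0 - x) = (c * (4096 - y) - s * (0 - x)) - c * e by ring]
    linarith [abs_sub (c * (4096 - y) - s * (0 - x)) (c * e)]

theorem ev_cl (un : c ^ 2 + s ^ 2 = 1) (h : EvTop (Sq x y c s)) :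
    |c * (0 - x) + s * (4096 - y)| ≤ 2048 ∧ |c * (4096 - y) - s * (0 - x)| ≤ 2048 := by
  have c1 : |c| ≤ 1 := abs_le.2 ⟨by nlinarith, by nlinarith⟩
  have s1 : |s| ≤ 1 := abs_le.2 ⟨by nlinarith, by nlinarith⟩
  obtain ⟨d, d0, h⟩ := h
  constructor <;> refine le_of_forall_pos_le_add fun e e0 => ?_
  all_goals
    have m0 : 0 < min e (d / 2) := lt_min e0 (by linarith)
    have m1 := min_le_left e (d / 2)
    obtain ⟨h1, h2⟩ := h _ m0 ((min_le_right e (d / 2)).trans_lt (by linarith))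
    generalize min e (d / 2) = m at *
  · have k1 : |s * m| ≤ m := by rw [abs_mul, abs_of_pos m0]; nlinarith
    rw [show c * (0 - x) + s * (4096 - y) = (c * (0 - x) + s * (4096 - m - y)) + s * m by ring]
    linarith [abs_add_le (c * (0 - x) + s * (4096 - m - y)) (s * m)]
  · have k2 : |c * m| ≤ m := by rw [abs_mul, abs_of_pos m0]; nlinarith
    rw [show c * (4096 - y) - s * (0 - x) = (c * (4096 - m - y) - s * (0 - x)) + c * m by ring]
    linarith [abs_add_le (c * (4096 - m - y) - s * (0 - x)) (c * m)]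

theorem sw_sq (x y c s : ℝ) : sw (Sq x y c s) = Sq y x c (-s) := by
  funext u v
  simp only [sw, Sq, eq_iff_iff]
  rw [and_comm]
  congr! 3 <;> ring

theorem rf_sq (x y c s : ℝ) : rf (Sq x y c s) = Sq (-x) y c (-s) := by
  funext u v
  simp only [rf, Sq, eq_iff_iff]
  rw [← abs_neg]
  congr! 3 <;> ring

theorem rot_sq (x y c s : ℝ) : Sq x y c s = Sq x y (-s) c := by
  funext u v
  simp only [Sq, eq_iff_iff]
  rw [and_comm, ← abs_neg (c * (u - x) + s * (v - y))]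
  congr! 3 <;> ring

theorem md (c0 : 0 < c) (me : Meets (Sq x y c s))
    (h1 : c * (0 - x) + s * (4096 - y) ≤ -2048) : -2048 < c * (4096 - y) - s * (4096 - x) := by
  obtain ⟨p, q, hp, hq, h⟩ := me
  rw [sq_iff] at h
  rw [abs_lt] at hp hq
  by_contra h2
  have a : s * (4096 - q) < c * p := by linarith
  have b : c * (4096 - q) < s * (4096 - p) := by linarith
  have e := mul_lt_mul_of_pos_right a (show 0 < 4096 - p by linarith)
  have f := mul_lt_mul_of_pos_right b (show 0 < 4096 - q by linarith)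
  have g : c * ((4096 - q) * (4096 - q)) < c * (p * (4096 - p)) := by linarith
  have k := lt_of_mul_lt_mul_left g c0.le
  nlinarith [sq_nonneg (p - 2048)]

theorem fv_of (un : c ^ 2 + s ^ 2 = 1) (s0 : 0 ≤ s) (sc : 2 * s ≤ c) (me : Meets (Sq x y c s))
    (aa : Sq x y c s 3072 3072) (ab : Sq x y c s 3072 4096) (ba : Sq x y c s 4096 3072)
    (bb : Sq x y c s 4096 4096)
    (va : c * (3072 - y) - s * (0 - x) < 2048 ∧ -2048 < c * (3072 - y) - s * (0 - x))
    (vb : c * (4096 - y) - s * (0 - x) < 2048 ∧ -2048 < c * (4096 - y) - s * (0 - x))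
    (ha : c * (3072 - x) + s * (0 - y) < 2048 ∧ -2048 < c * (3072 - x) + s * (0 - y))
    (_hb : c * (4096 - x) + s * (0 - y) < 2048 ∧ -2048 < c * (4096 - x) + s * (0 - y)) : FV (Sq x y c s) := by
  have c0 := cpos un s0 (by linarith)
  refine ⟨fun h hh => ?_, fun h1 h2 k1 k2 => ?_⟩
  · rcases hh with rfl | rfl <;> norm_num <;> assumption
  obtain ⟨p, q, hp, hq, h⟩ := me
  rw [sq_iff] at h aa ab ba bb
  rw [abs_lt] at hp hq
  have l1 : ∀ u, x - (2048 + s * (2048 + h1 - y)) / c < u ↔ -2048 < c * (u - x) + s * (2048 + h1 - y) :=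
    fun u => by
      rw [sub_lt_comm, lt_div_iff₀ c0]; constructor <;> intro <;> linarith
  have l2 : ∀ v, y - (2048 - s * (2048 + h2 - x)) / c < v ↔ -2048 < c * (v - y) - s * (2048 + h2 - x) :=
    fun u => by
      rw [sub_lt_comm, lt_div_iff₀ c0]; constructor <;> intro <;> linarith
  refine ⟨_, _, (l1 _).2 ?_, (l2 _).2 ?_, fun u u1 u2 u3 => ?_, fun v u1 u2 u3 => ?_, ?_⟩
  · rcases k1 with rfl | rfl <;> linarith
  · rcases k2 with rfl | rfl <;> linarith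
  · have e1 := mul_le_mul_of_nonneg_left u3 c0.le
    have e2 := mul_le_mul_of_nonneg_left u3 s0
    have e3 := mul_le_mul_of_nonneg_left u2.le s0
    rw [sq_iff]
    refine ⟨⟨?_, (l1 _).1 u1⟩, ?_, ?_⟩ <;> rcases k1 with rfl | rfl <;> linarith
  · have e1 := mul_le_mul_of_nonneg_left u3 c0.le
    have e2 := mul_le_mul_of_nonneg_left u3 s0
    have e3 := mul_le_mul_of_nonneg_left u2.le s0
    rw [sq_iff]
    refine ⟨⟨?_, ?_⟩, ?_, (l2 _).1 u1⟩ <;> rcases k2 with rfl | rfl <;> linarith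
  · obtain ⟨A, hA⟩ : ∃ A, A = (2048 + s * (2048 + h1 - y)) / c := ⟨_, rfl⟩
    obtain ⟨B, hB⟩ : ∃ B, B = (2048 - s * (2048 + h2 - x)) / c := ⟨_, rfl⟩
    rw [← hA, ← hB]
    rw [eq_div_iff c0.ne'] at hA hB
    have e1 := mul_nonneg (show 0 ≤ c - 2 * s by linarith) (show 0 ≤ 2048 - p by linarith)
    have e2 := mul_nonneg s0 (show 0 ≤ 2048 - p by linarith)
    have e3 := mul_nonneg s0 (show 0 ≤ 2048 - q by linarith)
    have e4 := mul_nonneg c0.le (show 0 ≤ 2048 - q by linarith)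
    refine (mul_pos_iff_of_pos_left c0).1 ?_
    rcases k1 with rfl | rfl <;> rcases k2 with rfl | rfl <;> linarith

end Pool.Agent.P.MP_53fdf1_co.Q
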