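import Pool.Agent.P.MP_53fdf1_co.QStep
import Pool.Agent.P.MP_53fdf1_co.QCertV0
import Pool.Agent.P.MP_53fdf1_co.QCertE1
import Pool.Agent.P.MP_53fdf1_co.QCertV1
import Pool.Agent.P.MP_53fdf1_co.QCertE2
import Pool.Agent.P.MP_53fdf1_co.QCertV2
import Pool.Agent.P.MP_53fdf1_co.QCertE3
import Pool.Agent.P.MP_53fdf1_co.QCertV3
import Pool.Agent.P.MP_53fdf1_co.QCertE4
import Pool.Agent.P.MP_53fdf1_co.QCertV4

set_option autoImplicit false
set_option maxRecDepth 100000

namespace Pool.Agent.P.MP_53fdf1_co.Q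

def fFX : Fm :=
  ⟨[((-100, 0, -266436), (0, -100, -266436)),
    ((0, -100, -349418), (100, 0, 264982)),
    ((100, 0, 225290), (0, 100, 225290)),
    ((0, 100, 265057), (-100, 0, -349343))], 2, -100, 0, 0⟩

theorem gFX : fFX.good = true := by
  decide +kernel

def fOV0 : Fm :=
  ⟨[((-100, 0, -319322), (0, -100, -237402)),
    ((0, -100, -296451), (56, -83, -129526)),
    ((56, -83, -109975), (66, -75, -40970)),
    ((66, -75, -32984), (71, -71, 3310)),
    ((71, -71, 8153), (75, -66, 39858)),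
    ((75, -66, 39540), (79, -61, 69075)),
    ((79, -61, 72845), (83, -56, 103089)),
    ((83, -56, 105357), (87, -50, 128455)),
    ((87, -50, 125514), (90, -44, 153560)),
    ((90, -44, 146945), (92, -38, 165334)),
    ((92, -38, 163452), (95, -32, 177123)),
    ((95, -32, 175619), (97, -26, 194568)),
    ((97, -26, 193357), (98, -20, 202670)),
    ((98, -20, 199089), (100, 0, 227756)),
    ((100, 0, 234433), (0, 100, 213953)),
    ((0, 100, 227369), (-100, 0, -100311))], 14, -100, 2684, 3418⟩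

theorem gOV0 : fOV0.good = true := by
  decide +kernel

def fOE1 : Fm :=
  ⟨[((100, 0, 295873), (0, 100, 213953)),
    ((0, 100, 385842), (-44, 90, 283915)),
    ((-44, 90, 327399), (-56, 83, 294054)),
    ((-56, 83, 311991), (-61, 79, 295814)),
    ((-61, 79, 311951), (-66, 75, 297120)),
    ((-66, 75, 313065), (-71, 71, 299707)),
    ((-71, 71, 300368), (-75, 66, 275673)),
    ((-75, 66, 276241), (-79, 61, 249439)),
    ((-79, 61, 247727), (-83, 56, 218496)),
    ((-83, 56, 218240), (-87, 50, 184566)),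
    ((-87, 50, 184464), (-92, 38, 121429)),
    ((-92, 38, 121429), (-95, 32, 90519)),
    ((-95, 32, 89682), (-97, 26, 60044)),
    ((-97, 26, 58673), (-98, 20, 30235)),
    ((-98, 20, 28398), (-99, 13, -3999)),
    ((-99, 13, -5688), (-100, 0, -71434)),
    ((-100, 0, -71434), (-100, -7, -105514)),
    ((-100, -7, -105828), (-99, -13, -133796)),
    ((-99, -13, -134361), (-98, -20, -166494)),
    ((-98, -20, -166032), (-97, -26, -189301)),
    ((-97, -26, -188306), (-95, -32, -210233)),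
    ((-95, -32, -210233), (-92, -38, -226928)),
    ((-92, -38, -226709), (-90, -44, -247612)),
    ((-90, -44, -248596), (-87, -50, -271693)),
    ((-87, -50, -272399), (-83, -56, -294029)),
    ((-83, -56, -297489), (56, -83, -112350)),
    ((56, -83, -263881), (100, 0, -71434))], 16, 100, -717, 717⟩

theorem gOE1 : fOE1.good = true := by
  decide +kernel

def fOV1 : Fm :=
  ⟨[((-100, 0, -319731), (0, -100, -237811)),
    ((0, -100, -353904), (71, -71, -83461)),
    ((71, -71, -65181), (83, -56, 50916)),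
    ((83, -56, 59530), (87, -50, 86289)),
    ((87, -50, 86488), (90, -44, 114598)),
    ((90, -44, 110490), (92, -38, 136139)),
    ((92, -38, 135027), (95, -32, 152349)),
    ((95, -32, 150870), (97, -26, 173496)),
    ((97, -26, 173158), (99, -13, 193191)),
    ((99, -13, 195508), (100, 0, 213543)),
    ((100, 0, 232790), (44, 90, 284041)),
    ((44, 90, 284041), (-90, 44, -46916)),
    ((-90, 44, -225710), (-100, 0, -300086))], 10, -100, 2327, 3425⟩

theorem gOV1 : fOV1.good = true := by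
  decide +kernel

def fOE2 : Fm :=
  ⟨[((100, 0, 295463), (0, 100, 213543)),
    ((0, 100, 339984), (-32, 95, 268835)),
    ((-32, 95, 314395), (-44, 90, 283505)),
    ((-44, 90, 304451), (-50, 87, 288943)),
    ((-50, 87, 309137), (-56, 83, 291268)),
    ((-56, 83, 298064), (-61, 79, 275040)),
    ((-61, 79, 275812), (-66, 75, 253436)),
    ((-66, 75, 255806), (-75, 66, 204196)),
    ((-75, 66, 201848), (-79, 61, 175117)),
    ((-79, 61, 171811), (-83, 56, 145530)),
    ((-83, 56, 144310), (-87, 50, 114236)),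
    ((-87, 50, 112671), (-90, 44, 84234)),
    ((-90, 44, 82308), (-92, 38, 55426)),
    ((-92, 38, 54977), (-97, 26, -6162)),
    ((-97, 26, -5887), (-100, 7, -93891)),
    ((-100, 7, -93891), (-100, 0, -124194)),
    ((-100, 0, -124791), (-100, -7, -154701)),
    ((-100, -7, -153089), (-99, -13, -180871)),
    ((-99, -13, -180871), (-98, -20, -208796)),
    ((-98, -20, -208844), (-95, -32, -246789)),
    ((-95, -32, -248482), (-92, -38, -261082)),
    ((-92, -38, -262284), (-83, -56, -331661)),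
    ((-83, -56, -342765), (56, -83, -107859)),
    ((56, -83, -317306), (100, 0, -124791))], 16, 100, -1251, 1251⟩

theorem gOE2 : fOE2.good = true := by
  decide +kernel

def fOV2 : Fm :=
  ⟨[((-100, 0, -320620), (0, -100, -238700)),
    ((0, -100, -375532), (83, -56, -16244)),
    ((83, -56, -8834), (90, -44, 79322)),
    ((90, -44, 80884), (92, -38, 120775)),
    ((92, -38, 118647), (95, -32, 139704)),
    ((95, -32, 136942), (97, -26, 159543)),
    ((97, -26, 158915), (99, -13, 186926)),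
    ((99, -13, 186561), (100, -7, 199699)),
    ((100, -7, 199060), (100, 0, 211945)),
    ((100, 0, 219623), (95, 32, 268401)),
    ((95, 32, 274779), (79, 61, 295372)),
    ((79, 61, 299790), (-61, 79, 46248)),
    ((-61, 79, -60087), (-100, 0, -237095))], 9, -100, 2185, 3440⟩

theorem gOV2 : fOV2.good = true := by
  decide +kernel

def fOE3 : Fm :=
  ⟨[((100, 0, 294644), (0, 100, 212724)),
    ((0, 100, 339165), (-32, 95, 268014)),
    ((-32, 95, 291965), (-38, 92, 274295)),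
    ((-38, 92, 283520), (-44, 90, 270372)),
    ((-44, 90, 278382), (-50, 87, 260898)),
    ((-50, 87, 272287), (-56, 83, 249817)),
    ((-56, 83, 248715), (-61, 79, 232738)),
    ((-61, 79, 240922), (-66, 75, 216006)),
    ((-66, 75, 216854), (-71, 71, 203009)),
    ((-71, 71, 202981), (-75, 66, 181628)),
    ((-75, 66, 179813), (-79, 61, 162204)),
    ((-79, 61, 158265), (-83, 56, 135132)),
    ((-83, 56, 133760), (-90, 44, 53065)),
    ((-90, 44, 52452), (-92, 38, 15220)),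
    ((-92, 38, 15767), (-95, 32, -23596)),
    ((-95, 32, -23596), (-97, 26, -57159)),
    ((-97, 26, -56941), (-99, 13, -109223)),
    ((-99, 13, -107234), (-100, 0, -157134)),
    ((-100, 0, -156374), (-100, -7, -182060)),
    ((-100, -7, -181576), (-99, -13, -201839)),
    ((-99, -13, -201487), (-98, -20, -225160)),
    ((-98, -20, -224328), (-95, -32, -262308)),
    ((-95, -32, -263073), (-61, -79, -366917)),
    ((-61, -79, -392480), (79, -61, -83642)),
    ((79, -61, -274410), (100, 0, -157134))], 18, 100, -1574, 1574⟩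

theorem gOE3 : fOE3.good = true := by
  decide +kernel

def fOV3 : Fm :=
  ⟨[((-100, 0, -328990), (0, -100, -247070)),
    ((0, -100, -368220), (87, -50, -5723)),
    ((87, -50, 1047), (95, -32, 127894)),
    ((95, -32, 129325), (97, -26, 155633)),
    ((97, -26, 154198), (98, -20, 170913)),
    ((98, -20, 169321), (99, -13, 184263)),
    ((99, -13, 184263), (100, -7, 201109)),
    ((100, -7, 198324), (100, 0, 215501)),
    ((100, 0, 216109), (99, 13, 238006)),
    ((99, 13, 239309), (98, 20, 250185)),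
    ((98, 20, 252825), (95, 32, 268834)),
    ((95, 32, 273498), (83, 56, 293135)),
    ((83, 56, 293135), (-56, 83, 74818)),
    ((-56, 83, -54721), (-100, 0, -246771))], 8, -100, 2149, 3669⟩

theorem gOV3 : fOV3.good = true := by
  decide +kernel

def fOE4 : Fm :=
  ⟨[((100, 0, 295054), (0, 100, 213134)),
    ((0, 100, 333609), (-32, 95, 262445)),
    ((-32, 95, 279835), (-38, 92, 262251)),
    ((-38, 92, 266207), (-44, 90, 252948)),
    ((-44, 90, 257447), (-50, 87, 241861)),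
    ((-50, 87, 253555), (-56, 83, 233466)),
    ((-56, 83, 234647), (-61, 79, 218714)),
    ((-61, 79, 222111), (-66, 75, 202186)),
    ((-66, 75, 205489), (-75, 66, 164938)),
    ((-75, 66, 162626), (-79, 61, 135932)),
    ((-79, 61, 132426), (-83, 56, 109212)),
    ((-83, 56, 105134), (-87, 50, 67450)),
    ((-87, 50, 63931), (-90, 44, 24666)),
    ((-90, 44, 23184), (-92, 38, -13860)),
    ((-92, 38, -14519), (-95, 32, -54097)),
    ((-95, 32, -54078), (-97, 26, -87695)),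
    ((-97, 26, -87695), (-98, 20, -108300)),
    ((-98, 20, -109624), (-99, 13, -133227)),
    ((-99, 13, -134732), (-100, 7, -155101)),
    ((-100, 7, -156054), (-100, 0, -177624)),
    ((-100, 0, -178824), (-100, -7, -200265)),
    ((-100, -7, -200356), (-99, -13, -213139)),
    ((-99, -13, -214632), (-98, -20, -229753)),
    ((-98, -20, -230653), (-97, -26, -246910)),
    ((-97, -26, -247242), (-90, -44, -321572)),
    ((-90, -44, -322697), (44, -90, -161315)),
    ((44, -90, -386246), (100, 0, -160309))], 20, 100, -1787, 1787⟩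

theorem gOE4 : fOE4.good = true := by
  decide +kernel

theorem kV0 : CV pV0 := fun _ _ _ _ C => four_s (P := pV0) C cV0_0 cV0_1 cV0_2 cV0_3

theorem kE1 : CE pE1 := fun _ _ _ _ C => four_s (P := pE1) C cE1_0 cE1_1 cE1_2 cE1_3

theorem tE1 : Tab pE1 rfB (kE fOV0) (out fOE1) 20 58 := by
  refine ⟨⟨?_, ?_⟩, ⟨?_, ?_⟩, ?_, ?_⟩ <;> decide +kernel

theorem kV1 : CV pV1 := fun _ _ _ _ C => four_s (P := pV1) C cV1_0 cV1_1 cV1_2 cV1_3

theorem tV1 : Tab pV1 swB (kV fOE1) (out fOV1) 29 30 := by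
  refine ⟨⟨?_, ?_⟩, ⟨?_, ?_⟩, ?_, ?_⟩ <;> decide +kernel

theorem kE2 : CE pE2 := fun _ _ _ _ C => four_s (P := pE2) C cE2_0 cE2_1 cE2_2 cE2_3

theorem tE2 : Tab pE2 rfB (kE fOV1) (out fOE2) 17 52 := by
  refine ⟨⟨?_, ?_⟩, ⟨?_, ?_⟩, ?_, ?_⟩ <;> decide +kernel

theorem kV2 : CV pV2 := fun _ _ _ _ C => four_s (P := pV2) C cV2_0 cV2_1 cV2_2 cV2_3

theorem tV2 : Tab pV2 swB (kV fOE2) (out fOV2) 26 30 := by
  refine ⟨⟨?_, ?_⟩, ⟨?_, ?_⟩, ?_, ?_⟩ <;> decide +kernel

theorem kE3 : CE pE3 := fun _ _ _ _ C => four_s (P := pE3) C cE3_0 cE3_1 cE3_2 cE3_3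

theorem tE3 : Tab pE3 rfB (kE fOV2) (out fOE3) 17 54 := by
  refine ⟨⟨?_, ?_⟩, ⟨?_, ?_⟩, ?_, ?_⟩ <;> decide +kernel

theorem kV3 : CV pV3 := fun _ _ _ _ C => four_s (P := pV3) C cV3_0 cV3_1 cV3_2 cV3_3

theorem tV3 : Tab pV3 swB (kV fOE3) (out fOV3) 27 32 := by
  refine ⟨⟨?_, ?_⟩, ⟨?_, ?_⟩, ?_, ?_⟩ <;> decide +kernel

theorem kE4 : CE pE4 := fun _ _ _ _ C => four_s (P := pE4) C cE4_0 cE4_1 cE4_2 cE4_3

theorem tE4 : Tab pE4 rfB (kE fOV3) (out fOE4) 18 58 := by
  refine ⟨⟨?_, ?_⟩, ⟨?_, ?_⟩, ?_, ?_⟩ <;> decide +kernel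

theorem kV4 : CV pV4 := fun _ _ _ _ C => four_s (P := pV4) C cV4_0 cV4_1 cV4_2 cV4_3

theorem tV4 : Tab pV4 swB (kV fOE4) ([]) 29 0 := by
  refine ⟨⟨?_, ?_⟩, ⟨?_, ?_⟩, ?_, ?_⟩ <;> decide +kernel

theorem tV0 : (pV0.N0 = 2 ^ 44 - 1 ∧ decF pV0.T0 44 = (out fOV0 ++ (out fOV0).map swB) ++
    (hi fFX.W ++ (hi fFX.W).map swB)) ∧ pV0.N1 = 2 ^ 52 - 1 ∧ decF pV0.T1 52 = ((out fOV0 ++ (out fOV0).map swB) ++
    (hi fFX.W ++ (hi fFX.W).map swB)) ++ (lo fFX.W ++ (lo fFX.W).map swB) := by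
  decide +kernel

/-- what every vertex square satisfies -/
def P0 (S : Pl) : Prop :=
  PV 0 (out fOV0) S ∧ Has (hi fFX.W) S ∧ Has (hi fFX.W) (sw S) ∧
    (S 4096 4096 ∨ Has (lo fFX.W) S ∧ Has (lo fFX.W) (sw S))

theorem lem0 {S : Pl} (hS : BV S) : P0 S := by
  have k : ∀ S, BV S → Goal pV0 S → P0 S := by
    rintro S hS (a | a | a)
    · obtain ⟨b, c⟩ := has_app (has_dec a.2 tV0.1.1 tV0.1.2)
      exact ⟨⟨by omega, (has_app b).1, has_sw (has_app b).2⟩, (has_app c).1, has_sw (has_app c).2,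
        Or.inl (a.1.1 rfl hS.2.2.2.1)⟩
    · obtain ⟨b, e⟩ := has_app (has_dec a.2 tV0.2.1 tV0.2.2)
      obtain ⟨b, c⟩ := has_app b
      exact ⟨⟨by omega, (has_app b).1, has_sw (has_app b).2⟩, (has_app c).1, has_sw (has_app c).2,
        Or.inr ⟨(has_app e).1, has_sw (has_app e).2⟩⟩
    · exact absurd a.1.2.2.2 (by decide)
  rcases goalV kV0 hS with a | a
  · exact k _ hS a
  · obtain ⟨b, c, d, e⟩ := k _ hS.sw a
    exact ⟨b.sw, d, c, e.imp id And.symm⟩

theorem uniqV {R R' : Pl → Prop} {A B : Sp} (a : VC R A) (b : VC R' B) (d : Dis A B) : False := by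
  obtain ⟨S, hS, -, c⟩ := a
  obtain ⟨T, hT, -, e⟩ := b
  obtain ⟨⟨-, s1, s2⟩, s3, -, s5⟩ := lem0 hS
  obtain ⟨⟨-, t1, t2⟩, t3, -, t5⟩ := lem0 hT
  have m : ∃ u v, S u v ∧ T u v := by
    rcases s5 with s5 | s5
    · rcases t5 with t5 | t5
      · exact ⟨_, _, s5, t5⟩
      · exact sep gFX hS.un hT.un s3 t5.1
    · obtain ⟨u, v, k1, k2⟩ := sep gFX hT.un hS.un t3 s5.1
      exact ⟨u, v, k2, k1⟩
  have k : ∀ {S T : Pl}, Un S → Un T → Has (out fOV0) S → Has (out fOV0) T →
      ∃ u v w, II v ∧ II w ∧ S u v ∧ T u w := fun hS hT a b =>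
    shad2 hS hT (a (shL fOV0.gl) (by simp [out])) (a (shH fOV0.gh) (by simp [out]))
      (b (shL fOV0.gl) (by simp [out])) (b (shH fOV0.gh) (by simp [out])) (by decide) (by decide)
  obtain ⟨a1, a2, a3, a4⟩ := m
  obtain ⟨c1, c2, c3, c4, c5, c6, c7⟩ := k hS.un.sw hT.un s2 t1
  obtain ⟨d1, d2, d3, d4, d5, d6, d7⟩ := k hS.un hT.un.sw s1 t2
  rcases c with c | c | c <;> rcases e with e | e | e
  · exact d _ _ _ (c _ _ _ a3 i4) (e _ _ _ a4 i4)
  · exact d _ _ _ (c _ _ _ c6 c5) (e _ _ _ c7 c4)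
  · exact d _ _ _ (c _ _ _ d6 d5) (e _ _ _ d7 d4)
  · exact d _ _ _ (c _ _ _ d6 d5) (e _ _ _ d7 d4)
  · exact d _ _ _ (c _ _ _ a3 i4) (e _ _ _ a4 i4)
  · exact d _ _ _ (c _ _ _ c6 c5) (e _ _ _ c7 c4)
  · exact d _ _ _ (c _ _ _ c6 c5) (e _ _ _ c7 c4)
  · exact d _ _ _ (c _ _ _ d6 d5) (e _ _ _ d7 d4)
  · exact d _ _ _ (c _ _ _ a3 i4) (e _ _ _ a4 i4)

end Pool.Agent.P.MP_53fdf1_co.Q
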