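import Pool.Agent.P.MP_53fdf1_co.QSound

set_option autoImplicit false

namespace Pool.Agent.P.MP_53fdf1_co.Q

abbrev In : Type := ℤ × ℤ × ℤ

abbrev Bin : Type := In × In × In

def ok (I : In) (u v : ℝ) : Prop := (I.1 : ℝ) * u + I.2.1 * v < I.2.2

def Hit (S : Pl) (b : Bin) : Prop := ∃ u v, S u v ∧ ok b.1 u v ∧ ok b.2.1 u v ∧ ok b.2.2 u v

def Has (F : List Bin) (S : Pl) : Prop := ∀ b ∈ F, Hit S b

def mkI (a b g : ℕ) : In :=
  ((a : ℤ) - 128, (b : ℤ) - 128, (g : ℤ) - 8388608 - 8192 * ((a : ℤ) + b - 256))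

def decI (w : ℕ) : In := mkI (w % 256) (w / 256 % 256) (w / 65536)

def decB (tab j : ℕ) : Bin := (decI (cd0 (row tab j)), decI (cd1 (row tab j)), decI (cd2 (row tab j)))

def decF (tab n : ℕ) : List Bin := (List.range n).map (decB tab)

def Msk (tab mask : ℕ) (S : Pl) : Prop := ∀ j, mask.testBit j = true → Hit S (decB tab j)

def Goal (P : Pb) (S : Pl) : Prop :=
  (Tag P.g0 S ∧ Msk P.T0 P.N0 S) ∨ (Tag P.g1 S ∧ Msk P.T1 P.N1 S) ∨ (Tag P.g2 S ∧ Msk P.T2 P.N2 S)

variable {B : Bx} {x y c s t : ℝ} {v : Bool}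

theorem iq3_s (h : InB B x y c s t) {p q a b g : ℕ} (hc : iq3 B p q a b g = true) :
    ok (mkI a b g) (x + (p - 2046) * c - (q - 2046) * s) (y + (p - 2046) * s + (q - 2046) * c) := by
  simp only [iq3, frc_eq] at hc
  have e := cmp_s h hc le_rfl le_rfl
  simp only [Nat.add_eq, Nat.mul_eq, Nat.sub_eq] at e
  have k1 := key a 128 h.x0 h.x1 le_rfl
  have k2 := key b 128 h.y0 h.y1 le_rfl
  simp only [Nat.cast_add, Nat.cast_mul, Nat.cast_ofNat] at e k1 k2
  simp only [ok, mkI]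
  push_cast
  linarith

theorem iq_s (h : InB B x y c s t) {p q w : ℕ} (hc : iq B p q w = true) :
    ok (decI w) (x + (p - 2046) * c - (q - 2046) * s) (y + (p - 2046) * s + (q - 2046) * c) := by
  simp only [iq, frc_eq] at hc
  exact iq3_s h hc

theorem bn3_s (un : c ^ 2 + s ^ 2 = 1) (h : InB B x y c s t) {w p q : ℕ} (hp : p ≤ 4092) (hq : q ≤ 4092)
    (hc : bn3 B w p q = true) : Hit (Sq x y c s) (decI (cd0 w), decI (cd1 w), decI (cd2 w)) := by
  simp only [bn3, frc_eq, andb_eq, orb_eq] at hc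
  obtain ⟨a0, a1, a2⟩ := hc
  have p1 : (p : ℝ) ≤ 4092 := by exact_mod_cast hp
  have q1 : (q : ℝ) ≤ 4092 := by exact_mod_cast hq
  have p0 : (0 : ℝ) ≤ p := Nat.cast_nonneg p
  have q0 : (0 : ℝ) ≤ q := Nat.cast_nonneg q
  refine ⟨_, _, ?_, iq_s h a0, iq_s h a1, ?_⟩
  · rw [sq_iff]
    refine ⟨⟨?_, ?_⟩, ?_, ?_⟩
    · linear_combination p1 + (p - 2046) * un + two_pos (α := ℝ)
    · linear_combination p0 - (p - 2046) * un + two_pos (α := ℝ)
    · linear_combination q1 + (q - 2046) * un + two_pos (α := ℝ)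
    · linear_combination q0 - (q - 2046) * un + two_pos (α := ℝ)
  · rcases a2 with a2 | a2
    · rw [Nat.eq_of_beq_eq_true a2]
      show ok (mkI 128 128 8388609) _ _
      simp [ok, mkI]
    · exact iq_s h a2

theorem bn_s (un : c ^ 2 + s ^ 2 = 1) (h : InB B x y c s t) {tab j k : ℕ} (hc : bn B tab j k = true) :
    Hit (Sq x y c s) (decB tab j) := by
  simp only [bn, frc_eq, ifb_eq] at hc
  have a : Nat.mul 132 (Nat.mod k 32) ≤ 4092 := by
    show 132 * (k % 32) ≤ 4092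
    omega
  have b : Nat.mul 4092 (Nat.mod (Nat.div k 32) 2) ≤ 4092 := by
    show 4092 * (k / 32 % 2) ≤ 4092
    omega
  split_ifs at hc
  · exact bn3_s un h a b hc
  · exact bn3_s un h b a hc

/-- the half-angle parametrisation -/
def Par (c s t : ℝ) : Prop :=
  c * (16777216 + t ^ 2) = 16777216 - t ^ 2 ∧ s * (16777216 + t ^ 2) = 8192 * t ∧ 0 ≤ t ∧ t ≤ 4096

theorem div_bd (a b : ℕ) (hb : 0 < b) :
    ((a / b : ℕ) : ℝ) * b ≤ a ∧ (a : ℝ) ≤ (((a / b).succ : ℕ) : ℝ) * b := by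
  constructor
  · exact_mod_cast Nat.div_mul_le_self a b
  · have := Nat.lt_div_mul_add (a := a) hb
    have e : a ≤ (a / b).succ * b := by rw [Nat.succ_mul]; omega
    exact_mod_cast e

theorem cl_bd (m : ℕ) (hm : m ≤ 4096) :
    (cl m : ℝ) * (16777216 + (m : ℝ) ^ 2) ≤ 65536 * (16777216 - (m : ℝ) ^ 2) ∧
    65536 * (16777216 - (m : ℝ) ^ 2) ≤ ((cl m).succ : ℕ) * (16777216 + (m : ℝ) ^ 2) := by
  have := div_bd (65536 * (16777216 - m * m)) (16777216 + m * m) (by omega)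
  rw [Nat.cast_mul, Nat.cast_sub (by nlinarith)] at this
  have e : cl m = 65536 * (16777216 - m * m) / (16777216 + m * m) := rfl
  rw [← e] at this
  simpa only [sq, Nat.cast_add, Nat.cast_mul, Nat.cast_ofNat] using this

theorem sl_bd (m : ℕ) :
    (sl m : ℝ) * (16777216 + (m : ℝ) ^ 2) ≤ 536870912 * m ∧
    536870912 * m ≤ ((sl m).succ : ℕ) * (16777216 + (m : ℝ) ^ 2) := by
  have := div_bd (536870912 * m) (16777216 + m * m) (by omega)
  have e : sl m = 536870912 * m / (16777216 + m * m) := rfl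
  rw [← e] at this
  simpa only [sq, Nat.cast_add, Nat.cast_mul, Nat.cast_ofNat] using this

theorem up_bd (hp : Par c s t) {m : ℕ} (hm : m ≤ 4096) (h : t ≤ m) :
    (cl m : ℝ) ≤ 65536 * c ∧ 65536 * s ≤ ((sl m).succ : ℕ) := by
  obtain ⟨h1, h2, h3, h4⟩ := hp
  have m1 : (m : ℝ) ≤ 4096 := by exact_mod_cast hm
  have d1 : (0 : ℝ) < 16777216 + (m : ℝ) ^ 2 := by positivity
  have d2 : (0 : ℝ) < 16777216 + t ^ 2 := by positivity
  constructor
  · refine le_of_mul_le_mul_right ((cl_bd m hm).1.trans (le_of_mul_le_mul_right ?_ d2)) d1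
    have := mul_nonneg (sub_nonneg.2 h) (show 0 ≤ m + t by linarith)
    linear_combination 65536 * 33554432 * this - 65536 * (16777216 + (m : ℝ) ^ 2) * h1
  · refine le_of_mul_le_mul_right (le_trans (le_of_mul_le_mul_right ?_ d2) (sl_bd m).2) d1
    have := mul_nonneg (sub_nonneg.2 h) (show 0 ≤ 16777216 - m * t by nlinarith)
    linear_combination 536870912 * this + 65536 * (16777216 + (m : ℝ) ^ 2) * h2

theorem dn_bd (hp : Par c s t) {m : ℕ} (h : m ≤ t) :
    65536 * c ≤ ((cl m).succ : ℕ) ∧ (sl m : ℝ) ≤ 65536 * s := by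
  obtain ⟨h1, h2, h3, h4⟩ := hp
  have m0 : (0 : ℝ) ≤ m := Nat.cast_nonneg m
  have hm : m ≤ 4096 := by exact_mod_cast h.trans h4
  have d1 : (0 : ℝ) < 16777216 + (m : ℝ) ^ 2 := by positivity
  have d2 : (0 : ℝ) < 16777216 + t ^ 2 := by positivity
  constructor
  · refine le_of_mul_le_mul_right (le_trans (le_of_mul_le_mul_right ?_ d2) (cl_bd m hm).2) d1
    have := mul_nonneg (sub_nonneg.2 h) (show 0 ≤ m + t by linarith)
    linear_combination 65536 * 33554432 * this + 65536 * (16777216 + (m : ℝ) ^ 2) * h1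
  · refine le_of_mul_le_mul_right ((sl_bd m).1.trans (le_of_mul_le_mul_right ?_ d2)) d1
    have := mul_nonneg (sub_nonneg.2 h) (show 0 ≤ 16777216 - m * t by nlinarith)
    linear_combination 536870912 * this - 65536 * (16777216 + (m : ℝ) ^ 2) * h2

theorem spl_s {α : Type} (hp : Par c s t) (h : InB B x y c s t) (d : ℕ) (k : Bx → Bx → α) :
    ∃ B1 B2, spl d B k = k B1 B2 ∧ (InB B1 x y c s t ∨ InB B2 x y c s t) := by
  obtain ⟨x0, x1, y0, y1, t0, t1, c0, c1, s0, s1⟩ := B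
  simp only [spl, ifb_eq, frc_eq]
  split_ifs
  · refine ⟨_, _, rfl, (le_total (x + 8192) (hf x0 x1)).imp (fun k => ?_) fun k => ?_⟩
    · exact { h with x1 := k }
    · exact { h with x0 := k }
  · refine ⟨_, _, rfl, (le_total (y + 8192) (hf y0 y1)).imp (fun k => ?_) fun k => ?_⟩
    · exact { h with y1 := k }
    · exact { h with y0 := k }
  · have a : t0 ≤ t1 := by exact_mod_cast h.t0.trans h.t1
    have b : t1 ≤ 4096 := h.tm
    have m : hf t0 t1 ≤ 4096 := by
      show (t0 + t1) / 2 ≤ 4096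
      omega
    refine ⟨_, _, rfl, (le_total t (hf t0 t1)).imp (fun k => ?_) fun k => ?_⟩
    · exact { h with t1 := k, c0 := (up_bd hp m k).1, s1 := (up_bd hp m k).2, tm := m }
    · exact { h with t0 := k, c1 := (dn_bd hp k).1, s0 := (dn_bd hp k).2 }

theorem nz_s {n : ℕ} {k : ℕ → ℕ} (h : nz n k ≠ 0) : n ≠ 0 ∧ k n ≠ 0 := by
  cases n with
  | zero => exact absurd rfl h
  | succ m => exact ⟨Nat.succ_ne_zero m, h⟩

theorem tag0 (S : Pl) : Tag 0 S := ⟨by omega, by omega, by omega, by omega⟩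

theorem run_s (P : Pb) (C : Cx P.v x y c s) (hp : Par c s t) (fuel : ℕ) :
    ∀ (B : Bx) (tab mask g cd : ℕ), run P fuel B tab mask g cd ≠ 0 → InB B x y c s t →
      (Tag g (Sq x y c s) → Msk tab mask (Sq x y c s) → Goal P (Sq x y c s)) → Goal P (Sq x y c s) := by
  induction fuel with
  | zero => exact fun _ _ _ _ _ h => absurd rfl h
  | succ n ih =>
    intro B tab mask g cd hc h hi
    have e : run P (n + 1) B tab mask g cd =
      stp P (run P n) B tab mask g cd (cd % 65536) (cd % 65536 % 8) := rfl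
    rw [e] at hc
    generalize cd % 65536 % 8 = d at hc
    generalize cd % 65536 = lo at hc
    simp only [stp, ifb_eq, frc_eq] at hc
    split_ifs at hc with h1 h2 h3 h4 h5 h6 h7 h8 h9
    · refine ih _ _ _ _ _ hc h fun a b => hi a fun j hj => ?_
      generalize Nat.mod (Nat.div lo 8) 64 = i at h2 b
      by_cases k : j = i
      · exact k ▸ bn_s C.un h h2
      · refine b j ?_
        show (mask ^^^ 1 <<< i).testBit j = true
        rw [Nat.testBit_xor, hj, Nat.one_shiftLeft, Nat.testBit_two_pow_of_ne (Ne.symm k)]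
        rfl
    · exact absurd rfl hc
    · exact (kil_s C h h4).elim
    · exact absurd rfl hc
    · obtain ⟨B1, B2, e, k⟩ := spl_s hp h d fun B1 B2 =>
        nz (run P n B1 tab mask g (Nat.shiftRight cd 3)) (run P n B2 tab mask g)
      rw [e] at hc
      rcases k with k | k
      · exact ih _ _ _ _ _ (nz_s hc).1 k hi
      · exact ih _ _ _ _ _ (nz_s hc).2 k hi
    · have z : mask + g = 0 := Nat.eq_of_beq_eq_true h7
      have z1 : mask = 0 := by omega
      have z2 : g = 0 := by omega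
      subst z1 z2
      exact hi (tag0 _) fun j hj => by simp at hj
    · exact absurd rfl hc
    · simp only [com, ifb_eq, frc_eq] at hc
      split_ifs at hc
      · exact ih _ _ _ _ _ hc h fun a b => Or.inl ⟨a, b⟩
      · exact ih _ _ _ _ _ hc h fun a b => Or.inr (Or.inl ⟨a, b⟩)
      · exact ih _ _ _ _ _ hc h fun a b => Or.inr (Or.inr ⟨a, b⟩)
    · exact ih _ _ _ _ _ hc h fun _ b => hi (tgc_s C h h9) b
    · exact absurd rfl hc

theorem top_s (P : Pb) (C : Cx P.v x y c s) (hp : Par c s t) (T : CT) :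
    ∀ B : Bx, top P T B = true → InB B x y c s t → Goal P (Sq x y c s) := by
  induction T with
  | lf n =>
    intro B hc h
    have e : 1 ≤ run P 300 B 0 0 4 n := Nat.le_of_ble_eq_true hc
    exact run_s P C hp 300 B 0 0 4 n (by omega) h fun a => absurd a.2.2.2 (by omega)
  | nd d l r il ir =>
    intro B hc h
    obtain ⟨B1, B2, e, k⟩ := spl_s hp h d fun B1 B2 => andb (top P l B1) (top P r B2)
    have e' : top P (.nd d l r) B = andb (top P l B1) (top P r B2) := e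
    rw [e', andb_eq] at hc
    exact k.elim (il _ hc.1) (ir _ hc.2)

theorem chk_s {P : Pb} (C : Cx P.v x y c s) (hp : Par c s t) {x0 x1 y0 y1 t0 t1 : ℕ} {T : CT}
    (hc : chk P x0 x1 y0 y1 t0 t1 T = true) (a0 : (x0 : ℝ) ≤ x + 8192) (a1 : x + 8192 ≤ x1)
    (b0 : (y0 : ℝ) ≤ y + 8192) (b1 : y + 8192 ≤ y1) (e0 : (t0 : ℝ) ≤ t) (e1 : t ≤ t1) (m : t1 ≤ 4096) :
    Goal P (Sq x y c s) :=
  top_s P C hp T ⟨x0, x1, y0, y1, t0, t1, cl t1, (cl t0).succ, sl t0, (sl t1).succ⟩ hc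
    ⟨a0, a1, b0, b1, e0, e1, (up_bd hp m e1).1, (dn_bd hp e0).1, (dn_bd hp e0).2, (up_bd hp m e1).2, m⟩

theorem four_s {P : Pb} (C : Cx P.v x y c s) {x0 x1 y0 y1 : ℕ} {T0 T1 T2 T3 : CT}
    (h0 : chk P x0 x1 y0 y1 0 425 T0 = true) (h1 : chk P x0 x1 y0 y1 425 850 T1 = true)
    (h2 : chk P x0 x1 y0 y1 850 1275 T2 = true) (h3 : chk P x0 x1 y0 y1 1275 1700 T3 = true)
    (a0 : (x0 : ℝ) ≤ x + 8192) (a1 : x + 8192 ≤ x1) (b0 : (y0 : ℝ) ≤ y + 8192) (b1 : y + 8192 ≤ y1) :
    Goal P (Sq x y c s) := by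
  have c0 := cpos C.un C.s0 C.sc
  have un := C.un
  have s0 := C.s0
  have sc := C.sc
  obtain ⟨t, ht⟩ : ∃ t, t = 4096 * s / (1 + c) := ⟨_, rfl⟩
  have d : 0 < 1 + c := by linarith
  have t0 : 0 ≤ t := by rw [ht]; positivity
  rw [eq_div_iff d.ne'] at ht
  have t1 : t ≤ 1700 := by
    refine le_of_mul_le_mul_right ?_ d
    have : s ≤ 0.7072 := by nlinarith
    have : 0.7071 ≤ c := by nlinarith
    linarith
  have t2 : t ^ 2 * (1 + c) = 16777216 * (1 - c) := by
    refine mul_right_cancel₀ d.ne' ?_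
    linear_combination (t * (1 + c) + 4096 * s) * ht + 16777216 * un
  have hp : Par c s t := by
    refine ⟨by linarith, mul_right_cancel₀ d.ne' ?_, t0, by linarith⟩
    linear_combination s * t2 - 8192 * ht
  rcases le_total t 850 with e | e
  · rcases le_total t 425 with e' | e'
    · exact chk_s C hp h0 a0 a1 b0 b1 (by exact_mod_cast t0) (by exact_mod_cast e') (by norm_num)
    · exact chk_s C hp h1 a0 a1 b0 b1 (by exact_mod_cast e') (by exact_mod_cast e) (by norm_num)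
  · rcases le_total t 1275 with e' | e'
    · exact chk_s C hp h2 a0 a1 b0 b1 (by exact_mod_cast e) (by exact_mod_cast e') (by norm_num)
    · exact chk_s C hp h3 a0 a1 b0 b1 (by exact_mod_cast e') (by exact_mod_cast t1) (by norm_num)

end Pool.Agent.P.MP_53fdf1_co.Q
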