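import Pool.Agent.P.MP_53fdf1_co.QChk
import Pool.Agent.P.MP_53fdf1_co.QGeo

set_option autoImplicit false

namespace Pool.Agent.P.MP_53fdf1_co.Q

theorem frc_eq {α : Type} (n : ℕ) (k : ℕ → α) : frc n k = k n := (rfl)

theorem andb_eq (a b : Bool) : andb a b = true ↔ a = true ∧ b = true := by
  cases a <;> simp [andb]

theorem orb_eq (a b : Bool) : orb a b = true ↔ a = true ∨ b = true := by
  cases a <;> simp [orb]

theorem ifb_eq {α : Type} (a : Bool) (x y : α) : ifb a x y = if a = true then x else y := by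
  cases a <;> rfl

structure InB (B : Bx) (x y c s t : ℝ) : Prop where
  x0 : (B.x0 : ℝ) ≤ x + 8192
  x1 : x + 8192 ≤ B.x1
  y0 : (B.y0 : ℝ) ≤ y + 8192
  y1 : y + 8192 ≤ B.y1
  t0 : (B.t0 : ℝ) ≤ t
  t1 : t ≤ B.t1
  c0 : (B.c0 : ℝ) ≤ 65536 * c
  c1 : 65536 * c ≤ B.c1
  s0 : (B.s0 : ℝ) ≤ 65536 * s
  s1 : 65536 * s ≤ B.s1
  tm : B.t1 ≤ 4096

structure Cx (v : Bool) (x y c s : ℝ) : Prop where
  un : c ^ 2 + s ^ 2 = 1
  s0 : 0 ≤ s
  sc : s ≤ c
  me : Meets (Sq x y c s)
  no : ¬ Sq x y c s 0 0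
  cv : v = true → 0 ≤ x ∧ 0 ≤ y ∧ ¬ EvTop (Sq x y c s) ∧ ¬ EvTop (sw (Sq x y c s))
  ce : ¬ v = true → EvTop (Sq x y c s)

theorem key {l h : ℕ} (a b : ℕ) {k e : ℝ} (h1 : (l : ℝ) ≤ k) (h2 : k ≤ h) (h3 : e ≤ (a : ℝ) - b) :
    k * e ≤ h * ((a - b : ℕ) : ℝ) - l * ((b - a : ℕ) : ℝ) := by
  have l0 : (0 : ℝ) ≤ l := Nat.cast_nonneg l
  have m := mul_le_mul_of_nonneg_left h3 (l0.trans h1)
  rcases le_total a b with k1 | k1
  · have : (a : ℝ) ≤ b := by exact_mod_cast k1
    rw [Nat.sub_eq_zero_of_le k1, Nat.cast_sub k1, Nat.cast_zero]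
    nlinarith
  · have : (b : ℝ) ≤ a := by exact_mod_cast k1
    rw [Nat.sub_eq_zero_of_le k1, Nat.cast_sub k1, Nat.cast_zero]
    nlinarith

theorem sub_cast (a b : ℕ) : (a : ℝ) - b ≤ ((a - b : ℕ) : ℝ) := by
  have := key (l := 1) (h := 1) a b (k := 1) (e := a - b) (by simp) (by simp) le_rfl
  have : (0 : ℝ) ≤ ((b - a : ℕ) : ℝ) := Nat.cast_nonneg _
  push_cast at *
  linarith

variable {B : Bx} {x y c s t : ℝ} {v : Bool}

theorem cmp_s (h : InB B x y c s t) {K1 K2 a1 b1 a2 b2 : ℕ} (hc : cmp B K1 K2 a1 b1 a2 b2 = true) {e1 e2 : ℝ}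
    (h1 : e1 ≤ (a1 : ℝ) - b1) (h2 : e2 ≤ (a2 : ℝ) - b2) : K1 + 65536 * (c * e1 + s * e2) ≤ K2 := by
  have a := key a1 b1 h.c0 h.c1 h1
  have b := key a2 b2 h.s0 h.s1 h2
  have e : K1 + B.c1 * (a1 - b1) + B.s1 * (a2 - b2) ≤ K2 + B.c0 * (b1 - a1) + B.s0 * (b2 - a2) :=
    Nat.le_of_ble_eq_true hc
  have e' : (K1 : ℝ) + B.c1 * ((a1 - b1 : ℕ) : ℝ) + B.s1 * ((a2 - b2 : ℕ) : ℝ) ≤
      K2 + B.c0 * ((b1 - a1 : ℕ) : ℝ) + B.s0 * ((b2 - a2 : ℕ) : ℝ) := by exact_mod_cast e
  linarith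

theorem sR_s (h : InB B x y c s t) {K1 K2 px py : ℕ} (hc : sR B K1 K2 px py = true) :
    K1 + 65536 * (c * (px - 8192 - x) + s * (py - 8192 - y)) ≤ K2 :=
  cmp_s h hc (by linarith [h.x0]) (by linarith [h.y0])

theorem sL_s (h : InB B x y c s t) {K1 K2 px py : ℕ} (hc : sL B K1 K2 px py = true) :
    K1 - 65536 * (c * (px - 8192 - x) + s * (py - 8192 - y)) ≤ K2 := by
  have := cmp_s h hc (e1 := x + 8192 - px) (e2 := y + 8192 - py) (by linarith [h.x1]) (by linarith [h.y1])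
  linarith

theorem sT_s (h : InB B x y c s t) {K1 K2 px py : ℕ} (hc : sT B K1 K2 px py = true) :
    K1 + 65536 * (c * (py - 8192 - y) - s * (px - 8192 - x)) ≤ K2 := by
  have := cmp_s h hc (e1 := py - 8192 - y) (e2 := x + 8192 - px) (by linarith [h.y0]) (by linarith [h.x1])
  linarith

theorem sB_s (h : InB B x y c s t) {K1 K2 px py : ℕ} (hc : sB B K1 K2 px py = true) :
    K1 - 65536 * (c * (py - 8192 - y) - s * (px - 8192 - x)) ≤ K2 := by
  have := cmp_s h hc (e1 := y + 8192 - py) (e2 := px - 8192 - x) (by linarith [h.y1]) (by linarith [h.x0])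
  linarith

theorem iR_s (h : InB B x y c s t) {px py : ℕ} (hc : iR B px py = true) (u w : ℝ) (hu : (px : ℝ) = u + 8192)
    (hw : (py : ℝ) = w + 8192) : c * (u - x) + s * (w - y) < 2048 := by
  have := sR_s (K1 := 1) (K2 := 134217728) h hc
  rw [hu, hw] at this
  push_cast at this
  linarith

theorem iT_s (h : InB B x y c s t) {px py : ℕ} (hc : iT B px py = true) (u w : ℝ) (hu : (px : ℝ) = u + 8192)
    (hw : (py : ℝ) = w + 8192) : c * (w - y) - s * (u - x) < 2048 := by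
  have := sT_s (K1 := 1) (K2 := 134217728) h hc
  rw [hu, hw] at this
  push_cast at this
  linarith

theorem iH_s (h : InB B x y c s t) {px py : ℕ} (hc : iH B px py = true) (u w : ℝ) (hu : (px : ℝ) = u + 8192)
    (hw : (py : ℝ) = w + 8192) : c * (u - x) + s * (w - y) < 2048 ∧ -2048 < c * (u - x) + s * (w - y) := by
  obtain ⟨a, b⟩ := (andb_eq _ _).1 hc
  have := sL_s (K1 := 1) (K2 := 134217728) h b
  rw [hu, hw] at this
  push_cast at this
  exact ⟨iR_s h a u w hu hw, by linarith⟩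

theorem iV_s (h : InB B x y c s t) {px py : ℕ} (hc : iV B px py = true) (u w : ℝ) (hu : (px : ℝ) = u + 8192)
    (hw : (py : ℝ) = w + 8192) : c * (w - y) - s * (u - x) < 2048 ∧ -2048 < c * (w - y) - s * (u - x) := by
  obtain ⟨a, b⟩ := (andb_eq _ _).1 hc
  have := sB_s (K1 := 1) (K2 := 134217728) h b
  rw [hu, hw] at this
  push_cast at this
  exact ⟨iT_s h a u w hu hw, by linarith⟩

theorem ins_s (h : InB B x y c s t) {px py : ℕ} (hc : ins B px py = true) (u w : ℝ) (hu : (px : ℝ) = u + 8192)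
    (hw : (py : ℝ) = w + 8192) : Sq x y c s u w := by
  obtain ⟨a, b⟩ := (andb_eq _ _).1 hc
  exact (sq_iff _ _ _ _ _ _).2 ⟨iH_s h a u w hu hw, iV_s h b u w hu hw⟩

theorem far_s (h : InB B x y c s t) {d : ℕ} (hc : far B d = true) : 2048 + 2048 * (c + s) ≤ d := by
  have e : 134217728 + 2048 * (B.c1 + B.s1) ≤ d * 65536 := Nat.le_of_ble_eq_true hc
  have e' : (134217728 : ℝ) + 2048 * (B.c1 + B.s1) ≤ d * 65536 := by exact_mod_cast e
  linarith [h.c1, h.s1]

theorem far_pos {d : ℕ} (hc : far B d = true) : 0 < d := by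
  have e : 134217728 + 2048 * (B.c1 + B.s1) ≤ d * 65536 := Nat.le_of_ble_eq_true hc
  omega

theorem wge_s (C : Cx v x y c s) (h : InB B x y c s t) {d : ℕ} (hc : wge B d = true) :
    d ≤ 2048 * (c + s) - 4096 * (c * s) := by
  have e : (B.c1 + B.s1) * (B.c1 + B.s1) + d * 2097152 ≤ (B.c1 + B.s1) * 65536 + 4294967296 :=
    Nat.le_of_ble_eq_true hc
  have e' : ((B.c1 : ℝ) + B.s1) * (B.c1 + B.s1) + d * 2097152 ≤ (B.c1 + B.s1) * 65536 + 4294967296 := by
    exact_mod_cast e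
  have u1 : 1 ≤ c + s := by nlinarith [C.un, C.s0, C.sc, mul_nonneg C.s0 (C.s0.trans C.sc)]
  have u2 : 65536 * (c + s) ≤ B.c1 + B.s1 := by linarith [h.c1, h.s1]
  have := mul_nonneg (sub_nonneg.2 u2) (show 0 ≤ (B.c1 : ℝ) + B.s1 + 65536 * (c + s) - 65536 by linarith)
  linear_combination (1 / 2097152) * (e' + this) - 2048 * C.un

theorem cen (C : Cx v x y c s) : |x| < 2048 + 2048 * (c + s) ∧ y < 2048 + 2048 * (c + s) := by
  obtain ⟨p, q, hp, hq, h⟩ := C.me
  rw [sq_iff] at h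
  rw [abs_lt] at hp hq ⊢
  have c0 := C.s0.trans C.sc
  have a1 := mul_le_mul_of_nonneg_left h.1.1.le c0
  have a2 := mul_le_mul_of_nonneg_left h.1.2.le c0
  have a3 := mul_le_mul_of_nonneg_left h.2.1.le C.s0
  have a4 := mul_le_mul_of_nonneg_left h.2.2.le C.s0
  have a5 := mul_le_mul_of_nonneg_left h.1.2.le C.s0
  have a6 := mul_le_mul_of_nonneg_left h.2.2.le c0
  refine ⟨⟨?_, ?_⟩, ?_⟩
  · linear_combination hp.1 + a1 + a4 - (p - x) * C.un
  · linear_combination hp.2 + a2 + a3 + (p - x) * C.un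
  · linear_combination hq.2 + a5 + a6 + (q - y) * C.un

theorem kilA_s (C : Cx v x y c s) (h : InB B x y c s t) {k : ℕ} (hc : kilA B k = true) : False := by
  have ce := cen C
  rw [abs_lt] at ce
  obtain ⟨p, q, hp, hq, m⟩ := C.me
  rw [sq_iff] at m
  rw [abs_lt] at hp hq
  have c0 := C.s0.trans C.sc
  have a1 := mul_le_mul_of_nonneg_left hp.1.le c0
  have a2 := mul_le_mul_of_nonneg_left hp.2.le c0
  have a3 := mul_le_mul_of_nonneg_left hq.1.le c0
  have a4 := mul_le_mul_of_nonneg_left hq.2.le c0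
  have a5 := mul_le_mul_of_nonneg_left hp.1.le C.s0
  have a6 := mul_le_mul_of_nonneg_left hp.2.le C.s0
  have a7 := mul_le_mul_of_nonneg_left hq.1.le C.s0
  have a8 := mul_le_mul_of_nonneg_left hq.2.le C.s0
  simp only [kilA, ifb_eq] at hc
  split_ifs at hc
  · exact C.no (ins_s h hc 0 0 (by norm_num) (by norm_num))
  · have := sR_s (K1 := 134217728) (K2 := 0) (px := 10240) (py := 10240) h hc
    push_cast at this
    linarith
  · have := sT_s (K1 := 134217728) (K2 := 0) (px := 6144) (py := 10240) h hc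
    push_cast at this
    linarith
  · have := sL_s (K1 := 134217728) (K2 := 0) (px := 6144) (py := 6144) h hc
    push_cast at this
    linarith
  · have := sB_s (K1 := 134217728) (K2 := 0) (px := 10240) (py := 6144) h hc
    push_cast at this
    linarith
  · have := far_s (d := B.y0 - 8192) h hc
    have k : 0 < B.y0 - 8192 := far_pos hc
    rw [Nat.cast_sub (by omega)] at this
    push_cast at this
    linarith [h.y0]
  · have := far_s (d := B.x0 - 8192) h hc
    have k : 0 < B.x0 - 8192 := far_pos hc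
    rw [Nat.cast_sub (by omega)] at this
    push_cast at this
    linarith [h.x0]
  · have := far_s (d := 8192 - B.x1) h hc
    have k : 0 < 8192 - B.x1 := far_pos hc
    rw [Nat.cast_sub (by omega)] at this
    push_cast at this
    linarith [h.x1]

theorem kilE_s (C : Cx v x y c s) (hv : ¬ v = true) (h : InB B x y c s t) {k : ℕ} (hc : kilE B k = true) :
    False := by
  have e := ev_cl C.un (C.ce hv)
  rw [abs_le, abs_le] at e
  simp only [kilE, ifb_eq] at hc
  split_ifs at hc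
  · have := sL_s (K1 := 134217729) (K2 := 0) (px := 8192) (py := 12288) h hc
    push_cast at this
    linarith
  · have := sR_s (K1 := 134217729) (K2 := 0) (px := 8192) (py := 12288) h hc
    push_cast at this
    linarith
  · have := sB_s (K1 := 134217729) (K2 := 0) (px := 8192) (py := 12288) h hc
    push_cast at this
    linarith
  · have := sT_s (K1 := 134217729) (K2 := 0) (px := 8192) (py := 12288) h hc
    push_cast at this
    linarith

theorem kilV_s (C : Cx v x y c s) (hv : v = true) (h : InB B x y c s t) {k : ℕ} (hc : kilV B k = true) :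
    False := by
  obtain ⟨x0, y0, n1, n2⟩ := C.cv hv
  have c0 := cpos C.un C.s0 C.sc
  have sV : ∀ z : ℝ, 0 < z → z < 4096 → wge B (B.x1 - 8192) = true → ¬ Sq x y c s 0 z := fun z z0 z1 w m => by
    have a := wge_s C h w
    have b := sub_cast B.x1 8192
    have := h.x1
    push_cast at b
    obtain ⟨a, b, p1, p2, p3, p4⟩ := chordV C.un C.s0 c0 (by linarith) (by linarith) m
    exact n1 (strip C.no z0 z1 p1 p2 p3 p4)
  have sH : ∀ z : ℝ, 0 < z → z < 4096 → wge B (B.y1 - 8192) = true → ¬ Sq x y c s z 0 := fun z z0 z1 w m => by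
    have a := wge_s C h w
    have b := sub_cast B.y1 8192
    have := h.y1
    push_cast at b
    obtain ⟨a, b, p1, p2, p3, p4⟩ := chordH C.un C.s0 c0 (by linarith) (by linarith) m
    exact n2 (strip (S := sw (Sq x y c s)) C.no z0 z1 p1 p2 p3 p4)
  simp only [kilV, ifb_eq] at hc
  split_ifs at hc
  · exact n1 (ev_of C.un (ins_s h hc 0 4096 (by norm_num) (by norm_num)))
  · obtain ⟨a, b⟩ := (andb_eq _ _).1 hc
    have a := iR_s h a 4096 0 (by norm_num) (by norm_num)
    have b := iV_s h b 4096 0 (by norm_num) (by norm_num)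
    obtain ⟨p, q, hp, hq, m⟩ := C.me
    rw [sq_iff] at m
    rw [abs_lt] at hp hq
    have a2 := mul_le_mul_of_nonneg_left hp.2.le c0.le
    have a8 := mul_le_mul_of_nonneg_left hq.2.le C.s0
    have := C.sc
    rw [sw_sq] at n2
    refine n2 (ev_of (by linarith [C.un]) ((sq_iff _ _ _ _ _ _).2 ⟨⟨?_, ?_⟩, ?_, ?_⟩)) <;> linarith
  all_goals obtain ⟨a, b⟩ := (andb_eq _ _).1 hc
  · exact sV 1024 (by norm_num) (by norm_num) a (ins_s h b _ _ (by norm_num) (by norm_num))
  · exact sV 3072 (by norm_num) (by norm_num) a (ins_s h b _ _ (by norm_num) (by norm_num))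
  · exact sH 1024 (by norm_num) (by norm_num) a (ins_s h b _ _ (by norm_num) (by norm_num))
  · exact sH 3072 (by norm_num) (by norm_num) a (ins_s h b _ _ (by norm_num) (by norm_num))

theorem kil_s (C : Cx v x y c s) (h : InB B x y c s t) {k : ℕ} (hc : kil v B k = true) : False := by
  simp only [kil, ifb_eq] at hc
  split_ifs at hc with h1 h2
  · exact kilA_s C h hc
  · exact kilV_s C h2 h hc
  · exact kilE_s C h2 h hc

def Tag (g : ℕ) (S : Pl) : Prop :=
  (g = 1 → ¬ EvTop S → S 4096 4096) ∧ (g = 2 → FV S) ∧ (g = 3 → FE S) ∧ g ≤ 3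

theorem tgc_s (C : Cx v x y c s) (h : InB B x y c s t) {g k : ℕ} (hc : tgc B g k = true) :
    Tag g (Sq x y c s) := by
  have c0 := cpos C.un C.s0 C.sc
  simp only [tgc, ifb_eq] at hc
  split_ifs at hc with h1 h2 h3
  · have e : g = 1 := Nat.eq_of_beq_eq_true h1
    refine ⟨fun _ n => ?_, by omega, by omega, by omega⟩
    simp only [tg1, ifb_eq] at hc
    split_ifs at hc
    · exact ins_s h hc _ _ (by norm_num) (by norm_num)
    simp only [andb_eq] at hc
    obtain ⟨⟨a1, a2⟩, a3, a4⟩ := hc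
    refine (sq_iff _ _ _ _ _ _).2 ⟨iH_s h a3 _ _ (by norm_num) (by norm_num),
      iT_s h a4 _ _ (by norm_num) (by norm_num), md c0 C.me (not_lt.1 fun m => n (ev_of C.un ?_))⟩
    exact (sq_iff _ _ _ _ _ _).2 ⟨⟨iR_s h a1 _ _ (by norm_num) (by norm_num), m⟩,
      iV_s h a2 _ _ (by norm_num) (by norm_num)⟩
  · have e : g = 2 := Nat.eq_of_beq_eq_true h2
    refine ⟨by omega, fun _ => ?_, by omega, by omega⟩
    simp only [tg2, andb_eq] at hc
    obtain ⟨a0, ⟨⟨a1, a2⟩, a3, a4⟩, ⟨a5, a6⟩, a7, a8⟩ := hc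
    have b0 : 2 * B.s1 ≤ B.c0 := Nat.le_of_ble_eq_true a0
    have b1 : 2 * (B.s1 : ℝ) ≤ B.c0 := by exact_mod_cast b0
    exact fv_of C.un C.s0 (by linarith [h.s1, h.c0]) C.me (ins_s h a1 _ _ (by norm_num) (by norm_num))
      (ins_s h a2 _ _ (by norm_num) (by norm_num)) (ins_s h a3 _ _ (by norm_num) (by norm_num))
      (ins_s h a4 _ _ (by norm_num) (by norm_num)) (iV_s h a5 _ _ (by norm_num) (by norm_num))
      (iV_s h a6 _ _ (by norm_num) (by norm_num)) (iH_s h a7 _ _ (by norm_num) (by norm_num))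
      (iH_s h a8 _ _ (by norm_num) (by norm_num))
  · have e : g = 3 := Nat.eq_of_beq_eq_true h3
    refine ⟨by omega, by omega, fun _ => ?_, by omega⟩
    simp only [tg3, ifb_eq] at hc
    have := h.y0
    have := h.y1
    split_ifs at hc
    · obtain ⟨a, b⟩ := (andb_eq _ _).1 hc
      have a := wge_s (d := 12288 - B.y0) C h a
      have k := sub_cast 12288 B.y0
      push_cast at k
      refine ⟨2048, Or.inr rfl, chordH C.un C.s0 c0 (by linarith) ?_ (ins_s h b _ _ (by norm_num) (by norm_num))⟩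
      nlinarith [(cen C).2, C.un, sq_nonneg (c - s)]
    · simp only [andb_eq] at hc
      obtain ⟨⟨a, a'⟩, b⟩ := hc
      have a := wge_s (d := 11264 - B.y0) C h a
      have a' := wge_s (d := B.y1 - 11264) C h a'
      have k := sub_cast 11264 B.y0
      have k' := sub_cast B.y1 11264
      push_cast at k k'
      exact ⟨1024, Or.inl rfl, chordH C.un C.s0 c0 (by linarith) (by linarith)
        (ins_s h b _ _ (by norm_num) (by norm_num))⟩

end Pool.Agent.P.MP_53fdf1_co.Q
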