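import Pool.Agent.P.MP_53fdf1_co.QFam

set_option autoImplicit false

namespace Pool.Agent.P.MP_53fdf1_co.Q

def BE (S : Pl) : Prop := Un S ∧ Meets S ∧ ¬ S 0 0 ∧ EvTop S

def BV (S : Pl) : Prop :=
  (∃ x y c s, c ^ 2 + s ^ 2 = 1 ∧ S = Sq x y c s ∧ 0 ≤ x ∧ 0 ≤ y) ∧ Meets S ∧ ¬ S 0 0 ∧ ¬ EvTop S ∧
    ¬ EvTop (sw S)

theorem BV.un {S : Pl} (h : BV S) : Un S := by
  obtain ⟨⟨x, y, c, s, a, b, -⟩, -⟩ := h
  exact ⟨x, y, c, s, a, b⟩

theorem BE.rf {S : Pl} (h : BE S) : BE (rf S) := by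
  obtain ⟨a, ⟨p, q, hp, hq, b⟩, c, d⟩ := h
  exact ⟨a.rf, ⟨-p, q, by rwa [abs_neg], hq, by simpa [Q.rf] using b⟩, by simpa [Q.rf] using c,
    by simpa [Q.rf, EvTop] using d⟩

theorem BV.sw {S : Pl} (h : BV S) : BV (sw S) := by
  obtain ⟨⟨x, y, c, s, a, rfl, x0, y0⟩, ⟨p, q, hp, hq, b⟩, c, d, e⟩ := h
  exact ⟨⟨y, x, _, -s, by linarith, sw_sq _ _ _ _, y0, x0⟩, ⟨q, p, hq, hp, b⟩, c, e, d⟩

theorem norm_sq (x y : ℝ) {c s : ℝ} (un : c ^ 2 + s ^ 2 = 1) :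
    ∃ c' s', c' ^ 2 + s' ^ 2 = 1 ∧ s' ≤ c' ∧ -s' ≤ c' ∧ Sq x y c s = Sq x y c' s' := by
  rcases le_total s c with a | a <;> rcases le_total (-s) c with b | b
  · exact ⟨c, s, un, a, b, rfl⟩
  · exact ⟨-s, c, by linarith, b, by linarith, rot_sq _ _ _ _⟩
  · refine ⟨s, -c, by linarith, by linarith, by linarith, ?_⟩
    rw [rot_sq x y s, neg_neg]
  · exact ⟨-c, -s, by linarith, by linarith, by linarith, by rw [rot_sq, rot_sq]⟩

/-- what the four certificates of an edge lemma give -/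
def CE (P : Pb) : Prop := ∀ x y c s, Cx false x y c s → ((5120 : ℕ) : ℝ) ≤ x + 8192 → x + 8192 ≤ (11264 : ℕ) →
  ((9216 : ℕ) : ℝ) ≤ y + 8192 → y + 8192 ≤ (15360 : ℕ) → Goal P (Sq x y c s)

def CV (P : Pb) : Prop := ∀ x y c s, Cx true x y c s → ((8192 : ℕ) : ℝ) ≤ x + 8192 → x + 8192 ≤ (13312 : ℕ) →
  ((8192 : ℕ) : ℝ) ≤ y + 8192 → y + 8192 ≤ (13312 : ℕ) → Goal P (Sq x y c s)

theorem goalE {P : Pb} (h : CE P) {S : Pl} (hS : BE S) : Goal P S ∨ Goal P (rf S) := by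
  have k : ∀ x y c s, c ^ 2 + s ^ 2 = 1 → 0 ≤ s → s ≤ c → BE (Sq x y c s) → Goal P (Sq x y c s) := by
    intro x y c s un s0 sc b
    have e := ev_cl un b.2.2.2
    rw [abs_le, abs_le] at e
    have c0 := s0.trans sc
    have u : c + s ≤ 3 / 2 := by nlinarith [sq_nonneg (c - s)]
    have a1 := mul_le_mul_of_nonneg_left e.1.1 c0
    have a2 := mul_le_mul_of_nonneg_left e.1.2 c0
    have a3 := mul_le_mul_of_nonneg_left e.2.1 c0
    have a4 := mul_le_mul_of_nonneg_left e.2.2 c0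
    have a5 := mul_le_mul_of_nonneg_left e.1.1 s0
    have a6 := mul_le_mul_of_nonneg_left e.1.2 s0
    have a7 := mul_le_mul_of_nonneg_left e.2.1 s0
    have a8 := mul_le_mul_of_nonneg_left e.2.2 s0
    refine h x y c s ⟨un, s0, sc, b.2.1, b.2.2.1, fun n => absurd n (by simp), fun _ => b.2.2.2⟩ ?_ ?_ ?_ ?_ <;>
      push_cast
    · linear_combination a2 + a7 + 2048 * u + x * un
    · linear_combination a1 + a8 + 2048 * u - x * un
    · linear_combination a4 + a6 + 2048 * u - (4096 - y) * un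
    · linear_combination a3 + a5 + 2048 * u + (4096 - y) * un
  obtain ⟨x, y, c, s, un, rfl⟩ := hS.1
  obtain ⟨c', s', un', a, b, e⟩ := norm_sq x y un
  rw [e] at hS ⊢
  rcases le_total 0 s' with s0 | s0
  · exact Or.inl (k _ _ _ _ un' s0 a hS)
  · have := hS.rf
    rw [rf_sq] at this ⊢
    exact Or.inr (k _ _ _ _ (by linarith) (by linarith) b this)

theorem goalV {P : Pb} (h : CV P) {S : Pl} (hS : BV S) : Goal P S ∨ Goal P (sw S) := by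
  have k : ∀ x y c s, c ^ 2 + s ^ 2 = 1 → 0 ≤ s → s ≤ c → 0 ≤ x → 0 ≤ y → BV (Sq x y c s) →
      Goal P (Sq x y c s) := by
    intro x y c s un s0 sc x0 y0 b
    have C : Cx true x y c s :=
      ⟨un, s0, sc, b.2.1, b.2.2.1, fun _ => ⟨x0, y0, b.2.2.2⟩, fun n => absurd rfl n⟩
    have e := cen C
    rw [abs_lt] at e
    have u : c + s ≤ 3 / 2 := by nlinarith [sq_nonneg (c - s)]
    refine h x y c s C ?_ ?_ ?_ ?_ <;> push_cast <;> linarith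
  obtain ⟨x, y, c, s, un, rfl, x0, y0⟩ := hS.1
  obtain ⟨c', s', un', a, b, e⟩ := norm_sq x y un
  rw [e] at hS ⊢
  rcases le_total 0 s' with s0 | s0
  · exact Or.inl (k _ _ _ _ un' s0 a x0 y0 hS)
  · have := hS.sw
    rw [sw_sq] at this ⊢
    exact Or.inr (k _ _ _ _ (by linarith) (by linarith) b y0 x0 this)

theorem FE.rf {S : Pl} (h : FE S) : FE (rf S) := by
  obtain ⟨h, k, a, b, h1, h2, h3, h4⟩ := h
  exact ⟨h, k, -b, -a, by linarith, by linarith, by linarith, fun u u1 u2 => h4 _ (by linarith) (by linarith)⟩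

theorem FV.sw {S : Pl} (h : FV S) : FV (sw S) := by
  refine ⟨h.1, fun h1 h2 k1 k2 => ?_⟩
  obtain ⟨a, b, p1, p2, p3, p4, p5⟩ := h.2 h2 h1 k2 k1
  exact ⟨b, a, p2, p1, p4, p3, by linarith⟩

def PE (g : ℕ) (O : List Bin) (S : Pl) : Prop := (g = 3 → FE S) ∧ Has O S ∧ Has O (rf S)

def PV (g : ℕ) (O : List Bin) (S : Pl) : Prop := (g = 2 → FV S) ∧ Has O S ∧ Has O (sw S)

theorem PE.rf {g : ℕ} {O : List Bin} {S : Pl} (h : PE g O S) : PE g O (rf S) :=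
  ⟨fun k => (h.1 k).rf, h.2.2, (rf_rf S).symm ▸ h.2.1⟩

theorem PV.sw {g : ℕ} {O : List Bin} {S : Pl} (h : PV g O S) : PV g O (sw S) :=
  ⟨fun k => (h.1 k).sw, h.2.2, h.2.1⟩

/-- the three tables of a lemma, decoded -/
def Tab (P : Pb) (f : Bin → Bin) (K O : List Bin) (n m : ℕ) : Prop :=
  (P.N0 = 2 ^ n - 1 ∧ decF P.T0 n = K) ∧ (P.N1 = 2 ^ n - 1 ∧ decF P.T1 n = K.map f) ∧
    P.N2 = 2 ^ m - 1 ∧ decF P.T2 m = O ++ O.map f

theorem lemE {P : Pb} (h : CE P) {K O : List Bin} {n m : ℕ} (hT : Tab P rfB K O n m) {S : Pl} (hS : BE S)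
    (n1 : ¬ Has K S) (n2 : ¬ Has K (rf S)) : PE P.g2 O S := by
  have k : ∀ S, Goal P S → ¬ Has K S → ¬ Has K (rf S) → PE P.g2 O S := by
    rintro S (a | a | a) n1 n2
    · exact absurd (has_dec a.2 hT.1.1 hT.1.2) n1
    · exact absurd (has_rf (has_dec a.2 hT.2.1.1 hT.2.1.2)) n2
    · have := has_app (has_dec a.2 hT.2.2.1 hT.2.2.2)
      exact ⟨a.1.2.2.1, this.1, has_rf this.2⟩
  rcases goalE h hS with a | a
  · exact k _ a n1 n2
  · exact rf_rf S ▸ (k _ a n2 ((rf_rf S).symm ▸ n1)).rf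

theorem lemV {P : Pb} (h : CV P) {K O : List Bin} {n m : ℕ} (hT : Tab P swB K O n m) {S : Pl} (hS : BV S)
    (n1 : ¬ Has K S) (n2 : ¬ Has K (sw S)) : PV P.g2 O S := by
  have k : ∀ S, Goal P S → ¬ Has K S → ¬ Has K (sw S) → PV P.g2 O S := by
    rintro S (a | a | a) n1 n2
    · exact absurd (has_dec a.2 hT.1.1 hT.1.2) n1
    · exact absurd (has_sw (has_dec a.2 hT.2.1.1 hT.2.1.2)) n2
    · have := has_app (has_dec a.2 hT.2.2.1 hT.2.2.2)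
      exact ⟨a.1.2.1, this.1, has_sw this.2⟩
  rcases goalV h hS with a | a
  · exact k _ a n1 n2
  · exact (k _ a n2 n1).sw

abbrev Sp : Type := ℝ → ℝ → ℝ → Prop

def On (S : Pl) (C : Sp) : Prop := ∀ u v w, S u v → II w → C u v w

def Dis (A B : Sp) : Prop := ∀ u v w, A u v w → B u v w → False

def EC (P : Pl → Prop) (C : Sp) : Prop := ∃ S, BE S ∧ P S ∧ (On S C ∨ On S fun u v w => C u w v)

def VC (P : Pl → Prop) (C : Sp) : Prop :=
  ∃ S, BV S ∧ P S ∧ (On S C ∨ (On S fun u v w => C w u v) ∨ On S fun u v w => C v w u)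

theorem i4 : II 4096 := ⟨by norm_num, by norm_num⟩

theorem EC.tr {P : Pl → Prop} {C : Sp} (h : EC P C) : EC P fun u v w => C u w v := by
  obtain ⟨S, a, b, c⟩ := h
  exact ⟨S, a, b, c.symm⟩

theorem EC.mir {g : ℕ} {O : List Bin} {C : Sp} (h : EC (PE g O) C) : EC (PE g O) fun u v w => C (-u) v w := by
  obtain ⟨S, a, b, c⟩ := h
  exact ⟨rf S, a.rf, b.rf, c.imp (fun k u v w => k _ _ _) fun k u v w => k _ _ _⟩

theorem VC.cyc {P : Pl → Prop} {C : Sp} (h : VC P C) : VC P fun u v w => C v w u := by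
  obtain ⟨S, a, b, c | c | c⟩ := h
  exacts [⟨S, a, b, Or.inr (Or.inl c)⟩, ⟨S, a, b, Or.inr (Or.inr c)⟩, ⟨S, a, b, Or.inl c⟩]

theorem VC.tr {g : ℕ} {O : List Bin} {C : Sp} (h : VC (PV g O) C) : VC (PV g O) fun u v w => C v u w := by
  obtain ⟨S, a, b, c | c | c⟩ := h
  · exact ⟨sw S, a.sw, b.sw, Or.inl fun u v w => c v u w⟩
  · exact ⟨sw S, a.sw, b.sw, Or.inr (Or.inr fun u v w => c v u w)⟩
  · exact ⟨sw S, a.sw, b.sw, Or.inr (Or.inl fun u v w => c v u w)⟩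

theorem killE {F : Fm} (hF : F.good = true) {g : ℕ} {S : Pl} {E V : Sp} (hS : Un S)
    (hE : On S E ∨ On S fun u v w => E u w v) (hV : VC (PV g (out F)) V) (d : Dis E V) : ¬ Has (kE F) S := by
  intro h
  obtain ⟨h1, h3⟩ := has_app h
  obtain ⟨h1, h2⟩ := has_app h1
  obtain ⟨T, hT, ⟨-, o1, o2⟩, c⟩ := hV
  obtain ⟨a1, a2, a3, a4⟩ := sep hF hS hT.un h3 (has_app o1).1
  obtain ⟨b1, b2, b3, b4⟩ := sep hF hS hT.un.sw h3 (has_app o2).1
  obtain ⟨c1, c2, c3, c4, c5, c6, c7⟩ := shad3 hS hT.un h1 o1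
  obtain ⟨d1, d2, d3, d4, d5, d6, d7⟩ := shad3 hS hT.un.sw h1 o2
  obtain ⟨e1, e2, e3, e4, e5, e6, e7⟩ := shad3 hS.sw hT.un (has_sw h2) o1
  obtain ⟨f1, f2, f3, f4, f5, f6, f7⟩ := shad3 hS.sw hT.un.sw (has_sw h2) o2
  rcases hE with e | e <;> rcases c with c | c | c
  · exact d _ _ _ (e _ _ _ a3 i4) (c _ _ _ a4 i4)
  · exact d _ _ _ (e _ _ _ e6 e5) (c _ _ _ e7 e4)
  · exact d _ _ _ (e _ _ _ d6 d5) (c _ _ _ d7 d4)
  · exact d _ _ _ (e _ _ _ c6 c5) (c _ _ _ c7 c4)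
  · exact d _ _ _ (e _ _ _ f6 f5) (c _ _ _ f7 f4)
  · exact d _ _ _ (e _ _ _ b3 i4) (c _ _ _ b4 i4)

theorem killV {F : Fm} (hF : F.good = true) {g : ℕ} {S : Pl} {E V : Sp} (hS : Un S)
    (hV : On S V) (hE : EC (PE g (out F)) E) (d : Dis E V) : ¬ Has (kV F) S := by
  intro h
  obtain ⟨h1, h3⟩ := has_app h
  obtain ⟨T, hT, ⟨-, o1, -⟩, c⟩ := hE
  obtain ⟨a1, a2, a3, a4⟩ := sep hF hS hT.1 h3 (has_app o1).1
  obtain ⟨c1, c2, c3, c4, c5, c6, c7⟩ := shad3 hS hT.1 h1 o1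
  rcases c with c | c
  · exact d _ _ _ (c _ _ _ a4 i4) (hV _ _ _ a3 i4)
  · exact d _ _ _ (c _ _ _ c7 c4) (hV _ _ _ c6 c5)

theorem stepE {F : Fm} (hF : F.good = true) {P : Pb} (h : CE P) {O : List Bin} {n m : ℕ}
    (hT : Tab P rfB (kE F) O n m) {g : ℕ} {R : Pl → Prop} {E V V' : Sp} (hE : EC R E)
    (hV : VC (PV g (out F)) V) (hV' : VC (PV g (out F)) V') (d : Dis E V)
    (d' : Dis (fun u v w => E (-u) v w) V') : EC (PE P.g2 O) E := by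
  obtain ⟨S, a, -, c⟩ := hE
  exact ⟨S, a, lemE h hT a (killE hF a.1 c hV d) (killE hF a.1.rf
    (c.imp (fun k u v w => k _ _ _) fun k u v w => k _ _ _) hV' d'), c⟩

theorem stepV {F : Fm} (hF : F.good = true) {P : Pb} (h : CV P) {O : List Bin} {n m : ℕ}
    (hT : Tab P swB (kV F) O n m) {g : ℕ} {R : Pl → Prop} {V E0 E1 E2 : Sp} (hV : VC R V)
    (h0 : EC (PE g (out F)) E0) (h1 : EC (PE g (out F)) E1) (h2 : EC (PE g (out F)) E2) (d0 : Dis E0 V)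
    (d1 : Dis E1 fun u v w => V v u w) (d2 : Dis E2 fun u v w => V v w u) : VC (PV P.g2 O) V := by
  obtain ⟨S, a, -, c⟩ := hV
  refine ⟨S, a, ?_, c⟩
  rcases c with c | c | c
  · exact lemV h hT a (killV hF a.un c h0 d0) (killV hF a.un.sw (fun u v w => c v u w) h1 d1)
  · exact lemV h hT a (killV hF a.un c h1.tr fun u v w => d1 u w v)
      (killV hF a.un.sw (fun u v w => c v u w) h2.tr fun u v w => d2 u w v)
  · exact lemV h hT a (killV hF a.un c h2 d2)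
      (killV hF a.un.sw (fun u v w => c v u w) h0.tr fun u v w => d0 u w v)

end Pool.Agent.P.MP_53fdf1_co.Q
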