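import Pool.Agent.P.MP_53fdf1_co.RIn

set_option autoImplicit false

namespace Pool.Agent.P.MP_53fdf1_co.R

open Po

noncomputable section

/-- the axis permutation of the symmetry `g` -/
def gp (g j : ℕ) : ℕ := Nat.mod (Nat.add g (Nat.mul j (Nat.add 1 (Nat.mod (Nat.div g 3) 2)))) 3

def vbit (g φ j : ℕ) : ℕ := Nat.shiftLeft (bn (xr (vB φ j) (vB g j))) (gp g j)

def actF (g φ : ℕ) : ℕ :=
  Nat.add (Nat.add (gp g (aN φ)) (iff (Nat.beq (gp g (bN φ)) (Nat.mod (Nat.add (gp g (aN φ)) 1) 3)) 0 3))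
    (Nat.mul 6 (Nat.add (vbit g φ 0) (Nat.add (vbit g φ 1) (vbit g φ 2))))

def inv (g : ℕ) : ℕ :=
  Nat.mod (Nat.shiftRight 370893591320481146055938390635447417710102338712275748261901299114126137762986920251520
    (Nat.mul 6 g)) 64

def rep (i : ℕ) : ℕ := Nat.mod (Nat.shiftRight 60757815610884231056951760452744568157985084621 (Nat.mul 6 i)) 64

def actP (g i : ℕ) : ℕ := frc (actF g (rep i)) fun φ => iff (lt i 6) (labC φ) (iff (lt i 18) (labE φ) (labV φ))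

def om (φ : ℕ) : Bool := xr (xr (vA φ) (vO φ)) (nt (bit (Nat.div φ 3)))

/-- the base flag of the same face and orientation -/
def nf (φ : ℕ) : ℕ :=
  frc (Nat.mod (Nat.add (Nat.add (fN φ) 1) (bn (om φ))) 3) fun a =>
    Nat.add (Nat.add a (Nat.mul 3 (bn (om φ))))
      (Nat.mul 6 (Nat.add (Nat.shiftLeft 1 a) (Nat.shiftLeft (bn (vF φ)) (fN φ))))

def acF (g i φ : ℕ) : ℕ := iff (lt φ 48) (frc (actF g φ) fun ψ => iff (lt i 6) (nf ψ) ψ) 48

def sJ (f s : ℕ) : ℕ := Nat.mod (Nat.add (Nat.add f 1) (Nat.div s 2)) 3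

def sJ' (f s : ℕ) : ℕ := Nat.mod (Nat.add (Nat.add f 2) (Nat.mul 2 (Nat.div s 2))) 3

def actS (g i s : ℕ) : ℕ :=
  iff (lt i 6) (frc (sJ (Nat.div i 2) s) fun j =>
    Nat.add (iff (Nat.beq (gp g j) (Nat.mod (Nat.add (gp g (Nat.div i 2)) 1) 3)) 0 2) (bn (xr (bit s) (vB g j)))) s

def actX (g t : ℕ) : ℕ := Nat.add (Nat.mul 2 (gp g (Nat.div t 2))) (bn (xr (bit t) (vB g (Nat.div t 2))))

def actK (g i k : ℕ) : ℕ :=
  iff (lt i 6) (iff (lt k 3) k (iff (lt k 9) (Nat.add 3 (actX g (Nat.sub k 3))) (Nat.add 9 (actX g (Nat.sub k 9))))) k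

def fk (i r : ℕ) : ℕ := if r = 0 then 0 else if r = 1 then 2 else if i < 6 then 2 * r - 1 else r + 1

def ixp (p : ℕ) : ℕ := Function.invFunOn (pr 0) (Set.Iio 130) p

/-- the configuration seen through the symmetry `g` -/
def pull (g : ℕ) (K : Cfg) : Cfg :=
  ⟨fun i => acF (inv g) i (K.fl (actP g i)),
    hv fun p => K.sy (actP g (ixp p / 5)) (actK g (ixp p / 5) (fk (ixp p / 5) (ixp p % 5)))⟩

def Tg (g : ℕ) (P : P3) : P3 := fun j => hx (vB g (gp (inv g) j)) 1 (P (ax (gp (inv g) j)))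

theorem pr_prime : ∀ n < 130, (pr 0 n).Prime := by
  simp only [Nat.prime_def_lt']
  have : ∀ n < 130, 2 ≤ pr 0 n ∧ ∀ m < pr 0 n, 2 ≤ m → pr 0 n % m ≠ 0 := by decide +kernel
  exact fun n h => ⟨(this n h).1, fun m a b c => (this n h).2 m b a (Nat.mod_eq_zero_of_dvd c)⟩

theorem pr_inj : Set.InjOn (pr 0) (Set.Iio 130) := by
  have : ∀ n < 130, ∀ m < 130, pr 0 n = pr 0 m → n = m := by decide +kernel
  exact fun n a m b => this n a m b

theorem hv_pr (val : ℕ → ℕ → ℝ) {i r : ℕ} (hi : i < 26) (hr : r < 5) :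
    hv (fun p => val (ixp p / 5) (ixp p % 5)) (pr i r) = val i r := by
  have e : pr i r = pr 0 (5 * i + r) := by simp [pr]
  have l : 5 * i + r < 130 := by omega
  rw [e, hv_prime _ (pr_prime _ l), ixp, pr_inj.leftInvOn_invFunOn l, show (5 * i + r) / 5 = i by omega,
    show (5 * i + r) % 5 = r by omega]

theorem gp_lt (g j : ℕ) : gp g j < 3 := Nat.mod_lt _ (by decide)

theorem gp_inv : ∀ g < 48, ∀ j < 3, gp (inv g) (gp g j) = j ∧ gp g (gp (inv g) j) = j := by decide +kernel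

theorem actP_s : ∀ g < 48, ∀ i < 26, actP g i < 26 ∧ lt (actP g i) 6 = lt i 6 ∧ lt (actP g i) 18 = lt i 18 ∧
    actP (inv g) (actP g i) = i := by decide +kernel

theorem actF_s : ∀ g < 48, ∀ φ < 48, actF g φ < 48 ∧ aN (actF g φ) = gp g (aN φ) ∧ bN (actF g φ) = gp g (bN φ) ∧
    fN (actF g φ) = gp g (fN φ) ∧ vA (actF g φ) = xr (vA φ) (vB g (aN φ)) ∧
    vO (actF g φ) = xr (vO φ) (vB g (bN φ)) ∧ vF (actF g φ) = xr (vF φ) (vB g (fN φ)) := by decide +kernel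

theorem acF_s : ∀ g < 48, ∀ i < 26, ∀ φ < 49, okF (actP g i) φ = true →
    okF i (acF (inv g) i φ) = true ∧ acF g i (acF (inv g) i φ) = φ ∧ lt (acF (inv g) i φ) 48 = lt φ 48 := by
  decide +kernel

theorem actS_s : ∀ g < 48, ∀ i < 26, (∀ s < 4, actS g i s < 4) ∧ ∀ s < 4, ∃ t < 4, actS g i t = s := by
  decide +kernel

theorem actS_C : ∀ g < 48, ∀ φ < 48, ∀ s < 4, sK 0 (actF g φ) (actS g (labC φ) s) = sK 0 φ s ∧
    sE 0 (actF g φ) (actS g (labC φ) s) = sE 0 φ s := by decide +kernel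

theorem nf_s : ∀ φ < 48, nf φ < 48 ∧ fN (nf φ) = fN φ ∧ vF (nf φ) = vF φ ∧ om (nf φ) = om φ := by decide +kernel

theorem side_C : ∀ φ < 48, ∀ s < 4,
    (sK 0 φ s = true ∧ sJ (fN φ) s = bN φ ∧ sJ' (fN φ) s = aN φ ∧ xr (bit (Nat.div s 2)) (om φ) = xr (vA φ) (vO φ)) ∨
    (sK 0 φ s = false ∧ sJ (fN φ) s = aN φ ∧ sJ' (fN φ) s = bN φ ∧
      xr (bit (Nat.div s 2)) (om φ) = nt (xr (vA φ) (vO φ))) := by decide +kernel

theorem actX_s : ∀ g < 48, ∀ t < 6, actX g t < 6 ∧ Nat.div (actX g t) 2 = gp g (Nat.div t 2) ∧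
    bit (actX g t) = xr (bit t) (vB g (Nat.div t 2)) := by decide +kernel

theorem T_ax {g j : ℕ} (hg : g < 48) (hj : j < 3) (P : P3) : Tg g P (ax (gp g j)) = hx (vB g j) 1 (P (ax j)) := by
  have : (ax (gp g j) : ℕ) = gp g j := Nat.mod_eq_of_lt (gp_lt g j)
  rw [Tg, this, (gp_inv g hg j hj).1]

theorem hx_hx (v e : Bool) (x : ℝ) : hx (xr v e) 1 (hx e 1 x) = hx v 1 x := by
  cases v <;> cases e <;> simp [hx, xr]

theorem hy_hx (v e : Bool) (x : ℝ) : hy (xr v e) 1 (hx e 1 x) = hy v 1 x := by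
  cases v <;> cases e <;> simp [hx, hy, xr]

theorem T_surj {g : ℕ} (hg : g < 48) (Q : P3) : ∃ P, Tg g P = Q := by
  refine ⟨fun j => hx (vB g j) 1 (Q (ax (gp g j))), funext fun j => ?_⟩
  have : (ax (gp (inv g) j) : ℕ) = gp (inv g) j := Nat.mod_eq_of_lt (gp_lt _ _)
  have e : ax j = j := Fin.ext (Nat.mod_eq_of_lt j.2)
  simp only [Tg, this, (gp_inv g hg j j.2).2, e]
  cases vB g (gp (inv g) j) <;> simp [hx]

variable {K : Cfg} {g : ℕ}

theorem lt_f {a b : ℕ} (h : b ≤ a) : lt a b = false := by rw [← Bool.not_eq_true, lt_eq]; omega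

theorem sy_X {i t : ℕ} (hi : i < 6) (ht : t < 6) : K.sy i (3 + t) = ev K.v (xP i (Nat.div t 2) (bit t)) := by
  have e : ∀ n < 3, Nat.beq (3 + t) n = false := fun n h => by rw [← Bool.not_eq_true, Nat.beq_eq]; omega
  simp only [Cfg.sy, symP, e 0 (by decide), e 1 (by decide), e 2 (by decide), iff_f, iff_t, (lt_eq _ _).2 hi,
    (lt_eq (3 + t) 9).2 (by omega), Nat.sub_eq, Nat.add_sub_cancel_left]

theorem sy_W (H : Hom K.v) {i t : ℕ} (hi : i < 6) :
    K.sy i (9 + t) = K.sy i 2 * K.sy i 1 - ev K.v (xP i (Nat.div t 2) (bit t)) * K.sy i 0 := by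
  have e : ∀ n < 3, Nat.beq (9 + t) n = false := fun n h => by rw [← Bool.not_eq_true, Nat.beq_eq]; omega
  rw [sy0, sy1, sy2]
  simp only [Cfg.sy, symP, e 0 (by decide), e 1 (by decide), e 2 (by decide), iff_f, iff_t, (lt_eq _ _).2 hi,
    lt_f (show 9 ≤ 9 + t by omega), Nat.sub_eq, Nat.add_sub_cancel_left, ev_sub, ev_mul H]

theorem pull_hom : Hom (pull g K).v := hv_hom _

theorem pull_v {i r : ℕ} (hi : i < 26) (hr : r < 5) :
    (pull g K).v (pr i r) = K.sy (actP g i) (actK g i (fk i r)) :=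
  hv_pr (fun i r => K.sy (actP g i) (actK g i (fk i r))) hi hr

theorem actK_lt (i : ℕ) {k : ℕ} (h : k < 3) : actK g i k = k := by
  rw [actK, (lt_eq _ _).2 h]; cases lt i 6 <;> rfl

theorem pull_s {i : ℕ} (hi : i < 26) : (pull g K).sy i 0 = K.sy (actP g i) 0 := by
  rw [sy0, sP, ev_var, pull_v hi (by decide), fk, if_pos rfl, actK_lt _ (by decide)]

theorem pull_w {i : ℕ} (hi : i < 26) : (pull g K).sy i 2 = K.sy (actP g i) 2 := by
  rw [sy2, wP, ev_var, pull_v hi (by decide), fk, if_neg (by decide), if_pos rfl, actK_lt _ (by decide)]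

theorem pull_c (H : Hom K.v) {i : ℕ} (hi : i < 26) : (pull g K).sy i 1 = K.sy (actP g i) 1 := by
  have a := ev_cP (pull_hom (g := g) (K := K)) i
  have b := ev_cP H (actP g i)
  rw [pull_w hi] at a
  linarith

theorem actP_lt6 (hg : g < 48) {i : ℕ} (hi : i < 6) : actP g i < 6 := by
  rw [← lt_eq, (actP_s g hg i (by omega)).2.1, lt_eq]; exact hi

theorem pull_x (hg : g < 48) {i j : ℕ} (hi : i < 6) (hj : j < 3) (b : Bool) :
    ev (pull g K).v (xP i j b) = ev K.v (xP (actP g i) (gp g j) (xr b (vB g j))) := by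
  have z : ev (pull g K).v (xP i j false) = ev K.v (xP (actP g i) (gp g j) (vB g j)) := by
    obtain ⟨a, b, c⟩ := actX_s g hg (2 * j) (by omega)
    have d : Nat.div (2 * j) 2 = j := Nat.mul_div_cancel_left j (by decide)
    have e : bit (2 * j) = false := by rw [← Bool.not_eq_true, bit_eq]; omega
    rw [xP, iff_f, ev_var, Nat.add_eq, pull_v (by omega) (by omega), fk, if_neg (by omega), if_neg (by omega),
      if_pos hi, actK, (lt_eq _ _).2 hi, iff_t, lt_f (by omega), iff_f, (lt_eq _ _).2 (by omega), iff_t, Nat.sub_eq,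
      show 2 * (2 + j) - 1 - 3 = 2 * j by omega, Nat.add_eq, sy_X (actP_lt6 hg hi) a, b, c, d, e]
    rfl
  cases b
  · exact z
  · have := ev_xP (K := pull g K) i j false
    rw [Bool.not_false, pull_s (by omega), pull_w (by omega), z, ← ev_xP, ← nt_eq] at this
    exact this

theorem pull_sy (H : Hom K.v) (hg : g < 48) {i k : ℕ} (hi : i < 26) (hk : k < if i < 6 then 15 else if i < 18 then 7 else 5) :
    (pull g K).sy i k = K.sy (actP g i) (actK g i k) := by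
  rcases Nat.lt_or_ge k 3 with k3 | k3
  · rw [actK_lt _ k3]
    interval_cases k
    exacts [pull_s hi, pull_c H hi, pull_w hi]
  by_cases i6 : i < 6
  · rw [if_pos i6] at hk
    rw [actK, (lt_eq _ _).2 i6, iff_t, lt_f k3, iff_f]
    rcases Nat.lt_or_ge k 9 with k9 | k9
    · obtain ⟨t, rfl⟩ := Nat.exists_eq_add_of_le k3
      obtain ⟨a, b, c⟩ := actX_s g hg t (by omega)
      rw [(lt_eq _ _).2 k9, iff_t, Nat.sub_eq, Nat.add_sub_cancel_left, Nat.add_eq, sy_X i6 (by omega),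
        sy_X (actP_lt6 hg i6) a, b, c, pull_x hg i6 (by change t / 2 < 3; omega)]
    · obtain ⟨t, rfl⟩ := Nat.exists_eq_add_of_le k9
      obtain ⟨a, b, c⟩ := actX_s g hg t (by omega)
      rw [lt_f k9, iff_f, Nat.sub_eq, Nat.add_sub_cancel_left, Nat.add_eq, sy_W pull_hom i6,
        sy_W H (actP_lt6 hg i6), b, c, pull_x hg i6 (by change t / 2 < 3; omega), pull_s hi, pull_c H hi, pull_w hi]
  · have a : ∀ k, actK g i k = k := fun k => by rw [actK, lt_f (by omega), iff_f]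
    have b : ∀ t < 2, (pull g K).sy i (t + 3) = K.sy (actP g i) (t + 3) := fun t ht => by
      rw [sy_var (by omega) t ht, ev_var, pull_v hi (by omega), fk, if_neg (by omega), if_neg (by omega), if_neg i6, a]
    have c : 6 ≤ actP g i := by rw [← Nat.not_lt, ← lt_eq, (actP_s g hg i hi).2.1, lt_eq]; exact i6
    have d : k < 7 := by rw [if_neg i6] at hk; split_ifs at hk <;> omega
    rw [a]
    interval_cases k
    exacts [b 0 (by decide), b 1 (by decide),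
      by rw [(sy_56 (by omega)).1, (sy_56 c).1, pull_c H hi, b 0 (by decide)],
      by rw [(sy_56 (by omega)).2, (sy_56 c).2, pull_s hi, b 1 (by decide)]]

theorem pull_nm (H : Hom K.v) (hg : g < 48) {i : ℕ} (hi : i < 26) (φ ψ : ℕ) :
    ((pull g K).bx i φ).n = (K.bx (actP g i) ψ).n ∧ ((pull g K).bx i φ).m = (K.bx (actP g i) ψ).m := by
  have s := pull_s (g := g) (K := K) hi
  have c := pull_c (g := g) H hi
  simp only [sy0, sy1] at s c
  constructor <;> funext k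
  · simp only [Cfg.bx, nP, (actP_s g hg i hi).2.2.1]
    cases lt i 18 <;> cases k <;> simp only [iff_t, iff_f, ev_neg, s, c]
  · cases k
    exacts [s, c]

theorem pull_p (H : Hom K.v) (hg : g < 48) {i φ : ℕ} (hi : i < 26) (hφ : φ < 48) :
    ((pull g K).bx i φ).p = (K.bx (actP g i) (actF g φ)).p := by
  obtain ⟨a, b, c, -⟩ := actP_s g hg i hi
  obtain ⟨-, f1, f2, -, f3, f4, -⟩ := actF_s g hg φ hφ
  funext k
  rcases Nat.lt_or_ge i 6 with i6 | i6
  · obtain ⟨p0, p1⟩ := p_C (pull_hom (g := g) (K := K)) i6 φ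
    obtain ⟨q0, q1⟩ := p_C H (actP_lt6 hg i6) (actF g φ)
    cases k
    · rw [p0, q0, pull_x hg i6 (aN_lt φ), pull_w hi, f1, f3]
      cases vA φ <;> cases vB g (aN φ) <;> rfl
    · rw [p1, q1, pull_x hg i6 (bN_lt φ), f2, f4]
  have b6 : 6 ≤ actP g i := by rw [← Nat.not_lt, ← lt_eq, b, lt_eq]; omega
  have e : ∀ k < 5, (pull g K).sy i k = K.sy (actP g i) k := fun k h => by
    rw [pull_sy H hg hi (by split_ifs <;> omega), actK, lt_f i6, iff_f]
  rcases Nat.lt_or_ge i 18 with i18 | i18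
  · obtain ⟨p0, p1⟩ := p_E (K := pull g K) i6 i18 φ
    obtain ⟨q0, q1⟩ := p_E (K := K) b6 (by rw [← lt_eq, c, lt_eq]; exact i18) (actF g φ)
    cases k
    · rw [p0, q0, e 3 (by decide)]
    · rw [p1, q1, e 4 (by decide)]
  · obtain ⟨p0, p1⟩ := p_V (K := pull g K) i18 φ
    obtain ⟨q0, q1⟩ := p_V (K := K) (i := actP g i) (by rw [← Nat.not_lt, ← lt_eq, c, lt_eq]; omega) (actF g φ)
    cases k
    · rw [p0, q0, e 3 (by decide)]
    · rw [p1, q1, e 4 (by decide)]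

theorem pull_bx (H : Hom K.v) (hg : g < 48) {i φ : ℕ} (hi : i < 26) (hφ : φ < 48) (P : P3) :
    ((pull g K).bx i φ).z P = (K.bx (actP g i) (actF g φ)).z (Tg g P) ∧
      ∀ k e, ((pull g K).bx i φ).sd k e P = (K.bx (actP g i) (actF g φ)).sd k e (Tg g P) := by
  obtain ⟨-, f1, f2, f0, f3, f4, f5⟩ := actF_s g hg φ hφ
  obtain ⟨n, m⟩ := pull_nm H hg hi φ (actF g φ)
  have x : ((pull g K).bx i φ).x P = (K.bx (actP g i) (actF g φ)).x (Tg g P) := by
    simp only [Bx.x, Cfg.bx, f1, f3, T_ax hg (aN_lt φ), hx_hx]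
  have y : ((pull g K).bx i φ).y P = (K.bx (actP g i) (actF g φ)).y (Tg g P) := by
    simp only [Bx.y, Cfg.bx, f2, f4, T_ax hg (bN_lt φ), hy_hx]
  refine ⟨?_, fun k e => ?_⟩
  · simp only [Bx.z, Cfg.bx, f0, f5, T_ax hg (fN_lt φ), hy_hx]
  · simp only [Bx.sd, Bx.u, x, y, n, m, pull_p H hg hi hφ]

theorem sK_C {i : ℕ} (h : i < 6) (φ s : ℕ) : sK i φ s = sK 0 φ s ∧ sE i φ s = sE 0 φ s := by
  simp only [sE, sK, (lt_eq _ _).2 h, (lt_eq 0 6).2 (by decide), and_self]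

theorem sd_C (H : Hom K.v) {i φ s : ℕ} (hi : i < 6) (hφ : φ < 48) (hs : s < 4) (P : P3) :
    K.sd i φ s P = -K.sy i 0 * hx (xr (bit s) (xr (bit (Nat.div s 2)) (om φ))) 1 (P (ax (sJ' (fN φ) s))) +
      K.sy i 1 * hy (bit s) 1 (P (ax (sJ (fN φ) s))) + ev K.v (xP i (sJ (fN φ) s) (bit s)) := by
  obtain ⟨n0, n1⟩ := nm_lt (K := K) (show i < 18 by omega) φ
  obtain ⟨m0, m1⟩ := nm_m (K := K) i φ
  obtain ⟨p0, p1⟩ := p_C H hi φ
  have w := ev_cP H i
  have xa := ev_xP (K := K) i (aN φ) false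
  have xb := ev_xP (K := K) i (bN φ) false
  have ex : (K.bx i φ).x P = hx (vA φ) 1 (P (ax (aN φ))) := rfl
  have ey : (K.bx i φ).y P = hy (vO φ) 1 (P (ax (bN φ))) := rfl
  rw [Cfg.sd, (sK_C hi φ s).1, (sK_C hi φ s).2, sE, (lt_eq 0 6).2 (by decide), iff_t]
  rcases side_C φ hφ s hs with ⟨a, b, c, d⟩ | ⟨a, b, c, d⟩ <;> rw [a, b, c, d] <;>
    simp only [Bx.sd, Bx.u, ex, ey, n0, n1, m0, m1, p0, p1, w, iff_t, iff_f, Bool.not_false] at xa xb ⊢ <;>
    cases bit s <;> cases vA φ <;> cases vO φ <;>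
    simp only [hx, hy, xr, nt, cond_true, cond_false, Bool.not_false, Bool.not_true, xa, xb] <;> ring

end

end Pool.Agent.P.MP_53fdf1_co.R
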