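import Pool.Agent.P.MP_53fdf1_co.RBnd

set_option autoImplicit false

namespace Pool.Agent.P.MP_53fdf1_co.R.Ln

open Po

noncomputable section

def hd (p : List ℕ) : ℕ := @List.rec ℕ (fun _ => ℕ) 0 (fun x _ _ => x) p

/-- 64 bits from position `j` -/
def fd (c j : ℕ) : ℕ := Nat.mod (Nat.shiftRight c j) 18446744073709551616

/-- packed coefficients of `1`, `s`, `w` and one more monomial, shifted by `2 ^ 63` -/
def enc (s w : ℕ) (q : Po) : ℕ :=
  @Po.rec (fun _ => ℕ) 57896044618658097714924043372037294308723028227884584459520880401941320957952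
    (fun g c m _ ih => frc (iff (Nat.beq m 1) 0 (iff (Nat.beq m s) 64 (iff (Nat.beq m w) 128 192))) fun j =>
      Nat.add (iff g (Nat.sub ih (Nat.shiftLeft c j)) (Nat.add ih (Nat.shiftLeft c j)))
        (iff (Nat.beq j 192) (Nat.shiftLeft m 256) 0)) q

def four (s w o a b c d : ℕ) : Po :=
  add (cons false a 1 nil) (add (cons false b s nil) (add (cons false c w nil) (cons false d o nil)))

section
variable (tb : ℕ → Atom) (mem : ℕ → Bool)

def onM {α : Type} (A : Atom) (x : α) (k : List ℕ → Bool → ℕ → α) : α :=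
  @Atom.rec (fun _ => α) (fun _ _ => x) (fun _ _ _ => x) (fun _ => x) (fun p _ g e _ => k p g e) (fun _ => x) A

/-- the row named by `d`: a literal, a static bound, a positive offset or nothing -/
def rq (d : ℕ) : Po :=
  iff (lt d 4194304) (@Atom.rec (fun _ => Po) (fun _ _ => nil) (fun _ _ _ => nil) (fun n => sgP (bit d) (sgO n))
      (fun p _ g e _ => sgP (bit d) (sub (mulT false (iff (bit d) (Cut.kU (kE g e)) (Cut.kD (kE g e))) 1
        (cP (Nat.div (hd p) 32))) (mulT false 281474976710656 1 (sgO (hd p)))))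
      (fun q => sgP (bit d) (nrm q)) (tb (Nat.div d 2)))
    (iff (lt d 4195328) (sub (mulT false 281474976710656 1 (sgO (Nat.mod d 1024)))
      (mulT false 562949953421312 1 (cP (Nat.div (Nat.mod d 1024) 32))))
      (iff (lt d 4196352) (neg (oP (Nat.mod d 1024))) nil))

def rT (d : ℕ) : ℕ :=
  iff (lt d 4194304) (onM (tb (Nat.div d 2)) 0 fun _ _ _ => iff (bit d) 1 2) (iff (lt d 4195328) 1 (iff (lt d 4196352) 7 0))

def rH (d : ℕ) : ℕ :=
  iff (lt d 4194304) (onM (tb (Nat.div d 2)) (Nat.add d 2) fun p _ _ => Nat.add (hd p) (Nat.mul 16777216 d))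
    (iff (lt d 4196352) (Nat.mod d 1024) 1)

def m1 (d x : ℕ) : Bool := an (lt d 4194304) (Nat.beq x d)

/-- the packed row named by `d`, or the zero row -/
def lr (i d : ℕ) : ℕ :=
  frc (pr i 0) fun s => frc (pr i 1) fun w => frc (enc s w (rq tb d)) fun c => frc (Nat.shiftRight c 256) fun o =>
    frc (rT tb d) fun t => frc (rH tb d) fun h =>
    iff (row tb (m1 d) t h fun q _ => isZ (sub (add q (four s w o 9223372036854775808 9223372036854775808 9223372036854775808 9223372036854775808))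
      (four s w o (fd c 0) (fd c 64) (fd c 128) (fd c 192)))) c 57896044618658097714924043372037294308723028227884584459520880401941320957952

/-- bounds of the tangent -/
def tu (i l : ℕ) : ℕ :=
  frc (onM (tb (Nat.div l 2)) 0 fun _ g e => Cut.kU (kE g e)) fun T =>
    iff (ubV tb (m1 l) (Nat.mul 32 i) l fun T' _ => Nat.ble T' T) T 281474976710656

def tl (i l : ℕ) : ℕ :=
  frc (onM (tb (Nat.div l 2)) 0 fun _ g e => Cut.kD (kE g e)) fun T =>
    iff (lbP tb (m1 l) (Nat.mul 32 i) l 0 fun T' _ => Nat.ble T T') T 0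

def cone (B C O b T : ℕ) : Bool :=
  lt (Nat.mul (sq2 b) (Nat.add 79228162514264337593543950336 (sq2 T)))
    (frc (Nat.sub (Nat.add (Nat.mul B T) (Nat.mul 281474976710656 O))
      (Nat.add (Nat.mul O T) (Nat.mul 281474976710656 C))) sq2)

def arcF (A B C O S T m : ℕ) : Bool :=
  iff (Nat.ble (Nat.mul 2 O) A)
    (frc (Nat.sub A (Nat.mul 2 O)) fun a => frc (sq2 m) fun n => frc (Nat.add 281474976710656 n) fun N =>
      frc (Nat.mul O N) fun R =>
      frc (Nat.mul 281474976710656 (Nat.add (Nat.mul a (Nat.sub 281474976710656 n)) R)) fun P =>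
      frc (Nat.add (Nat.mul 33554432 (Nat.mul a m)) (Nat.mul B N)) fun Q =>
      frc (Nat.mul 281474976710656 (Nat.mul C N)) fun U =>
      an (Nat.ble n 281474976710656) (an (lt (Nat.add U (Nat.mul R S)) (Nat.add P (Nat.mul Q S)))
        (lt (Nat.add U (Nat.mul R T)) (Nat.add P (Nat.mul Q T)))))
    (frc (Nat.sub (Nat.mul 2 O) A) fun b => an (cone B C O b S) (cone B C O b T))

def cmb (x y c d j : ℕ) : ℕ := Nat.add (Nat.mul x (fd c j)) (Nat.mul y (fd d j))

def okD (d : ℕ) : Bool := orr (lt 4194303 d) (mem d)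

/-- the checker of two bounds of one offset that contradict each other on an arc -/
def chkArc (h : ℕ) : Bool :=
  dg h fun d h => dg h fun e h => dg h fun l h => dg h fun u h => dg h fun m i =>
    an (an (lt i 26) (an (okD mem d) (okD mem e)))
      (frc (lr tb i d) fun c => frc (lr tb i e) fun c' => frc (iff (okD mem l) (tl tb i l) 0) fun S =>
        frc (iff (okD mem u) (tu tb i u) 281474976710656) fun T =>
        frc (Nat.sub (fd c 192) 9223372036854775808) fun y => frc (iff (Nat.beq y 0) 1 (Nat.sub 9223372036854775808 (fd c' 192))) fun x =>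
        frc (Nat.mul 9223372036854775808 (Nat.add x y)) fun O => frc (cmb x y c c' 128) fun C =>
        an (an (orr (Nat.beq y 0) (Nat.beq (Nat.shiftRight c 256) (Nat.shiftRight c' 256)))
          (Nat.beq (cmb x y c c' 192) O))
          (frc (Nat.add (cmb x y c c' 0) C) fun A => frc (cmb x y c c' 64) fun B => arcF A B C O S T m))

/-- kind 6: arcs and linear combinations -/
def chkL6 (h : ℕ) : Bool := iff (bit h) (chkArc tb mem (Nat.div h 2)) (chkLf tb mem (Nat.div h 2))

end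

variable {K : Cfg} {tb : ℕ → Atom} {mem : ℕ → Bool}

theorem m1_s (N : NC K tb mem) {d : ℕ} (e : okD mem d = true) : NC K tb (m1 d) := fun l a => by
  simp only [m1, okD, an_eq, orr_eq, lt_eq, Nat.beq_eq] at a e
  exact N l (a.2 ▸ e.resolve_left (by omega))

theorem ev_four (H : Hom K.v) (s w o a b c d : ℕ) :
    ev K.v (four s w o a b c d) = a + b * K.v s + c * K.v w + d * K.v o := by
  simp only [four, ev_add, ev_cons, ev_nil, sg, cond_false, H.one]; ring

/-- the value of a packed row -/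
def rv (K : Cfg) (i c : ℕ) : ℝ :=
  (fd c 0 - 9223372036854775808 : ℝ) + (fd c 64 - 9223372036854775808 : ℝ) * K.sy i 0 + (fd c 128 - 9223372036854775808 : ℝ) * K.sy i 2 +
    (fd c 192 - 9223372036854775808 : ℝ) * K.v (Nat.shiftRight c 256)

theorem lr_s (V : Valid K) (N : NC K tb mem) {i d : ℕ} (e : okD mem d = true) : rv K i (lr tb i d) ≤ 0 := by
  rw [lr, frc_eq, frc_eq, frc_eq, frc_eq, frc_eq, frc_eq]
  generalize enc (pr i 0) (pr i 1) (rq tb d) = c
  generalize hb : row tb (m1 d) _ _ _ = b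
  cases b
  · have a : ∀ j ∈ [0, 64, 128, 192], fd 57896044618658097714924043372037294308723028227884584459520880401941320957952 j = 9223372036854775808 := by decide +kernel
    rw [iff_f, rv, a 0 (by simp), a 64 (by simp), a 128 (by simp), a 192 (by simp)]
    simp
  · obtain ⟨q, -, a, z⟩ := row_s V (m1_s N e) hb
    have z := ev_isZ (v := K.v) z
    rw [ev_sub, ev_add, ev_four V.hom, ev_four V.hom] at z
    rw [iff_t, rv, sy0, sy2, sP, wP, ev_var, ev_var]
    push_cast at z
    linarith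

theorem tu_s (V : Valid K) (N : NC K tb mem) {i l : ℕ} (hi : i < 26) :
    K.sy i 0 * 281474976710656 ≤ (iff (okD mem l) (tu tb i l) 281474976710656 : ℕ) * K.sy i 1 := by
  have c : 0 < K.sy i 1 := by linarith [(V.cpos hi).1]
  have s : K.sy i 0 * 281474976710656 ≤ (281474976710656 : ℕ) * K.sy i 1 := by
    push_cast; linarith [(V.tri i hi).2.1]
  cases e : okD mem l
  · exact s
  rw [iff_t, tu, frc_eq]
  generalize onM (tb (Nat.div l 2)) 0 _ = T
  generalize hb : ubV tb (m1 l) _ _ _ = b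
  cases b
  · exact s
  · obtain ⟨T', -, a, z⟩ := ubV_s V (m1_s N e) hb
    rw [Nat.mul_eq, V.lp_tan hi, div_mul_eq_mul_div, div_le_iff₀ c] at a
    exact a.trans (mul_le_mul_of_nonneg_right (ble_s z) c.le)

theorem tl_s (V : Valid K) (N : NC K tb mem) {i l : ℕ} (hi : i < 26) :
    (iff (okD mem l) (tl tb i l) 0 : ℕ) * K.sy i 1 ≤ K.sy i 0 * 281474976710656 := by
  have c : 0 < K.sy i 1 := by linarith [(V.cpos hi).1]
  have s : (0 : ℕ) * K.sy i 1 ≤ K.sy i 0 * 281474976710656 := by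
    push_cast; linarith [(V.tri i hi).1]
  cases e : okD mem l
  · exact s
  rw [iff_t, tl, frc_eq]
  generalize onM (tb (Nat.div l 2)) 0 _ = T
  generalize hb : lbP tb (m1 l) _ _ _ _ = b
  cases b
  · exact s
  · obtain ⟨T', -, a, z⟩ := lbP_s (m1_s N e) hb
    rw [Nat.mul_eq, V.lp_tan hi, div_mul_eq_mul_div, le_div_iff₀ c] at a
    exact (mul_le_mul_of_nonneg_right (ble_s z) c.le).trans a

theorem between {x c S T P Q : ℝ} (c0 : 0 < c) (a : S * c ≤ x) (b : x ≤ T * c) (p : 0 < P + Q * S)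
    (q : 0 < P + Q * T) : 0 < P * c + Q * x := by
  rcases le_total 0 Q with h | h
  · nlinarith [mul_pos c0 p, mul_le_mul_of_nonneg_left a h]
  · nlinarith [mul_pos c0 q, mul_le_mul_of_nonpos_left b h]

theorem lt_s {a b : ℕ} (h : lt a b = true) : (a : ℝ) < b := Nat.cast_lt.2 ((lt_eq _ _).1 h)

theorem cone_s {B C O b T : ℕ} {s c : ℝ} (u : s ^ 2 + c ^ 2 = 1) (e : cone B C O b T = true) :
    0 < ((O - C) * 281474976710656 - b * 281474976710656 * c) + (B - O - b * s) * T := by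
  rw [cone, frc_eq] at e
  generalize hL : Nat.sub _ _ = L at e
  have e := lt_s e
  simp only [sq2, Nat.mul_eq, Nat.add_eq, Nat.cast_mul, Nat.cast_add, Nat.cast_ofNat] at e
  have l0 : L ≠ 0 := by
    rintro rfl
    exact absurd e (not_lt.2 (by simp only [Nat.cast_zero, mul_zero]; positivity))
  have l : (L : ℝ) = B * T + 281474976710656 * O - (O * T + 281474976710656 * C) := by
    rw [← hL, Nat.sub_eq, Nat.cast_sub (le_of_lt (Nat.lt_of_sub_ne_zero fun z => l0 (hL.symm.trans z)))]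
    simp only [Nat.mul_eq, Nat.add_eq, Nat.cast_mul, Nat.cast_add, Nat.cast_ofNat]
  have : b * (281474976710656 * c + T * s) < L := by
    refine lt_of_pow_lt_pow_left₀ 2 (Nat.cast_nonneg L) ?_
    have : (281474976710656 * c + T * s) ^ 2 ≤ 79228162514264337593543950336 + (T : ℝ) * T := by
      nlinarith [sq_nonneg (281474976710656 * s - T * c)]
    nlinarith [mul_le_mul_of_nonneg_left this (sq_nonneg (b : ℝ))]
  linarith

theorem arcF_s {A B C O S T m : ℕ} {s c : ℝ} (c0 : 0 < c) (u : s ^ 2 + c ^ 2 = 1)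
    (a : S * c ≤ s * 281474976710656) (b : s * 281474976710656 ≤ T * c) (e : arcF A B C O S T m = true) :
    0 < (A - 2 * O : ℝ) + (B - O) * s - (C - O) * c := by
  obtain ⟨x, e⟩ | ⟨-, e⟩ := iff_s e
  · obtain ⟨α, hα, e⟩ := frc_s e
    obtain ⟨n, hn, e⟩ := frc_s e
    obtain ⟨N, hN, e⟩ := frc_s e
    obtain ⟨R, hR, e⟩ := frc_s e
    obtain ⟨P, hP, e⟩ := frc_s e
    obtain ⟨Q, hQ, e⟩ := frc_s e
    obtain ⟨U, hU, e⟩ := frc_s e
    obtain ⟨y, e⟩ := (an_eq _ _).1 e
    obtain ⟨p, q⟩ := (an_eq _ _).1 e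
    have p := lt_s p
    have q := lt_s q
    have hα := congrArg (Nat.cast (R := ℝ)) hα
    have hP := congrArg (Nat.cast (R := ℝ)) hP
    have hn := congrArg (Nat.cast (R := ℝ)) hn
    have hN := congrArg (Nat.cast (R := ℝ)) hN
    have hR := congrArg (Nat.cast (R := ℝ)) hR
    have hQ := congrArg (Nat.cast (R := ℝ)) hQ
    have hU := congrArg (Nat.cast (R := ℝ)) hU
    rw [Nat.sub_eq, Nat.cast_sub (Nat.le_of_ble_eq_true x)] at hα
    rw [Nat.sub_eq] at hP
    simp only [sq2, Nat.mul_eq, Nat.add_eq, Nat.cast_mul, Nat.cast_add, Nat.cast_ofNat,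
      Nat.cast_sub (Nat.le_of_ble_eq_true y)] at p q hα hP hn hN hR hQ hU
    have z := between (P := P - U) (Q := Q - R) c0 a b (by linarith) (by linarith)
    have N0 : (0 : ℝ) < N := by rw [hN]; positivity
    have w : (281474976710656 - n) * c + 33554432 * m * s ≤ N := by
      refine abs_le_of_sq_le_sq' ?_ N0.le |>.2
      rw [hN, hn]
      nlinarith [sq_nonneg ((281474976710656 - m * m) * s - 33554432 * m * c)]
    have w := mul_le_mul_of_nonneg_left w (Nat.cast_nonneg α)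
    rw [← hα]
    refine pos_of_mul_pos_left ?_ N0.le
    rw [hP, hQ, hU, hR] at z
    nlinarith
  · obtain ⟨β, hβ, e⟩ := frc_s e
    obtain ⟨p, q⟩ := (an_eq _ _).1 e
    have z := between c0 a b (cone_s u p) (cone_s u q)
    have w := sub_ge (Nat.mul 2 O) A
    rw [← hβ, Nat.mul_eq] at w
    push_cast at w
    have : (β : ℝ) = β * (s ^ 2 + c ^ 2) := by rw [u, mul_one]
    nlinarith

theorem chkArc_s {h : ℕ} (e : chkArc tb mem h = true) : Univ tb mem := univ_of fun K V N => by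
  obtain ⟨d, h, e⟩ := dg_s e
  obtain ⟨d', h, e⟩ := dg_s e
  obtain ⟨l, h, e⟩ := dg_s e
  obtain ⟨u, h, e⟩ := dg_s e
  obtain ⟨m, i, e⟩ := dg_s e
  obtain ⟨g, e⟩ := (an_eq _ _).1 e
  rw [an_eq, an_eq, lt_eq] at g
  obtain ⟨c, hc, e⟩ := frc_s e
  obtain ⟨c', hc', e⟩ := frc_s e
  obtain ⟨S, hS, e⟩ := frc_s e
  obtain ⟨T, hT, e⟩ := frc_s e
  obtain ⟨y, -, e⟩ := frc_s e
  obtain ⟨x, -, e⟩ := frc_s e
  obtain ⟨O, hO, e⟩ := frc_s e
  obtain ⟨C, hC, e⟩ := frc_s e
  obtain ⟨z, e⟩ := (an_eq _ _).1 e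
  obtain ⟨A, hA, e⟩ := frc_s e
  obtain ⟨B, hB, e⟩ := frc_s e
  obtain ⟨s0, -, un⟩ := V.tri i g.1
  have r := arcF_s (by linarith [(V.cpos g.1).1]) un (hS ▸ tl_s V N g.1) (hT ▸ tu_s V N g.1) e
  have r1 := mul_nonpos_of_nonneg_of_nonpos (Nat.cast_nonneg x) (hc ▸ lr_s (i := i) V N g.2.1)
  have r2 := mul_nonpos_of_nonneg_of_nonpos (Nat.cast_nonneg y) (hc' ▸ lr_s (i := i) V N g.2.2)
  rw [an_eq, orr_eq, Nat.beq_eq, Nat.beq_eq, Nat.beq_eq] at z
  have hD := congrArg (Nat.cast (R := ℝ)) z.2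
  have hO := congrArg (Nat.cast (R := ℝ)) hO
  have hA := congrArg (Nat.cast (R := ℝ)) hA
  have hB := congrArg (Nat.cast (R := ℝ)) hB
  have hC := congrArg (Nat.cast (R := ℝ)) hC
  simp only [cmb, Nat.mul_eq, Nat.add_eq, Nat.cast_mul, Nat.cast_add, Nat.cast_ofNat] at hD hO hA hB hC
  have k : x * ((fd c 192 - 9223372036854775808 : ℝ) * K.v (Nat.shiftRight c 256)) +
      y * ((fd c' 192 - 9223372036854775808 : ℝ) * K.v (Nat.shiftRight c' 256)) = 0 := by
    rcases z.1 with z | z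
    · rw [z, Nat.cast_zero] at hD hO ⊢
      linear_combination K.v (Nat.shiftRight c 256) * (hD + hO)
    · rw [z]
      linear_combination K.v (Nat.shiftRight c' 256) * (hD + hO)
  rw [rv, ev_cP V.hom] at r1 r2
  rw [hA, hB, hC, hO] at r
  linarith

theorem chkL6_s {h : ℕ} (e : chkL6 tb mem h = true) : Univ tb mem := by
  obtain ⟨-, e⟩ | ⟨-, e⟩ := iff_s e
  exacts [chkArc_s e, chkLf_s e]

end

end Pool.Agent.P.MP_53fdf1_co.R.Ln
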