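import Pool.Agent.P.MP_53fdf1_co.RCDef
import Pool.Agent.P.MP_53fdf1_co.QSound

set_option autoImplicit false

namespace Pool.Agent.P.MP_53fdf1_co.Cut

open Q (frc andb orb ifb frc_eq andb_eq orb_eq ifb_eq)

theorem dU_ok (a b : ℕ) (hb : 0 < b) : (a : ℝ) ≤ (dU a b : ℝ) * b := by
  have h : a ≤ dU a b * b := by
    show a ≤ (a + b.pred) / b * b
    have h1 := Nat.div_add_mod (a + b.pred) b
    have h2 := Nat.mod_lt (a + b.pred) hb
    have h3 : b.pred = b - 1 := rfl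
    rw [Nat.mul_comm]
    omega
  exact_mod_cast h

theorem dD_ok (a b : ℕ) : ((Nat.div a b : ℕ) : ℝ) * b ≤ a := by
  have h : a / b * b ≤ a := Nat.div_mul_le_self a b
  exact_mod_cast h

theorem mU_le (a b : ℕ) : (a : ℝ) * b ≤ (mU a b : ℝ) * 281474976710656 := by
  have h : a * b ≤ mU a b * 281474976710656 := by
    show a * b ≤ (a * b + 281474976710655) >>> 48 * 281474976710656
    rw [Nat.shiftRight_eq_div_pow]
    omega
  exact_mod_cast h

theorem mD_le (a b : ℕ) : (mD a b : ℝ) * 281474976710656 ≤ (a : ℝ) * b := by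
  have h : mD a b * 281474976710656 ≤ a * b := by
    show (a * b) >>> 48 * 281474976710656 ≤ a * b
    rw [Nat.shiftRight_eq_div_pow]
    omega
  exact_mod_cast h

theorem mU_ok {x y : ℝ} {a b : ℕ} (h1 : x ≤ a) (h2 : y * 281474976710656 ≤ b) (y0 : 0 ≤ y) :
    x * y ≤ mU a b := by
  have h := mU_le a b
  have a0 : (0 : ℝ) ≤ a := Nat.cast_nonneg a
  have k1 := mul_le_mul_of_nonneg_right h1 y0
  have k2 := mul_le_mul_of_nonneg_left h2 a0
  nlinarith

theorem mD_ok {x y : ℝ} {a b : ℕ} (h1 : (a : ℝ) ≤ x) (h2 : (b : ℝ) ≤ y * 281474976710656) :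
    (mD a b : ℝ) ≤ x * y := by
  have h := mD_le a b
  have a0 : (0 : ℝ) ≤ a := Nat.cast_nonneg a
  have b0 : (0 : ℝ) ≤ b := Nat.cast_nonneg b
  have y0 : 0 ≤ y := by nlinarith
  have k1 := mul_le_mul_of_nonneg_right h1 y0
  have k2 := mul_le_mul_of_nonneg_left h2 a0
  nlinarith

theorem pwU_ok {x y : ℝ} {a b : ℕ} (h1 : x ≤ a) (h2 : y * 281474976710656 ≤ b) (y0 : 0 ≤ y) (n : ℕ) :
    x * y ^ n ≤ pwU n a b := by
  induction n with
  | zero => simpa [pwU] using h1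
  | succ n ih =>
    rw [pow_succ, ← mul_assoc]
    exact mU_ok ih h2 y0

theorem pwD_ok {x y : ℝ} {a b : ℕ} (h1 : (a : ℝ) ≤ x) (h2 : (b : ℝ) ≤ y * 281474976710656) (n : ℕ) :
    (pwD n a b : ℝ) ≤ x * y ^ n := by
  induction n with
  | zero => simpa [pwD] using h1
  | succ n ih =>
    rw [pow_succ, ← mul_assoc]
    exact mD_ok ih h2

theorem tabU : ∀ j < 64, 2 ^ j * 281474976710656 ^ 64 ≤ row tU j ^ 64 := by decide +kernel

theorem tabD : ∀ j < 64, row tD j ^ 64 ≤ 2 ^ j * 281474976710656 ^ 64 := by decide +kernel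

variable {κ : ℝ}

theorem kpow (h : κ ^ 64 = 2) (j S : ℕ) : (κ ^ j * S) ^ 64 = ((2 ^ j * S ^ 64 : ℕ) : ℝ) := by
  rw [mul_pow, ← pow_mul, mul_comm j, pow_mul, h, Nat.cast_mul, Nat.cast_pow, Nat.cast_pow, Nat.cast_ofNat]

theorem kle (h : κ ^ 64 = 2) {j S T : ℕ} (e : 2 ^ j * S ^ 64 ≤ T ^ 64) : κ ^ j * S ≤ T := by
  refine le_of_pow_le_pow_left₀ (n := 64) (by norm_num) (Nat.cast_nonneg _) ?_
  rw [kpow h, ← Nat.cast_pow]
  exact Nat.cast_le.2 e

theorem kge (h0 : 0 < κ) (h : κ ^ 64 = 2) {j S T : ℕ} (e : T ^ 64 ≤ 2 ^ j * S ^ 64) : (T : ℝ) ≤ κ ^ j * S := by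
  refine le_of_pow_le_pow_left₀ (n := 64) (by norm_num) (by positivity) ?_
  rw [kpow h, ← Nat.cast_pow]
  exact Nat.cast_le.2 e

theorem shU (T q : ℕ) : (T : ℝ) * 2 ^ q ≤
    (Nat.shiftRight (Nat.add (Nat.shiftLeft T q) 18446744073709551615) 64 : ℕ) * 18446744073709551616 := by
  have e : T * 2 ^ q ≤ (T <<< q + 18446744073709551615) >>> 64 * 18446744073709551616 := by
    rw [Nat.shiftRight_eq_div_pow, Nat.shiftLeft_eq]
    omega
  exact_mod_cast e

theorem shD (T q : ℕ) :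
    ((Nat.shiftRight (Nat.shiftLeft T q) 64 : ℕ) : ℝ) * 18446744073709551616 ≤ (T : ℝ) * 2 ^ q := by
  have e : (T <<< q) >>> 64 * 18446744073709551616 ≤ T * 2 ^ q := by
    rw [Nat.shiftRight_eq_div_pow, Nat.shiftLeft_eq]
    omega
  exact_mod_cast e

theorem ksplit (h : κ ^ 64 = 2) (m : ℕ) : κ ^ m = κ ^ (m % 64) * 2 ^ (m / 64) := by
  rw [← h, ← pow_mul, ← pow_add, Nat.mod_add_div]

theorem k4096 (h : κ ^ 64 = 2) : κ ^ 4096 = 18446744073709551616 := by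
  rw [show 4096 = 64 * 64 from rfl, pow_mul, h]
  norm_num

theorem kU_ok (h : κ ^ 64 = 2) (m : ℕ) :
    κ ^ m * 281474976710656 ≤ (kU m : ℝ) * 18446744073709551616 := by
  have t := kle h (tabU _ (Nat.mod_lt m (by norm_num)))
  have e := shU (row tU (m % 64)) (m / 64)
  have p : (0 : ℝ) ≤ 2 ^ (m / 64) := by positivity
  have q := mul_le_mul_of_nonneg_right t p
  rw [ksplit h m, mul_right_comm, kU, frc_eq]
  exact le_trans q e

theorem kD_ok (h0 : 0 < κ) (h : κ ^ 64 = 2) (m : ℕ) :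
    (kD m : ℝ) * 18446744073709551616 ≤ κ ^ m * 281474976710656 := by
  have t := kge h0 h (tabD _ (Nat.mod_lt m (by norm_num)))
  have e := shD (row tD (m % 64)) (m / 64)
  have p : (0 : ℝ) ≤ 2 ^ (m / 64) := by positivity
  have q := mul_le_mul_of_nonneg_right t p
  rw [ksplit h m, mul_right_comm, kD, frc_eq]
  exact le_trans e q

theorem k1 (h0 : 0 < κ) (h : κ ^ 64 = 2) : 1 ≤ κ := by
  by_contra n
  have := pow_le_one₀ (n := 64) h0.le (not_le.1 n).le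
  linarith

/-- the ratio `κ ^ a / κ ^ b` from above -/
theorem kU_q (h0 : 0 < κ) (h : κ ^ 64 = 2) (a b : ℕ) :
    κ ^ a / κ ^ b * 281474976710656 ≤ (kU (Nat.sub (Nat.add a 4096) b) : ℝ) := by
  have e := kU_ok h (Nat.sub (Nat.add a 4096) b)
  have l : κ ^ (a + 4096) ≤ κ ^ (Nat.sub (Nat.add a 4096) b + b) :=
    pow_le_pow_right₀ (k1 h0 h) (by show a + 4096 ≤ a + 4096 - b + b; omega)
  rw [pow_add, pow_add, k4096 h] at l
  have p : 0 < κ ^ b := pow_pos h0 b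
  rw [div_mul_eq_mul_div, div_le_iff₀ p]
  nlinarith

/-- the ratio `κ ^ a / κ ^ b` from below -/
theorem kD_q (h0 : 0 < κ) (h : κ ^ 64 = 2) {a b : ℕ} (hb : b ≤ a + 4096) :
    (kD (Nat.sub (Nat.add a 4096) b) : ℝ) ≤ κ ^ a / κ ^ b * 281474976710656 := by
  have e := kD_ok h0 h (Nat.sub (Nat.add a 4096) b)
  have l : κ ^ (a + 4096) = κ ^ (Nat.sub (Nat.add a 4096) b + b) := by
    congr 1
    show a + 4096 = a + 4096 - b + b
    omega
  rw [pow_add, pow_add, k4096 h] at l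
  have p : 0 < κ ^ b := pow_pos h0 b
  rw [div_mul_eq_mul_div, le_div_iff₀ p]
  nlinarith

structure PcOk (P : Pc) (s c w t : ℝ) : Prop where
  th : t * 281474976710656 ≤ P.th
  cl : (P.cl : ℝ) ≤ c * 281474976710656
  cu : c * 281474976710656 ≤ P.cu
  il : (P.il : ℝ) ≤ c⁻¹ * 281474976710656
  iu : c⁻¹ * 281474976710656 ≤ P.iu
  fs : ∃ f : ℝ, 0 ≤ f ∧ (P.sl : ℝ) ≤ f * 281474976710656 ∧ f * 281474976710656 ≤ P.sh ∧ s = f * t ^ P.ds * c ^ P.ds
  fw : ∃ f : ℝ, 0 ≤ f ∧ (P.wl : ℝ) ≤ f * 281474976710656 ∧ f * 281474976710656 ≤ P.wh ∧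
    w = f * (t ^ P.ds * t ^ P.ds) * (c ^ P.ds * c ^ P.ds)
  c0 : 0 < c
  t0 : 0 ≤ t

theorem sqle {x y D : ℝ} (y0 : 0 ≤ y) (D0 : 0 < D) (h : x * x * D ≤ y * y * D) : x ≤ y :=
  le_of_pow_le_pow_left₀ (n := 2) (by norm_num) y0 (by simpa only [sq] using le_of_mul_le_mul_right h D0)

theorem lcl {c t S a h : ℝ} (S0 : 0 < S) (c0 : 0 < c) (u : c ^ 2 * (1 + t ^ 2) = 1) (q : (t * S) ^ 2 ≤ h ^ 2)
    (b : a * a * (S ^ 2 + h * h) ≤ S ^ 4) : a ≤ c * S := by
  refine sqle (D := S ^ 2 * (1 + t ^ 2)) (by positivity) (by positivity) ?_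
  have := mul_le_mul_of_nonneg_left q (mul_self_nonneg a)
  have e : c * S * (c * S) * (S ^ 2 * (1 + t ^ 2)) = S ^ 4 := by linear_combination S ^ 4 * u
  linarith

theorem lcu {c t S a h : ℝ} (S0 : 0 < S) (a0 : 0 ≤ a) (u : c ^ 2 * (1 + t ^ 2) = 1) (q : h ^ 2 ≤ (t * S) ^ 2)
    (b : S ^ 4 ≤ a * a * (S ^ 2 + h * h)) : c * S ≤ a := by
  refine sqle (D := S ^ 2 * (1 + t ^ 2)) a0 (by positivity) ?_
  have := mul_le_mul_of_nonneg_left q (mul_self_nonneg a)
  have e : c * S * (c * S) * (S ^ 2 * (1 + t ^ 2)) = S ^ 4 := by linear_combination S ^ 4 * u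
  linarith

theorem lsl {c t S a h : ℝ} (S0 : 0 < S) (c0 : 0 < c) (t0 : 0 ≤ t) (u : c ^ 2 * (1 + t ^ 2) = 1)
    (q : h ^ 2 ≤ (t * S) ^ 2) (b : a * a * (S ^ 2 + h * h) ≤ h * h * S ^ 2) : a ≤ t * c * S := by
  refine sqle (D := S ^ 2 + h * h) (by positivity) (by nlinarith [mul_self_nonneg h, pow_pos S0 2]) ?_
  have := mul_le_mul_of_nonneg_left q (show 0 ≤ c ^ 2 * S ^ 2 by positivity)
  have e : h * h * S ^ 2 = c ^ 2 * (1 + t ^ 2) * (h * h * S ^ 2) := by rw [u, one_mul]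
  linarith

theorem lsh {c t S a h : ℝ} (S0 : 0 < S) (a0 : 0 ≤ a) (u : c ^ 2 * (1 + t ^ 2) = 1)
    (q : (t * S) ^ 2 ≤ h ^ 2) (b : h * h * S ^ 2 ≤ a * a * (S ^ 2 + h * h)) : t * c * S ≤ a := by
  refine sqle (D := S ^ 2 + h * h) a0 (by nlinarith [mul_self_nonneg h, pow_pos S0 2]) ?_
  have := mul_le_mul_of_nonneg_left q (show 0 ≤ c ^ 2 * S ^ 2 by positivity)
  have e : h * h * S ^ 2 = c ^ 2 * (1 + t ^ 2) * (h * h * S ^ 2) := by rw [u, one_mul]
  linarith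

theorem lil {x S a b : ℝ} (S0 : 0 < S) (x0 : 0 < x) (a0 : 0 ≤ a) (h : x * S ≤ b) (e : a * b ≤ S ^ 2) :
    a ≤ x⁻¹ * S := by
  rw [inv_mul_eq_div, le_div_iff₀ x0]
  have := mul_le_mul_of_nonneg_left h a0
  exact le_of_mul_le_mul_right (by linarith) S0

theorem liu {x S a b : ℝ} (S0 : 0 < S) (x0 : 0 < x) (a0 : 0 ≤ a) (h : b ≤ x * S) (e : S ^ 2 ≤ a * b) :
    x⁻¹ * S ≤ a := by
  rw [inv_mul_eq_div, div_le_iff₀ x0]
  have := mul_le_mul_of_nonneg_left h a0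
  exact le_of_mul_le_mul_right (by linarith) S0

theorem mkP_ok {s c : ℝ} (s0 : 0 ≤ s) (c0 : 0 < c) (un : s ^ 2 + c ^ 2 = 1) {box : Bool} {th ih tl il : ℕ}
    {k : Pc → Bool} (h1 : s / c * 281474976710656 ≤ th) (h2 : (tl : ℝ) ≤ s / c * 281474976710656)
    (h : mkP box th ih tl il k = true) : ∃ P, k P = true ∧ PcOk P s c (1 - c) (s / c) := by
  simp only [mkP, frc_eq, andb_eq, ifb_eq, Nat.ble_eq, Nat.add_eq, Nat.mul_eq, Nat.sub_eq] at h
  generalize row tCL ih = cl at h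
  generalize row tCU il = cu at h
  generalize row tSH ih = sh at h
  generalize slo tl il = sl at h
  obtain ⟨a1, a2, a3, h⟩ := h
  have st : s = s / c * c := by field_simp
  have t0 : 0 ≤ s / c := div_nonneg s0 c0.le
  generalize s / c = t at *
  subst st
  have c1 : c ≤ 1 := by nlinarith [sq_nonneg (t * c)]
  have u : c ^ 2 * (1 + t ^ 2) = 1 := by linear_combination un
  have S0 : (0 : ℝ) < 281474976710656 := by norm_num
  have S2 : (281474976710656 : ℝ) ^ 2 = 79228162514264337593543950336 := by norm_num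
  have S3 : ((79228162514264337593543950336 : ℕ) : ℝ) = 281474976710656 ^ 2 := by norm_num
  have S4 : (281474976710656 : ℝ) ^ 4 = 6277101735386680763835789423207666416102355444464034512896 := by norm_num
  have q1 : (t * 281474976710656) ^ 2 ≤ (th : ℝ) ^ 2 := pow_le_pow_left₀ (by positivity) h1 2
  have q2 : (tl : ℝ) ^ 2 ≤ (t * 281474976710656) ^ 2 := pow_le_pow_left₀ (Nat.cast_nonneg _) h2 2
  have hcl : (cl : ℝ) ≤ c * 281474976710656 := lcl S0 c0 u q1 (by rw [S2, S4]; exact_mod_cast a2)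
  have hcu : c * 281474976710656 ≤ cu := lcu S0 (Nat.cast_nonneg _) u q2 (by rw [S2, S4]; exact_mod_cast a3)
  have hil := lil S0 c0 (Nat.cast_nonneg _) hcu ((dD_ok 79228162514264337593543950336 cu).trans_eq S3)
  have hiu := liu S0 c0 (Nat.cast_nonneg _) hcl (S3.symm.trans_le (dU_ok 79228162514264337593543950336 cl a1))
  cases box
  · simp only [Bool.false_eq_true, if_false] at h
    have c2 : 0 < 1 + c := by linarith
    refine ⟨_, h, h1, hcl, hcu, hil, hiu, ⟨1, zero_le_one, by norm_num, by norm_num, by simp⟩,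
      ⟨(1 + c)⁻¹, by positivity, ?_, ?_, ?_⟩, c0, t0⟩
    · refine lil S0 c2 (Nat.cast_nonneg _) ?_
        ((dD_ok 79228162514264337593543950336 (281474976710656 + cu)).trans_eq S3)
      push_cast
      linarith
    · refine liu S0 c2 (Nat.cast_nonneg _) ?_
        (S3.symm.trans_le (dU_ok 79228162514264337593543950336 (281474976710656 + cl) (by omega)))
      push_cast
      linarith
    · show 1 - c = (1 + c)⁻¹ * (t ^ 1 * t ^ 1) * (c ^ 1 * c ^ 1)
      rw [mul_assoc, eq_inv_mul_iff_mul_eq₀ c2.ne']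
      linear_combination -u
  · simp only [if_true, andb_eq, Nat.ble_eq] at h
    obtain ⟨a4, a5, h⟩ := h
    have cs : cl ≤ 281474976710656 := by
      have : (cl : ℝ) ≤ 281474976710656 := by linarith
      exact_mod_cast this
    refine ⟨_, h, h1, hcl, hcu, hil, hiu, ⟨t * c, s0, lsl S0 c0 t0 u q2 (by rw [S2]; exact_mod_cast a5),
      lsh S0 (Nat.cast_nonneg _) u q1 (by rw [S2]; exact_mod_cast a4), by simp⟩,
      ⟨1 - c, by linarith, ?_, ?_, by simp⟩, c0, t0⟩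
    · show ((281474976710656 - cu : ℕ) : ℝ) ≤ _
      rcases le_total cu 281474976710656 with z | z
      · rw [Nat.cast_sub z]
        push_cast
        linarith
      · rw [Nat.sub_eq_zero_of_le z]
        push_cast
        linarith
    · show _ ≤ ((281474976710656 - cl : ℕ) : ℝ)
      rw [Nat.cast_sub cs]
      push_cast
      linarith

end Pool.Agent.P.MP_53fdf1_co.Cut
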