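import Pool.Agent.P.MP_53fdf1_co.RSym
import Pool.Agent.P.MP_53fdf1_co.RCNum

set_option autoImplicit false

namespace Pool.Agent.P.MP_53fdf1_co.R.Ln

open Po

noncomputable section

def kE (g : Bool) (n : ℕ) : ℕ := Nat.sub (Nat.add (iff g 0 n) 4096) (iff g n 0)

def one1 (p m : List ℕ) (n : ℕ) : Bool := an (leq p [n]) (leq m [])

def sq2 (a : ℕ) : ℕ := Nat.mul a a

def IX : ℕ := 224121893977374785299565534076995012733219436785144314809427252788755815702383359800878744014447627549370515665028791839379486444481503764823735912532454324838648570423349239649283527392133198762873967753521977791267891754255200364638584685823083089683207457376237122512738672722502178660407765165268541158776212065199949755061037275686079343734337901085591277417715050813523935800019293851614996984163749029295183991023991383431157297543061111176635061632258410476137380639483160590352090401325332394503354599094959314793816757756944642263368001195506564377778021871689691074737721305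7931306361706916319273054414015111939343805883825920729295538976441385344083535790901653097397831968602556781515885215907219350256974616686400224833060828580548832661509545905067009987393985402421083652092071838173081015352370256979483901131994671998437360282968154314805158016420839626604756570090099232176038928414460607304922314201099359465106900770650151095558510398870944394569235359148887330524830572887908152737989434882990340130173628282241832988721691432197121029442173028836703277913462025893716217661519187462653578368524890347993543992462604958017764590764429275919804996362696908097825687538601295113122358226676478747311923786220297775921158823698155893841239755063740088445650351595007276876357313851675671555739945617533610956531217161310167014435348226625486637584433833116451342540397038982213028397348781221944031692537618886685088496343394626109023310726575233781720351456375228041705526535140362623424771893239048653091949663552590552911529455546808726624446594057813215628309973756911803350921735114532858884784775198850671142413467217275023854728708448896482042936396412499939988374687529094338928896563624221701816258570734939844311509496557031472891156234240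

/-- the monomial is a bounded free variable -/
def okP (m : ℕ) : Bool :=
  frc (Nat.mod (Nat.shiftRight IX (Nat.mul 8 m)) 256) fun n =>
    an (Nat.beq (pr 0 n) m) (an (lt n 130) (orr (lt n 30) (lt (Nat.mod n 5) 4)))

section
variable (tb : ℕ → Atom) (mem : ℕ → Bool)

/-- upper bound of a variable, scale `2 ^ 48` -/
def ubV (n h : ℕ) (k : ℕ → ℕ → Bool) : Bool :=
  dg h fun l h => iff (Nat.beq l 0)
    (an (okL n) (k (iff (Nat.beq (Nat.mod n 32) 0) 281474976710656 562949953421312) h))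
    (an (mem l) (iff (bit l) (isM (tb (Nat.div l 2)) fun p m g e _ => an (one1 p m n) (frc (Cut.kU (kE g e)) fun T => k T h))
      (an (isT (tb (Nat.div l 2)) n) (k 0 h))))

/-- lower bound of a positive variable -/
def lbP (n l h : ℕ) (k : ℕ → ℕ → Bool) : Bool :=
  an (mem l) (iff (bit l) (an (isT (tb (Nat.div l 2)) n) (k 0 h))
    (isM (tb (Nat.div l 2)) fun p m g e _ => an (an (one1 p m n) (lt e 4097)) (frc (Cut.kD (kE g e)) fun T => k T h)))

/-- upper bounds of `s` and `w`, scale `2 ^ 24` -/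
def tanU (p h : ℕ) (k : ℕ → ℕ → ℕ → Bool) : Bool :=
  ubV tb mem (Nat.mul 32 p) h fun T h => dg h fun s h => dg h fun w h =>
    frc (Nat.add 79228162514264337593543950336 (sq2 T)) fun D =>
      an (Nat.ble (Nat.mul 281474976710656 (sq2 T)) (Nat.mul (sq2 s) D))
        (an (Nat.ble (Nat.mul (sq2 (Nat.sub 16777216 w)) D) 22300745198530623141535718272648361505980416) (k s w h))

def tanL' (T h : ℕ) (k : ℕ → ℕ → ℕ → Bool) : Bool :=
  dg h fun s h => dg h fun w h => frc (Nat.add 79228162514264337593543950336 (sq2 T)) fun D =>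
    an (Nat.ble (Nat.mul (sq2 s) D) (Nat.mul 281474976710656 (sq2 T)))
      (an (Nat.ble 22300745198530623141535718272648361505980416 (Nat.mul (sq2 (Nat.sub 16777216 w)) D)) (k s w h))

/-- lower bounds of `s` and `w` -/
def tanL (p h : ℕ) (k : ℕ → ℕ → ℕ → Bool) : Bool :=
  dg h fun l h => iff (Nat.beq l 0) (k 0 0 h) (lbP tb mem (Nat.mul 32 p) l h fun T h => tanL' T h k)

def sgO (n : ℕ) : Po := sgP (bit n) (symP (Nat.div n 32) (Nat.mod (Nat.div n 2) 16))

def ok9 (n : ℕ) : Bool := an (lt (Nat.div n 32) 26) (lt (Nat.mod (Nat.div n 2) 16) 9)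

/-- a polynomial that is not positive -/
def row (t h : ℕ) (k : Po → ℕ → Bool) : Bool :=
  iff (Nat.beq t 0) (litP tb mem h fun q _ h => k q h) (dg h fun n h =>
    iff (Nat.beq t 1) (an (ok9 n) (ubV tb mem n h fun T h =>
      k (sub (mulT false 281474976710656 1 (sgO n)) (mulT false T 1 (cP (Nat.div n 32)))) h))
    (iff (Nat.beq t 2) (an (ok9 n) (dg h fun l h => lbP tb mem n l h fun T h =>
      k (sub (mulT false T 1 (cP (Nat.div n 32))) (mulT false 281474976710656 1 (sgO n))) h))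
    (an (lt n 26) (iff (Nat.beq t 7) (k (neg (oP n)) h) (iff (lt t 5) (tanU tb mem n h fun s w h =>
        k (sub (mulT false 16777216 1 (iff (bit t) (sP n) (wP n))) (cst false (iff (bit t) s w))) h)
      (tanL tb mem n h fun s w h =>
        k (sub (cst false (iff (bit t) s w)) (mulT false 16777216 1 (iff (bit t) (sP n) (wP n)))) h))))))

def rows (k : Po → Bool) (n : ℕ) : Po → ℕ → Bool :=
  @Nat.rec (fun _ => Po → ℕ → Bool) (fun P _ => k P)
    (fun _ ih P h => dg h fun t h => dg h fun a h => row tb mem (Nat.mod t 8) h fun q h =>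
      frc (Nat.shiftLeft (Nat.add (Nat.mul 16777216 (Nat.div t 1024)) a) (Nat.mod (Nat.div t 8) 128)) fun c =>
        frp (add P (mulT false c 1 q)) fun P => ih P h) n

def res (p : Po) : ℕ → ℕ → Bool :=
  @Po.rec (fun _ => ℕ → ℕ → Bool) (fun a b => lt b a)
    (fun g c m _ ih a b => iff (Nat.beq m 1) (iff g (ih a (Nat.add b c)) (ih (Nat.add a c) b))
      (an (okP m) (ih a (Nat.add b (Nat.mul 2 c))))) p

/-- the checker of linear combinations -/
def chkLf (h : ℕ) : Bool := dg h fun n h => rows tb mem (fun P => res P 0 0) n nil h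

end

variable {K : Cfg} {tb : ℕ → Atom} {mem : ℕ → Bool}

theorem isM_s {A : Atom} {k : List ℕ → List ℕ → Bool → ℕ → Bool → Bool} (e : isM A k = true) :
    ∃ p m g n s, A = .mono p m g n s ∧ k p m g n s = true := by
  cases A
  case mono => exact ⟨_, _, _, _, _, rfl, e⟩
  all_goals exact absurd e Bool.false_ne_true

theorem kap (g : Bool) (n : ℕ) : (2 : ℝ) ^ (sg g (n : ℝ) / 64) =
    ((2 : ℝ) ^ (1 / 64 : ℝ)) ^ (iff g 0 n) / ((2 : ℝ) ^ (1 / 64 : ℝ)) ^ (iff g n 0) := by
  rw [← Real.rpow_natCast, ← Real.rpow_natCast, ← Real.rpow_mul (by norm_num), ← Real.rpow_mul (by norm_num),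
    ← Real.rpow_sub (by norm_num)]
  cases g <;> simp only [sg, iff_t, iff_f, cond_true, cond_false] <;> congr 1 <;> push_cast <;> ring

theorem k64 : ((2 : ℝ) ^ (1 / 64 : ℝ)) ^ 64 = 2 := by
  rw [← Real.rpow_natCast, ← Real.rpow_mul (by norm_num)]; norm_num

theorem one1_s {p m : List ℕ} {n e : ℕ} {g s : Bool} (h : one1 p m n = true) :
    (Atom.mono p m g e s).sem K ↔ rel s (K.lp n) ((2 : ℝ) ^ (sg g (e : ℝ) / 64)) := by
  obtain ⟨a, b⟩ := (an_eq _ _).1 h
  rw [leq_s _ _ a, leq_s _ _ b]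
  simp [Atom.sem]

theorem iff_s {b x y : Bool} (e : iff b x y = true) : (b = true ∧ x = true) ∨ (b = false ∧ y = true) := by
  cases b
  exacts [.inr ⟨rfl, e⟩, .inl ⟨rfl, e⟩]

theorem kE_U (g : Bool) (a : ℕ) : (2 : ℝ) ^ (sg g (a : ℝ) / 64) * 281474976710656 ≤ (Cut.kU (kE g a) : ℕ) := by
  rw [kap]
  exact Cut.kU_q (by positivity) k64 (iff g 0 a) (iff g a 0)

theorem kE_D (g : Bool) {a : ℕ} (h : a < 4097) :
    ((Cut.kD (kE g a) : ℕ) : ℝ) ≤ (2 : ℝ) ^ (sg g (a : ℝ) / 64) * 281474976710656 := by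
  rw [kap]
  refine Cut.kD_q (by positivity) k64 (a := iff g 0 a) (b := iff g a 0) ?_
  cases g
  · exact Nat.zero_le _
  · change a ≤ 0 + 4096
    omega

theorem ubV_s (V : Valid K) (N : NC K tb mem) {n h : ℕ} {k : ℕ → ℕ → Bool} (e : ubV tb mem n h k = true) :
    ∃ T h, K.lp n * 281474976710656 ≤ (T : ℕ) ∧ k T h = true := by
  obtain ⟨l, h, e⟩ := dg_s e
  obtain ⟨-, e⟩ | ⟨-, e⟩ := iff_s e <;> obtain ⟨m, e⟩ := (an_eq _ _).1 e
  · refine ⟨_, h, ?_, e⟩
    cases y : Nat.beq (Nat.mod n 32) 0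
    · rw [iff_f, Nat.cast_ofNat]
      linarith [V.lp_le m]
    · have y : n % 32 = 0 := Nat.eq_of_beq_eq_true y
      have := V.tan_le (okL_s m).1
      rw [show 32 * (n / 32) = n by omega] at this
      rw [iff_t, Nat.cast_ofNat]
      linarith
  obtain ⟨z, e⟩ | ⟨z, e⟩ := iff_s e
  · obtain ⟨p, q, g, a, s, u, v⟩ := isM_s e
    obtain ⟨v, w⟩ := (an_eq _ _).1 v
    obtain ⟨T, i, w⟩ := frc_s w
    have t := N.odd m z
    rw [u, one1_s v] at t
    have t : K.lp n ≤ (2 : ℝ) ^ (sg g (a : ℝ) / 64) := by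
      cases s
      exacts [t, le_of_lt t]
    refine ⟨T, h, ?_, w⟩
    rw [i]
    exact le_trans (mul_le_mul_of_nonneg_right t (by norm_num)) (kE_U g a)
  · obtain ⟨v, w⟩ := (an_eq _ _).1 e
    have t := N.even m z
    rw [isT_s v] at t
    have t : K.lp n ≤ 0 := not_lt.1 t
    exact ⟨0, h, by rw [Nat.cast_zero]; linarith, w⟩

theorem lbP_s (N : NC K tb mem) {n l h : ℕ} {k : ℕ → ℕ → Bool} (e : lbP tb mem n l h k = true) :
    ∃ T, 0 < K.lp n ∧ ((T : ℕ) : ℝ) ≤ K.lp n * 281474976710656 ∧ k T h = true := by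
  obtain ⟨m, e⟩ := (an_eq _ _).1 e
  obtain ⟨z, e⟩ | ⟨z, e⟩ := iff_s e
  · obtain ⟨v, w⟩ := (an_eq _ _).1 e
    have t := N.odd m z
    rw [isT_s v] at t
    have t : 0 < K.lp n := t
    exact ⟨0, t, by rw [Nat.cast_zero]; linarith, w⟩
  · obtain ⟨p, q, g, a, s, u, v⟩ := isM_s e
    obtain ⟨v, w⟩ := (an_eq _ _).1 v
    obtain ⟨v, x⟩ := (an_eq _ _).1 v
    obtain ⟨T, i, w⟩ := frc_s w
    have t := N.even m z
    rw [u, one1_s v] at t
    have t : (2 : ℝ) ^ (sg g (a : ℝ) / 64) ≤ K.lp n := by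
      cases s
      exacts [le_of_lt (not_le.1 t), not_lt.1 t]
    refine ⟨T, lt_of_lt_of_le (by positivity) t, ?_, w⟩
    rw [i]
    exact (kE_D g ((lt_eq _ _).1 x)).trans (mul_le_mul_of_nonneg_right t (by norm_num))

theorem ble_s {a b : ℕ} (h : Nat.ble a b = true) : (a : ℝ) ≤ b := Nat.cast_le.2 (Nat.le_of_ble_eq_true h)

theorem sub_ge (a b : ℕ) : (a : ℝ) - b ≤ (Nat.sub a b : ℕ) := Q.sub_cast a b

theorem tanU_s (V : Valid K) (N : NC K tb mem) {p h : ℕ} (hp : p < 26) {k : ℕ → ℕ → ℕ → Bool}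
    (e : tanU tb mem p h k = true) :
    ∃ s w h, K.sy p 0 * 16777216 ≤ (s : ℕ) ∧ K.sy p 2 * 16777216 ≤ (w : ℕ) ∧ k s w h = true := by
  obtain ⟨T, h, t, e⟩ := ubV_s V N e
  obtain ⟨s, h, e⟩ := dg_s e
  obtain ⟨w, h, e⟩ := dg_s e
  obtain ⟨D, i, e⟩ := frc_s e
  obtain ⟨a, e⟩ := (an_eq _ _).1 e
  obtain ⟨b, e⟩ := (an_eq _ _).1 e
  have a := ble_s a
  have b := ble_s b
  rw [i] at a b
  have c := sub_ge 16777216 w
  obtain ⟨s0, -, un⟩ := V.tri p hp
  have c0 : 0 < K.sy p 1 := by linarith [(V.cpos hp).1]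
  rw [Nat.mul_eq, V.lp_tan hp, div_mul_eq_mul_div, div_le_iff₀ c0] at t
  rw [ev_cP V.hom]
  simp only [sq2, Nat.mul_eq, Nat.add_eq, Nat.cast_mul, Nat.cast_add, Nat.cast_ofNat] at a b c
  have q := mul_self_le_mul_self (by positivity) t
  have D : (0 : ℝ) < 79228162514264337593543950336 + T * T := by positivity
  refine ⟨s, w, h, Cut.sqle (by positivity) D (by nlinarith), ?_, e⟩
  have := Cut.sqle (x := (Nat.sub 16777216 w : ℕ)) (y := K.sy p 1 * 16777216) (by positivity) D (by nlinarith)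
  linarith

theorem tanL_s (V : Valid K) (N : NC K tb mem) {p h : ℕ} (hp : p < 26) {k : ℕ → ℕ → ℕ → Bool}
    (e : tanL tb mem p h k = true) :
    ∃ s w h, ((s : ℕ) : ℝ) ≤ K.sy p 0 * 16777216 ∧ ((w : ℕ) : ℝ) ≤ K.sy p 2 * 16777216 ∧ k s w h = true := by
  obtain ⟨l, h, e⟩ := dg_s e
  obtain ⟨s0, -, un⟩ := V.tri p hp
  obtain ⟨c0, c1⟩ := V.cpos hp
  have c0 : 0 < K.sy p 1 := by linarith
  rw [ev_cP V.hom]
  obtain ⟨-, e⟩ | ⟨-, e⟩ := iff_s e
  · exact ⟨0, 0, h, by push_cast; linarith, by push_cast; linarith, e⟩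
  obtain ⟨T, -, t, e⟩ := lbP_s N e
  obtain ⟨s, h, e⟩ := dg_s e
  obtain ⟨w, h, e⟩ := dg_s e
  obtain ⟨D, i, e⟩ := frc_s e
  obtain ⟨a, e⟩ := (an_eq _ _).1 e
  obtain ⟨b, e⟩ := (an_eq _ _).1 e
  have a := ble_s a
  have b := ble_s b
  rw [i] at a b
  rw [Nat.mul_eq, V.lp_tan hp, div_mul_eq_mul_div, le_div_iff₀ c0] at t
  simp only [sq2, Nat.mul_eq, Nat.add_eq, Nat.cast_mul, Nat.cast_add, Nat.cast_ofNat] at a b
  have q := mul_self_le_mul_self (by positivity) t
  have D : (0 : ℝ) < 79228162514264337593543950336 + T * T := by positivity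
  refine ⟨s, w, h, Cut.sqle (by positivity) D (by nlinarith), ?_, e⟩
  have := Cut.sqle (y := (Nat.sub 16777216 w : ℕ)) (x := K.sy p 1 * 16777216) (by positivity) D (by nlinarith)
  rcases le_total w 16777216 with x | x
  · rw [Nat.sub_eq, Nat.cast_sub x] at this
    push_cast at this; linarith
  · rw [Nat.sub_eq, Nat.sub_eq_zero_of_le x] at this
    push_cast at this; linarith

theorem ok9_s (V : Valid K) {n : ℕ} (h : ok9 n = true) : 0 < K.sy (n / 32) 1 ∧
    ev K.v (sgO n) ≤ K.lp n * K.sy (n / 32) 1 ∧ (0 < K.lp n → ev K.v (sgO n) = K.lp n * K.sy (n / 32) 1) := by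
  simp only [ok9, an_eq, lt_eq] at h
  change n / 32 < 26 ∧ n / 2 % 16 < 9 at h
  have c : 0 < K.sy (n / 32) 1 := by linarith [(V.cpos h.1).1]
  have e : ev K.v (sgO n) = sg (bit n) (K.sy (n / 32) (n / 2 % 16)) := ev_sgP _ _
  have f : K.lp n * K.sy (n / 32) 1 = max (ev K.v (sgO n)) 0 := by
    rw [Cfg.lp, if_pos h.2, pow_one, div_mul_cancel₀ _ c.ne', e]
  exact ⟨c, f ▸ le_max_left _ _, fun p => by rw [f, max_eq_left (e ▸ ((V.lp_pos h.1).1 p).le)]⟩

theorem ev_sc (H : Hom K.v) (c : ℕ) (p : Po) : ev K.v (mulT false c 1 p) = c * ev K.v p := by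
  rw [ev_mulT H, H.one, mul_one]; rfl

theorem row_s (V : Valid K) (N : NC K tb mem) {t h : ℕ} {k : Po → ℕ → Bool} (e : row tb mem t h k = true) :
    ∃ q h, ev K.v q ≤ 0 ∧ k q h = true := by
  obtain ⟨-, e⟩ | ⟨-, e⟩ := iff_s e
  · obtain ⟨q, s, h, r, e⟩ := litP_s V N e
    exact ⟨q, h, by cases s; exacts [r, le_of_lt r], e⟩
  obtain ⟨n, h, e⟩ := dg_s e
  obtain ⟨-, e⟩ | ⟨-, e⟩ := iff_s e
  · obtain ⟨x, e⟩ := (an_eq _ _).1 e
    obtain ⟨T, h, a, e⟩ := ubV_s V N e
    obtain ⟨c, b, -⟩ := ok9_s V x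
    refine ⟨_, h, ?_, e⟩
    rw [ev_sub, ev_sc V.hom, ev_sc V.hom, ← sy1]
    change _ - _ * K.sy (n / 32) 1 ≤ 0
    push_cast; nlinarith
  obtain ⟨-, e⟩ | ⟨-, e⟩ := iff_s e
  · obtain ⟨x, e⟩ := (an_eq _ _).1 e
    obtain ⟨l, h, e⟩ := dg_s e
    obtain ⟨T, p, a, e⟩ := lbP_s N e
    obtain ⟨c, -, b⟩ := ok9_s V x
    refine ⟨_, h, ?_, e⟩
    rw [ev_sub, ev_sc V.hom, ev_sc V.hom, ← sy1, b p]
    change _ * K.sy (n / 32) 1 - _ ≤ 0
    push_cast; nlinarith
  obtain ⟨x, e⟩ := (an_eq _ _).1 e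
  obtain ⟨-, e⟩ | ⟨-, e⟩ := iff_s e
  · exact ⟨_, h, by rw [ev_neg]; linarith [oP_pos V ((lt_eq _ _).1 x)], e⟩
  obtain ⟨-, e⟩ | ⟨-, e⟩ := iff_s e
  · obtain ⟨s, w, h, a, b, e⟩ := tanU_s V N ((lt_eq _ _).1 x) e
    refine ⟨_, h, ?_, e⟩
    rw [ev_sub, ev_sc V.hom, ev_cst V.hom]
    cases bit t <;> simp only [iff_t, iff_f, sg, cond_false, ← sy0, ← sy2] <;> push_cast <;> linarith
  · obtain ⟨s, w, h, a, b, e⟩ := tanL_s V N ((lt_eq _ _).1 x) e
    refine ⟨_, h, ?_, e⟩
    rw [ev_sub, ev_sc V.hom, ev_cst V.hom]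
    cases bit t <;> simp only [iff_t, iff_f, sg, cond_false, ← sy0, ← sy2] <;> push_cast <;> linarith

theorem rows_s (V : Valid K) (N : NC K tb mem) {k : Po → Bool} (n : ℕ) : ∀ P h, ev K.v P ≤ 0 →
    rows tb mem k n P h = true → ∃ P, ev K.v P ≤ 0 ∧ k P = true := by
  induction n with
  | zero => exact fun P _ a e => ⟨P, a, e⟩
  | succ n ih =>
    intro P h a e
    obtain ⟨t, h, e⟩ := dg_s e
    obtain ⟨c, h, e⟩ := dg_s e
    obtain ⟨q, h, b, e⟩ := row_s V N e
    obtain ⟨c, -, e⟩ := frc_s e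
    rw [frp_eq] at e
    refine ih _ h ?_ e
    rw [ev_add, ev_sc V.hom]
    exact add_nonpos a (mul_nonpos_of_nonneg_of_nonpos (Nat.cast_nonneg _) b)

theorem okP_s (V : Valid K) {m : ℕ} (h : okP m = true) : |K.v m| ≤ 2 := by
  obtain ⟨n, -, h⟩ := frc_s h
  simp only [an_eq, orr_eq, lt_eq, Nat.beq_eq] at h
  obtain ⟨rfl, a, b⟩ := h
  change _ ∨ n % 5 < 4 at b
  have e : pr 0 n = pr (n / 5) (n % 5) := by simp [pr, Nat.div_add_mod]
  have i : n / 5 < 26 := by omega
  have r : n % 5 < 5 := Nat.mod_lt _ (by decide)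
  have k : ∀ k, k < 9 → (k < if n / 5 < 6 then 15 else if n / 5 < 18 then 7 else 5) → |K.sy (n / 5) k| ≤ 2 := fun k x y => by
    have := V.sy_le i y
    rw [if_pos x, pow_one] at this
    linarith [(V.cpos i).2]
  rw [e, ← ev_var (v := K.v)]
  clear e
  generalize n % 5 = u at b r ⊢
  rcases u with _ | _ | u
  · exact k 0 (by decide) (by split_ifs <;> decide)
  · exact k 2 (by decide) (by split_ifs <;> decide)
  rcases Nat.lt_or_ge (n / 5) 6 with x | x
  · have := k (3 + 2 * u) (by omega) (by rw [if_pos x]; omega)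
    rw [sy_X x (by omega), show bit (2 * u) = false by rw [← Bool.not_eq_true, bit_eq]; omega,
      show Nat.div (2 * u) 2 = u from Nat.mul_div_cancel_left u (by decide), xP, iff_f, Nat.add_eq] at this
    rwa [show u + 1 + 1 = 2 + u by omega]
  · have := k (u + 3) (by omega) (by split_ifs <;> omega)
    rwa [sy_var x _ (by omega)] at this

theorem res_s (V : Valid K) (p : Po) : ∀ a b : ℕ, res p a b = true → (b : ℝ) - a < ev K.v p := by
  induction p with
  | nil => exact fun a b e => by rw [ev_nil, sub_neg]; exact Nat.cast_lt.2 ((lt_eq _ _).1 e)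
  | cons g c m t ih =>
    intro a b e
    change iff (Nat.beq m 1) (iff g (res t a (b + c)) (res t (a + c) b)) (an (okP m) (res t a (b + 2 * c))) = true at e
    rw [ev_cons]
    obtain ⟨x, e⟩ | ⟨-, e⟩ := iff_s e
    · rw [Nat.eq_of_beq_eq_true x, V.hom.one]
      cases g <;> have := ih _ _ e <;> simp only [sg, cond_true, cond_false] <;> push_cast at this <;> linarith
    · obtain ⟨y, e⟩ := (an_eq _ _).1 e
      have := ih _ _ e
      have y := abs_le.1 (okP_s V y)
      have c0 : (0 : ℝ) ≤ c := Nat.cast_nonneg c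
      push_cast at this
      cases g <;> simp only [sg, cond_true, cond_false] <;> nlinarith

theorem chkLf_s {h : ℕ} (e : chkLf tb mem h = true) : Univ tb mem := univ_of fun K V N => by
  obtain ⟨n, h, e⟩ := dg_s e
  obtain ⟨P, a, e⟩ := rows_s V N n nil h le_rfl e
  have := res_s V P 0 0 e
  push_cast at this
  linarith

end

end Pool.Agent.P.MP_53fdf1_co.R.Ln
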