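import Pool.Agent.P.MP_53fdf1_co.RCSound

set_option autoImplicit false

namespace Pool.Agent.P.MP_53fdf1_co.Cut

open Q (frc andb orb ifb)

noncomputable section

def fd (n p m : ℕ) : ℕ := Nat.mod (Nat.shiftRight n p) m

def dL (f : ℕ) : ℕ → List ℕ := @Nat.rec (fun _ => ℕ → List ℕ) (fun _ => [])
  (fun _ ih n => frc (Nat.mod n (nat_lit 16777216)) fun v => frc (Nat.shiftRight n (nat_lit 24)) fun m => v :: ih m) f

def dM (f : ℕ) : ℕ → ML := @Nat.rec (fun _ => ℕ → ML) (fun _ => .nil)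
  (fun _ ih n => frc (fd n (nat_lit 1) (nat_lit 4194304)) fun y => frc (fd n (nat_lit 23) (nat_lit 67108864)) fun z =>
    frc (fd n (nat_lit 49) (nat_lit 128)) fun g => frc (Nat.shiftRight n (nat_lit 56)) fun m =>
    ifb (bit n (nat_lit 0)) (.mv y z g (ih m)) (.ab y z g (ih m))) f

def dF (f : ℕ) : ℕ → R.Po := @Nat.rec (fun _ => ℕ → R.Po) (fun _ => .nil)
  (fun _ ih n => ifb (Nat.beq n (nat_lit 0)) .nil <|
    frc (fd n (nat_lit 1) (nat_lit 8388608)) fun c => frc (Nat.mul (nat_lit 9) (fd n (nat_lit 24) (nat_lit 16))) fun w =>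
    frc (fd n (nat_lit 28) (Nat.shiftLeft (nat_lit 1) w)) fun m =>
    frc (Nat.shiftRight n (Nat.add (nat_lit 28) w)) fun r =>
    ifb (bit n (nat_lit 0)) (.cons true c m (ih r)) (.cons false c m (ih r))) f

/-- the hint with a given code -/
def decH (n : ℕ) : Hint := frc n fun n =>
  frc (Nat.mod n (nat_lit 67108864)) fun l => frc (fd n (nat_lit 27) (nat_lit 32)) fun p1 =>
  frc (fd n (nat_lit 32) (nat_lit 32)) fun p2 => frc (fd n (nat_lit 37) (nat_lit 16)) fun C1 =>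
  frc (fd n (nat_lit 41) (nat_lit 16)) fun C2 => frc (fd n (nat_lit 45) (nat_lit 67108864)) fun h1 =>
  frc (fd n (nat_lit 71) (nat_lit 67108864)) fun l1 => frc (fd n (nat_lit 97) (nat_lit 67108864)) fun h2 =>
  frc (fd n (nat_lit 123) (nat_lit 67108864)) fun l2 => frc (fd n (nat_lit 149) (nat_lit 64)) fun a =>
  frc (fd n (nat_lit 155) (nat_lit 64)) fun b => frc (Nat.shiftRight n (nat_lit 161)) fun r =>
  frc (Nat.shiftRight r (Nat.mul (nat_lit 24) a)) fun s => frc (Nat.shiftRight s (Nat.mul (nat_lit 56) b)) fun t =>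
  ifb (bit n (nat_lit 26)) ⟨l, dF (nat_lit 100) t, true, p1, p2, C1, C2, h1, l1, h2, l2, dL a r, dM b s⟩
    ⟨l, dF (nat_lit 100) t, false, p1, p2, C1, C2, h1, l1, h2, l2, dL a r, dM b s⟩

/-- the checker on coded hints -/
def chkN (tb : ℕ → R.Atom) (mem : ℕ → Bool) (n : ℕ) : Bool := chkCut tb mem (decH n)

theorem chkN_ok {tb : ℕ → R.Atom} {mem : ℕ → Bool} {n : ℕ} (h : chkN tb mem n = true) : R.Univ tb mem :=
  chkCut_ok h

end

end Pool.Agent.P.MP_53fdf1_co.Cut
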