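import Mathlib

set_option autoImplicit false

namespace Pool.Agent.P.MP_53fdf1_co.R

/-- sparse polynomials: sign, size of the coefficient, monomial coded by a product of primes -/
inductive Po : Type
  | nil : Po
  | cons : Bool → ℕ → ℕ → Po → Po

structure Hom (v : ℕ → ℝ) : Prop where
  one : v 1 = 1
  mul : ∀ m n, v (m * n) = v m * v n

noncomputable section

def hv (val : ℕ → ℝ) (m : ℕ) : ℝ := if m = 0 then 0 else m.factorization.prod fun p k => val p ^ k

theorem hv_hom (val : ℕ → ℝ) : Hom (hv val) := by
  refine ⟨by simp [hv], fun m n => ?_⟩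
  unfold hv
  by_cases hm : m = 0
  · simp [hm]
  by_cases hn : n = 0
  · simp [hn]
  rw [if_neg (mul_ne_zero hm hn), if_neg hm, if_neg hn, Nat.factorization_mul hm hn,
    Finsupp.prod_add_index' (fun _ => pow_zero _) fun _ _ _ => pow_add _ _ _]

theorem hv_prime (val : ℕ → ℝ) {p : ℕ} (h : p.Prime) : hv val p = val p := by
  rw [hv, if_neg h.ne_zero, h.factorization, Finsupp.prod_single_index (h := fun p k => val p ^ k) (pow_zero _), pow_one]

def frc {α : Type} (n : ℕ) (k : ℕ → α) : α := @Nat.rec (fun _ => α) (k n) (fun m _ => k m) (Nat.succ n)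

def iff {α : Type} (b : Bool) (x y : α) : α := @Bool.rec (fun _ => α) y x b

def frb {α : Type} (b : Bool) (k : Bool → α) : α := @Bool.rec (fun _ => α) (k false) (k true) b

def xr (a b : Bool) : Bool := @Bool.rec (fun _ => Bool) b (@Bool.rec (fun _ => Bool) true false b) a

def an (a b : Bool) : Bool := @Bool.rec (fun _ => Bool) false b a

def orr (a b : Bool) : Bool := @Bool.rec (fun _ => Bool) b true a

def lt (a b : ℕ) : Bool := Nat.ble (Nat.succ a) b

theorem frc_eq {α : Type} (n : ℕ) (k : ℕ → α) : frc n k = k n := rfl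

theorem frb_eq {α : Type} (b : Bool) (k : Bool → α) : frb b k = k b := by cases b <;> rfl

theorem iff_eq {α : Type} (b : Bool) (x y : α) : iff b x y = if b = true then x else y := by
  cases b <;> rfl

theorem iff_t {α : Type} (x y : α) : iff true x y = x := rfl

theorem iff_f {α : Type} (x y : α) : iff false x y = y := rfl

theorem an_eq (a b : Bool) : an a b = true ↔ a = true ∧ b = true := by cases a <;> cases b <;> simp [an]

theorem orr_eq (a b : Bool) : orr a b = true ↔ a = true ∨ b = true := by cases a <;> cases b <;> simp [orr]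

theorem lt_eq (a b : ℕ) : lt a b = true ↔ a < b := by simp [lt, Nat.ble_eq]

def sg (g : Bool) (x : ℝ) : ℝ := cond g (-x) x

theorem sg_xr (a b : Bool) (x y : ℝ) : sg (xr a b) (x * y) = sg a x * sg b y := by
  cases a <;> cases b <;> simp [sg, xr]

namespace Po

def ev (v : ℕ → ℝ) (p : Po) : ℝ := @Po.rec (fun _ => ℝ) 0 (fun g c m _ r => sg g c * v m + r) p

def frp {α : Type} (p : Po) : (Po → α) → α :=
  @Po.rec (fun _ => (Po → α) → α) (fun k => k nil)
    (fun g c m _ ih k => frb g fun g => frc c fun c => frc m fun m => ih fun t => k (cons g c m t)) p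

def add (p : Po) : Po → Po :=
  @Po.rec (fun _ => Po → Po) (fun q => q)
    (fun g c m t ih q => @Po.rec (fun _ => Po) (cons g c m t)
      (fun h d n u ih2 => iff (lt m n) (cons g c m (ih (cons h d n u)))
        (iff (lt n m) (cons h d n ih2)
          (iff (xr g h)
            (iff (lt c d) (cons h (Nat.sub d c) m (ih u)) (iff (lt d c) (cons g (Nat.sub c d) m (ih u)) (ih u)))
            (cons g (Nat.add c d) m (ih u))))) q) p

def mulT (g : Bool) (c m : ℕ) (p : Po) : Po :=
  @Po.rec (fun _ => Po) nil (fun h d n _ ih => cons (xr g h) (Nat.mul c d) (Nat.mul m n) ih) p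

def neg (p : Po) : Po := @Po.rec (fun _ => Po) nil (fun h d n _ ih => cons (xr true h) d n ih) p

def sub (p q : Po) : Po := add p (neg q)

def mul (p q : Po) : Po := @Po.rec (fun _ => Po) nil (fun g c m _ ih => add (mulT g c m q) ih) p

def keep (d : ℕ) (p : Po) : Po :=
  @Po.rec (fun _ => Po) nil (fun g c m _ ih => iff (Nat.beq (Nat.mod m d) 0) ih (cons g c m ih)) p

def quo (d : ℕ) (p : Po) : Po :=
  @Po.rec (fun _ => Po) nil (fun g c m _ ih => iff (Nat.beq (Nat.mod m d) 0) (cons g c (Nat.div m d) ih) ih) p

/-- replace `s * s` by `2 w - w * w` -/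
def red (s w : ℕ) (p : Po) : Po :=
  frp p fun p => frc (Nat.mul s s) fun d => frp (quo d p) fun q =>
    add (keep d p) (add (mulT false 2 w q) (mulT true 1 (Nat.mul w w) q))

def isZ (p : Po) : Bool := @Po.rec (fun _ => Bool) true (fun _ _ _ _ _ => false) p

def cst (g : Bool) (c : ℕ) : Po := cons g c 1 nil

def var (m : ℕ) : Po := cons false 1 m nil

variable {v : ℕ → ℝ}

theorem ev_nil : ev v nil = 0 := rfl

theorem ev_cons (g : Bool) (c m : ℕ) (t : Po) : ev v (cons g c m t) = sg g c * v m + ev v t := rfl

theorem frp_eq {α : Type} (p : Po) (k : Po → α) : frp p k = k p := by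
  induction p generalizing k with
  | nil => rfl
  | cons g c m t ih =>
    change frb g (fun g => frc c fun c => frc m fun m => frp t fun t => k (cons g c m t)) = _
    rw [frb_eq, frc_eq, frc_eq, ih]

theorem add_cons (g h : Bool) (c m d n : ℕ) (t u : Po) : add (cons g c m t) (cons h d n u) =
    iff (lt m n) (cons g c m (add t (cons h d n u))) (iff (lt n m) (cons h d n (add (cons g c m t) u))
      (iff (xr g h) (iff (lt c d) (cons h (d - c) m (add t u)) (iff (lt d c) (cons g (c - d) m (add t u)) (add t u)))
        (cons g (c + d) m (add t u)))) := rfl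

theorem ev_add (p q : Po) : ev v (add p q) = ev v p + ev v q := by
  induction p generalizing q with
  | nil => exact (zero_add _).symm
  | cons g c m t ih =>
    induction q with
    | nil => exact (add_zero _).symm
    | cons h d n u ih2 =>
      rw [add_cons]
      simp only [iff_eq, lt_eq]
      split_ifs with h1 h2 h3 h4 h5
      · simp only [ev_cons, ih]; ring
      · simp only [ev_cons, ih2]; ring
      · obtain rfl : m = n := by omega
        simp only [ev_cons, ih, Nat.cast_sub h4.le]
        revert h3; cases g <;> cases h <;> simp [xr, sg] <;> ring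
      · obtain rfl : m = n := by omega
        simp only [ev_cons, ih, Nat.cast_sub h5.le]
        revert h3; cases g <;> cases h <;> simp [xr, sg] <;> ring
      · obtain rfl : m = n := by omega
        obtain rfl : c = d := by omega
        simp only [ev_cons, ih]
        revert h3; cases g <;> cases h <;> simp [xr, sg] <;> ring
      · obtain rfl : m = n := by omega
        simp only [ev_cons, ih, Nat.cast_add]
        revert h3; cases g <;> cases h <;> simp [xr, sg] <;> ring

theorem ev_mulT (H : Hom v) (g : Bool) (c m : ℕ) (p : Po) : ev v (mulT g c m p) = sg g c * v m * ev v p := by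
  induction p with
  | nil => exact (mul_zero _).symm
  | cons h d n u ih =>
    change ev v (cons (xr g h) (c * d) (m * n) (mulT g c m u)) = _
    rw [ev_cons, ev_cons, ih, Nat.cast_mul, sg_xr, H.mul]; ring

theorem ev_neg (p : Po) : ev v (neg p) = -ev v p := by
  induction p with
  | nil => exact neg_zero.symm
  | cons h d n u ih =>
    change ev v (cons (xr true h) d n (neg u)) = _
    rw [ev_cons, ev_cons, ih]
    cases h <;> simp [xr, sg] <;> ring

theorem ev_sub (p q : Po) : ev v (sub p q) = ev v p - ev v q := by rw [sub, ev_add, ev_neg]; ring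

theorem ev_mul (H : Hom v) (p q : Po) : ev v (mul p q) = ev v p * ev v q := by
  induction p with
  | nil => exact (zero_mul _).symm
  | cons g c m t ih =>
    change ev v (add (mulT g c m q) (mul t q)) = _
    rw [ev_add, ev_mulT H, ih, ev_cons]; ring

theorem ev_split (H : Hom v) (d : ℕ) (p : Po) : ev v p = ev v (keep d p) + v d * ev v (quo d p) := by
  induction p with
  | nil => simp [keep, quo, ev]
  | cons g c m t ih =>
    change _ = ev v (iff (Nat.beq (m % d) 0) (keep d t) (cons g c m (keep d t))) +
      v d * ev v (iff (Nat.beq (m % d) 0) (cons g c (m / d) (quo d t)) (quo d t))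
    simp only [iff_eq, Nat.beq_eq]
    split_ifs with h
    · have e : v m = v d * v (m / d) := by
        rw [← H.mul, Nat.mul_div_cancel' (Nat.dvd_of_mod_eq_zero h)]
      rw [ev_cons, ev_cons, ih, e]; ring
    · rw [ev_cons, ev_cons, ih]; ring

theorem ev_red (H : Hom v) {s w : ℕ} (h : v s * v s = 2 * v w - v w * v w) (p : Po) :
    ev v (red s w p) = ev v p := by
  rw [red, frp_eq, frc_eq, frp_eq, ev_add, ev_add, ev_mulT H, ev_mulT H, ev_split H (s * s) p]
  change _ + (sg false (2 : ℕ) * v w * ev v (quo (s * s) p) + sg true (1 : ℕ) * v (w * w) * ev v (quo (s * s) p)) = _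
  rw [H.mul, H.mul, h]
  simp only [sg, cond_true, cond_false, Nat.cast_ofNat, Nat.cast_one]
  change ev v (keep (s * s) p) + _ = _
  ring

theorem ev_isZ {p : Po} (h : isZ p = true) : ev v p = 0 := by
  cases p
  · rfl
  · exact absurd h (by simp [isZ])

theorem ev_cst (H : Hom v) (g : Bool) (c : ℕ) : ev v (cst g c) = sg g c := by
  rw [cst, ev_cons, ev_nil, H.one]; ring

theorem ev_var (m : ℕ) : ev v (var m) = v m := by simp [var, ev_cons, ev_nil, sg]

end Po

end

end Pool.Agent.P.MP_53fdf1_co.R
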