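import Pool.Agent.P.MP_53fdf1_co.RGeo
import Pool.Agent.P.MP_53fdf1_co.RPoly

set_option autoImplicit false

namespace Pool.Agent.P.MP_53fdf1_co.R

open Po

noncomputable section

def PT : ℕ := 15639369047041135033250040926417715192077587681283747555624147535405537351739777478627524972322643727702071323441505484118925305907218523590023877080492069786262371987038010711152449797298391377496336985899975471988027602843149042040979131433799403717163005866114818763917025464290178907026861620886039238583415051367496257684804626155778406613884143856264399933213571388269357415844201630722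

/-- the prime that codes the free variable `r` of piece `i` -/
def pr (i r : ℕ) : ℕ := Nat.mod (Nat.shiftRight PT (Nat.mul 10 (Nat.add (Nat.mul 5 i) r))) 1024

def bit (n : ℕ) : Bool := Nat.beq (Nat.mod n 2) 1

def nt (b : Bool) : Bool := xr true b

def sP (i : ℕ) : Po := var (pr i 0)

def wP (i : ℕ) : Po := var (pr i 1)

def cP (i : ℕ) : Po := cons false 1 1 (cons true 1 (pr i 1) nil)

def xP (i j : ℕ) (b : Bool) : Po :=
  iff b (sub (sub (sP i) (wP i)) (var (pr i (Nat.add 2 j)))) (var (pr i (Nat.add 2 j)))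

/-- symbol `k` of piece `i` in the free variables -/
def symP (i k : ℕ) : Po :=
  iff (Nat.beq k 0) (sP i) (iff (Nat.beq k 1) (cP i) (iff (Nat.beq k 2) (wP i)
    (iff (lt i 6) (iff (lt k 9) (xP i (Nat.div (Nat.sub k 3) 2) (bit (Nat.sub k 3)))
      (sub (mul (wP i) (cP i)) (mul (xP i (Nat.div (Nat.sub k 9) 2) (bit (Nat.sub k 9))) (sP i))))
      (iff (lt k 5) (var (pr i (Nat.sub k 1)))
        (iff (lt k 6) (sub (cP i) (var (pr i 2))) (sub (sP i) (var (pr i 3))))))))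

def aN (φ : ℕ) : ℕ := Nat.mod φ 3

def bN (φ : ℕ) : ℕ := Nat.mod (Nat.add (Nat.add φ 1) (Nat.mod (Nat.div φ 3) 2)) 3

def fN (φ : ℕ) : ℕ := Nat.mod (Nat.add (Nat.add φ 2) (Nat.mul 2 (Nat.mod (Nat.div φ 3) 2))) 3

def vB (φ j : ℕ) : Bool := bit (Nat.shiftRight (Nat.div φ 6) j)

def vA (φ : ℕ) : Bool := vB φ (aN φ)

def vO (φ : ℕ) : Bool := vB φ (bN φ)

def vF (φ : ℕ) : Bool := vB φ (fN φ)

def ax (n : ℕ) : Fin 3 := ⟨n % 3, Nat.mod_lt _ (by decide)⟩

def nP (i : ℕ) (k : Bool) : Po := iff (lt i 18) (iff k (neg (sP i)) (cP i)) (iff k (sP i) (neg (cP i)))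

def mP (i : ℕ) (k : Bool) : Po := iff k (cP i) (sP i)

def pP (i φ : ℕ) (k : Bool) : Po :=
  iff (lt i 6) (iff k (neg (add (xP i (bN φ) (vO φ)) (cst false 1))) (neg (add (xP i (aN φ) (nt (vA φ))) (wP i))))
    (iff (lt i 18) (iff k (neg (var (pr i 3))) (var (pr i 2))) (iff k (var (pr i 3)) (neg (var (pr i 2)))))

/-- normal and end of the side with label `s` -/
def sK (i φ s : ℕ) : Bool :=
  iff (lt i 6) (Nat.beq (Nat.mod (Nat.add (Nat.add (fN φ) 1) (Nat.div s 2)) 3) (bN φ)) (bit (Nat.div s 2))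

def sE (i φ s : ℕ) : Bool :=
  iff (lt i 6) (iff (sK i φ s) (nt (xr (bit s) (vO φ))) (xr (bit s) (vA φ))) (bit s)

def bn (b : Bool) : ℕ := iff b 1 0

/-- the pieces that may carry the flag `φ` -/
def labC (φ : ℕ) : ℕ := Nat.add (Nat.mul 2 (fN φ)) (bn (vF φ))

def labE (φ : ℕ) : ℕ :=
  Nat.add (Nat.add 6 (Nat.mul 4 (aN φ)))
    (iff (lt (bN φ) (fN φ)) (Nat.add (bn (vO φ)) (Nat.mul 2 (bn (vF φ)))) (Nat.add (bn (vF φ)) (Nat.mul 2 (bn (vO φ)))))

def labV (φ : ℕ) : ℕ := Nat.add 18 (Nat.div φ 6)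

def okF (i φ : ℕ) : Bool :=
  orr (Nat.beq φ 48) (an (lt φ 48) (iff (lt i 6) (an (Nat.beq (labC φ) i) (an (vA φ) (nt (vO φ))))
    (iff (lt i 18) (Nat.beq (labE φ) i) (Nat.beq (labV φ) i))))

/-- flags (48 means absent) and the values of all monomials -/
structure Cfg where
  fl : ℕ → ℕ
  v : ℕ → ℝ

namespace Cfg

def sy (K : Cfg) (i k : ℕ) : ℝ := ev K.v (symP i k)

def bx (K : Cfg) (i φ : ℕ) : Bx :=
  ⟨ax (aN φ), ax (bN φ), ax (fN φ), vA φ, vO φ, vF φ, fun k => ev K.v (nP i k), fun k => ev K.v (mP i k),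
    fun k => ev K.v (pP i φ k)⟩

def sd (K : Cfg) (i φ s : ℕ) : P3 → ℝ := (K.bx i φ).sd (sK i φ s) (sE i φ s)

def pc (K : Cfg) (i : ℕ) : Bx := K.bx i (K.fl i)

/-- a variable of the logarithmic linear program, coded by `32 i + 2 k + sign` -/
def lp (K : Cfg) (n : ℕ) : ℝ :=
  max (sg (bit n) (K.sy (n / 32) (n / 2 % 16))) 0 / K.sy (n / 32) 1 ^ (if n / 2 % 16 < 9 then 1 else 2)

end Cfg

namespace Bx

def lu (B : Bx) (k : Bool) (x y : ℝ) : ℝ := B.n k * x + B.m k * y - B.p k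

def inO (B : Bx) (x y : ℝ) : Prop := ∀ k, 0 < B.lu k x y ∧ B.lu k x y < 1

def inC (B : Bx) (x y : ℝ) : Prop := ∀ k, 0 ≤ B.lu k x y ∧ B.lu k x y ≤ 1

def tch (B : Bx) : Prop := ∃ x y, (0 < x ∧ x < 1) ∧ (-1 < y ∧ y < 0) ∧ B.inO x y

def cx (B : Bx) (I J : ℝ) : ℝ := (B.p false + I) * B.n false + (B.p true + J) * B.n true

def cy (B : Bx) (I J : ℝ) : ℝ := (B.p false + I) * B.m false + (B.p true + J) * B.m true

def locE (B : Bx) : Prop := B.tch ∧ B.inC (1 / 2) (1 / 2) ∧ ¬ B.inO (1 / 2) (-1 / 2)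

def locV (B : Bx) : Prop :=
  B.tch ∧ ¬ B.inO (1 / 2) (-1 / 2) ∧ ¬ B.inO (1 / 2) (1 / 2) ∧ ¬ B.inO (-1 / 2) (-1 / 2) ∧
    B.cx 0 0 + B.cx 1 1 ≤ 1 ∧ -1 ≤ B.cy 0 0 + B.cy 1 1

end Bx

structure Valid (K : Cfg) : Prop where
  hom : Hom K.v
  tri : ∀ i < 26, 0 ≤ K.sy i 0 ∧ K.sy i 0 ≤ K.sy i 1 ∧ K.sy i 0 ^ 2 + K.sy i 1 ^ 2 = 1
  lab : ∀ i < 26, okF i (K.fl i) = true
  bC : ∀ i < 6, ∀ j < 3, ∀ b, ev K.v (xP i j b) < (K.sy i 0 + K.sy i 1) / 2
  lE : ∀ i, 6 ≤ i → i < 18 → (K.bx i 0).locE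
  lV : ∀ i, 18 ≤ i → i < 26 → (K.bx i 0).locV
  dis : ∀ i < 26, ∀ j < 26, i ≠ j → K.fl i < 48 → K.fl j < 48 → ∀ P, (K.pc i).op P → (K.pc j).op P → False

/-- product of the symbols listed in base 512, each coded by `16 i + k + 1` -/
def trm (fuel : ℕ) : ℕ → Po :=
  @Nat.rec (fun _ => ℕ → Po) (fun _ => cst false 1)
    (fun _ ih n => iff (Nat.beq n 0) (cst false 1)
      (frc (Nat.sub (Nat.mod n 512) 1) fun d => mul (symP (Nat.div d 16) (Nat.mod d 16)) (ih (Nat.div n 512)))) fuel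

/-- expansion of a list of terms in the free variables -/
def nrm (q : Po) : Po := @Po.rec (fun _ => Po) nil (fun g c m _ ih => add (mulT g c 1 (trm 16 m)) ih) q

inductive Atom : Type
  | flag : ℕ → ℕ → Atom
  | sep : ℕ → ℕ → ℕ → Atom
  | pos : ℕ → Atom
  | mono : List ℕ → List ℕ → Bool → ℕ → Bool → Atom
  | poly : Po → Atom

/-- coordinate `j` of a point of the grid of mesh `1 / 64`, shifted by 256 -/
def gq (n j : ℕ) : ℕ := Nat.mod (Nat.shiftRight n (Nat.add 3 (Nat.mul 10 j))) 1024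

def gP (n : ℕ) : P3 := fun j => ((gq n j : ℝ) - 256) / 64

/-- separation by a side, order of the shadows, or a grid point inside the square of `a` -/
def Sep (K : Cfg) (a b k : ℕ) : Prop :=
  K.fl a < 48 ∧ K.fl b < 48 ∧
    if k < 4 then ∀ P, (K.pc b).cl P → 0 ≤ K.sd a (K.fl a) k P
    else if k < 8 then ∀ P, (K.pc a).cl P → 0 ≤ K.sd b (K.fl b) (k - 4) P
    else if k < 14 then ∀ P Q, (K.pc a).sh (K.pc b) P → (K.pc b).sh (K.pc a) Q →
      0 ≤ sg (bit k) (Q (ax ((k - 8) / 2)) - P (ax ((k - 8) / 2)))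
    else labC (K.fl a) = k % 8 ∧ (K.pc a).fc (gP k)

def rel (st : Bool) (x y : ℝ) : Prop := cond st (x < y) (x ≤ y)

def Atom.sem (K : Cfg) : Atom → Prop
  | .flag i φ => K.fl i = φ
  | .sep a b k => Sep K a b k
  | .pos n => 0 < K.lp n
  | .mono p m g n st => rel st (p.map K.lp).prod ((2 : ℝ) ^ (sg g n / 64) * (m.map K.lp).prod)
  | .poly q => 0 < ev K.v (nrm q)

/-- literal `2 n` is atom `n`, literal `2 n + 1` its negation -/
def Lit (K : Cfg) (tb : ℕ → Atom) (l : ℕ) : Prop := if l % 2 = 0 then (tb (l / 2)).sem K else ¬ (tb (l / 2)).sem K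

/-- a clause, given by its membership test, that holds in every valid configuration -/
def Univ (tb : ℕ → Atom) (mem : ℕ → Bool) : Prop := ∀ K, Valid K → ∃ l, mem l = true ∧ Lit K tb l

/-- the codes of variables that have a static bound -/
def okL (n : ℕ) : Bool :=
  an (lt (Nat.div n 32) 26) (lt (Nat.mod (Nat.div n 2) 16) (iff (lt (Nat.div n 32) 6) 15 (iff (lt (Nat.div n 32) 18) 7 5)))

theorem nt_eq (b : Bool) : nt b = !b := by cases b <;> rfl

theorem xr_eq (a b : Bool) : xr a b = xor a b := by cases a <;> cases b <;> rfl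

theorem bit_eq (n : ℕ) : bit n = true ↔ n % 2 = 1 := Nat.beq_eq ▸ Iff.rfl

theorem bx_ok (K : Cfg) (i φ : ℕ) : (K.bx i φ).ok := by
  have a : aN φ = φ % 3 := rfl
  have b : bN φ = (φ + 1 + φ / 3 % 2) % 3 := rfl
  have f : fN φ = (φ + 2 + 2 * (φ / 3 % 2)) % 3 := rfl
  simp only [Bx.ok, Cfg.bx, ax, ne_eq, Fin.mk.injEq, a, b, f]
  omega

variable {K : Cfg}

theorem sy0 (i : ℕ) : K.sy i 0 = ev K.v (sP i) := rfl

theorem sy1 (i : ℕ) : K.sy i 1 = ev K.v (cP i) := rfl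

theorem sy2 (i : ℕ) : K.sy i 2 = ev K.v (wP i) := rfl

theorem ev_cP (H : Hom K.v) (i : ℕ) : K.sy i 2 = 1 - K.sy i 1 := by
  simp [sy1, sy2, cP, wP, ev_var, ev_cons, ev_nil, sg, H.one]

theorem ev_xP (i j : ℕ) (b : Bool) : ev K.v (xP i j (!b)) = K.sy i 0 - K.sy i 2 - ev K.v (xP i j b) := by
  cases b <;> simp [xP, iff_t, iff_f, ev_sub, sy0, sy2]

theorem Valid.cpos (V : Valid K) {i : ℕ} (h : i < 26) : 7 / 10 < K.sy i 1 ∧ K.sy i 1 ≤ 1 := by
  obtain ⟨a, b, c⟩ := V.tri i h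
  constructor <;> nlinarith

theorem Valid.red (V : Valid K) {i : ℕ} (h : i < 26) (p : Po) : ev K.v (red (pr i 0) (pr i 1) p) = ev K.v p := by
  refine ev_red V.hom ?_ p
  have a := (V.tri i h).2.2
  have b := ev_cP V.hom i
  simp only [sy0, sy2, sP, wP, ev_var] at a b
  rw [b]
  linear_combination a

theorem Valid.lp_pos (V : Valid K) {n : ℕ} (h : n / 32 < 26) :
    0 < K.lp n ↔ 0 < sg (bit n) (K.sy (n / 32) (n / 2 % 16)) := by
  have c : 0 < K.sy (n / 32) 1 := by linarith [(V.cpos h).1]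
  rw [Cfg.lp, div_pos_iff_of_pos_right (pow_pos c _), lt_max_iff]
  simp

theorem Valid.lp_nonneg (V : Valid K) {n : ℕ} (h : n / 32 < 26) : 0 ≤ K.lp n :=
  div_nonneg (le_max_right _ _) (pow_nonneg (by linarith [(V.cpos h).1]) _)

/-- the explicit normals -/
theorem nm_lt {i : ℕ} (h : i < 18) (φ : ℕ) : (K.bx i φ).n false = K.sy i 1 ∧ (K.bx i φ).n true = -K.sy i 0 := by
  simp only [Cfg.bx, nP, (lt_eq _ _).2 h, iff_t, iff_f, ev_neg, sy0, sy1, and_self]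

theorem nm_ge {i : ℕ} (h : 18 ≤ i) (φ : ℕ) : (K.bx i φ).n false = -K.sy i 1 ∧ (K.bx i φ).n true = K.sy i 0 := by
  have : lt i 18 = false := by rw [← Bool.not_eq_true, lt_eq]; omega
  simp only [Cfg.bx, nP, this, iff_t, iff_f, ev_neg, sy0, sy1, and_self]

theorem nm_m (i φ : ℕ) : (K.bx i φ).m false = K.sy i 0 ∧ (K.bx i φ).m true = K.sy i 1 := ⟨rfl, rfl⟩

theorem bx_ge {i : ℕ} (h : 6 ≤ i) (φ : ℕ) : (K.bx i φ).p = (K.bx i 0).p := by
  have : lt i 6 = false := by rw [← Bool.not_eq_true, lt_eq]; omega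
  simp only [Cfg.bx, pP, this, iff_f]

theorem p_E {i : ℕ} (h : 6 ≤ i) (h' : i < 18) (φ : ℕ) :
    (K.bx i φ).p false = K.sy i 3 ∧ (K.bx i φ).p true = -K.sy i 4 := by
  have : lt i 6 = false := by rw [← Bool.not_eq_true, lt_eq]; omega
  simp only [Cfg.bx, Cfg.sy, symP, pP, this, (lt_eq _ _).2 h', iff_f, iff_t, ev_neg]
  exact ⟨rfl, rfl⟩

theorem p_V {i : ℕ} (h : 18 ≤ i) (φ : ℕ) :
    (K.bx i φ).p false = -K.sy i 3 ∧ (K.bx i φ).p true = K.sy i 4 := by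
  have : lt i 6 = false := by rw [← Bool.not_eq_true, lt_eq]; omega
  have : lt i 18 = false := by rw [← Bool.not_eq_true, lt_eq]; omega
  simp only [Cfg.bx, Cfg.sy, symP, pP, *, iff_f, iff_t, ev_neg]
  exact ⟨rfl, rfl⟩

theorem p_C (H : Hom K.v) {i : ℕ} (h : i < 6) (φ : ℕ) :
    (K.bx i φ).p false = -(ev K.v (xP i (aN φ) (!vA φ)) + K.sy i 2) ∧
      (K.bx i φ).p true = -(ev K.v (xP i (bN φ) (vO φ)) + 1) := by
  simp [Cfg.bx, pP, (lt_eq _ _).2 h, iff_f, iff_t, ev_neg, ev_add, ev_cst H, nt_eq, sy2, sg]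

theorem Valid.xlo (V : Valid K) {i j : ℕ} (h : i < 6) (hj : j < 3) (b : Bool) :
    (K.sy i 0 + K.sy i 1) / 2 - 1 < ev K.v (xP i j b) := by
  have a := V.bC i h j hj (!b)
  rw [ev_xP, ev_cP V.hom] at a
  linarith

theorem aN_lt (φ : ℕ) : aN φ < 3 := Nat.mod_lt _ (by decide)

theorem bN_lt (φ : ℕ) : bN φ < 3 := Nat.mod_lt _ (by decide)

theorem fN_lt (φ : ℕ) : fN φ < 3 := Nat.mod_lt _ (by decide)

theorem Valid.lC (V : Valid K) {i : ℕ} (h : i < 6) (φ : ℕ) : (K.bx i φ).inO (1 / 2) (-1 / 2) := by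
  obtain ⟨n0, n1⟩ := nm_lt (K := K) (show i < 18 by omega) φ
  obtain ⟨m0, m1⟩ := nm_m (K := K) i φ
  obtain ⟨p0, p1⟩ := p_C V.hom h φ
  have w := ev_cP V.hom i
  have a := V.bC i h _ (aN_lt φ) (!vA φ)
  have a' := V.xlo h (aN_lt φ) (!vA φ)
  have b := V.bC i h _ (bN_lt φ) (vO φ)
  have b' := V.xlo h (bN_lt φ) (vO φ)
  intro k
  cases k <;> simp only [Bx.lu, n0, n1, m0, m1, p0, p1] <;> constructor <;> linarith

theorem Valid.bE (V : Valid K) {i : ℕ} (h : 6 ≤ i) (h' : i < 18) :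
    |K.sy i 3| ≤ K.sy i 1 ∧ 0 < K.sy i 4 ∧ K.sy i 4 ≤ 1 := by
  obtain ⟨n0, n1⟩ := nm_lt (K := K) h' 0
  obtain ⟨m0, m1⟩ := nm_m (K := K) i 0
  obtain ⟨p0, p1⟩ := p_E (K := K) h h' 0
  obtain ⟨⟨x, y, ⟨x0, -⟩, ⟨-, y0⟩, t⟩, c, -⟩ := V.lE i h h'
  obtain ⟨s0, sc, tr⟩ := V.tri i (by omega)
  obtain ⟨c0, c1⟩ := V.cpos (show i < 26 by omega)
  have t := (t true).1
  have a := c false
  have b := (c true).2
  simp only [Bx.lu, n0, n1, m0, m1, p0, p1] at t a b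
  refine ⟨abs_le.2 ⟨by linarith [a.2], by linarith [a.1]⟩, ?_, by linarith⟩
  nlinarith [mul_nonneg s0 x0.le, mul_pos (show 0 < K.sy i 1 by linarith) (neg_pos.2 y0)]

theorem Valid.bV (V : Valid K) {i : ℕ} (h : 18 ≤ i) (h' : i < 26) :
    (0 < K.sy i 3 ∧ K.sy i 3 ≤ 2 * K.sy i 1) ∧ |K.sy i 4| ≤ 2 * K.sy i 1 := by
  obtain ⟨n0, n1⟩ := nm_ge (K := K) h 0
  obtain ⟨m0, m1⟩ := nm_m (K := K) i 0
  obtain ⟨p0, p1⟩ := p_V (K := K) h 0
  obtain ⟨⟨x, y, ⟨x0, x1⟩, ⟨-, y0⟩, t⟩, -, -, -, a, b⟩ := V.lV i h h'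
  obtain ⟨s0, sc, tr⟩ := V.tri i h'
  obtain ⟨c0, c1⟩ := V.cpos h'
  obtain ⟨t0, t1⟩ := t false
  obtain ⟨t2, t3⟩ := t true
  simp only [Bx.lu, Bx.cx, Bx.cy, n0, n1, m0, m1, p0, p1] at t0 t1 t2 t3 a b
  generalize K.sy i 0 = s at *
  generalize K.sy i 1 = c at *
  generalize K.sy i 3 = G at *
  generalize K.sy i 4 = L at *
  have cp : 0 < c := by linarith
  have a1 := mul_le_mul_of_nonneg_left a cp.le
  have a2 := mul_le_mul_of_nonneg_left b s0
  have a3 := mul_le_mul_of_nonneg_left b cp.le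
  have e1 : x = c * (c * x - s * y) + s * (s * x + c * y) := by linear_combination (-x) * tr
  have x2 : -(c + s) ≤ (2 * G - 1) * c + (2 * L + 1) * s := by
    nlinarith [mul_pos cp t0, mul_nonneg s0 (sub_nonneg.2 t3.le)]
  have x3 := mul_le_mul_of_nonneg_left x2 s0
  have g1 : 2 * G - 1 ≤ c + s := by
    have : 2 * G - 1 = (2 * G - 1) * (s ^ 2 + c ^ 2) := by rw [tr, mul_one]
    nlinarith
  have g2 : -(s * (c + s)) - c ≤ 2 * L + 1 := by
    have : 2 * L + 1 = (2 * L + 1) * (s ^ 2 + c ^ 2) := by rw [tr, mul_one]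
    nlinarith
  refine ⟨⟨?_, by linarith⟩, abs_le.2 ⟨?_, ?_⟩⟩
  · nlinarith [mul_pos cp x0, mul_nonneg s0 (neg_pos.2 y0).le]
  · nlinarith [mul_le_mul_of_nonneg_right sc cp.le]
  · nlinarith [mul_le_mul_of_nonneg_left x1.le s0, mul_pos cp (neg_pos.2 y0)]

theorem sy_56 {i : ℕ} (h : 6 ≤ i) : K.sy i 5 = K.sy i 1 - K.sy i 3 ∧ K.sy i 6 = K.sy i 0 - K.sy i 4 := by
  have : lt i 6 = false := by rw [← Bool.not_eq_true, lt_eq]; omega
  simp only [Cfg.sy, symP, this, iff_f]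
  exact ⟨ev_sub (cP i) (var (pr i 2)), ev_sub (sP i) (var (pr i 3))⟩

theorem Valid.sy_le (V : Valid K) {i k : ℕ} (h : i < 26) (hk : k < if i < 6 then 15 else if i < 18 then 7 else 5) :
    |K.sy i k| ≤ 2 * K.sy i 1 ^ (if k < 9 then 1 else 2) := by
  obtain ⟨s0, sc, tr⟩ := V.tri i h
  obtain ⟨c0, c1⟩ := V.cpos h
  have w := ev_cP V.hom i
  rcases Nat.lt_or_ge k 3 with k3 | k3
  · rw [if_pos (by omega), pow_one, abs_le]
    interval_cases k <;> constructor <;> linarith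
  have e0 : Nat.beq k 0 = false := by rw [← Bool.not_eq_true, Nat.beq_eq]; omega
  have e1 : Nat.beq k 1 = false := by rw [← Bool.not_eq_true, Nat.beq_eq]; omega
  have e2 : Nat.beq k 2 = false := by rw [← Bool.not_eq_true, Nat.beq_eq]; omega
  by_cases i6 : i < 6
  · rw [if_pos i6] at hk
    have xb : ∀ j < 3, ∀ b, |ev K.v (xP i j b)| ≤ K.sy i 1 := fun j hj b =>
      abs_le.2 ⟨by linarith [V.xlo i6 hj b], by linarith [V.bC i i6 j hj b]⟩
    split_ifs with k9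
    · have := xb ((k - 3) / 2) (by omega) (bit (k - 3))
      have e : K.sy i k = ev K.v (xP i ((k - 3) / 2) (bit (k - 3))) := by
        simp only [Cfg.sy, symP, e0, e1, e2, iff_f, (lt_eq _ _).2 i6, (lt_eq _ _).2 k9, iff_t]; rfl
      rw [e, pow_one]; linarith
    · have := abs_le.1 (xb ((k - 9) / 2) (by omega) (bit (k - 9)))
      have e9 : lt k 9 = false := by rw [← Bool.not_eq_true, lt_eq]; omega
      have e : K.sy i k = K.sy i 2 * K.sy i 1 - ev K.v (xP i ((k - 9) / 2) (bit (k - 9))) * K.sy i 0 := by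
        simp only [Cfg.sy, symP, e0, e1, e2, e9, iff_f, (lt_eq _ _).2 i6, iff_t, ev_sub, ev_mul V.hom]; rfl
      rw [e, w, abs_le]
      constructor <;> nlinarith [mul_le_mul_of_nonneg_right this.1 s0, mul_le_mul_of_nonneg_right this.2 s0]
  · rw [if_neg i6] at hk
    rw [if_pos (by split_ifs at hk <;> omega), pow_one]
    split_ifs at hk with i18
    · obtain ⟨a, b, c⟩ := V.bE (by omega) i18
      obtain ⟨x, y⟩ := sy_56 (K := K) (show 6 ≤ i by omega)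
      have := abs_le.1 a
      interval_cases k
      · linarith
      · rw [abs_of_pos b]; linarith
      all_goals rw [abs_le]; constructor <;> linarith
    · obtain ⟨⟨a, b⟩, c⟩ := V.bV (by omega) h
      interval_cases k
      · rw [abs_of_pos a]; exact b
      · exact c

/-- static bound of every variable -/
theorem Valid.lp_le (V : Valid K) {n : ℕ} (h : okL n = true) : K.lp n ≤ 2 := by
  simp only [okL, an_eq, lt_eq, iff_eq] at h
  change n / 32 < 26 ∧ n / 2 % 16 < if n / 32 < 6 then 15 else if n / 32 < 18 then 7 else 5 at h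
  have c : 0 < K.sy (n / 32) 1 := by linarith [(V.cpos h.1).1]
  have b := V.sy_le h.1 h.2
  rw [Cfg.lp, div_le_iff₀ (pow_pos c _)]
  refine max_le (le_trans ?_ b) (by positivity)
  change sg _ (K.sy (n / 32) (n / 2 % 16)) ≤ |K.sy (n / 32) (n / 2 % 16)|
  cases bit n
  · exact le_abs_self _
  · exact neg_le_abs _

/-- the variable `32 i` is the tangent -/
theorem Valid.lp_tan (V : Valid K) {i : ℕ} (h : i < 26) : K.lp (32 * i) = K.sy i 0 / K.sy i 1 := by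
  have b : bit (32 * i) = false := by rw [← Bool.not_eq_true, bit_eq]; omega
  rw [Cfg.lp, b, show 32 * i / 32 = i by omega, show 32 * i / 2 % 16 = 0 by omega]
  simp [sg, (V.tri i h).1]

theorem Valid.tan_le (V : Valid K) {i : ℕ} (h : i < 26) : K.lp (32 * i) ≤ 1 := by
  rw [V.lp_tan h, div_le_one (by linarith [(V.cpos h).1])]
  exact (V.tri i h).2.1

end

end Pool.Agent.P.MP_53fdf1_co.R
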