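import Pool.Agent.P.MP_53fdf1_co.QChk
import Pool.Agent.P.MP_53fdf1_co.RCTab
import Pool.Agent.P.MP_53fdf1_co.RCfg

set_option autoImplicit false

namespace Pool.Agent.P.MP_53fdf1_co.Cut

open Q (frc andb orb ifb)

/-- product with a factor of scale `2 ^ 48`, rounded up -/
def mU (a b : ℕ) : ℕ := Nat.shiftRight (Nat.add (Nat.mul a b) (nat_lit 281474976710655)) (nat_lit 48)

/-- product with a factor of scale `2 ^ 48`, rounded down -/
def mD (a b : ℕ) : ℕ := Nat.shiftRight (Nat.mul a b) (nat_lit 48)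

def row (T j : ℕ) : ℕ := Nat.mod (Nat.shiftRight T (Nat.mul (nat_lit 50) j)) (nat_lit 1125899906842624)

/-- upper bound of `2 ^ 48 * 2 ^ ((m - 4096) / 64)` -/
noncomputable def kU (m : ℕ) : ℕ := frc m fun m =>
  Nat.shiftRight (Nat.add (Nat.shiftLeft (row tU (Nat.mod m (nat_lit 64))) (Nat.div m (nat_lit 64)))
    (nat_lit 18446744073709551615)) (nat_lit 64)

/-- lower bound of the same number -/
noncomputable def kD (m : ℕ) : ℕ := frc m fun m =>
  Nat.shiftRight (Nat.shiftLeft (row tD (Nat.mod m (nat_lit 64))) (Nat.div m (nat_lit 64))) (nat_lit 64)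

noncomputable def pwU (n a b : ℕ) : ℕ := @Nat.rec (fun _ => ℕ) a (fun _ r => mU r b) n

noncomputable def pwD (n a b : ℕ) : ℕ := @Nat.rec (fun _ => ℕ) a (fun _ r => mD r b) n

/-- bounds for the trigonometric quantities of one piece -/
structure Pc where
  (th cl cu il iu sl sh wl wh ds : ℕ)

def dU (a b : ℕ) : ℕ := Nat.div (Nat.add a (Nat.pred b)) b

noncomputable def slo (tl il : ℕ) : ℕ :=
  ifb (Nat.beq il (nat_lit 640)) (Nat.pred (Nat.sub tl (Nat.shiftRight tl (nat_lit 20)))) (row tSL il)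

noncomputable def mkP (box : Bool) (th ih tl il : ℕ) (k : Pc → Bool) : Bool :=
  frc (row tCL ih) fun cl => frc (row tCU il) fun cu =>
  frc (Nat.add (nat_lit 79228162514264337593543950336) (Nat.mul th th)) fun D =>
  frc (Nat.add (nat_lit 79228162514264337593543950336) (Nat.mul tl tl)) fun E =>
  andb (Nat.ble (nat_lit 1) cl) <|
  andb (Nat.ble (Nat.mul (Nat.mul cl cl) D) (nat_lit 6277101735386680763835789423207666416102355444464034512896)) <|
  andb (Nat.ble (nat_lit 6277101735386680763835789423207666416102355444464034512896) (Nat.mul (Nat.mul cu cu) E)) <|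
  frc (Nat.div (nat_lit 79228162514264337593543950336) cu) fun i0 =>
  frc (dU (nat_lit 79228162514264337593543950336) cl) fun i1 =>
  ifb box
    (frc (row tSH ih) fun sh => frc (slo tl il) fun sl =>
      andb (Nat.ble (Nat.mul (Nat.mul th th) (nat_lit 79228162514264337593543950336)) (Nat.mul (Nat.mul sh sh) D)) <|
      andb (Nat.ble (Nat.mul (Nat.mul sl sl) E) (Nat.mul (Nat.mul tl tl) (nat_lit 79228162514264337593543950336))) <|
      frc (Nat.sub (nat_lit 281474976710656) cu) fun wl => frc (Nat.sub (nat_lit 281474976710656) cl) fun wh =>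
      k ⟨th, cl, cu, i0, i1, sl, sh, wl, wh, nat_lit 0⟩)
    (frc (Nat.div (nat_lit 79228162514264337593543950336) (Nat.add (nat_lit 281474976710656) cu)) fun wl =>
      frc (dU (nat_lit 79228162514264337593543950336) (Nat.add (nat_lit 281474976710656) cl)) fun wh =>
      k ⟨th, cl, cu, i0, i1, nat_lit 281474976710656, nat_lit 281474976710656, wl, wh, nat_lit 1⟩)

/-- power of the cosine in the normalisation of an offset -/
noncomputable def dg (j : ℕ) : ℕ := ifb (Nat.ble (nat_lit 9) j) (nat_lit 2) (nat_lit 1)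

/-- one symbol of a term -/
noncomputable def sy (P : Pc) (j z u d a e o : ℕ) (k : ℕ → ℕ → ℕ → ℕ → ℕ → Bool) : Bool :=
  ifb (Nat.beq j (nat_lit 0)) (k (mU u P.sh) (mD d P.sl) (Nat.add a P.ds) (Nat.add e P.ds) o) <|
  ifb (Nat.beq j (nat_lit 1)) (k u d a (Nat.succ e) o) <|
  ifb (Nat.beq j (nat_lit 2))
    (k (mU u P.wh) (mD d P.wl) (Nat.add (Nat.add a P.ds) P.ds) (Nat.add (Nat.add e P.ds) P.ds) o)
    (andb (Nat.beq o (nat_lit 0)) (k u d a (Nat.add e (dg j)) (Nat.succ z)))

/-- the powers of the cosine -/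
noncomputable def cp (P : Pc) (e C u d : ℕ) (k : ℕ → ℕ → Bool) : Bool :=
  frc e fun e => ifb (Nat.ble C e)
    (frc (Nat.sub e C) fun n => k (pwU n u P.cu) (pwD n d P.cl))
    (frc (Nat.sub C e) fun n => k (pwU n u P.iu) (pwD n d P.il))

/-- a list of signed multiples of monomials -/
inductive EL where
  | nil : EL
  | cons : ℕ → Bool → ℕ → EL → EL

/-- the data fixed for one clause -/
structure Cx where
  (p1 p2 C1 C2 pm zm : ℕ) (P1 P2 : Pc)

def bit (m v : ℕ) : Bool := Nat.beq (Nat.mod (Nat.shiftRight m v) (nat_lit 2)) (nat_lit 1)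

noncomputable def tm (X : Cx) (k : ℕ → ℕ → ℕ → ℕ → ℕ → ℕ → ℕ → Bool) (fuel : ℕ) :
    ℕ → ℕ → ℕ → ℕ → ℕ → ℕ → ℕ → ℕ → Bool :=
  @Nat.rec (fun _ => ℕ → ℕ → ℕ → ℕ → ℕ → ℕ → ℕ → ℕ → Bool) (fun _ => k)
    (fun _ ih n u d a1 a2 e1 e2 o => ifb (Nat.beq n (nat_lit 0)) (k u d a1 a2 e1 e2 o) <|
      frc (Nat.sub (Nat.mod n (nat_lit 512)) (nat_lit 1)) fun z => frc (Nat.div n (nat_lit 512)) fun n =>
      frc (Nat.div z (nat_lit 16)) fun p => frc (Nat.mod z (nat_lit 16)) fun j =>
      ifb (Nat.beq p X.p1) (sy X.P1 j z u d a1 e1 o fun u d a e o => ih n u d a a2 e e2 o) <|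
      ifb (Nat.beq p X.p2) (sy X.P2 j z u d a2 e2 o fun u d a e o => ih n u d a1 a e1 e o) false) fuel

noncomputable def put (zm v y : ℕ) (sg : Bool) (u d : ℕ) (r : EL) (k : EL → Bool) : Bool :=
  frc v fun v => ifb (bit zm v) (k r)
    (frc (Nat.add (Nat.mul (Nat.succ v) (nat_lit 4096)) y) fun x => frc (ifb sg u d) fun a => k (.cons x sg a r))

noncomputable def zt (X : Cx) (a1 a2 : ℕ) : Bool :=
  orb (andb (Nat.ble (nat_lit 1) a1) (bit X.zm (Nat.mul (nat_lit 32) X.p1)))
    (andb (Nat.ble (nat_lit 1) a2) (bit X.zm (Nat.mul (nat_lit 32) X.p2)))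

noncomputable def nb (a : Bool) : Bool := ifb a false true

noncomputable def emit (X : Cx) (sg : Bool) (r : EL) (k : EL → Bool) (u d a1 a2 e1 e2 o : ℕ) : Bool :=
  frc a1 fun a1 => frc a2 fun a2 => ifb (zt X a1 a2) (k r) <|
  andb (Nat.ble a1 (nat_lit 63)) <| andb (Nat.ble a2 (nat_lit 63)) <|
  cp X.P1 e1 X.C1 u d fun u d => cp X.P2 e2 X.C2 u d fun u d =>
  frc (Nat.add (Nat.mul a1 (nat_lit 64)) a2) fun y =>
  @Nat.rec (fun _ => Bool) (frc (ifb sg u d) fun a => k (.cons y sg a r))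
    (fun z _ => put X.zm (Nat.mul (nat_lit 2) z) y sg u d r fun r =>
      put X.zm (Nat.succ (Nat.mul (nat_lit 2) z)) y (nb sg) u d r k) o

noncomputable def t1 (X : Cx) (sg : Bool) (n m : ℕ) (r : EL) (k : EL → Bool) : Bool :=
  frc (Nat.shiftLeft n (nat_lit 96)) fun u =>
  tm X (emit X sg r k) (nat_lit 16) m u u (nat_lit 0) (nat_lit 0) (nat_lit 0) (nat_lit 0) (nat_lit 0)

/-- from the terms to the list of monomials; `ng` says that the form is negated -/
noncomputable def ph (X : Cx) (ng : Bool) (k : EL → Bool) (l : R.Po) : EL → Bool :=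
  @R.Po.rec (fun _ => EL → Bool) k
    (fun g c m _ ih r => ifb (R.xr g ng) (t1 X false c m r ih) (t1 X true c m r ih)) l

noncomputable def ext (y : ℕ) (k : ℕ → ℕ → EL → Bool) (l : EL) : ℕ → ℕ → EL → Bool :=
  @EL.rec (fun _ => ℕ → ℕ → EL → Bool) k
    (fun x sg a _ ih P N r => ifb (Nat.beq x y) (ifb sg (ih (Nat.add P a) N r) (ih P (Nat.add N a) r))
      (ih P N (.cons x sg a r))) l

noncomputable def ex (y : ℕ) (l : EL) (k : ℕ → ℕ → EL → Bool) : Bool :=
  ext y (fun P N r => frc P fun P => frc N fun N => k P N r) l (nat_lit 0) (nat_lit 0) .nil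

noncomputable def prs (X : Cx) (k : ℕ → ℕ → ℕ → Bool) (l : List ℕ) : ℕ → ℕ → ℕ → Bool :=
  @List.rec ℕ (fun _ => ℕ → ℕ → ℕ → Bool) k
    (fun x _ ih v a1 a2 => ifb (Nat.beq x (Nat.mul (nat_lit 32) X.p1)) (ih v (Nat.succ a1) a2) <|
      ifb (Nat.beq x (Nat.mul (nat_lit 32) X.p2)) (ih v a1 (Nat.succ a2))
        (andb (Nat.beq v (nat_lit 0)) (andb (Nat.ble x (nat_lit 831)) (ih (Nat.succ x) a1 a2)))) l

noncomputable def pos (X : Cx) (v a1 a2 : ℕ) : Bool :=
  andb (@Nat.rec (fun _ => Bool) true (fun x _ => bit X.pm x) v) <|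
  andb (orb (Nat.beq a1 (nat_lit 0)) (bit X.pm (Nat.mul (nat_lit 32) X.p1)))
    (orb (Nat.beq a2 (nat_lit 0)) (bit X.pm (Nat.mul (nat_lit 32) X.p2)))

/-- the monomial `y` is `N * U ^ g`; the continuation gets the key of `N * V ^ g` and the test `0 < N` -/
noncomputable def rew (X : Cx) (y g : ℕ) (U V : List ℕ) (k : ℕ → Bool → Bool) : Bool :=
  prs X (fun vU u1 u2 => prs X (fun vV w1 w2 =>
    frc (Nat.div y (nat_lit 4096)) fun v =>
    frc (Nat.mod (Nat.div y (nat_lit 64)) (nat_lit 64)) fun a1 => frc (Nat.mod y (nat_lit 64)) fun a2 =>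
    frc (Nat.mul g u1) fun u1 => frc (Nat.mul g u2) fun u2 =>
    andb (Nat.ble u1 a1) <| andb (Nat.ble u2 a2) <|
    frc (Nat.add (Nat.sub a1 u1) (Nat.mul g w1)) fun b1 => frc (Nat.add (Nat.sub a2 u2) (Nat.mul g w2)) fun b2 =>
    andb (Nat.ble b1 (nat_lit 63)) <| andb (Nat.ble b2 (nat_lit 63)) <|
    ifb (andb (Nat.beq vU v) (Nat.beq g (nat_lit 1)))
      (frc (Nat.add (Nat.mul vV (nat_lit 4096)) (Nat.add (Nat.mul b1 (nat_lit 64)) b2)) fun x =>
        k x (pos X (nat_lit 0) (Nat.sub a1 u1) (Nat.sub a2 u2)))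
      (andb (Nat.beq (Nat.add vU vV) (nat_lit 0)) <|
        frc (Nat.add (Nat.mul v (nat_lit 4096)) (Nat.add (Nat.mul b1 (nat_lit 64)) b2)) fun x =>
        k x (pos X v (Nat.sub a1 u1) (Nat.sub a2 u2))))
    V (nat_lit 0) (nat_lit 0) (nat_lit 0)) U (nat_lit 0) (nat_lit 0) (nat_lit 0)

/-- the moves -/
inductive ML where
  | nil : ML
  | ab : ℕ → ℕ → ℕ → ML → ML
  | mv : ℕ → ℕ → ℕ → ML → ML

/-- a source of facts `prod A ≤ κ ^ (mp - mn) * prod B`, strict or not -/
abbrev Fc : Type := ℕ → (List ℕ → List ℕ → ℕ → ℕ → Bool → Bool) → Bool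

noncomputable def mab (X : Cx) (y d1 d2 : ℕ) (l : EL) (k : EL → Bool) : Bool :=
  ex y l fun P N r =>
    andb (Nat.ble d1 (Nat.mod (Nat.div y (nat_lit 64)) (nat_lit 64))) <|
    andb (Nat.ble d2 (Nat.mod y (nat_lit 64))) <|
    frc (Nat.sub y (Nat.add (Nat.mul d1 (nat_lit 64)) d2)) fun x =>
    frc (pwU d2 (pwU d1 (Nat.sub P N) X.P1.th) X.P2.th) fun a => k (.cons x true a r)

noncomputable def mmv (X : Cx) (fc : Fc) (y z g : ℕ) (st : Bool) (l : EL) (k : Bool → EL → Bool) : Bool :=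
  ex y l fun P N r => fc z fun A B mp mn s =>
    frc (Nat.mul g mp) fun mp => frc (Nat.mul g mn) fun mn =>
    ifb (Nat.ble N P)
      (rew X y g A B fun x ps =>
        frc (mU (Nat.sub P N) (kU (Nat.sub (Nat.add mp (nat_lit 4096)) mn))) fun a =>
        ifb (orb st (andb s (andb (Nat.ble (Nat.succ N) P) (andb (Nat.ble (nat_lit 1) g) ps))))
          (k true (.cons x true a r)) (k false (.cons x true a r)))
      (andb (Nat.ble mp (Nat.add mn (nat_lit 4096))) <| rew X y g B A fun x _ =>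
        frc (mD (Nat.sub N P) (kD (Nat.sub (Nat.add mn (nat_lit 4096)) mp))) fun a => k st (.cons x false a r))

noncomputable def fin (X : Cx) (n : ℕ) : Bool → EL → Bool :=
  @Nat.rec (fun _ => Bool → EL → Bool) (fun _ _ => false)
    (fun _ ih st l => @EL.rec (fun _ => Bool) st (fun y _ _ _ _ => ex y l fun P N r =>
      andb (Nat.ble P N) <|
      ifb (orb st (andb (Nat.ble (Nat.succ P) N) (pos X (Nat.div y (nat_lit 4096))
        (Nat.mod (Nat.div y (nat_lit 64)) (nat_lit 64)) (Nat.mod y (nat_lit 64))))) (ih true r) (ih false r)) l) n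

noncomputable def mvs (X : Cx) (fc : Fc) (m : ML) : Bool → EL → Bool :=
  @ML.rec (fun _ => Bool → EL → Bool) (fin X (nat_lit 200))
    (fun y d1 d2 _ ih st l => mab X y d1 d2 l (ih st))
    (fun y z g _ ih st l => mmv X fc y z g st l ih) m

noncomputable def one (t : ℕ) (A B : List ℕ) : Bool :=
  @List.rec ℕ (fun _ => Bool)
    (@List.rec ℕ (fun _ => Bool) false
      (fun x r _ => andb (Nat.beq x t) (@List.rec ℕ (fun _ => Bool) true (fun _ _ _ => false) r)) A)
    (fun _ _ _ => false) B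

noncomputable def mn (a b : ℕ) : ℕ := ifb (Nat.ble a b) a b

/-- upper level: code 0 is none, code `z + 1` is the literal `z` -/
noncomputable def lvU (fc : Fc) (zm t h : ℕ) (k : ℕ → ℕ → Bool) : Bool :=
  ifb (bit zm t) (k (nat_lit 0) (nat_lit 641)) <|
  @Nat.rec (fun _ => Bool) (k (nat_lit 281474976710656) (nat_lit 0))
    (fun z _ => fc z fun A B mp mm _ => andb (one t A B) <|
      frc (kU (Nat.sub (Nat.add mp (nat_lit 4096)) mm)) fun th => frc (mn (Nat.sub mm mp) (nat_lit 640)) (k th)) h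

noncomputable def lvD (fc : Fc) (t h : ℕ) (k : ℕ → ℕ → Bool) : Bool :=
  @Nat.rec (fun _ => Bool) (k (nat_lit 0) (nat_lit 640))
    (fun z _ => fc z fun A B mp mm _ => andb (one t B A) <| andb (Nat.ble mp (Nat.add mm (nat_lit 4096))) <|
      frc (kD (Nat.sub (Nat.add mm (nat_lit 4096)) mp)) fun tl => frc (mn (Nat.sub mp mm) (nat_lit 640)) (k tl)) h

noncomputable def pce (fc : Fc) (box : Bool) (zm p h l : ℕ) (k : Pc → Bool) : Bool :=
  frc (Nat.mul (nat_lit 32) p) fun t => lvU fc zm t h fun th ih => lvD fc t l fun tl il => mkP box th ih tl il k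

/-- the core check: the form `F`, negated if `ng`, is positive (`st`) or non-negative; this is refuted -/
noncomputable def core (fc : Fc) (pm zm : ℕ) (box : Bool) (p1 p2 C1 C2 h1 l1 h2 l2 : ℕ) (ng st : Bool)
    (F : R.Po) (m : ML) : Bool :=
  pce fc box zm p1 h1 l1 fun P1 => pce fc box zm p2 h2 l2 fun P2 =>
    ph ⟨p1, p2, C1, C2, pm, zm, P1, P2⟩ ng (mvs ⟨p1, p2, C1, C2, pm, zm, P1, P2⟩ fc m st) F .nil

/-- the facts given by a false literal (even code) or by a static bound (odd code) -/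
noncomputable def fct (tb : ℕ → R.Atom) (mem : ℕ → Bool) : Fc := fun z k =>
  frc (Nat.div z (nat_lit 2)) fun l =>
  ifb (bit z (nat_lit 0)) (andb (R.okL l) (k [l] [] (nat_lit 64) (nat_lit 0) false)) <|
  andb (mem l) <|
  @R.Atom.rec (fun _ => Bool) (fun _ _ => false) (fun _ _ _ => false) (fun _ => false)
    (fun p m g n st => ifb (bit l (nat_lit 0))
      (ifb g (k p m (nat_lit 0) n st) (k p m n (nat_lit 0) st))
      (ifb g (k m p n (nat_lit 0) (nb st)) (k m p (nat_lit 0) n (nb st))))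
    (fun _ => false) (tb (Nat.div l (nat_lit 2)))

/-- the masks of the positive and of the vanishing variables -/
noncomputable def msk (tb : ℕ → R.Atom) (mem : ℕ → Bool) (k : ℕ → ℕ → Bool) (ps : List ℕ) : ℕ → ℕ → Bool :=
  @List.rec ℕ (fun _ => ℕ → ℕ → Bool) k
    (fun l _ ih pm zm => andb (mem l) <|
      @R.Atom.rec (fun _ => Bool) (fun _ _ => false) (fun _ _ _ => false)
        (fun v => andb (Nat.ble v (nat_lit 831)) <| ifb (bit l (nat_lit 0))
          (ih (Nat.lor pm (Nat.shiftLeft (nat_lit 1) v))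
            (Nat.lor zm (Nat.shiftLeft (nat_lit 1) (Nat.xor v (nat_lit 1)))))
          (ih pm (Nat.lor zm (Nat.shiftLeft (nat_lit 1) v))))
        (fun _ _ _ _ _ => false) (fun _ => false) (tb (Nat.div l (nat_lit 2)))) ps

/-- the negative parts of the offsets that are always positive -/
def zm0 : ℕ := nat_lit 0x8000000080000000800000008000000080000000800000008000000080000002000000020000000200000002000000020000000200000002000000020000000200000002000000020000000200000000000000000000000000000000000000000000000000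

noncomputable def rd (p : ℕ) (q : R.Po) : R.Po := R.Po.red (R.pr p 0) (R.pr p 1) (R.Po.red (R.pr p 0) (R.pr p 1) q)

noncomputable def eqv (p1 p2 : ℕ) (F q : R.Po) : Bool := R.Po.isZ (rd p1 (rd p2 (R.Po.sub (R.nrm F) (R.nrm q))))

/-- a hint: `l` is 0 for an identity and `z + 1` for the literal `z`; `F` is the form, `nil` for the atom itself -/
structure Hint where
  (l : ℕ) (F : R.Po) (box : Bool) (p1 p2 C1 C2 h1 l1 h2 l2 : ℕ) (ps : List ℕ) (m : ML)

noncomputable def chkCut (tb : ℕ → R.Atom) (mem : ℕ → Bool) (H : Hint) : Bool :=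
  @Hint.rec (fun _ => Bool) (fun l F box p1 p2 C1 C2 h1 l1 h2 l2 ps m =>
    andb (Nat.ble p1 (nat_lit 25)) <| andb (Nat.ble p2 (nat_lit 25)) <|
    msk tb mem (fun pm zm => frc pm fun pm => frc zm fun zm =>
      @Nat.rec (fun _ => Bool)
        (andb (eqv p1 p2 F .nil) (core (fct tb mem) pm zm box p1 p2 C1 C2 h1 l1 h2 l2 true false F m))
        (fun z _ => andb (mem z) <|
          @R.Atom.rec (fun _ => Bool) (fun _ _ => false) (fun _ _ _ => false) (fun _ => false)
            (fun _ _ _ _ _ => false)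
            (fun q => andb (orb (R.Po.isZ F) (eqv p1 p2 F q)) <|
              ifb (bit z (nat_lit 0))
                (core (fct tb mem) pm zm box p1 p2 C1 C2 h1 l1 h2 l2 false true (ifb (R.Po.isZ F) q F) m)
                (core (fct tb mem) pm zm box p1 p2 C1 C2 h1 l1 h2 l2 true false (ifb (R.Po.isZ F) q F) m))
            (tb (Nat.div z (nat_lit 2)))) l) ps (nat_lit 0) zm0) H

end Pool.Agent.P.MP_53fdf1_co.Cut
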