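import Pool.Agent.P.MP_53fdf1_co.RCTerm

set_option autoImplicit false

namespace Pool.Agent.P.MP_53fdf1_co.Cut

open Q (frc andb orb ifb frc_eq andb_eq orb_eq ifb_eq)

open R (Cfg Valid Po rel Atom Lit Univ)

noncomputable section

variable {K : Cfg} {X : Cx} {κ : ℝ}

theorem ext_ok (M : ℕ → ℝ) {y : ℕ} {k : ℕ → ℕ → EL → Bool} (l : EL) : ∀ (P N : ℕ) (r : EL), ext y k l P N r = true →
    ∃ (P' N' : ℕ) (r' : EL), k P' N' r' = true ∧
      l.val M + ((P : ℝ) - N) * M y + r.val M = ((P' : ℝ) - N') * M y + r'.val M := by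
  induction l with
  | nil => exact fun P N r h => ⟨P, N, r, h, by simp [EL.val]⟩
  | cons x g a t ih =>
    intro P N r h
    change ifb (Nat.beq x y) (ifb g (ext y k t (P + a) N r) (ext y k t P (N + a) r))
      (ext y k t P N (.cons x g a r)) = true at h
    simp only [ifb_eq, Nat.beq_eq] at h
    split_ifs at h with q g1
    all_goals
      obtain ⟨P', N', r', h, e⟩ := ih _ _ _ h
      refine ⟨P', N', r', h, Eq.trans ?_ e⟩
    · simp only [EL.val, sn, g1, q, if_true, Nat.cast_add]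
      ring
    · simp only [EL.val, sn, g1, q, if_false, Nat.cast_add, Bool.false_eq_true]
      ring
    · simp only [EL.val]
      ring

theorem ex_ok (M : ℕ → ℝ) {y : ℕ} {l : EL} {k : ℕ → ℕ → EL → Bool} (h : ex y l k = true) :
    ∃ (P N : ℕ) (r : EL), k P N r = true ∧ l.val M = ((P : ℝ) - N) * M y + r.val M := by
  obtain ⟨P, N, r, h, e⟩ := ext_ok M l _ _ _ h
  exact ⟨P, N, r, h, by simpa [EL.val] using e⟩

theorem prs_ok (H : Ok K X) {k : ℕ → ℕ → ℕ → Bool} (l : List ℕ) : ∀ v a b : ℕ, prs X k l v a b = true →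
    ∃ v' a' b', k v' a' b' = true ∧ Lz K v' * (La K (32 * X.p1) ^ a' * La K (32 * X.p2) ^ b') =
      Lz K v * (La K (32 * X.p1) ^ a * La K (32 * X.p2) ^ b) * (l.map K.lp).prod := by
  induction l with
  | nil => exact fun v a b h => ⟨v, a, b, h, by simp⟩
  | cons x t ih =>
    intro v a b h
    change ifb (Nat.beq x (32 * X.p1)) (prs X k t v (a + 1) b) (ifb (Nat.beq x (32 * X.p2)) (prs X k t v a (b + 1))
      (andb (Nat.beq v 0) (andb (Nat.ble x 831) (prs X k t (x + 1) a b)))) = true at h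
    simp only [ifb_eq, Nat.beq_eq] at h
    have p1 := H.p1
    have p2 := H.p2
    rw [List.map_cons, List.prod_cons]
    split_ifs at h with q1 q2
    · obtain ⟨v', a', b', h, e⟩ := ih _ _ _ h
      refine ⟨_, _, _, h, ?_⟩
      rw [e, ← La_eq H.V (v := x) (by omega), q1]
      ring
    · obtain ⟨v', a', b', h, e⟩ := ih _ _ _ h
      refine ⟨_, _, _, h, ?_⟩
      rw [e, ← La_eq H.V (v := x) (by omega), q2]
      ring
    · simp only [andb_eq, Nat.beq_eq, Nat.ble_eq] at h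
      obtain ⟨rfl, x1, h⟩ := h
      obtain ⟨v', a', b', h, e⟩ := ih _ _ _ h
      refine ⟨_, _, _, h, ?_⟩
      rw [e, ← La_eq H.V x1, Lz, Lz]
      ring

theorem pos_ok (H : Ok K X) {v a b : ℕ} (h : pos X v a b = true) :
    0 < Lz K v * (La K (32 * X.p1) ^ a * La K (32 * X.p2) ^ b) := by
  simp only [pos, andb_eq, orb_eq, Nat.beq_eq, Nat.mul_eq] at h
  obtain ⟨h0, h1, h2⟩ := h
  refine mul_pos ?_ (mul_pos ?_ ?_)
  · cases v
    exacts [zero_lt_one, H.pm _ h0]
  · rcases h1 with rfl | h1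
    exacts [by simp, pow_pos (H.pm _ h1) _]
  · rcases h2 with rfl | h2
    exacts [by simp, pow_pos (H.pm _ h2) _]

theorem mon0 (K : Cfg) (X : Cx) (v a b : ℕ) : 0 ≤ Lz K v * (La K (32 * X.p1) ^ a * La K (32 * X.p2) ^ b) :=
  mul_nonneg (Lz0 K _) (mul_nonneg (pow_nonneg (La0 K _) _) (pow_nonneg (La0 K _) _))

theorem rew_ok (H : Ok K X) {y g : ℕ} {U V : List ℕ} {k : ℕ → Bool → Bool} (h : rew X y g U V k = true) :
    ∃ (x : ℕ) (ps : Bool) (N : ℝ), k x ps = true ∧ 0 ≤ N ∧ (ps = true → 0 < N) ∧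
      Mo K X y = N * (U.map K.lp).prod ^ g ∧ Mo K X x = N * (V.map K.lp).prod ^ g ∧
      0 ≤ (U.map K.lp).prod ∧ 0 ≤ (V.map K.lp).prod := by
  obtain ⟨vU, u1, u2, h', eU⟩ := prs_ok H U _ _ _ h
  clear h
  obtain ⟨vV, w1, w2, h, eV⟩ := prs_ok H V _ _ _ h'
  clear h'
  simp only [show Lz K (nat_lit 0) = 1 from rfl, pow_zero, one_mul] at eU eV
  rw [← eU, ← eV]
  simp only [frc_eq, andb_eq, Nat.ble_eq, ifb_eq, Nat.beq_eq, Nat.add_eq, Nat.mul_eq, Nat.sub_eq] at h
  obtain ⟨a1, a2, b1, b2, h⟩ := h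
  change g * u1 ≤ y / 64 % 64 at a1
  change g * u2 ≤ y % 64 at a2
  obtain ⟨n1, e1⟩ := Nat.exists_eq_add_of_le a1
  obtain ⟨n2, e2⟩ := Nat.exists_eq_add_of_le a2
  have f1 : Nat.mod (Nat.div y 64) 64 - g * u1 = n1 := by
    change y / 64 % 64 - g * u1 = n1
    omega
  have f2 : Nat.mod y 64 - g * u2 = n2 := by
    change y % 64 - g * u2 = n2
    omega
  rw [f1] at b1 h
  rw [f2] at b2 h
  split_ifs at h with q
  · obtain ⟨q, rfl⟩ := q
    refine ⟨_, _, _, h, mon0 K X _ _ _, pos_ok H, ?_, ?_, mon0 K X _ _ _, mon0 K X _ _ _⟩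
    · rw [Mo, e1, e2, q, show Lz K 0 = 1 from rfl]
      change _ = _ * (Lz K (y / 4096) * _) ^ 1
      ring
    · rw [Mo_eq K X _ b1 b2, show Lz K 0 = 1 from rfl]
      ring
  · simp only [andb_eq, Nat.beq_eq, Nat.add_eq_zero_iff] at h
    obtain ⟨⟨rfl, rfl⟩, h⟩ := h
    refine ⟨_, _, _, h, mon0 K X _ _ _, pos_ok H, ?_, ?_, mon0 K X _ _ _, mon0 K X _ _ _⟩
    · rw [Mo, e1, e2, show Lz K 0 = 1 from rfl]
      change _ = Lz K (y / 4096) * _ * _
      ring
    · rw [Mo_eq K X _ b1 b2, show Lz K 0 = 1 from rfl]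
      ring

theorem rel_le {st : Bool} {x y : ℝ} (h : rel st 0 x) (e : x ≤ y) : rel st 0 y := by
  cases st
  exacts [le_trans h e, lt_of_lt_of_le h e]

theorem rel_w {st : Bool} {x y : ℝ} (h : rel st x y) : x ≤ y := by
  cases st
  exacts [h, le_of_lt h]

theorem sub_le (P N : ℕ) : (P : ℝ) - N ≤ (Nat.sub P N : ℕ) := Q.sub_cast P N

theorem mab_ok (H : Ok K X) {y d1 d2 : ℕ} {l : EL} {k : EL → Bool} (h : mab X y d1 d2 l k = true) :
    ∃ r, k r = true ∧ l.val (Mo K X) ≤ r.val (Mo K X) := by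
  obtain ⟨P, N, r, h, e⟩ := ex_ok (Mo K X) h
  simp only [frc_eq, andb_eq, Nat.ble_eq] at h
  obtain ⟨a1, a2, h⟩ := h
  refine ⟨_, h, ?_⟩
  change d1 ≤ y / 64 % 64 at a1
  change d2 ≤ y % 64 at a2
  have m : Mo K X y = La K (32 * X.p1) ^ d1 * La K (32 * X.p2) ^ d2 * Mo K X (y - (d1 * 64 + d2)) := by
    rw [Mo, Mo, show (y - (d1 * 64 + d2)) / 4096 = y / 4096 by omega]
    nth_rewrite 1 [show y / 64 % 64 = d1 + (y - (d1 * 64 + d2)) / 64 % 64 by omega,
      show y % 64 = d2 + (y - (d1 * 64 + d2)) % 64 by omega]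
    ring
  rw [e, EL.val, m, ← mul_assoc, ← mul_assoc]
  exact add_le_add (mul_le_mul_of_nonneg_right
    (pwU_ok (pwU_ok (sub_le P N) H.P1.th (La0 K _) d1) H.P2.th (La0 K _) d2) (Mo0 K X _)) le_rfl

def FcOk (K : Cfg) (κ : ℝ) (fc : Fc) : Prop := ∀ z k, fc z k = true → ∃ A B mp mm s, k A B mp mm s = true ∧
  rel s (A.map K.lp).prod (κ ^ mp / κ ^ mm * (B.map K.lp).prod)

theorem mmv_ok (h0 : 0 < κ) (hk : κ ^ 64 = 2) (H : Ok K X) {fc : Fc} (hf : FcOk K κ fc) {y z g : ℕ} {st : Bool}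
    {l : EL} {k : Bool → EL → Bool} (hl : rel st 0 (l.val (Mo K X))) (h : mmv X fc y z g st l k = true) :
    ∃ st' r, k st' r = true ∧ rel st' 0 (r.val (Mo K X)) := by
  obtain ⟨P, N, r, h, e⟩ := ex_ok (Mo K X) h
  obtain ⟨A, B, mp, mm, s, h, f⟩ := hf _ _ h
  have eq : (κ ^ mp / κ ^ mm) ^ g = κ ^ (g * mp) / κ ^ (g * mm) := by
    rw [div_pow, ← pow_mul, ← pow_mul, mul_comm mp, mul_comm mm]
  have q0 : 0 < κ ^ (g * mp) / κ ^ (g * mm) := by positivity
  simp only [frc_eq, ifb_eq (Nat.ble N P), Nat.ble_eq] at h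
  split_ifs at h with q
  · obtain ⟨x, ps, T, h, T0, Tp, m1, m2, A0, B0⟩ := rew_ok H h
    have c := mU_ok (sub_le P N) (kU_q h0 hk (g * mp) (g * mm)) q0.le
    have c' := mul_le_mul_of_nonneg_right c (Mo0 K X x)
    have PN : (0 : ℝ) ≤ (P : ℝ) - N := sub_nonneg.2 (Nat.cast_le.2 q)
    have w := pow_le_pow_left₀ A0 (rel_w f) g
    rw [mul_pow, eq] at w
    have le : l.val (Mo K X) ≤ (EL.cons x true (mU (Nat.sub P N)
        (kU (Nat.sub (Nat.add (g * mp) 4096) (g * mm)))) r).val (Mo K X) := by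
      rw [e, EL.val]
      refine add_le_add (le_trans ?_ c') le_rfl
      rw [m1, m2]
      have := mul_le_mul_of_nonneg_left w (mul_nonneg PN T0)
      linarith
    rw [ifb_eq] at h
    split_ifs at h with p
    · refine ⟨_, _, h, ?_⟩
      simp only [orb_eq, andb_eq, Nat.ble_eq] at p
      rcases p with rfl | ⟨rfl, p1, p2, p3⟩
      · exact rel_le hl le
      · refine lt_of_le_of_lt (rel_w hl) ?_
        rw [e, EL.val]
        refine add_lt_add_of_lt_of_le (lt_of_lt_of_le ?_ c') le_rfl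
        have w := pow_lt_pow_left₀ (n := g) f A0 (by omega)
        rw [mul_pow, eq] at w
        have PN : (0 : ℝ) < (P : ℝ) - N := sub_pos.2 (Nat.cast_lt.2 p1)
        rw [m1, m2]
        have := mul_lt_mul_of_pos_left w (mul_pos PN (Tp p3))
        linarith
    · exact ⟨_, _, h, le_trans (rel_w hl) le⟩
  · simp only [andb_eq, Nat.ble_eq] at h
    obtain ⟨b, h⟩ := h
    obtain ⟨x, ps, T, h, T0, -, m1, m2, B0, A0⟩ := rew_ok H h
    refine ⟨_, _, h, rel_le hl ?_⟩
    have NP : ((Nat.sub N P : ℕ) : ℝ) = N - P := Nat.cast_sub (not_le.1 q).le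
    have c := mD_ok NP.le (kD_q h0 hk (a := g * mm) (b := g * mp) b)
    have c' := mul_le_mul_of_nonneg_right c (Mo0 K X x)
    have PN : (0 : ℝ) ≤ (N : ℝ) - P := sub_nonneg.2 (Nat.cast_le.2 (not_le.1 q).le)
    have w := pow_le_pow_left₀ A0 (rel_w f) g
    rw [mul_pow, eq] at w
    have i0 : 0 < κ ^ (g * mm) / κ ^ (g * mp) := by positivity
    have w' := mul_le_mul_of_nonneg_left w i0.le
    rw [← mul_assoc, show κ ^ (g * mm) / κ ^ (g * mp) * (κ ^ (g * mp) / κ ^ (g * mm)) = 1 by field_simp,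
      one_mul] at w'
    rw [e, EL.val]
    refine add_le_add ?_ le_rfl
    have := mul_le_mul_of_nonneg_left w' (mul_nonneg PN T0)
    simp only [sn, Bool.false_eq_true, if_false]
    change _ ≤ -((mD (Nat.sub N P) (kD (Nat.sub (Nat.add (g * mm) 4096) (g * mp))) : ℕ) : ℝ) * _
    rw [m2] at c'
    rw [m1, m2]
    linarith

theorem fin_ok (H : Ok K X) (n : ℕ) : ∀ (st : Bool) (l : EL), fin X n st l = true → ¬ rel st 0 (l.val (Mo K X)) := by
  induction n with
  | zero => exact fun _ _ h => absurd h Bool.false_ne_true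
  | succ n ih =>
    intro st l h hl
    cases l with
    | nil =>
      obtain rfl : st = true := h
      exact lt_irrefl _ hl
    | cons y g a t =>
      change ex y (.cons y g a t) (fun P N r => andb (Nat.ble P N) (ifb (orb st (andb (Nat.ble (Nat.succ P) N)
        (pos X (y / 4096) (y / 64 % 64) (y % 64)))) (fin X n true r) (fin X n false r))) = true at h
      obtain ⟨P, N, r, h, e⟩ := ex_ok (Mo K X) h
      simp only [andb_eq, Nat.ble_eq, ifb_eq] at h
      obtain ⟨q, h⟩ := h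
      have le := mul_nonpos_of_nonpos_of_nonneg (sub_nonpos.2 (Nat.cast_le (α := ℝ).2 q)) (Mo0 K X y)
      rw [e] at hl
      split_ifs at h with p
      · refine ih _ _ h ?_
        simp only [orb_eq, andb_eq, Nat.ble_eq] at p
        rcases p with rfl | ⟨p1, p2⟩
        · exact rel_le hl (by linarith)
        · have m : 0 < Mo K X y := pos_ok H p2
          have := mul_neg_of_neg_of_pos (sub_neg.2 (Nat.cast_lt (α := ℝ).2 p1)) m
          exact lt_of_le_of_lt (rel_w hl) (by linarith)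
      · exact ih _ _ h (le_trans (rel_w hl) (by linarith))

theorem mvs_ok (h0 : 0 < κ) (hk : κ ^ 64 = 2) (H : Ok K X) {fc : Fc} (hf : FcOk K κ fc) (m : ML) :
    ∀ (st : Bool) (l : EL), mvs X fc m st l = true → ¬ rel st 0 (l.val (Mo K X)) := by
  induction m with
  | nil => exact fun st l h => fin_ok H (nat_lit 200) st l h
  | ab y d1 d2 m ih =>
    intro st l h hl
    obtain ⟨r, h, e⟩ := mab_ok H h
    exact ih _ _ h (rel_le hl e)
  | mv y z g m ih =>
    intro st l h hl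
    obtain ⟨st', r, h, e⟩ := mmv_ok h0 hk H hf hl h
    exact ih _ _ h e

theorem one_ok {t : ℕ} {A B : List ℕ} (h : one t A B = true) : A = [t] ∧ B = [] := by
  rcases B with _ | ⟨b, B⟩
  · rcases A with _ | ⟨a, _ | ⟨a', A⟩⟩
    · exact absurd h Bool.false_ne_true
    · exact ⟨by rw [Nat.eq_of_beq_eq_true ((andb_eq _ _).1 h).1], rfl⟩
    · exact absurd ((andb_eq _ _).1 h).2 Bool.false_ne_true
  · exact absurd h Bool.false_ne_true

theorem pce_ok (h0 : 0 < κ) (hk : κ ^ 64 = 2) (V : Valid K) {fc : Fc} (hf : FcOk K κ fc) {box : Bool}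
    {zm p a b : ℕ} {k : Pc → Bool} (hp : p < 26) (hz : ∀ v, bit zm v = true → La K v = 0)
    (h : pce fc box zm p a b k = true) :
    ∃ P, k P = true ∧ PcOk P (K.sy p 0) (K.sy p 1) (1 - K.sy p 1) (La K (32 * p)) := by
  have e : La K (32 * p) = K.lp (32 * p) := La_eq V (by omega)
  have c : 0 < K.sy p 1 := by linarith [(V.cpos hp).1]
  change lvU fc zm (32 * p) a (fun th ih => lvD fc (32 * p) b fun tl il => mkP box th ih tl il k) = true at h
  have u : ∃ th ih : ℕ, lvD fc (32 * p) b (fun tl il => mkP box th ih tl il k) = true ∧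
      K.lp (32 * p) * 281474976710656 ≤ th := by
    rw [lvU, ifb_eq] at h
    split_ifs at h with q
    · exact ⟨_, _, h, by rw [← e, hz _ q]; simp⟩
    · cases a with
      | zero => exact ⟨_, _, h, by have := V.tan_le hp; push_cast; linarith⟩
      | succ z =>
        obtain ⟨A, B, mp, mm, s, h, f⟩ := hf _ _ h
        simp only [andb_eq, frc_eq] at h
        obtain ⟨rfl, rfl⟩ := one_ok h.1
        have f := rel_w f
        simp only [List.map_cons, List.map_nil, List.prod_cons, List.prod_nil, mul_one] at f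
        exact ⟨_, _, h.2, le_trans (by linarith) (kU_q h0 hk mp mm)⟩
  obtain ⟨th, ih, h, u⟩ := u
  have d : ∃ tl il : ℕ, mkP box th ih tl il k = true ∧ (tl : ℝ) ≤ K.lp (32 * p) * 281474976710656 := by
    cases b with
    | zero => exact ⟨_, _, h, by have := La0 K (32 * p); push_cast; linarith⟩
    | succ z =>
      obtain ⟨A, B, mp, mm, s, h, f⟩ := hf _ _ h
      simp only [andb_eq, frc_eq, Nat.ble_eq] at h
      obtain ⟨rfl, rfl⟩ := one_ok h.1
      have f := rel_w f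
      simp only [List.map_cons, List.map_nil, List.prod_cons, List.prod_nil, mul_one] at f
      refine ⟨_, _, h.2.2, le_trans (kD_q h0 hk h.2.1) (mul_le_mul_of_nonneg_right ?_ (by norm_num))⟩
      rw [div_le_iff₀ (pow_pos h0 _)]
      rw [div_mul_eq_mul_div, le_div_iff₀ (pow_pos h0 _)] at f
      linarith
  obtain ⟨tl, il, h, d⟩ := d
  rw [e, V.lp_tan hp]
  rw [V.lp_tan hp] at u d
  exact mkP_ok (V.tri p hp).1 c (V.tri p hp).2.2 u d h

theorem core_ok (h0 : 0 < κ) (hk : κ ^ 64 = 2) (V : Valid K) {fc : Fc} (hf : FcOk K κ fc) {pm zm : ℕ} {box : Bool}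
    {p1 p2 C1 C2 h1 l1 h2 l2 : ℕ} {ng st : Bool} {F : Po} {m : ML} (q1 : p1 < 26) (q2 : p2 < 26)
    (hp : ∀ v, bit pm v = true → 0 < La K v) (hz : ∀ v, bit zm v = true → La K v = 0)
    (h : core fc pm zm box p1 p2 C1 C2 h1 l1 h2 l2 ng st F m = true) :
    ¬ rel st 0 (R.sg ng (Po.ev K.v (R.nrm F))) := by
  obtain ⟨P1, h, k1⟩ := pce_ok h0 hk V hf q1 hz h
  obtain ⟨P2, h, k2⟩ := pce_ok h0 hk V hf q2 hz h
  have H : Ok K ⟨p1, p2, C1, C2, pm, zm, P1, P2⟩ := ⟨V, q1, q2, k1, k2, hp, hz⟩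
  obtain ⟨r, h, e⟩ := ph_ok H F _ h
  intro n
  refine mvs_ok h0 hk H hf m _ _ h (rel_le ?_ e)
  have c1 := k1.c0
  have c2 := k2.c0
  have T : (0 : ℝ) < 2 ^ 96 / (K.sy p1 1 ^ C1 * K.sy p2 1 ^ C2) := by positivity
  rw [EL.val, zero_add]
  cases st
  exacts [mul_nonneg n T.le, mul_pos n T]

theorem bit0 (l : ℕ) : bit l (nat_lit 0) = true ↔ l % 2 = 1 := Nat.beq_eq ▸ Iff.rfl

variable {tb : ℕ → Atom} {mem : ℕ → Bool}

theorem lit_odd {l : ℕ} (h : ¬ Lit K tb l) (q : l % 2 = 1) : (tb (l / 2)).sem K := by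
  rw [Lit, if_neg (by omega)] at h
  exact not_not.1 h

theorem lit_even {l : ℕ} (h : ¬ Lit K tb l) (q : ¬ l % 2 = 1) : ¬ (tb (l / 2)).sem K := by
  rwa [Lit, if_pos (by omega)] at h

theorem rel_not {st : Bool} {x y : ℝ} (h : ¬ rel st x y) : rel (nb st) y x := by
  cases st
  exacts [not_le.1 h, not_lt.1 h]

theorem rel_mul {st : Bool} {x y q : ℝ} (q0 : 0 < q) (h : rel st (q * x) y) : rel st x (q⁻¹ * y) := by
  cases st
  exacts [(le_inv_mul_iff₀ q0).2 h, (lt_inv_mul_iff₀ q0).2 h]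

theorem fct_ok (V : Valid K) (hm : ∀ l, mem l = true → ¬ Lit K tb l) :
    FcOk K ((2 : ℝ) ^ (1 / 64 : ℝ)) (fct tb mem) := by
  intro z k h
  have pw : ∀ n : ℕ, ((2 : ℝ) ^ (1 / 64 : ℝ)) ^ n = (2 : ℝ) ^ ((n : ℝ) / 64) := fun n => by
    rw [← Real.rpow_natCast, ← Real.rpow_mul (by norm_num), one_div_mul_eq_div]
  have ng : ∀ n : ℕ, (2 : ℝ) ^ (-(n : ℝ) / 64) = ((2 : ℝ) ^ ((n : ℝ) / 64))⁻¹ := fun n => by
    rw [neg_div, Real.rpow_neg (by norm_num)]
  simp only [fct, frc_eq, ifb_eq (bit z _)] at h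
  split_ifs at h with q
  · rw [andb_eq] at h
    refine ⟨_, _, _, _, _, h.2, ?_⟩
    have := V.lp_le h.1
    rw [pw]
    simpa [rel] using this
  · rw [andb_eq] at h
    obtain ⟨m, h⟩ := h
    have m := hm _ m
    change ¬ Lit K tb (z / 2) at m
    have o := lit_odd m
    have e := lit_even m
    change @Atom.rec (fun _ => Bool) _ _ _ _ _ (tb (z / 2 / 2)) = true at h
    generalize tb (z / 2 / 2) = a at h o e
    cases a with
    | mono p r g n st =>
      have p0 : (0 : ℝ) < (2 : ℝ) ^ ((n : ℝ) / 64) := by positivity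
      simp only [ifb_eq, bit0] at h
      split_ifs at h with b g1 g2
      · subst g1
        refine ⟨_, _, _, _, _, h, ?_⟩
        rw [pw n, pow_zero, one_div, ← ng]
        exact o b
      · obtain rfl : g = false := by simpa using g1
        refine ⟨_, _, _, _, _, h, ?_⟩
        rw [pw n, pow_zero, div_one]
        exact o b
      · subst g2
        refine ⟨_, _, _, _, _, h, ?_⟩
        have := rel_mul (by positivity) (rel_not (e b))
        rw [pw n, pow_zero, div_one]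
        rwa [show R.sg true (n : ℝ) = -n from rfl, ng, inv_inv] at this
      · obtain rfl : g = false := by simpa using g2
        refine ⟨_, _, _, _, _, h, ?_⟩
        rw [pw n, pow_zero, one_div]
        exact rel_mul p0 (rel_not (e b))
    | _ => exact absurd h Bool.false_ne_true

theorem bit_eq (m v : ℕ) : bit m v = m.testBit v := by
  rw [Nat.testBit_eq_decide_div_mod_eq, Bool.eq_iff_iff, decide_eq_true_eq, ← Nat.shiftRight_eq_div_pow]
  exact Nat.beq_eq ▸ Iff.rfl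

theorem bit_or {m v x : ℕ} (h : bit (Nat.lor m (Nat.shiftLeft (nat_lit 1) v)) x = true) : bit m x = true ∨ v = x := by
  change bit (m ||| 1 <<< v) x = true at h
  rw [bit_eq, Nat.testBit_or, Nat.one_shiftLeft, Nat.testBit_two_pow, ← bit_eq] at h
  simpa using h

theorem partner (V : Valid K) {v : ℕ} (h : v ≤ 831) (p : 0 < K.lp v) : La K (v ^^^ 1) = 0 := by
  have p := (V.lp_pos (by omega)).1 p
  have e : ∀ v ≤ 831, (v ^^^ 1) / 32 = v / 32 ∧ (v ^^^ 1) / 2 % 16 = v / 2 % 16 ∧ R.bit (v ^^^ 1) = !R.bit v := by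
    decide +kernel
  have e := e v h
  rw [La, Cfg.lp, e.1, e.2.1, e.2.2, max_eq_right, zero_div, abs_zero]
  revert p
  cases R.bit v <;> simp only [R.sg, cond_true, cond_false, Bool.not_true, Bool.not_false] <;> intro p <;> linarith

theorem msk_ok (V : Valid K) (hm : ∀ l, mem l = true → ¬ Lit K tb l) {k : ℕ → ℕ → Bool} (ps : List ℕ) :
    ∀ pm zm : ℕ, (∀ v, bit pm v = true → 0 < La K v) → (∀ v, bit zm v = true → La K v = 0) →
      msk tb mem k ps pm zm = true → ∃ pm zm : ℕ, (∀ v, bit pm v = true → 0 < La K v) ∧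
        (∀ v, bit zm v = true → La K v = 0) ∧ k pm zm = true := by
  induction ps with
  | nil => exact fun pm zm a b h => ⟨pm, zm, a, b, h⟩
  | cons l t ih =>
    intro pm zm hp hz h
    obtain ⟨m, h⟩ := (andb_eq _ _).1 h
    have o := lit_odd (hm _ m)
    have e := lit_even (hm _ m)
    change @Atom.rec (fun _ => Bool) _ _ _ _ _ (tb (l / 2)) = true at h
    generalize tb (l / 2) = a at h o e
    cases a with
    | pos v =>
      change andb (Nat.ble v 831) (ifb (bit l (nat_lit 0))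
        (msk tb mem k t (Nat.lor pm (Nat.shiftLeft (nat_lit 1) v)) (Nat.lor zm (Nat.shiftLeft (nat_lit 1) (v ^^^ 1))))
        (msk tb mem k t pm (Nat.lor zm (Nat.shiftLeft (nat_lit 1) v)))) = true at h
      simp only [andb_eq, Nat.ble_eq, ifb_eq, bit0] at h
      obtain ⟨v1, h⟩ := h
      split_ifs at h with b
      · refine ih _ _ (fun x hx => ?_) (fun x hx => ?_) h
        · rcases bit_or hx with hx | rfl
          exacts [hp _ hx, (La_eq V v1).symm ▸ o b]
        · rcases bit_or hx with hx | rfl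
          exacts [hz _ hx, partner V v1 (o b)]
      · refine ih _ _ hp (fun x hx => ?_) h
        rcases bit_or hx with hx | rfl
        exacts [hz _ hx, le_antisymm ((La_eq V v1).symm ▸ not_lt.1 (e b)) (La0 K _)]
    | _ => exact absurd h Bool.false_ne_true

set_option exponentiation.threshold 900 in
theorem zm0_ok (V : Valid K) (v : ℕ) (h : bit zm0 v = true) : La K v = 0 := by
  have l : v < 832 := by
    by_contra n
    rw [bit_eq, Nat.testBit_lt_two_pow (lt_of_lt_of_le (show zm0 < 2 ^ 832 by decide +kernel)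
      (Nat.pow_le_pow_right (by norm_num) (not_lt.1 n)))] at h
    exact Bool.false_ne_true h
  have e : ∀ v < 832, bit zm0 v = true → R.bit v = true ∧
      (6 ≤ v / 32 ∧ v / 32 < 18 ∧ v / 2 % 16 = 4 ∨ 18 ≤ v / 32 ∧ v / 2 % 16 = 3) := by decide +kernel
  obtain ⟨b, e⟩ := e v l h
  rw [La, Cfg.lp, b, max_eq_right, zero_div, abs_zero]
  rcases e with ⟨a, c, d⟩ | ⟨a, d⟩ <;> rw [d]
  · exact neg_nonpos.2 (V.bE a c).2.1.le
  · exact neg_nonpos.2 (V.bV a (by omega)).1.1.le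

theorem eqv_ok (V : Valid K) {p1 p2 : ℕ} (q1 : p1 < 26) (q2 : p2 < 26) {F q : Po} (h : eqv p1 p2 F q = true) :
    Po.ev K.v (R.nrm F) = Po.ev K.v (R.nrm q) := by
  have := Po.ev_isZ (v := K.v) h
  rwa [rd, rd, V.red q1, V.red q1, V.red q2, V.red q2, Po.ev_sub, sub_eq_zero] at this

theorem chkCut_ok {H : Hint} (h : chkCut tb mem H = true) : Univ tb mem := by
  intro K V
  by_contra n
  have hm : ∀ l, mem l = true → ¬ Lit K tb l := fun l a b => n ⟨l, a, b⟩
  have h0 : (0 : ℝ) < 2 ^ (1 / 64 : ℝ) := by positivity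
  have hk : ((2 : ℝ) ^ (1 / 64 : ℝ)) ^ 64 = 2 := by
    rw [← Real.rpow_natCast, ← Real.rpow_mul (by norm_num)]
    norm_num
  obtain ⟨l, F, box, p1, p2, C1, C2, h1, l1, h2, l2, ps, m⟩ := H
  obtain ⟨q1, h⟩ := (andb_eq _ _).1 h
  obtain ⟨q2, h⟩ := (andb_eq _ _).1 h
  have q1 : p1 < 26 := Nat.lt_succ_of_le (Nat.le_of_ble_eq_true q1)
  have q2 : p2 < 26 := Nat.lt_succ_of_le (Nat.le_of_ble_eq_true q2)
  obtain ⟨pm, zm, hp, hz, h⟩ := msk_ok V hm ps _ _ (fun v a => by simp [bit_eq] at a) (zm0_ok V) h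
  have hf := fct_ok V hm
  cases l with
  | zero =>
    obtain ⟨e, h⟩ := (andb_eq _ _).1 h
    refine core_ok h0 hk V hf q1 q2 hp hz h ?_
    rw [eqv_ok V q1 q2 e]
    exact neg_zero.ge
  | succ z =>
    obtain ⟨a, h⟩ := (andb_eq _ _).1 h
    have o := lit_odd (hm _ a)
    have e := lit_even (hm _ a)
    change @Atom.rec (fun _ => Bool) _ _ _ _ _ (tb (z / 2)) = true at h
    generalize tb (z / 2) = a at h o e
    cases a with
    | poly q =>
      obtain ⟨b, h⟩ := (andb_eq _ _).1 h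
      have ev : Po.ev K.v (R.nrm (ifb (Po.isZ F) q F)) = Po.ev K.v (R.nrm q) := by
        rw [ifb_eq]
        split_ifs with z
        · rfl
        · exact eqv_ok V q1 q2 (((orb_eq _ _).1 b).resolve_left z)
      simp only [ifb_eq (bit z _), bit0] at h
      split_ifs at h with c
      · exact core_ok h0 hk V hf q1 q2 hp hz h (ev ▸ o c)
      · exact core_ok h0 hk V hf q1 q2 hp hz h (ev ▸ neg_nonneg.2 (not_lt.1 (e c)))
    | _ => exact absurd h Bool.false_ne_true

end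

end Pool.Agent.P.MP_53fdf1_co.Cut
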