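import Pool.Agent.P.MP_53fdf1_co.RCNum

set_option autoImplicit false

namespace Pool.Agent.P.MP_53fdf1_co.Cut

open Q (frc andb orb ifb frc_eq andb_eq orb_eq ifb_eq)

open R (Cfg Valid Po)

noncomputable section

def La (K : Cfg) (v : ℕ) : ℝ := |K.lp v|

def Lz (K : Cfg) : ℕ → ℝ
  | 0 => 1
  | v + 1 => La K v

def Of (K : Cfg) : ℕ → ℝ
  | 0 => 1
  | z + 1 => La K (2 * z) - La K (2 * z + 1)

def Mo (K : Cfg) (X : Cx) (y : ℕ) : ℝ :=
  Lz K (y / 4096) * (La K (32 * X.p1) ^ (y / 64 % 64) * La K (32 * X.p2) ^ (y % 64))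

def sn (g : Bool) (x : ℝ) : ℝ := if g = true then x else -x

def EL.val (M : ℕ → ℝ) : EL → ℝ
  | .nil => 0
  | .cons y g a r => sn g a * M y + r.val M

structure Ok (K : Cfg) (X : Cx) : Prop where
  V : Valid K
  p1 : X.p1 < 26
  p2 : X.p2 < 26
  P1 : PcOk X.P1 (K.sy X.p1 0) (K.sy X.p1 1) (1 - K.sy X.p1 1) (La K (32 * X.p1))
  P2 : PcOk X.P2 (K.sy X.p2 0) (K.sy X.p2 1) (1 - K.sy X.p2 1) (La K (32 * X.p2))
  pm : ∀ v, bit X.pm v = true → 0 < La K v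
  zm : ∀ v, bit X.zm v = true → La K v = 0

variable {K : Cfg} {X : Cx}

theorem La0 (K : Cfg) (v : ℕ) : 0 ≤ La K v := abs_nonneg _

theorem Lz0 (K : Cfg) (v : ℕ) : 0 ≤ Lz K v := by
  cases v
  exacts [zero_le_one, La0 K _]

theorem Mo0 (K : Cfg) (X : Cx) (y : ℕ) : 0 ≤ Mo K X y :=
  mul_nonneg (Lz0 K _) (mul_nonneg (pow_nonneg (La0 K _) _) (pow_nonneg (La0 K _) _))

theorem La_eq (V : Valid K) {v : ℕ} (h : v ≤ 831) : La K v = K.lp v := abs_of_nonneg (V.lp_nonneg (by omega))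

theorem Mo_eq (K : Cfg) (X : Cx) (v : ℕ) {a b : ℕ} (ha : a ≤ 63) (hb : b ≤ 63) :
    Mo K X (v * 4096 + (a * 64 + b)) = Lz K v * (La K (32 * X.p1) ^ a * La K (32 * X.p2) ^ b) := by
  rw [Mo, show (v * 4096 + (a * 64 + b)) / 4096 = v by omega, show (v * 4096 + (a * 64 + b)) / 64 % 64 = a by omega,
    show (v * 4096 + (a * 64 + b)) % 64 = b by omega]

theorem off_eq (V : Valid K) {z : ℕ} (h : z / 16 < 26) :
    K.sy (z / 16) (z % 16) = Of K (z + 1) * K.sy (z / 16) 1 ^ dg (z % 16) := by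
  have c : 0 < K.sy (z / 16) 1 := by linarith [(V.cpos h).1]
  have b0 : R.bit (2 * z) = false := by rw [← Bool.not_eq_true, R.bit_eq]; omega
  have b1 : R.bit (2 * z + 1) = true := by rw [R.bit_eq]; omega
  have d : dg (z % 16) = if z % 16 < 9 then 1 else 2 := by
    simp only [dg, ifb_eq, Nat.ble_eq]
    split_ifs <;> first | rfl | omega
  rw [Of, La_eq V (by omega), La_eq V (by omega), Cfg.lp, Cfg.lp, b0, b1, d, show 2 * z / 32 = z / 16 by omega,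
    show (2 * z + 1) / 32 = z / 16 by omega, show 2 * z / 2 % 16 = z % 16 by omega,
    show (2 * z + 1) / 2 % 16 = z % 16 by omega, ← sub_div, div_mul_cancel₀ _ (pow_pos c _).ne']
  exact (max_zero_sub_max_neg_zero_eq_self _).symm

theorem sy_ok (V : Valid K) {P : Pc} {t F : ℝ} {z u d a e o : ℕ} {k : ℕ → ℕ → ℕ → ℕ → ℕ → Bool} (hz : z / 16 < 26)
    (hP : PcOk P (K.sy (z / 16) 0) (K.sy (z / 16) 1) (1 - K.sy (z / 16) 1) t) (h1 : (d : ℝ) ≤ F) (h2 : F ≤ u)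
    (h : sy P (z % 16) z u d a e o k = true) : ∃ (u' d' a' e' o' : ℕ) (F' : ℝ), k u' d' a' e' o' = true ∧
      (d' : ℝ) ≤ F' ∧ F' ≤ u' ∧ F' * (t ^ a' * K.sy (z / 16) 1 ^ e') * Of K o' =
        F * (t ^ a * K.sy (z / 16) 1 ^ e) * Of K o * K.sy (z / 16) (z % 16) := by
  simp only [sy, ifb_eq, Nat.beq_eq, Nat.add_eq] at h
  split_ifs at h with j0 j1 j2
  · obtain ⟨f, f0, f1, f2, f3⟩ := hP.fs
    refine ⟨_, _, _, _, _, F * f, h, mD_ok h1 f1, mU_ok h2 f2 f0, ?_⟩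
    rw [j0, f3]
    ring
  · refine ⟨_, _, _, _, _, F, h, h1, h2, ?_⟩
    rw [j1, pow_succ]
    ring
  · obtain ⟨f, f0, f1, f2, f3⟩ := hP.fw
    refine ⟨_, _, _, _, _, F * f, h, mD_ok h1 f1, mU_ok h2 f2 f0, ?_⟩
    rw [j2, R.ev_cP V.hom, f3]
    ring
  · simp only [andb_eq, Nat.beq_eq] at h
    obtain ⟨rfl, h⟩ := h
    refine ⟨_, _, _, _, _, F, h, h1, h2, ?_⟩
    rw [off_eq V hz, pow_add, show Of K 0 = 1 from rfl]
    ring

def Wt (K : Cfg) (X : Cx) (F : ℝ) (a1 a2 e1 e2 o : ℕ) : ℝ :=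
  F * (La K (32 * X.p1) ^ a1 * K.sy X.p1 1 ^ e1) * (La K (32 * X.p2) ^ a2 * K.sy X.p2 1 ^ e2) * Of K o

theorem trm_succ (V : Valid K) (f n : ℕ) : Po.ev K.v (R.trm (f + 1) n) = if n = 0 then 1 else
    K.sy ((n % 512 - 1) / 16) ((n % 512 - 1) % 16) * Po.ev K.v (R.trm f (n / 512)) := by
  change Po.ev K.v (R.iff (Nat.beq n 0) (Po.cst false 1) (Po.mul (R.symP ((n % 512 - 1) / 16) ((n % 512 - 1) % 16))
    (R.trm f (n / 512)))) = _
  simp only [R.iff_eq, Nat.beq_eq]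
  split_ifs
  · simp [Po.ev_cst V.hom, R.sg]
  · rw [Po.ev_mul V.hom]
    rfl

theorem tm_ok (H : Ok K X) {k : ℕ → ℕ → ℕ → ℕ → ℕ → ℕ → ℕ → Bool} (f : ℕ) :
    ∀ (n u d a1 a2 e1 e2 o : ℕ) (F : ℝ), (d : ℝ) ≤ F → F ≤ u → tm X k f n u d a1 a2 e1 e2 o = true →
    ∃ (u' d' b1 b2 g1 g2 o' : ℕ) (F' : ℝ), k u' d' b1 b2 g1 g2 o' = true ∧ (d' : ℝ) ≤ F' ∧ F' ≤ u' ∧
      Wt K X F' b1 b2 g1 g2 o' = Wt K X F a1 a2 e1 e2 o * Po.ev K.v (R.trm f n) := by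
  induction f with
  | zero =>
    intro n u d a1 a2 e1 e2 o F h1 h2 h
    refine ⟨_, _, _, _, _, _, _, F, h, h1, h2, ?_⟩
    change _ = _ * Po.ev K.v (Po.cst false 1)
    simp [Po.ev_cst H.V.hom, R.sg]
  | succ f ih =>
    intro n u d a1 a2 e1 e2 o F h1 h2 h
    change ifb (Nat.beq n 0) (k u d a1 a2 e1 e2 o) (ifb (Nat.beq ((n % 512 - 1) / 16) X.p1)
      (sy X.P1 ((n % 512 - 1) % 16) (n % 512 - 1) u d a1 e1 o fun u d a e o => tm X k f (n / 512) u d a a2 e e2 o)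
      (ifb (Nat.beq ((n % 512 - 1) / 16) X.p2)
        (sy X.P2 ((n % 512 - 1) % 16) (n % 512 - 1) u d a2 e2 o fun u d a e o => tm X k f (n / 512) u d a1 a e1 e o)
        false)) = true at h
    rw [trm_succ H.V]
    simp only [ifb_eq, Nat.beq_eq] at h
    split_ifs at h ⊢ with n0 q1 q2
    · exact ⟨_, _, _, _, _, _, _, F, h, h1, h2, (mul_one _).symm⟩
    · obtain ⟨u', d', a', e', o', F', h, k1, k2, k3⟩ := sy_ok H.V (q1 ▸ H.p1) (q1 ▸ H.P1) h1 h2 h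
      obtain ⟨u, d, b1, b2, g1, g2, o, G, h, m1, m2, m3⟩ := ih _ _ _ _ _ _ _ _ _ k1 k2 h
      refine ⟨_, _, _, _, _, _, _, G, h, m1, m2, ?_⟩
      rw [m3, ← mul_assoc]
      congr 1
      simp only [Wt, ← q1]
      linear_combination (La K (32 * X.p2) ^ a2 * K.sy X.p2 1 ^ e2) * k3
    · obtain ⟨u', d', a', e', o', F', h, k1, k2, k3⟩ := sy_ok H.V (q2 ▸ H.p2) (q2 ▸ H.P2) h1 h2 h
      obtain ⟨u, d, b1, b2, g1, g2, o, G, h, m1, m2, m3⟩ := ih _ _ _ _ _ _ _ _ _ k1 k2 h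
      refine ⟨_, _, _, _, _, _, _, G, h, m1, m2, ?_⟩
      rw [m3, ← mul_assoc]
      congr 1
      simp only [Wt, ← q2]
      linear_combination (La K (32 * X.p1) ^ a1 * K.sy X.p1 1 ^ e1) * k3

theorem cp_ok {P : Pc} {s c w t F : ℝ} (hP : PcOk P s c w t) {e C u d : ℕ} {k : ℕ → ℕ → Bool} (h1 : (d : ℝ) ≤ F)
    (h2 : F ≤ u) (h : cp P e C u d k = true) :
    ∃ u' d' : ℕ, k u' d' = true ∧ (d' : ℝ) ≤ F * (c ^ e / c ^ C) ∧ F * (c ^ e / c ^ C) ≤ u' := by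
  simp only [cp, frc_eq, ifb_eq, Nat.ble_eq, Nat.sub_eq] at h
  split_ifs at h with q
  · rw [div_eq_mul_inv, ← pow_sub₀ c hP.c0.ne' q]
    exact ⟨_, _, h, pwD_ok h1 hP.cl _, pwU_ok h2 hP.cu hP.c0.le _⟩
  · have : c ^ e / c ^ C = c⁻¹ ^ (C - e) := by
      rw [inv_pow, pow_sub₀ c hP.c0.ne' (not_le.1 q).le, mul_inv, inv_inv, div_eq_mul_inv, mul_comm]
    rw [this]
    exact ⟨_, _, h, pwD_ok h1 hP.il _, pwU_ok h2 hP.iu (inv_pos.2 hP.c0).le _⟩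

theorem sn_le {g : Bool} {F M : ℝ} {u d : ℕ} (h1 : (d : ℝ) ≤ F) (h2 : F ≤ u) (M0 : 0 ≤ M) :
    sn g (F * M) ≤ sn g (ifb g u d : ℕ) * M := by
  cases g
  · have := mul_le_mul_of_nonneg_right h1 M0
    simp only [sn, ifb_eq, Bool.false_eq_true, if_false]
    linarith
  · simpa only [sn, ifb_eq, if_true] using mul_le_mul_of_nonneg_right h2 M0

theorem put_ok (H : Ok K X) {v a b u d : ℕ} {g : Bool} {r : EL} {k : EL → Bool} {F : ℝ} (ha : a ≤ 63) (hb : b ≤ 63)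
    (h1 : (d : ℝ) ≤ F) (h2 : F ≤ u) (h : put X.zm v (a * 64 + b) g u d r k = true) : ∃ r', k r' = true ∧
      r.val (Mo K X) + sn g (F * (La K v * (La K (32 * X.p1) ^ a * La K (32 * X.p2) ^ b))) ≤ r'.val (Mo K X) := by
  simp only [put, frc_eq, ifb_eq _ (k r), Nat.add_eq, Nat.mul_eq] at h
  split_ifs at h with q
  · refine ⟨r, h, ?_⟩
    simp [H.zm v q, sn]
  · refine ⟨_, h, ?_⟩
    rw [EL.val, Mo_eq K X _ ha hb, add_comm]
    exact add_le_add (sn_le h1 h2 (mul_nonneg (La0 K _)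
      (mul_nonneg (pow_nonneg (La0 K _) _) (pow_nonneg (La0 K _) _)))) le_rfl

theorem sn_nb (g : Bool) (x : ℝ) : sn (nb g) x = -sn g x := by
  cases g <;> simp [sn, nb, ifb_eq]

theorem emit_ok (H : Ok K X) {g : Bool} {r : EL} {k : EL → Bool} {u d a1 a2 e1 e2 o : ℕ} {F : ℝ}
    (h1 : (d : ℝ) ≤ F) (h2 : F ≤ u) (h : emit X g r k u d a1 a2 e1 e2 o = true) : ∃ r', k r' = true ∧
      r.val (Mo K X) + sn g (Wt K X F a1 a2 e1 e2 o / (K.sy X.p1 1 ^ X.C1 * K.sy X.p2 1 ^ X.C2)) ≤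
        r'.val (Mo K X) := by
  simp only [emit, frc_eq, ifb_eq _ (k r)] at h
  split_ifs at h with q
  · refine ⟨r, h, ?_⟩
    simp only [zt, orb_eq, andb_eq, Nat.ble_eq, Nat.mul_eq] at q
    have : Wt K X F a1 a2 e1 e2 o = 0 := by
      rcases q with ⟨a, q⟩ | ⟨a, q⟩ <;> simp [Wt, H.zm _ q, Nat.one_le_iff_ne_zero.1 a]
    simp [this, sn]
  · simp only [andb_eq, Nat.ble_eq] at h
    obtain ⟨b1, b2, h⟩ := h
    obtain ⟨u, d, h, h1, h2⟩ := cp_ok H.P1 h1 h2 h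
    obtain ⟨u, d, h, h1, h2⟩ := cp_ok H.P2 h1 h2 h
    have e : Wt K X F a1 a2 e1 e2 o / (K.sy X.p1 1 ^ X.C1 * K.sy X.p2 1 ^ X.C2) =
        F * (K.sy X.p1 1 ^ e1 / K.sy X.p1 1 ^ X.C1) * (K.sy X.p2 1 ^ e2 / K.sy X.p2 1 ^ X.C2) *
          (Of K o * (La K (32 * X.p1) ^ a1 * La K (32 * X.p2) ^ a2)) := by
      rw [Wt]
      ring
    rw [e]
    cases o with
    | zero =>
      refine ⟨_, h, ?_⟩
      have m := Mo_eq K X 0 b1 b2
      rw [Nat.zero_mul, Nat.zero_add] at m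
      rw [EL.val, add_comm]
      refine add_le_add ?_ le_rfl
      have := sn_le (g := g) h1 h2 (Mo0 K X (a1 * 64 + a2))
      rw [m] at this
      exact this.trans_eq (congrArg _ m.symm)
    | succ z =>
      obtain ⟨r1, h, k1⟩ := put_ok H b1 b2 h1 h2 h
      obtain ⟨r2, h, k2⟩ := put_ok H b1 b2 h1 h2 h
      refine ⟨r2, h, le_trans (le_of_eq ?_) ((add_le_add k1 le_rfl).trans k2)⟩
      rw [sn_nb, Of]
      cases g <;> simp only [sn, Nat.mul_eq, Nat.succ_eq_add_one, if_true, Bool.false_eq_true, if_false] <;> ring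

theorem t1_ok (H : Ok K X) {g : Bool} {n m : ℕ} {r : EL} {k : EL → Bool} (h : t1 X g n m r k = true) :
    ∃ r', k r' = true ∧ r.val (Mo K X) + sn g (n * Po.ev K.v (R.trm 16 m)) *
      (2 ^ 96 / (K.sy X.p1 1 ^ X.C1 * K.sy X.p2 1 ^ X.C2)) ≤ r'.val (Mo K X) := by
  rw [t1, frc_eq] at h
  obtain ⟨u, d, b1, b2, g1, g2, o, F, h, m1, m2, m3⟩ := tm_ok H _ _ _ _ _ _ _ _ _ _ le_rfl le_rfl h
  obtain ⟨r', h, k1⟩ := emit_ok H m1 m2 h
  refine ⟨r', h, le_trans (le_of_eq ?_) k1⟩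
  have e : ((Nat.shiftLeft n 96 : ℕ) : ℝ) = n * 2 ^ 96 := by
    rw [show Nat.shiftLeft n 96 = n * 2 ^ 96 from Nat.shiftLeft_eq n 96, Nat.cast_mul, Nat.cast_pow, Nat.cast_ofNat]
  rw [m3, Wt, e, show Of K (nat_lit 0) = 1 from rfl]
  generalize (2 : ℝ) ^ 96 = T
  cases g <;> simp only [sn, if_true, Bool.false_eq_true, if_false, pow_zero] <;> ring

theorem ph_ok (H : Ok K X) {g : Bool} {k : EL → Bool} (l : Po) : ∀ r : EL, ph X g k l r = true →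
    ∃ r', k r' = true ∧ r.val (Mo K X) + R.sg g (Po.ev K.v (R.nrm l)) *
      (2 ^ 96 / (K.sy X.p1 1 ^ X.C1 * K.sy X.p2 1 ^ X.C2)) ≤ r'.val (Mo K X) := by
  induction l with
  | nil =>
    intro r h
    refine ⟨r, h, ?_⟩
    change _ + R.sg g 0 * _ ≤ _
    cases g <;> simp [R.sg]
  | cons a c m t ih =>
    intro r h
    change ifb (R.xr a g) (t1 X false c m r (ph X g k t)) (t1 X true c m r (ph X g k t)) = true at h
    have e : Po.ev K.v (R.nrm (.cons a c m t)) = R.sg a c * Po.ev K.v (R.trm 16 m) + Po.ev K.v (R.nrm t) := by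
      change Po.ev K.v (Po.add (Po.mulT a c 1 (R.trm 16 m)) (R.nrm t)) = _
      rw [Po.ev_add, Po.ev_mulT H.V.hom, H.V.hom.one, mul_one]
    rw [e]
    cases a <;> cases g
    all_goals
      obtain ⟨r1, h, k1⟩ := t1_ok H h
      obtain ⟨r2, h, k2⟩ := ih _ h
      refine ⟨r2, h, le_trans (le_of_eq ?_) ((add_le_add k1 le_rfl).trans k2)⟩
      simp only [sn, R.sg, cond_true, cond_false, if_true, Bool.false_eq_true, if_false]
      ring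

end

end Pool.Agent.P.MP_53fdf1_co.Cut
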