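set_option autoImplicit false

namespace Pool.Agent.P.MP_53fdf1_co.RRup

/-! The tests that are evaluated on the certificates; they are proved sound in the next files. -/

/-- search trees of numbers -/
inductive T : Type
  | l : Nat → T
  | n : Nat → T → T → T

noncomputable section

/-- `8 f` applications of `s` -/
def itr {α : Type} (s : α → α) (z : α) (f : Nat) : α :=
  Nat.rec z (fun _ k => s (s (s (s (s (s (s (s k)))))))) f

/-- the set of small literals -/
def low (c : Nat) : Nat := Nat.mod (Nat.div c 1024) (Nat.shiftLeft 1 (Nat.mod c 1024))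

/-- the other literals -/
def dig (c : Nat) : Nat := Nat.shiftRight c (Nat.add 10 (Nat.mod c 1024))

def memS (l : Nat) (k : Nat → Bool) (c : Nat) : Bool := Nat.rec (motive := fun _ => Bool) false
  (fun p _ => Bool.rec (k (Nat.div c 1048576)) true (Nat.beq (Nat.succ p) l)) (Nat.mod c 1048576)

/-- membership of a literal in a clause -/
def memC (c l : Nat) : Bool := Bool.rec (itr (memS l) (fun _ => false) 128 (dig c)) true
  (Nat.beq (Nat.mod (Nat.shiftRight (low c) l) 2) 1)

/-- union of the sets attached to the digits; `β p` belongs to the digit `p + 1` -/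
def mk (β : Nat → Nat) : Nat → Nat := itr (fun k c => Nat.rec (motive := fun _ => Nat) 0
  (fun p _ => Nat.lor (β p) (k (Nat.div c 1048576))) (Nat.mod c 1048576)) (fun _ => 0) 128

def mkC (β : Nat → Nat) (c : Nat) : Nat := Nat.lor (low c) (mk β (dig c))

def mkI (β : Nat → Nat) (c : Nat) : Nat := Nat.lor (Nat.sub 1 (Nat.sub 1 (low c))) (mk β (dig c))

/-- the local number of an atom, zero if the tables disagree -/
def loc (Y : Nat) (σ τ : Nat → Nat) (g : Nat) : Nat := Nat.sub (τ g)
  (Nat.mul (τ g) (Nat.add (Nat.xor (σ (τ g)) g) (Nat.div (τ g) Y)))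

/-- the local literal of the literal `p + 1`, as a set -/
def bet (Y : Nat) (σ τ : Nat → Nat) (p : Nat) : Nat := Nat.rec (motive := fun _ => Nat) 0
  (fun g _ => Nat.shiftLeft 1 (Nat.add (Nat.mul 2 (loc Y σ τ g))
    (Nat.sub (loc Y σ τ g) (Nat.sub (loc Y σ τ g) (Nat.mod (Nat.succ p) 2)))))
  (Nat.div (Nat.add p 3) 2)

/-- the local literal of the image of the literal `p + 1` -/
def psi (β : Nat → Nat) (π : Nat → Nat → Nat) (g p : Nat) : Nat := Nat.rec (motive := fun _ => Nat) 1
  (fun y _ => Nat.lor (β y) 0) (π g (Nat.succ p))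

/-- unit propagation along hints written in base `id`; a hint names a clause and a literal -/
def rup (pm pb : Nat → Nat) (id : Nat) : Nat → Nat → Nat → Nat := itr (fun k h N e =>
  Nat.rec (motive := fun _ => Nat) (Nat.lor e (Nat.mod N 2)) (fun p _ =>
    k (Nat.div h id) (Nat.land N (pb p)) (Nat.lor e (Nat.land (pm p) N))) (Nat.mod h id))
  (fun _ _ _ => 1) 100000

/-- the same without a conflict: the literals that are not found false -/
def run (pm pb : Nat → Nat) (X id : Nat) : Nat → Nat → Nat → Nat := itr (fun k h N e =>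
  Nat.rec (motive := fun _ => Nat) (Nat.lor N (Nat.sub (Nat.shiftLeft e X) 1)) (fun p _ =>
    k (Nat.div h id) (Nat.xor N (pb p)) (Nat.lor e (Nat.land (pm p) N))) (Nat.mod h id))
  (fun _ N e => Nat.lor N (Nat.sub (Nat.shiftLeft e X) 1)) 100000

/-- the negation of the literal of a hint -/
def pbE (pt : Nat → Nat) (p : Nat) : Nat := Nat.shiftLeft 1 (Nat.xor (Nat.mod (pt p) 65536) 1)

/-- the other literals of the clause of a hint -/
def pmE (ms pt : Nat → Nat) (X ni c b p : Nat) : Nat := Nat.rec (motive := fun _ => Nat)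
  (Nat.lor (pbE pt p) (Nat.sub 1 (Nat.sub X (Nat.mod (pt p) 65536))))
  (fun j _ => (fun B => Nat.xor (Nat.lor (ms j) B) B) (Nat.shiftLeft 1 (Nat.mod (pt p) 65536)))
  (Nat.mod (Nat.div (pt p) 65536) (Nat.succ (Nat.add ni (Nat.div (Nat.sub (Nat.add p c) b) c))))

/-- the literals that are not found false when `l` is true -/
def bun (pm pb hb : Nat → Nat) (X b C l : Nat) : Nat :=
  run pm pb X (Nat.succ b) (hb l) (Nat.xor C (Nat.shiftLeft 1 (Nat.xor l 1))) 0

def pcE (bu pt : Nat → Nat) (p : Nat) : Nat := Nat.rec (motive := fun _ => Nat) 0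
  (fun l _ => Nat.lor (bu l) 0) (Nat.succ (Nat.mod (pt p) 65536))

/-- union of the values at `n` indices from `b - 1` on -/
def lin (p : Nat → Nat) (b n : Nat) : Nat := Nat.rec (motive := fun _ => Nat) 0
  (fun t ih => Nat.lor (Nat.rec (motive := fun _ => Nat) 1 (fun i _ => p i) (Nat.add b t)) ih) n

/-- union of the values at all indices in a range -/
def allZ (p : Nat → Nat) (lo hi : Nat) : Nat := lin (fun a => (fun b => lin p (Nat.succ b)
  (Nat.sub 128 (Nat.sub 128 (Nat.sub hi b)))) (Nat.add lo (Nat.mul 128 a))) 1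
  (Nat.succ (Nat.div (Nat.sub hi lo) 128))

/-- the clause of entry `i`: one of an earlier block, or given -/
def cdE (D : Nat → Nat) (m ni : Nat) (rf ow : Nat → Nat) (i : Nat) : Nat :=
  Nat.rec (motive := fun _ => Nat) (D (Nat.mod (rf i) m)) (fun _ _ => ow i)
    (Nat.sub (Nat.succ i) ni)

/-- the set of literals of entry `i` -/
def msk (β : Nat → Nat) (π : Nat → Nat → Nat) (D : Nat → Nat) (m ni F : Nat) (rf ow au : Nat → Nat)
    (i : Nat) : Nat :=
  Nat.rec (motive := fun _ => Nat) (mkC β (D (Nat.mod (rf i) m))) (fun _ _ =>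
    Nat.rec (motive := fun _ => Nat) (Nat.lor F (mkC β (ow i))) (fun g _ =>
      Nat.rec (motive := fun _ => Nat) 1 (fun j _ => mkI (psi β π g) (cdE D m ni rf ow j))
        (Nat.mod (Nat.div (au i) 64) (Nat.succ i))) (Nat.mod (au i) 64))
    (Nat.sub (Nat.succ i) ni)

/-- a derived entry: by unit propagation, or image of an earlier entry under a symmetry -/
def step (β pm pb : Nat → Nat) (A C ni c b : Nat) (cd au ms : Nat → Nat) (i : Nat) : Nat :=
  Nat.rec (motive := fun _ => Nat)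
    (Nat.lor (Nat.sub ni i) (rup pm pb (Nat.succ (Nat.add b (Nat.mul c (Nat.sub i ni))))
      (Nat.div (au i) 64) (Nat.land C (Nat.xor A (ms i))) 0)) (fun _ _ =>
      Nat.rec (motive := fun _ => Nat) 0
        (fun j _ => Nat.lor (Nat.mod (ms j) 2) (Nat.xor (ms j) (mkC β (cd j))))
        (Nat.mod (Nat.div (au i) 64) (Nat.succ i))) (Nat.mod (au i) 64)

/-- clause `z` follows from an entry -/
def expo (β D ms ex : Nat → Nat) (n z : Nat) : Nat := Nat.rec (motive := fun _ => Nat) 1
  (fun i _ => (fun M => Nat.lor (Nat.mod M 2) (Nat.xor (Nat.lor (ms i) M) M)) (mkC β (D z)))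
  (Nat.mod (ex z) (Nat.succ n))

/-- a block proves the clauses from `m` to `m'` -/
def block (π : Nat → Nat → Nat) (D : Nat → Nat) (m m' Y ni nj n c b F : Nat)
    (σ τ rf ow au ex pt hb : Nat → Nat) : Nat :=
  (fun β X => (fun ms A => (fun pm => (fun C =>
    Nat.lor (Nat.lor (Nat.lor (Nat.sub 1 m) (Nat.sub 512 Y))
      (allZ (fun a => Nat.xor (σ a) a) 0 512))
      (Nat.lor (allZ (step β pm (pcE (bun pm (pbE pt) hb X b C) pt) A C
        nj c b (cdE D m ni rf ow) au ms) ni n) (allZ (expo β D ms ex n) m m')))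
    (run pm (pbE pt) X (Nat.succ b) (hb 0) (Nat.xor A F) 0)) (pmE ms pt X nj c b))
    (msk β π D m ni F rf ow au) (Nat.pred (Nat.shiftLeft 1 X))) (bet Y σ τ) (Nat.mul 2 Y)

/-- test of a row of the table of images -/
def wk (S : Nat → Nat → Bool) (R : Nat) : Nat := Nat.rec (motive := fun _ => Nat) 0 (fun _ _ =>
  lin (fun g => Nat.rec (motive := fun _ => Nat) 0 (fun y _ => Bool.rec 1 0 (S g (Nat.succ y)))
    (Nat.mod (Nat.shiftRight R (Nat.mul 20 g)) 1048576)) 1 63) R

/-- the table of images -/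
def pi (row : Nat → Nat) (L g l : Nat) : Nat :=
  Nat.sub (Nat.mod (Nat.shiftRight (row l) (Nat.mul 20 g)) 1048576)
    (Nat.mul (Nat.sub (Nat.succ l) L) 1048576)

def T.get (t : T) (i : Nat) : Nat :=
  @T.rec (fun _ => Nat) (fun a => Nat.shiftRight a 24) (fun p _ _ x y => @Bool.rec (fun _ => Nat) x y (Nat.ble p i)) t

/-- entry `i` of a table whose leaves hold `k` entries after their offsets -/
def pg (k : Nat) (t : T) (i : Nat) : Nat := @Nat.rec (fun _ => Nat) 0
  (fun q _ => (fun o => Nat.mod (Nat.shiftRight (t.get q) (Nat.mod o 1048576))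
    (Nat.shiftLeft 1 (Nat.sub (Nat.mod (Nat.div o 1048576) 1048576) (Nat.mod o 1048576))))
    (Nat.shiftRight (Nat.mod (t.get q) (Nat.shiftLeft 1 (Nat.mul 20 (Nat.succ k)))) (Nat.mul 20 (Nat.mod i k))))
  (Nat.div (Nat.add i k) k)

/-- entry `i` of a table whose leaves hold 64 entries of `w` bits -/
def fw (w : Nat) (t : T) (i : Nat) : Nat := @Nat.rec (fun _ => Nat) 0
  (fun q _ => Nat.mod (Nat.shiftRight (t.get q) (Nat.mul w (Nat.mod i 64))) (Nat.shiftLeft 1 w))
  (Nat.div (Nat.add i 64) 64)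

/-- a table read from position `b` on -/
def off (b : Nat) (f : Nat → Nat) (i : Nat) : Nat := f (Nat.sub i b)

/-- a clause given directly or by its number -/
def own (D : Nat → Nat) (m b : Nat) (f : Nat → Nat) (i : Nat) : Nat := (fun c => @Nat.rec (fun _ => Nat)
  (Nat.div c 2) (fun _ _ => D (Nat.add m (Nat.div c 2))) (Nat.mod c 2)) (f (Nat.sub i b))

/-- two pieces of a long number; the last 24 bits of a piece only serve to tell pieces apart -/
def J (x y : Nat) : Nat := Nat.add x (Nat.shiftLeft (Nat.shiftRight y 24) 1048)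

/-- sum and union over digits in base 1024; `f v` belongs to the digit `v + 1` -/
def sumD (f : Nat → Nat) : Nat → Nat := itr (fun k c => Nat.rec (motive := fun _ => Nat) 0
  (fun v _ => Nat.add (f v) (k (Nat.div c 1024))) (Nat.mod c 1024)) (fun _ => 0) 3

def orD (f : Nat → Nat) : Nat → Nat := itr (fun k c => Nat.rec (motive := fun _ => Nat) 0
  (fun v _ => Nat.lor (f v) (k (Nat.div c 1024))) (Nat.mod c 1024)) (fun _ => 0) 3

section
variable (ta ι : Nat → Nat)

/-- zero if `ι v` is the number of the atom saying that variable `v` is positive -/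
def bad (v : Nat) : Nat := Nat.add (Nat.xor (ta (ι v)) (Nat.add 2 (Nat.mul 8 v)))
  (Nat.add (Nat.div (ι v) 512) (Nat.div v 832))

def vb (v : Nat) : Nat := Nat.shiftLeft 1 (Nat.add (Nat.succ (Nat.mul 2 (ι v)))
  (Nat.sub 1024 (Nat.sub 1024 (Nat.mul 1024 (bad ta ι v)))))

def vc (W v : Nat) : Nat := Nat.shiftLeft 1 (Nat.mul W (ι v))

/-- code of the atom of the literal `p + 1`, and the two sides of its negation -/
def cN (p : Nat) : Nat := ta (Nat.div (Nat.succ p) 2)

def cA (p : Nat) : Nat := Nat.mod (Nat.shiftRight (cN ta p) (Nat.add 32 (Nat.mul 240 (Nat.mod p 2))))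
  (Nat.shiftLeft 1 240)

def cB (p : Nat) : Nat := Nat.mod (Nat.shiftRight (cN ta p) (Nat.sub 272 (Nat.mul 240 (Nat.mod p 2))))
  (Nat.shiftLeft 1 240)

def cE (p : Nat) : Nat := Nat.mod (Nat.div (cN ta p) 256) 16777216

def cU (p : Nat) : Nat := Nat.mul (cE ta p) (Nat.mod (Nat.add (Nat.succ p) (Nat.div (cN ta p) 8)) 2)

def cS (p : Nat) : Nat := Nat.mod (Nat.add p (Nat.div (cN ta p) 16)) 2

def bA (p : Nat) : Nat := orD (vb ta ι) (cA ta p)

def bB (p : Nat) : Nat := orD (vb ta ι) (cB ta p)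

def okM (p : Nat) : Nat := Nat.sub 1 (Nat.add (Nat.xor (Nat.mod (cN ta p) 8) 3)
  (Nat.shiftRight (Nat.lor (bA ta ι p) (bB ta ι p)) 1024))

def fa (p : Nat) : Nat := Nat.mul (Nat.mul (okM ta ι p) (Nat.sub 1 (cS ta p))) (bA ta ι p)

def fb (p : Nat) : Nat := Nat.add (Nat.mul (okM ta ι p) (bB ta ι p))
  (Nat.shiftLeft (Nat.sub 1 (okM ta ι p)) (Nat.succ p))

def fP (W p : Nat) : Nat := Nat.mul (okM ta ι p) (Nat.add (sumD (vc ι W) (cA ta p))
  (Nat.shiftLeft (cU ta p) (Nat.mul 513 W)))

def fQ (W p : Nat) : Nat := Nat.mul (okM ta ι p) (Nat.add (sumD (vc ι W) (cB ta p))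
  (Nat.shiftLeft (Nat.add (Nat.shiftLeft (Nat.sub (cE ta p) (cU ta p)) W) (cS ta p))
    (Nat.mul 512 W)))

/-- a static bound -/
def fS (W v : Nat) : Nat := Nat.mul (Nat.sub 1 (Nat.add (bad ta ι v) (Nat.div (Nat.mod v 32)
    (Nat.sub (Nat.sub 30 (Nat.mul 16 (Nat.sub 1 (Nat.sub 1 (Nat.div v 192))))) (Nat.mul 4 (Nat.div v 576))))))
  (Nat.add (vc ι W v) (Nat.shiftLeft (Nat.sub 64 (Nat.sub 64 (Nat.mul 64 (Nat.mod v 32))))
    (Nat.mul 513 W)))

/-- the final test -/
def finF (W a e pm P Q w : Nat) : Nat := Nat.lor e (Nat.mul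
  (Nat.sub 3 (Nat.mod (Nat.shiftRight pm (Nat.mul 2 a)) 4))
  (Nat.add (Nat.add (Nat.shiftRight (Nat.mul 25 w) W)
    (Nat.mod (Nat.xor P Q) (Nat.shiftLeft 1 (Nat.mul 512 W))))
    (Nat.sub (Nat.succ (Nat.shiftRight P (Nat.mul 512 W))) (Nat.shiftRight Q (Nat.mul 512 W)))))

def staS (W B : Nat) (z : Nat → Nat → Nat) (k : Nat → Nat → Nat → Nat) (h P w : Nat) : Nat :=
  Nat.rec (motive := fun _ => Nat) (z P w) (fun v _ => k (Nat.div (Nat.div h 1024) B)
    (Nat.add P (Nat.mul (Nat.mod (Nat.div h 1024) B) (fS ta ι W v)))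
    (Nat.add w (Nat.mod (Nat.div h 1024) B))) (Nat.mod h 1024)

def sta (W B a h e pm P Q w : Nat) : Nat :=
  (fun z => itr (staS ta ι W B z) (fun _ P w => z P w) 16 h P w) fun P w => finF W a e pm P Q w

/-- run through the literals with multipliers in base `B` -/
def far (W B a : Nat) : Nat → Nat → Nat → Nat → Nat → Nat → Nat → Nat := itr (fun k c h e pm P Q w =>
  Nat.rec (motive := fun _ => Nat) (sta ta ι W B a h e pm P Q w) (fun p _ =>
    (fun lam pm' => k (Nat.div c 1048576) (Nat.div h B)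
      (Nat.lor e (Nat.mul lam (Nat.xor (Nat.land (fb ta ι p) pm') (fb ta ι p)))) pm'
      (Nat.add P (Nat.mul lam (fP ta ι W p))) (Nat.add Q (Nat.mul lam (fQ ta ι W p)))
      (Nat.add w lam)) (Nat.mod h B)
      (Nat.lor pm (Nat.sub (fb ta ι p) (Nat.shiftLeft
        (Nat.xor (Nat.land (fa ta ι p) pm) (fa ta ι p)) 1024)))) (Nat.mod c 1048576))
  (fun _ _ _ _ _ _ _ => 1) 128

/-- test of a clause on monomial atoms; the hint holds the width, an atom, the multipliers of the
literals and static bounds with their multipliers -/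
def chkFar (c h : Nat) : Nat := Nat.rec (motive := fun _ => Nat) 1 (fun W _ =>
  far ta ι W (Nat.shiftLeft 1 W) (Nat.mod (Nat.div h 64) 1024) (dig c) (Nat.div h 65536) 0 (low c)
    0 0 0) (Nat.mod h 64)

def thF (D h : Nat → Nat) (z : Nat) : Nat := chkFar ta ι (D z) (h z)

end

end

end Pool.Agent.P.MP_53fdf1_co.RRup
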