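import Mathlib
import Pool.Agent.P.MP_53fdf1_co.RCore

namespace Pool.Agent.P.MP_53fdf1_co.RRup

/-! Clausal derivations by unit propagation, in blocks.  A clause is a number: ten bits for a
width, a set of small literals of that width, then literals as digits in base `2 ^ 20`.  Inside a
block atoms are renumbered and a clause is a set of literals.  Tests return zero on success. -/

/-- truth of a literal -/
def Tr (P : ℕ → Prop) (l : ℕ) : Prop := if l % 2 = 0 then P (l / 2) else ¬ P (l / 2)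

variable {P : ℕ → Prop}

theorem Tr_even (v : ℕ) : Tr P (2 * v) ↔ P v := by
  unfold Tr
  rw [if_pos (by omega), show 2 * v / 2 = v by omega]

theorem Tr_odd (v : ℕ) : Tr P (2 * v + 1) ↔ ¬ P v := by
  unfold Tr
  rw [if_neg (by omega), show (2 * v + 1) / 2 = v by omega]

theorem Tr_xor {l : ℕ} (h : Tr P l) : ¬ Tr P (l ^^^ 1) := by
  rcases Nat.even_or_odd' l with ⟨v, rfl | rfl⟩
  · rw [Nat.xor_one_of_even (by simp), Tr_odd, not_not]
    rwa [Tr_even] at h
  · rw [Nat.xor_one_of_odd (by simp), add_tsub_cancel_right, Tr_even]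
    rwa [Tr_odd] at h

noncomputable section

theorem itr_eq {α : Type} (s : α → α) (z : α) (f : ℕ) : itr s z f = s^[8 * f] z := by
  induction f with
  | zero => rfl
  | succ f ih =>
    rw [show 8 * (f + 1) = 8 + 8 * f by ring, Function.iterate_add_apply, ← ih]
    rfl

theorem low_lt {c l : ℕ} (h : (low c).testBit l = true) : l < 1024 := by
  have e : low c = c / 1024 % 1 <<< (c % 1024) := rfl
  rw [e, Nat.one_shiftLeft, Nat.testBit_mod_two_pow, Bool.and_eq_true, decide_eq_true_eq] at h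
  omega

/-- `l` is among the first `n` digits, before any zero -/
def MemD (l : ℕ) : ℕ → ℕ → Prop
  | 0, _ => False
  | n + 1, c => c % 1048576 ≠ 0 ∧ (c % 1048576 = l ∨ MemD l n (c / 1048576))

theorem memS_iff (l n : ℕ) : ∀ c, (memS l)^[n] (fun _ => false) c = true ↔ MemD l n c := by
  induction n with
  | zero => simp [MemD]
  | succ n ih =>
    intro c
    rw [Function.iterate_succ_apply', MemD, ← ih]
    change Nat.rec (motive := fun _ => Bool) false (fun p _ => Bool.rec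
      ((memS l)^[n] (fun _ => false) (c / 1048576)) true (Nat.beq (p + 1) l)) (c % 1048576) = true ↔ _
    cases c % 1048576 with
    | zero => simp
    | succ p =>
      rw [← Nat.beq_eq (x := p + 1)]
      cases h : Nat.beq (p + 1) l <;> simp [h]

theorem bit_iff (F l : ℕ) : F >>> l % 2 = 1 ↔ F.testBit l = true := by
  rw [← decide_eq_true_eq (p := _ % 2 = 1), ← Nat.testBit_zero, Nat.testBit_shiftRight, add_zero]

theorem memC_iff (c l : ℕ) :
    memC c l = true ↔ (low c).testBit l = true ∨ MemD l 1024 (dig c) := by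
  have e : memC c l = Bool.rec (itr (memS l) (fun _ => false) 128 (dig c)) true
    (Nat.beq (low c >>> l % 2) 1) := rfl
  rw [e, itr_eq, ← memS_iff, ← bit_iff, ← Nat.beq_eq]
  generalize (memS l)^[8 * 128] (fun _ => false) (dig c) = b
  cases Nat.beq (low c >>> l % 2) 1 <;> simp

/-- a clause holds -/
def SatG (P : ℕ → Prop) (c : ℕ) : Prop := ∃ l, memC c l = true ∧ Tr P l

/-- a set of literals contains a true one below `X` -/
def SatM (X : ℕ) (P : ℕ → Prop) (M : ℕ) : Prop := ∃ l, l < X ∧ M.testBit l = true ∧ Tr P l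

theorem SatM.mono {X M N : ℕ} (h : SatM X P M) (hs : ∀ l, M.testBit l = true → N.testBit l = true) :
    SatM X P N := by
  obtain ⟨l, h1, h2, h3⟩ := h
  exact ⟨l, h1, hs l h2, h3⟩

theorem SatM.inl {X M : ℕ} (h : SatM X P M) (N : ℕ) : SatM X P (M ||| N) :=
  h.mono fun l hl => by simp [hl]

theorem SatM.inr {X N : ℕ} (h : SatM X P N) (M : ℕ) : SatM X P (M ||| N) :=
  h.mono fun l hl => by simp [hl]

def mkS (β k : ℕ → ℕ) (c : ℕ) : ℕ := Nat.rec (motive := fun _ => ℕ) 0
  (fun p _ => β p ||| k (c / 1048576)) (c % 1048576)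

theorem mk_eq (β : ℕ → ℕ) : mk β = (mkS β)^[1024] fun _ => 0 := itr_eq (mkS β) _ 128

theorem mk_fwd {Q : ℕ → Prop} {X : ℕ} {β : ℕ → ℕ} (hβ : ∀ p, Tr P (p + 1) → SatM X Q (β p))
    {l : ℕ} (ht : Tr P l) (n : ℕ) : ∀ c, MemD l n c → SatM X Q ((mkS β)^[n] (fun _ => 0) c) := by
  induction n with
  | zero => exact fun _ h => h.elim
  | succ n ih =>
    rintro c ⟨h1, h2⟩
    rw [Function.iterate_succ_apply', mkS]
    cases h3 : c % 1048576 with
    | zero => exact absurd h3 h1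
    | succ p =>
      rcases h2 with h2 | h2
      · exact (hβ p (by rwa [← h3, h2])).inl _
      · exact (ih _ h2).inr _

theorem mk_bwd {Q : ℕ → Prop} {X : ℕ} {β : ℕ → ℕ}
    (hβ : ∀ p, (β p).testBit 0 = false → SatM X Q (β p) → Tr P (p + 1)) (n : ℕ) :
    ∀ c, ((mkS β)^[n] (fun _ => 0) c).testBit 0 = false → SatM X Q ((mkS β)^[n] (fun _ => 0) c) →
      ∃ l, MemD l n c ∧ Tr P l := by
  induction n with
  | zero =>
    rintro c - ⟨l, -, h2, -⟩
    exact absurd h2 (by simp)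
  | succ n ih =>
    rintro c h0 ⟨l, h1, h2, h3⟩
    rw [Function.iterate_succ_apply', mkS] at h0 h2
    cases h4 : c % 1048576 with
    | zero => rw [h4] at h2; exact absurd h2 (by simp)
    | succ p =>
      rw [h4] at h0 h2
      simp only [Nat.testBit_or, Bool.or_eq_false_iff, Bool.or_eq_true] at h0 h2
      rcases h2 with h2 | h2
      · exact ⟨p + 1, ⟨by omega, Or.inl h4⟩, hβ _ h0.1 ⟨l, h1, h2, h3⟩⟩
      · obtain ⟨k, hk, ht⟩ := ih _ h0.2 ⟨l, h1, h2, h3⟩
        exact ⟨k, ⟨by omega, Or.inr hk⟩, ht⟩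

theorem bet_cases {Y : ℕ} (hY : 0 < Y) (σ τ : ℕ → ℕ) (p : ℕ) : bet Y σ τ p = 1 ∨
    ∃ a, a < Y ∧ σ a = (p + 1) / 2 ∧ bet Y σ τ p = 2 ^ (2 * a + (p + 1) % 2) := by
  have e : bet Y σ τ p = Nat.rec (motive := fun _ => ℕ) 0 (fun g _ => 1 <<< (2 * loc Y σ τ g +
    (loc Y σ τ g - (loc Y σ τ g - (p + 1) % 2)))) ((p + 3) / 2) := rfl
  rw [e, show (p + 3) / 2 = (p + 1) / 2 + 1 by omega]
  generalize (p + 1) / 2 = g
  have e2 : loc Y σ τ g = τ g - τ g * ((σ (τ g) ^^^ g) + τ g / Y) := rfl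
  simp only [Nat.one_shiftLeft]
  rcases Nat.eq_zero_or_pos ((σ (τ g) ^^^ g) + τ g / Y) with h | h
  · rw [h, mul_zero, Nat.sub_zero] at e2
    rcases Nat.eq_zero_or_pos (τ g) with h1 | h1
    · exact Or.inl (by simp [e2, h1])
    · obtain ⟨h2, h3⟩ := Nat.add_eq_zero_iff.1 h
      refine Or.inr ⟨τ g, (Nat.div_eq_zero_iff_lt hY).1 h3, Nat.xor_eq_zero_iff.1 h2, ?_⟩
      rw [e2, show τ g - (τ g - (p + 1) % 2) = (p + 1) % 2 by omega]
  · rw [Nat.sub_eq_zero_of_le (Nat.le_mul_of_pos_right _ h)] at e2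
    exact Or.inl (by simp [e2])

theorem Tr_loc {σ : ℕ → ℕ} {a l : ℕ} (h : σ a = l / 2) :
    Tr (fun a => P (σ a)) (2 * a + l % 2) ↔ Tr P l := by
  unfold Tr
  rw [show (2 * a + l % 2) % 2 = l % 2 by omega, show (2 * a + l % 2) / 2 = a by omega, ← h]

theorem Tr_fix {σ : ℕ → ℕ} (hσ : ∀ a, a < 512 → σ a = a) {l : ℕ} (hl : l < 1024) :
    Tr (fun a => P (σ a)) l ↔ Tr P l := by
  have := Tr_loc (P := P) (hσ (l / 2) (by omega))
  rwa [show 2 * (l / 2) + l % 2 = l by omega] at this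

section
variable {Y : ℕ} {σ τ : ℕ → ℕ} (hY : 512 ≤ Y) (hσ : ∀ a, a < 512 → σ a = a)
include hY hσ

theorem sat_one (h0 : P 0) : SatM (2 * Y) (fun a => P (σ a)) 1 :=
  ⟨0, by omega, rfl, (Tr_fix hσ (by omega)).2 ((Tr_even 0).2 h0)⟩

theorem bet_fwd (h0 : P 0) (p : ℕ) (h : Tr P (p + 1)) :
    SatM (2 * Y) (fun a => P (σ a)) (bet Y σ τ p) := by
  rcases bet_cases (by omega : 0 < Y) σ τ p with e | ⟨a, h1, h2, e⟩ <;> rw [e]
  · exact sat_one hY hσ h0
  · exact ⟨2 * a + (p + 1) % 2, by omega, Nat.testBit_two_pow_self, (Tr_loc h2).2 h⟩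

theorem mkC_fwd (h0 : P 0) {c : ℕ} (h : SatG P c) :
    SatM (2 * Y) (fun a => P (σ a)) (mkC (bet Y σ τ) c) := by
  obtain ⟨l, h1, h2⟩ := h
  rcases (memC_iff c l).1 h1 with h3 | h3
  · have := low_lt h3
    exact SatM.inl ⟨l, by omega, h3, (Tr_fix hσ this).2 h2⟩ _
  · exact SatM.inr (mk_eq _ ▸ mk_fwd (bet_fwd hY hσ h0) h2 _ _ h3) _

theorem mkI_fwd {Q : ℕ → Prop} (h0 : P 0) {π : ℕ → ℕ → ℕ} {g : ℕ}
    (hπ : ∀ l, Tr Q l → π g l ≠ 0 → Tr P (π g l)) {c : ℕ} (h : SatG Q c) :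
    SatM (2 * Y) (fun a => P (σ a)) (mkI (psi (bet Y σ τ) π g) c) := by
  obtain ⟨l, h1, h2⟩ := h
  rcases (memC_iff c l).1 h1 with h3 | h3
  · refine SatM.inl (M := 1 - (1 - low c)) ?_ _
    rcases Nat.eq_zero_or_pos (low c) with h4 | h4
    · exact absurd h3 (by simp [h4])
    · rw [show 1 - (1 - low c) = 1 by omega]
      exact sat_one hY hσ h0
  · refine SatM.inr (mk_eq _ ▸ mk_fwd (fun p hp => ?_) h2 _ _ h3) _
    have h4 := hπ _ hp
    unfold psi
    cases h5 : π g (Nat.succ p) with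
    | zero => exact sat_one hY hσ h0
    | succ y =>
      rw [show π g (p + 1) = y + 1 from h5] at h4
      exact (bet_fwd hY hσ h0 y (h4 (Nat.succ_ne_zero y))).inl 0

theorem mkC_bwd {X c : ℕ} (h0 : mkC (bet Y σ τ) c % 2 = 0)
    (h : SatM X (fun a => P (σ a)) (mkC (bet Y σ τ) c)) : SatG P c := by
  have e : mkC (bet Y σ τ) c = low c ||| mk (bet Y σ τ) (dig c) := rfl
  rw [Nat.mod_two_eq_zero_iff_testBit_zero, e, Nat.testBit_or, Bool.or_eq_false_iff] at h0
  obtain ⟨l, h1, h2, h3⟩ := h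
  rw [e, Nat.testBit_or, Bool.or_eq_true] at h2
  rcases h2 with h2 | h2
  · exact ⟨l, (memC_iff c l).2 (Or.inl h2), (Tr_fix hσ (low_lt h2)).1 h3⟩
  · rw [mk_eq] at h0 h2
    have hb : ∀ p, (bet Y σ τ p).testBit 0 = false →
        SatM X (fun a => P (σ a)) (bet Y σ τ p) → Tr P (p + 1) := by
      rintro p h4 ⟨k, -, h5, h6⟩
      rcases bet_cases (by omega : 0 < Y) σ τ p with e | ⟨a, -, h7, e⟩ <;> rw [e] at h4 h5
      · exact absurd h4 (by simp)
      · rw [Nat.testBit_two_pow, decide_eq_true_eq] at h5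
        exact (Tr_loc h7).1 (h5 ▸ h6)
    obtain ⟨k, hk, ht⟩ := mk_bwd hb _ _ h0.2 ⟨l, h1, h2, h3⟩
    exact ⟨k, (memC_iff c k).2 (Or.inr hk), ht⟩

end

/-- the literals below `X` outside `N` are false -/
def Inv (X : ℕ) (P : ℕ → Prop) (N : ℕ) : Prop := ∀ l, l < X → N.testBit l = false → ¬ Tr P l

theorem Inv.land {X M N : ℕ} (h : Inv X P M) (h' : Inv X P N) : Inv X P (M &&& N) :=
  fun l hl h1 => by
    rw [Nat.testBit_and, Bool.and_eq_false_iff] at h1
    exact h1.elim (h l hl) (h' l hl)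

theorem Inv.flip {X N k : ℕ} (h : Inv X P N) (hk : Tr P k) : Inv X P (N ^^^ 2 ^ (k ^^^ 1)) :=
  fun l hl h1 => by
    rw [Nat.testBit_xor, Nat.testBit_two_pow] at h1
    by_cases h2 : k ^^^ 1 = l
    · exact h2 ▸ Tr_xor hk
    · exact h l hl (by simpa [h2] using h1)

theorem Inv.start {X M : ℕ} (h : ¬ SatM X P M) : Inv X P ((1 <<< X - 1) ^^^ M) :=
  fun l hl h1 hT => h ⟨l, hl, by
    rw [Nat.testBit_xor, Nat.one_shiftLeft, Nat.testBit_two_pow_sub_one] at h1
    simpa [hl] using h1, hT⟩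

theorem Inv.not_sat {X M N : ℕ} (h : Inv X P N) (h1 : M &&& N = 0) : ¬ SatM X P M := by
  rintro ⟨t, h2, h3, h4⟩
  refine h t h2 ?_ h4
  have := congrArg (·.testBit t) h1
  simpa [h3] using this

def rupS (pm pb : ℕ → ℕ) (id : ℕ) (k : ℕ → ℕ → ℕ → ℕ) (h N e : ℕ) : ℕ :=
  Nat.rec (motive := fun _ => ℕ) (e ||| N % 2)
    (fun p _ => k (h / id) (N &&& pb p) (e ||| (pm p &&& N))) (h % id)

theorem rup_ok {X i : ℕ} {pm pb : ℕ → ℕ} (h0 : SatM X P 1)
    (ht : ∀ p, p < i → SatM X P (pm p) ∨ Inv X P (pb p)) (h N e : ℕ)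
    (hN : e = 0 → Inv X P N) : rup pm pb (i + 1) h N e ≠ 0 := by
  change itr (rupS pm pb (i + 1)) _ 100000 h N e ≠ 0
  rw [itr_eq]
  generalize 8 * 100000 = n
  induction n generalizing h N e with
  | zero => exact one_ne_zero
  | succ n ih =>
    rw [Function.iterate_succ_apply', rupS]
    cases h1 : h % (i + 1) with
    | zero =>
      intro h2
      obtain ⟨h3, h4⟩ := Nat.or_eq_zero_iff.1 h2
      exact (hN h3).not_sat (by rwa [Nat.one_and_eq_mod_two]) h0
    | succ p =>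
      refine ih _ _ _ fun h2 => ?_
      obtain ⟨h4, h5⟩ := Nat.or_eq_zero_iff.1 h2
      have h6 := Nat.mod_lt h (Nat.succ_pos i)
      exact (hN h4).land ((ht p (by rw [h1] at h6; omega)).resolve_left ((hN h4).not_sat h5))

def runS (pm pb : ℕ → ℕ) (X id : ℕ) (k : ℕ → ℕ → ℕ → ℕ) (h N e : ℕ) : ℕ :=
  Nat.rec (motive := fun _ => ℕ) (N ||| (e <<< X - 1))
    (fun p _ => k (h / id) (N ^^^ pb p) (e ||| (pm p &&& N))) (h % id)

theorem run_ok {X i : ℕ} {pm pb : ℕ → ℕ}
    (ht : ∀ p, p < i → ∃ l, pb p = 2 ^ (l ^^^ 1) ∧ (SatM X P (pm p) ∨ Tr P l)) (h N e : ℕ)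
    (hN : e = 0 → Inv X P N) : Inv X P (run pm pb X (i + 1) h N e) := by
  change Inv X P (itr (runS pm pb X (i + 1)) (fun _ N e => N ||| (e <<< X - 1)) 100000 h N e)
  rw [itr_eq]
  generalize 8 * 100000 = n
  have h0 : ∀ N e, (e = 0 → Inv X P N) → Inv X P (N ||| (e <<< X - 1)) := fun N e hN l hl h1 => by
    rw [Nat.testBit_or, Bool.or_eq_false_iff] at h1
    rcases e with _ | e
    · exact hN rfl l hl h1.1
    · have h2 : (e + 1) <<< X - 1 = 2 ^ X * e + (2 ^ X - 1) := by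
        have := Nat.one_le_two_pow (n := X)
        rw [Nat.shiftLeft_eq, add_mul, mul_comm]
        omega
      rw [h2, Nat.testBit_two_pow_mul_add _ (Nat.sub_lt (Nat.two_pow_pos X) one_pos), if_pos hl,
        Nat.testBit_two_pow_sub_one] at h1
      exact absurd h1.2 (by simpa using hl)
  induction n generalizing h N e with
  | zero => exact h0 N e hN
  | succ n ih =>
    rw [Function.iterate_succ_apply', runS]
    cases h1 : h % (i + 1) with
    | zero => exact h0 N e hN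
    | succ p =>
      refine ih _ _ _ fun h2 => ?_
      obtain ⟨h4, h5⟩ := Nat.or_eq_zero_iff.1 h2
      have h6 := Nat.mod_lt h (Nat.succ_pos i)
      obtain ⟨k, h7, h8⟩ := ht p (by rw [h1] at h6; omega)
      exact h7 ▸ (hN h4).flip (h8.resolve_left ((hN h4).not_sat h5))

theorem Tr_or (l : ℕ) : Tr P (l ^^^ 1) ∨ Tr P l := by
  rcases Nat.even_or_odd' l with ⟨v, rfl | rfl⟩
  · rw [Nat.xor_one_of_even (by simp), Tr_odd, Tr_even]
    exact (em _).symm
  · rw [Nat.xor_one_of_odd (by simp), add_tsub_cancel_right, Tr_even, Tr_odd]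
    exact em _

theorem pair_ok {Y i ni c b : ℕ} {ms pt : ℕ → ℕ} (h0 : SatM (2 * Y) P 1) (hi : ni ≤ i)
    (ht : ∀ j, j < i → SatM (2 * Y) P (ms j)) (p : ℕ) (hp : p < b + c * (i - ni)) :
    SatM (2 * Y) P (pmE ms pt (2 * Y) ni c b p) ∨ Tr P (pt p % 65536) := by
  have e : pmE ms pt (2 * Y) ni c b p = Nat.rec (motive := fun _ => ℕ)
    (1 <<< (pt p % 65536 ^^^ 1) ||| (1 - (2 * Y - pt p % 65536)))
    (fun j _ => (ms j ||| 1 <<< (pt p % 65536)) ^^^ 1 <<< (pt p % 65536))
    (pt p / 65536 % (ni + (p + c - b) / c + 1)) := rfl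
  rw [e]
  generalize pt p % 65536 = k
  cases h1 : pt p / 65536 % (ni + (p + c - b) / c + 1) with
  | zero =>
    rcases Nat.lt_or_ge k (2 * Y) with h2 | h2
    · refine (Tr_or k).imp_left fun h3 => SatM.inl ⟨_, ?_, ?_, h3⟩ _
      · rcases Nat.even_or_odd' k with ⟨v, rfl | rfl⟩
        · rw [Nat.xor_one_of_even (by simp)]; omega
        · rw [Nat.xor_one_of_odd (by simp)]; omega
      · rw [Nat.one_shiftLeft, Nat.testBit_two_pow_self]
    · rw [Nat.sub_eq_zero_of_le h2]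
      exact Or.inl (h0.inr _)
  | succ j =>
    have h2 := Nat.mod_lt (pt p / 65536) (Nat.succ_pos (ni + (p + c - b) / c))
    have h3 : (p + c - b) / c < i - ni + 1 := by
      rcases Nat.eq_zero_or_pos c with rfl | hc
      · simp
      · rw [Nat.div_lt_iff_lt_mul hc, add_mul, mul_comm _ c]
        omega
    obtain ⟨l, h4, h5, h6⟩ := ht j (by rw [Nat.succ_eq_add_one, h1] at h2; omega)
    by_cases h7 : k = l
    · exact Or.inr (h7 ▸ h6)
    · refine Or.inl ⟨l, h4, ?_, h6⟩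
      simp [Nat.one_shiftLeft, h5, h7]

theorem lin_ok {p : ℕ → ℕ} {b : ℕ} (n : ℕ) : lin p (b + 1) n = 0 → ∀ t, t < n → p (b + t) = 0 := by
  induction n with
  | zero => exact fun _ t ht => absurd ht (Nat.not_lt_zero t)
  | succ n ih =>
    intro h t ht
    have e : lin p (b + 1) (n + 1) = Nat.rec (motive := fun _ => ℕ) 1 (fun i _ => p i)
      (b + 1 + n) ||| lin p (b + 1) n := rfl
    rw [e, show b + 1 + n = b + n + 1 by ring, Nat.or_eq_zero_iff] at h
    rcases Nat.lt_succ_iff_lt_or_eq.1 ht with h1 | rfl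
    · exact ih h.2 t h1
    · exact h.1

theorem allZ_ok {p : ℕ → ℕ} {lo hi : ℕ} (h : allZ p lo hi = 0) (i : ℕ) (h1 : lo ≤ i)
    (h2 : i < hi) : p i = 0 := by
  have h3 := lin_ok (b := 0) ((hi - lo) / 128 + 1) h ((i - lo) / 128) (by omega)
  rw [zero_add] at h3
  have h4 := lin_ok (b := lo + 128 * ((i - lo) / 128))
    (128 - (128 - (hi - (lo + 128 * ((i - lo) / 128))))) h3 ((i - lo) % 128) (by omega)
  rwa [show lo + 128 * ((i - lo) / 128) + (i - lo) % 128 = i by omega] at h4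

theorem wk_ok {S : ℕ → ℕ → Bool} {R : ℕ} (h : wk S R = 0) (g : ℕ) (hg : g < 63)
    (h1 : R >>> (20 * g) % 1048576 ≠ 0) : S g (R >>> (20 * g) % 1048576) = true := by
  cases R with
  | zero => simp at h1
  | succ R =>
    have h2 := lin_ok (b := 0) (p := fun g => Nat.rec (motive := fun _ => ℕ) 0
      (fun y _ => Bool.rec 1 0 (S g (y + 1))) ((R + 1) >>> (20 * g) % 1048576)) 63 h g hg
    rw [zero_add] at h2
    cases h3 : (R + 1) >>> (20 * g) % 1048576 with
    | zero => exact absurd h3 h1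
    | succ y =>
      rw [h3] at h2
      cases h4 : S g (y + 1) with
      | true => rfl
      | false => simp [h4] at h2

end

section sound

variable {C : Type*} {V : C → Prop} {W : C → ℕ → Prop} {act : ℕ → C → C} {D : ℕ → ℕ}

/-- a clause holds in every valid configuration -/
def Univ (V : C → Prop) (W : C → ℕ → Prop) (c : ℕ) : Prop := ∀ x, V x → SatG (W x) c

/-- all clauses with number below `m` hold -/
def Upto (V : C → Prop) (W : C → ℕ → Prop) (D : ℕ → ℕ) (m : ℕ) : Prop :=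
  ∀ z, z < m → Univ V W (D z)

theorem Upto.zero : Upto V W D 0 := fun _ h => absurd h (Nat.not_lt_zero _)

theorem rec_zero {b : Bool} (h : (Bool.rec 1 0 b : ℕ) = 0) : b = true := by
  cases b
  · exact absurd h (by simp)
  · rfl

/-- clauses accepted by a sound test -/
theorem theory_ok {m m' : ℕ} {p : ℕ → ℕ → ℕ} (hp : ∀ z c, p z c = 0 → Univ V W c)
    (h : allZ (fun z => p z (D z)) m m' = 0) (hD : Upto V W D m) : Upto V W D m' :=
  fun z hz => (Nat.lt_or_ge z m).elim (hD z) fun h1 => hp z _ (allZ_ok h z h1 hz)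

/-- the rows below `L` of the table of images are sound -/
def Rows (V : C → Prop) (W : C → ℕ → Prop) (act : ℕ → C → C) (row : ℕ → ℕ) (L : ℕ) : Prop :=
  ∀ l, l < L → ∀ g, g < 63 → ∀ x, V x → Tr (W (act g x)) l →
    row l >>> (20 * g) % 1048576 ≠ 0 → Tr (W x) (row l >>> (20 * g) % 1048576)

theorem Rows.zero {row : ℕ → ℕ} : Rows V W act row 0 := fun _ h => absurd h (Nat.not_lt_zero _)

theorem rows_ok {S : ℕ → ℕ → ℕ → Bool} {row : ℕ → ℕ} {L L' : ℕ}
    (hS : ∀ g a b x, S g a b = true → V x → Tr (W (act g x)) a → Tr (W x) b)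
    (h : allZ (fun l => wk (fun g y => S g l y) (row l)) L L' = 0)
    (hR : Rows V W act row L) : Rows V W act row L' := fun l hl g hg x hx ht h1 =>
  (Nat.lt_or_ge l L).elim (fun h2 => hR l h2 g hg x hx ht h1) fun h2 =>
    hS _ _ _ x (wk_ok (allZ_ok h l h2 hl) g hg h1) hx ht

theorem block_ok (hact : ∀ g x, V x → V (act g x)) (h0 : ∀ x, V x → W x 0) {row : ℕ → ℕ} {L : ℕ}
    (hR : Rows V W act row L) {m m' Y ni nj n c b F : ℕ} {σ τ rf ow au ex pt hb : ℕ → ℕ}
    (h : block (pi row L) D m m' Y ni nj n c b F σ τ rf ow au ex pt hb = 0) (hD : Upto V W D m) :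
    Upto V W D m' := by
  have hor : ∀ a b : ℕ, Nat.lor a b = 0 → a = 0 ∧ b = 0 := fun a b => Nat.or_eq_zero_iff.1
  obtain ⟨h4, h5⟩ := hor _ _ h
  obtain ⟨h2, h3⟩ := hor _ _ h5
  obtain ⟨h6, h1⟩ := hor _ _ h4
  have hm : 1 ≤ m := Nat.le_of_sub_eq_zero (hor _ _ h6).1
  have hY : 512 ≤ Y := Nat.le_of_sub_eq_zero (hor _ _ h6).2
  clear h h4 h5 h6
  have hσ : ∀ a, a < 512 → σ a = a := fun a ha =>
    Nat.xor_eq_zero_iff.1 (allZ_ok h1 a (Nat.zero_le a) ha)
  have hπ : ∀ g, g < 63 → ∀ x, V x → ∀ l, Tr (W (act g x)) l → pi row L g l ≠ 0 →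
      Tr (W x) (pi row L g l) := by
    intro g hg x hx l ht h4
    have e : pi row L g l = row l >>> (20 * g) % 1048576 - (l + 1 - L) * 1048576 := rfl
    have h5 : l < L := by omega
    rw [show l + 1 - L = 0 by omega, zero_mul, Nat.sub_zero] at e
    rw [e] at h4 ⊢
    exact hR l h5 g hg x hx ht h4
  generalize pi row L = π at h2 h3 hπ
  have key : ∀ i, i < n → ∀ x, V x →
      SatM (2 * Y) (fun a => W x (σ a)) (msk (bet Y σ τ) π D m ni F rf ow au i) := by
    intro i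
    induction i using Nat.strong_induction_on with
    | _ i ih =>
      intro hi x hx
      have ho := h0 x hx
      cases h4 : Nat.sub (Nat.succ i) ni with
      | zero =>
        rw [msk, h4]
        exact mkC_fwd hY hσ ho (hD _ (Nat.mod_lt _ hm) x hx)
      | succ p =>
        have h5 : ni ≤ i := by change i + 1 - ni = p + 1 at h4; omega
        have h6 := allZ_ok h2 i h5 hi
        unfold step at h6
        cases h7 : Nat.mod (au i) 64 with
        | zero =>
          rw [h7] at h6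
          by_contra hc
          obtain ⟨h5, h6⟩ := hor _ _ h6
          have h1' := sat_one hY hσ ho
          have hp := pair_ok (c := c) (b := b) (pt := pt) h1' (Nat.le_of_sub_eq_zero h5)
            fun j hj => ih j hj (by omega) x hx
          have hq := fun p (h : p < b) => (⟨_, Nat.one_shiftLeft _, hp p (by omega)⟩ :
            ∃ l, pbE pt p = 2 ^ (l ^^^ 1) ∧ (_ ∨ Tr (fun a => W x (σ a)) l))
          have hC := run_ok hq (hb 0) _ 0 fun _ => Inv.start (M := F) fun h => hc (by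
            rw [msk, h4, h7]
            exact h.inl _)
          refine rup_ok h1' (fun p h => (hp p h).imp_right fun h8 => ?_) _ _ _
            (fun _ => hC.land (Inv.start hc)) h6
          have h9 := run_ok hq (hb (pt p % 65536)) _ 0 fun _ => hC.flip h8
          rw [← Nat.one_shiftLeft, ← Nat.or_zero (run _ _ _ _ _ _ _)] at h9
          exact h9
        | succ g =>
          have hg : g < 63 := by change au i % 64 = g + 1 at h7; omega
          rw [h7] at h6
          rw [msk, h4, h7]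
          cases h8 : Nat.mod (Nat.div (au i) 64) (Nat.succ i) with
          | zero => exact sat_one hY hσ ho
          | succ j =>
            have hj : j < i := Nat.lt_of_succ_lt_succ (lt_of_eq_of_lt h8.symm
              (Nat.mod_lt _ (Nat.succ_pos i)))
            rw [h8] at h6
            obtain ⟨h9, h10⟩ := hor _ _ h6
            have hs := ih j hj (by omega) _ (hact g x hx)
            rw [Nat.xor_eq_zero_iff.1 h10] at hs h9
            exact mkI_fwd hY hσ ho (hπ g hg x hx) (mkC_bwd hY hσ h9 hs)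
  intro z hz x hx
  rcases Nat.lt_or_ge z m with h4 | h4
  · exact hD z h4 x hx
  · have h5 := allZ_ok h3 z h4 hz
    unfold expo at h5
    cases h6 : Nat.mod (ex z) (Nat.succ n) with
    | zero => rw [h6] at h5; exact absurd h5 (by simp)
    | succ i =>
      rw [h6] at h5
      obtain ⟨h7, h8⟩ := hor _ _ h5
      refine mkC_bwd (X := 2 * Y) hY hσ h7 ?_
      rw [← Nat.xor_eq_zero_iff.1 h8]
      exact (key i (Nat.lt_of_succ_lt_succ (lt_of_eq_of_lt h6.symm
        (Nat.mod_lt _ (Nat.succ_pos n)))) x hx).inl _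

end sound

end Pool.Agent.P.MP_53fdf1_co.RRup
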