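import Pool.Agent.P.MP_53fdf1_co.RCfg
import Pool.Agent.P.MP_53fdf1_co.RRup

set_option autoImplicit false

namespace Pool.Agent.P.MP_53fdf1_co.R

/-! Tables of numbers and their decoding. -/

noncomputable section

/-- `w` bits from position `p` -/
def fld (n p w : ℕ) : ℕ := Nat.mod (Nat.shiftRight n p) (Nat.shiftLeft 1 w)

def dl (f : ℕ) : ℕ → List ℕ := @Nat.rec (fun _ => ℕ → List ℕ) (fun _ => [])
  (fun _ ih n => @Nat.rec (fun _ => List ℕ) []
    (fun v _ => frc (Nat.div n 1024) fun m => v :: ih m) (Nat.mod n 1024)) f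

def dp (f : ℕ) : ℕ → Po := @Nat.rec (fun _ => ℕ → Po) (fun _ => Po.nil)
  (fun _ ih n => iff (Nat.beq n 0) Po.nil (frb (bit n) fun g => frc (fld n 6 34) fun c =>
    frc (Nat.mul 9 (fld n 1 5)) fun k => frc (fld n 40 k) fun m =>
      frc (Nat.shiftRight n (Nat.add 40 k)) fun r => Po.cons g c m (ih r))) f

/-- the atom with a given code -/
def dec (n : ℕ) : Atom := frc n fun n => frc (Nat.mod n 8) fun t =>
  iff (Nat.beq t 3)
    (frb (bit (Nat.div n 8)) fun g => frb (bit (Nat.div n 16)) fun s => frc (fld n 8 24) fun e =>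
      frc (fld n 32 240) fun p => frc (fld n 272 240) fun m => .mono (dl 24 p) (dl 24 m) g e s)
    (iff (Nat.beq t 2) (frc (Nat.div n 8) fun v => .pos v)
      (iff (Nat.beq t 4) (frc (Nat.div n 8) fun q => .poly (dp 100 q))
        (frc (fld n 3 8) fun a => frc (fld n 11 8) fun b =>
          iff (Nat.beq t 0) (.flag a b) (frc (Nat.shiftRight n 19) fun c => .sep a b c))))

/-- the table of atoms -/
def tbl (ta : ℕ → ℕ) (a : ℕ) : Atom := dec (ta a)

/-- a test of clause `z` with a hint -/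
def thB (chk : (ℕ → Atom) → (ℕ → Bool) → ℕ → Bool) (ta D h : ℕ → ℕ) (z : ℕ) : ℕ :=
  @Bool.rec (fun _ => ℕ) 1 0 (chk (tbl ta) (RRup.memC (D z)) (h z))

/-- a test of row `l` of the table of images -/
def thY (S : (ℕ → Atom) → ℕ → ℕ → ℕ → Bool) (ta row : ℕ → ℕ) (l : ℕ) : ℕ :=
  RRup.wk (fun g y => S (tbl ta) g l y) (row l)

end

theorem dec_mono {n : ℕ} (h : n % 8 = 3) : dec n = .mono (dl 24 (fld n 32 240))
    (dl 24 (fld n 272 240)) (bit (n / 8)) (fld n 8 24) (bit (n / 16)) := by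
  simp only [dec, frc_eq, frb_eq]
  rw [show Nat.mod n 8 = 3 from h]
  rfl

theorem dec_pos (v : ℕ) : dec (2 + 8 * v) = .pos v := by
  simp only [dec, frc_eq, frb_eq]
  rw [show Nat.mod (2 + 8 * v) 8 = 2 from (by omega : (2 + 8 * v) % 8 = 2),
    show Nat.div (2 + 8 * v) 8 = v from (by omega : (2 + 8 * v) / 8 = v)]
  rfl

theorem dec_three (K : Cfg) : (dec 3).sem K := by
  rw [dec_mono rfl]
  change (1 : ℝ) ≤ (2 : ℝ) ^ (((0 : ℕ) : ℝ) / 64) * 1
  simp

end Pool.Agent.P.MP_53fdf1_co.R
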