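import Pool.Agent.P.MP_53fdf1_co.RCfg

set_option autoImplicit false

namespace Pool.Agent.P.MP_53fdf1_co.R

open Po

noncomputable section

/-- all literals of the clause are false -/
def NC (K : Cfg) (tb : ℕ → Atom) (mem : ℕ → Bool) : Prop := ∀ l, mem l = true → ¬ Lit K tb l

theorem univ_of {tb : ℕ → Atom} {mem : ℕ → Bool} (h : ∀ K, Valid K → NC K tb mem → False) : Univ tb mem := by
  intro K V
  by_contra hn
  exact h K V fun l a b => hn ⟨l, a, b⟩

/-- next digit of the hint -/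
def dg (h : ℕ) (k : ℕ → ℕ → Bool) : Bool :=
  frc (Nat.mod h 16777216) fun d => frc (Nat.div h 16777216) fun r => k d r

theorem dg_s {h : ℕ} {k : ℕ → ℕ → Bool} (e : dg h k = true) : ∃ d r, k d r = true := ⟨_, _, e⟩

def isF (A : Atom) (k : ℕ → ℕ → Bool) : Bool :=
  @Atom.rec (fun _ => Bool) k (fun _ _ _ => false) (fun _ => false) (fun _ _ _ _ _ => false) (fun _ => false) A

def isS (A : Atom) (k : ℕ → ℕ → ℕ → Bool) : Bool :=
  @Atom.rec (fun _ => Bool) (fun _ _ => false) k (fun _ => false) (fun _ _ _ _ _ => false) (fun _ => false) A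

def sgP (g : Bool) (p : Po) : Po := iff g (neg p) p

/-- the polynomial whose positivity the atom states -/
def isP (A : Atom) (k : Po → Bool) : Bool :=
  @Atom.rec (fun _ => Bool) (fun _ _ => false) (fun _ _ _ => false)
    (fun n => an (lt (Nat.div n 32) 26) (k (sgP (bit n) (symP (Nat.div n 32) (Nat.mod (Nat.div n 2) 16)))))
    (fun _ _ _ _ _ => false) (fun q => k (nrm q)) A

def isT (A : Atom) (n : ℕ) : Bool :=
  @Atom.rec (fun _ => Bool) (fun _ _ => false) (fun _ _ _ => false) (fun m => Nat.beq m n)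
    (fun _ _ _ _ _ => false) (fun _ => false) A

theorem isF_s {A : Atom} {k : ℕ → ℕ → Bool} (e : isF A k = true) : ∃ i φ, A = .flag i φ ∧ k i φ = true := by
  cases A
  · exact ⟨_, _, rfl, e⟩
  all_goals exact absurd e Bool.false_ne_true

theorem isS_s {A : Atom} {k : ℕ → ℕ → ℕ → Bool} (e : isS A k = true) :
    ∃ a b s, A = .sep a b s ∧ k a b s = true := by
  cases A
  case sep => exact ⟨_, _, _, rfl, e⟩
  all_goals exact absurd e Bool.false_ne_true

theorem isT_s {A : Atom} {n : ℕ} (e : isT A n = true) : A = .pos n := by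
  cases A
  case pos => exact congrArg _ (Nat.eq_of_beq_eq_true e)
  all_goals exact absurd e Bool.false_ne_true

variable {K : Cfg} {tb : ℕ → Atom} {mem : ℕ → Bool}

theorem ev_sgP (g : Bool) (p : Po) : ev K.v (sgP g p) = sg g (ev K.v p) := by
  cases g
  · rfl
  · exact ev_neg p

theorem isP_s (V : Valid K) {A : Atom} {k : Po → Bool} (e : isP A k = true) :
    ∃ p, (A.sem K ↔ 0 < ev K.v p) ∧ k p = true := by
  cases A
  case pos n =>
    obtain ⟨a, b⟩ := (an_eq _ _).1 e
    exact ⟨_, by rw [ev_sgP]; exact V.lp_pos ((lt_eq _ _).1 a), b⟩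
  case poly q => exact ⟨_, Iff.rfl, e⟩
  all_goals exact absurd e Bool.false_ne_true

theorem NC.odd (N : NC K tb mem) {l : ℕ} (m : mem l = true) (b : bit l = true) : (tb (Nat.div l 2)).sem K := by
  have := N l m
  rw [bit_eq] at b
  rwa [Lit, if_neg (by omega), not_not] at this

theorem NC.even (N : NC K tb mem) {l : ℕ} (m : mem l = true) (b : bit l = false) :
    ¬ (tb (Nat.div l 2)).sem K := by
  have := N l m
  rw [← Bool.not_eq_true, bit_eq] at b
  rwa [Lit, if_pos (by omega)] at this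

theorem nt_t {b : Bool} (h : nt b = true) : b = false := by cases b <;> simp_all [nt, xr]

section
variable (tb mem)

/-- a negated flag literal -/
def gF (h : ℕ) (k : ℕ → ℕ → ℕ → Bool) : Bool :=
  dg h fun l h => an (mem l) (an (bit l) (isF (tb (Nat.div l 2)) fun i φ => an (lt i 26) (k i φ h)))

/-- a negated separation literal -/
def gS (h : ℕ) (k : ℕ → ℕ → ℕ → ℕ → Bool) : Bool :=
  dg h fun l h => an (mem l) (an (bit l) (isS (tb (Nat.div l 2)) fun a b s => k a b s h))

def hF (i φ h : ℕ) (k : ℕ → Bool) : Bool :=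
  dg h fun l h => an (mem l) (an (nt (bit l)) (isF (tb (Nat.div l 2)) fun i' φ' =>
    an (Nat.beq i' i) (an (Nat.beq φ' φ) (k h))))

def hS (a b s h : ℕ) (k : ℕ → Bool) : Bool :=
  dg h fun l h => an (mem l) (an (nt (bit l)) (isS (tb (Nat.div l 2)) fun a' b' s' =>
    an (Nat.beq a' a) (an (Nat.beq b' b) (an (Nat.beq s' s) (k h)))))

/-- a polynomial that is negative or not positive -/
def litP (h : ℕ) (k : Po → Bool → ℕ → Bool) : Bool :=
  dg h fun t h => iff (Nat.beq t 0) (k (cst true 1) true h) (iff (Nat.beq t 1) (k nil false h)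
    (frc (Nat.sub t 2) fun l => an (mem l) (isP (tb (Nat.div l 2)) fun p => frb (bit l) fun b => k (sgP b p) b h)))

end

def rd (i : ℕ) (p : Po) : Po :=
  iff (lt i 26) (frc (pr i 0) fun s => frc (pr i 1) fun w => red s w (red s w (red s w p))) p

def pw (p : Po) (n : ℕ) : Po := @Nat.rec (fun _ => Po) (cst false 1) (fun _ ih => mul p ih) n

def oP (i : ℕ) : Po := iff (lt i 6) (cst false 1) (iff (lt i 18) (var (pr i 3)) (var (pr i 2)))

def facP (i d : ℕ) : Po :=
  iff (Nat.beq d 0) (cst false 1) (mul (pw (sP i) (Nat.mod d 4)) (mul (pw (wP i) (Nat.mod (Nat.div d 4) 4))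
    (mul (pw (cP i) (Nat.mod (Nat.div d 16) 4)) (pw (oP i) (Nat.div d 64)))))

section
variable (tb mem)

def tp (i d : ℕ) (st : Bool) (h : ℕ) (k : ℕ → Bool) : Bool :=
  iff (an st (lt 0 (Nat.mod d 16)))
    (dg h fun l h => an (mem l) (an (bit l) (an (isT (tb (Nat.div l 2)) (Nat.mul 32 i)) (k h)))) (k h)

/-- the polynomial `p` in the pieces `a`, `b` is negative or not positive -/
def der (a b : ℕ) (p : Po) (st : Bool) (h : ℕ) (k : ℕ → Bool) : Bool :=
  litP tb mem h fun q s h => dg h fun d h => frc (Nat.mod d 1024) fun c => frc (Nat.mod (Nat.div d 1024) 128) fun da =>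
    frc (Nat.div d 131072) fun db => an (orr (nt st) (an s (lt 0 c)))
      (an (frp q fun q => isZ (rd a (rd b (sub p (mul (mulT false c 1 (mul (facP a da) (facP b db))) q)))))
        (tp tb mem a da st h fun h => tp tb mem b db st h k))

end

theorem gF_s (N : NC K tb mem) {h : ℕ} {k : ℕ → ℕ → ℕ → Bool} (e : gF tb mem h k = true) :
    ∃ i φ h, i < 26 ∧ K.fl i = φ ∧ k i φ h = true := by
  obtain ⟨l, h, e⟩ := dg_s e
  simp only [an_eq] at e
  obtain ⟨i, φ, a, b⟩ := isF_s e.2.2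
  have := N.odd e.1 e.2.1
  rw [a] at this
  rw [an_eq, lt_eq] at b
  exact ⟨i, φ, h, b.1, this, b.2⟩

theorem gS_s (N : NC K tb mem) {h : ℕ} {k : ℕ → ℕ → ℕ → ℕ → Bool} (e : gS tb mem h k = true) :
    ∃ a b s h, Sep K a b s ∧ k a b s h = true := by
  obtain ⟨l, h, e⟩ := dg_s e
  simp only [an_eq] at e
  obtain ⟨a, b, s, x, y⟩ := isS_s e.2.2
  have := N.odd e.1 e.2.1
  rw [x] at this
  exact ⟨a, b, s, h, this, y⟩

theorem hF_s (N : NC K tb mem) {i φ h : ℕ} {k : ℕ → Bool} (e : hF tb mem i φ h k = true) :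
    K.fl i ≠ φ ∧ ∃ h, k h = true := by
  obtain ⟨l, h, e⟩ := dg_s e
  simp only [an_eq] at e
  obtain ⟨i', φ', a, b⟩ := isF_s e.2.2
  have := N.even e.1 (nt_t e.2.1)
  simp only [an_eq, Nat.beq_eq] at b
  rw [a, b.1, b.2.1] at this
  exact ⟨this, h, b.2.2⟩

theorem hS_s (N : NC K tb mem) {a b s h : ℕ} {k : ℕ → Bool} (e : hS tb mem a b s h k = true) :
    ¬ Sep K a b s ∧ ∃ h, k h = true := by
  obtain ⟨l, h, e⟩ := dg_s e
  simp only [an_eq] at e
  obtain ⟨a', b', s', x, y⟩ := isS_s e.2.2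
  have := N.even e.1 (nt_t e.2.1)
  simp only [an_eq, Nat.beq_eq] at y
  rw [x, y.1, y.2.1, y.2.2.1] at this
  exact ⟨this, h, y.2.2.2⟩

theorem litP_s (V : Valid K) (N : NC K tb mem) {h : ℕ} {k : Po → Bool → ℕ → Bool} (e : litP tb mem h k = true) :
    ∃ q s h, rel s (ev K.v q) 0 ∧ k q s h = true := by
  obtain ⟨t, h, e⟩ := dg_s e
  simp only [iff_eq, frc_eq] at e
  split_ifs at e
  · exact ⟨_, true, h, by simp [rel, ev_cst V.hom, sg], e⟩
  · exact ⟨_, false, h, by simp [rel, ev_nil], e⟩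
  · rw [an_eq] at e
    obtain ⟨p, a, b⟩ := isP_s V e.2
    rw [frb_eq] at b
    refine ⟨_, _, h, ?_, b⟩
    rw [ev_sgP]
    cases hb : bit (Nat.sub t 2)
    · exact not_lt.1 fun c => N.even e.1 hb (a.2 c)
    · exact neg_neg_of_pos (a.1 (N.odd e.1 hb))

theorem ev_rd (V : Valid K) (i : ℕ) (p : Po) : ev K.v (rd i p) = ev K.v p := by
  simp only [rd, iff_eq, lt_eq, frc_eq]
  split_ifs with h
  · rw [V.red h, V.red h, V.red h]
  · rfl

theorem ev_pw (H : Hom K.v) (p : Po) (n : ℕ) : ev K.v (pw p n) = ev K.v p ^ n := by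
  induction n with
  | zero => exact (ev_cst H false 1).trans (by simp [sg])
  | succ n ih =>
    change ev K.v (mul p (pw p n)) = _
    rw [ev_mul H, ih, pow_succ']

theorem sy_var {i : ℕ} (h : 6 ≤ i) (k : ℕ) (hk : k < 2) : K.sy i (k + 3) = ev K.v (var (pr i (k + 2))) := by
  have : lt i 6 = false := by rw [← Bool.not_eq_true, lt_eq]; omega
  simp only [Cfg.sy, symP, this, iff_f]
  interval_cases k <;> rfl

theorem oP_pos (V : Valid K) {i : ℕ} (h : i < 26) : 0 < ev K.v (oP i) := by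
  simp only [oP, iff_eq, lt_eq]
  split_ifs with a b
  · rw [ev_cst V.hom]; simp [sg]
  · rw [← sy_var (by omega) 1 (by decide)]; exact (V.bE (by omega) b).2.1
  · rw [← sy_var (by omega) 0 (by decide)]; exact (V.bV (by omega) h).1.1

theorem facP_s (V : Valid K) {i : ℕ} (h : i < 26) (d : ℕ) :
    0 ≤ ev K.v (facP i d) ∧ (d % 16 = 0 ∨ 0 < K.sy i 0 → 0 < ev K.v (facP i d)) := by
  obtain ⟨s0, sc, tr⟩ := V.tri i h
  obtain ⟨c0, c1⟩ := V.cpos h
  have w := ev_cP V.hom i
  have o := oP_pos V h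
  have c : 0 < K.sy i 1 := by linarith
  have w0 : 0 ≤ K.sy i 2 := by linarith
  simp only [facP, iff_eq, Nat.beq_eq]
  split_ifs
  · rw [ev_cst V.hom]; simp [sg]
  simp only [ev_mul V.hom, ev_pw V.hom, ← sy0, ← sy1, ← sy2]
  refine ⟨by positivity, ?_⟩
  rintro (z | z)
  · have e1 : Nat.mod d 4 = 0 := by change d % 4 = 0; omega
    have e2 : Nat.mod (Nat.div d 4) 4 = 0 := by change d / 4 % 4 = 0; omega
    rw [e1, e2]; positivity
  · have : 0 < K.sy i 2 := by nlinarith
    positivity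

theorem tp_s (V : Valid K) (N : NC K tb mem) {i d h : ℕ} (hi : i < 26) {st : Bool} {k : ℕ → Bool}
    (e : tp tb mem i d st h k = true) : (st = true → 0 < ev K.v (facP i d)) ∧ ∃ h, k h = true := by
  simp only [tp, iff_eq, an_eq, lt_eq] at e
  split_ifs at e with a
  · obtain ⟨l, h, e⟩ := dg_s e
    simp only [an_eq] at e
    have := N.odd e.1 e.2.1
    rw [isT_s e.2.2.1] at this
    change 0 < K.lp (32 * i) at this
    rw [V.lp_tan hi, div_pos_iff_of_pos_right (by linarith [(V.cpos hi).1])] at this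
    exact ⟨fun _ => (facP_s V hi d).2 (.inr this), h, e.2.2.2⟩
  · refine ⟨fun s => (facP_s V hi d).2 (.inl ?_), h, e⟩
    have : ¬ 0 < d % 16 := fun c => a ⟨s, c⟩
    omega

theorem der_s (V : Valid K) (N : NC K tb mem) {a b h : ℕ} (ha : a < 26) (hb : b < 26) {p : Po} {st : Bool}
    {k : ℕ → Bool} (e : der tb mem a b p st h k = true) : rel st (ev K.v p) 0 ∧ ∃ h, k h = true := by
  obtain ⟨q, s, h, r, e⟩ := litP_s V N e
  obtain ⟨d, h, e⟩ := dg_s e
  simp only [frc_eq, frp_eq, an_eq, orr_eq, lt_eq] at e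
  obtain ⟨e1, e2, e3⟩ := e
  obtain ⟨ta, h, e3⟩ := tp_s V N ha e3
  obtain ⟨tb', e3⟩ := tp_s V N hb e3
  refine ⟨?_, e3⟩
  have z := ev_isZ (v := K.v) e2
  rw [ev_rd V, ev_rd V, ev_sub, ev_mul V.hom, ev_mulT V.hom, ev_mul V.hom, V.hom.one, sub_eq_zero] at z
  have fa := (facP_s V ha (Nat.mod (Nat.div d 1024) 128)).1
  have fb := (facP_s V hb (Nat.div d 131072)).1
  rw [z]
  cases st
  · have : ev K.v q ≤ 0 := by cases s; exacts [r, le_of_lt r]
    exact mul_nonpos_of_nonneg_of_nonpos (by simp only [sg, cond_false]; positivity) this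
  · obtain e1 | ⟨rfl, c⟩ := e1
    · exact absurd e1 (by simp [nt, xr])
    · have c : (0 : ℝ) < (Nat.mod d 1024 : ℕ) := Nat.cast_pos.2 c
      have ta := ta rfl
      have tb' := tb' rfl
      exact mul_neg_of_pos_of_neg (by simp only [sg, cond_false]; positivity) r

end

end Pool.Agent.P.MP_53fdf1_co.R
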