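import Pool.Agent.P.MP_53fdf1_co.RDat

set_option autoImplicit false
set_option exponentiation.threshold 2000

namespace Pool.Agent.P.MP_53fdf1_co.R

open RRup Finset

/-! Infeasibility of systems of monomial inequalities by products with natural exponents. -/

/-- the number `n` lists exponents at most `t` in base `2 ^ W` of a monomial with value `r` -/
def Rep (x : ℕ → ℝ) (W n t : ℕ) (r : ℝ) : Prop :=
  ∃ c : ℕ → ℕ, n = ∑ v ∈ range 512, c v * (2 ^ W) ^ v ∧ (∀ v, c v ≤ t) ∧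
    r = ∏ v ∈ range 512, x v ^ c v

theorem digits_inj (q N : ℕ) : ∀ c d : ℕ → ℕ, (∀ v, c v < q) → (∀ v, d v < q) →
    ∑ v ∈ range N, c v * q ^ v = ∑ v ∈ range N, d v * q ^ v → ∀ v, v < N → c v = d v := by
  induction N with
  | zero => exact fun _ _ _ _ _ v hv => absurd hv (Nat.not_lt_zero v)
  | succ N ih =>
    intro c d hc hd h v hv
    have e : ∀ c : ℕ → ℕ, ∑ v ∈ range (N + 1), c v * q ^ v =
        c 0 + q * ∑ v ∈ range N, c (v + 1) * q ^ v := fun c => by
      rw [sum_range_succ', mul_sum, pow_zero, mul_one, add_comm]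
      congr 1
      exact sum_congr rfl fun v _ => by ring
    rw [e, e] at h
    have h0 : c 0 = d 0 := by
      have := congrArg (· % q) h
      simpa only [Nat.add_mul_mod_self_left, Nat.mod_eq_of_lt (hc 0), Nat.mod_eq_of_lt (hd 0)]
        using this
    rcases v with _ | v
    · exact h0
    · rw [h0, add_right_inj] at h
      exact ih _ _ (fun v => hc (v + 1)) (fun v => hd (v + 1))
        (Nat.eq_of_mul_eq_mul_left ((Nat.zero_le _).trans_lt (hc 0)) h) v (by omega)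

variable {x : ℕ → ℝ} {W : ℕ}

theorem Rep.uniq {n t : ℕ} {a b : ℝ} (h : Rep x W n t a) (h' : Rep x W n t b) (ht : t < 2 ^ W) :
    a = b := by
  obtain ⟨c, h1, h2, h3⟩ := h
  obtain ⟨d, h4, h5, h6⟩ := h'
  rw [h3, h6]
  refine prod_congr rfl fun v hv => ?_
  rw [digits_inj _ _ c d (fun v => (h2 v).trans_lt ht) (fun v => (h5 v).trans_lt ht)
    (h1.symm.trans h4) v (mem_range.1 hv)]

theorem Rep.zero : Rep x W 0 0 1 := ⟨fun _ => 0, by simp, fun _ => le_rfl, by simp⟩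

theorem Rep.step {n m t s u : ℕ} {a b : ℝ} (h : Rep x W n t a) (h' : Rep x W m s b) (k : ℕ)
    (hu : s ≤ u) : Rep x W (n + k * m) (t + k * u) (a * b ^ k) := by
  obtain ⟨c, h1, h2, h3⟩ := h
  obtain ⟨d, h4, h5, h6⟩ := h'
  refine ⟨fun v => c v + k * d v, ?_, fun v => add_le_add (h2 v)
    (Nat.mul_le_mul_left _ ((h5 v).trans hu)), ?_⟩
  · rw [h1, h4, mul_sum, ← sum_add_distrib]
    exact sum_congr rfl fun v _ => by ring
  · rw [h3, h6, ← prod_pow, ← prod_mul_distrib]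
    exact prod_congr rfl fun v _ => by ring

theorem Rep.var {v : ℕ} (hv : v < 512) : Rep x W ((2 ^ W) ^ v) 1 (x v) := by
  refine ⟨fun u => if u = v then 1 else 0, ?_, fun u => by dsimp only; split_ifs <;> simp, ?_⟩
  · simp [sum_ite_eq', hv]
  · rw [prod_eq_single v (fun u _ hu => by simp [hu]) (fun h => absurd (mem_range.2 hv) h)]
    simp

theorem digits_lt (q N : ℕ) (c : ℕ → ℕ) (hc : ∀ v, c v < q) :
    ∑ v ∈ range N, c v * q ^ v < q ^ N := by
  induction N with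
  | zero => simp
  | succ N ih =>
    rw [sum_range_succ, pow_succ]
    have := Nat.mul_le_mul_right (q ^ N) (Nat.succ_le_of_lt (hc N))
    rw [Nat.succ_mul] at this
    rw [mul_comm _ q]
    omega

theorem Rep.lt {n t : ℕ} {a : ℝ} (h : Rep x W n t a) (ht : t < 2 ^ W) : n < 2 ^ (512 * W) := by
  obtain ⟨c, h1, h2, -⟩ := h
  rw [h1, mul_comm, pow_mul]
  exact digits_lt _ _ c fun v => (h2 v).trans_lt ht

theorem Rep.mono {n t u : ℕ} {a : ℝ} (h : Rep x W n t a) (hu : t ≤ u) : Rep x W n u a := by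
  obtain ⟨c, h1, h2, h3⟩ := h
  exact ⟨c, h1, fun v => (h2 v).trans hu, h3⟩

noncomputable section

/-- the factor `2 ^ ((u - d) / 64)` -/
def kp (u d : ℕ) : ℝ := (2 : ℝ) ^ (((u : ℝ) - d) / 64)

theorem kp_pos (u d : ℕ) : 0 < kp u d := Real.rpow_pos_of_pos two_pos _

theorem kp_step (u d a b k : ℕ) : kp (u + k * a) (d + k * b) = kp u d * kp a b ^ k := by
  unfold kp
  rw [← Real.rpow_natCast, ← Real.rpow_mul zero_le_two, ← Real.rpow_add two_pos]
  congr 1
  push_cast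
  ring

theorem kp_swap (u d : ℕ) : kp u d * kp d u = 1 := by
  unfold kp
  rw [← Real.rpow_add two_pos, show ((u : ℝ) - d) / 64 + ((d : ℝ) - u) / 64 = 0 by ring,
    Real.rpow_zero]

theorem rel_not {st : Bool} {a b : ℝ} {u d : ℕ} (h : ¬ rel st a (kp u d * b)) :
    rel (nt st) b (kp d u * a) := by
  have e : b = kp d u * (kp u d * b) := by rw [← mul_assoc, mul_comm (kp d u), kp_swap, one_mul]
  cases st
  · change b < _
    rw [e]
    exact mul_lt_mul_of_pos_left (not_le.1 h) (kp_pos _ _)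
  · change b ≤ _
    rw [e]
    exact mul_le_mul_of_nonneg_left (not_lt.1 h) (kp_pos _ _).le

theorem rel_le {st : Bool} {a b : ℝ} (h : rel st a b) : a ≤ b := by
  cases st
  · exact h
  · exact le_of_lt h

theorem rel_mul {s st : Bool} {a b a' b' : ℝ} (h : rel s a b) (h' : rel st a' b')
    (ha' : 0 ≤ a') (hb : 0 < b) (hb' : 0 < b') (k : ℕ) (hk : k ≠ 0) :
    rel (orr s st) (a * a' ^ k) (b * b' ^ k) := by
  have h1 : a' ^ k ≤ b' ^ k := pow_le_pow_left₀ ha' (rel_le h') k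
  have h2 : a * a' ^ k ≤ b * a' ^ k := mul_le_mul_of_nonneg_right (rel_le h) (pow_nonneg ha' k)
  cases s
  · cases st
    · exact h2.trans (mul_le_mul_of_nonneg_left h1 hb.le)
    · exact h2.trans_lt (mul_lt_mul_of_pos_left (pow_lt_pow_left₀ h' ha' hk) hb)
  · rcases le_or_gt 0 a with ha | ha
    · exact (mul_le_mul_of_nonneg_left h1 ha).trans_lt
        (mul_lt_mul_of_pos_right h (pow_pos hb' k))
    · exact (mul_nonpos_of_nonpos_of_nonneg ha.le (pow_nonneg ha' k)).trans_lt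
        (mul_pos hb (pow_pos hb' k))

theorem prod_pos_iff {l : List ℕ} (h : ∀ v ∈ l, 0 ≤ x v) :
    0 < (l.map x).prod ↔ ∀ v ∈ l, 0 < x v := by
  constructor
  · intro hp v hv
    refine lt_of_le_of_ne (h v hv) fun e => hp.ne' ?_
    exact List.prod_eq_zero (List.mem_map.2 ⟨v, hv, e.symm⟩)
  · intro hp
    refine List.prod_pos fun a ha => ?_
    obtain ⟨v, hv, rfl⟩ := List.mem_map.1 ha
    exact hp v hv

theorem fold_dl (op : ℕ → ℕ → ℕ) (f : ℕ → ℕ) (n : ℕ) : ∀ c,
    (fun (k : ℕ → ℕ) c => Nat.rec (motive := fun _ => ℕ) 0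
      (fun v _ => op (f v) (k (Nat.div c 1024))) (Nat.mod c 1024))^[n] (fun _ => 0) c =
      (dl n c).foldr (fun v r => op (f v) r) 0 := by
  induction n with
  | zero => exact fun _ => rfl
  | succ n ih =>
    intro c
    have e : dl (n + 1) c = Nat.rec (motive := fun _ => List ℕ) []
      (fun v _ => v :: dl n (Nat.div c 1024)) (Nat.mod c 1024) := rfl
    rw [Function.iterate_succ_apply', e, ih]
    cases Nat.mod c 1024 <;> rfl

theorem dl_len (n : ℕ) : ∀ c, (dl n c).length ≤ n := by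
  induction n with
  | zero => exact fun _ => le_rfl
  | succ n ih =>
    intro c
    have e : dl (n + 1) c = Nat.rec (motive := fun _ => List ℕ) []
      (fun v _ => v :: dl n (Nat.div c 1024)) (Nat.mod c 1024) := rfl
    rw [e]
    cases Nat.mod c 1024 with
    | zero => exact Nat.zero_le _
    | succ v => exact Nat.succ_le_succ (ih _)

theorem orD_bit (f : ℕ → ℕ) (c k : ℕ) :
    (orD f c).testBit k = true ↔ ∃ v ∈ dl 24 c, (f v).testBit k = true := by
  rw [orD, itr_eq, fold_dl]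
  induction dl (8 * 3) c with
  | nil => simp
  | cons a l ih =>
    change (f a ||| _).testBit k = true ↔ _
    rw [Nat.testBit_or, Bool.or_eq_true, ih]
    simp

variable {ta ι : ℕ → ℕ} {K : Cfg}

theorem bad_ok {v : ℕ} (h : bad ta ι v = 0) : ta (ι v) = 2 + 8 * v ∧ ι v < 512 ∧ v < 832 := by
  change (ta (ι v) ^^^ (2 + 8 * v)) + (ι v / 512 + v / 832) = 0 at h
  exact ⟨Nat.xor_eq_zero_iff.1 (by omega), by omega, by omega⟩

theorem vb_eq (v : ℕ) : vb ta ι v = 2 ^ (2 * ι v + 1 + (1024 - (1024 - 1024 * bad ta ι v))) :=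
  Nat.one_shiftLeft _

/-- the value attached to an atom -/
def xv (K : Cfg) (ta : ℕ → ℕ) (a : ℕ) : ℝ := K.lp ((ta a - 2) / 8)

theorem sumD_rep (c : ℕ) (h : ∀ v ∈ dl 24 c, bad ta ι v = 0) :
    Rep (xv K ta) W (sumD (vc ι W) c) 24 ((dl 24 c).map K.lp).prod := by
  refine Rep.mono ?_ (dl_len 24 c)
  rw [sumD, itr_eq, fold_dl]
  change Rep _ _ ((dl 24 c).foldr _ _) _ _
  generalize dl 24 c = l at h
  induction l with
  | nil => exact Rep.zero
  | cons a l ih =>
    obtain ⟨h1, h2, -⟩ := bad_ok (h a List.mem_cons_self)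
    have := (ih fun v hv => h v (List.mem_cons_of_mem _ hv)).step
      (Rep.var (x := xv K ta) (W := W) h2) 1 le_rfl
    rw [xv, h1, show (2 + 8 * a - 2) / 8 = a by omega, one_mul, pow_one, ← pow_mul,
      ← Nat.one_shiftLeft, add_comm, mul_comm _ (K.lp a)] at this
    exact this

/-- all literals of a set are false -/
def Fal (K : Cfg) (ta : ℕ → ℕ) (M : ℕ) : Prop :=
  ∀ l, M.testBit l = true → ¬ Lit K (fun a => dec (ta a)) l

theorem lit_pos {v : ℕ} (h : bad ta ι v = 0) :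
    ¬ Lit K (fun a => dec (ta a)) (2 * ι v + 1) ↔ 0 < K.lp v := by
  rw [Lit, if_neg (by omega), show (2 * ι v + 1) / 2 = ι v by omega, (bad_ok h).1, dec_pos, not_not]
  rfl

theorem side {c : ℕ} (h : ∀ k, (orD (vb ta ι) c).testBit k = true → k < 1024) :
    (∀ v ∈ dl 24 c, bad ta ι v = 0) ∧
      (Fal K ta (orD (vb ta ι) c) ↔ ∀ v ∈ dl 24 c, 0 < K.lp v) := by
  have h1 : ∀ v ∈ dl 24 c, bad ta ι v = 0 := fun v hv => by
    have := h _ ((orD_bit _ _ _).2 ⟨v, hv, vb_eq v ▸ Nat.testBit_two_pow_self⟩)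
    omega
  have h2 : ∀ v ∈ dl 24 c, vb ta ι v = 2 ^ (2 * ι v + 1) := fun v hv => by rw [vb_eq, h1 v hv]
  refine ⟨h1, fun hF v hv => (lit_pos (h1 v hv)).1
    (hF _ ((orD_bit _ _ _).2 ⟨v, hv, h2 v hv ▸ Nat.testBit_two_pow_self⟩)), fun hp l hl => ?_⟩
  obtain ⟨v, hv, h3⟩ := (orD_bit _ _ _).1 hl
  rw [h2 v hv, Nat.testBit_two_pow, decide_eq_true_eq] at h3
  exact h3 ▸ (lit_pos (h1 v hv)).2 (hp v hv)

/-- an inequality between two monomials with its code -/
def Row (x : ℕ → ℝ) (W P Q t w : ℕ) (b : ℝ) : Prop :=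
  ∃ L R u d S a s, P = L + u * 2 ^ (513 * W) ∧ Q = R + (d * 2 ^ W + S) * 2 ^ (512 * W) ∧ S ≤ w ∧
    (0 < S → s = true) ∧ Rep x W L t a ∧ Rep x W R t b ∧ 0 ≤ a ∧ rel s a (kp u d * b)

theorem Row.zero (t w : ℕ) : Row x W 0 0 t w 1 :=
  ⟨0, 0, 0, 0, 0, 1, false, by simp, by simp, Nat.zero_le _, by simp, Rep.zero.mono (Nat.zero_le _),
    Rep.zero.mono (Nat.zero_le _), zero_le_one, by simp [rel, kp]⟩

theorem Row.step {P Q P' Q' w : ℕ} {b b' : ℝ} (h : Row x W P Q (24 * w) w b)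
    (h' : Row x W P' Q' 24 1 b') (hb : 0 < b) (k : ℕ) (hb' : k ≠ 0 → 0 < b') :
    ∃ c, 0 < c ∧ Row x W (P + k * P') (Q + k * Q') (24 * (w + k)) (w + k) c := by
  rcases Nat.eq_zero_or_pos k with rfl | hk
  · exact ⟨b, hb, by simpa using h⟩
  obtain ⟨L, R, u, d, S, a, s, h1, h2, h3, h4, h5, h6, h7, h8⟩ := h
  obtain ⟨L', R', u', d', S', a', s', g1, g2, g3, g4, g5, g6, g7, g8⟩ := h'
  have hb2 := hb' hk.ne'
  refine ⟨b * b' ^ k, mul_pos hb (pow_pos hb2 k), L + k * L', R + k * R', u + k * u', d + k * d',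
    S + k * S', a * a' ^ k, orr s s', by rw [h1, g1]; ring, by rw [h2, g2]; ring,
    by nlinarith, fun h => (orr_eq _ _).2 ?_, (h5.step g5 k le_rfl).mono (by omega),
    (h6.step g6 k le_rfl).mono (by omega), mul_nonneg h7 (pow_nonneg g7 k), ?_⟩
  · rcases Nat.eq_zero_or_pos S with h0 | h0
    · exact Or.inr (g4 (Nat.pos_of_ne_zero fun e => by simp [h0, e] at h))
    · exact Or.inl (h4 h0)
  · have := rel_mul h8 g8 g7 (mul_pos (kp_pos _ _) hb) (mul_pos (kp_pos _ _) hb2) k hk.ne'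
    rwa [mul_pow, mul_mul_mul_comm, ← kp_step] at this

theorem fin_ok {a e pm P Q w : ℕ} {b : ℝ} (hF : Fal K ta pm) (hb : 0 < b)
    (h : Row x W P Q (24 * w) w b) : finF W a 0 pm P Q w ≠ 0 ∧
      (finF W a e pm P Q w = 0 → e = 0) := by
  refine ⟨fun h0 => ?_, fun h0 => (Nat.or_eq_zero_iff.1 h0).1⟩
  rcases Nat.mul_eq_zero.1 (Nat.or_eq_zero_iff.1 h0).2 with h1 | h1
  · change 3 - pm >>> (2 * a) % 4 = 0 at h1
    have h2 := hF (2 * a) ((bit_iff _ _).1 (by omega))
    have h3 := hF (2 * a + 1) ((bit_iff _ _).1 (by rw [Nat.shiftRight_succ]; omega))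
    rw [Lit, if_pos (by omega), show 2 * a / 2 = a by omega] at h2
    rw [Lit, if_neg (by omega), show (2 * a + 1) / 2 = a by omega] at h3
    exact h3 h2
  obtain ⟨L, R, u, d, S, p, s, rfl, rfl, h3, h4, hL, hR, -, hs⟩ := h
  change (25 * w) >>> W + (_ ^^^ _) % 1 <<< (512 * W) +
    (_ >>> (512 * W) + 1 - _ >>> (512 * W)) = 0 at h1
  simp only [Nat.shiftRight_eq_div_pow, Nat.one_shiftLeft, Nat.add_eq_zero_iff,
    Nat.xor_mod_two_pow, Nat.xor_eq_zero_iff] at h1
  obtain ⟨⟨h5, h6⟩, h7⟩ := h1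
  have h8 : 25 * w < 2 ^ W := (Nat.div_eq_zero_iff_lt (by positivity)).1 h5
  have h9 := hL.lt (by omega)
  have h10 := hR.lt (by omega)
  rw [show 513 * W = W + 512 * W by ring, pow_add, ← mul_assoc] at h6 h7
  rw [Nat.add_mul_mod_self_right, Nat.add_mul_mod_self_right, Nat.mod_eq_of_lt h9,
    Nat.mod_eq_of_lt h10] at h6
  rw [Nat.add_mul_div_right _ _ (by positivity), Nat.add_mul_div_right _ _ (by positivity),
    Nat.div_eq_of_lt h9, Nat.div_eq_of_lt h10] at h7
  subst h6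
  rw [hL.uniq hR (by omega)] at hs
  have hud : u ≤ d := by
    by_contra hc
    have := Nat.mul_le_mul_right (2 ^ W) (Nat.succ_le_of_lt (not_le.1 hc))
    rw [Nat.succ_mul] at this
    omega
  cases s
  · have h11 : u < d := lt_of_le_of_ne hud fun e => by
      rw [e] at h7
      exact absurd (h4 (by omega)) (by simp)
    have : kp u d < 1 := Real.rpow_lt_one_of_one_lt_of_neg one_lt_two
      (by have : (u : ℝ) < d := by exact_mod_cast h11
          linarith)
    have h5 : b ≤ kp u d * b := hs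
    nlinarith
  · have : kp u d ≤ 1 := Real.rpow_le_one_of_one_le_of_nonpos one_le_two
      (by have : (u : ℝ) ≤ d := by exact_mod_cast hud
          linarith)
    have h5 : b < kp u d * b := hs
    nlinarith

theorem fS_row (V : Valid K) (v : ℕ) : Row (xv K ta) W (fS ta ι W v) 0 24 1 1 := by
  have e : fS ta ι W v = (1 - (bad ta ι v + v % 32 / (30 - 16 * (1 - (1 - v / 192)) - 4 * (v / 576)))) *
    (1 <<< (W * ι v) + (64 - (64 - 64 * (v % 32))) <<< (513 * W)) := rfl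
  rcases Nat.eq_zero_or_pos (bad ta ι v + v % 32 / (30 - 16 * (1 - (1 - v / 192)) - 4 * (v / 576))) with h | h
  · obtain ⟨h1, h2⟩ := Nat.add_eq_zero_iff.1 h
    obtain ⟨h3, h4, h5⟩ := bad_ok h1
    have h6 := (Nat.div_eq_zero_iff_lt (by omega)).1 h2
    have h7 : xv K ta (ι v) = K.lp v := by rw [xv, h3, show (2 + 8 * v - 2) / 8 = v by omega]
    rw [e, h, Nat.sub_zero, one_mul, Nat.one_shiftLeft, Nat.shiftLeft_eq, pow_mul]
    refine ⟨_, 0, _, 0, 0, _, false, rfl, by simp, zero_le_one, by simp,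
      (Rep.var h4).mono (by omega), Rep.zero.mono (by omega), h7 ▸ V.lp_nonneg (by omega), ?_⟩
    rw [h7]
    rcases Nat.eq_zero_or_pos (v % 32) with h8 | h8
    · have := V.tan_le (show v / 32 < 26 by omega)
      rw [show 32 * (v / 32) = v by omega] at this
      simpa [rel, kp, h8] using this
    · rw [show 64 - (64 - 64 * (v % 32)) = 64 by omega]
      have h9 : okL v = true := by
        change an (lt (v / 32) 26) (lt (v / 2 % 16) (iff (lt (v / 32) 6) 15 (iff (lt (v / 32) 18) 7 5))) = true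
        simp only [an_eq, lt_eq, iff_eq]
        split_ifs <;> omega
      simpa [rel, kp] using V.lp_le h9
  · rw [e, Nat.sub_eq_zero_of_le h, zero_mul]
    exact Row.zero _ _

theorem sta_ok (V : Valid K) {B a h e pm P Q w : ℕ} {b : ℝ} (hF : Fal K ta pm) (hb : 0 < b)
    (hr : e = 0 → Row (xv K ta) W P Q (24 * w) w b) : sta ta ι W B a h e pm P Q w ≠ 0 := by
  simp only [sta, itr_eq]
  generalize 8 * 16 = n
  have h0 : ∀ P w b, 0 < b → (e = 0 → Row (xv K ta) W P Q (24 * w) w b) →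
      finF W a e pm P Q w ≠ 0 := fun P w b hb hr h1 => by
    have h2 : e = 0 := (Nat.or_eq_zero_iff.1 h1).1
    exact (fin_ok (e := 0) hF hb (hr h2)).1 (h2 ▸ h1)
  induction n generalizing h P w b with
  | zero => exact h0 P w b hb hr
  | succ n ih =>
    rw [Function.iterate_succ_apply', staS]
    cases Nat.mod h 1024 with
    | zero => exact h0 P w b hb hr
    | succ v =>
      by_cases he : e = 0
      · obtain ⟨c, h1, h2⟩ := (hr he).step (fS_row (ι := ι) V v) hb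
          (Nat.mod (Nat.div h 1024) B) fun _ => one_pos
        exact ih h1 fun _ => h2
      · exact ih hb fun h1 => absurd h1 he

theorem sub_bit {a b : ℕ} (h : Nat.xor (Nat.land a b) a = 0) (hF : Fal K ta b) : Fal K ta a :=
  fun l hl => hF l (by
    have e : a &&& b = a := Nat.xor_eq_zero_iff.1 h
    rw [← e, Nat.testBit_and, Bool.and_eq_true] at hl
    exact hl.2)

theorem bit_cases (n : ℕ) : bit n = true ∧ n % 2 = 1 ∨ bit n = false ∧ n % 2 = 0 := by
  cases h : bit n with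
  | true => exact Or.inl ⟨rfl, (bit_eq n).1 h⟩
  | false => exact Or.inr ⟨rfl, by have := (bit_eq n).not.1 (by simp [h]); omega⟩

theorem mono_rel {p : ℕ} (h : cN ta p % 8 = 3) (hl : ¬ Lit K (fun a => dec (ta a)) (p + 1)) :
    ∃ s, (s = true ↔ cS ta p = 1) ∧ rel s ((dl 24 (cA ta p)).map K.lp).prod
      (kp (cU ta p) (cE ta p - cU ta p) * ((dl 24 (cB ta p)).map K.lp).prod) := by
  have e0 : cE ta p = fld (cN ta p) 8 24 := by
    change cN ta p / 256 % 16777216 = cN ta p >>> 8 % 1 <<< 24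
    rw [Nat.shiftRight_eq_div_pow]
    rfl
  have e1 : cU ta p = cE ta p * ((p + 1 + cN ta p / 8) % 2) := rfl
  have e2 : cS ta p = (p + cN ta p / 16) % 2 := rfl
  have e3 : cA ta p = fld (cN ta p) (32 + 240 * (p % 2)) 240 := rfl
  have e4 : cB ta p = fld (cN ta p) (272 - 240 * (p % 2)) 240 := rfl
  have e5 : ∀ (g : Bool) (n : ℕ), (2 : ℝ) ^ (sg g n / 64) = kp (iff g 0 n) (iff g n 0) := fun g n => by
    cases g <;> simp [kp, sg, iff_t, iff_f]
  change ¬ (if (p + 1) % 2 = 0 then (dec (cN ta p)).sem K else ¬ (dec (cN ta p)).sem K) at hl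
  rw [dec_mono h, Atom.sem, e5, ← e0] at hl
  rw [e1, e2, e3, e4]
  rcases Nat.mod_two_eq_zero_or_one p with hp | hp
  · rw [if_neg (by omega), not_not] at hl
    refine ⟨bit (cN ta p / 16), by rw [bit_eq]; omega, ?_⟩
    rcases bit_cases (cN ta p / 8) with ⟨h1, h2⟩ | ⟨h1, h2⟩ <;> rw [h1] at hl
    · rw [show (p + 1 + cN ta p / 8) % 2 = 0 by omega, hp]
      simpa [iff_t] using hl
    · rw [show (p + 1 + cN ta p / 8) % 2 = 1 by omega, hp]
      simpa [iff_f] using hl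
  · rw [if_pos (by omega)] at hl
    have h3 := rel_not hl
    refine ⟨nt (bit (cN ta p / 16)), ?_, ?_⟩
    · rcases bit_cases (cN ta p / 16) with ⟨h1, h2⟩ | ⟨h1, h2⟩ <;> rw [h1, nt_eq] <;> simp <;> omega
    rcases bit_cases (cN ta p / 8) with ⟨h1, h2⟩ | ⟨h1, h2⟩ <;> rw [h1] at h3
    · rw [show (p + 1 + cN ta p / 8) % 2 = 1 by omega, hp]
      simpa [iff_t] using h3
    · rw [show (p + 1 + cN ta p / 8) % 2 = 0 by omega, hp]
      simpa [iff_f] using h3

theorem lit_ok (V : Valid K) {p : ℕ} (hl : ¬ Lit K (fun a => dec (ta a)) (p + 1)) :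
    ∃ b, Row (xv K ta) W (fP ta ι W p) (fQ ta ι W p) 24 1 b ∧
      (Fal K ta (fa ta ι p) → Fal K ta (fb ta ι p)) ∧ (Fal K ta (fb ta ι p) → 0 < b) ∧
      (fa ta ι p ≠ 0 → fb ta ι p < 2 ^ 1024) := by
  have e0 : okM ta ι p = 1 - ((cN ta p % 8 ^^^ 3) + (bA ta ι p ||| bB ta ι p) >>> 1024) := rfl
  have e1 : fa ta ι p = okM ta ι p * (1 - cS ta p) * bA ta ι p := rfl
  have e2 : fb ta ι p = okM ta ι p * bB ta ι p + (1 - okM ta ι p) <<< (p + 1) := rfl
  have e3 : fP ta ι W p = okM ta ι p * (sumD (vc ι W) (cA ta p) + cU ta p <<< (513 * W)) := rfl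
  have e4 : fQ ta ι W p = okM ta ι p * (sumD (vc ι W) (cB ta p) +
    ((cE ta p - cU ta p) <<< W + cS ta p) <<< (512 * W)) := rfl
  rw [e1, e2, e3, e4]
  rcases Nat.eq_zero_or_pos ((cN ta p % 8 ^^^ 3) + (bA ta ι p ||| bB ta ι p) >>> 1024) with h | h
  · obtain ⟨h1, h2⟩ := Nat.add_eq_zero_iff.1 h
    rw [h] at e0
    rw [Nat.shiftRight_eq_div_pow, Nat.div_eq_zero_iff_lt (by positivity)] at h2
    have h3 : ∀ k, (bA ta ι p ||| bB ta ι p).testBit k = true → k < 1024 := fun k hk => by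
      by_contra hc
      rw [Nat.testBit_lt_two_pow (h2.trans_le (Nat.pow_le_pow_right two_pos (not_lt.1 hc)))] at hk
      exact absurd hk (by simp)
    obtain ⟨hA, hA'⟩ := side (K := K) (ta := ta) (ι := ι) (c := cA ta p)
      fun k hk => h3 k (by simp [bA, hk])
    obtain ⟨hB, hB'⟩ := side (K := K) (ta := ta) (ι := ι) (c := cB ta p)
      fun k hk => h3 k (by simp [bB, hk])
    obtain ⟨s, hs, hr⟩ := mono_rel (Nat.xor_eq_zero_iff.1 h1) hl
    have hS : cS ta p < 2 := Nat.mod_lt _ two_pos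
    have hx : ∀ c, (∀ v ∈ dl 24 c, bad ta ι v = 0) → ∀ v ∈ dl 24 c, 0 ≤ K.lp v :=
      fun c hc v hv => V.lp_nonneg (by have := (bad_ok (hc v hv)).2.2; omega)
    have hA0 : 0 ≤ ((dl 24 (cA ta p)).map K.lp).prod := List.prod_nonneg fun a ha => by
      obtain ⟨v, hv, rfl⟩ := List.mem_map.1 ha
      exact hx _ hA v hv
    simp only [e0, Nat.sub_zero, one_mul, Nat.sub_self, add_zero,
      Nat.shiftLeft_eq, zero_mul]
    refine ⟨_, ⟨_, _, _, _, _, _, s, rfl, rfl, by omega, fun h => hs.2 (by omega), sumD_rep _ hA,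
      sumD_rep _ hB, hA0, hr⟩, fun hF => hB'.2 ((prod_pos_iff (hx _ hB)).1 ?_),
      fun hF => (prod_pos_iff (hx _ hB)).2 (hB'.1 hF),
      fun _ => lt_of_le_of_lt Nat.right_le_or h2⟩
    refine (mul_pos_iff_of_pos_left (kp_pos (cU ta p) (cE ta p - cU ta p))).1 ?_
    cases s
    · rw [show 1 - cS ta p = 1 by have := hs.not.1 (by simp); omega, one_mul] at hF
      exact lt_of_lt_of_le ((prod_pos_iff (hx _ hA)).2 (hA'.1 hF)) hr
    · exact lt_of_le_of_lt hA0 hr
  · rw [Nat.sub_eq_zero_of_le h] at e0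
    simp only [e0, zero_mul, zero_add, Nat.sub_zero, Nat.one_shiftLeft]
    refine ⟨1, Row.zero _ _, fun _ l h1 => ?_, fun _ => one_pos, fun h1 => absurd rfl h1⟩
    rw [Nat.testBit_two_pow, decide_eq_true_eq] at h1
    exact h1 ▸ hl

def farS (ta ι : ℕ → ℕ) (W B a : ℕ) (k : ℕ → ℕ → ℕ → ℕ → ℕ → ℕ → ℕ → ℕ) (c h e pm P Q w : ℕ) : ℕ :=
  Nat.rec (motive := fun _ => ℕ) (sta ta ι W B a h e pm P Q w) (fun p _ =>
    (fun lam pm' => k (Nat.div c 1048576) (Nat.div h B)
      (Nat.lor e (Nat.mul lam (Nat.xor (Nat.land (fb ta ι p) pm') (fb ta ι p)))) pm'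
      (Nat.add P (Nat.mul lam (fP ta ι W p))) (Nat.add Q (Nat.mul lam (fQ ta ι W p)))
      (Nat.add w lam)) (Nat.mod h B)
      (Nat.lor pm (Nat.sub (fb ta ι p) (Nat.shiftLeft
        (Nat.xor (Nat.land (fa ta ι p) pm) (fa ta ι p)) 1024)))) (Nat.mod c 1048576)

theorem far_ok (V : Valid K) {B a : ℕ} (n : ℕ) : ∀ c' h' e pm P Q w,
    (farS ta ι W B a)^[n] (fun _ _ _ _ _ _ _ => 1) c' h' e pm P Q w = 0 →
      (∀ l, MemD l n c' → ¬ Lit K (fun a => dec (ta a)) l) → Fal K ta pm →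
        (∃ b, 0 < b ∧ (e = 0 → Row (xv K ta) W P Q (24 * w) w b)) → False := by
    induction n with
    | zero => exact fun _ _ _ _ _ _ _ h => absurd h one_ne_zero
    | succ n ih =>
      rintro c' h' e pm P Q w hc hd hF ⟨b, hb, hr⟩
      rw [Function.iterate_succ_apply', farS] at hc
      cases h2 : Nat.mod c' 1048576 with
      | zero => rw [h2] at hc; exact sta_ok V hF hb hr hc
      | succ p =>
        rw [h2] at hc
        have h3 : c' % 1048576 = p + 1 := h2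
        obtain ⟨b', g1, g2, g3, g4⟩ := lit_ok (W := W) (ι := ι) V (hd _ ⟨by omega, Or.inl h3⟩)
        have hF' : Fal K ta (Nat.lor pm (Nat.sub (fb ta ι p) (Nat.shiftLeft
            (Nat.xor (Nat.land (fa ta ι p) pm) (fa ta ι p)) 1024))) := fun l hl => by
          change (pm ||| (fb ta ι p - Nat.xor (Nat.land (fa ta ι p) pm) (fa ta ι p) <<< 1024)).testBit
            l = true at hl
          rw [Nat.testBit_or, Bool.or_eq_true] at hl
          refine hl.elim (hF l) fun hl => ?_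
          by_cases h4 : Nat.xor (Nat.land (fa ta ι p) pm) (fa ta ι p) = 0
          · rw [h4, Nat.zero_shiftLeft, Nat.sub_zero] at hl
            exact g2 (sub_bit h4 hF) l hl
          · have h5 := g4 fun h6 => h4 (by rw [h6]; exact Nat.xor_eq_zero_iff.2 (Nat.zero_and _))
            rw [Nat.shiftLeft_eq, Nat.sub_eq_zero_of_le
              (h5.le.trans (Nat.le_mul_of_pos_left _ (Nat.pos_of_ne_zero h4)))] at hl
            exact absurd hl (by simp)
        refine ih _ _ _ _ _ _ _ hc (fun l hl => hd l ⟨by omega, Or.inr hl⟩) hF' ?_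
        by_cases h4 : Nat.lor e (Nat.mul (Nat.mod h' B) (Nat.xor (Nat.land
            (fb ta ι p) (Nat.lor pm (Nat.sub (fb ta ι p) (Nat.shiftLeft (Nat.xor (Nat.land
            (fa ta ι p) pm) (fa ta ι p)) 1024)))) (fb ta ι p))) = 0
        · obtain ⟨h5, h6⟩ := Nat.or_eq_zero_iff.1 h4
          obtain ⟨b2, h7, h8⟩ := (hr h5).step g1 hb _ fun h7 =>
            g3 (sub_bit ((Nat.mul_eq_zero.1 h6).resolve_left h7) hF')
          exact ⟨b2, h7, fun _ => h8⟩
        · exact ⟨1, one_pos, fun h5 => absurd h5 h4⟩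

theorem chkFar_ok {c h : ℕ} (hc : chkFar ta ι c h = 0) :
    RRup.Univ Valid (fun K a => (dec (ta a)).sem K) c := by
  intro K V
  by_contra hn
  unfold chkFar at hc
  cases h1 : Nat.mod h 64 with
  | zero => rw [h1] at hc; exact absurd hc (by simp)
  | succ W =>
    rw [h1] at hc
    change itr (farS ta ι W _ _) _ 128 _ _ _ _ _ _ _ = 0 at hc
    rw [itr_eq] at hc
    exact far_ok V _ _ _ _ _ _ _ _ hc (fun l hl ht => hn ⟨l, (memC_iff c l).2 (Or.inr hl), ht⟩)
      (fun l hl ht => hn ⟨l, (memC_iff c l).2 (Or.inl hl), ht⟩) ⟨1, one_pos, fun _ => Row.zero _ _⟩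

end

end Pool.Agent.P.MP_53fdf1_co.R
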