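import Pool.Agent.P.MP_53fdf1_co.RVec
import Pool.Agent.P.MP_53fdf1_co.RDat

set_option autoImplicit false

namespace Pool.Agent.P.MP_53fdf1_co.R.Fa

open Po Ln

noncomputable section

def dgt (c r : ℕ) : ℕ := Nat.mod (Nat.shiftRight (RRup.dig c) (Nat.mul 20 r)) 1048576

def nz1 (c j k : ℕ) : ℕ := Nat.mul (Nat.sub 1 (dgt c j)) (dgt c k)

/-- zero if no digit zero comes before another digit -/
def nz (c : ℕ) : ℕ := Nat.add (Nat.add (nz1 c 0 1) (nz1 c 1 2)) (Nat.add (nz1 c 2 3) (Nat.add (nz1 c 3 4) (nz1 c 4 5)))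

/-- a literal of the clause, or the name of a static row -/
def ky (c r : ℕ) : ℕ := Nat.add (dgt c r) (Nat.mul 4194304 (Nat.div r 6))

/-- one if the number is zero: `k` of the predecessor -/
def cs (n : ℕ) (k : ℕ → ℕ) : ℕ := @Nat.rec (fun _ => ℕ) 1 (fun p _ => k p) n

def coN (B C O b T : ℕ) : ℕ :=
  Nat.sub (Nat.succ (Nat.mul (sq2 b) (Nat.add 79228162514264337593543950336 (sq2 T))))
    (sq2 (Nat.sub (Nat.add (Nat.mul B T) (Nat.mul 281474976710656 O))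
      (Nat.add (Nat.mul O T) (Nat.mul 281474976710656 C))))

def liN (P Q R U S T : ℕ) : ℕ :=
  Nat.add (Nat.sub (Nat.succ (Nat.add U (Nat.mul R S))) (Nat.add P (Nat.mul Q S)))
    (Nat.sub (Nat.succ (Nat.add U (Nat.mul R T))) (Nat.add P (Nat.mul Q T)))

def taN (a B C O S T m n N : ℕ) : ℕ :=
  liN (Nat.mul 281474976710656 (Nat.add (Nat.mul a (Nat.sub 281474976710656 n)) (Nat.mul O N)))
    (Nat.add (Nat.mul 33554432 (Nat.mul a m)) (Nat.mul B N)) (Nat.mul O N) (Nat.mul 281474976710656 (Nat.mul C N)) S T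

def arcN (A B C O S T m : ℕ) : ℕ :=
  @Nat.rec (fun _ => ℕ) (taN (Nat.sub A (Nat.mul 2 O)) B C O S T m (sq2 m) (Nat.add 281474976710656 (sq2 m)))
    (fun _ _ => Nat.add (coN B C O (Nat.sub (Nat.mul 2 O) A) S) (coN B C O (Nat.sub (Nat.mul 2 O) A) T))
    (Nat.sub (Nat.mul 2 O) A)

def finN (m G S T : ℕ) : ℕ :=
  Nat.add (Nat.add (Nat.shiftRight G 894) (Nat.xor (Nat.shiftRight G 384) (Nat.mul (Nat.shiftRight G 768) 0x1000000000000000000000000000000010000000000000000000000000000000100000000000000000000000000000001)))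
    (arcN (Nat.add (f128 G 0) (f128 G 256)) (f128 G 128) (f128 G 256) (Nat.shiftRight G 768) S T m)

def dF (t q : ℕ) : ℕ := Nat.add (Nat.sub (Nat.add 193 (Nat.mul 128 (Nat.mod t 2))) q)
  (Nat.sub q (Nat.add 255 (Nat.mul 128 (Nat.mod t 2))))

def adj (s t f g : ℕ) : ℕ :=
  Nat.add (Nat.add (Nat.sub 1 (Nat.xor f g)) (Nat.xor (gq s (Nat.sub 3 (Nat.add f g))) (gq t (Nat.sub 3 (Nat.add f g)))))
    (Nat.add (dF t (gq s g)) (dF s (gq t f)))

def lb (u : ℕ) : ℕ := labC (Nat.div u 32)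

def sF (u : ℕ) : ℕ := Nat.add 3 (Nat.mul 10 (fN (Nat.div u 32)))

def zc (u : ℕ) : ℕ := iff (vF (Nat.div u 32)) 320 256

section
variable (tb : ℕ → Atom)

/-- the row of the key `p + 1` -/
def rr (i p : ℕ) : ℕ := frc (Nat.succ p) fun d =>
  iff (lt d 4194304)
    (onM (tb (Nat.div d 2)) (iff (isT (tb (Nat.div d 2)) (Nat.mul 32 i)) 0 (la i (bit d) (tb (Nat.div d 2))))
      fun q g e => frc (hd q) fun n => iff (an (lt 0 (Nat.mod n 32)) (ok9 n))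
        (iff (bit d) (frc (Cut.kU (kE g e)) fun T => iff (ubV tb (m1 d) n d fun T' _ => Nat.ble T' T)
            (Nat.add (Nat.mul 281474976710656 (oV i false n)) (Nat.mul T (cV i true n))) 0)
          (frc (Cut.kD (kE g e)) fun T => iff (lbP tb (m1 d) n d 0 fun T' _ => Nat.ble T T')
            (Nat.add (Nat.mul 281474976710656 (oV i true n)) (Nat.mul T (cV i false n))) 0)) 0)
    (frc (Nat.sub d 4194305) fun n => iff (lt n 832)
      (iff (an (ok9 n) (okL n)) (Nat.add (oV i false n) (Nat.mul 2 (cV i true n))) 0) (pk i (neg (oP i))))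

def tl1 (i p : ℕ) : ℕ := frc (Nat.succ p) fun d => onM (tb (Nat.div d 2)) 0 fun _ _ _ => tl tb i d

def tu1 (i p : ℕ) : ℕ := frc (Nat.succ p) fun d =>
  @Atom.rec (fun _ => ℕ) (fun _ _ => 281474976710656) (fun _ _ _ => 281474976710656) (fun _ => tu tb i d)
    (fun _ _ _ _ _ => tu tb i d) (fun _ => 281474976710656) (tb (Nat.div d 2))

def rf (p : ℕ) : ℕ := frc (Nat.succ p) fun d => iff (an (bit d) (lt d 4194304))
  (@Atom.rec (fun _ => ℕ) (fun i φ => iff (an (lt i 26) (lt φ 48)) (Nat.succ (Nat.add i (Nat.mul 32 φ))) 0)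
    (fun _ _ _ => 0) (fun _ => 0) (fun _ _ _ _ _ => 0) (fun _ => 0) (tb (Nat.div d 2))) 0

def onS (b : Bool) (p : ℕ) (k : ℕ → ℕ → ℕ → ℕ) : ℕ := frc (Nat.succ p) fun d => iff (an (nt (xr b (bit d))) (lt d 4194304))
  (@Atom.rec (fun _ => ℕ) (fun _ _ => 0) k (fun _ => 0) (fun _ _ _ _ _ => 0) (fun _ => 0) (tb (Nat.div d 2))) 0

def rs (p : ℕ) : ℕ := onS tb true p fun a b t => iff (an (lt t 8) (an (lt a 26) (lt b 26)))
  (Nat.succ (iff (lt t 4) (Nat.add (Nat.add a (Nat.mul 32 b)) (Nat.mul 2048 t))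
    (Nat.add (Nat.add b (Nat.mul 32 a)) (Nat.mul 2048 (Nat.sub t 4))))) 0

/-- a positive quantity -/
def lP (i p : ℕ) : ℕ := frc (Nat.succ p) fun d => iff (lt d 4194304)
  (iff (bit d) (frc (la i false (tb (Nat.div d 2))) fun q => frc (Nat.div 64 (ab q)) fun c =>
    iff (lt 0 c) (Nat.mul c q) BAD) BAD) (Nat.mul 64 (pk i (oP i)))

/-- a quantity that is not positive -/
def lN (i p : ℕ) : ℕ := frc (Nat.succ p) fun d => iff (an (lt d 4194304) (nt (bit d)))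
  (frc (la i false (tb (Nat.div d 2))) fun q => Nat.mul (Nat.div 64 (ab q)) q) BAD

end

def tvK (i p : ℕ) : ℕ := tv i (bit p) (Nat.div p 2)

def ts1 (i b : ℕ) (k : ℕ → ℕ) (n w : ℕ) : ℕ :=
  Nat.add (Nat.mul (Nat.mod (Nat.shiftRight n 6) 17179869184)
    (cs (Nat.succ (Nat.add (Nat.mul 2 (Nat.mod (Nat.shiftRight n 40) (Nat.shiftLeft 1 w))) (Nat.mod (Nat.add n b) 2)))
      (tvK i))) (k (Nat.shiftRight n (Nat.add 40 w)))

def ts (i b : ℕ) (k : ℕ → ℕ) (n : ℕ) : ℕ :=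
  @Nat.rec (fun _ => ℕ) 0 (fun _ _ => ts1 i b k n (Nat.mul 9 (Nat.mod (Nat.shiftRight n 1) 32))) n

/-- a linear polynomial read from its code -/
def lqN (i b n : ℕ) : ℕ := ts i b (ts i b (ts i b (ts i b (ts i b (ts i b fun n => Nat.mul n BAD))))) n

def sc1 (e q c : ℕ) : ℕ := Nat.add (Nat.mul c q) (Nat.mul (Nat.add e (Nat.sub 1 c)) BAD)

def sc (e q : ℕ) : ℕ := sc1 e q (Nat.div 64 (ab q))

def ri1 (e n : ℕ) : ℕ :=
  Nat.mul (Nat.add (Nat.mod (Nat.shiftRight n 3) 256) (Nat.mul 32 (Nat.shiftRight n 19)))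
    (Nat.sub 1 (Nat.add (Nat.add e (Nat.xor (Nat.mod n 8) 1)) (Nat.add
      (Nat.xor (Nat.mod (Nat.shiftRight n 3) 256) (Nat.mod (Nat.shiftRight n 11) 256))
      (Nat.add (Nat.div (Nat.mod (Nat.shiftRight n 3) 256) 26) (Nat.sub 14 (Nat.shiftRight n 19))))))

section
variable (ta : ℕ → ℕ)

/-- the code of the atom of the literal `p + 1` -/
def cN (p : ℕ) : ℕ := ta (Nat.div (Nat.succ p) 2)

def ty (p t : ℕ) : ℕ := Nat.xor (Nat.mod (cN ta p) 8) t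

def rN (i p : ℕ) : ℕ := @Nat.rec (fun _ => ℕ) (lqN i (Nat.mod (Nat.succ p) 2) (Nat.div (cN ta p) 8))
  (fun _ _ => rr (tbl ta) i p) (Nat.add (ty ta p 4) (Nat.div p 4194303))

def ra (i p : ℕ) : ℕ := Nat.add (ab (rN ta i p)) (Nat.sub 1 (ab (rN ta i p)))

def tlN (i p : ℕ) : ℕ := @Nat.rec (fun _ => ℕ) (tl1 (tbl ta) i p) (fun _ _ => 0) (ty ta p 3)

def tuN (i p : ℕ) : ℕ := @Nat.rec (fun _ => ℕ) 281474976710656 (fun _ _ => tu1 (tbl ta) i p) (ty ta p 4)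

def pN (i p : ℕ) : ℕ := @Nat.rec (fun _ => ℕ) (sc (Nat.mod p 2) (lqN i 0 (Nat.div (cN ta p) 8)))
  (fun _ _ => lP (tbl ta) i p) (Nat.add (ty ta p 4) (Nat.div p 4194303))

def nN (i p : ℕ) : ℕ := @Nat.rec (fun _ => ℕ) (sc (Nat.mod (Nat.succ p) 2) (lqN i 0 (Nat.div (cN ta p) 8)))
  (fun _ _ => lN (tbl ta) i p) (Nat.add (ty ta p 4) (Nat.div p 4194303))

/-- piece and point of a point atom; `b` is the parity of `p` -/
def ri (b p : ℕ) : ℕ := ri1 (Nat.add (Nat.xor (Nat.mod p 2) b) (Nat.div p 4194303)) (cN ta p)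

def f1 (i : ℕ) (z k : ℕ → ℕ → ℕ → ℕ → ℕ) (d G L S T : ℕ) : ℕ :=
  @Nat.rec (fun _ => ℕ) (z G L S T) (fun p _ =>
    k (Nat.add (Nat.mul (ra ta i p) G) (Nat.mul L (rN ta i p))) (Nat.mul L (ra ta i p))
      (Nat.add S (Nat.sub (tlN ta i p) S)) (Nat.sub T (Nat.sub T (tuN ta i p)))) d

def arc2 (i h : ℕ) (z : ℕ → ℕ → ℕ → ℕ) (G L S T : ℕ) : ℕ :=
  @Nat.rec (fun _ => ℕ) (z G S T) (fun n _ =>
    z (Nat.add (Nat.mul (ra ta i (Nat.add 4194304 n)) G) (Nat.mul L (rN ta i (Nat.add 4194304 n)))) S T) h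

def arc1 (i c : ℕ) (z : ℕ → ℕ → ℕ → ℕ → ℕ) : ℕ :=
  f1 ta i z (f1 ta i z (f1 ta i z (f1 ta i z z (dgt c 3)) (dgt c 2)) (dgt c 1)) (dgt c 0) 0 1 0 281474976710656

/-- bounds of one offset that contradict each other on an arc -/
def arc (c h : ℕ) : ℕ := cs (Nat.mod h 32) fun i => Nat.add (Nat.div i 26)
  (arc1 ta i c (arc2 ta i (Nat.shiftRight h 29) (finN (Nat.mod (Nat.div h 32) 16777216))))

def side (F : ℕ → ℕ) (c u x y r : ℕ) : ℕ := cs (ky c r) fun p => zv (Nat.add (sdT u x y) (F p))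

def side1 (F : ℕ → ℕ) (c u s r : ℕ) : ℕ :=
  side F c u (Nat.mod (Nat.shiftRight s (sA u)) 1024) (Nat.mod (Nat.shiftRight s (sB u)) 1024) r

def side4 (F : ℕ → ℕ) (c u x y h : ℕ) : ℕ :=
  Nat.add (Nat.add (side F c u x y (Nat.mod h 8)) (side F c (Nat.add u 2048) x y (Nat.mod (Nat.div h 8) 8)))
    (Nat.add (side F c (Nat.add u 4096) x y (Nat.mod (Nat.div h 64) 8))
      (side F c (Nat.add u 6144) x y (Nat.div h 512)))

/-- a true flag and a point atom -/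
def fi (b c h : ℕ) (k : ℕ → ℕ → ℕ → ℕ) : ℕ :=
  cs (ky c (Nat.mod h 8)) fun p => cs (rf (tbl ta) p) fun u => cs (Nat.succ (Nat.mod u 32)) fun i =>
    cs (ky c (Nat.mod (Nat.div h 8) 8)) fun q =>
      Nat.add (Nat.add (nz c) (Nat.sub 1 (ri ta b q))) (k u i (ri ta b q))

def fDef (c h : ℕ) : ℕ := fi ta 1 c h fun u i v =>
  Nat.add (Nat.add (Nat.xor (Nat.mod v 32) i) (Nat.add (Nat.xor (lb u) (Nat.mod (Nat.div v 32) 8))
    (Nat.xor (Nat.mod (Nat.shiftRight (Nat.div v 32) (sF u)) 1024) (zc u))))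
    (side4 (pN ta i) c u (Nat.mod (Nat.shiftRight (Nat.div v 32) (sA u)) 1024)
      (Nat.mod (Nat.shiftRight (Nat.div v 32) (sB u)) 1024) (Nat.div h 64))

def fRev (c h : ℕ) : ℕ := fi ta 0 c h fun u i v => Nat.add (Nat.xor (Nat.mod v 32) i)
  (cs (Nat.succ (Nat.add u (Nat.mul 2048 (Nat.div h 512)))) fun u' =>
    side1 (nN ta i) c u' (Nat.div v 32) (Nat.mod (Nat.div h 64) 8))

def fSep (c h : ℕ) : ℕ := fi ta 0 c h fun u i v => cs (ky c (Nat.div h 512)) fun p => cs (rs (tbl ta) p) fun w =>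
  Nat.add (Nat.xor (Nat.mod w 2048) (Nat.add i (Nat.mul 32 (Nat.mod v 32))))
    (cs (Nat.succ (Nat.add u (Nat.mul 2048 (Nat.div w 2048)))) fun u' =>
      side1 (pN ta i) c u' (Nat.div v 32) (Nat.mod (Nat.div h 64) 8))

def dis2 (v w : ℕ) : ℕ :=
  Nat.add (Nat.add (Nat.add (Nat.sub 1 v) (Nat.sub 1 w)) (Nat.sub 1 (Nat.xor (Nat.mod v 32) (Nat.mod w 32))))
    (Nat.mul (Nat.xor (Nat.div v 32) (Nat.div w 32)) (adj (Nat.div v 32) (Nat.div w 32)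
      (Nat.div (Nat.mod (Nat.div v 32) 8) 2) (Nat.div (Nat.mod (Nat.div w 32) 8) 2)))

def fDis (c : ℕ) : ℕ := cs (dgt c 0) fun p => cs (dgt c 1) fun q => dis2 (ri ta 0 p) (ri ta 0 q)

def slow (b : Bool) : ℕ := @Bool.rec (fun _ => ℕ) 1 0 b

/-- the checker of input clauses and of clauses of kind 6 -/
def chkFast (c h : ℕ) : ℕ :=
  @Nat.rec (fun _ => ℕ) (arc ta c (Nat.div h 8)) (fun t _ => @Nat.rec (fun _ => ℕ) (fDef ta c (Nat.div h 8))
    (fun t _ => @Nat.rec (fun _ => ℕ) (fDis ta c) (fun t _ => @Nat.rec (fun _ => ℕ) (fRev ta c (Nat.div h 8))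
      (fun t _ => @Nat.rec (fun _ => ℕ) (fSep ta c (Nat.div h 8))
        (fun t _ => @Nat.rec (fun _ => ℕ) (slow (chkPt (tbl ta) (RRup.memC c) (Nat.div h 8)))
          (fun _ _ => slow (chkL6 (tbl ta) (RRup.memC c) (Nat.div h 8))) t) t) t) t) t) (Nat.mod h 8)

end

end

end Pool.Agent.P.MP_53fdf1_co.R.Fa
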