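import Pool.Agent.P.MP_53fdf1_co.RFast

set_option autoImplicit false

namespace Pool.Agent.P.MP_53fdf1_co.R.Fa

open Po Ln RRup

variable {K : Cfg} {tb : ℕ → Atom} {ta : ℕ → ℕ} {mem : ℕ → Bool} {i p c h : ℕ}

theorem cs_s {n : ℕ} {k : ℕ → ℕ} (e : cs n k = 0) : ∃ p, n = p + 1 ∧ k p = 0 := by
  cases n
  exacts [absurd e one_ne_zero, ⟨_, rfl, e⟩]

theorem rec_s {P : ℕ → Prop} {x y n : ℕ} (a : n = 0 → P x) (b : P y) :
    P (@Nat.rec (fun _ => ℕ) x (fun _ _ => y) n) := by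
  cases n
  exacts [a rfl, b]

theorem add0 {a b : ℕ} (e : Nat.add a b = 0) : a = 0 ∧ b = 0 := Nat.add_eq_zero_iff.1 e

theorem xor0 {a b : ℕ} (e : Nat.xor a b = 0) : a = b := Nat.eq_of_xor_eq_zero e

theorem memD (r : ℕ) : ∀ n D, r < n → (∀ j ≤ r, D >>> (20 * j) % 1048576 ≠ 0) →
    MemD (D >>> (20 * r) % 1048576) n D := by
  induction r with
  | zero => rintro (_ | n) D a b; exacts [absurd a (lt_irrefl _), ⟨b 0 le_rfl, .inl rfl⟩]
  | succ r ih =>
    rintro (_ | n) D a b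
    · exact absurd a (Nat.not_lt_zero _)
    have e : ∀ j, D >>> (20 * (j + 1)) = (D / 1048576) >>> (20 * j) := fun j => by
      rw [show 20 * (j + 1) = 20 + 20 * j by ring, Nat.shiftRight_add, Nat.shiftRight_eq_div_pow D]
    refine ⟨b 0 (Nat.zero_le _), .inr ?_⟩
    rw [e]
    exact ih n _ (by omega) fun j hj => e j ▸ b (j + 1) (by omega)

theorem dgt_s {r : ℕ} (a : r < 6) (b : ∀ j ≤ r, dgt c j ≠ 0) : memC c (dgt c r) = true :=
  (memC_iff _ _).2 (.inr (memD r _ _ (by omega) b))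

/-- the key is a literal of the clause or a static name -/
def Ok (mem : ℕ → Bool) (p : ℕ) : Prop := okD mem (p + 1) = true

theorem Ok.of (e : mem (p + 1) = true) : Ok mem p := (orr_eq _ _).2 (.inr e)

theorem Ok.mm (o : Ok mem p) (l : p + 1 < 4194304) : mem (p + 1) = true :=
  ((orr_eq _ _).1 o).resolve_left (by rw [lt_eq]; omega)

theorem ky_s {r : ℕ} (z : nz c = 0) (e : ky c r = p + 1) : Ok (memC c) p := by
  change dgt c r + 4194304 * (r / 6) = _ at e
  rcases Nat.lt_or_ge r 6 with a | a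
  · rw [Nat.div_eq_of_lt a, mul_zero, add_zero] at e
    refine Ok.of (e ▸ dgt_s a ?_)
    have k : ∀ {j k}, nz1 c j k = 0 → dgt c k ≠ 0 → dgt c j ≠ 0 := fun {j k} x y w => by
      rw [nz1, w] at x; exact y (by simpa using x)
    obtain ⟨⟨z0, z1⟩, z2, z3, z4⟩ : (nz1 c 0 1 = 0 ∧ nz1 c 1 2 = 0) ∧ nz1 c 2 3 = 0 ∧ nz1 c 3 4 = 0 ∧ nz1 c 4 5 = 0 :=
      ⟨add0 (add0 z).1, (add0 (add0 z).2).1, add0 (add0 (add0 z).2).2⟩
    have k0 := k z0
    have k1 := k z1
    have k2 := k z2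
    have k3 := k z3
    have k4 := k z4
    intro j hj
    interval_cases r <;> interval_cases j <;> omega
  · exact (orr_eq _ _).2 (.inl ((lt_eq _ _).2 (by omega)))

theorem Rp.orBad {T e : ℕ} {x : ℝ} (a : e = 0 → Rp K i T x) : Rp K i (Nat.add T (Nat.mul e BAD)) x := by
  rcases Nat.eq_zero_or_pos e with rfl | e0
  · simpa using a rfl
  · refine ⟨T, 0, 0, 0, 0, 0, e * 85070591730234615865843651857942052864, ?_, fun h => absurd h (by omega)⟩
    rw [Nat.add_eq, Nat.mul_eq, show BAD = 340282366920938463463374607431768211456 * (340282366920938463463374607431768211456 * (340282366920938463463374607431768211456 * (340282366920938463463374607431768211456 * (340282366920938463463374607431768211456 * (340282366920938463463374607431768211456 * 85070591730234615865843651857942052864))))) by decide +kernel]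
    ring

theorem dp0 (f : ℕ) : dp f 0 = nil := by cases f <;> rfl

theorem ts_s (H : Hom K.v) {b : Bool} {k : ℕ → ℕ} {f : ℕ} (hk : ∀ n, Rp K i (k n) (sg b (ev K.v (nrm (dp f n))))) (n : ℕ) :
    Rp K i (ts i (bn b) k n) (sg b (ev K.v (nrm (dp (f + 1) n)))) := by
  cases n with
  | zero => exact Rp.zero.cast (by rw [dp0]; cases b <;> simp [sg, nrm, ev_nil])
  | succ n =>
    have e : dp (f + 1) (n + 1) = cons (bit (n + 1)) (fld (n + 1) 6 34) (fld (n + 1) 40 (9 * fld (n + 1) 1 5))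
        (dp f ((n + 1) >>> (40 + 9 * fld (n + 1) 1 5))) := by
      change frb (bit (n + 1)) (fun g => cons g (fld (n + 1) 6 34) (fld (n + 1) 40 (9 * fld (n + 1) 1 5))
        (dp f ((n + 1) >>> (40 + 9 * fld (n + 1) 1 5)))) = _
      rw [frb_eq]
    rw [e]
    change Rp K i (Nat.add (Nat.mul (fld (n + 1) 6 34) (tvK i (2 * fld (n + 1) 40 (9 * fld (n + 1) 1 5) +
      (n + 1 + bn b) % 2))) (k ((n + 1) >>> (40 + 9 * fld (n + 1) 1 5)))) (sg b (ev K.v (add (mulT (bit (n + 1))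
        (fld (n + 1) 6 34) 1 (trm 16 (fld (n + 1) 40 (9 * fld (n + 1) 1 5))))
        (nrm (dp f ((n + 1) >>> (40 + 9 * fld (n + 1) 1 5)))))))
    generalize fld (n + 1) 40 (9 * fld (n + 1) 1 5) = m
    have e1 : Nat.div (2 * m + (n + 1 + bn b) % 2) 2 = m := by change _ / 2 = _; omega
    have e2 : bit (2 * m + (n + 1 + bn b) % 2) = xr b (bit (n + 1)) := by
      cases b <;> rw [Bool.eq_iff_iff, bit_eq]
      · exact Iff.trans (by simp only [bn, iff_f]; omega) (bit_eq _).symm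
      · rw [← nt, nt_eq, Bool.not_eq_true', ← Bool.not_eq_true, bit_eq]; simp only [bn, iff_t]; omega
    refine (((pk_s H _).smul _).add (hk _)).cast ?_
    rw [e1, e2, ev_sgP, ev_add, ev_mulT H, H.one]
    cases b <;> cases bit (n + 1) <;> simp [sg, xr] <;> ring

theorem lqN_s (H : Hom K.v) (b : Bool) (n : ℕ) : Rp K i (lqN i (bn b) n) (sg b (ev K.v (nrm (dp 100 n)))) := by
  refine ts_s H (f := 99) (ts_s H (ts_s H (ts_s H (ts_s H (ts_s H fun n => ?_))))) n
  have := Rp.orBad (K := K) (i := i) (T := 0) (e := n) (x := sg b (ev K.v (nrm (dp 94 n)))) (by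
    rintro rfl; exact Rp.zero.cast (by rw [dp0]; cases b <;> simp [sg, nrm, ev_nil]))
  rwa [Nat.add_eq, zero_add] at this

theorem ty_poly (e : ty ta p 4 = 0) : tbl ta (Nat.div (p + 1) 2) = .poly (dp 100 (Nat.div (cN ta p) 8)) := by
  change dec (cN ta p) = _
  simp only [dec, frc_eq]
  rw [xor0 e]
  rfl

theorem lit_s (N : NC K tb mem) {l : ℕ} (m : mem l = true) {x : ℝ} (e : (tb (Nat.div l 2)).sem K ↔ 0 < x) :
    rel (bit l) (sg (bit l) x) 0 := by
  cases hb : bit l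
  · exact not_lt.1 fun c => N.even m hb (e.2 c)
  · exact neg_neg_of_pos (e.1 (N.odd m hb))

theorem rel_le {b : Bool} {x : ℝ} (h : rel b x 0) : x ≤ 0 := by cases b; exacts [h, le_of_lt h]

/-- the number stands for a quantity that is not positive -/
def Np (K : Cfg) (i T : ℕ) : Prop := ∃ x, x ≤ 0 ∧ Rp K i T x

def Ps (K : Cfg) (i T : ℕ) : Prop := ∃ x, 0 < x ∧ Rp K i T x

theorem Np.iff {b : Bool} {x y : ℕ} (a : b = true → Np K i x) (c : b = false → Np K i y) : Np K i (iff b x y) := by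
  cases b
  exacts [c rfl, a rfl]

theorem Ps.iff {b : Bool} {x y : ℕ} (a : b = true → Ps K i x) (c : b = false → Ps K i y) : Ps K i (iff b x y) := by
  cases b
  exacts [c rfl, a rfl]

theorem Np.zero : Np K i 0 := ⟨0, le_rfl, Rp.zero⟩

theorem oV_s (H : Hom K.v) (g : Bool) (n : ℕ) : Rp K i (oV i g n) (sg g (ev K.v (sgO n))) := (pk_s H _).cast (ev_sgP _ _)

theorem cV_s (H : Hom K.v) (g : Bool) (n : ℕ) : Rp K i (cV i g n) (sg g (K.sy (n / 32) 1)) :=
  (pk_s H _).cast (ev_sgP _ _)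

theorem rU (V : Valid K) {n T : ℕ} (x : ok9 n = true) (a : K.lp n * 281474976710656 ≤ T) :
    Np K i (Nat.add (Nat.mul 281474976710656 (oV i false n)) (Nat.mul T (cV i true n))) := by
  obtain ⟨c, b, -⟩ := ok9_s V x
  refine ⟨_, ?_, ((oV_s V.hom _ _).smul _).add ((cV_s V.hom _ _).smul _)⟩
  have z := mul_le_mul_of_nonneg_right a c.le
  simp only [sg, cond_true, cond_false]; push_cast; linarith

theorem rL (V : Valid K) {n T : ℕ} (x : ok9 n = true) (p0 : 0 < K.lp n) (a : T ≤ K.lp n * 281474976710656) :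
    Np K i (Nat.add (Nat.mul 281474976710656 (oV i true n)) (Nat.mul T (cV i false n))) := by
  obtain ⟨c, -, b⟩ := ok9_s V x
  refine ⟨_, ?_, ((oV_s V.hom _ _).smul _).add ((cV_s V.hom _ _).smul _)⟩
  have z := mul_le_mul_of_nonneg_right a c.le
  simp only [sg, cond_true, cond_false, b p0]; push_cast; linarith

theorem rS (V : Valid K) {n : ℕ} (x : an (ok9 n) (okL n) = true) :
    Np K i (Nat.add (oV i false n) (Nat.mul 2 (cV i true n))) := by
  obtain ⟨x, y⟩ := (an_eq _ _).1 x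
  obtain ⟨c, b, -⟩ := ok9_s V x
  refine ⟨_, ?_, (oV_s V.hom _ _).add ((cV_s V.hom _ _).smul _)⟩
  have z := mul_le_mul_of_nonneg_right (V.lp_le y) c.le
  simp only [sg, cond_true, cond_false]; push_cast; linarith

theorem Np.frc {n : ℕ} {k : ℕ → ℕ} (a : ∀ m, m = n → Np K i (k m)) : Np K i (frc n k) := a n rfl

theorem onM_s {P : ℕ → Prop} {A : Atom} {x : ℕ} {k : List ℕ → Bool → ℕ → ℕ} (a : P x) (b : ∀ q g e, P (k q g e)) :
    P (onM A x k) := by
  cases A
  exacts [a, a, a, b _ _ _, a]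

theorem rr_s (V : Valid K) (N : NC K tb mem) (hi : i < 26) (o : Ok mem p) : Np K i (rr tb i p) := by
  refine Np.frc fun d hd => Np.iff (fun l => onM_s (Np.iff (fun _ => Np.zero) fun _ => ?_) fun q g e =>
    Np.frc fun n _ => Np.iff (fun x => Np.iff (fun _ => Np.frc fun T _ => Np.iff (fun y => ?_) fun _ => Np.zero)
      fun _ => Np.frc fun T _ => Np.iff (fun y => ?_) fun _ => Np.zero) fun _ => Np.zero)
    fun _ => Np.frc fun n _ => Np.iff (fun _ => Np.iff (rS V) fun _ => Np.zero) fun _ =>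
      ⟨_, by rw [ev_neg]; linarith [oP_pos V hi], pk_s V.hom _⟩
  · obtain ⟨x, a, b⟩ := la_s (i := i) V (bit d) (tb (Nat.div d 2))
    exact ⟨_, rel_le (lit_s N (hd ▸ o.mm (hd.symm.trans_lt ((lt_eq _ _).1 l))) b), a⟩
  · obtain ⟨T', -, a, z⟩ := ubV_s V (m1_s N (hd ▸ o)) y
    exact rU V ((an_eq _ _).1 x).2 (a.trans (ble_s z))
  · obtain ⟨T', p0, a, z⟩ := lbP_s (m1_s N (hd ▸ o)) y
    exact rL V ((an_eq _ _).1 x).2 p0 ((ble_s z).trans a)

theorem bn_bit (n : ℕ) : bn (bit n) = n % 2 := by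
  cases h : bit n
  · rw [← Bool.not_eq_true, bit_eq] at h; change 0 = _; omega
  · exact ((bit_eq _).1 h).symm

theorem lt_of_div (e : Nat.div p 4194303 = 0) : p + 1 < 4194304 := by
  change p / 4194303 = 0 at e; omega

theorem rN_s (V : Valid K) (N : NC K (tbl ta) mem) (hi : i < 26) (o : Ok mem p) : Np K i (rN ta i p) := by
  refine rec_s (fun e => ?_) (rr_s V N hi o)
  have := lqN_s (i := i) V.hom (bit (p + 1)) (Nat.div (cN ta p) 8)
  rw [bn_bit] at this
  exact ⟨_, rel_le (lit_s N (o.mm (lt_of_div (add0 e).2)) (by rw [ty_poly (add0 e).1]; rfl)), this⟩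

theorem sc_s {e q : ℕ} {x : ℝ} (r : Rp K i q x) :
    ∃ c : ℕ, ∀ y, (e = 0 → 0 < c → y = c * x) → Rp K i (sc e q) y :=
  ⟨Nat.div 64 (ab q), fun _ a => Rp.orBad fun z => (r.smul _).cast
    (a (add0 z).1 (Nat.pos_of_ne_zero fun w => by have := (add0 z).2; rw [w] at this; exact one_ne_zero this)).symm⟩

theorem pN_s (V : Valid K) (N : NC K (tbl ta) mem) (hi : i < 26) (o : Ok mem p) : Ps K i (pN ta i p) := by
  refine rec_s (fun e => ?_) ?_
  · obtain ⟨c, a⟩ := sc_s (e := Nat.mod p 2) (lqN_s (i := i) V.hom false (Nat.div (cN ta p) 8))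
    by_cases w : Nat.mod p 2 = 0 ∧ 0 < c
    · have t := N.odd (o.mm (lt_of_div (add0 e).2)) (by rw [bit_eq]; have : p % 2 = 0 := w.1; omega)
      rw [ty_poly (add0 e).1] at t
      exact ⟨_, mul_pos (Nat.cast_pos.2 w.2) t, a _ fun _ _ => rfl⟩
    · exact ⟨1, one_pos, a _ fun x y => absurd ⟨x, y⟩ w⟩
  · rw [lP, frc_eq]
    refine Ps.iff (fun l => Ps.iff (fun b => ?_) fun _ => ⟨1, one_pos, Rp.bad _⟩) fun _ =>
      ⟨_, mul_pos (by norm_num) (oP_pos V hi), (pk_s V.hom _).smul _⟩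
    rw [frc_eq, frc_eq]
    refine Ps.iff (fun c => ?_) fun _ => ⟨1, one_pos, Rp.bad _⟩
    obtain ⟨x, a, e⟩ := la_s (i := i) V false (tbl ta (Nat.div p.succ 2))
    exact ⟨_, mul_pos (Nat.cast_pos.2 ((lt_eq _ _).1 c)) (e.1 (N.odd (o.mm ((lt_eq _ _).1 l)) b)), a.smul _⟩

theorem nN_s (V : Valid K) (N : NC K (tbl ta) mem) (o : Ok mem p) : Np K i (nN ta i p) := by
  refine rec_s (fun e => ?_) ?_
  · obtain ⟨c, a⟩ := sc_s (e := Nat.mod p.succ 2) (lqN_s (i := i) V.hom false (Nat.div (cN ta p) 8))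
    by_cases w : Nat.mod p.succ 2 = 0
    · have t := N.even (o.mm (lt_of_div (add0 e).2)) (by
        rw [← Bool.not_eq_true, bit_eq]; have : (p + 1) % 2 = 0 := w; omega)
      rw [ty_poly (add0 e).1] at t
      exact ⟨_, mul_nonpos_of_nonneg_of_nonpos (Nat.cast_nonneg c) (not_lt.1 t), a _ fun _ _ => rfl⟩
    · exact ⟨0, le_rfl, a _ fun x _ => absurd x w⟩
  · rw [lN, frc_eq]
    refine Np.iff (fun l => ?_) fun _ => ⟨0, le_rfl, Rp.bad _⟩
    obtain ⟨l, b⟩ := (an_eq _ _).1 l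
    rw [frc_eq]
    obtain ⟨x, a, e⟩ := la_s (i := i) V false (tbl ta (Nat.div p.succ 2))
    exact ⟨_, mul_nonpos_of_nonneg_of_nonpos (Nat.cast_nonneg _)
      (not_lt.1 fun c => N.even (o.mm ((lt_eq _ _).1 l)) (nt_t b) (e.2 c)), a.smul _⟩

theorem tlN_s (V : Valid K) (N : NC K (tbl ta) mem) (hi : i < 26) (o : Ok mem p) :
    (tlN ta i p : ℝ) * K.sy i 1 ≤ K.sy i 0 * 281474976710656 := by
  have s : ((0 : ℕ) : ℝ) * K.sy i 1 ≤ K.sy i 0 * 281474976710656 := by push_cast; linarith [(V.tri i hi).1]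
  have t := tl_s (l := p + 1) V N hi
  rw [o, iff_t] at t
  refine rec_s (P := fun x => (x : ℝ) * K.sy i 1 ≤ _) (fun _ => ?_) s
  rw [tl1, frc_eq]
  cases tbl ta (Nat.div p.succ 2)
  exacts [s, s, s, t, s]

theorem tuN_s (V : Valid K) (N : NC K (tbl ta) mem) (hi : i < 26) (o : Ok mem p) :
    K.sy i 0 * 281474976710656 ≤ (tuN ta i p : ℝ) * K.sy i 1 := by
  have s : K.sy i 0 * 281474976710656 ≤ ((281474976710656 : ℕ) : ℝ) * K.sy i 1 := by
    push_cast; linarith [(V.tri i hi).2.1]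
  have t := tu_s (l := p + 1) V N hi
  rw [o, iff_t] at t
  refine rec_s (P := fun x => _ ≤ (x : ℝ) * K.sy i 1) (fun _ => s) ?_
  rw [tu1, frc_eq]
  cases tbl ta (Nat.div p.succ 2)
  exacts [s, s, t, t, s]

/-- the state of the run through the literals -/
def St (K : Cfg) (i G S T : ℕ) : Prop :=
  Np K i G ∧ (S : ℝ) * K.sy i 1 ≤ K.sy i 0 * 281474976710656 ∧ K.sy i 0 * 281474976710656 ≤ (T : ℝ) * K.sy i 1

theorem Np.cmb {x y a b : ℕ} (p : Np K i a) (q : Np K i b) : Np K i (Nat.add (Nat.mul x a) (Nat.mul y b)) := by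
  obtain ⟨u, u0, p⟩ := p
  obtain ⟨v, v0, q⟩ := q
  exact ⟨_, add_nonpos (mul_nonpos_of_nonneg_of_nonpos (Nat.cast_nonneg _) u0)
    (mul_nonpos_of_nonneg_of_nonpos (Nat.cast_nonneg _) v0), (p.smul _).add (q.smul _)⟩

/-- a continuation that succeeds on no state -/
def No (K : Cfg) (i : ℕ) (z : ℕ → ℕ → ℕ → ℕ → ℕ) : Prop := ∀ G L S T, St K i G S T → z G L S T ≠ 0

theorem f1_s (V : Valid K) (N : NC K (tbl ta) mem) (hi : i < 26) {z k : ℕ → ℕ → ℕ → ℕ → ℕ} {d : ℕ} (hz : No K i z)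
    (hk : d ≠ 0 → mem d = true ∧ No K i k) : No K i (f1 ta i z k d) := by
  intro G L S T s
  cases d with
  | zero => exact hz G L S T s
  | succ p =>
    obtain ⟨m, hk⟩ := hk p.succ_ne_zero
    have o := Ok.of m
    refine hk _ _ _ _ ⟨s.1.cmb (rN_s V N hi o), ?_, ?_⟩
    · rcases le_total (tlN ta i p) S with a | a
      · rw [Nat.sub_eq, Nat.sub_eq_zero_of_le a]; exact s.2.1
      · rw [Nat.sub_eq, Nat.add_eq, Nat.add_sub_of_le a]; exact tlN_s V N hi o
    · rcases le_total T (tuN ta i p) with a | a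
      · rw [Nat.sub_eq, Nat.sub_eq, Nat.sub_eq_zero_of_le a]; exact s.2.2
      · rw [Nat.sub_eq, Nat.sub_eq, Nat.sub_sub_self a]; exact tuN_s V N hi o

theorem lt_of0 {a b : ℕ} (e : Nat.sub (Nat.succ a) b = 0) : lt a b = true := (lt_eq _ _).2 (Nat.sub_eq_zero_iff_le.1 e)

theorem arcN_s {A B C O S T m : ℕ} (hm : m < 16777216) (e : arcN A B C O S T m = 0) : arcF A B C O S T m = true := by
  unfold arcN at e
  unfold arcF
  cases x : Nat.ble (Nat.mul 2 O) A
  · obtain ⟨b, hb⟩ : ∃ b, Nat.sub (Nat.mul 2 O) A = b + 1 :=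
      Nat.exists_eq_succ_of_ne_zero fun z => by rw [Nat.ble_eq_true_of_le (Nat.sub_eq_zero_iff_le.1 z)] at x; cases x
    rw [iff_f, frc_eq, an_eq, cone, cone, frc_eq, frc_eq]
    rw [hb] at e ⊢
    exact ⟨lt_of0 (add0 e).1, lt_of0 (add0 e).2⟩
  · rw [show Nat.sub (Nat.mul 2 O) A = 0 from Nat.sub_eq_zero_of_le (Nat.le_of_ble_eq_true x)] at e
    rw [iff_t, frc_eq, frc_eq, frc_eq, frc_eq, frc_eq, frc_eq, frc_eq, an_eq, an_eq]
    refine ⟨Nat.ble_eq_true_of_le ?_, lt_of0 (add0 e).1, lt_of0 (add0 e).2⟩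
    exact le_trans (Nat.mul_le_mul hm.le hm.le) (by norm_num)

theorem finN_s (V : Valid K) (hi : i < 26) {m G S T : ℕ} (hm : m < 16777216) (s : St K i G S T) : finN m G S T ≠ 0 := by
  intro e
  obtain ⟨⟨x, x0, r⟩, a, b⟩ := s
  obtain ⟨e, e3⟩ := add0 e
  obtain ⟨e1, e2⟩ := add0 e
  have r := r.ext e1
  have z := arcF_s (by linarith [(V.cpos hi).1]) (V.tri i hi).2.2 a b (arcN_s hm e3)
  have e2 : Nat.shiftRight G 384 = Nat.shiftRight G 768 * 0x1000000000000000000000000000000010000000000000000000000000000000100000000000000000000000000000001 := xor0 e2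
  have e4 : Nat.shiftRight G 512 = _ := shr G 384
  have e5 : Nat.shiftRight G 640 = _ := shr G 512
  have h : Nat.shiftRight G 768 / 85070591730234615865843651857942052864 = 0 := by
    rw [← e1]
    change _ = G >>> (768 + 126)
    rw [Nat.shiftRight_add, Nat.shiftRight_eq_div_pow]; rfl
  have m : ∀ j, f128 G j = Nat.shiftRight G j % 340282366920938463463374607431768211456 := fun _ => rfl
  have k : ∀ a r : ℕ, a < 340282366920938463463374607431768211456 → (a + 340282366920938463463374607431768211456 * r) % 340282366920938463463374607431768211456 = a ∧ (a + 340282366920938463463374607431768211456 * r) / 340282366920938463463374607431768211456 = r := fun a r h => by omega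
  rw [m 384, m 512, m 640] at r
  generalize Nat.shiftRight G 768 = O at *
  have e2 : Nat.shiftRight G 384 = O + 340282366920938463463374607431768211456 * (O + 340282366920938463463374607431768211456 * (O + 340282366920938463463374607431768211456 * O)) := by omega
  have o : O < 340282366920938463463374607431768211456 := by omega
  rw [e2, (k _ _ o).2] at e4
  rw [e4, (k _ _ o).2] at e5
  rw [e2, e4, e5, (k _ _ o).1, (k _ _ o).1, (k _ _ o).1] at r
  have w := ev_cP V.hom i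
  rw [sy2, wP, ev_var] at w
  rw [sy0, sP, ev_var, Nat.add_eq] at z
  rw [w] at r
  push_cast at z
  linarith

theorem arc_s (V : Valid K) (N : NC K (tbl ta) (memC c)) (e : arc ta c h = 0) : False := by
  obtain ⟨i, -, e⟩ := cs_s e
  obtain ⟨x, e⟩ := add0 e
  have hi : i < 26 := by change i / 26 = 0 at x; omega
  have z : No K i (arc2 ta i (Nat.shiftRight h 29) (finN (Nat.mod (Nat.div h 32) 16777216))) := by
    intro G L S T s
    have hm : Nat.mod (Nat.div h 32) 16777216 < 16777216 := Nat.mod_lt _ (by decide)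
    unfold arc2
    cases Nat.shiftRight h 29 with
    | zero => exact finN_s V hi hm s
    | succ n =>
      exact finN_s V hi hm ⟨s.1.cmb (rN_s V N hi ((orr_eq _ _).2 (.inl ((lt_eq _ _).2 (by
        rw [Nat.add_eq]; omega))))), s.2⟩
  refine f1_s V N hi z (fun a0 => ⟨dgt_s (by decide) fun j hj => ?_, f1_s V N hi z fun a1 =>
    ⟨dgt_s (by decide) fun j hj => ?_, f1_s V N hi z fun a2 => ⟨dgt_s (by decide) fun j hj => ?_,
      f1_s V N hi z fun a3 => ⟨dgt_s (by decide) fun j hj => ?_, z⟩⟩⟩⟩) _ _ _ _ ⟨Np.zero, ?_, ?_⟩ e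
  any_goals interval_cases j <;> assumption
  · push_cast; linarith [(V.tri i hi).1]
  · push_cast; linarith [(V.tri i hi).2.1]

theorem rf_s (N : NC K tb mem) (o : Ok mem p) {u : ℕ} (e : rf tb p = u + 1) :
    u % 32 < 26 ∧ u / 32 < 48 ∧ K.fl (u % 32) = u / 32 := by
  rw [rf, frc_eq, iff_eq] at e
  split_ifs at e with a
  · rw [an_eq, lt_eq] at a
    have t := N.odd (o.mm a.2) a.1
    revert e t
    cases tb (Nat.div p.succ 2)
    case flag i φ =>
      intro e t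
      change iff _ _ _ = _ at e
      rw [iff_eq] at e
      split_ifs at e with b
      · rw [an_eq, lt_eq, lt_eq] at b
        obtain rfl : i + 32 * φ = u := Nat.succ.inj e
        rw [show (i + 32 * φ) % 32 = i by omega, show (i + 32 * φ) / 32 = φ by omega]
        exact ⟨b.1, b.2, t⟩
    all_goals exact fun e => absurd e.symm u.succ_ne_zero

theorem rs_s (N : NC K tb mem) (o : Ok mem p) {w : ℕ} (e : rs tb p = w + 1) {a b : ℕ} (ha : a < 32)
    (x : w % 2048 = a + 32 * b) : ∀ P, (K.pc b).cl P → 0 ≤ K.sd a (K.fl a) (w / 2048) P := by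
  rw [rs, onS, frc_eq, iff_eq] at e
  split_ifs at e with y
  · rw [an_eq, lt_eq] at y
    have t := N.odd (o.mm y.2) (by have := y.1; revert this; cases bit p.succ <;> simp [nt, xr])
    revert e t
    cases tb (Nat.div p.succ 2)
    case sep a' b' k =>
      intro e ⟨_, _, t⟩
      change iff _ _ _ = _ at e
      simp only [iff_eq, an_eq, lt_eq, Nat.add_eq, Nat.mul_eq, Nat.sub_eq] at e
      split_ifs at e with z k4
      · rw [if_pos k4] at t
        rwa [show w / 2048 = k by omega, show a = a' by omega, show b = b' by omega]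
      · rw [if_neg k4, if_pos z.1] at t
        rwa [show w / 2048 = k - 4 by omega, show a = b' by omega, show b = a' by omega]
    all_goals exact fun e => absurd e.symm w.succ_ne_zero

theorem ri_s {b : ℕ} (e : Nat.sub 1 (ri ta b p) = 0) : p % 2 = b ∧ p + 1 < 4194304 ∧ ri ta b p % 32 < 26 ∧
    13 < ri ta b p / 32 ∧ tbl ta (Nat.div (p + 1) 2) = .sep (ri ta b p % 32) (ri ta b p % 32) (ri ta b p / 32) := by
  change _ ∧ _ ∧ _ ∧ _ ∧ dec (cN ta p) = _
  unfold ri ri1 at e ⊢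
  generalize cN ta p = n at e ⊢
  generalize hz : Nat.add (Nat.add (Nat.add (Nat.xor (Nat.mod p 2) b) _) _) _ = z at e ⊢
  cases z with
  | succ z => rw [show Nat.sub 1 (z + 1) = 0 from Nat.sub_eq_zero_of_le (by omega)] at e; cases e
  | zero =>
    obtain ⟨⟨⟨x1, x2⟩, x3⟩, x4, x5, x6⟩ : ((_ ∧ _) ∧ _) ∧ _ ∧ _ ∧ _ :=
      ⟨⟨add0 (add0 (add0 hz).1).1, (add0 (add0 hz).1).2⟩, (add0 (add0 hz).2).1, add0 (add0 (add0 hz).2).2⟩
    have x4 := xor0 x4
    have d : dec n = .sep (Nat.mod (Nat.shiftRight n 3) 256) (Nat.mod (Nat.shiftRight n 11) 256) (Nat.shiftRight n 19) := by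
      simp only [dec, frc_eq]
      rw [xor0 x3]
      rfl
    rw [d, ← x4]
    generalize Nat.mod (Nat.shiftRight n 3) 256 = a at *
    generalize Nat.shiftRight n 19 = k at *
    change a / 26 = 0 at x5
    change 14 - k = 0 at x6
    change _ ∧ _ ∧ (a + 32 * k) * 1 % 32 < 26 ∧ 13 < (a + 32 * k) * 1 / 32 ∧
      _ = Atom.sep ((a + 32 * k) * 1 % 32) ((a + 32 * k) * 1 % 32) ((a + 32 * k) * 1 / 32)
    rw [show (a + 32 * k) * 1 % 32 = a by omega, show (a + 32 * k) * 1 / 32 = k by omega]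
    exact ⟨xor0 x1, lt_of_div x2, by omega, by omega, rfl⟩

theorem ri_t (N : NC K (tbl ta) mem) (o : Ok mem p) (e : Nat.sub 1 (ri ta 0 p) = 0) : ri ta 0 p % 32 < 26 ∧
    K.fl (ri ta 0 p % 32) < 48 ∧ labC (K.fl (ri ta 0 p % 32)) = ri ta 0 p / 32 % 8 ∧
    (K.pc (ri ta 0 p % 32)).fc (gP (ri ta 0 p / 32)) := by
  obtain ⟨a, b, c, d, e⟩ := ri_s e
  have t := N.odd (o.mm b) (by rw [bit_eq]; omega)
  rw [e] at t
  obtain ⟨x, -, y⟩ := t
  rw [if_neg (by omega), if_neg (by omega), if_neg (by omega)] at y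
  exact ⟨c, x, y⟩

theorem fi_s (N : NC K (tbl ta) (memC c)) {b : ℕ} {k : ℕ → ℕ → ℕ → ℕ} (e : fi ta b c h k = 0) :
    ∃ u q, nz c = 0 ∧ (u % 32 < 26 ∧ u / 32 < 48 ∧ K.fl (u % 32) = u / 32) ∧ Ok (memC c) q ∧
      Nat.sub 1 (ri ta b q) = 0 ∧ k u (u % 32) (ri ta b q) = 0 := by
  obtain ⟨p, x, e⟩ := cs_s e
  obtain ⟨u, y, e⟩ := cs_s e
  obtain ⟨i, z, e⟩ := cs_s e
  obtain ⟨q, w, e⟩ := cs_s e
  obtain rfl : u % 32 = i := Nat.succ.inj z
  obtain ⟨e, e3⟩ := add0 e
  obtain ⟨e1, e2⟩ := add0 e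
  exact ⟨u, q, e1, rf_s N (ky_s e1 x) y, ky_s e1 w, e2, e3⟩

theorem side_s (H : Hom K.v) (z : nz c = 0) {F : ℕ → ℕ} {u t s r : ℕ} (hu : u / 32 < 48)
    (e : side F c (u + 2048 * t) (gq s (aN ((u + 2048 * t) / 32 % 64))) (gq s (bN ((u + 2048 * t) / 32 % 64))) r = 0) :
    ∃ p, Ok (memC c) p ∧ ∀ x, Rp K (u % 32) (F p) x → 64 * K.sd (u % 32) (u / 32) t (gP s) + x = 0 := by
  obtain ⟨p, a, e⟩ := cs_s e
  have := sdT_s H (u + 2048 * t) s
  rw [show (u + 2048 * t) % 32 = u % 32 by omega, show (u + 2048 * t) / 2048 = t by omega] at this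
  refine ⟨p, ky_s z a, fun x y => ?_⟩
  have := zv_s (this.add y) e
  rwa [show (u + 2048 * t) / 32 % 64 = u / 32 by omega] at this

theorem side_p (V : Valid K) (N : NC K (tbl ta) (memC c)) (z : nz c = 0) {u s r : ℕ} (t : ℕ) (hi : u % 32 < 26)
    (hu : u / 32 < 48) (e : side (pN ta (u % 32)) c (u + 2048 * t) (gq s (aN ((u + 2048 * t) / 32 % 64)))
      (gq s (bN ((u + 2048 * t) / 32 % 64))) r = 0) : K.sd (u % 32) (u / 32) t (gP s) < 0 := by
  obtain ⟨p, o, a⟩ := side_s V.hom z hu e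
  obtain ⟨x, x0, b⟩ := pN_s V N hi o
  linarith [a x b]

theorem fDef_s (V : Valid K) (N : NC K (tbl ta) (memC c)) (e : fDef ta c h = 0) : False := by
  obtain ⟨u, q, z, ⟨hi, hu, f⟩, o, x, e⟩ := fi_s N e
  obtain ⟨a, b, -, d, t⟩ := ri_s x
  have n := N.even (o.mm b) (by rw [← Bool.not_eq_true, bit_eq]; omega)
  rw [t] at n
  generalize ri ta 1 q = v at *
  obtain ⟨e1, e⟩ := add0 e
  obtain ⟨e1, e2⟩ := add0 e1
  obtain ⟨e2, e3⟩ := add0 e2
  rw [show v % 32 = u % 32 from xor0 e1] at n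
  have k : ∀ t, (u + 2048 * t) / 32 % 64 = u / 32 % 64 := fun t => by omega
  refine n ⟨f ▸ hu, f ▸ hu, ?_⟩
  rw [if_neg (by omega), if_neg (by omega), if_neg (by omega), Cfg.pc, f]
  refine ⟨xor0 e2, ?_, (all_sd hu (· < 0) _).2 fun s hs => ?_⟩
  · have e3 : gq (v / 32) (fN (u / 32)) = zc u := xor0 e3
    have g : (ax (fN (u / 32)) : ℕ) = fN (u / 32) := Nat.mod_eq_of_lt (fN_lt _)
    change hy (vF (u / 32)) 1 (((gq (v / 32) (ax (fN (u / 32))) : ℝ) - 256) / 64) = 0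
    rw [g, e3]
    change hy _ 1 ((((iff (vF (u / 32)) 320 256 : ℕ) : ℝ) - 256) / 64) = 0
    cases vF (u / 32) <;> norm_num [hy, iff_t, iff_f]
  · interval_cases s
    · exact side_p V N z 0 hi hu (by rw [k]; exact (add0 (add0 e).1).1)
    · exact side_p V N z 1 hi hu (by rw [k]; exact (add0 (add0 e).1).2)
    · exact side_p V N z 2 hi hu (by rw [k]; exact (add0 (add0 e).2).1)
    · exact side_p V N z 3 hi hu (by rw [k]; exact (add0 (add0 e).2).2)

theorem fRev_s (V : Valid K) (N : NC K (tbl ta) (memC c)) (e : fRev ta c h = 0) : False := by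
  obtain ⟨u, q, z, ⟨-, hu, f⟩, o, x, e⟩ := fi_s N e
  obtain ⟨-, -, -, a⟩ := ri_t N o x
  obtain ⟨e1, e⟩ := add0 e
  obtain ⟨u', y, e⟩ := cs_s e
  obtain rfl : u + 2048 * (h / 512) = u' := Nat.succ.inj y
  obtain ⟨p, o, b⟩ := side_s V.hom z hu e
  obtain ⟨x, x0, d⟩ := nN_s (i := u % 32) V N o
  rw [show ri ta 0 q % 32 = u % 32 from xor0 e1, Cfg.pc, f] at a
  have a : K.sd (u % 32) (u / 32) (h / 512) (gP (ri ta 0 q / 32)) < 0 := a.2 _ _
  have b : 64 * K.sd (u % 32) (u / 32) (h / 512) (gP (ri ta 0 q / 32)) + x = 0 := b x d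
  linarith

theorem fSep_s (V : Valid K) (N : NC K (tbl ta) (memC c)) (e : fSep ta c h = 0) : False := by
  obtain ⟨u, q, z, ⟨hi, hu, f⟩, o, x, e⟩ := fi_s N e
  obtain ⟨-, -, -, a⟩ := ri_t N o x
  obtain ⟨p, y, e⟩ := cs_s e
  obtain ⟨w, y', e⟩ := cs_s e
  obtain ⟨e1, e⟩ := add0 e
  obtain ⟨u', y'', e⟩ := cs_s e
  obtain rfl : u + 2048 * (w / 2048) = u' := Nat.succ.inj y''
  have b := rs_s N (ky_s z y) y' (Nat.mod_lt u (by decide)) (xor0 e1) _ a.cl
  rw [f] at b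
  exact absurd (side_p V N z _ hi hu e) (not_lt.2 b)

theorem dF_s {t q : ℕ} (e : dF t q = 0) : dpt (bit t) q = true := by
  change 193 + 128 * (t % 2) - q + (q - (255 + 128 * (t % 2))) = 0 at e
  cases b : bit t
  · rw [← Bool.not_eq_true, bit_eq] at b
    exact (an_eq _ _).2 ⟨(lt_eq _ _).2 (by omega), (lt_eq _ _).2 (by omega)⟩
  · rw [bit_eq] at b
    exact (an_eq _ _).2 ⟨(lt_eq _ _).2 (by omega), (lt_eq _ _).2 (by omega)⟩

theorem ne_of0 {a b : ℕ} (e : Nat.sub 1 (Nat.xor a b) = 0) : a ≠ b := by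
  rintro rfl
  rw [show Nat.xor a a = 0 from Nat.xor_self a] at e
  cases e

theorem fDis_s (V : Valid K) (N : NC K (tbl ta) (memC c)) (e : fDis ta c = 0) : False := by
  obtain ⟨p, x, e⟩ := cs_s e
  obtain ⟨q, y, e⟩ := cs_s e
  obtain ⟨e, e4⟩ := add0 e
  obtain ⟨e, e3⟩ := add0 e
  obtain ⟨e1, e2⟩ := add0 e
  obtain ⟨a1, a2, a3, a4⟩ := ri_t N (Ok.of (x ▸ dgt_s (by decide) fun j hj => by interval_cases j; omega)) e1
  obtain ⟨b1, b2, b3, b4⟩ := ri_t N (Ok.of (y ▸ dgt_s (by decide) fun j hj => by interval_cases j <;> omega)) e2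
  refine dis_s V a1 b1 a2 b2 a3 b3 a4 b4 (ne_of0 e3) ((Nat.mul_eq_zero.1 e4).imp xor0 fun e => ?_)
  exact ⟨⟨ne_of0 (add0 (add0 e).1).1, xor0 (add0 (add0 e).1).2⟩, dF_s (add0 (add0 e).2).1, dF_s (add0 (add0 e).2).2⟩

theorem chkFast_s (e : chkFast ta c h = 0) : Univ (tbl ta) (memC c) := by
  unfold chkFast at e
  generalize Nat.mod h 8 = t at e
  rcases t with _ | _ | _ | _ | _ | _ | t
  · exact univ_of fun K V N => arc_s V N e
  · exact univ_of fun K V N => fDef_s V N e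
  · exact univ_of fun K V N => fDis_s V N e
  · exact univ_of fun K V N => fRev_s V N e
  · exact univ_of fun K V N => fSep_s V N e
  · exact chkPt_s (rec_zero e)
  · exact chkL6_s (rec_zero e)

end Pool.Agent.P.MP_53fdf1_co.R.Fa
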