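import Mathlib

set_option autoImplicit false

namespace Pool.Agent.P.MP_53fdf1_co.R

abbrev P3 : Type := Fin 3 → ℝ

/-- coordinate pointing into the cube, homogeneous -/
def hx (v : Bool) (h x : ℝ) : ℝ := cond v (h - x) x

/-- coordinate pointing out of the cube, homogeneous -/
def hy (v : Bool) (h x : ℝ) : ℝ := cond v (x - h) (-x)

/-- a square in the frame of a flag -/
structure Bx where
  a : Fin 3
  b : Fin 3
  f : Fin 3
  va : Bool
  vb : Bool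
  vf : Bool
  n : Bool → ℝ
  m : Bool → ℝ
  p : Bool → ℝ

def mix (t : ℝ) (P Z : P3) : P3 := fun j => (1 - t) * P j + t * Z j

def Aff (g : P3 → ℝ) : Prop := ∀ t P Z, g (mix t P Z) = (1 - t) * g P + t * g Z

namespace Bx

def ok (B : Bx) : Prop := B.a ≠ B.b ∧ B.a ≠ B.f ∧ B.b ≠ B.f

def x (B : Bx) (P : P3) : ℝ := hx B.va 1 (P B.a)

def y (B : Bx) (P : P3) : ℝ := hy B.vb 1 (P B.b)

def z (B : Bx) (P : P3) : ℝ := hy B.vf 1 (P B.f)

def u (B : Bx) (k : Bool) (P : P3) : ℝ := B.n k * B.x P + B.m k * B.y P - B.p k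

/-- nonnegative beyond the side `(k, e)` -/
def sd (B : Bx) (k e : Bool) (P : P3) : ℝ := cond e (B.u k P - 1) (-B.u k P)

def cl (B : Bx) (P : P3) : Prop := B.z P = 0 ∧ ∀ k e, B.sd k e P ≤ 0

def fc (B : Bx) (P : P3) : Prop := B.z P = 0 ∧ ∀ k e, B.sd k e P < 0

def op (B : Bx) (P : P3) : Prop := (0 < B.z P ∧ B.z P < 1) ∧ ∀ k e, B.sd k e P < 0

def touch (B : Bx) : Prop := ∃ P, B.fc P ∧ (0 < B.x P ∧ B.x P < 1) ∧ -1 < B.y P ∧ B.y P < 0

/-- the closed part of `A` over the slab beyond the face of `B` -/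
def sh (A B : Bx) (P : P3) : Prop := A.cl P ∧ 0 ≤ B.z P ∧ B.z P ≤ 1

theorem aff_x (B : Bx) : Aff B.x := fun t P Z => by
  unfold x hx mix; cases B.va <;> simp only [cond_true, cond_false] <;> ring

theorem aff_y (B : Bx) : Aff B.y := fun t P Z => by
  unfold y hy mix; cases B.vb <;> simp only [cond_true, cond_false] <;> ring

theorem aff_z (B : Bx) : Aff B.z := fun t P Z => by
  unfold z hy mix; cases B.vf <;> simp only [cond_true, cond_false] <;> ring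

theorem aff_sd (B : Bx) (k e : Bool) : Aff (B.sd k e) := fun t P Z => by
  unfold sd u
  rw [B.aff_x, B.aff_y]
  cases e <;> simp only [cond_true, cond_false] <;> ring

theorem sd_congr (B : Bx) {P Q : P3} (ha : P B.a = Q B.a) (hb : P B.b = Q B.b) (k e : Bool) :
    B.sd k e P = B.sd k e Q := by
  unfold sd u x y; rw [ha, hb]

end Bx

theorem Aff.neg {g : P3 → ℝ} (h : Aff g) {t : ℝ} {P Z : P3} (t0 : 0 < t) (t1 : t ≤ 1) (hP : g P ≤ 0)
    (hZ : g Z < 0) : g (mix t P Z) < 0 := by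
  rw [h]
  nlinarith [mul_pos t0 (neg_pos.2 hZ), mul_nonneg (sub_nonneg.2 t1) (neg_nonneg.2 hP)]

theorem Aff.near {g : P3 → ℝ} (h : Aff g) {P : P3} (Z : P3) (hP : g P < 0) :
    ∃ t, 0 < t ∧ t ≤ 1 ∧ g (mix t P Z) < 0 := by
  have a0 := abs_nonneg (g Z)
  have a1 := le_abs_self (g Z)
  have d : 0 < -g P + |g Z| := by linarith
  refine ⟨-g P / (2 * (-g P + |g Z|)), div_pos (by linarith) (by linarith), ?_, ?_⟩
  · rw [div_le_one (by linarith)]; linarith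
  · rw [h]
    set t := -g P / (2 * (-g P + |g Z|)) with ht
    have t0 : 0 < t := div_pos (by linarith) (by linarith)
    have e : t * (-g P + |g Z|) = -g P / 2 := by rw [ht]; field_simp
    nlinarith [mul_le_mul_of_nonneg_left a1 t0.le]

theorem Bx.fc_mix (B : Bx) {t : ℝ} {P Z : P3} (t0 : 0 < t) (t1 : t ≤ 1) (hP : B.cl P) (hZ : B.fc Z) :
    B.fc (mix t P Z) :=
  ⟨by rw [B.aff_z, hP.1, hZ.1]; ring, fun k e => (B.aff_sd k e).neg t0 t1 (hP.2 k e) (hZ.2 k e)⟩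

theorem Bx.fc.cl {B : Bx} {P : P3} (h : B.fc P) : B.cl P := ⟨h.1, fun k e => (h.2 k e).le⟩

theorem third {a b f j : Fin 3} (h1 : a ≠ b) (h2 : a ≠ f) (h3 : b ≠ f) (hj : j ≠ f) : j = a ∨ j = b := by
  omega

theorem hy_inj {v : Bool} {x y : ℝ} (h : hy v 1 x = hy v 1 y) : x = y := by
  cases v <;> simp only [hy, cond_true, cond_false] at h <;> linarith

theorem hy_ex (v : Bool) (r : ℝ) : ∃ x, hy v 1 x = r := by
  cases v
  · exact ⟨-r, by simp [hy]⟩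
  · exact ⟨r + 1, by simp [hy]⟩

/-- two disjoint prisms on one face are separated by a side -/
theorem sat {A B : Bx} (oA : A.ok) (oB : B.ok) (ef : A.f = B.f) (ev : A.vf = B.vf) (tA : A.touch) (tB : B.touch)
    (d : ∀ P, A.op P → B.op P → False) :
    (∃ k e, ∀ P, B.cl P → 0 ≤ A.sd k e P) ∨ ∃ k e, ∀ P, A.cl P → 0 ≤ B.sd k e P := by
  by_contra hn
  push Not at hn
  obtain ⟨hA, hB⟩ := hn
  obtain ⟨ZA, zA, -⟩ := tA
  obtain ⟨ZB, zB, -⟩ := tB
  obtain ⟨r, hr⟩ := hy_ex A.vf (1 / 2)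
  let ι : ℝ × ℝ → P3 := fun w j => if j = A.a then w.1 else if j = A.b then w.2 else r
  have ia : ∀ P : P3, ∀ j, j ≠ A.f → ι (P A.a, P A.b) j = P j := fun P j hj => by
    rcases third oA.1 oA.2.1 oA.2.2 hj with rfl | rfl
    · simp [ι]
    · simp [ι, oA.1.symm]
  have iA : ∀ P k e, A.sd k e (ι (P A.a, P A.b)) = A.sd k e P := fun P =>
    A.sd_congr (ia P _ oA.2.1) (ia P _ oA.2.2)
  have iB : ∀ P k e, B.sd k e (ι (P A.a, P A.b)) = B.sd k e P := fun P =>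
    B.sd_congr (ia P _ (ef ▸ oB.2.1)) (ia P _ (ef ▸ oB.2.2))
  let F : Bool × Bool × Bool → Set (ℝ × ℝ) := fun i => {w | (cond i.1 A B).sd i.2.1 i.2.2 (ι w) < 0}
  have cv : ∀ i ∈ (Finset.univ : Finset (Bool × Bool × Bool)), Convex ℝ (F i) := by
    intro i _ w hw w' hw' s t s0 t0 st
    have e : ι (s • w + t • w') = mix t (ι w) (ι w') := by
      funext j
      have : s = 1 - t := by linarith
      simp only [ι, mix, this, Prod.fst_add, Prod.snd_add, Prod.smul_fst, Prod.smul_snd, smul_eq_mul]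
      split_ifs <;> ring
    change Bx.sd _ _ _ _ < 0
    rw [e]
    rcases t0.lt_or_eq with t0 | rfl
    · exact (Bx.aff_sd _ _ _).neg t0 (by linarith) (le_of_lt hw) hw'
    · rw [Bx.aff_sd]
      have hw : Bx.sd _ _ _ _ < 0 := hw
      linarith
  have pA : ∀ k e, ∃ w, w ∈ F (false, k, e) ∧ ∀ k' e', w ∈ F (true, k', e') := fun k e => by
    obtain ⟨P, c, s⟩ := hB k e
    obtain ⟨t, t0, t1, s'⟩ := (B.aff_sd k e).near ZA s
    exact ⟨(_, _), (iB _ k e).trans_lt s', fun k' e' => (iA _ k' e').trans_lt ((A.fc_mix t0 t1 c zA).2 k' e')⟩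
  have pB : ∀ k e, ∃ w, w ∈ F (true, k, e) ∧ ∀ k' e', w ∈ F (false, k', e') := fun k e => by
    obtain ⟨P, c, s⟩ := hA k e
    obtain ⟨t, t0, t1, s'⟩ := (A.aff_sd k e).near ZB s
    exact ⟨(_, _), (iA _ k e).trans_lt s', fun k' e' => (iB _ k' e').trans_lt ((B.fc_mix t0 t1 c zB).2 k' e')⟩
  have one : ∀ (I : Finset (Bool × Bool × Bool)) (c : Bool), (I.filter fun i => i.1 = c).card ≤ 1 →
      ∃ k e, ∀ i ∈ I, i.1 = c → i = (c, k, e) := fun I c h => by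
    obtain ⟨j, hj⟩ := Finset.card_le_one_iff_subset_singleton.1 h
    refine ⟨j.2.1, j.2.2, fun i hi e => ?_⟩
    have : i = j := Finset.mem_singleton.1 (hj (Finset.mem_filter.2 ⟨hi, e⟩))
    rw [← this, ← e]
  obtain ⟨w, hw⟩ := Convex.helly_theorem' (𝕜 := ℝ) cv fun I _ hI => by
    have fr : Module.finrank ℝ (ℝ × ℝ) = 2 := by simp
    have cc := Finset.card_filter_add_card_filter_not (s := I) fun i => i.1 = true
    simp only [Bool.not_eq_true] at cc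
    rcases le_or_gt (I.filter fun i => i.1 = true).card 1 with h | h
    · obtain ⟨k, e, hk⟩ := one I true h
      obtain ⟨w, w1, w2⟩ := pB k e
      refine ⟨w, Set.mem_iInter₂.2 fun i hi => ?_⟩
      obtain ⟨c, k', e'⟩ := i
      cases c
      · exact w2 k' e'
      · rw [hk _ hi rfl]; exact w1
    · obtain ⟨k, e, hk⟩ := one I false (by omega)
      obtain ⟨w, w1, w2⟩ := pA k e
      refine ⟨w, Set.mem_iInter₂.2 fun i hi => ?_⟩
      obtain ⟨c, k', e'⟩ := i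
      cases c
      · rw [hk _ hi rfl]; exact w1
      · exact w2 k' e'
  have hw := Set.mem_iInter₂.1 hw
  have zr : A.z (ι w) = 1 / 2 := by
    simp only [Bx.z, ι, oA.2.1.symm, oA.2.2.symm, if_false, hr]
  have zr' : B.z (ι w) = 1 / 2 := by
    rw [← zr]; simp only [Bx.z, ef, ev]
  exact d (ι w) ⟨by rw [zr]; norm_num, fun k e => hw (true, k, e) (Finset.mem_univ _)⟩
    ⟨by rw [zr']; norm_num, fun k e => hw (false, k, e) (Finset.mem_univ _)⟩

theorem touch_z {A B : Bx} (oA : A.ok) (nf : A.f ≠ B.f) (tA : A.touch) : ∃ P, A.fc P ∧ B.z P < 0 := by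
  obtain ⟨P, c, ⟨x0, x1⟩, y0, y1⟩ := tA
  refine ⟨P, c, ?_⟩
  unfold Bx.x hx at x0 x1
  unfold Bx.y hy at y0 y1
  unfold Bx.z hy
  rcases third oA.1 oA.2.1 oA.2.2 nf.symm with e | e <;> rw [e] <;> cases B.vf
  all_goals simp only [cond_true, cond_false]
  · revert x0 x1; cases A.va <;> simp only [cond_true, cond_false] <;> intros <;> linarith
  · revert x0 x1; cases A.va <;> simp only [cond_true, cond_false] <;> intros <;> linarith
  · revert y0 y1; cases A.vb <;> simp only [cond_true, cond_false] <;> intros <;> linarith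
  · revert y0 y1; cases A.vb <;> simp only [cond_true, cond_false] <;> intros <;> linarith

theorem sh_open {A B : Bx} (oA : A.ok) (nf : A.f ≠ B.f) (tA : A.touch) {T : P3} (cT : A.cl T) (zT : 0 < B.z T) :
    ∃ Z, A.fc Z ∧ 0 < B.z Z ∧ B.z Z < 1 := by
  obtain ⟨P, c, z⟩ := touch_z oA nf tA
  have d : 0 < B.z T - B.z P := by linarith
  have m0 : 0 < min (B.z T) 1 := lt_min zT one_pos
  have m1 := min_le_left (B.z T) 1
  have m2 := min_le_right (B.z T) 1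
  set t := (B.z T - min (B.z T) 1 / 2) / (B.z T - B.z P) with ht
  have e : t * (B.z T - B.z P) = B.z T - min (B.z T) 1 / 2 := by rw [ht]; field_simp
  have v : B.z (mix t T P) = min (B.z T) 1 / 2 := by rw [B.aff_z]; linarith
  refine ⟨mix t T P, A.fc_mix (div_pos (by linarith) d) ?_ cT c, by rw [v]; linarith, by rw [v]; linarith⟩
  rw [ht, div_le_one d]; linarith

theorem sh_near {A B : Bx} {P Z : P3} (hP : A.sh B P) (hZ : A.fc Z ∧ 0 < B.z Z ∧ B.z Z < 1) {g : P3 → ℝ}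
    (hg : Aff g) (h : g P < 0) : ∃ Q, (A.fc Q ∧ 0 < B.z Q ∧ B.z Q < 1) ∧ g Q < 0 := by
  obtain ⟨t, t0, t1, s⟩ := hg.near Z h
  refine ⟨mix t P Z, ⟨A.fc_mix t0 t1 hP.1 hZ.1, ?_, ?_⟩, s⟩ <;> rw [B.aff_z]
  · nlinarith [mul_pos t0 hZ.2.1, mul_nonneg (sub_nonneg.2 t1) hP.2.1]
  · nlinarith [mul_pos t0 (sub_pos.2 hZ.2.2), mul_nonneg (sub_nonneg.2 t1) (sub_nonneg.2 hP.2.2)]

/-- two disjoint prisms on adjacent faces have ordered shadows -/
theorem shadow {A B : Bx} (oA : A.ok) (oB : B.ok) (nf : A.f ≠ B.f) {t : Fin 3} (ta : t ≠ A.f) (tb : t ≠ B.f)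
    (tA : A.touch) (tB : B.touch) (d : ∀ P, A.op P → B.op P → False) {T T' : P3} (cT : A.cl T) (zT : 0 < B.z T)
    (cT' : B.cl T') (zT' : 0 < A.z T') :
    (∀ P Q, A.sh B P → B.sh A Q → P t ≤ Q t) ∨ ∀ P Q, A.sh B P → B.sh A Q → Q t ≤ P t := by
  obtain ⟨ZA, zA⟩ := sh_open oA nf tA cT zT
  obtain ⟨ZB, zB⟩ := sh_open oB nf.symm tB cT' zT'
  have ne : ∀ P Q : P3, (A.fc P ∧ 0 < B.z P ∧ B.z P < 1) → (B.fc Q ∧ 0 < A.z Q ∧ A.z Q < 1) → P t ≠ Q t := by
    intro P Q hP hQ e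
    have e1 : ∀ j, j ≠ A.f → Function.update P A.f (Q A.f) j = P j := fun j hj => Function.update_of_ne hj _ _
    have e2 : ∀ j, j ≠ B.f → Function.update P A.f (Q A.f) j = Q j := fun j hj => by
      by_cases h : j = A.f
      · rw [h, Function.update_self]
      · rw [e1 j h, show j = t by omega, e]
    refine d (Function.update P A.f (Q A.f)) ⟨?_, fun k e => ?_⟩ ⟨?_, fun k e => ?_⟩
    · simpa only [Bx.z, Function.update_self] using hQ.2
    · rw [A.sd_congr (e1 _ oA.2.1) (e1 _ oA.2.2)]; exact hP.1.2 k e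
    · simpa only [Bx.z, e1 _ nf.symm] using hP.2
    · rw [B.sd_congr (e2 _ oB.2.1) (e2 _ oB.2.2)]; exact hQ.1.2 k e
  have af : ∀ s μ : ℝ, Aff fun P => s * (P t - μ) := fun s μ r P Z => by unfold mix; ring
  have op : ∀ s : ℝ, ∀ P Q, A.sh B P → B.sh A Q → s * (P t - Q t) < 0 →
      ∃ P' Q' : P3, (A.fc P' ∧ 0 < B.z P' ∧ B.z P' < 1) ∧ (B.fc Q' ∧ 0 < A.z Q' ∧ A.z Q' < 1) ∧
        s * (P' t - Q' t) < 0 := fun s P Q hP hQ h => by
    obtain ⟨P', p1, p2⟩ := sh_near hP zA (af s ((P t + Q t) / 2)) (by linarith)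
    obtain ⟨Q', q1, q2⟩ := sh_near hQ zB (af (-s) ((P t + Q t) / 2)) (by linarith)
    exact ⟨P', Q', p1, q1, by linarith⟩
  by_contra hn
  push Not at hn
  obtain ⟨⟨P, Q, hP, hQ, h⟩, P2, Q2, hP2, hQ2, h2⟩ := hn
  obtain ⟨P, Q, hP, hQ, h⟩ := op (-1) P Q hP hQ (by linarith)
  obtain ⟨P2, Q2, hP2, hQ2, h2⟩ := op 1 P2 Q2 hP2 hQ2 (by linarith)
  have dd : 0 < (P t - Q t) - (P2 t - Q2 t) := by linarith
  set r := (P t - Q t) / ((P t - Q t) - (P2 t - Q2 t)) with hr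
  have e : r * ((P t - Q t) - (P2 t - Q2 t)) = P t - Q t := by rw [hr]; field_simp
  have r0 : 0 < r := div_pos (by linarith) dd
  have r1 : r ≤ 1 := by rw [hr, div_le_one dd]; linarith
  have mx : ∀ {A B : Bx} {P Z : P3}, (A.fc P ∧ 0 < B.z P ∧ B.z P < 1) → (A.fc Z ∧ 0 < B.z Z ∧ B.z Z < 1) →
      A.fc (mix r P Z) ∧ 0 < B.z (mix r P Z) ∧ B.z (mix r P Z) < 1 := fun {A B P Z} hP hZ => by
    refine ⟨A.fc_mix r0 r1 hP.1.cl hZ.1, ?_, ?_⟩ <;> rw [B.aff_z]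
    · nlinarith [mul_pos r0 hZ.2.1, mul_nonneg (sub_nonneg.2 r1) hP.2.1.le]
    · nlinarith [mul_pos r0 (sub_pos.2 hZ.2.2), mul_nonneg (sub_nonneg.2 r1) (sub_nonneg.2 hP.2.2.le)]
  exact ne _ _ (mx hP hP2) (mx hQ hQ2) (by unfold mix; linarith)

end Pool.Agent.P.MP_53fdf1_co.R
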