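import Pool.Agent.P.MP_53fdf1_co.RSym
import Pool.Agent.P.MP_53fdf1_co.QContact

set_option autoImplicit false

open MeasureTheory Set

namespace Pool.Agent.P.MP_53fdf1_co.R

open Po Q

noncomputable section

def uu (t : ℝ) : ℝ := 4096 * t - 2048

def Sp.at (D : Sp) (P : P3) : Prop := D (uu (P 0)) (uu (P 1)) (uu (P 2))

def Prism (a b f : Fin 3) (va vb vf : Bool) (S : Pl) (D : Sp) : Prop :=
  ∀ P : P3, S (fl va (uu (P a))) (fl vb (uu (P b))) → II (fl vf (uu (P f))) → Sp.at D P

def mkB (i φ : ℕ) (s c p q : ℝ) : Bx :=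
  ⟨ax (aN φ), ax (bN φ), ax (fN φ), vA φ, vO φ, vF φ, fun k => if i < 18 then cond k (-s) c else cond k s (-c),
    fun k => cond k c s, fun k => cond k q p⟩

def loc (i : ℕ) (B : Bx) : Prop :=
  (i < 6 → B.inO (1 / 2) (-1 / 2)) ∧ (6 ≤ i → i < 18 → B.locE) ∧ (18 ≤ i → B.locV)

def Good (i : ℕ) (D : P3 → Prop) : Prop :=
  ∃ φ s c p q, (φ < 48 ∧ okF i φ = true) ∧ (0 ≤ s ∧ s ≤ c ∧ s ^ 2 + c ^ 2 = 1) ∧ loc i (mkB i φ s c p q) ∧
    ∀ P, (mkB i φ s c p q).op P → D P

def code (a b f : Fin 3) (va vb vf : Bool) : ℕ :=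
  a + (if b = a + 1 then 0 else 3) + 6 * (bn va * 2 ^ (a : ℕ) + bn vb * 2 ^ (b : ℕ) + bn vf * 2 ^ (f : ℕ))

def Dst (a b f : Fin 3) : Prop := a ≠ b ∧ a ≠ f ∧ b ≠ f

instance (a b f : Fin 3) : Decidable (Dst a b f) := by unfold Dst; infer_instance

theorem code_s : ∀ a b f : Fin 3, Dst a b f → ∀ va vb vf : Bool, code a b f va vb vf < 48 ∧
    ax (aN (code a b f va vb vf)) = a ∧ ax (bN (code a b f va vb vf)) = b ∧ ax (fN (code a b f va vb vf)) = f ∧
    vA (code a b f va vb vf) = va ∧ vO (code a b f va vb vf) = vb ∧ vF (code a b f va vb vf) = vf := by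
  decide +kernel

variable {a b f : Fin 3} {va vb vf : Bool} {S : Pl} {D : Sp} {i : ℕ}

theorem Prism.fl (h : Prism a b f true true vf S D) (x y : Bool) :
    Prism a b f x y vf (fun u v => S (fl x u) (fl y v)) D := fun P s => h P (by simp only [fl_fl] at s; exact s)

theorem Prism.sw (h : Prism a b f va vb vf S D) : Prism b a f vb va vf (sw S) D := fun P s => h P s

theorem Prism.rf (h : Prism a b f va vb vf S D) : Prism a b f (!va) vb vf (rf S) D := fun P s =>
  h P (by cases va <;> simpa [Q.rf, Q.fl] using s)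

theorem Prism.op (d : Dst a b f) (h : Prism a b f va vb vf S D) {s c p q : ℝ}
    (e : ∀ x y, (mkB i (code a b f va vb vf) s c p q).inO x y → S (2048 - 4096 * x) (2048 + 4096 * y)) (P : P3)
    (o : (mkB i (code a b f va vb vf) s c p q).op P) : Sp.at D P := by
  obtain ⟨-, e1, e2, e3, e4, e5, e6⟩ := code_s a b f d va vb vf
  have s1 := e _ _ (Bx.inO_iff.2 o.2)
  have s2 := o.1
  simp only [Bx.x, Bx.y, Bx.z, mkB, e1, e2, e3, e4, e5, e6] at s1 s2
  refine h P ?_ ?_
  · convert s1 using 1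
    · cases va <;> simp only [Q.fl, uu, hx, cond_true, cond_false] <;> ring
    · cases vb <;> simp only [Q.fl, uu, hy, cond_true, cond_false] <;> ring
  · revert s2
    cases vf <;> simp only [Q.fl, uu, hy, II, cond_true, cond_false] <;> rintro ⟨_, _⟩ <;> constructor <;> linarith

theorem sqE (h : i < 18) (φ : ℕ) (X Y s c x y : ℝ) :
    (mkB i φ s c ((c * (2048 - X) - s * (2048 - Y) - 2048) / 4096)
      ((-2048 - c * (2048 - Y) - s * (2048 - X)) / 4096)).inO x y ↔
      Sq X Y c (-s) (2048 - 4096 * x) (2048 + 4096 * y) := by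
  simp only [Bx.inO, Bx.lu, mkB, h, if_true, Bool.forall_bool, cond_true, cond_false, sq_iff]
  constructor <;> rintro ⟨⟨_, _⟩, _, _⟩ <;> refine ⟨⟨?_, ?_⟩, ?_, ?_⟩ <;> linarith

theorem sqV (h : 18 ≤ i) (φ : ℕ) (X Y s c x y : ℝ) :
    (mkB i φ s c ((-2048 - c * (2048 - X) - s * (2048 - Y)) / 4096)
      ((-2048 - c * (2048 - Y) + s * (2048 - X)) / 4096)).inO x y ↔
      Sq X Y c s (2048 - 4096 * x) (2048 + 4096 * y) := by
  simp only [Bx.inO, Bx.lu, mkB, not_lt.2 h, if_false, Bool.forall_bool, cond_true, cond_false, sq_iff]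
  constructor <;> rintro ⟨⟨_, _⟩, _, _⟩ <;> refine ⟨⟨?_, ?_⟩, ?_, ?_⟩ <;> linarith

theorem tch_of {B : Bx} (e : ∀ x y, B.inO x y ↔ S (2048 - 4096 * x) (2048 + 4096 * y)) (m : Meets S) : B.tch := by
  obtain ⟨p, q, hp, hq, m⟩ := m
  rw [abs_lt] at hp hq
  refine ⟨(2048 - p) / 4096, (q - 2048) / 4096, ⟨by linarith, by linarith⟩, ⟨by linarith, by linarith⟩, (e _ _).2 ?_⟩
  convert m using 1 <;> ring

theorem goodC (d : Dst a b f) (h : Prism a b f true true vf S D) (u : Un S) (z : S 0 0) (hi : i < 6)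
    (o1 : okF i (code a b f true false vf) = true) (o2 : okF i (code b a f true false vf) = true) :
    Good i (Sp.at D) := by
  have k : ∀ {a b : Fin 3} {X Y s c : ℝ}, Dst a b f → Prism a b f true false vf (Sq X Y c (-s)) D →
      okF i (code a b f true false vf) = true → 0 ≤ s → s ≤ c → c ^ 2 + s ^ 2 = 1 → Sq X Y c (-s) 0 0 →
      Good i (Sp.at D) := fun {a b X Y s c} d h o s0 sc un z =>
    ⟨_, s, c, _, _, ⟨(code_s a b f d _ _ _).1, o⟩, ⟨s0, sc, by linarith⟩,
      ⟨fun _ => (sqE (by omega) _ X Y s c _ _).2 (by norm_num; exact z), fun _ => by omega, fun _ => by omega⟩,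
      h.op d fun x y => (sqE (by omega) _ X Y s c x y).1⟩
  obtain ⟨X, Y, c, s, un, rfl⟩ := u
  obtain ⟨c, s, un, x, y, e⟩ := norm_sq X Y un
  rw [e] at h z
  rcases le_total 0 s with s0 | s0
  · have h' := h.sw.rf.sw
    have z' : sw (rf (sw (Sq X Y c s))) 0 0 := by simpa [Q.sw, Q.rf] using z
    rw [sw_sq, rf_sq, sw_sq, neg_neg] at h' z'
    exact k d h' o1 s0 x un z'
  · have h' := h.rf.sw
    have z' : sw (rf (Sq X Y c s)) 0 0 := by simpa [Q.sw, Q.rf] using z
    rw [rf_sq, sw_sq] at h' z'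
    exact k ⟨d.1.symm, d.2.2, d.2.1⟩ h' o2 (by linarith) y (by linarith) z'

theorem goodE (d : Dst a b f) (h : Prism a b f va vb vf S D) (u : BE S) (hi : 6 ≤ i) (hi' : i < 18)
    (o1 : okF i (code a b f va vb vf) = true) (o2 : okF i (code a b f (!va) vb vf) = true) : Good i (Sp.at D) := by
  have k : ∀ {va : Bool} {X Y s c : ℝ}, Prism a b f va vb vf (Sq X Y c (-s)) D →
      okF i (code a b f va vb vf) = true → 0 ≤ s → s ≤ c → c ^ 2 + s ^ 2 = 1 → BE (Sq X Y c (-s)) →
      Good i (Sp.at D) := fun {va X Y s c} h o s0 sc un u => by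
    refine ⟨_, s, c, _, _, ⟨(code_s a b f d _ _ _).1, o⟩, ⟨s0, sc, by linarith⟩,
      ⟨fun _ => by omega, fun _ _ => ⟨tch_of (sqE hi' _ X Y s c) u.2.1, ?_, fun n => u.2.2.1 ?_⟩, fun _ => by omega⟩,
      h.op d fun x y => (sqE hi' _ X Y s c x y).1⟩
    · have := ev_cl (by linarith) u.2.2.2
      simp only [abs_le] at this
      simp only [Bx.inC, Bx.lu, mkB, hi', if_true, Bool.forall_bool, cond_true, cond_false]
      refine ⟨⟨?_, ?_⟩, ?_, ?_⟩ <;> linarith
    · have := (sqE hi' _ X Y s c _ _).1 n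
      norm_num at this
      exact this
  obtain ⟨X, Y, c, s, un, rfl⟩ := u.1
  obtain ⟨c, s, un, x, y, e⟩ := norm_sq X Y un
  rw [e] at h u
  rcases le_total 0 s with s0 | s0
  · have h' := h.rf
    have u' := u.rf
    rw [rf_sq] at h' u'
    exact k h' o2 s0 x un u'
  · rw [← neg_neg s] at h u
    exact k h o1 (by linarith) y (by linarith) u

theorem goodV (d : Dst a b f) (h : Prism a b f va vb vf S D) (u : BV S) (hi : 18 ≤ i)
    (o1 : okF i (code a b f va vb vf) = true) (o2 : okF i (code b a f vb va vf) = true) : Good i (Sp.at D) := by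
  have k : ∀ {a b : Fin 3} {va vb : Bool} {X Y s c : ℝ}, Dst a b f → Prism a b f va vb vf (Sq X Y c s) D →
      okF i (code a b f va vb vf) = true → 0 ≤ s → s ≤ c → c ^ 2 + s ^ 2 = 1 → 0 ≤ X → 0 ≤ Y → BV (Sq X Y c s) →
      Good i (Sp.at D) := fun {a b va vb X Y s c} d h o s0 sc un x0 y0 u => by
    refine ⟨_, s, c, _, _, ⟨(code_s a b f d _ _ _).1, o⟩, ⟨s0, sc, by linarith⟩,
      ⟨fun _ => by omega, fun _ _ => by omega, fun _ => ⟨tch_of (sqV hi _ X Y s c) u.2.1, fun n => u.2.2.1 ?_,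
        fun n => u.2.2.2.1 (ev_of un ?_), fun n => u.2.2.2.2 ?_, ?_, ?_⟩⟩, h.op d fun x y => (sqV hi _ X Y s c x y).1⟩
    · have := (sqV hi _ X Y s c _ _).1 n
      norm_num at this
      exact this
    · have := (sqV hi _ X Y s c _ _).1 n
      norm_num at this
      exact this
    · have := (sqV hi _ X Y s c _ _).1 n
      norm_num at this
      have t : sw (Sq X Y c s) 0 4096 := this
      rw [sw_sq] at t ⊢
      exact ev_of (by linarith) t
    · simp only [Bx.cx, mkB, not_lt.2 hi, if_false, cond_true, cond_false]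
      linear_combination (1 / 2048) * x0 + (2048 - X) / 2048 * un
    · simp only [Bx.cy, mkB, cond_true, cond_false]
      linear_combination (1 / 2048) * y0 + (2048 - Y) / 2048 * un
  obtain ⟨X, Y, c, s, un, rfl, x0, y0⟩ := u.1
  obtain ⟨c, s, un, x, y, e⟩ := norm_sq X Y un
  rw [e] at h u
  rcases le_total 0 s with s0 | s0
  · exact k d h o1 s0 x un x0 y0 u
  · have h' := h.sw
    have u' := u.sw
    rw [sw_sq] at h' u'
    exact k ⟨d.1.symm, d.2.2, d.2.1⟩ h' o2 (by linarith) y (by linarith) y0 x0 u'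

def ix : Lb → ℕ
  | .inl p => 2 * p.1 + bn p.2
  | .inr (.inl p) => 6 + 4 * p.1 + bn p.2.1 + 2 * bn p.2.2
  | .inr (.inr p) => 18 + bn p.1 + 2 * bn p.2.1 + 4 * bn p.2.2

theorem lab_good (h : IsPr D) : ∃ l, Lab D l ∧ Good (ix l) (Sp.at D) := by
  obtain ⟨S, z, u, m, c⟩ := h
  have p1 : (On S fun u v w => D u v (fl z w)) → Prism 0 1 2 true true z S D := fun c P s t => by
    have := c _ _ _ s t
    simp only [fl_fl] at this
    exact this
  have p2 : (On S fun u v w => D (fl z w) u v) → Prism 1 2 0 true true z S D := fun c P s t => by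
    have := c _ _ _ s t
    simp only [fl_fl] at this
    exact this
  have p3 : (On S fun u v w => D v (fl z w) u) → Prism 2 0 1 true true z S D := fun c P s t => by
    have := c _ _ _ s t
    simp only [fl_fl] at this
    exact this
  rcases classes u m with k | ⟨a, k⟩ | ⟨a, k⟩ | ⟨a, b, k⟩ <;> rcases c with c | c | c
  · exact ⟨.inl (2, z), c _ _ _ k i4, goodC (by decide) (p1 c) u k (by cases z <;> decide) (by cases z <;> decide)
      (by cases z <;> decide)⟩
  · exact ⟨.inl (0, z), c _ _ _ k i4, goodC (by decide) (p2 c) u k (by cases z <;> decide) (by cases z <;> decide)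
      (by cases z <;> decide)⟩
  · exact ⟨.inl (1, z), c _ _ _ k i4, goodC (by decide) (p3 c) u k (by cases z <;> decide) (by cases z <;> decide)
      (by cases z <;> decide)⟩
  · exact ⟨.inr (.inl (0, a, z)), ⟨_, k, trivial, Or.inl fun _ _ _ => c _ _ _⟩, goodE (by decide) ((p1 c).fl true a) k
      (by cases a <;> cases z <;> decide) (by cases a <;> cases z <;> decide) (by cases a <;> cases z <;> decide) (by cases a <;> cases z <;> decide)⟩
  · exact ⟨.inr (.inl (1, z, a)), ⟨_, k, trivial, Or.inr fun _ _ _ => c _ _ _⟩, goodE (by decide) ((p2 c).fl true a) k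
      (by cases a <;> cases z <;> decide) (by cases a <;> cases z <;> decide) (by cases a <;> cases z <;> decide) (by cases a <;> cases z <;> decide)⟩
  · exact ⟨.inr (.inl (2, a, z)), ⟨_, k, trivial, Or.inl fun _ _ _ => c _ _ _⟩, goodE (by decide) ((p3 c).fl true a) k
      (by cases a <;> cases z <;> decide) (by cases a <;> cases z <;> decide) (by cases a <;> cases z <;> decide) (by cases a <;> cases z <;> decide)⟩
  · exact ⟨.inr (.inl (1, a, z)), ⟨_, k, trivial, Or.inl fun _ _ _ => c _ _ _⟩,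
      goodE (by decide) ((p1 c).fl a true).sw k
      (by cases a <;> cases z <;> decide) (by cases a <;> cases z <;> decide) (by cases a <;> cases z <;> decide) (by cases a <;> cases z <;> decide)⟩
  · exact ⟨.inr (.inl (2, z, a)), ⟨_, k, trivial, Or.inr fun _ _ _ => c _ _ _⟩,
      goodE (by decide) ((p2 c).fl a true).sw k
      (by cases a <;> cases z <;> decide) (by cases a <;> cases z <;> decide) (by cases a <;> cases z <;> decide) (by cases a <;> cases z <;> decide)⟩
  · exact ⟨.inr (.inl (0, z, a)), ⟨_, k, trivial, Or.inr fun _ _ _ => c _ _ _⟩,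
      goodE (by decide) ((p3 c).fl a true).sw k
      (by cases a <;> cases z <;> decide) (by cases a <;> cases z <;> decide) (by cases a <;> cases z <;> decide) (by cases a <;> cases z <;> decide)⟩
  · exact ⟨.inr (.inr (a, b, z)), ⟨_, k, trivial, Or.inl fun _ _ _ => c _ _ _⟩, goodV (by decide) ((p1 c).fl a b) k
      (by cases a <;> cases b <;> cases z <;> decide) (by cases a <;> cases b <;> cases z <;> decide) (by cases a <;> cases b <;> cases z <;> decide)⟩
  · exact ⟨.inr (.inr (z, a, b)), ⟨_, k, trivial, Or.inr (Or.inl fun _ _ _ => c _ _ _)⟩,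
      goodV (by decide) ((p2 c).fl a b) k (by cases a <;> cases b <;> cases z <;> decide) (by cases a <;> cases b <;> cases z <;> decide) (by cases a <;> cases b <;> cases z <;> decide)⟩
  · exact ⟨.inr (.inr (b, z, a)), ⟨_, k, trivial, Or.inr (Or.inr fun _ _ _ => c _ _ _)⟩,
      goodV (by decide) ((p3 c).fl a b) k (by cases a <;> cases b <;> cases z <;> decide) (by cases a <;> cases b <;> cases z <;> decide) (by cases a <;> cases b <;> cases z <;> decide)⟩

theorem good_any : ∀ i < 26, Good i fun _ => True := fun i hi => by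
  have r : ∀ i < 26, rep i < 48 ∧ okF i (rep i) = true := by decide +kernel
  rcases Nat.lt_or_ge i 6 with x | x
  · refine ⟨_, 0, 1, 0, -1, r i hi, by norm_num, ⟨fun _ => ?_, fun _ => by omega, fun _ => by omega⟩, fun _ _ => trivial⟩
    norm_num [Bx.inO, Bx.lu, mkB, show i < 18 by omega]
  rcases Nat.lt_or_ge i 18 with y | y
  · refine ⟨_, 0, 1, 0, -1 / 4, r i hi, by norm_num, ⟨fun _ => by omega, fun _ _ => ⟨⟨1 / 2, -1 / 8, ?_⟩, ?_⟩,
      fun _ => by omega⟩, fun _ _ => trivial⟩ <;> norm_num [Bx.inO, Bx.inC, Bx.lu, mkB, y]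
  · refine ⟨_, 0, 1, -1 / 4, -1 / 4, r i hi, by norm_num, ⟨fun _ => by omega, fun _ => by omega,
      fun _ => ⟨⟨1 / 8, -1 / 8, ?_⟩, ?_⟩⟩, fun _ _ => trivial⟩ <;>
      norm_num [Bx.inO, Bx.cx, Bx.cy, Bx.lu, mkB, not_lt.2 y]

def vals (i φ : ℕ) (s c p q : ℝ) (r : ℕ) : ℝ :=
  if r = 0 then s else if r = 1 then 1 - c else if i < 6 then
    (if r = 2 + aN φ then -p - (1 - c) else if r = 2 + bN φ then -q - 1 else (s - (1 - c)) / 2)
  else if i < 18 then (if r = 2 then p else -q) else if r = 2 then -p else q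

theorem axes : ∀ φ < 48, aN φ ≠ bN φ ∧ ∀ j < 3, j = aN φ ∨ j = bN φ ∨ (j ≠ aN φ ∧ j ≠ bN φ) := by decide +kernel

theorem build (pres : ℕ → Prop) (D : ℕ → P3 → Prop) (hg : ∀ i < 26, Good i (D i))
    (hd : ∀ i j, i ≠ j → pres i → pres j → ∀ P, D i P → D j P → False) :
    ∃ K, Valid K ∧ ∀ i < 26, pres i → K.fl i < 48 := by
  classical
  choose! φ s c p q h1 h2 h3 h4 using hg
  obtain ⟨K, k1, k2⟩ : ∃ K : Cfg, K.fl = (fun i => if pres i then φ i else 48) ∧
      K.v = hv fun n => vals (ixp n / 5) (φ (ixp n / 5)) (s (ixp n / 5)) (c (ixp n / 5)) (p (ixp n / 5))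
        (q (ixp n / 5)) (ixp n % 5) := ⟨⟨_, _⟩, rfl, rfl⟩
  have H : Hom K.v := k2 ▸ hv_hom _
  have v : ∀ i < 26, ∀ r < 5, ev K.v (var (pr i r)) = vals i (φ i) (s i) (c i) (p i) (q i) r := fun i hi r hr => by
    rw [ev_var, k2]; exact hv_pr (fun i r => vals i (φ i) (s i) (c i) (p i) (q i) r) hi hr
  have vs : ∀ i < 26, K.sy i 0 = s i := fun i hi => v i hi 0 (by decide)
  have vw : ∀ i < 26, K.sy i 2 = 1 - c i := fun i hi => v i hi 1 (by decide)
  have vc : ∀ i < 26, K.sy i 1 = c i := fun i hi => by linarith [vw i hi, ev_cP H i]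
  have vx : ∀ i < 6, ∀ j < 3, ev K.v (xP i j false) = if j = aN (φ i) then -p i - (1 - c i) else
      if j = bN (φ i) then -q i - 1 else (s i - (1 - c i)) / 2 := fun i hi j hj => by
    rw [xP, iff_f, Nat.add_eq, v i (by omega) _ (by omega), vals, if_neg (by omega), if_neg (by omega), if_pos hi]
    simp only [Nat.add_left_cancel_iff]
  have bx : ∀ i < 26, K.bx i (φ i) = mkB i (φ i) (s i) (c i) (p i) (q i) := fun i hi => by
    have n : (K.bx i (φ i)).n = (mkB i (φ i) (s i) (c i) (p i) (q i)).n := by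
      funext k
      rcases Nat.lt_or_ge i 18 with x | x
      · obtain ⟨a, b⟩ := nm_lt (K := K) x (φ i)
        cases k <;> simp only [a, b, mkB, x, if_true, cond_true, cond_false, vs i hi, vc i hi]
      · obtain ⟨a, b⟩ := nm_ge (K := K) x (φ i)
        cases k <;> simp only [a, b, mkB, not_lt.2 x, if_false, cond_true, cond_false, vs i hi, vc i hi]
    have m : (K.bx i (φ i)).m = (mkB i (φ i) (s i) (c i) (p i) (q i)).m := by
      funext k
      cases k
      exacts [vs i hi, vc i hi]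
    have o : (K.bx i (φ i)).p = (mkB i (φ i) (s i) (c i) (p i) (q i)).p := by
      funext k
      rcases Nat.lt_or_ge i 6 with x | x
      · obtain ⟨a, b⟩ := p_C H x (φ i)
        have o := (h1 i hi).2
        simp only [okF, (lt_eq _ _).2 x, iff_t, orr_eq, an_eq, Nat.beq_eq] at o
        obtain ⟨-, -, o1, o2⟩ := o.resolve_left (h1 i hi).1.ne
        cases k
        · rw [a, o1, Bool.not_true, vx i x _ (aN_lt _), if_pos rfl, vw i hi]; simp [mkB]
        · rw [b, nt_t o2, vx i x _ (bN_lt _), if_neg (axes _ (h1 i hi).1).1.symm, if_pos rfl]; simp [mkB]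
      rcases Nat.lt_or_ge i 18 with y | y
      · obtain ⟨a, b⟩ := p_E (K := K) x y (φ i)
        cases k
        · rw [a, sy_var x 0 (by decide), v i hi _ (by decide)]; simp [mkB, vals, not_lt.2 x, y]
        · rw [b, sy_var x 1 (by decide), v i hi _ (by decide)]; simp [mkB, vals, not_lt.2 x, y]
      · obtain ⟨a, b⟩ := p_V (K := K) y (φ i)
        cases k
        · rw [a, sy_var x 0 (by decide), v i hi _ (by decide)]; simp [mkB, vals, not_lt.2 x, not_lt.2 y]
        · rw [b, sy_var x 1 (by decide), v i hi _ (by decide)]; simp [mkB, vals, not_lt.2 x, not_lt.2 y]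
    unfold Cfg.bx at n m o ⊢
    unfold mkB at n m o ⊢
    congr
  have pc : ∀ i < 26, K.fl i < 48 → pres i ∧ K.pc i = mkB i (φ i) (s i) (c i) (p i) (q i) := fun i hi h => by
    rw [Cfg.pc, ← bx i hi]
    rw [k1] at h ⊢
    by_cases x : pres i
    · exact ⟨x, by simp only [x, if_true]⟩
    · simp [x] at h
  refine ⟨K, ⟨H, fun i hi => by rw [vs i hi, vc i hi]; exact h2 i hi, fun i hi => ?_, fun i hi j hj b => ?_,
    fun i x y => ?_, fun i x y => ?_, fun i hi j hj ne a b P x y => ?_⟩, fun i hi x => ?_⟩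
  · rw [k1]
    by_cases x : pres i <;> simp only [x, if_true, if_false]
    exacts [(h1 i hi).2, rfl]
  · have l := (h3 i (by omega)).1 hi
    obtain ⟨s0, sc, un⟩ := h2 i (by omega)
    have e := ev_xP (K := K) i j false
    have a := vx i hi j hj
    simp only [Bx.inO, Bx.lu, mkB, show i < 18 by omega, if_true, Bool.forall_bool, cond_true, cond_false] at l
    rw [vs i (by omega), vw i (by omega), Bool.not_false] at e
    rw [vs i (by omega), vc i (by omega)]
    have c0 : 0 < c i := by nlinarith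
    have c1 : c i ≤ 1 := by nlinarith
    have c2 : s i + c i < 2 := by nlinarith
    obtain ⟨⟨l1, l2⟩, l3, l4⟩ := l
    split_ifs at a <;> cases b <;> linarith
  · have l := (h3 i (by omega)).2.1 x y
    rw [← bx i (by omega)] at l
    simp only [Bx.locE, Bx.tch, Bx.inO, Bx.inC, lu_ge x (φ i)] at l ⊢
    exact l
  · have l := (h3 i y).2.2 x
    rw [← bx i y] at l
    simp only [Bx.locV, Bx.tch, Bx.inO, Bx.cx, Bx.cy, lu_ge (show 6 ≤ i by omega) (φ i),
      bx_ge (show 6 ≤ i by omega) (φ i)] at l ⊢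
    exact l
  · obtain ⟨a1, a2⟩ := pc i hi a
    obtain ⟨b1, b2⟩ := pc j hj b
    exact hd i j ne a1 b1 P (h4 i hi P (a2 ▸ x)) (h4 j hj P (b2 ▸ y))
  · rw [k1]; simp only [x, if_true]; exact (h1 i hi).1

/-- what the certificates give for a hole `h` when piece `j` has the flag `φ` -/
def Hole (h j φ : ℕ) : Prop := ∀ K, Valid K → (∃ i < 26, i ≠ h ∧ K.fl i = 48) ∨ K.fl j ≠ φ

/-- the literals allowed in the last clause -/
def holeL (tb : ℕ → Atom) (h j φ l : ℕ) : Bool :=
  isF (tb (Nat.div l 2)) fun i ψ =>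
    iff (bit l) (an (Nat.beq i j) (Nat.beq ψ φ)) (an (lt i 26) (an (nt (Nat.beq i h)) (Nat.beq ψ 48)))

theorem hole_of {tb : ℕ → Atom} {mem : ℕ → Bool} {h j φ : ℕ} (U : Univ tb mem)
    (c : ∀ l, mem l = true → holeL tb h j φ l = true) : Hole h j φ := fun K V => by
  by_contra n
  rw [not_or, not_not] at n
  obtain ⟨l, m, t⟩ := U K V
  obtain ⟨i, ψ, e, x⟩ := isF_s (c l m)
  change tb (l / 2) = _ at e
  rw [Lit, e] at t
  rw [iff_eq] at x
  split_ifs at x with b <;> simp only [an_eq, lt_eq, Nat.beq_eq] at x <;> rw [bit_eq] at b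
  · rw [if_neg (by omega), x.1, x.2] at t
    exact t n.2
  · rw [if_pos (by omega), x.2.2] at t
    exact n.1 ⟨i, x.1, nt_beq x.2.1, t⟩

def opp (h : ℕ) : ℕ := if h < 18 then h + 3 - 2 * ((h - 6) % 4) else 43 - h

def Mv (g h φ u j ψ : ℕ) : Prop := actP g u = h ∧ actP g j = opp h ∧ acF (inv g) j φ = ψ

instance (g h φ u j ψ : ℕ) : Decidable (Mv g h φ u j ψ) := by unfold Mv; infer_instance

theorem opp_s : ∀ h < 26, 6 ≤ h → opp h < 26 ∧ opp h ≠ h := by decide +kernel

theorem hole_sym : ∀ h < 26, 6 ≤ h → ∀ φ < 48, okF (opp h) φ = true →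
    ∃ g < 48, Mv g h φ 17 14 5 ∨ Mv g h φ 25 18 3 := by decide +kernel

theorem no_hole (HE : Hole 17 14 5) (HV : Hole 25 18 3) {K : Cfg} (V : Valid K) {h : ℕ} (h1 : 6 ≤ h) (h2 : h < 26)
    (a : ∀ i < 26, i ≠ h → K.fl i < 48) : False := by
  obtain ⟨x, y⟩ := opp_s h h2 h1
  obtain ⟨g, hg, e⟩ := hole_sym h h2 h1 _ (a _ x y) (V.lab _ x)
  have k : ∀ {u j φ : ℕ}, u < 26 → Hole u j φ → actP g u = h → actP g j = opp h → acF (inv g) j (K.fl (opp h)) = φ →
      False := fun {u j φ} hu H e1 e2 e3 => by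
    rcases H _ (pull_valid V hg) with ⟨i, hi, n, f⟩ | f
    · obtain ⟨i1, -, -, i2⟩ := actP_s g hg i hi
      have := (pull_fl V hg hi).2.2.2 (a _ i1 fun e => n (by rw [← i2, e, ← e1, (actP_s g hg u hu).2.2.2]))
      omega
    · exact f (by rw [← e3, ← e2]; rfl)
  rcases e with e | e
  exacts [k (by decide) HE e.1 e.2.1 e.2.2, k (by decide) HV e.1 e.2.1 e.2.2]

theorem count24 (HE : Hole 17 14 5) (HV : Hole 25 18 3) {k : ℕ} (D : Fin k → Sp) (hD : ∀ i, IsPr (D i))
    (hd : ∀ i j, i ≠ j → Dis (D i) (D j)) : k ≤ 24 := by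
  classical
  choose f hf hg using fun i => lab_good (hD i)
  have inj : Function.Injective f := fun i j e => by
    by_contra n
    exact lab_un (hd i j n) (hf i) (e ▸ hf j)
  by_contra n
  have xi : ∀ l m : Lb, ix l = ix m → l = m := by decide +kernel
  have xs : ∀ i < 26, ∃ l, ix l = i := by decide +kernel
  have xl : ∀ l : Lb, ix l < 26 ∧ (ix l < 6 → ∃ p, l = .inl p) := by decide +kernel
  by_cases m : ∃ l : Lb, 6 ≤ ix l ∧ ∀ i, f i ≠ l
  · obtain ⟨l, l6, m⟩ := m
    have all : ∀ l' : Lb, l' ≠ l → ∃ i, f i = l' := fun l' ne => by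
      by_contra z
      have : (Finset.univ.image f) ⊆ (Finset.univ.erase l).erase l' := fun y hy => by
        obtain ⟨i, -, rfl⟩ := Finset.mem_image.1 hy
        simp only [Finset.mem_erase, Finset.mem_univ, and_true]
        exact ⟨fun e => z ⟨i, e⟩, m i⟩
      have := Finset.card_le_card this
      rw [Finset.card_image_of_injective _ inj, Finset.card_erase_of_mem (by simp [ne]),
        Finset.card_erase_of_mem (Finset.mem_univ _), Finset.card_univ, Finset.card_univ, Fintype.card_fin,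
        show Fintype.card Lb = 26 by simp] at this
      omega
    obtain ⟨K, V, p⟩ := build (fun i => ∃ j, ix (f j) = i)
      (fun i => if h : ∃ j, ix (f j) = i then Sp.at (D h.choose) else fun _ => True)
      (fun i hi => by
        split_ifs with h
        · have := hg h.choose
          rwa [h.choose_spec] at this
        · exact good_any i hi)
      fun i j ne a b P x y => by
        rw [dif_pos a] at x
        rw [dif_pos b] at y
        exact hd _ _ (fun e => ne (by rw [← a.choose_spec, e, b.choose_spec])) _ _ _ x y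
    refine no_hole HE HV V l6 (xl l).1 fun i hi ne => p i hi ?_
    obtain ⟨l', rfl⟩ := xs i hi
    obtain ⟨j, rfl⟩ := all l' fun e => ne (congrArg ix e)
    exact ⟨j, rfl⟩
  · push Not at m
    have m' : ∀ l : (Fin 3 × Bool × Bool) ⊕ (Bool × Bool × Bool), ∃ i, f i = .inr l := fun l =>
      m _ (not_lt.1 fun h => by obtain ⟨p, e⟩ := (xl _).2 h; cases e)
    choose g hg using m'
    have L : ∀ l, Lab (D (g l)) (.inr l) := fun l => by simpa only [hg] using hf (g l)
    have d : ∀ p q, Dis (D (g (.inl p))) (D (g (.inr q))) := fun p q =>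
      hd _ _ fun e => by simpa only [hg, reduceCtorEq, Sum.inr.injEq] using congrArg f e
    exact Cf.no ⟨fun a b c => vV a b c (D (g (.inr (a, b, c)))),
      fun a b => vE a b (D (g (.inl (0, a, b)))) 0, fun a b => vE a b (D (g (.inl (1, a, b)))) 1,
      fun a b => vE a b (D (g (.inl (2, a, b)))) 2, fun a b c _ _ _ => d _ _ _ _ _,
      fun a b c _ _ _ => d _ _ _ _ _, fun a b c _ _ _ => d _ _ _ _ _⟩
      (fun a b c => L (.inr (a, b, c))) fun a b => ⟨L (.inl (0, a, b)), L (.inl (1, a, b)), L (.inl (2, a, b))⟩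

theorem main24 (HE : Hole 17 14 5) (HV : Hole 25 18 3) (φ : E3 ≃ᵢ E3) {k : ℕ} (ψ : Fin k → E3 ≃ᵢ E3) (Q : Set E3)
    (hQ : Q = {x | ∀ i, x i ∈ Icc (0 : ℝ) 1})
    (h1 : ∀ i, Disjoint (interior (φ '' Q)) (interior (ψ i '' Q)))
    (h2 : Pairwise fun i j => Disjoint (interior (ψ i '' Q)) (interior (ψ j '' Q)))
    (h3 : ∀ i, 0 < μH[2] (frontier (φ '' Q) ∩ frontier (ψ i '' Q))) : k ≤ 24 := by
  have eQ : Q = Cb eb 0 := by
    rw [hQ]; ext y; simp [Cb, eb_inner]
  have key : ∀ i, IsPr fun u v w => φ (sc ![u, v, w]) ∈ interior (ψ i '' Q) := fun i => by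
    obtain ⟨f, p, a, b, c⟩ := frame ((ψ i).trans φ.symm)
    have e : ψ i '' Q = φ '' Cb f p := by
      rw [← c, eQ, image_image]; simp
    have hi : ∀ S : Set E3, interior (φ '' S) = φ '' interior S := fun S =>
      (φ.toHomeomorph.image_interior S).symm
    have hf : ∀ S : Set E3, frontier (φ '' S) = φ '' frontier S := fun S =>
      (φ.toHomeomorph.image_frontier S).symm
    have d := h1 i
    have m := h3 i
    rw [e, eQ] at d m
    rw [hi, hi, disjoint_image_iff φ.injective] at d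
    rw [hf, hf, ← image_inter φ.injective, φ.hausdorffMeasure_image] at m
    simpa only [e, hi, φ.injective.mem_set_image] using contact a b d m
  exact count24 HE HV _ key fun i j h u v w a b => disjoint_left.1 (h2 h) a b

end

end Pool.Agent.P.MP_53fdf1_co.R
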