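import Pool.Agent.P.MP_53fdf1_co.RFar
import Pool.Agent.P.MP_53fdf1_co.RTop
import Pool.Agent.P.MP_53fdf1_co.RFastS

set_option autoImplicit false

namespace Pool.Agent.P.MP_53fdf1_co.R

open RRup

/-! Assembly of the blocks of a certificate. -/

variable {ta D : ℕ → ℕ} {m m' : ℕ}

/-- the clauses below `m` hold -/
def Up (ta D : ℕ → ℕ) (m : ℕ) : Prop := Upto Valid (fun K a => (dec (ta a)).sem K) D m

/-- the rows of images below `L` are sound -/
def Ro (ta row : ℕ → ℕ) (L : ℕ) : Prop := Rows Valid (fun K a => (dec (ta a)).sem K) act row L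

theorem Up.zero : Up ta D 0 := Upto.zero

theorem Ro.zero {row : ℕ → ℕ} : Ro ta row 0 := Rows.zero

theorem Up.bool {chk : (ℕ → Atom) → (ℕ → Bool) → ℕ → Bool} {h : ℕ → ℕ}
    (hc : ∀ tb mem n, chk tb mem n = true → Univ tb mem)
    (e : allZ (thB chk ta D h) m m' = 0)
    (u : Up ta D m) : Up ta D m' :=
  theory_ok (p := fun z c => @Bool.rec (fun _ => ℕ) 1 0 (chk (tbl ta) (memC c) (h z)))
    (fun z c e => hc (tbl ta) (memC c) (h z) (rec_zero e)) e u

theorem Up.far {ι h : ℕ → ℕ} (e : allZ (thF ta ι D h) m m' = 0)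
    (u : Up ta D m) : Up ta D m' :=
  theory_ok (p := fun z c => chkFar ta ι c (h z)) (fun _ _ => chkFar_ok) e u

theorem Up.fast {h : ℕ → ℕ} (e : allZ (fun z => Fa.chkFast ta (D z) (h z)) m m' = 0)
    (u : Up ta D m) : Up ta D m' :=
  theory_ok (p := fun z c => Fa.chkFast ta c (h z)) (fun _ _ => Fa.chkFast_s) e u

theorem Ro.step {row : ℕ → ℕ} {L L' : ℕ}
    (e : allZ (thY symL ta row) L L' = 0)
    (u : Ro ta row L) : Ro ta row L' :=
  rows_ok (S := symL (tbl ta)) (fun _ _ _ _ e V t => symL_s e V t) e u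

theorem Up.blk (h3 : ta 0 = 3) {row : ℕ → ℕ} {L Y ni nj n c b F : ℕ} {σ τ rf ow au ex pt hb : ℕ → ℕ}
    (r : Ro ta row L) (e : block (pi row L) D m m' Y ni nj n c b F σ τ rf ow au ex pt hb = 0)
    (u : Up ta D m) : Up ta D m' :=
  block_ok (fun g _ V => hact V g) (fun K _ => h3 ▸ dec_three K) r e u

theorem Up.hole {h j φ : ℕ} (u : Up ta D (m + 1))
    (e : dig (D m) + allZ (fun l => low (D m) >>> l % 2 *
      Bool.rec 1 0 (holeL (tbl ta) h j φ l)) 0 1024 = 0) : Hole h j φ := by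
  obtain ⟨h1, h2⟩ := Nat.add_eq_zero_iff.1 e
  refine hole_of (tb := tbl ta) (mem := memC (D m)) (u m (Nat.lt_succ_self m)) fun l hl => ?_
  rcases (memC_iff _ _).1 hl with h3 | h3
  · have h4 := allZ_ok h2 l (Nat.zero_le l) (low_lt h3)
    rw [(bit_iff _ _).2 h3, one_mul] at h4
    exact rec_zero h4
  · rw [h1] at h3
    exact absurd rfl h3.1

end Pool.Agent.P.MP_53fdf1_co.R
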