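import Pool.Agent.P.MP_53fdf1_co.RPt

set_option autoImplicit false

namespace Pool.Agent.P.MP_53fdf1_co.R

open Po

noncomputable section

def ok (_ : ℕ) : Bool := true

/-- the first coordinate of normal `k` is not positive -/
def nng (i : ℕ) (k : Bool) : Bool := xr (lt i 18) (nt k)

def two : Po := cst false 2

section
variable (tb : ℕ → Atom) (mem : ℕ → Bool)

def notin (i φ : ℕ) (gx gy : Bool) (h : ℕ) : Bool :=
  der tb mem i i (lsP i φ false false (cst gx 1) (cst gy 1) two) true h fun h =>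
  der tb mem i i (lsP i φ false true (cst gx 1) (cst gy 1) two) true h fun h =>
  der tb mem i i (lsP i φ true false (cst gx 1) (cst gy 1) two) true h fun h =>
  der tb mem i i (lsP i φ true true (cst gx 1) (cst gy 1) two) true h ok

def cFact (h : ℕ) : Bool :=
  dg h fun i h => dg h fun φ h => dg h fun t h => an (lt i 26)
    (iff (lt t 4) (der tb mem i i (neg (lsP i φ (bit (Nat.div t 2)) (bit t)
        (bP (xr (bit t) (nt (nng i (bit (Nat.div t 2)))))) (neg (bP (bit t))) one)) false h ok)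
    (iff (Nat.beq t 4) (der tb mem i i (sub one (crX i φ (nng i false) (nng i true))) false h ok)
    (iff (Nat.beq t 5) (der tb mem i i (crX i φ (nt (nng i false)) (nt (nng i true))) false h ok)
    (iff (Nat.beq t 6) (der tb mem i i (neg (crY i φ false false)) false h ok)
    (iff (Nat.beq t 7) (der tb mem i i (add one (crY i φ true true)) false h ok)
    (iff (lt t 12) (an (lt i 18) (der tb mem i i (neg (lsP i φ (bit (Nat.div t 2)) (bit t) one (cst (lt i 6) 1) two))
        (nt (lt i 6)) h ok))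
    (iff (Nat.beq t 12) (an (lt 5 i) (notin tb mem i φ false true h))
    (an (lt 17 i)
    (iff (Nat.beq t 13) (notin tb mem i φ false false h)
    (iff (Nat.beq t 14) (notin tb mem i φ true true h)
    (iff (Nat.beq t 15) (der tb mem i i (sub one (add (crX i φ false false) (crX i φ true true))) true h ok)
      (der tb mem i i (add one (add (crY i φ false false) (crY i φ true true))) true h ok))))))))))))

def cTwo (h : ℕ) : Bool :=
  dg h fun a h => dg h fun b h => an (lt a 26) (an (lt b 26)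
    (litP tb mem h fun q s h => der tb mem a b (neg q) (nt s) h ok))

def cAmo (h : ℕ) : Bool :=
  gF tb mem h fun a φ h => gF tb mem h fun b ψ _ => an (Nat.beq a b) (nt (Nat.beq φ ψ))

def flags (i n : ℕ) : ℕ → Bool :=
  @Nat.rec (fun _ => ℕ → Bool) ok (fun φ ih h => iff (okF i φ) (hF tb mem i φ h ih) (ih h)) n

def cFlag (h : ℕ) : Bool := dg h fun i h => an (lt i 26) (flags tb mem i 49 h)

def cPsep (h : ℕ) : Bool :=
  gF tb mem h fun a φ h => gF tb mem h fun b ψ h => gS tb mem h fun a' b' k h =>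
    an (iff (lt k 4) (an (Nat.beq a' a) (Nat.beq b' b)) (an (lt k 8) (an (Nat.beq a' b) (Nat.beq b' a))))
      (pt tb mem a b b ψ h fun X H h => der tb mem a b (sdP a φ (Nat.mod k 4) X H) true h ok)

/-- a point of the square of `i` over the slab beyond the face of the flag `ψ` -/
def shp (a b i φ ψ h : ℕ) (k : (ℕ → Po) → Po → ℕ → Bool) : Bool :=
  pt tb mem a b i φ h fun X H h => frp (zP ψ X H) fun z => der tb mem a b (neg z) false h fun h =>
    der tb mem a b (sub z H) false h fun h => k X H h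

def cPord (h : ℕ) : Bool :=
  gF tb mem h fun a φ h => gF tb mem h fun b ψ h => gS tb mem h fun a' b' k h =>
    an (an (an (Nat.beq a' a) (Nat.beq b' b)) (an (lt 7 k) (lt k 14)))
      (shp tb mem a b a φ ψ h fun X H h => shp tb mem a b b ψ φ h fun Y G h =>
        der tb mem a b (sgP (bit k) (sub (mul (Y (Nat.div (Nat.sub k 8) 2)) H) (mul (X (Nat.div (Nat.sub k 8) 2)) G)))
          true h ok)

def cOrd (h : ℕ) : Bool :=
  gF tb mem h fun a φ h => gF tb mem h fun b ψ h =>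
    an (an (an (lt φ 48) (lt ψ 48)) (an (nt (Nat.beq a b)) (nt (Nat.beq (fN φ) (fN ψ)))))
      (frc (Nat.sub 14 (Nat.mul 2 (Nat.add (fN φ) (fN ψ)))) fun k =>
        hS tb mem a b k h fun h => hS tb mem a b (Nat.add k 1) h fun h =>
        pt tb mem a b a φ h fun X H h => der tb mem a b (neg (zP ψ X H)) true h fun h =>
        pt tb mem a b b ψ h fun Y G h => der tb mem a b (neg (zP φ Y G)) true h ok)

def seps (a b n : ℕ) : ℕ → Bool :=
  @Nat.rec (fun _ => ℕ → Bool) ok (fun k ih h => hS tb mem a b k h ih) n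

def cSep (h : ℕ) : Bool :=
  gF tb mem h fun a φ h => gF tb mem h fun b ψ h =>
    an (an (an (lt φ 48) (lt ψ 48)) (an (nt (Nat.beq a b)) (an (Nat.beq (fN φ) (fN ψ)) (nt (xr (vF φ) (vF ψ))))))
      (seps tb mem a b 8 h)

/-- the checker of the geometric input clauses -/
def chkIn (h : ℕ) : Bool :=
  dg h fun t h => iff (Nat.beq t 0) (cPsep tb mem h) (iff (Nat.beq t 1) (cPord tb mem h)
    (iff (Nat.beq t 2) (cOrd tb mem h) (iff (Nat.beq t 3) (cSep tb mem h) (iff (Nat.beq t 4) (cFact tb mem h)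
      (iff (Nat.beq t 5) (cTwo tb mem h) (iff (Nat.beq t 6) (cAmo tb mem h) (cFlag tb mem h)))))))

end

variable {K : Cfg} {tb : ℕ → Atom} {mem : ℕ → Bool}

theorem nt_beq {a b : ℕ} (h : nt (Nat.beq a b) = true) : a ≠ b := Nat.ne_of_beq_eq_false (nt_t h)

theorem ev_two (H : Hom K.v) : ev K.v two = 2 := (ev_cst H _ _).trans (by simp [sg])

theorem ev_half (H : Hom K.v) (g : Bool) : ev K.v (cst g 1) = ev K.v two * cond g (-1 / 2) (1 / 2) := by
  rw [ev_two H, ev_cst H]; cases g <;> norm_num [sg]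

theorem notin_s (V : Valid K) (N : NC K tb mem) {i φ h : ℕ} (hi : i < 26) {gx gy : Bool}
    (e : notin tb mem i φ gx gy h = true) :
    (K.bx i φ).inO (cond gx (-1 / 2) (1 / 2)) (cond gy (-1 / 2) (1 / 2)) := by
  obtain ⟨a, h, e⟩ := der_s V N hi hi e
  obtain ⟨b, h, e⟩ := der_s V N hi hi e
  obtain ⟨c, h, e⟩ := der_s V N hi hi e
  obtain ⟨d, -⟩ := der_s V N hi hi e
  simp only [rel, cond_true, ev_lsP V.hom i φ _ _ (ev_half V.hom gx) (ev_half V.hom gy), ev_two V.hom] at a b c d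
  refine Bx.inO_iff.2 fun k e => ?_
  cases k <;> cases e <;> linarith

theorem nng_s (V : Valid K) {i : ℕ} (h : i < 26) (φ : ℕ) (k : Bool) :
    0 ≤ sg (nng i k) ((K.bx i φ).n k) ∧ 0 ≤ (K.bx i φ).m k := by
  obtain ⟨m0, m1⟩ := nm_m (K := K) i φ
  obtain ⟨s0, sc, -⟩ := V.tri i h
  rcases Nat.lt_or_ge i 18 with a | a
  · obtain ⟨n0, n1⟩ := nm_lt (K := K) a φ
    cases k <;> simp only [nng, (lt_eq _ _).2 a, nt, xr, sg, cond_true, cond_false, n0, n1, m0, m1] <;>
      constructor <;> linarith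
  · obtain ⟨n0, n1⟩ := nm_ge (K := K) a φ
    have : lt i 18 = false := by rw [← Bool.not_eq_true, lt_eq]; omega
    cases k <;> simp only [nng, this, nt, xr, sg, cond_true, cond_false, n0, n1, m0, m1] <;> constructor <;> linarith

theorem cFact_s (V : Valid K) (N : NC K tb mem) {h : ℕ} (e : cFact tb mem h = true) : False := by
  obtain ⟨i, h, e⟩ := dg_s e
  obtain ⟨φ, h, e⟩ := dg_s e
  obtain ⟨t, h, e⟩ := dg_s e
  rw [an_eq, lt_eq] at e
  obtain ⟨hi, e⟩ := e
  have H := V.hom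
  have o := ev_one H
  obtain ⟨x, y, ⟨x0, x1⟩, ⟨y0, y1⟩, c⟩ := V.tch hi φ
  obtain ⟨ix, iy⟩ := (V.orth hi φ).inv x y
  obtain ⟨n0, m0⟩ := nng_s V hi φ false
  obtain ⟨n1, m1⟩ := nng_s V hi φ true
  obtain ⟨u0, u0'⟩ := c false
  obtain ⟨u1, u1'⟩ := c true
  simp only [iff_eq, lt_eq] at e
  split_ifs at e
  · have a := (der_s V N hi hi e).1
    generalize bit (Nat.div t 2) = k at a
    generalize bit t = g at a
    rw [ev_neg, ev_lsP H i φ k g (X := bR (xr g (nt (nng i k)))) (Y := -bR g) (by rw [o, one_mul, ev_bP H])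
      (by rw [o, one_mul, ev_neg, ev_bP H]), o, one_mul] at a
    obtain ⟨n, m⟩ := nng_s V hi φ k
    have c := Bx.inO_iff.1 c k g
    revert a n c
    cases g <;> cases nng i k <;> simp only [rel, Bx.lsd, Bx.lu, bR, xr, nt, sg, cond_true, cond_false] <;>
      intros <;> nlinarith
  · have a := (der_s V N hi hi e).1
    rw [ev_sub, o, ev_crX H] at a
    revert a n0 n1 ix
    cases nng i false <;> cases nng i true <;> simp only [rel, Bx.cx, bR, sg, cond_true, cond_false] <;>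
      intros <;> nlinarith
  · have a := (der_s V N hi hi e).1
    rw [ev_crX H] at a
    revert a n0 n1 ix
    cases nng i false <;> cases nng i true <;> simp only [rel, Bx.cx, bR, sg, xr, nt, cond_true, cond_false] <;>
      intros <;> nlinarith
  · have a := (der_s V N hi hi e).1
    rw [ev_neg, ev_crY H] at a
    simp only [rel, Bx.cy, bR, cond_false] at a iy
    nlinarith
  · have a := (der_s V N hi hi e).1
    rw [ev_add, o, ev_crY H] at a
    simp only [rel, Bx.cy, bR, cond_false, cond_true] at a iy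
    nlinarith
  · rw [an_eq, lt_eq] at e
    have a := (der_s V N hi hi e.2).1
    rw [ev_neg, ev_lsP H i φ _ _ (X := 1 / 2) (by rw [o, ev_two H]; norm_num) (ev_half H _), ev_two H] at a
    rcases Nat.lt_or_ge i 6 with c | c
    · have := Bx.inO_iff.1 (V.lC c φ) (bit (Nat.div t 2)) (bit t)
      simp only [(lt_eq _ _).2 c, rel, nt, xr, cond_true, cond_false] at a
      linarith
    · have := Bx.inC_iff.1 (V.locE c e.1 φ).2.1 (bit (Nat.div t 2)) (bit t)
      simp only [show lt i 6 = false by rw [← Bool.not_eq_true, lt_eq]; omega, rel, nt, xr, cond_true,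
        cond_false] at a
      linarith
  · rw [an_eq, lt_eq] at e
    have a := notin_s V N hi e.2
    rcases Nat.lt_or_ge i 18 with c | c
    · exact (V.locE e.1 c φ).2.2 a
    · exact (V.locV c hi φ).2.1 a
  all_goals
    rw [an_eq, lt_eq] at e
    obtain ⟨-, -, l1, l2, l3, l4⟩ := V.locV e.1 hi φ
  · exact l1 (notin_s V N hi e.2)
  · exact l2 (notin_s V N hi e.2)
  · have a := (der_s V N hi hi e.2).1
    simp only [ev_sub, ev_add, o, ev_crX H, rel, bR, cond_true, cond_false] at a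
    linarith
  · have a := (der_s V N hi hi e.2).1
    simp only [ev_add, o, ev_crY H, rel, bR, cond_true, cond_false] at a
    linarith

theorem cTwo_s (V : Valid K) (N : NC K tb mem) {h : ℕ} (e : cTwo tb mem h = true) : False := by
  obtain ⟨a, h, e⟩ := dg_s e
  obtain ⟨b, h, e⟩ := dg_s e
  simp only [an_eq, lt_eq] at e
  obtain ⟨q, s, h, r, e'⟩ := litP_s V N e.2.2
  have := (der_s V N e.1 e.2.1 e').1
  revert r this
  cases s <;> simp only [rel, nt, xr, cond_true, cond_false, ev_neg] <;> intros <;> linarith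

theorem cAmo_s (N : NC K tb mem) {h : ℕ} (e : cAmo tb mem h = true) : False := by
  obtain ⟨a, φ, h, -, x, e⟩ := gF_s N e
  obtain ⟨b, ψ, h, -, y, e⟩ := gF_s N e
  rw [an_eq, Nat.beq_eq] at e
  exact nt_beq e.2 (by rw [← x, ← y, e.1])

theorem flags_s (N : NC K tb mem) {i : ℕ} (n : ℕ) : ∀ h, flags tb mem i n h = true →
    ∀ φ < n, okF i φ = true → K.fl i ≠ φ := by
  induction n with
  | zero => exact fun _ _ _ h => absurd h (Nat.not_lt_zero _)
  | succ n ih =>
    intro h e φ l o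
    change iff (okF i n) (hF tb mem i n h (flags tb mem i n)) (flags tb mem i n h) = true at e
    rw [iff_eq] at e
    split_ifs at e with c
    · obtain ⟨a, h, e⟩ := hF_s N e
      rcases Nat.lt_succ_iff_lt_or_eq.1 l with l | rfl
      exacts [ih h e φ l o, a]
    · rcases Nat.lt_succ_iff_lt_or_eq.1 l with l | rfl
      exacts [ih h e φ l o, absurd o c]

theorem Valid.fl_lt (V : Valid K) {i : ℕ} (h : i < 26) : K.fl i < 49 := by
  have := V.lab i h
  simp only [okF, orr_eq, an_eq, lt_eq, Nat.beq_eq] at this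
  omega

theorem cFlag_s (V : Valid K) (N : NC K tb mem) {h : ℕ} (e : cFlag tb mem h = true) : False := by
  obtain ⟨i, h, e⟩ := dg_s e
  rw [an_eq, lt_eq] at e
  exact flags_s N 49 h e.2 _ (V.fl_lt e.1) (V.lab i e.1) rfl

theorem cPsep_s (V : Valid K) (N : NC K tb mem) {h : ℕ} (e : cPsep tb mem h = true) : False := by
  obtain ⟨a, φ, h, ha, rfl, e⟩ := gF_s N e
  obtain ⟨b, ψ, h, hb, rfl, e⟩ := gF_s N e
  obtain ⟨a', b', k, h, ⟨-, -, s⟩, e⟩ := gS_s N e
  rw [an_eq] at e
  obtain ⟨X, H, P, h, c, r, e'⟩ := pt_s V N ha hb hb e.2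
  have d := (der_s V N ha hb e').1
  rw [r.sd V.hom] at d
  refine absurd d (not_lt.2 (mul_nonneg r.1.le ?_))
  have e := e.1
  simp only [iff_eq, lt_eq] at e
  change 0 ≤ K.sd a (K.fl a) (k % 4) P
  split_ifs at e with k4 <;> simp only [an_eq, lt_eq, Nat.beq_eq] at e
  · rw [if_pos k4, e.1, e.2] at s
    rw [Nat.mod_eq_of_lt k4]; exact s P c
  · rw [if_neg k4, if_pos e.1, e.2.1, e.2.2] at s
    rw [show k % 4 = k - 4 by omega]; exact s P c

theorem shp_s (V : Valid K) (N : NC K tb mem) {a b i φ ψ h : ℕ} (ha : a < 26) (hb : b < 26) (hi : i < 26) (j : ℕ)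
    {k : (ℕ → Po) → Po → ℕ → Bool} (e : shp tb mem a b i φ ψ h k = true) :
    ∃ X H P h, (K.bx i φ).sh (K.bx j ψ) P ∧ Hmg K X H P ∧ k X H h = true := by
  obtain ⟨X, H, P, h, c, r, e⟩ := pt_s V N ha hb hi e
  rw [frp_eq] at e
  obtain ⟨x, h, e⟩ := der_s V N ha hb e
  obtain ⟨y, h, e⟩ := der_s V N ha hb e
  simp only [rel, cond_false, ev_neg, ev_sub, r.z j] at x y
  have := r.1
  exact ⟨X, H, P, h, ⟨c, by nlinarith, by nlinarith⟩, r, e⟩

theorem cPord_s (V : Valid K) (N : NC K tb mem) {h : ℕ} (e : cPord tb mem h = true) : False := by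
  obtain ⟨a, φ, h, ha, rfl, e⟩ := gF_s N e
  obtain ⟨b, ψ, h, hb, rfl, e⟩ := gF_s N e
  obtain ⟨a', b', k, h, ⟨-, -, s⟩, e⟩ := gS_s N e
  simp only [an_eq, lt_eq, Nat.beq_eq] at e
  obtain ⟨⟨⟨rfl, rfl⟩, k1, k2⟩, e⟩ := e
  obtain ⟨X, H, P, h, c, r, e⟩ := shp_s V N ha hb ha b' e
  obtain ⟨Y, G, Q, h, c', r', e⟩ := shp_s V N ha hb hb a' e
  have d := (der_s V N ha hb e).1
  rw [if_neg (by omega), if_neg (by omega), if_pos k2] at s
  have s := s P Q c c'
  have t : Nat.div (Nat.sub k 8) 2 < 3 := by change (k - 8) / 2 < 3; omega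
  rw [ev_sgP, ev_sub, ev_mul V.hom, ev_mul V.hom, r.2 _ t, r'.2 _ t] at d
  change 0 ≤ sg (bit k) (Q (ax (Nat.div (Nat.sub k 8) 2)) - P (ax (Nat.div (Nat.sub k 8) 2))) at s
  have p := mul_nonneg (mul_pos r.1 r'.1).le s
  revert d p
  cases bit k <;> simp only [rel, sg, cond_true, cond_false] <;> intros <;> linarith

theorem frc_s {n : ℕ} {k : ℕ → Bool} (e : frc n k = true) : ∃ m, m = n ∧ k m = true := ⟨n, rfl, e⟩

theorem cOrd_s (V : Valid K) (N : NC K tb mem) {h : ℕ} (e : cOrd tb mem h = true) : False := by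
  obtain ⟨a, φ, h, ha, rfl, e⟩ := gF_s N e
  obtain ⟨b, ψ, h, hb, rfl, e⟩ := gF_s N e
  simp only [an_eq, lt_eq] at e
  obtain ⟨⟨⟨fa, fb⟩, ab, nf⟩, e⟩ := e
  obtain ⟨k, hk, e⟩ := frc_s e
  simp only [Nat.sub_eq, Nat.mul_eq, Nat.add_eq] at hk
  obtain ⟨s1, h, e⟩ := hS_s N e
  obtain ⟨s2, h, e⟩ := hS_s N e
  obtain ⟨X, H, P, h, c, r, e⟩ := pt_s V N ha hb ha e
  obtain ⟨x, h, e⟩ := der_s V N ha hb e
  obtain ⟨Y, G, Q, h, c', r', e⟩ := pt_s V N ha hb hb e
  obtain ⟨y, -⟩ := der_s V N ha hb e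
  simp only [rel, cond_true, ev_neg, r.z b, r'.z a, neg_neg_iff_pos, mul_pos_iff_of_pos_left r.1,
    mul_pos_iff_of_pos_left r'.1] at x y
  have nf := nt_beq nf
  have la := fN_lt (K.fl a)
  have lb := fN_lt (K.fl b)
  obtain ⟨t, ht⟩ : ∃ t, t + fN (K.fl a) + fN (K.fl b) = 3 := ⟨3 - fN (K.fl a) - fN (K.fl b), by omega⟩
  have hk : k = 8 + 2 * t := by omega
  rw [Nat.add_eq] at s2
  have b1 : bit k = false := by rw [← Bool.not_eq_true, bit_eq]; omega
  have b2 : bit (k + 1) = true := by rw [bit_eq]; omega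
  rcases shadow (bx_ok K a (K.fl a)) (bx_ok K b (K.fl b)) (t := ax t) (mt (ax_inj la lb).1 nf)
    (mt (ax_inj (by omega) la).1 (by omega)) (mt (ax_inj (by omega) lb).1 (by omega))
    ((V.tch ha _).touch (bx_ok _ _ _)) ((V.tch hb _).touch (bx_ok _ _ _)) (V.dis a ha b hb (nt_beq ab) fa fb)
    c x c' y with s | s
  · refine s1 ⟨fa, fb, ?_⟩
    rw [if_neg (by omega), if_neg (by omega), if_pos (by omega), b1, show (k - 8) / 2 = t by omega]
    exact fun P Q p q => sub_nonneg.2 (s P Q p q)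
  · refine s2 ⟨fa, fb, ?_⟩
    rw [if_neg (by omega), if_neg (by omega), if_pos (by omega), b2, show (k + 1 - 8) / 2 = t by omega]
    exact fun P Q p q => neg_nonneg.2 (sub_nonpos.2 (s P Q p q))

theorem seps_s (N : NC K tb mem) {a b : ℕ} (n : ℕ) : ∀ h, seps tb mem a b n h = true → ∀ k < n, ¬ Sep K a b k := by
  induction n with
  | zero => exact fun _ _ _ h => absurd h (Nat.not_lt_zero _)
  | succ n ih =>
    intro h e k l
    obtain ⟨x, h, e⟩ := hS_s (k := seps tb mem a b n) N e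
    rcases Nat.lt_succ_iff_lt_or_eq.1 l with l | rfl
    exacts [ih h e k l, x]

theorem side_ex (i : ℕ) : ∀ φ < 48, ∀ k e : Bool, ∃ s < 4, sK i φ s = k ∧ sE i φ s = e := by
  unfold sE sK
  cases lt i 6 <;> decide +kernel

theorem cSep_s (V : Valid K) (N : NC K tb mem) {h : ℕ} (e : cSep tb mem h = true) : False := by
  obtain ⟨a, φ, h, ha, rfl, e⟩ := gF_s N e
  obtain ⟨b, ψ, h, hb, rfl, e⟩ := gF_s N e
  simp only [an_eq, lt_eq, Nat.beq_eq] at e
  obtain ⟨⟨⟨fa, fb⟩, ab, ef, ev⟩, e⟩ := e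
  have s := seps_s N 8 h e
  have ev : vF (K.fl a) = vF (K.fl b) := by
    revert ev; cases vF (K.fl a) <;> cases vF (K.fl b) <;> simp [nt, xr]
  rcases sat (bx_ok K a (K.fl a)) (bx_ok K b (K.fl b)) (congrArg ax ef) ev ((V.tch ha _).touch (bx_ok _ _ _))
    ((V.tch hb _).touch (bx_ok _ _ _)) (V.dis a ha b hb (nt_beq ab) fa fb) with ⟨k, e, c⟩ | ⟨k, e, c⟩
  · obtain ⟨t, t4, rfl, rfl⟩ := side_ex a _ fa k e
    exact s t (by omega) ⟨fa, fb, by rw [if_pos t4]; exact c⟩
  · obtain ⟨t, t4, rfl, rfl⟩ := side_ex b _ fb k e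
    exact s (t + 4) (by omega) ⟨fa, fb, by rw [if_neg (by omega), if_pos (by omega)]; exact c⟩

theorem chkIn_s {h : ℕ} (e : chkIn tb mem h = true) : Univ tb mem := univ_of fun K V N => by
  obtain ⟨t, h, e⟩ := dg_s e
  simp only [iff_eq] at e
  split_ifs at e
  exacts [cPsep_s V N e, cPord_s V N e, cOrd_s V N e, cSep_s V N e, cFact_s V N e, cTwo_s V N e, cAmo_s N e,
    cFlag_s V N e]

end

end Pool.Agent.P.MP_53fdf1_co.R
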