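import Pool.Agent.P.MP_53fdf1_co.RBnd

set_option autoImplicit false

namespace Pool.Agent.P.MP_53fdf1_co.R.Ln

open Po

noncomputable section

def sel {α : Type} (a b c d e f : α) (j : ℕ) : α :=
  iff (lt j 3) (iff (Nat.beq j 0) a (iff (Nat.beq j 1) b c)) (iff (Nat.beq j 3) d (iff (Nat.beq j 4) e f))

def scl (g : Bool) (c : ℕ) (p : Po) : Po :=
  @Po.rec (fun _ => Po) nil (fun h d n _ ih => cons (xr g h) (Nat.mul c d) n ih) p

def mxN (a b : ℕ) : ℕ := frc a fun a => Nat.add a (Nat.sub b a)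

def ky (p q i r : ℕ) (k : ℕ → Bool) : Bool :=
  iff (Nat.beq i p) (frc r k) (an (Nat.beq i q) (frc (Nat.add 3 r) k))

def allP (p : Po) : Bool :=
  @Po.rec (fun _ => Bool) true (fun g c m _ ih => an (orr (nt g) (Nat.beq (Nat.mul c m) 0)) ih) p

def isQ (A : Atom) (k : Po → Bool) : Bool :=
  @Atom.rec (fun _ => Bool) (fun _ _ => false) (fun _ _ _ => false) (fun _ => false) (fun _ _ _ _ _ => false) k A

def rdL (w n : ℕ) : ℕ → (Po → ℕ → Bool) → Bool :=
  @Nat.rec (fun _ => ℕ → (Po → ℕ → Bool) → Bool) (fun h k => k nil h)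
    (fun _ ih h k => dg h fun a h => dg h fun b h => ih h fun q h => frc (Nat.add a (Nat.mul 16777216 b)) fun u =>
      frb (bit u) fun g => frc (Nat.mod (Nat.div u 2) (Nat.shiftLeft 1 w)) fun c =>
        frc (Nat.shiftRight u (Nat.succ w)) fun m => k (cons g c m q) h) n

abbrev TK : Type := ℕ → Po → ℕ → ℕ → ℕ → ℕ → ℕ → Bool

abbrev OF : Type := ℕ → (Bool → Bool → ℕ → Bool) → Bool

def fkT (k : TK) (P : ℕ) (G : Po) (r u l h o : ℕ) : Bool :=
  frc P fun P => frp G fun G => frc r fun r => frc u fun u => frc l fun l => frc h fun h => frc o fun o =>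
    k P G r u l h o

section
variable (tb : ℕ → Atom) (mem : ℕ → Bool) (L H Z : ℕ → ℕ) (p q : ℕ)

/-- bound of a linear form times the deviation `j` -/
def cr (up : Bool) (j a b : ℕ) (G : Po) : ℕ :=
  @Po.rec (fun _ => ℕ) 0 (fun g c i _ r => frc (Nat.sub (Z i) (L i)) fun x => frc (Nat.sub (H i) (Z i)) fun y =>
    Nat.add (Nat.mul c (iff (xr g up) (mxN (Nat.mul a x) (Nat.mul b y))
      (iff (Nat.beq i j) 0 (mxN (Nat.mul a y) (Nat.mul b x))))) r) G

def lw (G : Po) : ℕ :=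
  @Po.rec (fun _ => ℕ) 0 (fun g c i _ r =>
    Nat.add (Nat.mul c (iff g (Nat.sub (H i) (Z i)) (Nat.sub (Z i) (L i)))) r) G

/-- value, gradient, remainder and range of a product -/
def tm (n : ℕ) : ℕ → TK → Bool :=
  @Nat.rec (fun _ => ℕ → TK → Bool) (fun m k => an (Nat.beq m 0) (k 1 nil 0 0 1 1 0))
    (fun n ih m k => iff (Nat.beq m 0) (frc (Nat.pow 16777216 (Nat.succ n)) fun S => k S nil 0 0 S S 0)
      (frc (Nat.sub (Nat.mod m 512) 1) fun d => frc (Nat.div m 512) fun m => ih m fun P G r u l h o =>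
        iff (lt 2 (Nat.mod d 16))
          (an (Nat.beq o 0) (fkT k (Nat.mul 16777216 P) (scl false 16777216 G) (Nat.mul 16777216 r)
            (Nat.mul 16777216 u) (Nat.mul 16777216 l) (Nat.mul 16777216 h) (Nat.succ d)))
          (ky p q (Nat.div d 16) (Nat.mod d 16) fun j => frc (Z j) fun z => frc (H j) fun y => frc (L j) fun x =>
            frc (Nat.sub z x) fun a => frc (Nat.sub y z) fun b =>
              fkT k (Nat.mul z P) (add (scl false z G) (cons false P j nil))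
                (Nat.add (Nat.mul r y) (cr L H Z false j a b G)) (Nat.add (Nat.mul u y) (cr L H Z true j a b G))
                (Nat.mul l x) (Nat.mul h y) o))) n

def lop (f : OF) (w : ℕ) (g0 : Bool) (c0 : ℕ) (t : Po) : ℕ → ℕ → Po → Po → (ℕ → ℕ → Po → Po → Bool) → Bool :=
  @Po.rec (fun _ => ℕ → ℕ → Po → Po → (ℕ → ℕ → Po → Po → Bool) → Bool) (fun x y A B k => k x y A B)
    (fun g c m _ ih x y A B k => tm L H Z p q w m fun P G r u l h o => f o fun g1 g3 M =>
      frb (xr g0 g) fun g => frc (Nat.mul c0 c) fun c => frb (xr g g1) fun s => frc (Nat.mul c M) fun e =>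
        frb (xr g g3) fun t => frc (iff s x (Nat.add x (Nat.mul e P))) fun x =>
          frc (Nat.add y (Nat.mul e (iff s (Nat.add P u) r))) fun y => frp (add A (scl s e G)) fun A =>
            frp (add B (cons t (Nat.mul c (iff t h l)) o nil)) fun B => ih x y A B k) t

def gL (w h : ℕ) (k : Po → ℕ → Bool) : Bool :=
  dg h fun t h => iff (lt t 32) (rdL w t h k) (isQ (tb (Nat.sub t 32)) fun Q => k Q h)

def lists (f : OF) (w n : ℕ) : ℕ → ℕ → Po → Po → ℕ → Bool :=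
  @Nat.rec (fun _ => ℕ → ℕ → Po → Po → ℕ → Bool)
    (fun x y A B _ => an (allP B) (lt (Nat.add y (lw L H Z A)) x))
    (fun _ ih x y A B h => dg h fun t h => gL tb (Nat.div t 65536) h fun Q h => frb (bit t) fun g =>
      frc (Nat.mod (Nat.div t 2) 32768) fun c => der tb mem p q (sgP g (nrm Q)) false h fun h =>
        lop L H Z p q f w g c Q x y A B fun x y A B => ih x y A B h) n

/-- one-sided bounds of the offsets -/
def offs (k : OF → ℕ → Bool) (n : ℕ) : OF → ℕ → Bool :=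
  @Nat.rec (fun _ => OF → ℕ → Bool) k
    (fun _ ih f h => dg h fun t h => dg h fun M h => frc (Nat.mul 1024 M) fun M => frc (Nat.div t 2) fun n =>
      an (ok9 n) (ky p q (Nat.div n 32) 1 fun j => frb (bit n) fun g =>
        frc (Nat.succ (Nat.add (Nat.mul 16 (Nat.div n 32)) (Nat.mod (Nat.div n 2) 16))) fun d =>
          iff (bit t) (dg h fun l h => lbP tb mem n l h fun T h =>
              an (Nat.ble (Nat.mul 281474976710656 M) (Nat.mul T (L j)))
                (ih (fun o k => iff (Nat.beq o d) (k g g M) (f o k)) h))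
            (ubV tb mem n h fun T h => an (Nat.ble (Nat.mul T (H j)) (Nat.mul 281474976710656 M))
              (ih (fun o k => iff (Nat.beq o d) (frb (nt g) fun u => k g u M) (f o k)) h)))) n

def box (h : ℕ) (k : ℕ → ℕ → ℕ → ℕ → ℕ → ℕ → ℕ → ℕ → ℕ → ℕ → Bool) : Bool :=
  tanL tb mem p h fun a b h => tanU tb mem p h fun c d h => dg h fun s h => dg h fun w h =>
    frc (Nat.sub 16777216 d) fun x => frc (Nat.sub 16777216 b) fun y => frc (Nat.sub 16777216 w) fun z =>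
      k a x b c y d s z w h

/-- the checker of linear relaxations -/
def chkLin (h : ℕ) : Bool :=
  dg h fun t h => frc (Nat.mod t 32) fun p => frc (Nat.mod (Nat.div t 32) 32) fun q => an (lt p 26) (an (lt q 26)
    (box tb mem p h fun a b c d e f x y z h => box tb mem q h fun a' b' c' d' e' f' x' y' z' h =>
      offs tb mem (sel a b c a' b' c') (sel d e f d' e' f') p q
        (fun O h => lists tb mem (sel a b c a' b' c') (sel d e f d' e' f') (sel x y z x' y' z') p q O 4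
          (Nat.div t 8192) 0 0 nil nil h)
        (Nat.mod (Nat.div t 1024) 8) (fun o k => an (Nat.beq o 0) (k false false 16777216)) h))

end

/-- the scaled angle symbols of the two pieces -/
def XV (K : Cfg) (p q : ℕ) : ℕ → ℝ :=
  sel (K.sy p 0 * 16777216) (K.sy p 1 * 16777216) (K.sy p 2 * 16777216) (K.sy q 0 * 16777216)
    (K.sy q 1 * 16777216) (K.sy q 2 * 16777216)

def OV (K : Cfg) (o : ℕ) : ℝ := if o = 0 then 1 else K.sy ((o - 1) / 16) ((o - 1) % 16)

variable {K : Cfg} {tb : ℕ → Atom} {mem : ℕ → Bool} {L H Z : ℕ → ℕ} {p q : ℕ}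

theorem ev_scl {v : ℕ → ℝ} (g : Bool) (c : ℕ) (G : Po) : ev v (scl g c G) = sg g c * ev v G := by
  induction G with
  | nil => exact (mul_zero _).symm
  | cons h d n t ih =>
    change ev v (cons (xr g h) (c * d) n (scl g c t)) = _
    rw [ev_cons, ev_cons, ih, Nat.cast_mul, sg_xr]
    ring

theorem mx_s (a b : ℕ) : (a : ℝ) ≤ mxN a b ∧ (b : ℝ) ≤ mxN a b :=
  ⟨Nat.cast_le.2 (Nat.le_add_right a (b - a)), Nat.cast_le.2 (by change b ≤ a + (b - a); omega)⟩

theorem ky_s {i r : ℕ} (hr : r < 3) {k : ℕ → Bool} (e : ky p q i r k = true) :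
    ∃ j, XV K p q j = K.sy i r * 16777216 ∧ k j = true := by
  obtain ⟨a, e⟩ | ⟨-, e⟩ := iff_s e
  · refine ⟨r, ?_, e⟩
    rw [Nat.eq_of_beq_eq_true a]
    interval_cases r <;> rfl
  · obtain ⟨a, e⟩ := (an_eq _ _).1 e
    refine ⟨_, ?_, e⟩
    rw [Nat.eq_of_beq_eq_true a]
    interval_cases r <;> rfl

theorem allP_s {v : ℕ → ℝ} (h : ∀ o, 0 ≤ v o) (z : v 0 = 0) (G : Po) (e : allP G = true) : 0 ≤ ev v G := by
  induction G with
  | nil => exact le_rfl
  | cons g c m t ih =>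
    obtain ⟨a, e⟩ := (an_eq _ _).1 e
    rw [ev_cons]
    refine add_nonneg ?_ (ih e)
    obtain a | a := (orr_eq _ _).1 a
    · rw [nt_t a]
      exact mul_nonneg (Nat.cast_nonneg c) (h m)
    · obtain a | a := Nat.mul_eq_zero.1 (Nat.eq_of_beq_eq_true a)
      · rw [a]; cases g <;> simp [sg]
      · rw [a, z, mul_zero]

theorem rdL_s {w : ℕ} (n : ℕ) : ∀ h k, rdL w n h k = true → ∃ Q h, k Q h = true := by
  induction n with
  | zero => exact fun h k e => ⟨nil, h, e⟩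
  | succ n ih =>
    intro h k e
    obtain ⟨a, h, e⟩ := dg_s e
    obtain ⟨b, h, e⟩ := dg_s e
    obtain ⟨Q, h, e⟩ := ih _ _ e
    obtain ⟨u, -, e⟩ := frc_s e
    rw [frb_eq] at e
    obtain ⟨c, -, e⟩ := frc_s e
    obtain ⟨m, -, e⟩ := frc_s e
    exact ⟨_, h, e⟩

theorem gL_s {w h : ℕ} {k : Po → ℕ → Bool} (e : gL tb w h k = true) : ∃ Q h, k Q h = true := by
  obtain ⟨t, h, e⟩ := dg_s e
  obtain ⟨-, e⟩ | ⟨-, e⟩ := iff_s e
  · exact rdL_s _ _ _ e
  · generalize tb (Nat.sub t 32) = A at e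
    cases A
    case poly => exact ⟨_, h, e⟩
    all_goals exact absurd e Bool.false_ne_true

theorem fk_s {k : TK} {P : ℕ} {G : Po} {r u l h o : ℕ} (e : fkT k P G r u l h o = true) :
    k P G r u l h o = true := by
  rw [fkT, frc_eq, frp_eq] at e
  exact e

theorem prd {x y a b c d : ℝ} (h1 : -a ≤ x) (h2 : x ≤ b) (h3 : -c ≤ y) (h4 : y ≤ d) (a0 : 0 ≤ a) (b0 : 0 ≤ b)
    (c0 : 0 ≤ c) {m : ℝ} (e : a * c ≤ m) (f : b * d ≤ m) : x * y ≤ m := by
  rcases le_total 0 x with s | s <;> rcases le_total 0 y with t | t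
  · exact (mul_le_mul h2 h4 t b0).trans f
  · exact (mul_nonpos_of_nonneg_of_nonpos s t).trans ((mul_nonneg a0 c0).trans e)
  · exact (mul_nonpos_of_nonpos_of_nonneg s t).trans ((mul_nonneg a0 c0).trans e)
  · have := mul_le_mul (show -x ≤ a by linarith) (show -y ≤ c by linarith) (by linarith) a0
    linarith

section
variable {X : ℕ → ℝ} (hX : ∀ j, (L j : ℝ) ≤ X j ∧ X j ≤ H j)
include hX

theorem dev (i : ℕ) : -((Nat.sub (Z i) (L i) : ℕ) : ℝ) ≤ X i - Z i ∧ X i - Z i ≤ (Nat.sub (H i) (Z i) : ℕ) :=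
  ⟨by linarith [sub_ge (Z i) (L i), (hX i).1], by linarith [sub_ge (H i) (Z i), (hX i).2]⟩

theorem cr_s (up : Bool) (j : ℕ) (G : Po) : sg (nt up) (ev (fun i => X i - Z i) G * (X j - Z j)) ≤
    cr L H Z up j (Nat.sub (Z j) (L j)) (Nat.sub (H j) (Z j)) G := by
  obtain ⟨j1, j2⟩ := dev (Z := Z) hX j
  generalize Nat.sub (Z j) (L j) = a at *
  generalize Nat.sub (H j) (Z j) = b at *
  induction G with
  | nil => rw [ev_nil, zero_mul]; cases up <;> simp [sg, nt, xr]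
  | cons g c i t ih =>
    obtain ⟨i1, i2⟩ := dev (Z := Z) hX i
    change _ ≤ ((c * iff (xr g up) (mxN (a * Nat.sub (Z i) (L i)) (b * Nat.sub (H i) (Z i)))
      (iff (Nat.beq i j) 0 (mxN (a * Nat.sub (H i) (Z i)) (b * Nat.sub (Z i) (L i)))) + cr L H Z up j a b t : ℕ) : ℝ)
    generalize Nat.sub (Z i) (L i) = x at *
    generalize Nat.sub (H i) (Z i) = y at *
    have u : (X j - Z j) * (X i - Z i) ≤ mxN (a * x) (b * y) :=
      prd j1 j2 i1 i2 a.cast_nonneg b.cast_nonneg x.cast_nonneg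
        (by rw [← Nat.cast_mul]; exact (mx_s _ _).1) (by rw [← Nat.cast_mul]; exact (mx_s _ _).2)
    have l : (X j - Z j) * -(X i - Z i) ≤ (iff (Nat.beq i j) 0 (mxN (a * y) (b * x)) : ℕ) := by
      cases w : Nat.beq i j
      · exact prd j1 j2 (c := y) (d := x) (by linarith) (by linarith) a.cast_nonneg b.cast_nonneg y.cast_nonneg
          (by rw [← Nat.cast_mul]; exact (mx_s _ _).1) (by rw [← Nat.cast_mul]; exact (mx_s _ _).2)
      · rw [Nat.eq_of_beq_eq_true w, iff_t, Nat.cast_zero]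
        nlinarith [mul_self_nonneg (X j - Z j)]
    have u := mul_le_mul_of_nonneg_left u c.cast_nonneg
    have l := mul_le_mul_of_nonneg_left l c.cast_nonneg
    rw [ev_cons, Nat.cast_add, Nat.cast_mul]
    cases g <;> cases up <;> simp only [sg, nt, xr, cond_true, cond_false, iff_t, iff_f] at ih ⊢ <;> linarith

theorem lw_s (G : Po) : -ev (fun i => X i - Z i) G ≤ lw L H Z G := by
  induction G with
  | nil => rw [ev_nil, neg_zero]; exact Nat.cast_nonneg _
  | cons g c i t ih =>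
    obtain ⟨i1, i2⟩ := dev (Z := Z) hX i
    change _ ≤ ((c * iff g (Nat.sub (H i) (Z i)) (Nat.sub (Z i) (L i)) + lw L H Z t : ℕ) : ℝ)
    have u := mul_le_mul_of_nonneg_left i1 c.cast_nonneg
    have l := mul_le_mul_of_nonneg_left i2 c.cast_nonneg
    rw [ev_cons, Nat.cast_add, Nat.cast_mul]
    cases g <;> simp only [sg, cond_true, cond_false, iff_t, iff_f] <;> linarith

end

theorem trm_z (V : Valid K) (f : ℕ) : ev K.v (trm f 0) = 1 := by
  have : ev K.v (cst false 1) = 1 := by rw [ev_cst V.hom]; simp [sg]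
  cases f <;> exact this

theorem trm_s (V : Valid K) (f : ℕ) {m : ℕ} (h : Nat.beq m 0 = false) : ev K.v (trm (f + 1) m) =
    K.sy ((m % 512 - 1) / 16) ((m % 512 - 1) % 16) * ev K.v (trm f (m / 512)) := by
  change ev K.v (iff (Nat.beq m 0) _ _) = _
  rw [h, iff_f, frc_eq, ev_mul V.hom]
  rfl

section
variable (V : Valid K) (hX : ∀ j, (L j : ℝ) ≤ XV K p q j ∧ XV K p q j ≤ H j)
include V hX

theorem tm_s (n : ℕ) : ∀ f, n ≤ f → ∀ m k, tm L H Z p q n m k = true → ∃ (P : ℕ) (G : Po) (r u l h o : ℕ) (N : ℝ),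
    ev K.v (trm f m) * 16777216 ^ n = N * OV K o ∧ l ≤ N ∧ N ≤ h ∧
      -(r : ℝ) ≤ N - P - ev (fun i => XV K p q i - Z i) G ∧ N - P - ev (fun i => XV K p q i - Z i) G ≤ u ∧
        k P G r u l h o = true := by
  induction n with
  | zero =>
    intro f _ m k e
    obtain ⟨a, e⟩ := (an_eq _ _).1 e
    refine ⟨1, nil, 0, 0, 1, 1, 0, 1, ?_, ?_, ?_, ?_, ?_, e⟩
    · rw [Nat.eq_of_beq_eq_true a, trm_z V]; simp [OV]
    all_goals simp [ev_nil]
  | succ n ih =>
    intro f hf m k e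
    obtain ⟨f, rfl⟩ : ∃ g, f = g + 1 := ⟨f - 1, by omega⟩
    obtain ⟨a, e⟩ | ⟨a, e⟩ := iff_s e
    · obtain ⟨S, i, e⟩ := frc_s e
      have i : (S : ℝ) = 16777216 ^ (n + 1) := by rw [i, Nat.pow_eq, Nat.cast_pow]; rfl
      refine ⟨S, nil, 0, 0, S, S, 0, S, ?_, le_rfl, le_rfl, ?_, ?_, e⟩
      · rw [Nat.eq_of_beq_eq_true a, trm_z V, i]; simp [OV]
      all_goals simp [ev_nil]
    obtain ⟨d, i, e⟩ := frc_s e
    obtain ⟨m', rfl, e⟩ := frc_s e
    obtain ⟨P, G, r, u, l, h, o, N, e1, e2, e3, e4, e5, e⟩ := ih f (by omega) _ _ e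
    rw [trm_s V f a]
    change d = m % 512 - 1 at i
    change ev K.v (trm f (m / 512)) * _ = _ at e1
    rw [← i, pow_succ]
    obtain ⟨-, e⟩ | ⟨b, e⟩ := iff_s e
    · obtain ⟨b, e⟩ := (an_eq _ _).1 e
      refine ⟨_, _, _, _, _, _, _, 16777216 * N, ?_, ?_, ?_, ?_, ?_, fk_s e⟩
      · rw [Nat.eq_of_beq_eq_true b, OV, if_pos rfl] at e1
        rw [OV, if_neg (Nat.succ_ne_zero d), Nat.succ_sub_one]
        linear_combination K.sy (d / 16) (d % 16) * 16777216 * e1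
      all_goals simp only [Nat.mul_eq, Nat.cast_mul, Nat.cast_ofNat, ev_scl, sg, cond_false]; linarith
    · have b : d % 16 < 3 := by
        have : ¬ 2 < d % 16 := fun c => Bool.false_ne_true (b.symm.trans ((lt_eq _ _).2 c))
        omega
      obtain ⟨j, x, e⟩ := ky_s (K := K) b e
      change _ = K.sy (d / 16) (d % 16) * _ at x
      obtain ⟨x1, x2⟩ := hX j
      have c1 := cr_s (Z := Z) hX false j G
      have c2 := cr_s (Z := Z) hX true j G
      have x0 : 0 ≤ XV K p q j := (L j).cast_nonneg.trans x1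
      refine ⟨_, _, _, _, _, _, _, N * XV K p q j, ?_, ?_, ?_, ?_, ?_, fk_s e⟩
      · rw [x]
        linear_combination K.sy (d / 16) (d % 16) * 16777216 * e1
      · rw [Nat.mul_eq, Nat.cast_mul]
        exact mul_le_mul e2 x1 (L j).cast_nonneg (l.cast_nonneg.trans e2)
      · rw [Nat.mul_eq, Nat.cast_mul]
        exact mul_le_mul e3 x2 x0 h.cast_nonneg
      all_goals
        simp only [Nat.mul_eq, Nat.add_eq, Nat.cast_mul, Nat.cast_add, ev_add, ev_cons, ev_nil, ev_scl, sg, nt, xr,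
          cond_false, cond_true] at c1 c2 ⊢
      · nlinarith [mul_le_mul_of_nonneg_right e4 x0, mul_le_mul_of_nonneg_left x2 r.cast_nonneg]
      · nlinarith [mul_le_mul_of_nonneg_right e5 x0, mul_le_mul_of_nonneg_left x2 u.cast_nonneg]

variable {f : OF} {E : ℕ → ℝ} (E0 : ∀ o, 0 ≤ E o)
  (hf : ∀ o k, f o k = true → ∃ (g s : Bool) (M : ℕ), OV K o * 16777216 = sg g M + sg s (E o) ∧ k g s M = true)
include E0 hf

theorem lop_s {w : ℕ} (hw : w ≤ 16) (g0 : Bool) (c0 : ℕ) (t : Po) : ∀ (x y : ℕ) (A B : Po) k,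
    lop L H Z p q f w g0 c0 t x y A B k = true →
    ∃ (x' y' : ℕ) (A' B' : Po), (x' : ℝ) - y' + ev (fun i => XV K p q i - Z i) A' + ev E B' ≤
      x - y + ev (fun i => XV K p q i - Z i) A + ev E B + sg g0 c0 * ev K.v (nrm t) * 16777216 ^ (w + 1) ∧
        k x' y' A' B' = true := by
  induction t with
  | nil => exact fun x y A B k e => ⟨x, y, A, B, by rw [show nrm nil = nil from rfl, ev_nil, mul_zero, zero_mul, add_zero], e⟩
  | cons g c m t ih =>
    intro x y A B k e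
    obtain ⟨P, G, r, u, l, h, o, N, e1, e2, e3, e4, e5, e⟩ := tm_s V hX w 16 hw _ _ e
    obtain ⟨g1, g3, M, a, e⟩ := hf _ _ e
    rw [frb_eq, frc_eq, frb_eq, frc_eq, frb_eq, frc_eq, frc_eq, frp_eq, frp_eq] at e
    obtain ⟨x', y', A', B', b, e⟩ := ih _ _ _ _ _ e
    refine ⟨x', y', A', B', b.trans ?_, e⟩
    change _ ≤ _ + _ * ev K.v (add (mulT g c 1 (trm 16 m)) (nrm t)) * _
    rw [ev_add (mulT _ _ _ _), ev_mulT V.hom, V.hom.one, ev_add, ev_add, ev_scl, ev_cons, ev_nil]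
    have w : sg g0 (c0 : ℝ) * (sg g c * 1 * ev K.v (trm 16 m)) * 16777216 ^ (w + 1) =
        sg (xr g0 g) (Nat.mul c0 c : ℕ) * N * (sg g1 M + sg g3 (E o)) := by
      rw [Nat.mul_eq, Nat.cast_mul, sg_xr, ← a]
      linear_combination sg g0 (c0 : ℝ) * sg g c * 16777216 * e1
    rw [mul_add, add_mul, w]
    generalize xr g0 g = s
    generalize Nat.mul c0 c = d
    have n1 := mul_nonneg d.cast_nonneg M.cast_nonneg (α := ℝ)
    have n2 := mul_nonneg d.cast_nonneg (E0 o)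
    have k2 := mul_le_mul_of_nonneg_left e2 n2
    have k3 := mul_le_mul_of_nonneg_left e3 n2
    have k4 := mul_le_mul_of_nonneg_left e4 n1
    have k5 := mul_le_mul_of_nonneg_left e5 n1
    cases s <;> cases g1 <;> cases g3 <;> simp only [Nat.mul_eq, Nat.add_eq, Nat.cast_mul, Nat.cast_add, sg, xr,
      cond_false, cond_true, iff_t, iff_f] <;> linarith

theorem lists_s {w : ℕ} (hw : w ≤ 16) (N : NC K tb mem) (hp : p < 26) (hq : q < 26) (z : E 0 = 0) (n : ℕ) : ∀ (x y : ℕ) (A B : Po) h,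
    (x : ℝ) - y + ev (fun i => XV K p q i - Z i) A + ev E B ≤ 0 → lists tb mem L H Z p q f w n x y A B h = true →
      False := by
  induction n with
  | zero =>
    intro x y A B h a e
    obtain ⟨b, e⟩ := (an_eq _ _).1 e
    have e : ((y + lw L H Z A : ℕ) : ℝ) < x := Nat.cast_lt.2 ((lt_eq _ _).1 e)
    rw [Nat.cast_add] at e
    linarith [allP_s E0 z B b, lw_s (Z := Z) hX A]
  | succ n ih =>
    intro x y A B h a e
    obtain ⟨t, h, e⟩ := dg_s e
    obtain ⟨Q, h, e⟩ := gL_s e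
    rw [frb_eq] at e
    obtain ⟨c, -, e⟩ := frc_s e
    obtain ⟨b, h, e⟩ := der_s V N hp hq e
    obtain ⟨x', y', A', B', d, e⟩ := lop_s V hX E0 hf hw _ _ _ _ _ _ _ _ e
    refine ih _ _ _ _ h (d.trans (add_nonpos a (mul_nonpos_of_nonpos_of_nonneg ?_ (by positivity)))) e
    have b : sg (bit t) (ev K.v (nrm Q)) ≤ 0 := by rw [← ev_sgP]; exact b
    have := mul_nonpos_of_nonneg_of_nonpos c.cast_nonneg b
    cases hb : bit t <;> rw [hb] at this <;> simp only [sg, cond_true, cond_false] at this ⊢ <;> linarith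

end

/-- the table of offsets is sound -/
def Fo (K : Cfg) (f : OF) : Prop := ∃ E : ℕ → ℝ, (∀ o, 0 ≤ E o) ∧ E 0 = 0 ∧
  ∀ o k, f o k = true → ∃ (g s : Bool) (M : ℕ), OV K o * 16777216 = sg g M + sg s (E o) ∧ k g s M = true

theorem Fo.up {f : OF} (F : Fo K f) {d M : ℕ} (d0 : d ≠ 0) {g s : Bool} (a : 0 ≤ sg s (OV K d * 16777216 - sg g M))
    {r : (Bool → Bool → ℕ → Bool) → Bool} (hr : ∀ k, r k = k g s M) :
    Fo K fun o k => iff (Nat.beq o d) (r k) (f o k) := by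
  obtain ⟨E, E0, z, hf⟩ := F
  refine ⟨fun o => if o = d then sg s (OV K d * 16777216 - sg g M) else E o, fun o => ?_, ?_, fun o k e => ?_⟩ <;>
    beta_reduce
  · split_ifs
    exacts [a, E0 o]
  · rw [if_neg d0.symm, z]
  · obtain ⟨b, e⟩ | ⟨b, e⟩ := iff_s e
    · refine ⟨g, s, M, ?_, hr k ▸ e⟩
      rw [Nat.eq_of_beq_eq_true b, if_pos rfl]
      cases s <;> simp [sg]
    · rw [if_neg (Nat.ne_of_beq_eq_false b)]
      exact hf o k e

theorem offs_s (V : Valid K) (hX : ∀ j, (L j : ℝ) ≤ XV K p q j ∧ XV K p q j ≤ H j) (N : NC K tb mem)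
    {k : OF → ℕ → Bool} (n : ℕ) : ∀ f h, Fo K f → offs tb mem L H p q k n f h = true →
      ∃ f h, Fo K f ∧ k f h = true := by
  induction n with
  | zero => exact fun f h F e => ⟨f, h, F, e⟩
  | succ n ih =>
    intro f h F e
    obtain ⟨t, h, e⟩ := dg_s e
    obtain ⟨M, h, e⟩ := dg_s e
    obtain ⟨M, -, e⟩ := frc_s e
    obtain ⟨n, -, e⟩ := frc_s e
    obtain ⟨a, e⟩ := (an_eq _ _).1 e
    obtain ⟨j, x, e⟩ := ky_s (K := K) (by decide) e
    rw [frb_eq] at e
    obtain ⟨d, i, e⟩ := frc_s e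
    change d = 16 * (n / 32) + n / 2 % 16 + 1 at i
    change _ = K.sy (n / 32) 1 * _ at x
    obtain ⟨c0, u, v⟩ := ok9_s V a
    have o : ev K.v (sgO n) = sg (bit n) (OV K d) := by
      rw [OV, if_neg (by omega), show (d - 1) / 16 = n / 32 by omega, show (d - 1) % 16 = n / 2 % 16 by omega]
      exact ev_sgP _ _
    obtain ⟨x1, x2⟩ := hX j
    rw [o] at u v
    rw [x] at x1 x2
    obtain ⟨-, e⟩ | ⟨-, e⟩ := iff_s e
    · obtain ⟨l, h, e⟩ := dg_s e
      obtain ⟨T, b, c, e⟩ := lbP_s N e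
      obtain ⟨w, e⟩ := (an_eq _ _).1 e
      have w := ble_s w
      rw [Nat.mul_eq, Nat.mul_eq, Nat.cast_mul, Nat.cast_mul, Nat.cast_ofNat] at w
      refine ih _ h (F.up (by omega) ?_ fun _ => rfl) e
      have := mul_le_mul c x1 (L j).cast_nonneg (T.cast_nonneg.trans c)
      have v := v b
      cases hb : bit n <;> rw [hb] at v <;> simp only [sg, cond_true, cond_false] at v ⊢ <;> nlinarith
    · obtain ⟨T, h, c, e⟩ := ubV_s V N e
      obtain ⟨w, e⟩ := (an_eq _ _).1 e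
      have w := ble_s w
      rw [Nat.mul_eq, Nat.mul_eq, Nat.cast_mul, Nat.cast_mul, Nat.cast_ofNat] at w
      refine ih _ h (F.up (by omega) ?_ fun _ => frb_eq _ _) e
      have := mul_le_mul c x2 (by positivity) T.cast_nonneg
      cases hb : bit n <;> rw [hb] at u <;> simp only [sg, nt, xr, cond_true, cond_false] at u ⊢ <;> nlinarith

theorem box_s (V : Valid K) (N : NC K tb mem) (hp : p < 26) {h : ℕ}
    {k : ℕ → ℕ → ℕ → ℕ → ℕ → ℕ → ℕ → ℕ → ℕ → ℕ → Bool} (e : box tb mem p h k = true) :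
    ∃ (a b c d e f x y z h : ℕ), ((a ≤ K.sy p 0 * 16777216 ∧ K.sy p 0 * 16777216 ≤ d) ∧
      (b ≤ K.sy p 1 * 16777216 ∧ K.sy p 1 * 16777216 ≤ e) ∧ (c ≤ K.sy p 2 * 16777216 ∧ K.sy p 2 * 16777216 ≤ f)) ∧
        k a b c d e f x y z h = true := by
  obtain ⟨a, b, h, a1, a2, e⟩ := tanL_s V N hp e
  obtain ⟨c, d, h, a3, a4, e⟩ := tanU_s V N hp e
  obtain ⟨s, h, e⟩ := dg_s e
  obtain ⟨w, h, e⟩ := dg_s e
  obtain ⟨x, i, e⟩ := frc_s e
  obtain ⟨y, j, e⟩ := frc_s e
  obtain ⟨z, -, e⟩ := frc_s e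
  have u := ev_cP V.hom p
  have v := sub_ge 16777216 b
  rw [← j, Nat.cast_ofNat] at v
  refine ⟨a, x, b, c, y, d, s, z, w, h, ⟨⟨a1, a3⟩, ⟨?_, by linarith⟩, a2, a4⟩, e⟩
  rcases le_total d 16777216 with r | r
  · rw [i, Nat.sub_eq, Nat.cast_sub r, Nat.cast_ofNat]
    linarith
  · rw [i, Nat.sub_eq, Nat.sub_eq_zero_of_le r, Nat.cast_zero]
    linarith [(V.cpos hp).1]

theorem chkLin_s {h : ℕ} (e : chkLin tb mem h = true) : Univ tb mem := univ_of fun K V N => by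
  obtain ⟨t, h, e⟩ := dg_s e
  obtain ⟨p, -, e⟩ := frc_s e
  obtain ⟨q, -, e⟩ := frc_s e
  obtain ⟨hp, e⟩ := (an_eq _ _).1 e
  obtain ⟨hq, e⟩ := (an_eq _ _).1 e
  rw [lt_eq] at hp hq
  obtain ⟨a, b, c, d, e', f, x, y, z, h, ⟨a1, a2, a3⟩, e⟩ := box_s V N hp e
  obtain ⟨a', b', c', d', e'', f', x', y', z', h, ⟨b1, b2, b3⟩, e⟩ := box_s V N hq e
  have hX : ∀ j, ((sel a b c a' b' c' j : ℕ) : ℝ) ≤ XV K p q j ∧ XV K p q j ≤ (sel d e' f d' e'' f' j : ℕ) := fun j => by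
    unfold XV sel
    cases lt j 3 <;> cases Nat.beq j 0 <;> cases Nat.beq j 1 <;> cases Nat.beq j 3 <;> cases Nat.beq j 4 <;>
      assumption
  obtain ⟨F, h, ⟨E, E0, E1, hf⟩, e⟩ := offs_s V hX N _ _ h ⟨fun _ => 0, fun _ => le_rfl, rfl, fun o k e => by
    obtain ⟨u, e⟩ := (an_eq _ _).1 e
    exact ⟨false, false, _, by rw [Nat.eq_of_beq_eq_true u]; simp [OV, sg], e⟩⟩ e
  exact lists_s V hX E0 hf (by decide) N hp hq E1 _ 0 0 nil nil h (by simp [ev_nil]) e

end

end Pool.Agent.P.MP_53fdf1_co.R.Ln
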