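import Pool.Agent.P.MP_53fdf1_co.RSym

set_option autoImplicit false

namespace Pool.Agent.P.MP_53fdf1_co.R

open Po

noncomputable section

def c64 : Po := cst false 64

def gX (k j : ℕ) : Po := sub (cst false (gq k j)) (cst false 256)

/-- the shifted coordinate `q` has a depth between 0 and 1 beyond a face -/
def dpt (b : Bool) (q : ℕ) : Bool := iff b (an (lt 320 q) (lt q 384)) (an (lt 192 q) (lt q 256))

section
variable (tb : ℕ → Atom) (mem : ℕ → Bool)

/-- a negated point literal -/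
def gI (h : ℕ) (k : ℕ → ℕ → ℕ → Bool) : Bool := gS tb mem h fun a _ s h => an (an (lt a 26) (lt 13 s)) (k a s h)

def cDef (h : ℕ) : Bool :=
  gF tb mem h fun a φ h => dg h fun l h => an (mem l) (an (nt (bit l)) (isS (tb (Nat.div l 2)) fun a' b' s =>
    an (an (an (Nat.beq a' a) (Nat.beq b' a)) (an (an (lt 13 s) (lt φ 48))
      (an (Nat.beq (labC φ) (Nat.mod s 8)) (isZ (zP φ (gX s) c64)))))
    (frp (hxP (vA φ) c64 (gX s (aN φ))) fun x => frp (hyP (vO φ) c64 (gX s (bN φ))) fun y =>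
      der tb mem a a (lsP a φ false false x y c64) true h fun h =>
      der tb mem a a (lsP a φ false true x y c64) true h fun h =>
      der tb mem a a (lsP a φ true false x y c64) true h fun h =>
      der tb mem a a (lsP a φ true true x y c64) true h ok)))

def cRev (h : ℕ) : Bool :=
  gI tb mem h fun a s h => gF tb mem h fun a' φ h => an (Nat.beq a' a)
    (dg h fun t h => der tb mem a a (neg (sdP a φ t (gX s) c64)) false h ok)

def flagsF (i F n : ℕ) : ℕ → Bool :=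
  @Nat.rec (fun _ => ℕ → Bool) ok
    (fun φ ih h => iff (an (Nat.beq (labC φ) F) (okF i φ)) (hF tb mem i φ h ih) (ih h)) n

def cFace (h : ℕ) : Bool := gI tb mem h fun a s h => frc (Nat.mod s 8) fun F => flagsF tb mem a F 48 h

def cDis (h : ℕ) : Bool :=
  gI tb mem h fun a s h => gI tb mem h fun b t _ => an (nt (Nat.beq a b)) (orr (Nat.beq s t)
    (frc (Nat.div (Nat.mod s 8) 2) fun f => frc (Nat.div (Nat.mod t 8) 2) fun g =>
      an (an (nt (Nat.beq f g)) (Nat.beq (gq s (Nat.sub 3 (Nat.add f g))) (gq t (Nat.sub 3 (Nat.add f g)))))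
        (an (dpt (bit t) (gq s g)) (dpt (bit s) (gq t f)))))

def cHsep (h : ℕ) : Bool :=
  gF tb mem h fun a φ h => gI tb mem h fun b s h => gS tb mem h fun a' b' k h =>
    an (iff (lt k 4) (an (Nat.beq a' a) (Nat.beq b' b)) (an (lt k 8) (an (Nat.beq a' b) (Nat.beq b' a))))
      (der tb mem a a (sdP a φ (Nat.mod k 4) (gX s) c64) true h ok)

def cHord (h : ℕ) : Bool :=
  gF tb mem h fun a φ h => gI tb mem h fun b s h => gS tb mem h fun a' b' k h => dg h fun ψ h =>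
    an (an (an (an (lt 7 k) (lt k 14)) (orr (an (Nat.beq a' a) (Nat.beq b' b)) (an (Nat.beq a' b) (Nat.beq b' a))))
      (an (an (lt ψ 48) (Nat.beq (labC ψ) (Nat.mod s 8))) (dpt (vF φ) (gq s (fN φ)))))
      (frc (Nat.div (Nat.sub k 8) 2) fun t => frb (xr (bit k) (nt (Nat.beq a' a))) fun g =>
        shp tb mem a a a φ ψ h fun Y G h =>
          der tb mem a a (sgP g (sub (mul (gX s t) G) (mul c64 (Y t)))) true h ok)

/-- the checker of all geometric input clauses -/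
def chkPt (h : ℕ) : Bool :=
  dg h fun t r => iff (lt t 8) (chkIn tb mem h) (iff (Nat.beq t 8) (cDef tb mem r) (iff (Nat.beq t 9) (cRev tb mem r)
    (iff (Nat.beq t 10) (cDis tb mem r) (iff (Nat.beq t 11) (cHsep tb mem r) (iff (Nat.beq t 12) (cHord tb mem r)
      (cFace tb mem r))))))

end

variable {K : Cfg} {tb : ℕ → Atom} {mem : ℕ → Bool}

theorem ev_c64 (H : Hom K.v) : ev K.v c64 = 64 := (ev_cst H _ _).trans (by simp [sg])

theorem gX_s (H : Hom K.v) (s : ℕ) : Hmg K (gX s) c64 (gP s) := by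
  refine ⟨by rw [ev_c64 H]; norm_num, fun n hn => ?_⟩
  have b : (ax n : ℕ) = n := Nat.mod_eq_of_lt hn
  rw [gX, ev_sub, ev_cst H, ev_cst H, ev_c64 H, gP, b]
  simp only [sg, cond_false]
  push_cast; ring

theorem dpt_s {b : Bool} {s n : ℕ} (hn : n < 3) (e : dpt b (gq s n) = true) :
    0 < hy b 1 (gP s (ax n)) ∧ hy b 1 (gP s (ax n)) < 1 := by
  have a : (ax n : ℕ) = n := Nat.mod_eq_of_lt hn
  rw [gP, a]
  cases b <;> obtain ⟨x, y⟩ := (an_eq _ _).1 e <;> rw [lt_eq] at x y <;>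
    have x := (Nat.cast_lt (α := ℝ)).2 x <;> have y := (Nat.cast_lt (α := ℝ)).2 y <;>
    simp only [hy, cond_true, cond_false] <;> push_cast at x y <;> constructor <;> linarith

theorem lab_s : ∀ φ < 48, fN φ = labC φ / 2 ∧ vF φ = bit (labC φ) := by decide +kernel

theorem bit_mod (s : ℕ) : bit (s % 8) = bit s := by rw [Bool.eq_iff_iff, bit_eq, bit_eq]; omega

theorem gI_s (N : NC K tb mem) {h : ℕ} {k : ℕ → ℕ → ℕ → Bool} (e : gI tb mem h k = true) :
    ∃ a s h, a < 26 ∧ K.fl a < 48 ∧ labC (K.fl a) = s % 8 ∧ (K.pc a).fc (gP s) ∧ k a s h = true := by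
  obtain ⟨a, b, s, h, ⟨x, -, y⟩, e⟩ := gS_s N e
  rw [an_eq, an_eq, lt_eq, lt_eq] at e
  rw [if_neg (by omega), if_neg (by omega), if_neg (by omega)] at y
  exact ⟨a, s, h, e.1.1, x, y.1, y.2, e.2⟩

theorem cDef_s (V : Valid K) (N : NC K tb mem) {h : ℕ} (e : cDef tb mem h = true) : False := by
  obtain ⟨a, φ, h, ha, rfl, e⟩ := gF_s N e
  obtain ⟨l, h, e⟩ := dg_s e
  rw [an_eq, an_eq] at e
  obtain ⟨a', b', s, x, y⟩ := isS_s e.2.2
  have n := N.even e.1 (nt_t e.2.1)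
  rw [x] at n
  rw [an_eq, frp_eq, frp_eq] at y
  obtain ⟨y, e⟩ := y
  simp only [an_eq, lt_eq, Nat.beq_eq] at y
  obtain ⟨⟨rfl, rfl⟩, ⟨s1, f⟩, l1, z⟩ := y
  obtain ⟨d1, h, e⟩ := der_s V N ha ha e
  obtain ⟨d2, h, e⟩ := der_s V N ha ha e
  obtain ⟨d3, h, e⟩ := der_s V N ha ha e
  obtain ⟨d4, -⟩ := der_s V N ha ha e
  have r := gX_s V.hom s
  have z := ev_isZ (v := K.v) z
  simp only [rel, cond_true, ev_lsP V.hom _ _ _ _ (ev_hxP _ (r.2 _ (aN_lt _))) (ev_hyP _ (r.2 _ (bN_lt _))),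
    ev_c64 V.hom] at d1 d2 d3 d4
  rw [r.z b', ev_c64 V.hom] at z
  refine n ⟨f, f, ?_⟩
  rw [if_neg (by omega), if_neg (by omega), if_neg (by omega)]
  refine ⟨l1, (mul_eq_zero.1 z).resolve_left (by norm_num), fun k e => ?_⟩
  cases k <;> cases e
  exacts [neg_of_mul_neg_right d1 (by norm_num), neg_of_mul_neg_right d2 (by norm_num),
    neg_of_mul_neg_right d3 (by norm_num), neg_of_mul_neg_right d4 (by norm_num)]

theorem cRev_s (V : Valid K) (N : NC K tb mem) {h : ℕ} (e : cRev tb mem h = true) : False := by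
  obtain ⟨a, s, h, ha, -, -, c, e⟩ := gI_s N e
  obtain ⟨a', φ, h, -, rfl, e⟩ := gF_s N e
  rw [an_eq, Nat.beq_eq] at e
  obtain ⟨rfl, e⟩ := e
  obtain ⟨t, h, e⟩ := dg_s e
  have d := (der_s V N ha ha e).1
  rw [ev_neg, (gX_s V.hom s).sd V.hom, ev_c64 V.hom] at d
  have c : K.sd a' (K.fl a') t (gP s) < 0 := c.2 _ _
  have d : -(64 * K.sd a' (K.fl a') t (gP s)) ≤ 0 := d
  linarith

theorem flagsF_s (N : NC K tb mem) {i F : ℕ} (n : ℕ) : ∀ h, flagsF tb mem i F n h = true →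
    ∀ φ < n, labC φ = F → okF i φ = true → K.fl i ≠ φ := by
  induction n with
  | zero => exact fun _ _ _ h => absurd h (Nat.not_lt_zero _)
  | succ n ih =>
    intro h e φ l o o'
    change iff (an (Nat.beq (labC n) F) (okF i n)) (hF tb mem i n h (flagsF tb mem i F n)) (flagsF tb mem i F n h) = true at e
    rw [iff_eq] at e
    split_ifs at e with c
    · obtain ⟨a, h, e⟩ := hF_s N e
      rcases Nat.lt_succ_iff_lt_or_eq.1 l with l | rfl
      exacts [ih h e φ l o o', a]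
    · rcases Nat.lt_succ_iff_lt_or_eq.1 l with l | rfl
      exacts [ih h e φ l o o', absurd ((an_eq _ _).2 ⟨Nat.beq_eq ▸ o, o'⟩) c]

theorem cFace_s (V : Valid K) (N : NC K tb mem) {h : ℕ} (e : cFace tb mem h = true) : False := by
  obtain ⟨a, s, h, ha, f, l, -, e⟩ := gI_s N e
  exact flagsF_s N 48 h e _ f l (V.lab a ha) rfl

theorem meet {A B : Bx} (oA : A.ok) (oB : B.ok) {P Q : P3} (hP : A.fc P) (hQ : B.fc Q) {r : ℝ}
    (e : ∀ j, j ≠ B.f → Function.update P A.f r j = Q j) (a : 0 < hy A.vf 1 r ∧ hy A.vf 1 r < 1)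
    (b : 0 < B.z (Function.update P A.f r) ∧ B.z (Function.update P A.f r) < 1) :
    A.op (Function.update P A.f r) ∧ B.op (Function.update P A.f r) := by
  refine ⟨⟨by simpa only [Bx.z, Function.update_self] using a, fun k e => ?_⟩, b, fun k g => ?_⟩
  · rw [A.sd_congr (Function.update_of_ne oA.2.1 _ _) (Function.update_of_ne oA.2.2 _ _)]; exact hP.2 k e
  · rw [B.sd_congr (e _ oB.2.1) (e _ oB.2.2)]; exact hQ.2 k g

theorem dis_s (V : Valid K) {a b s t : ℕ} (ha : a < 26) (hb : b < 26) (fa : K.fl a < 48) (fb : K.fl b < 48)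
    (la : labC (K.fl a) = s % 8) (lb : labC (K.fl b) = t % 8) (ca : (K.pc a).fc (gP s)) (cb : (K.pc b).fc (gP t))
    (ab : a ≠ b) (e : s = t ∨ (s % 8 / 2 ≠ t % 8 / 2 ∧ gq s (3 - (s % 8 / 2 + t % 8 / 2)) =
      gq t (3 - (s % 8 / 2 + t % 8 / 2))) ∧ dpt (bit t) (gq s (t % 8 / 2)) = true ∧
      dpt (bit s) (gq t (s % 8 / 2)) = true) : False := by
  obtain ⟨a1, a2⟩ := lab_s _ fa
  obtain ⟨b1, b2⟩ := lab_s _ fb
  rw [la] at a1 a2
  rw [lb] at b1 b2
  have d := V.dis a ha b hb ab fa fb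
  obtain rfl | e := e
  · obtain ⟨r, hr⟩ := hy_ex (vF (K.fl a)) (1 / 2)
    have ef : (K.pc a).f = (K.pc b).f := congrArg ax (a1.trans b1.symm)
    have ev : (K.pc b).vf = vF (K.fl a) := b2.trans a2.symm
    have := meet (bx_ok K a _) (bx_ok K b _) ca cb (r := r) (fun j hj => Function.update_of_ne (ef ▸ hj) _ _)
      (by change 0 < hy (vF (K.fl a)) 1 r ∧ hy (vF (K.fl a)) 1 r < 1; rw [hr]; norm_num)
      (by change 0 < (K.pc b).z (Function.update _ (K.pc a).f r) ∧ (K.pc b).z (Function.update _ (K.pc a).f r) < 1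
          rw [Bx.z, ef, Function.update_self, ev, hr]; norm_num)
    exact d _ this.1 this.2
  · rw [← a1, ← b1, ← bit_mod s, ← bit_mod t, ← a2, ← b2] at e
    obtain ⟨⟨n, q⟩, x, y⟩ := e
    have l1 := fN_lt (K.fl a)
    have l2 := fN_lt (K.fl b)
    have nf : (K.pc b).f ≠ (K.pc a).f := mt (ax_inj l2 l1).1 n.symm
    have := meet (bx_ok K a _) (bx_ok K b _) ca cb (r := gP t (K.pc a).f) (fun j hj => by
        change Function.update _ (K.pc a).f _ j = _
        by_cases c : j = (K.pc a).f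
        · rw [c, Function.update_self]
        · rw [Function.update_of_ne c, gP, gP, show (j : ℕ) = 3 - (fN (K.fl a) + fN (K.fl b)) by
            simp only [Cfg.pc, Cfg.bx, ax, ne_eq, Fin.ext_iff] at c hj
            omega, q]) (dpt_s l1 y)
      (by change 0 < (K.pc b).z (Function.update _ (K.pc a).f _) ∧ (K.pc b).z (Function.update _ (K.pc a).f _) < 1
          rw [Bx.z, Function.update_of_ne nf]; exact dpt_s l2 x)
    exact d _ this.1 this.2

theorem cDis_s (V : Valid K) (N : NC K tb mem) {h : ℕ} (e : cDis tb mem h = true) : False := by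
  obtain ⟨a, s, h, ha, fa, la, ca, e⟩ := gI_s N e
  obtain ⟨b, t, h, hb, fb, lb, cb, e⟩ := gI_s N e
  rw [an_eq, orr_eq, Nat.beq_eq, frc_eq, frc_eq, an_eq, an_eq, an_eq, Nat.beq_eq] at e
  exact dis_s V ha hb fa fb la lb ca cb (nt_beq e.1) (e.2.imp id fun e => ⟨⟨nt_beq e.1.1, e.1.2⟩, e.2⟩)

theorem cHsep_s (V : Valid K) (N : NC K tb mem) {h : ℕ} (e : cHsep tb mem h = true) : False := by
  obtain ⟨a, φ, h, ha, rfl, e⟩ := gF_s N e
  obtain ⟨b, p, h, -, -, -, c, e⟩ := gI_s N e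
  obtain ⟨a', b', k, h, ⟨-, -, s⟩, e⟩ := gS_s N e
  rw [an_eq] at e
  have d := (der_s V N ha ha e.2).1
  have r := gX_s V.hom p
  rw [r.sd V.hom] at d
  refine absurd d (not_lt.2 (mul_nonneg r.1.le ?_))
  have e := e.1
  simp only [iff_eq, lt_eq] at e
  change 0 ≤ K.sd a (K.fl a) (k % 4) _
  split_ifs at e with k4 <;> simp only [an_eq, lt_eq, Nat.beq_eq] at e
  · rw [if_pos k4, e.1, e.2] at s
    rw [Nat.mod_eq_of_lt k4]; exact s _ c.cl
  · rw [if_neg k4, if_pos e.1, e.2.1, e.2.2] at s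
    rw [show k % 4 = k - 4 by omega]; exact s _ c.cl

theorem cHord_s (V : Valid K) (N : NC K tb mem) {h : ℕ} (e : cHord tb mem h = true) : False := by
  obtain ⟨a, φ, h, ha, rfl, e⟩ := gF_s N e
  obtain ⟨b, p, h, -, fb, lb, c, e⟩ := gI_s N e
  obtain ⟨a', b', k, h, ⟨-, -, s⟩, e⟩ := gS_s N e
  obtain ⟨ψ, h, e⟩ := dg_s e
  rw [an_eq, frc_eq, frb_eq] at e
  obtain ⟨x, e⟩ := e
  obtain ⟨Y, G, P, h, c', r', e⟩ := shp_s V N ha ha ha b e
  have d := (der_s V N ha ha e).1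
  simp only [an_eq, orr_eq, lt_eq, Nat.beq_eq] at x
  obtain ⟨⟨⟨k1, k2⟩, x⟩, ⟨f, l⟩, z⟩ := x
  have r := gX_s V.hom p
  have t : Nat.div (Nat.sub k 8) 2 < 3 := by change (k - 8) / 2 < 3; omega
  have ez : (K.bx b ψ).z = (K.pc b).z := by
    funext P
    have l : labC ψ = labC (K.fl b) := l.trans lb.symm
    simp only [Cfg.pc, Cfg.bx, Bx.z, (lab_s _ f).1, (lab_s _ f).2, (lab_s _ fb).1, (lab_s _ fb).2, l]
  have c' : (K.pc a).sh (K.pc b) P := by rwa [Bx.sh, ← ez]
  have z := dpt_s (fN_lt _) z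
  have c : (K.pc b).sh (K.pc a) (gP p) := ⟨c.cl, z.1.le, z.2.le⟩
  rw [if_neg (by omega), if_neg (by omega), if_pos k2] at s
  rw [ev_sgP, ev_sub, ev_mul V.hom, ev_mul V.hom, r.2 _ t, r'.2 _ t] at d
  change ∀ P Q : P3, _ → _ → 0 ≤ sg (bit k) (Q (ax (Nat.div (Nat.sub k 8) 2)) - P (ax (Nat.div (Nat.sub k 8) 2))) at s
  by_cases y : a' = a
  · have w : b' = b := by omega
    rw [y, w] at s
    have q := mul_nonneg (mul_pos r.1 r'.1).le (s _ _ c' c)
    rw [y, Nat.beq_refl] at d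
    revert d q
    cases bit k <;> simp only [rel, sg, xr, nt, cond_true, cond_false] <;> intros <;> linarith
  · have w := x.resolve_left fun u => y u.1
    rw [w.1, w.2] at s
    have q := mul_nonneg (mul_pos r.1 r'.1).le (s _ _ c c')
    rw [show Nat.beq a' a = false by rwa [← Bool.not_eq_true, Nat.beq_eq]] at d
    revert d q
    cases bit k <;> simp only [rel, sg, xr, nt, cond_true, cond_false] <;> intros <;> linarith

theorem chkPt_s {h : ℕ} (e : chkPt tb mem h = true) : Univ tb mem := by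
  obtain ⟨t, r, e⟩ := dg_s e
  rw [iff_eq] at e
  split_ifs at e
  · exact chkIn_s e
  refine univ_of fun K V N => ?_
  simp only [iff_eq] at e
  split_ifs at e
  exacts [cDef_s V N e, cRev_s V N e, cDis_s V N e, cHsep_s V N e, cHord_s V N e, cFace_s V N e]

end

end Pool.Agent.P.MP_53fdf1_co.R
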