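import Pool.Agent.P.MP_53fdf1_co.RDer

set_option autoImplicit false

namespace Pool.Agent.P.MP_53fdf1_co.R

open Po

noncomputable section

namespace Bx

/-- the point of the face with local coordinates `x`, `y` -/
def gl (B : Bx) (x y : ℝ) : P3 := fun j =>
  if j = B.a then hx B.va 1 x else if j = B.b then cond B.vb (y + 1) (-y) else cond B.vf 1 0

def lsd (B : Bx) (k e : Bool) (x y : ℝ) : ℝ := cond e (B.lu k x y - 1) (-B.lu k x y)

def orth (B : Bx) : Prop :=
  (∀ k, B.n k ^ 2 + B.m k ^ 2 = 1) ∧ B.n false * B.n true + B.m false * B.m true = 0 ∧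
    B.n false ^ 2 + B.n true ^ 2 = 1 ∧ B.m false ^ 2 + B.m true ^ 2 = 1 ∧
    B.n false * B.m false + B.n true * B.m true = 0

variable {B : Bx}

theorem gl_x (x y : ℝ) : B.x (B.gl x y) = x := by
  simp only [Bx.x, gl, if_true, hx]; cases B.va <;> simp

theorem gl_y (o : B.ok) (x y : ℝ) : B.y (B.gl x y) = y := by
  simp only [Bx.y, gl, o.1.symm, if_false, if_true, hy]; cases B.vb <;> simp

theorem gl_z (o : B.ok) (x y : ℝ) : B.z (B.gl x y) = 0 := by
  simp only [Bx.z, gl, o.2.1.symm, o.2.2.symm, if_false, hy]; cases B.vf <;> simp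

theorem gl_sd (o : B.ok) (k e : Bool) (x y : ℝ) : B.sd k e (B.gl x y) = B.lsd k e x y := by
  simp only [sd, u, gl_x, gl_y o, lsd, lu]

theorem inC_iff {x y : ℝ} : B.inC x y ↔ ∀ k e, B.lsd k e x y ≤ 0 :=
  ⟨fun h k e => by cases e <;> simp only [lsd, cond_true, cond_false] <;> linarith [h k],
    fun h k => ⟨neg_nonpos.1 (h k false), sub_nonpos.1 (h k true)⟩⟩

theorem inO_iff {x y : ℝ} : B.inO x y ↔ ∀ k e, B.lsd k e x y < 0 :=
  ⟨fun h k e => by cases e <;> simp only [lsd, cond_true, cond_false] <;> linarith [h k],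
    fun h k => ⟨neg_neg_iff_pos.1 (h k false), sub_neg.1 (h k true)⟩⟩

theorem inC.cl (o : B.ok) {x y : ℝ} (h : B.inC x y) : B.cl (B.gl x y) :=
  ⟨gl_z o x y, fun k e => (gl_sd o k e x y).trans_le (inC_iff.1 h k e)⟩

theorem tch.touch (o : B.ok) (h : B.tch) : B.touch := by
  obtain ⟨x, y, a, b, c⟩ := h
  exact ⟨B.gl x y, ⟨gl_z o x y, fun k e => (gl_sd o k e x y).trans_lt (inO_iff.1 c k e)⟩,
    by rwa [gl_x], by rwa [gl_y o]⟩

theorem orth.cor (o : B.orth) (I J : ℝ) : B.lu false (B.cx I J) (B.cy I J) = I ∧ B.lu true (B.cx I J) (B.cy I J) = J := by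
  obtain ⟨a, b, -⟩ := o
  simp only [lu, cx, cy]
  exact ⟨by linear_combination (B.p false + I) * a false + (B.p true + J) * b,
    by linear_combination (B.p true + J) * a true + (B.p false + I) * b⟩

theorem orth.inv (o : B.orth) (x y : ℝ) :
    B.cx (B.lu false x y) (B.lu true x y) = x ∧ B.cy (B.lu false x y) (B.lu true x y) = y := by
  obtain ⟨-, -, a, b, c⟩ := o
  simp only [lu, cx, cy]
  exact ⟨by linear_combination x * a + y * c, by linear_combination y * b + x * c⟩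

end Bx

def bR (b : Bool) : ℝ := cond b 1 0

def bP (b : Bool) : Po := iff b (cst false 1) nil

def crX (i φ : ℕ) (I J : Bool) : Po :=
  add (mul (add (pP i φ false) (bP I)) (nP i false)) (mul (add (pP i φ true) (bP J)) (nP i true))

def crY (i φ : ℕ) (I J : Bool) : Po :=
  add (mul (add (pP i φ false) (bP I)) (mP i false)) (mul (add (pP i φ true) (bP J)) (mP i true))

def glob (φ : ℕ) (x y h : Po) (j : ℕ) : Po :=
  iff (Nat.beq j (aN φ)) (iff (vA φ) (sub h x) x)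
    (iff (Nat.beq j (bN φ)) (iff (vO φ) (add y h) (neg y)) (iff (vF φ) h nil))

def hxP (v : Bool) (h x : Po) : Po := iff v (sub h x) x

def hyP (v : Bool) (h x : Po) : Po := iff v (sub x h) (neg x)

def lsP (i φ : ℕ) (k e : Bool) (x y h : Po) : Po :=
  frp (sub (add (mul (nP i k) x) (mul (mP i k) y)) (mul (pP i φ k) h)) fun u => iff e (sub u h) (neg u)

def sdP (i φ s : ℕ) (X : ℕ → Po) (h : Po) : Po :=
  lsP i φ (sK i φ s) (sE i φ s) (hxP (vA φ) h (X (aN φ))) (hyP (vO φ) h (X (bN φ))) h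

def zP (φ : ℕ) (X : ℕ → Po) (h : Po) : Po := hyP (vF φ) h (X (fN φ))

def one : Po := cst false 1

/-- depth of a corner beyond a lattice line -/
def dep (φ : ℕ) (x y : Po) (t : ℕ) : Po :=
  sub (hyP (bit t) one (glob φ x y one (Nat.div t 4))) (bP (bit (Nat.div t 2)))

/-- a point of the closed square of piece `i`: corner, marker, or a point between two corners -/
def pt (tb : ℕ → Atom) (mem : ℕ → Bool) (a b i φ h : ℕ) (k : (ℕ → Po) → Po → ℕ → Bool) : Bool :=
  dg h fun t h => iff (lt t 4)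
    (frp (rd i (crX i φ (bit t) (bit (Nat.div t 2)))) fun x => frp (rd i (crY i φ (bit t) (bit (Nat.div t 2)))) fun y =>
      k (glob φ x y one) one h)
    (iff (Nat.beq t 4) (an (lt i 18) (k (glob φ one (cst (lt i 6) 1) (cst false 2)) (cst false 2) h))
      (frp (rd i (crX i φ (bit (Nat.div t 8)) (bit (Nat.div t 16)))) fun x1 =>
        frp (rd i (crY i φ (bit (Nat.div t 8)) (bit (Nat.div t 16)))) fun y1 =>
        frp (rd i (crX i φ (bit (Nat.div t 32)) (bit (Nat.div t 64)))) fun x2 =>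
        frp (rd i (crY i φ (bit (Nat.div t 32)) (bit (Nat.div t 64)))) fun y2 =>
        frp (dep φ x1 y1 (Nat.div t 128)) fun d1 => frp (dep φ x2 y2 (Nat.div t 128)) fun d2 =>
        der tb mem a b d1 false h fun h => der tb mem a b (neg d2) true h fun h =>
        frp (rd i (sub (mul d2 x1) (mul d1 x2))) fun x => frp (rd i (sub (mul d2 y1) (mul d1 y2))) fun y =>
        frp (sub d2 d1) fun H => k (glob φ x y H) H h))

/-- homogeneous coordinates of a point -/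
def Hmg (K : Cfg) (X : ℕ → Po) (H : Po) (P : P3) : Prop :=
  0 < ev K.v H ∧ ∀ n < 3, ev K.v (X n) = ev K.v H * P (ax n)

variable {K : Cfg} {tb : ℕ → Atom} {mem : ℕ → Bool}

theorem ev_bP (H : Hom K.v) (b : Bool) : ev K.v (bP b) = bR b := by
  cases b
  · rfl
  · exact (ev_cst H false 1).trans (by simp [sg, bR])

theorem ev_one (H : Hom K.v) : ev K.v one = 1 := ev_bP H true

theorem ev_crX (H : Hom K.v) (i φ : ℕ) (I J : Bool) : ev K.v (crX i φ I J) = (K.bx i φ).cx (bR I) (bR J) := by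
  simp only [crX, ev_add, ev_mul H, ev_bP H]; rfl

theorem ev_crY (H : Hom K.v) (i φ : ℕ) (I J : Bool) : ev K.v (crY i φ I J) = (K.bx i φ).cy (bR I) (bR J) := by
  simp only [crY, ev_add, ev_mul H, ev_bP H]; rfl

theorem ax_inj {m n : ℕ} (hm : m < 3) (hn : n < 3) : ax m = ax n ↔ m = n := by
  simp only [ax, Fin.mk.injEq]; omega

theorem rep_glob (i φ : ℕ) {x y H : Po} {X Y : ℝ} (h : 0 < ev K.v H) (hx' : ev K.v x = ev K.v H * X)
    (hy' : ev K.v y = ev K.v H * Y) : Hmg K (glob φ x y H) H ((K.bx i φ).gl X Y) := by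
  refine ⟨h, fun n hn => ?_⟩
  simp only [glob, Bx.gl, Cfg.bx, iff_eq, Nat.beq_eq, ax_inj hn (aN_lt φ), ax_inj hn (bN_lt φ), hx]
  split_ifs with a b c d e <;> simp only [*, ev_sub, ev_add, ev_neg, ev_nil, cond_true, cond_false] <;> ring

theorem ev_hxP (v : Bool) {h x : Po} {r : ℝ} (e : ev K.v x = ev K.v h * r) :
    ev K.v (hxP v h x) = ev K.v h * hx v 1 r := by
  cases v <;> simp only [hxP, iff_t, iff_f, ev_sub, e, hx, cond_true, cond_false]; ring

theorem ev_hyP (v : Bool) {h x : Po} {r : ℝ} (e : ev K.v x = ev K.v h * r) :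
    ev K.v (hyP v h x) = ev K.v h * hy v 1 r := by
  cases v <;> simp only [hyP, iff_t, iff_f, ev_sub, ev_neg, e, hy, cond_true, cond_false] <;> ring

theorem ev_lsP (H : Hom K.v) (i φ : ℕ) (k e : Bool) {x y h : Po} {X Y : ℝ} (a : ev K.v x = ev K.v h * X)
    (b : ev K.v y = ev K.v h * Y) : ev K.v (lsP i φ k e x y h) = ev K.v h * (K.bx i φ).lsd k e X Y := by
  cases e <;> simp only [lsP, frp_eq, iff_t, iff_f, ev_sub, ev_neg, ev_add, ev_mul H, a, b, Bx.lsd, Bx.lu, Cfg.bx,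
    cond_true, cond_false] <;> ring

theorem Hmg.sd (H : Hom K.v) {X : ℕ → Po} {h : Po} {P : P3} (r : Hmg K X h P) (i φ s : ℕ) :
    ev K.v (sdP i φ s X h) = ev K.v h * K.sd i φ s P :=
  ev_lsP H i φ _ _ (ev_hxP _ (r.2 _ (aN_lt φ))) (ev_hyP _ (r.2 _ (bN_lt φ)))

theorem Hmg.z {X : ℕ → Po} {h : Po} {P : P3} (r : Hmg K X h P) (i φ : ℕ) :
    ev K.v (zP φ X h) = ev K.v h * (K.bx i φ).z P := ev_hyP _ (r.2 _ (fN_lt φ))

theorem Valid.orth (V : Valid K) {i : ℕ} (h : i < 26) (φ : ℕ) : (K.bx i φ).orth := by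
  obtain ⟨m0, m1⟩ := nm_m (K := K) i φ
  have t := (V.tri i h).2.2
  rcases Nat.lt_or_ge i 18 with a | a
  · obtain ⟨n0, n1⟩ := nm_lt (K := K) a φ
    simp only [Bx.orth, Bool.forall_bool, n0, n1, m0, m1]
    refine ⟨⟨?_, ?_⟩, ?_, ?_, ?_, ?_⟩ <;> linarith
  · obtain ⟨n0, n1⟩ := nm_ge (K := K) a φ
    simp only [Bx.orth, Bool.forall_bool, n0, n1, m0, m1]
    refine ⟨⟨?_, ?_⟩, ?_, ?_, ?_, ?_⟩ <;> linarith

theorem lu_ge {i : ℕ} (h : 6 ≤ i) (φ : ℕ) : (K.bx i φ).lu = (K.bx i 0).lu := by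
  funext k x y
  simp only [Bx.lu, bx_ge h φ]; rfl

theorem Valid.locE (V : Valid K) {i : ℕ} (h : 6 ≤ i) (h' : i < 18) (φ : ℕ) : (K.bx i φ).locE := by
  have := V.lE i h h'
  simp only [Bx.locE, Bx.tch, Bx.inO, Bx.inC, lu_ge h φ] at this ⊢
  exact this

theorem Valid.locV (V : Valid K) {i : ℕ} (h : 18 ≤ i) (h' : i < 26) (φ : ℕ) : (K.bx i φ).locV := by
  have := V.lV i h h'
  simp only [Bx.locV, Bx.tch, Bx.inO, Bx.cx, Bx.cy, lu_ge (show 6 ≤ i by omega) φ,
    bx_ge (show 6 ≤ i by omega) φ] at this ⊢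
  exact this

theorem Valid.tch (V : Valid K) {i : ℕ} (h : i < 26) (φ : ℕ) : (K.bx i φ).tch := by
  rcases Nat.lt_or_ge i 6 with a | a
  · exact ⟨_, _, by norm_num, by norm_num, V.lC a φ⟩
  rcases Nat.lt_or_ge i 18 with b | b
  · exact (V.locE a b φ).1
  · exact (V.locV b h φ).1

theorem Valid.cor (V : Valid K) {i : ℕ} (h : i < 26) (φ : ℕ) (I J : Bool) :
    (K.bx i φ).inC (ev K.v (rd i (crX i φ I J))) (ev K.v (rd i (crY i φ I J))) := by
  rw [ev_rd V, ev_rd V, ev_crX V.hom, ev_crY V.hom]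
  obtain ⟨a, b⟩ := (V.orth h φ).cor (bR I) (bR J)
  intro k
  cases k
  · rw [a]; cases I <;> simp [bR]
  · rw [b]; cases J <;> simp [bR]

theorem pt_s (V : Valid K) (N : NC K tb mem) {a b i φ h : ℕ} (ha : a < 26) (hb : b < 26) (hi : i < 26)
    {k : (ℕ → Po) → Po → ℕ → Bool} (e : pt tb mem a b i φ h k = true) :
    ∃ X H P h, (K.bx i φ).cl P ∧ Hmg K X H P ∧ k X H h = true := by
  obtain ⟨t, h, e⟩ := dg_s e
  have o := ev_one V.hom
  have ok := bx_ok K i φ
  simp only [iff_eq, frp_eq, lt_eq] at e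
  split_ifs at e
  · exact ⟨_, _, _, h, (V.cor hi φ _ _).cl ok, rep_glob i φ (by rw [o]; exact one_pos) (by rw [o, one_mul])
      (by rw [o, one_mul]), e⟩
  · rw [an_eq, lt_eq] at e
    have c2 : ev K.v (cst false 2) = 2 := (ev_cst V.hom _ _).trans (by simp [sg])
    rcases Nat.lt_or_ge i 6 with c | c
    · refine ⟨_, _, _, h, Bx.inC.cl ok fun k => ⟨(V.lC c φ k).1.le, (V.lC c φ k).2.le⟩,
        rep_glob i φ (by rw [c2]; norm_num) (by rw [o, c2]; norm_num) ?_, e.2⟩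
      rw [(lt_eq _ _).2 c, c2, ev_cst V.hom]; norm_num [sg]
    · refine ⟨_, _, _, h, (V.locE c e.1 φ).2.1.cl ok,
        rep_glob i φ (by rw [c2]; norm_num) (by rw [o, c2]; norm_num) ?_, e.2⟩
      rw [show lt i 6 = false by rw [← Bool.not_eq_true, lt_eq]; omega, c2, ev_cst V.hom]; norm_num [sg]
  · obtain ⟨a1, h, e⟩ := der_s V N ha hb e
    obtain ⟨a2, h, e⟩ := der_s V N ha hb e
    have p1 := V.cor hi φ (bit (Nat.div t 8)) (bit (Nat.div t 16))
    have p2 := V.cor hi φ (bit (Nat.div t 32)) (bit (Nat.div t 64))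
    generalize rd i (crX i φ (bit (Nat.div t 8)) (bit (Nat.div t 16))) = x1 at *
    generalize rd i (crY i φ (bit (Nat.div t 8)) (bit (Nat.div t 16))) = y1 at *
    generalize rd i (crX i φ (bit (Nat.div t 32)) (bit (Nat.div t 64))) = x2 at *
    generalize rd i (crY i φ (bit (Nat.div t 32)) (bit (Nat.div t 64))) = y2 at *
    generalize dep φ x1 y1 (Nat.div t 128) = d1 at *
    generalize dep φ x2 y2 (Nat.div t 128) = d2 at *
    simp only [rel, ev_neg, cond_true, cond_false] at a1 a2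
    have hp : 0 < ev K.v (sub d2 d1) := by rw [ev_sub]; linarith
    refine ⟨_, _, _, h, Bx.inC.cl ok ?_, rep_glob i φ hp (mul_div_cancel₀ _ hp.ne').symm
      (mul_div_cancel₀ _ hp.ne').symm, e⟩
    simp only [ev_rd V, ev_sub, ev_mul V.hom] at hp ⊢
    intro k
    obtain ⟨b1, b2⟩ := p1 k
    obtain ⟨c1, c2⟩ := p2 k
    generalize ev K.v d1 = D1 at *
    generalize ev K.v d2 = D2 at *
    have e : (K.bx i φ).lu k ((D2 * ev K.v x1 - D1 * ev K.v x2) / (D2 - D1)) ((D2 * ev K.v y1 - D1 * ev K.v y2) / (D2 - D1))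
        = (D2 * (K.bx i φ).lu k (ev K.v x1) (ev K.v y1) - D1 * (K.bx i φ).lu k (ev K.v x2) (ev K.v y2)) / (D2 - D1) := by
      simp only [Bx.lu]; field_simp; ring
    rw [e, le_div_iff₀ hp, div_le_iff₀ hp]
    constructor <;> nlinarith

end

end Pool.Agent.P.MP_53fdf1_co.R
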