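import Pool.Agent.P.MP_53fdf1_co.RAct

set_option autoImplicit false

namespace Pool.Agent.P.MP_53fdf1_co.R

open Po

noncomputable section

def act (g : ℕ) (K : Cfg) : Cfg := if g < 48 then pull g K else K

def actA (g a b k : ℕ) : ℕ :=
  iff (lt k 4) (actS g a k) (iff (lt k 8) (Nat.add (actS g b (Nat.sub k 4)) 4) (Nat.add (actX g (Nat.sub k 8)) 8))

def swk (k : ℕ) : ℕ := iff (lt k 4) (Nat.add k 4) (iff (lt k 8) (Nat.sub k 4) (iff (bit k) (Nat.sub k 1) (Nat.add k 1)))

def actL (g n : ℕ) : ℕ :=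
  Nat.add (Nat.add (Nat.mul 32 (actP g (Nat.div n 32))) (Nat.mul 2 (actK g (Nat.div n 32) (Nat.mod (Nat.div n 2) 16))))
    (Nat.mod n 2)

def ins (x : ℕ) (l : List ℕ) : List ℕ :=
  @List.rec ℕ (fun _ => List ℕ) [x] (fun y t ih => iff (lt y x) (y :: ih) (x :: y :: t)) l

def srt (f : ℕ → ℕ) (l : List ℕ) : List ℕ := @List.rec ℕ (fun _ => List ℕ) [] (fun x _ ih => frc (f x) fun y => ins y ih) l

def leq (l : List ℕ) : List ℕ → Bool :=
  @List.rec ℕ (fun _ => List ℕ → Bool) (fun m => @List.rec ℕ (fun _ => Bool) true (fun _ _ _ => false) m)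
    (fun x _ ih m => @List.rec ℕ (fun _ => Bool) false (fun y u _ => an (Nat.beq x y) (ih u)) m) l

def allL (l : List ℕ) : Bool := @List.rec ℕ (fun _ => Bool) true (fun x _ ih => an (okL x) ih) l

def sameL (g : ℕ) (l m : List ℕ) : Bool := an (allL l) (leq (srt (actL g) l) (srt (fun x => x) m))

def trmG (g fuel : ℕ) : ℕ → Po :=
  @Nat.rec (fun _ => ℕ → Po) (fun _ => cst false 1)
    (fun _ ih n => iff (Nat.beq n 0) (cst false 1)
      (frc (Nat.sub (Nat.mod n 512) 1) fun d => frc (actP g (Nat.div d 16)) fun i =>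
        frc (actK g (Nat.div d 16) (Nat.mod d 16)) fun k => mul (symP i k) (ih (Nat.div n 512)))) fuel

def okM (fuel : ℕ) : ℕ → Bool :=
  @Nat.rec (fun _ => ℕ → Bool) (fun _ => true)
    (fun _ ih n => orr (Nat.beq n 0) (an (okL (Nat.mul 2 (Nat.sub (Nat.mod n 512) 1))) (ih (Nat.div n 512)))) fuel

def nrmG (g : ℕ) (q : Po) : Po := @Po.rec (fun _ => Po) nil (fun s c m _ ih => add (mulT s c 1 (trmG g 16 m)) ih) q

def okQ (q : Po) : Bool := @Po.rec (fun _ => Bool) true (fun _ _ m _ ih => an (okM 16 m) ih) q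

def mx (a b : ℕ) : ℕ := frc a fun a => frc b fun b => iff (lt a b) b a

def mxM (f : ℕ → ℕ) (fuel : ℕ) : ℕ → ℕ :=
  @Nat.rec (fun _ => ℕ → ℕ) (fun _ => 0)
    (fun _ ih n => iff (Nat.beq n 0) 0 (mx (f (Nat.div (Nat.sub (Nat.mod n 512) 1) 16)) (ih (Nat.div n 512)))) fuel

def mxQ (f : ℕ → ℕ) (q : Po) : ℕ := @Po.rec (fun _ => ℕ) 0 (fun _ _ m _ ih => mx (mxM f 16 m) ih) q

def isM (A : Atom) (k : List ℕ → List ℕ → Bool → ℕ → Bool → Bool) : Bool :=
  @Atom.rec (fun _ => Bool) (fun _ _ => false) (fun _ _ _ => false) (fun _ => false) k (fun _ => false) A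

def gqG (g k k' j : ℕ) : Bool :=
  iff (vB g j) (Nat.beq (Nat.add (gq k' (gp g j)) (gq k j)) 576) (Nat.beq (gq k' (gp g j)) (gq k j))

/-- the grid point and the face coded by `k'` are the images of those coded by `k` -/
def inG (g k k' : ℕ) : Bool :=
  an (an (lt 13 k') (an (lt (Nat.mod k 8) 6) (Nat.beq (Nat.mod k' 8) (actP g (Nat.mod k 8)))))
    (an (gqG g k k' 0) (an (gqG g k k' 1) (gqG g k k' 2)))

/-- atom `B` is the image of atom `A` under `g`, negated if `f` -/
def symA (g : ℕ) (A B : Atom) (f : Bool) : Bool :=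
  @Atom.rec (fun _ => Bool)
    (fun i φ => an (nt f) (isF B fun i' φ' => an (an (lt i 26) (Nat.beq i' (actP g i)))
      (an (Nat.beq φ' (acF g i φ)) (Nat.beq φ (acF (inv g) i φ')))))
    (fun a b k => an (nt f) (isS B fun a' b' k' => an (an (lt a 26) (lt b 26)) (iff (lt k 14)
      (orr (an (Nat.beq a' (actP g a)) (an (Nat.beq b' (actP g b)) (Nat.beq k' (actA g a b k))))
        (an (Nat.beq b' (actP g a)) (an (Nat.beq a' (actP g b)) (Nat.beq k' (swk (actA g a b k))))))
      (an (Nat.beq a' (actP g a)) (an (Nat.beq b' (actP g b)) (inG g k k'))))))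
    (fun n => an (nt f) (an (okL n) (isT B (actL g n))))
    (fun p m s n st => isM B fun p' m' s' n' st' => an (an (Nat.beq n n') (nt (xr f (xr st st'))))
      (an (orr (Nat.beq n 0) (nt (xr f (xr s s')))) (an (sameL g p (iff f m' p')) (sameL g m (iff f p' m')))))
    (fun q => an (nt f) (an (okQ q) (isP B fun p => frc (actP g (mxQ (fun i => i) q)) fun a =>
      frc (actP g (Nat.sub 25 (mxQ (Nat.sub 25) q))) fun b => isZ (rd a (rd b (sub (nrmG g q) p)))))) A

/-- literal `l'` is the image of literal `l` under `g` -/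
def symL (tb : ℕ → Atom) (g l l' : ℕ) : Bool :=
  an (lt g 48) (frb (xr (bit l) (bit l')) fun f => symA g (tb (Nat.div l 2)) (tb (Nat.div l' 2)) f)

variable {K : Cfg} {g : ℕ}

theorem pull_fl (V : Valid K) (hg : g < 48) {i : ℕ} (hi : i < 26) :
    okF i ((pull g K).fl i) = true ∧ acF g i ((pull g K).fl i) = K.fl (actP g i) ∧
      ((pull g K).fl i < 48 ↔ K.fl (actP g i) < 48) := by
  have a := (actP_s g hg i hi).1
  obtain ⟨x, y, z⟩ := acF_s g hg i hi _ (V.fl_lt a) (V.lab _ a)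
  exact ⟨x, y, by rw [← lt_eq, ← lt_eq, ← z]; rfl⟩

theorem pull_pc (V : Valid K) (hg : g < 48) {i : ℕ} (hi : i < 26) (h : (pull g K).fl i < 48) (P : P3) :
    ((pull g K).pc i).z P = (K.pc (actP g i)).z (Tg g P) ∧ ∀ s < 4, (pull g K).sd i ((pull g K).fl i) s P =
      K.sd (actP g i) (K.fl (actP g i)) (actS g i s) (Tg g P) := by
  obtain ⟨o, e, -⟩ := pull_fl V hg hi
  obtain ⟨z, d⟩ := pull_bx V.hom hg hi h P
  simp only [Cfg.pc, ← e]
  generalize (pull g K).fl i = φ at *
  rw [acF, (lt_eq _ _).2 h, iff_t, frc_eq]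
  rcases Nat.lt_or_ge i 6 with i6 | i6
  · have l := (actF_s g hg φ h).1
    obtain ⟨n1, n2, n3, n4⟩ := nf_s _ l
    have j6 := actP_lt6 hg i6
    have c : labC φ = i := by
      simp only [okF, (lt_eq _ _).2 i6, iff_t, orr_eq, an_eq, Nat.beq_eq] at o
      exact (o.resolve_left (by omega)).2.1
    rw [(lt_eq _ _).2 i6, iff_t]
    refine ⟨z.trans (by simp only [Bx.z, Cfg.bx, n2, n3]), fun s hs => ?_⟩
    have t := (actS_s g hg i hi).1 s hs
    obtain ⟨k1, k2⟩ := actS_C g hg φ h s hs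
    rw [sd_C V.hom j6 n1 t, n2, n4, ← sd_C V.hom j6 l t, Cfg.sd, d, Cfg.sd, (sK_C i6 _ _).1, (sK_C i6 _ _).2,
      (sK_C j6 _ _).1, (sK_C j6 _ _).2, ← c, k1, k2]
  · have b := (actP_s g hg i hi).2.1
    rw [lt_f i6] at b
    rw [lt_f i6, iff_f]
    refine ⟨z, fun s _ => ?_⟩
    simp only [Cfg.sd, d, sK, sE, actS, lt_f i6, b, iff_f]

theorem all_sd {i φ : ℕ} (h : φ < 48) (r : ℝ → Prop) (P : P3) :
    (∀ k e, r ((K.bx i φ).sd k e P)) ↔ ∀ s < 4, r (K.sd i φ s P) :=
  ⟨fun a _ _ => a _ _, fun a k e => by obtain ⟨s, l, rfl, rfl⟩ := side_ex i φ h k e; exact a s l⟩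

theorem pull_all (V : Valid K) (hg : g < 48) {i : ℕ} (hi : i < 26) (h : (pull g K).fl i < 48) (r : ℝ → Prop) (P : P3) :
    (∀ k e, r (((pull g K).pc i).sd k e P)) ↔ ∀ k e, r ((K.pc (actP g i)).sd k e (Tg g P)) := by
  have d := (pull_pc V hg hi h P).2
  obtain ⟨a, b⟩ := actS_s g hg i hi
  rw [Cfg.pc, Cfg.pc, all_sd h, all_sd ((pull_fl V hg hi).2.2.1 h)]
  refine ⟨fun x s l => ?_, fun x s l => d s l ▸ x _ (a s l)⟩
  obtain ⟨t, l', rfl⟩ := b s l
  exact d t l' ▸ x t l'

theorem pull_cl (V : Valid K) (hg : g < 48) {i : ℕ} (hi : i < 26) (h : (pull g K).fl i < 48) (P : P3) :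
    ((pull g K).pc i).cl P ↔ (K.pc (actP g i)).cl (Tg g P) := by
  rw [Bx.cl, Bx.cl, (pull_pc V hg hi h P).1, pull_all V hg hi h (· ≤ 0)]

theorem pull_op (V : Valid K) (hg : g < 48) {i : ℕ} (hi : i < 26) (h : (pull g K).fl i < 48) (P : P3) :
    ((pull g K).pc i).op P ↔ (K.pc (actP g i)).op (Tg g P) := by
  rw [Bx.op, Bx.op, (pull_pc V hg hi h P).1, pull_all V hg hi h (· < 0)]

theorem pull_lu (H : Hom K.v) (hg : g < 48) {i : ℕ} (hi : i < 26) :
    ((pull g K).bx i 0).lu = (K.bx (actP g i) (actF g 0)).lu := by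
  obtain ⟨n, m⟩ := pull_nm H hg hi 0 (actF g 0)
  funext k x y
  simp only [Bx.lu, n, m, pull_p H hg hi (show 0 < 48 by decide)]

theorem pull_valid (V : Valid K) (hg : g < 48) : Valid (pull g K) where
  hom := pull_hom
  tri i hi := by rw [pull_s hi, pull_c V.hom hi]; exact V.tri _ (actP_s g hg i hi).1
  lab i hi := (pull_fl V hg hi).1
  bC i hi j hj b := by
    rw [pull_x hg hi hj, pull_s (by omega), pull_c V.hom (by omega)]
    exact V.bC _ (actP_lt6 hg hi) _ (gp_lt g j) _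
  lE i h h' := by
    obtain ⟨-, b, c, -⟩ := actP_s g hg i (by omega)
    have := V.locE (i := actP g i) (by rw [← Nat.not_lt, ← lt_eq, b, lt_eq]; omega) (by rwa [← lt_eq, c, lt_eq])
      (actF g 0)
    simp only [Bx.locE, Bx.tch, Bx.inO, Bx.inC, pull_lu V.hom hg (show i < 26 by omega)] at this ⊢
    exact this
  lV i h h' := by
    obtain ⟨a, -, c, -⟩ := actP_s g hg i h'
    obtain ⟨n, m⟩ := pull_nm V.hom hg h' 0 (actF g 0)
    have := V.locV (i := actP g i) (by rw [← Nat.not_lt, ← lt_eq, c, lt_eq]; omega) a (actF g 0)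
    simp only [Bx.locV, Bx.tch, Bx.inO, Bx.cx, Bx.cy, pull_lu V.hom hg h', n, m,
      pull_p V.hom hg h' (show 0 < 48 by decide)] at this ⊢
    exact this
  dis i hi j hj ne a b P x y := by
    obtain ⟨i1, -, -, i2⟩ := actP_s g hg i hi
    obtain ⟨j1, -, -, j2⟩ := actP_s g hg j hj
    exact V.dis _ i1 _ j1 (fun e => ne (by rw [← i2, e, j2])) ((pull_fl V hg hi).2.2.1 a) ((pull_fl V hg hj).2.2.1 b) _
      ((pull_op V hg hi a P).1 x) ((pull_op V hg hj b P).1 y)

theorem hact (V : Valid K) (g : ℕ) : Valid (act g K) := by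
  unfold act
  split_ifs with h
  exacts [pull_valid V h, V]

theorem T_all (hg : g < 48) {r : P3 → Prop} : (∀ P, r (Tg g P)) ↔ ∀ Q, r Q :=
  ⟨fun h Q => by obtain ⟨P, rfl⟩ := T_surj hg Q; exact h P, fun h _ => h _⟩

theorem pull_sep (V : Valid K) (hg : g < 48) {a b k : ℕ} (ha : a < 26) (hb : b < 26) (hk : k < 14) :
    Sep (pull g K) a b k ↔ Sep K (actP g a) (actP g b) (actA g a b k) := by
  rw [Sep, Sep, ← (pull_fl V hg ha).2.2, ← (pull_fl V hg hb).2.2]
  refine and_congr_right fun fa => and_congr_right fun fb => ?_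
  simp only [actA, iff_eq, lt_eq, Nat.add_eq, Nat.sub_eq]
  by_cases k4 : k < 4
  · simp only [k4, (actS_s g hg a ha).1 k k4, if_true, pull_cl V hg hb fb, (pull_pc V hg ha fa _).2 k k4]
    exact T_all hg (r := fun Q => (K.pc (actP g b)).cl Q → 0 ≤ K.sd _ _ _ Q)
  by_cases k8 : k < 8
  · have l := (actS_s g hg b hb).1 (k - 4) (by omega)
    rw [if_neg k4, if_pos k8, if_neg k4, if_pos k8, if_neg (by omega), if_pos (by omega), Nat.add_sub_cancel]
    simp only [pull_cl V hg ha fa, (pull_pc V hg hb fb _).2 (k - 4) (by omega)]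
    exact T_all hg (r := fun Q => (K.pc (actP g a)).cl Q → 0 ≤ K.sd _ _ _ Q)
  · obtain ⟨x, y, z⟩ := actX_s g hg (k - 8) (by omega)
    have e1 : bit (actX g (k - 8) + 8) = bit (actX g (k - 8)) := by
      rw [Bool.eq_iff_iff, bit_eq, bit_eq]; omega
    have e2 : bit (k - 8) = bit k := by rw [Bool.eq_iff_iff, bit_eq, bit_eq]; omega
    rw [if_neg k4, if_neg k8, if_pos hk, if_neg k4, if_neg k8, if_neg (by omega), if_neg (by omega), if_pos (by omega),
      Nat.add_sub_cancel, e1, z, e2]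
    change _ ↔ ∀ P Q : P3, _ → _ → 0 ≤ sg _ (Q (ax (Nat.div _ 2)) - P (ax (Nat.div _ 2)))
    rw [y]
    refine Iff.trans (forall_congr' fun P => ?_) (T_all hg)
    refine Iff.trans (forall_congr' fun Q => ?_) (T_all hg)
    have t : Nat.div (k - 8) 2 < 3 := by change (k - 8) / 2 < 3; omega
    simp only [Bx.sh, pull_cl V hg ha fa, pull_cl V hg hb fb, (pull_pc V hg ha fa _).1, (pull_pc V hg hb fb _).1,
      T_ax hg t]
    refine imp_congr_right fun _ => imp_congr_right fun _ => ?_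
    change 0 ≤ sg _ (Q (ax (Nat.div (k - 8) 2)) - P (ax (Nat.div (k - 8) 2))) ↔ _
    cases bit k <;> cases vB g (Nat.div (k - 8) 2) <;> simp [sg, xr, hx]

theorem swk_s : ∀ k < 14, (k < 4 → swk k = k + 4) ∧ (4 ≤ k → k < 8 → swk k = k - 4) ∧
    (8 ≤ k → (8 ≤ swk k ∧ swk k < 14) ∧ (swk k - 8) / 2 = (k - 8) / 2 ∧ bit (swk k) = !bit k) := by decide +kernel

theorem sep_swap {a b k : ℕ} (hk : k < 14) : Sep K a b k ↔ Sep K b a (swk k) := by
  rw [Sep, Sep, and_left_comm]
  refine and_congr_right fun _ => and_congr_right fun _ => ?_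
  obtain ⟨x, y, z⟩ := swk_s k hk
  by_cases k4 : k < 4
  · rw [x k4, if_pos k4, if_neg (by omega), if_pos (by omega), Nat.add_sub_cancel]
  by_cases k8 : k < 8
  · rw [y (by omega) k8, if_neg k4, if_pos k8, if_pos (by omega)]
  · obtain ⟨u, v, w⟩ := z (by omega)
    rw [if_neg k4, if_neg k8, if_pos hk, if_neg (by omega), if_neg (by omega), if_pos u.2, v, w]
    have : ∀ x y : ℝ, sg (!bit k) (x - y) = sg (bit k) (y - x) := fun x y => by cases bit k <;> simp [sg]
    simp only [this]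
    exact ⟨fun h P Q p q => h Q P q p, fun h P Q p q => h Q P q p⟩

theorem lab_act : ∀ g < 48, ∀ φ < 48, labC φ < 6 ∧ labC (actF g φ) = actP g (labC φ) ∧
    labC (nf (actF g φ)) = actP g (labC φ) := by decide +kernel

theorem gqG_s {k k' j : ℕ} (hg : g < 48) (hj : j < 3) (e : gqG g k k' j = true) :
    gP k' (ax (gp g j)) = Tg g (gP k) (ax (gp g j)) := by
  have a : (ax (gp g j) : ℕ) = gp g j := Nat.mod_eq_of_lt (gp_lt g j)
  have b : (ax j : ℕ) = j := Nat.mod_eq_of_lt hj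
  rw [T_ax hg hj, gP, gP, a, b]
  revert e
  unfold gqG
  cases vB g j <;> intro e <;> have e := Nat.eq_of_beq_eq_true e
  · rw [e]; rfl
  · have : (gq k' (gp g j) : ℝ) + gq k j = 576 := by exact_mod_cast e
    simp only [hx, cond_true]; linarith

theorem pull_in (V : Valid K) (hg : g < 48) {a b k k' : ℕ} (ha : a < 26) (hb : b < 26) (hk : ¬ k < 14)
    (e : inG g k k' = true) : Sep (pull g K) a b k ↔ Sep K (actP g a) (actP g b) k' := by
  simp only [inG, an_eq, lt_eq, Nat.beq_eq] at e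
  obtain ⟨⟨x, y, z⟩, e0, e1, e2⟩ := e
  change k % 8 < 6 at y
  change k' % 8 = actP g (k % 8) at z
  rw [Sep, Sep, ← (pull_fl V hg ha).2.2, ← (pull_fl V hg hb).2.2]
  refine and_congr_right fun fa => and_congr_right fun _ => ?_
  rw [if_neg (by omega), if_neg (by omega), if_neg hk, if_neg (by omega), if_neg (by omega), if_neg (by omega)]
  have p : gP k' = Tg g (gP k) := by
    funext j
    have j3 : gp (inv g) j < 3 := gp_lt _ _
    have : j = ax (gp g (gp (inv g) j)) := by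
      rw [(gp_inv g hg j j.2).2]; exact Fin.ext (Nat.mod_eq_of_lt j.2).symm
    rw [this]
    generalize gp (inv g) j = t at j3
    interval_cases t
    exacts [gqG_s hg j3 e0, gqG_s hg j3 e1, gqG_s hg j3 e2]
  rw [p, Bx.fc, Bx.fc, (pull_pc V hg ha fa _).1, pull_all V hg ha fa (· < 0)]
  refine and_congr_left fun _ => ?_
  obtain ⟨l, l1, l2⟩ := lab_act g hg _ fa
  have : labC (K.fl (actP g a)) = actP g (labC ((pull g K).fl a)) := by
    rw [← (pull_fl V hg ha).2.1, acF, (lt_eq _ _).2 fa, iff_t, frc_eq]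
    cases lt a 6
    exacts [l1, l2]
  rw [this, z]
  refine ⟨congrArg _, fun c => ?_⟩
  rw [← (actP_s g hg _ (show labC ((pull g K).fl a) < 26 by omega)).2.2.2, c,
    (actP_s g hg _ (show k % 8 < 26 by omega)).2.2.2]

theorem actA_lt (hg : g < 48) {a b k : ℕ} (ha : a < 26) (hb : b < 26) (hk : k < 14) : actA g a b k < 14 := by
  simp only [actA, iff_eq, lt_eq, Nat.add_eq, Nat.sub_eq]
  split_ifs with x y
  · linarith [(actS_s g hg a ha).1 k x]
  · linarith [(actS_s g hg b hb).1 (k - 4) (by omega)]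
  · linarith [(actX_s g hg (k - 8) (by omega)).1]

theorem okL_s {n : ℕ} (h : okL n = true) : n / 32 < 26 ∧ n / 2 % 16 < if n / 32 < 6 then 15 else if n / 32 < 18 then 7 else 5 := by
  simp only [okL, an_eq, lt_eq, iff_eq] at h
  exact h

theorem actK_s : ∀ g < 48, ∀ i < 26, ∀ k < 15, actK g i k < 15 ∧ (actK g i k < 9 ↔ k < 9) := by decide +kernel

theorem pull_lp (H : Hom K.v) (hg : g < 48) {n : ℕ} (h : okL n = true) : (pull g K).lp n = K.lp (actL g n) := by
  obtain ⟨a, b⟩ := okL_s h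
  obtain ⟨c, d⟩ := actK_s g hg _ a (n / 2 % 16) (by split_ifs at b <;> omega)
  have e : actL g n = 32 * actP g (n / 32) + 2 * actK g (n / 32) (n / 2 % 16) + n % 2 := rfl
  have e1 : actL g n / 32 = actP g (n / 32) := by omega
  have e2 : actL g n / 2 % 16 = actK g (n / 32) (n / 2 % 16) := by omega
  have e3 : bit (actL g n) = bit n := by rw [Bool.eq_iff_iff, bit_eq, bit_eq]; omega
  simp only [Cfg.lp, e1, e2, e3, pull_sy H hg a b, pull_c H a, d]

theorem ins_prod (f : ℕ → ℝ) (x : ℕ) (l : List ℕ) : ((ins x l).map f).prod = f x * (l.map f).prod := by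
  induction l with
  | nil => rfl
  | cons y t ih =>
    change ((iff (lt y x) (y :: ins x t) (x :: y :: t)).map f).prod = _
    cases lt y x <;> simp only [iff_t, iff_f, List.map_cons, List.prod_cons, ih]
    ring

theorem srt_prod (f : ℕ → ℝ) (h : ℕ → ℕ) (l : List ℕ) : ((srt h l).map f).prod = (l.map fun x => f (h x)).prod := by
  induction l with
  | nil => rfl
  | cons y t ih =>
    change ((ins (h y) (srt h t)).map f).prod = _
    rw [ins_prod, ih, List.map_cons, List.prod_cons]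

theorem leq_s (l : List ℕ) : ∀ m, leq l m = true → l = m := by
  induction l with
  | nil => rintro (_ | _) h; exacts [rfl, absurd h Bool.false_ne_true]
  | cons x t ih =>
    rintro (_ | ⟨y, u⟩) h
    · exact absurd h Bool.false_ne_true
    · obtain ⟨a, b⟩ := (an_eq _ _).1 h
      rw [Nat.eq_of_beq_eq_true a, ih u b]

theorem sameL_s (H : Hom K.v) (hg : g < 48) {l m : List ℕ} (h : sameL g l m = true) :
    (l.map (pull g K).lp).prod = (m.map K.lp).prod := by
  obtain ⟨a, b⟩ := (an_eq _ _).1 h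
  have := congrArg (fun l => (l.map K.lp).prod) (leq_s _ _ b)
  simp only [srt_prod] at this
  rw [← this]
  clear this b h
  induction l with
  | nil => rfl
  | cons x t ih =>
    obtain ⟨c, d⟩ := (an_eq _ _).1 a
    rw [List.map_cons, List.map_cons, List.prod_cons, List.prod_cons, ih d, pull_lp H hg c]

theorem trmG_s (H : Hom K.v) (hg : g < 48) (n : ℕ) : ∀ m, okM n m = true →
    ev (pull g K).v (trm n m) = ev K.v (trmG g n m) := by
  induction n with
  | zero => exact fun _ _ => (ev_cst pull_hom _ _).trans (ev_cst H _ _).symm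
  | succ n ih =>
    intro m h
    change orr (Nat.beq m 0) (an (okL (2 * (m % 512 - 1))) (okM n (m / 512))) = true at h
    change ev _ (iff (Nat.beq m 0) (cst false 1) (mul (symP ((m % 512 - 1) / 16) ((m % 512 - 1) % 16)) (trm n (m / 512)))) =
      ev _ (iff (Nat.beq m 0) (cst false 1) (mul (symP (actP g ((m % 512 - 1) / 16))
        (actK g ((m % 512 - 1) / 16) ((m % 512 - 1) % 16))) (trmG g n (m / 512))))
    revert h
    cases Nat.beq m 0
    · intro h
      obtain ⟨a, b⟩ := (an_eq _ _).1 h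
      have c := okL_s a
      rw [show 2 * (m % 512 - 1) / 32 = (m % 512 - 1) / 16 by omega,
        show 2 * (m % 512 - 1) / 2 % 16 = (m % 512 - 1) % 16 by omega] at c
      rw [iff_f, iff_f, ev_mul pull_hom, ev_mul H, ih _ b]
      exact congrArg (· * _) (pull_sy H hg c.1 c.2)
    · exact fun _ => (ev_cst pull_hom _ _).trans (ev_cst H _ _).symm

theorem nrmG_s (H : Hom K.v) (hg : g < 48) (q : Po) (h : okQ q = true) :
    ev (pull g K).v (nrm q) = ev K.v (nrmG g q) := by
  induction q with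
  | nil => rfl
  | cons s c m t ih =>
    obtain ⟨a, b⟩ := (an_eq _ _).1 h
    change ev _ (add (mulT s c 1 (trm 16 m)) (nrm t)) = ev _ (add (mulT s c 1 (trmG g 16 m)) (nrmG g t))
    rw [ev_add, ev_add, ev_mulT pull_hom, ev_mulT H, ih b, trmG_s H hg 16 m a, H.one, pull_hom.one]

theorem symA_s (V : Valid K) (hg : g < 48) {A B : Atom} {f : Bool} (e : symA g A B f = true) :
    A.sem (pull g K) ↔ cond f (¬ B.sem K) (B.sem K) := by
  cases A with
  | flag i φ =>
    obtain ⟨a, e1⟩ := (an_eq _ _).1 e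
    obtain ⟨i', φ', rfl, e2⟩ := isF_s e1
    simp only [an_eq, lt_eq, Nat.beq_eq] at e2
    obtain ⟨⟨hi, rfl⟩, x, y⟩ := e2
    rw [nt_t a]
    exact ⟨fun h => by rw [x, ← show _ = φ from h]; exact (pull_fl V hg hi).2.1.symm,
      fun h => by rw [y, ← show _ = φ' from h]; rfl⟩
  | sep a b k =>
    obtain ⟨x, e1⟩ := (an_eq _ _).1 e
    obtain ⟨a', b', k', rfl, e2⟩ := isS_s e1
    rw [an_eq, an_eq, lt_eq, lt_eq, iff_eq] at e2
    obtain ⟨⟨ha, hb⟩, e3⟩ := e2
    rw [nt_t x]
    split_ifs at e3 with hk <;> simp only [an_eq, orr_eq, Nat.beq_eq, lt_eq] at e3 hk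
    · rcases e3 with ⟨rfl, rfl, rfl⟩ | ⟨rfl, rfl, rfl⟩
      · exact pull_sep V hg ha hb hk
      · exact (pull_sep V hg ha hb hk).trans (sep_swap (actA_lt hg ha hb hk))
    · obtain ⟨rfl, rfl, e3⟩ := e3
      exact pull_in V hg ha hb hk e3
  | pos n =>
    obtain ⟨x, e⟩ := (an_eq _ _).1 e
    obtain ⟨y, e⟩ := (an_eq _ _).1 e
    rw [nt_t x, isT_s e]
    change 0 < _ ↔ 0 < _
    rw [pull_lp V.hom hg y]
  | mono p m s n st =>
    cases B
    case mono p' m' s' n' st' =>
      change an _ _ = true at e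
      simp only [an_eq, orr_eq, Nat.beq_eq] at e
      obtain ⟨⟨rfl, x⟩, y, z, w⟩ := e
      simp only [Atom.sem, sameL_s V.hom hg z, sameL_s V.hom hg w]
      cases f
      · have : sg s (n : ℝ) = sg s' n := by
          rcases y with rfl | y
          · cases s <;> cases s' <;> simp [sg]
          · cases s <;> cases s' <;> simp_all [nt, xr]
        rw [this, show st = st' by cases st <;> cases st' <;> simp_all [nt, xr]]
        rfl
      · have : sg s' (n : ℝ) = -sg s n := by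
          rcases y with rfl | y
          · cases s <;> cases s' <;> simp [sg]
          · cases s <;> cases s' <;> simp_all [nt, xr, sg]
        have p : (0 : ℝ) < 2 ^ (sg s (n : ℝ) / 64) := by positivity
        rw [this, neg_div, Real.rpow_neg (by norm_num), iff_t, iff_t, cond_true]
        cases st <;> cases st' <;> simp only [rel, cond_true, cond_false, not_lt, not_le]
        · simp [nt, xr] at x
        · exact (inv_mul_le_iff₀ p).symm
        · exact (inv_mul_lt_iff₀ p).symm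
        · simp [nt, xr] at x
    all_goals exact absurd e Bool.false_ne_true
  | poly q =>
    obtain ⟨x, e⟩ := (an_eq _ _).1 e
    obtain ⟨y, e⟩ := (an_eq _ _).1 e
    obtain ⟨p, z, e⟩ := isP_s V e
    have := ev_isZ (v := K.v) e
    rw [ev_rd V, ev_rd V, ev_sub, sub_eq_zero] at this
    rw [nt_t x, cond_false, z, ← this, ← nrmG_s V.hom hg q y]
    rfl

theorem symL_s {tb : ℕ → Atom} {l l' : ℕ} (e : symL tb g l l' = true) (V : Valid K) (h : Lit (act g K) tb l) :
    Lit K tb l' := by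
  rw [symL, an_eq, lt_eq, frb_eq] at e
  have := symA_s V e.1 e.2
  rw [act, if_pos e.1] at h
  have b : ∀ n, bit n = decide (n % 2 ≠ 0) := fun n => by
    rw [Bool.eq_iff_iff, bit_eq, decide_eq_true_iff]; omega
  rw [b, b] at this
  change (tb (l / 2)).sem _ ↔ cond _ (¬ (tb (l' / 2)).sem K) ((tb (l' / 2)).sem K) at this
  unfold Lit at h ⊢
  split_ifs at h ⊢ with x y y <;> simp_all [xr]

end

end Pool.Agent.P.MP_53fdf1_co.R
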