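import Pool.Agent.P.MP_53fdf1_co.RFastS
import Pool.Agent.P.MP_53fdf1_co.RSym

set_option autoImplicit false

namespace Pool.Agent.P.MP_53fdf1_co.R.Fa

open Po Ln RRup

noncomputable section

def TP : ℕ := 0x95a989deb9320e95316d741f100443216549d6d8be5d07c4c74254b634850044394ed7a571952d8d73e11320e910c85006569de98ae54c5b4c83a5cf8444300485952d89d6f931d09741f15316d0048510e53a56d7c65cf8454b634c74248510c01b4b14bcf3541927629ab741f10044329292acf16cde0e8bce64a14b63485004629caf6ad3385a9ac7ba30320e910c85082d2bcf14cd58a6ad0649dcf84443004a4a4b16acf373992883a2f5316d0048518a72ad2f6ce1ee8c16a6b0c74248510c20a6256ae6773a4c85316d83a2f0046221675952f9b61f1740c74256a6b08508043b5e53c66956354b73e114192710ca40067795ab9a616d530c83a5ee8c04308085b6254be675424c7741f1629ab004a410e9594f19b5e1173d4b634e64a08518801c52d2cd6f349d06629ab83a2f00462292b3a4b37c5a2f838e64a16a6b08508062bda72ce2b46b16a7ba304192710ca4082f3b4b35c51ab6290649dee8c043080a4c5a92cdeb34a0e683a2f629ab004a418ab49cb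38bda307b96a6b0e64a085188209deb995a98320e95b54c7c5d008043216d8be6549d5d07c50931d8d52ca400443a571994ed752d8d845cf3a4c81888500698ae6569dd4c5b4e93221173c62004859d6f9952d831d097c5d05b54c0808510ed7c6653a55cf8458d52d0931ca410c01bcf35b4b14419276ad8a7c5d00804329316cde92ace0e8bd283998d52ca400462ad3389caf65a9ac8c1ee3a4c81888508314cd6d2bcd8a6ad2741a1173c62004a4acf37a4b16399288be0e5b54c0808518af6ce272ad1ee8c1ac5a90931ca410c20ae677a62563a4c85b54c8be0e08062216f9b6275951f17410931dac5a8a408043c6695b5e536354b845cf49d06188a4006b9a62779596d530e9322307b86208085be675b6254424c77c5d06ad8a080a410f19b5e9594e1173d8d52d28398a418801cd6f3c52d249d066ad8a8be0e0806229337c5ab3a4a2f83928399ac5a8a408062ce2b4bda726b16a8c1ee49d06188a408335c52f3b49ab6292741a307b862080a4cdeb3c5a924a0e68be0e6ad8a080a418b38bdab49ca307b9ac5a928398a418820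

def TK : ℕ := 0x9abcde3456782100de9abc7834562100bcde9a5678342100bc9ade56347821009adebc3478562100debc9a78563421009abced3456872100de9acb7834652100bcdea95678432100bc9aed56348721009adecb3478652100debca978564321009acbde3465782100dea9bc7843562100bced9a5687342100bca9de56437821009aedbc3487562100decb9a78653421009acbed3465872100dea9cb7843652100bceda95687432100bca9ed56438721009aedcb3487652100decba97865432100a9bcde4356782100ed9abc8734562100cbde9a6578342100cb9ade6534782100a9debc4378562100edbc9a8756342100a9bced4356872100ed9acb8734652100cbdea96578432100cb9aed6534872100a9decb4378652100edbca98756432100a9cbde4365782100eda9bc8743562100cbed9a6587342100cba9de6543782100a9edbc4387562100edcb9a8765342100a9cbed4365872100eda9cb8743652100cbeda96587432100cba9ed6543872100a9edcb4387652100edcba9876543210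

def MK : ℕ := 0x10000100001000010000100001000010000100001000010000100001000010000100001000010000100001000010000100001000010000100001000010000100001000010000100001000010000100001000010000100001000010000100001000010000100001000010000100001000010000100001000010000100001000010000100001000010000100001000010000100001000010000100001

def BG : ℕ := 0x1000000000000000000000000000000000000000000000000000000000000000000000000000

def aP (g i : ℕ) : ℕ := Nat.mod (Nat.shiftRight TP (Nat.mul 5 (Nat.add (Nat.mul 26 g) i))) 32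

def aK (g i k : ℕ) : ℕ :=
  Nat.mod (Nat.shiftRight TK (Nat.mul 4 (Nat.add (Nat.mul 16 (Nat.mul g (Nat.sub 1 (Nat.div i 6)))) k))) 16

/-- zero if piece `i` has a symbol `k` -/
def bd (i k : ℕ) : ℕ := Nat.add (Nat.div i 26) 
  (Nat.div k (Nat.add (Nat.sub 7 (Nat.mul 2 (Nat.div i 18))) (Nat.mul 8 (Nat.sub 1 (Nat.div i 6)))))

def mD (g d : ℕ) : ℕ := Nat.add (Nat.mul BG (bd (Nat.div d 16) (Nat.mod d 16)))
  (Nat.succ (Nat.add (Nat.mul 16 (aP g (Nat.div d 16))) (aK g (Nat.div d 16) (Nat.mod d 16))))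

/-- the image of a monomial -/
def mM (g f : ℕ) : ℕ → ℕ := @Nat.rec (fun _ => ℕ → ℕ) (fun _ => 0) (fun _ ih n => @Nat.rec (fun _ => ℕ) 0
  (fun _ _ => Nat.add (cs (Nat.succ (Nat.sub (Nat.mod n 512) 1)) (mD g)) (Nat.mul 512 (ih (Nat.div n 512)))) n) f

def mA (g v : ℕ) : ℕ := Nat.add (Nat.mul BG (bd (Nat.div v 32) (Nat.mod (Nat.div v 2) 16)))
  (Nat.succ (Nat.add (Nat.add (Nat.mul 32 (aP g (Nat.div v 32)))
    (Nat.mul 2 (aK g (Nat.div v 32) (Nat.mod (Nat.div v 2) 16)))) (Nat.mod v 2)))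

/-- the image of a list of variables -/
def mL (g f : ℕ) : ℕ → ℕ := @Nat.rec (fun _ => ℕ → ℕ) (fun _ => 0) (fun _ ih n => @Nat.rec (fun _ => ℕ) 0
  (fun v _ => Nat.add (mA g v) (Nat.mul 1024 (ih (Nat.div n 1024)))) (Nat.mod n 1024)) f

def tq1 (g : ℕ) (k : ℕ → ℕ → ℕ) (n m w : ℕ) : ℕ :=
  Nat.add (Nat.add (Nat.xor (Nat.mod n 1099511627776) (Nat.mod m 1099511627776))
    (Nat.xor (fld m 40 w) (cs (Nat.succ (fld n 40 w)) (mM g 16))))
    (k (Nat.shiftRight n (Nat.add 40 w)) (Nat.shiftRight m (Nat.add 40 w)))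

def tq (g : ℕ) (k : ℕ → ℕ → ℕ) (n m : ℕ) : ℕ :=
  @Nat.rec (fun _ => ℕ) m (fun _ _ => tq1 g k n m (Nat.mul 9 (fld n 1 5))) n

def tG (g i p : ℕ) : ℕ := frc (mM g 16 (Nat.div p 2)) fun m => Nat.add (tv i (bit p) m) (Nat.mul (Nat.div m BG) BAD)

def tg1 (g i : ℕ) (k : ℕ → ℕ) (n w : ℕ) : ℕ :=
  Nat.add (Nat.mul (fld n 6 34) (cs (Nat.succ (Nat.add (Nat.mul 2 (fld n 40 w)) (Nat.mod n 2))) (tG g i)))
    (k (Nat.shiftRight n (Nat.add 40 w)))

def tg (g i : ℕ) (k : ℕ → ℕ) (n : ℕ) : ℕ := @Nat.rec (fun _ => ℕ) 0 (fun _ _ => tg1 g i k n (Nat.mul 9 (fld n 1 5))) n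

def lqG (g i n : ℕ) : ℕ := tg g i (tg g i (tg g i (tg g i (tg g i (tg g i fun n => Nat.mul n BAD))))) n

def sQ (g n m : ℕ) : ℕ := @Nat.rec (fun _ => ℕ) 0
  (fun _ _ => cs (Nat.succ (Nat.div (Nat.sub (fld m (Nat.sub 80 (Nat.mul 40 (fld m 1 1))) 9) 1) 16)) fun i =>
    zv (Nat.add (lqG g i n) (lqN i 1 m))) (itr (tq g) (fun _ _ => 1) 4 n m)

def sM (g n m : ℕ) : ℕ := Nat.add (Nat.xor (Nat.mod n 4294967296) (Nat.mod m 4294967296))
  (Nat.add (Nat.xor (fld m 32 240) (cs (Nat.succ (fld n 32 240)) (mL g 24)))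
    (Nat.xor (fld m 272 240) (cs (Nat.succ (fld n 272 240)) (mL g 24))))

def sT (g n m : ℕ) : ℕ := cs (Nat.succ (Nat.div n 8)) fun v =>
  Nat.add (Nat.div (mA g v) BG) (Nat.xor (Nat.succ (Nat.div m 8)) (mA g v))

def nA (g u : ℕ) : ℕ := Nat.add (Nat.mul BG (Nat.add (Nat.add (Nat.div (fld u 3 8) 26) (Nat.div (fld u 11 8) 26))
  (Nat.div (fld u 19 3) 6))) (Nat.add (Nat.add (aP g (fld u 3 8)) (Nat.mul 256 (aP g (fld u 11 8))))
    (Nat.mul 65536 (aP g (fld u 19 3))))

def g0 (g j : ℕ) : ℕ := Nat.add 3 (Nat.mul 10 (gp g j))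

def g1 (g j : ℕ) : ℕ := iff (vB g j) 2 0

def g2 (g j : ℕ) : ℕ := iff (vB g j) 576 0

def cF (g j x k : ℕ) : ℕ :=
  Nat.xor (Nat.add (Nat.mod (Nat.shiftRight k (g0 g j)) 1024) (Nat.mul (g1 g j) x)) (Nat.add x (g2 g j))

def sN1 (g k k' : ℕ) : ℕ := Nat.add (Nat.add (Nat.sub 14 k) (Nat.sub 14 k'))
  (Nat.add (cF g 0 (gq k 0) k') (Nat.add (cF g 1 (gq k 1) k') (cF g 2 (gq k 2) k')))

def sN (g n m : ℕ) : ℕ := Nat.add (Nat.xor (fld m 3 19) (cs (Nat.succ (Nat.mod n 4194304)) (nA g)))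
  (sN1 g (Nat.shiftRight n 19) (Nat.shiftRight m 19))

/-- zero if the atom with code `m` is the image of the one with code `n` -/
def sA1 (g n m : ℕ) : ℕ := Nat.add (Nat.add (Nat.div g 48) (Nat.xor (Nat.mod n 8) (Nat.mod m 8)))
  (@Nat.rec (fun _ => ℕ) 1 (fun t _ => @Nat.rec (fun _ => ℕ) (sQ g (Nat.div n 8) (Nat.div m 8))
    (fun t _ => @Nat.rec (fun _ => ℕ) (sM g n m) (fun t _ => @Nat.rec (fun _ => ℕ) (sT g n m)
      (fun t _ => @Nat.rec (fun _ => ℕ) (sN g n m) (fun _ _ => 1) t) t) t) t) (Nat.sub 5 (Nat.mod n 8)))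

/-- zero if literal `y` is the image of literal `l` under `g` -/
def symF (ta : ℕ → ℕ) (g l y : ℕ) : ℕ := @Nat.rec (fun _ => ℕ) 0 (fun _ _ => slow (symL (tbl ta) g l y))
  (Nat.add (Nat.mod (Nat.add l y) 2) (sA1 g (ta (Nat.div l 2)) (ta (Nat.div y 2))))

def wk1 (S : ℕ → ℕ → ℕ) (k : ℕ → ℕ → ℕ) (o R : ℕ) : ℕ := @Nat.rec (fun _ => ℕ) R (fun d _ =>
  cs (Nat.succ (Nat.add o d)) fun g => cs (Nat.shiftRight R (Nat.mul 20 d)) fun r =>
    Nat.add (Nat.add (Nat.mod R (Nat.shiftLeft 1 (Nat.mul 20 d))) (S g (Nat.mod (Nat.succ r) 1048576)))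
      (k (Nat.succ g) (Nat.div (Nat.succ r) 1048576))) (Nat.mod (Nat.land (Nat.xor R (Nat.pred R)) MK) 1048575)

/-- a test of row `l` of the table of images -/
def thZ (ta row : ℕ → ℕ) (l : ℕ) : ℕ := itr (wk1 fun g y => symF ta g l y) (fun _ _ => 1) 8 0 (row l)

variable {K : Cfg} {g i : ℕ}

theorem aP_s : ∀ g < 48, ∀ i < 26, aP g i = actP g i := by decide +kernel

theorem aK_s : ∀ g < 48, ∀ i < 26, ∀ k < 15, aK g i k = actK g i k := by decide +kernel

theorem BG_s {a b : ℕ} (h : Nat.add (Nat.mul BG a) b < BG) : a = 0 := by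
  rcases Nat.eq_zero_or_pos a with a0 | a0
  · exact a0
  · have : BG ≤ BG * a := Nat.le_mul_of_pos_right _ a0
    rw [Nat.add_eq, Nat.mul_eq] at h
    omega

theorem bd_s {i k : ℕ} (h : bd i k = 0) : i < 26 ∧ k < if i < 6 then 15 else if i < 18 then 7 else 5 := by
  obtain ⟨a, b⟩ := add0 h
  change i / 26 = 0 at a
  change k / (7 - 2 * (i / 18) + 8 * (1 - i / 6)) = 0 at b
  refine ⟨by omega, ?_⟩
  split_ifs with c d
  · rw [Nat.div_eq_of_lt c, show i / 18 = 0 by omega] at b; omega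
  · rw [show 1 - i / 6 = 0 by omega, show i / 18 = 0 by omega] at b; omega
  · rw [show 1 - i / 6 = 0 by omega, show i / 18 = 1 by omega] at b; omega

theorem mM_s (H : Hom K.v) (hg : g < 48) (f : ℕ) : ∀ n, mM g f n < BG →
    ev (pull g K).v (trm f n) = ev K.v (trm f (mM g f n)) := by
  induction f with
  | zero => exact fun _ _ => (ev_cst pull_hom _ _).trans (ev_cst H _ _).symm
  | succ f ih =>
    rintro (_ | n) h
    · exact (ev_cst pull_hom _ _).trans (ev_cst H _ _).symm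
    have e : mM g (f + 1) (n + 1) = mD g ((n + 1) % 512 - 1) + 512 * mM g f ((n + 1) / 512) := rfl
    have t : ∀ m, m ≠ 0 → trm (f + 1) m = mul (symP ((m % 512 - 1) / 16) ((m % 512 - 1) % 16)) (trm f (m / 512)) := by
      rintro (_ | m) a
      exacts [absurd rfl a, rfl]
    rw [t _ n.succ_ne_zero]
    rw [e] at h ⊢
    generalize (n + 1) % 512 - 1 = d at *
    have z := BG_s (lt_of_le_of_lt (Nat.le_add_right _ _) h)
    obtain ⟨a, b⟩ := bd_s z
    change d / 16 < 26 at a
    change d % 16 < if d / 16 < 6 then 15 else if d / 16 < 18 then 7 else 5 at b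
    have b' : d % 16 < 15 := by split_ifs at b <;> omega
    have e : mD g d = 16 * actP g (d / 16) + actK g (d / 16) (d % 16) + 1 := by
      rw [mD, z, ← aP_s g hg _ a, ← aK_s g hg _ a _ b']; exact Nat.zero_add _
    have p := (actP_s g hg _ a).1
    have q := (actK_s g hg _ a _ b').1
    have r := ih ((n + 1) / 512) (by omega)
    have s := pull_sy H hg a b
    rw [e]
    generalize actP g (d / 16) = x at *
    generalize actK g (d / 16) (d % 16) = y at *
    generalize mM g f ((n + 1) / 512) = w at *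
    rw [t _ (by omega), show ((16 * x + y + 1 + 512 * w) % 512 - 1) / 16 = x by omega,
      show ((16 * x + y + 1 + 512 * w) % 512 - 1) % 16 = y by omega, show (16 * x + y + 1 + 512 * w) / 512 = w by omega,
      ev_mul pull_hom, ev_mul H, r]
    exact congrArg (· * _) s

theorem mA_s (H : Hom K.v) (hg : g < 48) {v : ℕ} (h : mA g v < BG) :
    ∃ u < 1023, mA g v = u + 1 ∧ (pull g K).lp v = K.lp u := by
  have z := BG_s h
  obtain ⟨a, b⟩ := bd_s z
  change v / 32 < 26 at a
  change v / 2 % 16 < if v / 32 < 6 then 15 else if v / 32 < 18 then 7 else 5 at b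
  have b' : v / 2 % 16 < 15 := by split_ifs at b <;> omega
  have p := (actP_s g hg _ a).1
  have q := (actK_s g hg _ a _ b').1
  refine ⟨actL g v, ?_, ?_, pull_lp H hg ?_⟩
  · change 32 * actP g (v / 32) + 2 * actK g (v / 32) (v / 2 % 16) + v % 2 < _
    omega
  · rw [mA, z]
    change 0 + (32 * aP g (v / 32) + 2 * aK g (v / 32) (v / 2 % 16) + v % 2 + 1) = _
    rw [aP_s g hg _ a, aK_s g hg _ a _ b', zero_add]
    rfl
  · simp only [okL, an_eq, lt_eq, iff_eq]
    exact ⟨a, b⟩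

theorem mL_s (H : Hom K.v) (hg : g < 48) (f : ℕ) : ∀ n, mL g f n < BG →
    ((dl f n).map (pull g K).lp).prod = ((dl f (mL g f n)).map K.lp).prod := by
  induction f with
  | zero => exact fun _ _ => rfl
  | succ f ih =>
    intro n
    have t : ∀ m v, m % 1024 = v + 1 → dl (f + 1) m = v :: dl f (m / 1024) := fun m v a => by
      change @Nat.rec (fun _ => List ℕ) [] (fun v _ => v :: dl f (m / 1024)) (m % 1024) = _
      rw [a]
    have e : mL g (f + 1) n = @Nat.rec (fun _ => ℕ) 0 (fun v _ => mA g v + 1024 * mL g f (n / 1024)) (n % 1024) := rfl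
    rw [e]
    cases x : n % 1024 with
    | zero =>
      intro _
      change (List.map _ (@Nat.rec (fun _ => List ℕ) [] (fun v _ => v :: dl f (n / 1024)) (n % 1024))).prod = _
      rw [x]; rfl
    | succ v =>
      intro h
      change mA g v + 1024 * mL g f (n / 1024) < BG at h
      obtain ⟨u, a, b, c⟩ := mA_s H hg (lt_of_le_of_lt (Nat.le_add_right _ _) h)
      have r := ih (n / 1024) (by omega)
      change _ = ((dl (f + 1) (mA g v + 1024 * mL g f (n / 1024))).map K.lp).prod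
      rw [b]
      generalize mL g f (n / 1024) = w at *
      rw [t n v x, t _ u (by omega), show (u + 1 + 1024 * w) / 1024 = w by omega, List.map_cons, List.map_cons,
        List.prod_cons, List.prod_cons, r, c]

theorem dp_s {v : ℕ → ℝ} (H : Hom v) (f n : ℕ) : ev v (nrm (dp (f + 1) n)) =
    sg (bit n) (fld n 6 34) * ev v (trm 16 (fld n 40 (9 * fld n 1 5))) + ev v (nrm (dp f (n >>> (40 + 9 * fld n 1 5)))) := by
  cases n with
  | zero => rw [dp0, Nat.zero_shiftRight, dp0, show fld 0 6 34 = 0 from rfl]; simp [sg]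
  | succ n =>
    have e : dp (f + 1) (n + 1) = cons (bit (n + 1)) (fld (n + 1) 6 34) (fld (n + 1) 40 (9 * fld (n + 1) 1 5))
        (dp f ((n + 1) >>> (40 + 9 * fld (n + 1) 1 5))) := by
      change frb (bit (n + 1)) (fun g => cons g (fld (n + 1) 6 34) (fld (n + 1) 40 (9 * fld (n + 1) 1 5))
        (dp f ((n + 1) >>> (40 + 9 * fld (n + 1) 1 5)))) = _
      rw [frb_eq]
    rw [e]
    change ev v (add (mulT _ _ 1 (trm 16 _)) (nrm _)) = _
    rw [ev_add, ev_mulT H, H.one, mul_one]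

theorem fld_lt (n p : ℕ) {w : ℕ} (h : w ≤ 300) : fld n p w < BG := by
  refine lt_of_lt_of_le (Nat.mod_lt _ (show 0 < 1 <<< w by rw [Nat.one_shiftLeft]; positivity)) ?_
  change 1 <<< w ≤ _
  rw [Nat.one_shiftLeft]
  exact (Nat.pow_le_pow_right (by decide) h).trans (by decide +kernel)

theorem fld_eq (n p w : ℕ) : fld n p w = n / 2 ^ p % 2 ^ w := by
  change n >>> p % 1 <<< w = _
  rw [Nat.one_shiftLeft, Nat.shiftRight_eq_div_pow]

theorem bit_c {n m : ℕ} (h : n % 2 = m % 2) : bit n = bit m := by rw [Bool.eq_iff_iff, bit_eq, bit_eq, h]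

theorem tq_s (H : Hom K.v) (hg : g < 48) (j : ℕ) : ∀ f n m, (tq g)^[j] (fun _ _ => 1) n m = 0 →
    ev (pull g K).v (nrm (dp f n)) = ev K.v (nrm (dp f m)) := by
  induction j with
  | zero => exact fun _ _ _ h => absurd h one_ne_zero
  | succ j ih =>
    rintro (_ | f) n m h
    · rfl
    rw [Function.iterate_succ_apply'] at h
    cases n with
    | zero => rw [show m = 0 from h, dp0]; rfl
    | succ n =>
      obtain ⟨a, c⟩ := add0 h
      obtain ⟨a, b⟩ := add0 a
      have a : (n + 1) % 1099511627776 = m % 1099511627776 := xor0 a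
      have b : fld m 40 (9 * fld (n + 1) 1 5) = mM g 16 (fld (n + 1) 40 (9 * fld (n + 1) 1 5)) := xor0 b
      have c := ih f _ _ c
      generalize n + 1 = n at *
      have e1 : fld n 1 5 = fld m 1 5 := by rw [fld_eq, fld_eq]; omega
      have e2 : fld n 6 34 = fld m 6 34 := by rw [fld_eq, fld_eq]; omega
      have l : 9 * fld n 1 5 ≤ 300 := by rw [fld_eq]; omega
      rw [dp_s pull_hom, dp_s H, ← e1, ← e2, ← bit_c (show n % 2 = m % 2 by omega), b,
        mM_s H hg 16 _ (b ▸ fld_lt _ _ l)]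
      exact congrArg (_ + ·) c

theorem tg_s (H : Hom K.v) (hg : g < 48) {k : ℕ → ℕ} {f : ℕ}
    (hk : ∀ n, Rp K i (k n) (ev (pull g K).v (nrm (dp f n)))) (n : ℕ) :
    Rp K i (tg g i k n) (ev (pull g K).v (nrm (dp (f + 1) n))) := by
  cases n with
  | zero => exact Rp.zero.cast (by rw [dp0]; rfl)
  | succ n =>
    rw [dp_s pull_hom]
    change Rp K i (Nat.add (Nat.mul _ (tG g i (2 * fld (n + 1) 40 (9 * fld (n + 1) 1 5) + (n + 1) % 2))) (k _)) _
    generalize fld (n + 1) 40 (9 * fld (n + 1) 1 5) = m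
    have r : Rp K i (tG g i (2 * m + (n + 1) % 2)) (sg (bit (n + 1)) (ev (pull g K).v (trm 16 m))) := by
      rw [tG, frc_eq, show Nat.div (2 * m + (n + 1) % 2) 2 = m by change _ / 2 = _; omega,
        bit_c (show (2 * m + (n + 1) % 2) % 2 = (n + 1) % 2 by omega)]
      refine Rp.orBad fun e => (pk_s H _).cast ?_
      rw [ev_sgP, mM_s H hg 16 m ((Nat.div_eq_zero_iff.1 e).resolve_left (by decide +kernel))]
    refine ((r.smul _).add (hk _)).cast ?_
    cases bit (n + 1) <;> simp [sg]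

theorem sQ_s (H : Hom K.v) (hg : g < 48) {n m : ℕ} (e : sQ g n m = 0) :
    ev (pull g K).v (nrm (dp 100 n)) = ev K.v (nrm (dp 100 m)) := by
  unfold sQ at e
  cases x : itr (tq g) (fun _ _ => 1) 4 n m with
  | zero => exact tq_s H hg _ _ _ _ (itr_eq (tq g) _ 4 ▸ x)
  | succ t =>
    rw [x] at e
    obtain ⟨i, -, e⟩ := cs_s e
    have a : Rp K i (lqG g i n) (ev (pull g K).v (nrm (dp 100 n))) := by
      refine tg_s H hg (f := 99) (tg_s H hg (tg_s H hg (tg_s H hg (tg_s H hg (tg_s H hg fun n => ?_))))) n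
      have := Rp.orBad (K := K) (i := i) (T := 0) (e := n) (x := ev (pull g K).v (nrm (dp 94 n))) (by
        rintro rfl; exact Rp.zero.cast (by rw [dp0]; rfl))
      rwa [Nat.add_eq, zero_add] at this
    have := zv_s (a.add (lqN_s H true m)) e
    simp only [sg, cond_true] at this
    linarith

theorem cF_s {j k k' : ℕ} (e : cF g j (gq k j) k' = 0) : gqG g k k' j = true := by
  have e : gq k' (gp g j) + g1 g j * gq k j = gq k j + g2 g j := xor0 e
  revert e
  unfold gqG g1 g2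
  cases vB g j <;> simp only [iff_t, iff_f, Nat.beq_eq, Nat.add_eq] <;> omega

theorem sA1_s (V : Valid K) {n m : ℕ} (e : sA1 g n m = 0) : g < 48 ∧ ((dec n).sem (pull g K) ↔ (dec m).sem K) := by
  obtain ⟨a, e⟩ := add0 e
  obtain ⟨a, b⟩ := add0 a
  have hg : g < 48 := by change g / 48 = 0 at a; omega
  have b : n % 8 = m % 8 := xor0 b
  refine ⟨hg, ?_⟩
  have l : n % 8 < 8 := Nat.mod_lt _ (by decide)
  change @Nat.rec (fun _ => ℕ) 1 _ (5 - n % 8) = 0 at e
  generalize x : n % 8 = t at *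
  interval_cases t
  any_goals exact absurd e one_ne_zero
  · obtain ⟨c, e⟩ := add0 e
    obtain ⟨d, e⟩ := add0 e
    obtain ⟨d1, d2⟩ := add0 d
    obtain ⟨e0, e⟩ := add0 e
    obtain ⟨e1, e2⟩ := add0 e
    have c : fld m 3 19 = nA g (n % 4194304) := xor0 c
    have z := BG_s (c ▸ fld_lt m 3 (by decide))
    have s : ∀ n, n % 8 = 1 → dec n = .sep (fld n 3 8) (fld n 11 8) (Nat.shiftRight n 19) := fun n h => by
      simp only [dec, frc_eq]
      rw [show Nat.mod n 8 = 1 from h]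
      rfl
    have w : ∀ n, Nat.shiftRight n 19 = n / 2 ^ 19 := fun n => Nat.shiftRight_eq_div_pow n 19
    have f1 : fld (n % 4194304) 3 8 = fld n 3 8 := by rw [fld_eq, fld_eq]; omega
    have f2 : fld (n % 4194304) 11 8 = fld n 11 8 := by rw [fld_eq, fld_eq]; omega
    have f3 : fld (n % 4194304) 19 3 = Nat.shiftRight n 19 % 8 := by rw [fld_eq, w]; omega
    rw [nA, z, f1, f2, f3] at c
    rw [f1, f2, f3] at z
    change fld n 3 8 / 26 + fld n 11 8 / 26 + Nat.shiftRight n 19 % 8 / 6 = 0 at z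
    have a1 : fld n 3 8 < 26 := by omega
    have a2 : fld n 11 8 < 26 := by omega
    have a3 : Nat.shiftRight n 19 % 8 < 6 := by omega
    rw [aP_s g hg _ a1, aP_s g hg _ a2, aP_s g hg _ (by omega)] at c
    have p1 := (actP_s g hg _ a1).1
    have p2 := (actP_s g hg _ a2).1
    change _ = 0 + (_ + 256 * _ + 65536 * _) at c
    rw [fld_eq m] at c
    have d1 := Nat.sub_eq_zero_iff_le.1 d1
    have d2 := Nat.sub_eq_zero_iff_le.1 d2
    rw [s n x, s m b.symm, show fld m 3 8 = actP g (fld n 3 8) by rw [fld_eq m]; omega,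
      show fld m 11 8 = actP g (fld n 11 8) by rw [fld_eq m]; omega]
    refine pull_in V hg a1 a2 (by omega) ?_
    simp only [inG, an_eq, lt_eq, Nat.beq_eq]
    refine ⟨⟨d2, a3, ?_⟩, cF_s e0, cF_s e1, cF_s e2⟩
    change Nat.shiftRight m 19 % 8 = actP g (Nat.shiftRight n 19 % 8)
    rw [w m]; omega
  · obtain ⟨c, d⟩ := add0 e
    obtain ⟨u, -, p, q⟩ := mA_s V.hom hg ((Nat.div_eq_zero_iff.1 c).resolve_left (by decide +kernel))
    have d : m / 8 + 1 = u + 1 := (xor0 d).trans p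
    rw [show n = 2 + 8 * (n / 8) by omega, show m = 2 + 8 * u by omega, dec_pos, dec_pos]
    change 0 < _ ↔ 0 < _
    rw [← q]
    rfl
  · obtain ⟨c, e⟩ := add0 e
    obtain ⟨d, e⟩ := add0 e
    have c : n % 4294967296 = m % 4294967296 := xor0 c
    have d : fld m 32 240 = mL g 24 (fld n 32 240) := xor0 d
    have e : fld m 272 240 = mL g 24 (fld n 272 240) := xor0 e
    rw [dec_mono x, dec_mono b.symm, bit_c (show n / 8 % 2 = m / 8 % 2 by omega),
      bit_c (show n / 16 % 2 = m / 16 % 2 by omega), show fld n 8 24 = fld m 8 24 by rw [fld_eq, fld_eq]; omega]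
    simp only [Atom.sem]
    rw [mL_s V.hom hg 24 _ (d ▸ fld_lt _ _ (by decide)), mL_s V.hom hg 24 _ (e ▸ fld_lt _ _ (by decide)), d, e]
  · have s : ∀ n, n % 8 = 4 → dec n = .poly (dp 100 (Nat.div n 8)) := fun n h => by
      simp only [dec, frc_eq]
      rw [show Nat.mod n 8 = 4 from h]
      rfl
    rw [s n x, s m b.symm]
    change 0 < _ ↔ 0 < _
    rw [sQ_s V.hom hg e]

theorem symF_s {ta : ℕ → ℕ} {l y : ℕ} (e : symF ta g l y = 0) (V : Valid K) (h : Lit (act g K) (tbl ta) l) :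
    Lit K (tbl ta) y := by
  unfold symF at e
  cases x : Nat.add (Nat.mod (Nat.add l y) 2) (sA1 g (ta (Nat.div l 2)) (ta (Nat.div y 2))) with
  | zero =>
    obtain ⟨a, b⟩ := add0 x
    obtain ⟨hg, b⟩ := sA1_s V b
    change (l + y) % 2 = 0 at a
    rw [act, if_pos hg] at h
    unfold Lit at h ⊢
    split_ifs at h ⊢
    exacts [b.1 h, by omega, by omega, fun z => h (b.2 z)]
  | succ t =>
    rw [x] at e
    refine symL_s ?_ V h
    revert e
    cases symL (tbl ta) g l y
    exacts [fun e => absurd e one_ne_zero, fun _ => rfl]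

theorem wk1_s {S : ℕ → ℕ → ℕ} (j : ℕ) : ∀ o R, (wk1 S)^[j] (fun _ _ => 1) o R = 0 → ∀ t,
    R >>> (20 * t) % 1048576 ≠ 0 → S (o + t) (R >>> (20 * t) % 1048576) = 0 := by
  induction j with
  | zero => exact fun _ _ h => absurd h one_ne_zero
  | succ j ih =>
    intro o R h t n
    rw [Function.iterate_succ_apply', wk1] at h
    generalize Nat.mod (Nat.land (Nat.xor R (Nat.pred R)) MK) 1048575 = d at h
    cases d with
    | zero => rw [show R = 0 from h] at n; simp at n
    | succ d =>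
      obtain ⟨r, e, h⟩ := cs_s (n := R >>> (20 * d)) h
      obtain ⟨a, b⟩ := add0 h
      obtain ⟨c, a⟩ := add0 a
      rcases Nat.lt_trichotomy t d with x | rfl | x
      · refine absurd (Nat.eq_of_testBit_eq fun u => ?_) n
        have := congrArg (·.testBit (20 * t + u)) (show R % 2 ^ (20 * d) = 0 by rw [← Nat.one_shiftLeft]; exact c)
        simp only [Nat.testBit_mod_two_pow, Nat.zero_testBit] at this
        rw [show 1048576 = 2 ^ 20 by norm_num, Nat.testBit_mod_two_pow, Nat.testBit_shiftRight, Nat.zero_testBit]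
        by_cases u2 : u < 20
        · rw [decide_eq_true (show 20 * t + u < 20 * d by omega)] at this
          simpa [u2] using this
        · simp [u2]
      · rw [e]; exact a
      · obtain ⟨u, rfl⟩ := Nat.exists_eq_add_of_lt x
        have k : R >>> (20 * (d + u + 1)) = ((r + 1) / 1048576) >>> (20 * u) := by
          rw [show 20 * (d + u + 1) = 20 * d + 20 + 20 * u by ring, Nat.shiftRight_add, Nat.shiftRight_add, e,
            Nat.shiftRight_eq_div_pow _ 20]
        rw [k] at n ⊢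
        rw [show o + (d + u + 1) = o + d + 1 + u by ring]
        exact ih _ _ b u n

theorem rowsF {ta row : ℕ → ℕ} {L L' : ℕ} (e : allZ (thZ ta row) L L' = 0)
    (u : Rows Valid (fun K a => (dec (ta a)).sem K) act row L) :
    Rows Valid (fun K a => (dec (ta a)).sem K) act row L' := fun l hl g hg x hx ht h1 =>
  (Nat.lt_or_ge l L).elim (fun h2 => u l h2 g hg x hx ht h1) fun h2 =>
    symF_s (l := l) (by
      simpa only [zero_add] using wk1_s (S := fun g y => symF ta g l y) _ _ _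
        ((congrFun₂ (itr_eq _ _ 8) _ _).symm.trans (allZ_ok e l h2 hl)) g h1) hx ht

end

end Pool.Agent.P.MP_53fdf1_co.R.Fa
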