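import Pool.Agent.P.MP_53fdf1_co.RArc
import Pool.Agent.P.MP_53fdf1_co.RPin

set_option autoImplicit false

namespace Pool.Agent.P.MP_53fdf1_co.R.Fa

open Po Ln

noncomputable section

/-- the zero vector of weight one -/
def U : ℕ := 0x1000000000000000000000000000000010000000000000000000000000000000100000000000000000000000000000001000000000000000000000000000000010000000000000000000000000000000100000000000000000000000000000001

def BAD : ℕ := 0x40000000000000000000000000000000000000000000000000000000000000000000000000000000000000000000000000000000000000000000000000000000000000000000000000000000000000000000000000000000000000000000000000000000000000000000000000000000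

def uv (g : Bool) (j : ℕ) : ℕ := iff g (Nat.sub U (Nat.shiftLeft 1 j)) (Nat.add U (Nat.shiftLeft 1 j))

def um (i : ℕ) (g : Bool) (m : ℕ) : ℕ :=
  iff (Nat.beq m 1) (uv g 0) (iff (Nat.beq m (pr i 0)) (uv g 128) (iff (Nat.beq m (pr i 1)) (uv g 256)
    (iff (Nat.beq m (pr i 2)) (uv g 384) (iff (Nat.beq m (pr i 3)) (uv g 512) (iff (Nat.beq m (pr i 4)) (uv g 640) BAD)))))

/-- a linear polynomial of piece `i` as one number: six coefficients shifted by the weight, and the weight -/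
def pk (i : ℕ) (p : Po) : ℕ := @Po.rec (fun _ => ℕ) 0 (fun g c m _ ih => Nat.add (Nat.mul c (um i g m)) ih) p

def tv (i : ℕ) (g : Bool) (m : ℕ) : ℕ := pk i (sgP g (trm 16 m))

def lq (i : ℕ) (b : Bool) (q : Po) : ℕ :=
  @Po.rec (fun _ => ℕ) 0
    (fun g c m _ ih => Nat.add (Nat.mul c (@Bool.rec (fun _ => ℕ) (tv i false m) (tv i true m) (xr b g))) ih) q

/-- the polynomial of an atom -/
def la (i : ℕ) (b : Bool) (A : Atom) : ℕ :=
  @Atom.rec (fun _ => ℕ) (fun _ _ => BAD) (fun _ _ _ => BAD)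
    (fun n => iff (lt (Nat.div n 32) 26) (pk i (sgP b (sgO n))) BAD) (fun _ _ _ _ _ => BAD) (lq i b) A

def oV (i : ℕ) (g : Bool) (n : ℕ) : ℕ := pk i (sgP g (sgO n))

def cV (i : ℕ) (g : Bool) (n : ℕ) : ℕ := pk i (sgP g (cP (Nat.div n 32)))

def f128 (c j : ℕ) : ℕ := Nat.mod (Nat.shiftRight c j) 340282366920938463463374607431768211456

def df (a b : ℕ) : ℕ := Nat.add (Nat.sub a b) (Nat.sub b a)

/-- the size of the coefficient of the offset -/
def ab (c : ℕ) : ℕ := Nat.add (df (f128 c 384) (Nat.shiftRight c 768))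
  (Nat.add (df (f128 c 512) (Nat.shiftRight c 768)) (df (f128 c 640) (Nat.shiftRight c 768)))

/-- zero if the number is a zero vector -/
def zv (c : ℕ) : ℕ := Nat.add (Nat.xor c (Nat.mul (Nat.shiftRight c 768) U)) (Nat.shiftRight c 894)

def Rp (K : Cfg) (i T : ℕ) (x : ℝ) : Prop :=
  ∃ a b c d e f W : ℕ, T = a + 340282366920938463463374607431768211456 * (b + 340282366920938463463374607431768211456 * (c + 340282366920938463463374607431768211456 * (d + 340282366920938463463374607431768211456 * (e + 340282366920938463463374607431768211456 * (f + 340282366920938463463374607431768211456 * W))))) ∧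
    (W < 85070591730234615865843651857942052864 → (a ≤ 2 * W ∧ b ≤ 2 * W ∧ c ≤ 2 * W ∧ d ≤ 2 * W ∧ e ≤ 2 * W ∧ f ≤ 2 * W) ∧
      x = (a - W : ℝ) + (b - W : ℝ) * K.v (pr i 0) + (c - W : ℝ) * K.v (pr i 1) + (d - W : ℝ) * K.v (pr i 2) +
        (e - W : ℝ) * K.v (pr i 3) + (f - W : ℝ) * K.v (pr i 4))

variable {K : Cfg} {i : ℕ}

theorem Rp.zero : Rp K i 0 0 := ⟨0, 0, 0, 0, 0, 0, 0, rfl, fun _ => by simp⟩

theorem Rp.bad (x : ℝ) : Rp K i BAD x := ⟨0, 0, 0, 0, 0, 0, 85070591730234615865843651857942052864, by decide +kernel, fun h => absurd h (lt_irrefl _)⟩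

theorem Rp.add {S T : ℕ} {x y : ℝ} (p : Rp K i S x) (q : Rp K i T y) : Rp K i (Nat.add S T) (x + y) := by
  obtain ⟨a, b, c, d, e, f, W, rfl, p⟩ := p
  obtain ⟨a', b', c', d', e', f', W', rfl, q⟩ := q
  refine ⟨a + a', b + b', c + c', d + d', e + e', f + f', W + W', by rw [Nat.add_eq]; ring, fun h => ?_⟩
  obtain ⟨p, rfl⟩ := p (by omega)
  obtain ⟨q, rfl⟩ := q (by omega)
  exact ⟨by omega, by push_cast; ring⟩

theorem Rp.smul {T : ℕ} {x : ℝ} (n : ℕ) (p : Rp K i T x) : Rp K i (Nat.mul n T) (n * x) := by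
  rcases Nat.eq_zero_or_pos n with rfl | n0
  · simpa using Rp.zero
  obtain ⟨a, b, c, d, e, f, W, rfl, p⟩ := p
  refine ⟨n * a, n * b, n * c, n * d, n * e, n * f, n * W, by rw [Nat.mul_eq]; ring, fun h => ?_⟩
  obtain ⟨⟨p1, p2, p3, p4, p5, p6⟩, rfl⟩ := p (lt_of_le_of_lt (Nat.le_mul_of_pos_left W n0) h)
  have k : ∀ a, a ≤ 2 * W → n * a ≤ 2 * (n * W) := fun a h => by
    rw [mul_left_comm]; exact Nat.mul_le_mul_left n h
  exact ⟨⟨k _ p1, k _ p2, k _ p3, k _ p4, k _ p5, k _ p6⟩, by push_cast; ring⟩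

theorem Rp.cast {T : ℕ} {x y : ℝ} (p : Rp K i T x) (e : x = y) : Rp K i T y := e ▸ p

theorem shr (T n : ℕ) : Nat.shiftRight T (n + 128) = Nat.shiftRight T n / 340282366920938463463374607431768211456 := by
  change T >>> (n + 128) = T >>> n / _
  rw [Nat.shiftRight_add, Nat.shiftRight_eq_div_pow]

theorem Rp.ext {T : ℕ} {x : ℝ} (p : Rp K i T x) (h : Nat.shiftRight T 894 = 0) :
    x = (f128 T 0 - Nat.shiftRight T 768 : ℝ) + (f128 T 128 - Nat.shiftRight T 768 : ℝ) * K.v (pr i 0) +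
      (f128 T 256 - Nat.shiftRight T 768 : ℝ) * K.v (pr i 1) + (f128 T 384 - Nat.shiftRight T 768 : ℝ) * K.v (pr i 2) +
      (f128 T 512 - Nat.shiftRight T 768 : ℝ) * K.v (pr i 3) + (f128 T 640 - Nat.shiftRight T 768 : ℝ) * K.v (pr i 4) := by
  obtain ⟨a, b, c, d, e, f, W, t, p⟩ := p
  have h : Nat.shiftRight T 768 / 85070591730234615865843651857942052864 = 0 := by
    rw [← h]
    change _ = T >>> (768 + 126)
    rw [Nat.shiftRight_add, Nat.shiftRight_eq_div_pow]; rfl
  have e0 : Nat.shiftRight T 0 = T := rfl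
  have e1 : Nat.shiftRight T 128 = _ := shr T 0
  have e2 : Nat.shiftRight T 256 = _ := shr T 128
  have e3 : Nat.shiftRight T 384 = _ := shr T 256
  have e4 : Nat.shiftRight T 512 = _ := shr T 384
  have e5 : Nat.shiftRight T 640 = _ := shr T 512
  have e6 : Nat.shiftRight T 768 = _ := shr T 640
  obtain ⟨q, hx⟩ := p (by omega)
  clear p
  have m : ∀ j, f128 T j = Nat.shiftRight T j % 340282366920938463463374607431768211456 := fun _ => rfl
  rw [m, m, m, m, m, m]
  generalize Nat.shiftRight T 768 = t6 at *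
  generalize Nat.shiftRight T 640 = t5 at *
  generalize Nat.shiftRight T 512 = t4 at *
  generalize Nat.shiftRight T 384 = t3 at *
  generalize Nat.shiftRight T 256 = t2 at *
  generalize Nat.shiftRight T 128 = t1 at *
  rw [e0] at e1 ⊢
  obtain rfl : t1 = b + 340282366920938463463374607431768211456 * (c + 340282366920938463463374607431768211456 * (d + 340282366920938463463374607431768211456 * (e + 340282366920938463463374607431768211456 * (f + 340282366920938463463374607431768211456 * W)))) := by omega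
  obtain rfl : t2 = c + 340282366920938463463374607431768211456 * (d + 340282366920938463463374607431768211456 * (e + 340282366920938463463374607431768211456 * (f + 340282366920938463463374607431768211456 * W))) := by omega
  obtain rfl : t3 = d + 340282366920938463463374607431768211456 * (e + 340282366920938463463374607431768211456 * (f + 340282366920938463463374607431768211456 * W)) := by omega
  obtain rfl : t4 = e + 340282366920938463463374607431768211456 * (f + 340282366920938463463374607431768211456 * W) := by omega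
  obtain rfl : t5 = f + 340282366920938463463374607431768211456 * W := by omega
  obtain rfl : t6 = W := by omega
  have k : ∀ a r : ℕ, a ≤ 2 * t6 → (a + 340282366920938463463374607431768211456 * r) % 340282366920938463463374607431768211456 = a := fun a r h => by omega
  rw [hx, t, k _ _ q.1, k _ _ q.2.1, k _ _ q.2.2.1, k _ _ q.2.2.2.1, k _ _ q.2.2.2.2.1, k _ _ q.2.2.2.2.2]

theorem Rp.one : Rp K i U 0 := ⟨1, 1, 1, 1, 1, 1, 1, by decide +kernel, fun _ => by simp⟩

theorem zv_s {T : ℕ} {x : ℝ} (p : Rp K i T x) (h : zv T = 0) : x = 0 := by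
  obtain ⟨a, b⟩ := Nat.add_eq_zero_iff.1 h
  have q := (Rp.one (K := K) (i := i)).smul (Nat.shiftRight T 768)
  rw [← Nat.eq_of_xor_eq_zero a] at q
  rw [p.ext b, ← q.ext b, mul_zero]

theorem um_s (H : Hom K.v) (g : Bool) (m : ℕ) : Rp K i (um i g m) (sg g (K.v m)) := by
  simp only [um, iff_eq, Nat.beq_eq]
  split_ifs with a b c d e f
  · cases g
    · exact ⟨2, 1, 1, 1, 1, 1, 1, by decide +kernel, fun _ => by norm_num [a, sg, H.one]⟩
    · exact ⟨0, 1, 1, 1, 1, 1, 1, by decide +kernel, fun _ => by norm_num [a, sg, H.one]⟩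
  · cases g
    · exact ⟨1, 2, 1, 1, 1, 1, 1, by decide +kernel, fun _ => by norm_num [b, sg]⟩
    · exact ⟨1, 0, 1, 1, 1, 1, 1, by decide +kernel, fun _ => by norm_num [b, sg]⟩
  · cases g
    · exact ⟨1, 1, 2, 1, 1, 1, 1, by decide +kernel, fun _ => by norm_num [c, sg]⟩
    · exact ⟨1, 1, 0, 1, 1, 1, 1, by decide +kernel, fun _ => by norm_num [c, sg]⟩
  · cases g
    · exact ⟨1, 1, 1, 2, 1, 1, 1, by decide +kernel, fun _ => by norm_num [d, sg]⟩
    · exact ⟨1, 1, 1, 0, 1, 1, 1, by decide +kernel, fun _ => by norm_num [d, sg]⟩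
  · cases g
    · exact ⟨1, 1, 1, 1, 2, 1, 1, by decide +kernel, fun _ => by norm_num [e, sg]⟩
    · exact ⟨1, 1, 1, 1, 0, 1, 1, by decide +kernel, fun _ => by norm_num [e, sg]⟩
  · cases g
    · exact ⟨1, 1, 1, 1, 1, 2, 1, by decide +kernel, fun _ => by norm_num [f, sg]⟩
    · exact ⟨1, 1, 1, 1, 1, 0, 1, by decide +kernel, fun _ => by norm_num [f, sg]⟩
  · exact Rp.bad _

theorem pk_s (H : Hom K.v) (p : Po) : Rp K i (pk i p) (ev K.v p) := by
  induction p with
  | nil => exact Rp.zero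
  | cons g c m t ih => exact (((um_s H g m).smul c).add ih).cast (by rw [ev_cons]; cases g <;> simp [sg])

theorem lq_s (H : Hom K.v) (b : Bool) (q : Po) : Rp K i (lq i b q) (sg b (ev K.v (nrm q))) := by
  induction q with
  | nil => exact Rp.zero.cast (by cases b <;> simp [sg, nrm, ev_nil])
  | cons g c m t ih =>
    have : Rp K i (@Bool.rec (fun _ => ℕ) (tv i false m) (tv i true m) (xr b g)) (sg (xr b g) (ev K.v (trm 16 m))) := by
      cases xr b g <;> exact (pk_s H _).cast (ev_sgP _ _)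
    refine ((this.smul c).add ih).cast ?_
    change _ = sg b (ev K.v (add (mulT g c 1 (trm 16 m)) (nrm t)))
    rw [ev_add, ev_mulT H, H.one]
    cases b <;> cases g <;> simp [sg, xr] <;> ring

theorem la_s (V : Valid K) (b : Bool) (A : Atom) : ∃ x, Rp K i (la i b A) (sg b x) ∧ (A.sem K ↔ 0 < x) := by
  have k : ∃ x, Rp K i BAD (sg b x) ∧ (A.sem K ↔ 0 < x) := by
    by_cases h : A.sem K
    exacts [⟨1, Rp.bad _, iff_of_true h one_pos⟩, ⟨0, Rp.bad _, iff_of_false h (lt_irrefl _)⟩]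
  cases A
  case pos n =>
    change ∃ x, Rp K i (iff (lt (n / 32) 26) _ _) _ ∧ _
    cases h : lt (n / 32) 26
    · exact k
    · exact ⟨_, (pk_s V.hom _).cast (ev_sgP _ _), by rw [sgO, ev_sgP]; exact V.lp_pos ((lt_eq _ _).1 h)⟩
  case poly q => exact ⟨_, lq_s V.hom b q, Iff.rfl⟩
  all_goals exact k

/-- the side with label `u / 2048` of the piece and flag coded by `u` at a grid point -/
def sv0 (u : ℕ) : ℕ := frc (Nat.mod u 32) fun i =>
  pk i (sdP i (Nat.mod (Nat.div u 32) 64) (Nat.div u 2048) (fun _ => cst true 256) c64)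

def sv1 (u : ℕ) : ℕ := frc (Nat.mod u 32) fun i => frc (Nat.mod (Nat.div u 32) 64) fun φ =>
  pk i (sgP (xr (nt (sE i φ (Nat.div u 2048))) (vA φ)) (nP i (sK i φ (Nat.div u 2048))))

def sv2 (u : ℕ) : ℕ := frc (Nat.mod u 32) fun i => frc (Nat.mod (Nat.div u 32) 64) fun φ =>
  pk i (sgP (xr (sE i φ (Nat.div u 2048)) (vO φ)) (mP i (sK i φ (Nat.div u 2048))))

def sA (u : ℕ) : ℕ := Nat.add 3 (Nat.mul 10 (aN (Nat.mod (Nat.div u 32) 64)))

def sB (u : ℕ) : ℕ := Nat.add 3 (Nat.mul 10 (bN (Nat.mod (Nat.div u 32) 64)))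

def sdT (u x y : ℕ) : ℕ := Nat.add (sv0 u) (Nat.add (Nat.mul x (sv1 u)) (Nat.mul y (sv2 u)))

theorem sdT_s (H : Hom K.v) (u s : ℕ) : Rp K (u % 32) (sdT u (gq s (aN (u / 32 % 64))) (gq s (bN (u / 32 % 64))))
    (64 * K.sd (u % 32) (u / 32 % 64) (u / 2048) (gP s)) := by
  refine ((pk_s H _).add (((pk_s H _).smul _).add ((pk_s H _).smul _))).cast ?_
  have r : Hmg K (fun _ => cst true 256) c64 fun _ => -4 :=
    ⟨by rw [ev_c64 H]; norm_num, fun n _ => by rw [ev_c64 H, ev_cst H]; norm_num [sg]⟩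
  change ev K.v (sdP (u % 32) (u / 32 % 64) (u / 2048) _ _) +
    (_ * ev K.v (sgP (xr (nt (sE (u % 32) (u / 32 % 64) (u / 2048))) (vA (u / 32 % 64)))
      (nP (u % 32) (sK (u % 32) (u / 32 % 64) (u / 2048)))) +
    _ * ev K.v (sgP (xr (sE (u % 32) (u / 32 % 64) (u / 2048)) (vO (u / 32 % 64)))
      (mP (u % 32) (sK (u % 32) (u / 32 % 64) (u / 2048))))) = _
  generalize u % 32 = i
  generalize u / 32 % 64 = φ
  generalize u / 2048 = t
  have a : (ax (aN φ) : ℕ) = aN φ := Nat.mod_eq_of_lt (aN_lt φ)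
  have b : (ax (bN φ) : ℕ) = bN φ := Nat.mod_eq_of_lt (bN_lt φ)
  rw [r.sd H, ev_c64 H, ev_sgP, ev_sgP]
  simp only [Cfg.sd, Cfg.bx, Bx.sd, Bx.u, Bx.x, Bx.y, gP, a, b]
  cases sE i φ t <;> cases vA φ <;> cases vO φ <;> simp only [hx, hy, sg, xr, nt, cond_true, cond_false] <;> ring

end

end Pool.Agent.P.MP_53fdf1_co.R.Fa
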