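import Pool.Agent.P.MP_53fdf1_co.Check

set_option autoImplicit false

namespace Pool.Agent.P.MP_53fdf1_co

theorem frc_eq {α : Type} (n : ℕ) (k : ℕ → α) : frc n k = k n := (rfl)

theorem frb_eq {α : Type} (b : Bool) (k : Bool → α) : frb b k = k b := by cases b <;> rfl

theorem mk4_eq {α : Type} (a b c d : ℕ) (k : ℕ → ℕ → ℕ → ℕ → α) : mk4 a b c d k = k a b c d := (rfl)

theorem mkV_eq {α : Type} (a b c d : ℕ) (k : V4 → α) : mkV a b c d k = k ⟨a, b, c, d⟩ := (rfl)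

theorem mk8_eq {α : Type} (a0 a1 a2 a3 a4 a5 a6 a7 : ℕ) (k : V8 → α) :
    mk8 a0 a1 a2 a3 a4 a5 a6 a7 k = k ⟨a0, a1, a2, a3, a4, a5, a6, a7⟩ := (rfl)

theorem seq2_eq (s : St) (k : St → St) : seq2 s k = k s := (rfl)

theorem andb_eq (a b : Bool) : andb a b = true ↔ a = true ∧ b = true := by
  cases a <;> simp [andb]

theorem nand_eq (a b c d : ℕ) (h : nand a b c d = false) : a ≤ b ∧ c ≤ d := by
  unfold nand at h
  cases h1 : Nat.ble a b <;> cases h2 : Nat.ble c d <;> simp only [h1, h2] at h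
  all_goals first | exact ⟨Nat.le_of_ble_eq_true h1, Nat.le_of_ble_eq_true h2⟩ | cases h

theorem btw_eq (a m b : ℕ) (h : btw a m b = true) : a < m ∧ m < b := by
  obtain ⟨h1, h2⟩ := (andb_eq _ _).1 h
  exact ⟨Nat.le_of_ble_eq_true h1, Nat.le_of_ble_eq_true h2⟩

/-- convex weights on the eight vertices -/
structure L8 where
  (l0 l1 l2 l3 l4 l5 l6 l7 : ℝ)
  (h0 : 0 ≤ l0) (h1 : 0 ≤ l1) (h2 : 0 ≤ l2) (h3 : 0 ≤ l3)
  (h4 : 0 ≤ l4) (h5 : 0 ≤ l5) (h6 : 0 ≤ l6) (h7 : 0 ≤ l7)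
  (sum : l0 + l1 + l2 + l3 + l4 + l5 + l6 + l7 = 1)

def L8.dot (l : L8) (v : V8) : ℝ :=
  l.l0 * v.a0 + l.l1 * v.a1 + l.l2 * v.a2 + l.l3 * v.a3 + l.l4 * v.a4 + l.l5 * v.a5 + l.l6 * v.a6 +
    l.l7 * v.a7

def L8.mix (l : L8) (a b : ℝ) : ℝ := (l.l0 + l.l1 + l.l2 + l.l3) * a + (l.l4 + l.l5 + l.l6 + l.l7) * b

def c8 (a b : ℕ) : V8 := ⟨a, a, a, a, b, b, b, b⟩

def le8 (v w : V8) : Prop :=
  v.a0 ≤ w.a0 ∧ v.a1 ≤ w.a1 ∧ v.a2 ≤ w.a2 ∧ v.a3 ≤ w.a3 ∧ v.a4 ≤ w.a4 ∧ v.a5 ≤ w.a5 ∧ v.a6 ≤ w.a6 ∧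
    v.a7 ≤ w.a7

def sub8 (v w : V8) : V8 :=
  ⟨v.a0 - w.a0, v.a1 - w.a1, v.a2 - w.a2, v.a3 - w.a3, v.a4 - w.a4, v.a5 - w.a5, v.a6 - w.a6, v.a7 - w.a7⟩

theorem dot_c8 (l : L8) (a b : ℕ) : l.dot (c8 a b) = l.mix a b := by
  simp only [L8.dot, L8.mix, c8]; ring

theorem dot_mono (l : L8) {v w : V8} (h : le8 v w) : l.dot v ≤ l.dot w := by
  obtain ⟨a0, a1, a2, a3, a4, a5, a6, a7⟩ := h
  unfold L8.dot
  have := l.h0; have := l.h1; have := l.h2; have := l.h3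
  have := l.h4; have := l.h5; have := l.h6; have := l.h7
  gcongr

theorem sub_cast (a b : ℕ) : (a : ℝ) - b ≤ ((a - b : ℕ) : ℝ) := by
  rcases le_total b a with h | h
  · rw [Nat.cast_sub h]
  · have : (a : ℝ) ≤ b := by exact_mod_cast h
    have : (0 : ℝ) ≤ ((a - b : ℕ) : ℝ) := Nat.cast_nonneg _
    linarith

theorem dot_sub (l : L8) (v w : V8) : max (l.dot v - l.dot w) 0 ≤ l.dot (sub8 v w) := by
  have := l.h0; have := l.h1; have := l.h2; have := l.h3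
  have := l.h4; have := l.h5; have := l.h6; have := l.h7
  refine max_le ?_ (by unfold L8.dot; positivity)
  have e : l.dot v - l.dot w = l.l0 * (v.a0 - w.a0) + l.l1 * (v.a1 - w.a1) + l.l2 * (v.a2 - w.a2) +
      l.l3 * (v.a3 - w.a3) + l.l4 * (v.a4 - w.a4) + l.l5 * (v.a5 - w.a5) + l.l6 * (v.a6 - w.a6) +
      l.l7 * (v.a7 - w.a7) := by unfold L8.dot; ring
  rw [e]
  unfold L8.dot sub8
  gcongr <;> apply sub_cast

theorem addG_cA (l : L8) (c u0 u1 w0 w1 : ℕ) (P v : V8) (k : V8 → St) :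
    ∃ v', addG cA c u0 u1 w0 w1 P v k = k v' ∧
      l.dot v + c * (max (l.mix u0 w0 - l.dot P) 0 + max (l.mix u1 w1 - l.dot P) 0) ≤ l.dot v' := by
  refine ⟨_, rfl, ?_⟩
  have a := dot_sub l (c8 u0 w0) P
  have b := dot_sub l (c8 u1 w1) P
  rw [dot_c8] at a b
  have := mul_le_mul_of_nonneg_left (add_le_add a b) (Nat.cast_nonneg (α := ℝ) c)
  refine le_trans (add_le_add le_rfl this) (le_of_eq ?_)
  simp only [L8.dot, sub8, c8, cA, Nat.add_eq, Nat.mul_eq, Nat.sub_eq, Nat.cast_add, Nat.cast_mul]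
  ring

theorem addG_cB (l : L8) (c u0 u1 w0 w1 : ℕ) (P v : V8) (k : V8 → St) :
    ∃ v', addG cB c u0 u1 w0 w1 P v k = k v' ∧
      l.dot v + c * (max (l.dot P - l.mix u0 w0) 0 + max (l.dot P - l.mix u1 w1) 0) ≤ l.dot v' := by
  refine ⟨_, rfl, ?_⟩
  have a := dot_sub l P (c8 u0 w0)
  have b := dot_sub l P (c8 u1 w1)
  rw [dot_c8] at a b
  have := mul_le_mul_of_nonneg_left (add_le_add a b) (Nat.cast_nonneg (α := ℝ) c)
  refine le_trans (add_le_add le_rfl this) (le_of_eq ?_)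
  simp only [L8.dot, sub8, c8, cB, Nat.add_eq, Nat.mul_eq, Nat.sub_eq, Nat.cast_add, Nat.cast_mul]
  ring

def upR (t x y : ℝ) : ℝ := 2 ^ 34 + 2 ^ 20 * x + t * y

def dnR (t y x : ℝ) : ℝ := 2 ^ 34 + 2 ^ 20 * y - t * x

theorem mix_up (l : L8) (x tl th y : ℕ) :
    l.mix (up x tl y : ℕ) (up x th y : ℕ) = upR (l.mix tl th) x y := by
  have := l.sum
  simp only [L8.mix, up, big, upR, Nat.add_eq, Nat.mul_eq, Nat.cast_add, Nat.cast_mul]
  norm_num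
  linear_combination (17179869184 + x * 1048576) * this

theorem dn_cast (y t x : ℕ) (ht : t ≤ 2 ^ 20) (hx : x ≤ 2 ^ 14) :
    ((dn y t x : ℕ) : ℝ) = dnR t y x := by
  have h : t * x ≤ 17179869184 + y * 1048576 := by
    have := Nat.mul_le_mul ht hx
    omega
  have e : dn y t x = 17179869184 + y * 1048576 - t * x := rfl
  rw [e, Nat.cast_sub h, dnR]
  push_cast
  ring

theorem mix_dn (l : L8) (y tl th x : ℕ) (h1 : tl ≤ 2 ^ 20) (h2 : th ≤ 2 ^ 20) (hx : x ≤ 2 ^ 14) :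
    l.mix (dn y tl x : ℕ) (dn y th x : ℕ) = dnR (l.mix tl th) y x := by
  have := l.sum
  rw [dn_cast _ _ _ h1 hx, dn_cast _ _ _ h2 hx]
  simp only [L8.mix, dnR]
  linear_combination (2 ^ 34 + 2 ^ 20 * y) * this

theorem mix_nonneg (l : L8) (a b : ℕ) : 0 ≤ l.mix a b := by
  have := l.h0; have := l.h1; have := l.h2; have := l.h3
  have := l.h4; have := l.h5; have := l.h6; have := l.h7
  unfold L8.mix; positivity

/-- what the checker needs to know about areas -/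
structure AreaOK (t pp pm qp qm : ℝ) (A : ℕ → ℕ → ℕ → ℕ → ℝ) : Prop where
  nonneg : ∀ x0 x1 y0 y1, 0 ≤ A x0 x1 y0 y1
  spY : ∀ x0 x1 y0 ys y1, y0 < ys → ys < y1 → A x0 x1 y0 ys + A x0 x1 ys y1 ≤ A x0 x1 y0 y1
  spX : ∀ x0 xs x1 y0 y1, x0 < xs → xs < x1 → A x0 xs y0 y1 + A xs x1 y0 y1 ≤ A x0 x1 y0 y1
  acc : ∀ x0 x1 y0 y1 : ℕ, x0 ≤ x1 → y0 ≤ y1 →
    2 ^ 21 * ((y1 - y0) * (x1 - x0)) -
      (y1 - y0) * (max (upR t x1 y0 - pp) 0 + max (upR t x1 y1 - pp) 0) -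
      (y1 - y0) * (max (pm - upR t x0 y0) 0 + max (pm - upR t x0 y1) 0) -
      (x1 - x0) * (max (dnR t y1 x0 - qp) 0 + max (dnR t y1 x1 - qp) 0) -
      (x1 - x0) * (max (qm - dnR t y0 x0) 0 + max (qm - dnR t y0 x1) 0) ≤ 2 ^ 21 * A x0 x1 y0 y1

structure CtxOK (C : Ctx) : Prop where
  tl : C.tl ≤ 2 ^ 20
  th : C.th ≤ 2 ^ 20
  pp : le8 (c8 C.ml.pp C.mh.pp) C.PP
  pm : le8 C.PM (c8 C.ml.pm C.mh.pm)
  qp : le8 (c8 C.ml.qp C.mh.qp) C.QP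
  qm : le8 C.QM (c8 C.ml.qm C.mh.qm)

def L8.val (l : L8) (s : St) : ℝ := s.c - l.dot s.v

theorem mix_mono (l : L8) {a b c d : ℕ} (h1 : a ≤ c) (h2 : b ≤ d) : l.mix a b ≤ l.mix c d := by
  rw [← dot_c8, ← dot_c8]
  exact dot_mono l ⟨h1, h1, h1, h1, h2, h2, h2, h2⟩

/-- the flags are honest: a flag that is off means that the cut vanishes -/
structure FlagOK (l : L8) (C : Ctx) (x0 x1 y0 y1 : ℕ) (u0 u1 u2 u3 : Bool) : Prop where
  f0 : u0 = false → upR (l.mix C.tl C.th) x1 y1 ≤ l.dot C.PP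
  f1 : u1 = false → l.dot C.PM ≤ upR (l.mix C.tl C.th) x0 y0
  f2 : u2 = false → dnR (l.mix C.tl C.th) y1 x0 ≤ l.dot C.QP
  f3 : u3 = false → l.dot C.QM ≤ dnR (l.mix C.tl C.th) y0 x1

theorem opt_ex (l : L8) (u : Bool) (f : V8 → (V8 → St) → St) (v : V8) (k : V8 → St) (z : ℝ)
    (h0 : u = false → z ≤ 0) (h1 : ∃ v', f v k = k v' ∧ l.dot v + z ≤ l.dot v') :
    ∃ v', opt u f v k = k v' ∧ l.dot v + z ≤ l.dot v' := by
  cases u
  · exact ⟨v, rfl, by linarith [h0 rfl]⟩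
  · exact h1

variable {l : L8} {C : Ctx} {A : ℕ → ℕ → ℕ → ℕ → ℝ}

theorem accept_sound (hC : CtxOK C)
    (hA : AreaOK (l.mix C.tl C.th) (l.dot C.PP) (l.dot C.PM) (l.dot C.QP) (l.dot C.QM) A)
    (w x0 x1 y0 y1 : ℕ) (u0 u1 u2 u3 : Bool) (s : St) (hx : x0 ≤ x1) (hy : y0 ≤ y1) (hx1 : x1 ≤ 2 ^ 14)
    (hf : FlagOK l C x0 x1 y0 y1 u0 u1 u2 u3) :
    l.val (accept C w x0 x1 y0 y1 u0 u1 u2 u3 s) ≤ l.val s + 2 ^ 21 * (w * A x0 x1 y0 y1) := by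
  obtain ⟨c, v⟩ := s
  have hx0 : x0 ≤ 2 ^ 14 := hx.trans hx1
  have ht := mix_nonneg l C.tl C.th
  have hxr : (x0 : ℝ) ≤ x1 := by exact_mod_cast hx
  have hyr : (y0 : ℝ) ≤ y1 := by exact_mod_cast hy
  have e : accept C w x0 x1 y0 y1 u0 u1 u2 u3 ⟨c, v⟩ = accept2 C x0 x1 y0 y1 u0 u1 u2 u3 v
      (w * (x1 - x0)) (w * (y1 - y0)) (c + w * (y1 - y0) * (x1 - x0) * 2097152) :=
    frc_eq (c + w * (y1 - y0) * (x1 - x0) * 2097152) (accept2 C x0 x1 y0 y1 u0 u1 u2 u3 v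
      (w * (x1 - x0)) (w * (y1 - y0)))
  rw [e]
  unfold accept2
  have m1 := mul_le_mul_of_nonneg_left hyr ht
  have m2 := mul_le_mul_of_nonneg_left hxr ht
  obtain ⟨v1, e1, i1⟩ := opt_ex l u0 (addH cA up C.tl C.th (w * (y1 - y0)) x1 y0 y1 C.PP) v _ _
    (fun h => by
      have := hf.f0 h
      rw [mix_up, mix_up, max_eq_right (by unfold upR at this ⊢; linarith),
        max_eq_right (by unfold upR at this ⊢; linarith)]
      simp) (addG_cA l _ _ _ _ _ _ _ _)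
  rw [e1]
  obtain ⟨v2, e2, i2⟩ := opt_ex l u1 (addH cB up C.tl C.th (w * (y1 - y0)) x0 y0 y1 C.PM) v1 _ _
    (fun h => by
      have := hf.f1 h
      rw [mix_up, mix_up, max_eq_right (by unfold upR at this ⊢; linarith),
        max_eq_right (by unfold upR at this ⊢; linarith)]
      simp) (addG_cB l _ _ _ _ _ _ _ _)
  rw [e2]
  obtain ⟨v3, e3, i3⟩ := opt_ex l u2 (addH cA dn C.tl C.th (w * (x1 - x0)) y1 x0 x1 C.QP) v2 _ _
    (fun h => by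
      have := hf.f2 h
      rw [mix_dn l _ _ _ _ hC.tl hC.th hx0, mix_dn l _ _ _ _ hC.tl hC.th hx1,
        max_eq_right (by unfold dnR at this ⊢; linarith), max_eq_right (by unfold dnR at this ⊢; linarith)]
      simp) (addG_cA l _ _ _ _ _ _ _ _)
  rw [e3]
  obtain ⟨v4, e4, i4⟩ := opt_ex l u3 (addH cB dn C.tl C.th (w * (x1 - x0)) y0 x0 x1 C.QM) v3 _ _
    (fun h => by
      have := hf.f3 h
      rw [mix_dn l _ _ _ _ hC.tl hC.th hx0, mix_dn l _ _ _ _ hC.tl hC.th hx1,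
        max_eq_right (by unfold dnR at this ⊢; linarith), max_eq_right (by unfold dnR at this ⊢; linarith)]
      simp) (addG_cB l _ _ _ _ _ _ _ _)
  rw [e4]
  rw [mix_up, mix_up] at i1 i2
  rw [mix_dn l _ _ _ _ hC.tl hC.th hx0, mix_dn l _ _ _ _ hC.tl hC.th hx1] at i3 i4
  have a := mul_le_mul_of_nonneg_left (hA.acc x0 x1 y0 y1 hx hy) (Nat.cast_nonneg (α := ℝ) w)
  simp only [L8.val, Nat.cast_add, Nat.cast_mul, Nat.cast_sub hx, Nat.cast_sub hy, Nat.cast_ofNat] at i1 i2 i3 i4 ⊢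
  linear_combination a + i1 + i2 + i3 + i4

/-- the specification of a planning routine -/
def Spec (l : L8) (A : ℕ → ℕ → ℕ → ℕ → ℝ) (w : ℕ) (f : ℕ → ℕ → ℕ → ℕ → St → St) : Prop :=
  ∀ x0 x1 y0 y1 s, x0 ≤ x1 → y0 ≤ y1 → x1 ≤ 2 ^ 14 →
    l.val (f x0 x1 y0 y1 s) ≤ l.val s + 2 ^ 21 * (w * A x0 x1 y0 y1)

def SpecF (l : L8) (C : Ctx) (A : ℕ → ℕ → ℕ → ℕ → ℝ) (w : ℕ)
    (f : ℕ → ℕ → ℕ → ℕ → Bool → Bool → Bool → Bool → St → St) : Prop :=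
  ∀ x0 x1 y0 y1 u0 u1 u2 u3 s, x0 ≤ x1 → y0 ≤ y1 → x1 ≤ 2 ^ 14 → FlagOK l C x0 x1 y0 y1 u0 u1 u2 u3 →
    l.val (f x0 x1 y0 y1 u0 u1 u2 u3 s) ≤ l.val s + 2 ^ 21 * (w * A x0 x1 y0 y1)

theorem split_sound (hC : CtxOK C)
    (hA : AreaOK (l.mix C.tl C.th) (l.dot C.PP) (l.dot C.PM) (l.dot C.QP) (l.dot C.QM) A)
    (w : ℕ) (ih : ℕ → ℕ → ℕ → ℕ → St → St) (hi : Spec l A w ih) : SpecF l C A w (split C w ih) := by
  intro x0 x1 y0 y1 u0 u1 u2 u3 s hx hy hx1 hf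
  have hw : (0 : ℝ) ≤ w := Nat.cast_nonneg w
  unfold split
  rw [frc_eq]
  generalize candY C x0 x1 y0 y1 u0 u1 u2 u3 = ys
  unfold splitY
  cases hb : btw y0 ys y1
  · simp only [frc_eq]
    generalize candX C x0 x1 y0 y1 u0 u1 u2 u3 = xs
    unfold splitX
    cases hb' : btw x0 xs x1
    · exact accept_sound hC hA w x0 x1 y0 y1 u0 u1 u2 u3 s hx hy hx1 hf
    · obtain ⟨h1, h2⟩ := btw_eq _ _ _ hb'
      simp only [seq2_eq]
      have a := hi x0 xs y0 y1 s h1.le hy (h2.le.trans hx1)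
      have b := hi xs x1 y0 y1 (ih x0 xs y0 y1 s) h2.le hy hx1
      have c := mul_le_mul_of_nonneg_left (hA.spX x0 xs x1 y0 y1 h1 h2) hw
      linear_combination a + b + 2 ^ 21 * c
  · obtain ⟨h1, h2⟩ := btw_eq _ _ _ hb
    simp only [seq2_eq]
    have a := hi x0 x1 y0 ys s hx h1.le hx1
    have b := hi x0 x1 ys y1 (ih x0 x1 y0 ys s) hx h2.le hx1
    have c := mul_le_mul_of_nonneg_left (hA.spY x0 x1 y0 ys y1 h1 h2) hw
    linear_combination a + b + 2 ^ 21 * c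

theorem step_sound (hC : CtxOK C)
    (hA : AreaOK (l.mix C.tl C.th) (l.dot C.PP) (l.dot C.PM) (l.dot C.QP) (l.dot C.QM) A)
    (w : ℕ) (k : ℕ → ℕ → ℕ → ℕ → Bool → Bool → Bool → Bool → St → St) (hk : SpecF l C A w k) :
    Spec l A w (step C k) := by
  intro x0 x1 y0 y1 s hx hy hx1
  have hx0 : x0 ≤ 2 ^ 14 := hx.trans hx1
  unfold step
  cases dropT C.tc C.d x0 x1 y0 y1
  · unfold flags
    simp only [frb_eq]
    refine hk _ _ _ _ _ _ _ _ _ hx hy hx1 ⟨fun h => ?_, fun h => ?_, fun h => ?_, fun h => ?_⟩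
    all_goals obtain ⟨a, b⟩ := nand_eq _ _ _ _ h
    · rw [← mix_up]
      exact (mix_mono l a b).trans (by rw [← dot_c8]; exact dot_mono l hC.pp)
    · rw [← mix_up]
      exact le_trans (by rw [← dot_c8]; exact dot_mono l hC.pm) (mix_mono l a b)
    · rw [← mix_dn l _ _ _ _ hC.tl hC.th hx0]
      exact (mix_mono l a b).trans (by rw [← dot_c8]; exact dot_mono l hC.qp)
    · rw [← mix_dn l _ _ _ _ hC.tl hC.th hx1]
      exact le_trans (by rw [← dot_c8]; exact dot_mono l hC.qm) (mix_mono l a b)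
  · have := hA.nonneg x0 x1 y0 y1
    have : (0 : ℝ) ≤ 2 ^ 21 * (w * A x0 x1 y0 y1) := by positivity
    simp only
    linarith

theorem plan_sound (hC : CtxOK C)
    (hA : AreaOK (l.mix C.tl C.th) (l.dot C.PP) (l.dot C.PM) (l.dot C.QP) (l.dot C.QM) A)
    (w fuel : ℕ) : Spec l A w (plan C w fuel) := by
  induction fuel with
  | zero =>
    exact step_sound hC hA w _ fun x0 x1 y0 y1 u0 u1 u2 u3 s hx hy hx1 hf =>
      accept_sound hC hA w x0 x1 y0 y1 u0 u1 u2 u3 s hx hy hx1 hf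
  | succ n ih => exact step_sound hC hA w _ (split_sound hC hA w _ ih)

def CL.ok : CL → Prop
  | .nil => True
  | .cons _ x0 x1 y0 y1 t => x0 ≤ x1 ∧ y0 ≤ y1 ∧ x1 ≤ 2 ^ 14 ∧ t.ok

def CL.mass (A : ℕ → ℕ → ℕ → ℕ → ℝ) : CL → ℝ
  | .nil => 0
  | .cons w x0 x1 y0 y1 t => w * A x0 x1 y0 y1 + t.mass A

theorem run_sound (hC : CtxOK C)
    (hA : AreaOK (l.mix C.tl C.th) (l.dot C.PP) (l.dot C.PM) (l.dot C.QP) (l.dot C.QM) A)
    (L : CL) (hL : L.ok) (s : St) : l.val (run C L s) ≤ l.val s + 2 ^ 21 * L.mass A := by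
  induction L generalizing s with
  | nil => simp [run, CL.mass]
  | cons w x0 x1 y0 y1 t ih =>
    obtain ⟨h1, h2, h3, h4⟩ := hL
    have e : run C (.cons w x0 x1 y0 y1 t) s = run C t (plan C w 6 x0 x1 y0 y1 s) := rfl
    have a := ih h4 (plan C w 6 x0 x1 y0 y1 s)
    have b := plan_sound hC hA w 6 x0 x1 y0 y1 s h1 h2 h3
    rw [e, CL.mass]
    linarith

theorem mn_eq (a b : ℕ) : mn a b = min a b := by
  simp only [mn, Nat.sub_eq]; omega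

theorem mx_eq (a b : ℕ) : mx a b = max a b := by
  simp only [mx, Nat.sub_eq, Nat.add_eq]; omega

theorem le8_mn (P : V8) : le8 (c8 (loG mn P) (hiG mn P)) P := by
  simp only [le8, c8, loG, hiG, mn_eq]; omega

theorem le8_mx (P : V8) : le8 P (c8 (loG mx P) (hiG mx P)) := by
  simp only [le8, c8, loG, hiG, mx_eq]; omega

theorem fin8_sound (M : ℕ) (s : St) (h : fin8 M s = true) : (M : ℝ) ≤ l.val s := by
  obtain ⟨c, v⟩ := s
  have h1 : mx (loG mx v) (hiG mx v) + M ≤ c := Nat.le_of_ble_eq_true h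
  have h2 := (dot_mono l (le8_mx v)).trans_eq (dot_c8 l _ _)
  have h3 := mix_mono l (le_max_left (loG mx v) (hiG mx v)) (le_max_right (loG mx v) (hiG mx v))
  rw [mx_eq] at h1
  have h4 : l.mix (max (loG mx v) (hiG mx v) : ℕ) (max (loG mx v) (hiG mx v) : ℕ) =
      (max (loG mx v) (hiG mx v) : ℕ) := by
    have := l.sum
    unfold L8.mix
    linear_combination ((max (loG mx v) (hiG mx v) : ℕ) : ℝ) * this
  have h5 : ((max (loG mx v) (hiG mx v) : ℕ) : ℝ) + M ≤ c := by exact_mod_cast h1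
  simp only [L8.val]
  linarith

theorem leaf3_sound (L : CL) (hL : L.ok) (M : ℕ) (PP PM QP QM : V8) (cp cq dc tl th tc tol : ℕ)
    (h1 : tl ≤ 2 ^ 20) (h2 : th ≤ 2 ^ 20)
    (hA : AreaOK (l.mix tl th) (l.dot PP) (l.dot PM) (l.dot QP) (l.dot QM) A)
    (h : leaf3 L M PP PM QP QM cp cq dc tl th tc tol = true) : (M : ℝ) ≤ 2 ^ 21 * L.mass A := by
  unfold leaf3 at h
  rw [mk4_eq, frc_eq] at h
  unfold leaf4 at h
  simp only [mkV_eq] at h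
  have a := fin8_sound (l := l) _ _ h
  refine a.trans ((run_sound (A := A) ?_ ?_ L hL _).trans (le_of_eq ?_))
  · exact ⟨h1, h2, le8_mn _, le8_mx _, le8_mn _, le8_mx _⟩
  · exact hA
  · simp [L8.val, L8.dot]

theorem nz_pos (n : ℕ) (k : ℕ → ℕ) (h : nz n k ≠ 0) : n ≠ 0 ∧ k n ≠ 0 := by
  cases n with
  | zero => exact absurd rfl h
  | succ m => exact ⟨Nat.succ_ne_zero m, h⟩

theorem bb_sound (lf : ℕ → ℕ → ℕ → ℕ → ℕ → ℕ → Bool) (G : ℝ → ℝ → ℝ → Prop)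
    (hl : ∀ tl th sl sh rl rh : ℕ, th ≤ 1024 → sh ≤ 1024 → rh ≤ 1024 → lf tl th sl sh rl rh = true →
      ∀ t s r : ℝ, tl ≤ t → t ≤ th → sl ≤ s → s ≤ sh → rl ≤ r → r ≤ rh → G t s r) (fuel : ℕ) :
    ∀ tl th sl sh rl rh cd : ℕ, th ≤ 1024 → sh ≤ 1024 → rh ≤ 1024 → tl ≤ th → sl ≤ sh → rl ≤ rh →
      bb lf fuel tl th sl sh rl rh cd ≠ 0 →
      ∀ t s r : ℝ, tl ≤ t → t ≤ th → sl ≤ s → s ≤ sh → rl ≤ r → r ≤ rh → G t s r := by
  have hm : ∀ a b : ℕ, a ≤ b → a ≤ hf a b ∧ hf a b ≤ b := fun a b h => by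
    have e : hf a b = (a + b) / 2 := rfl
    omega
  induction fuel with
  | zero => intro _ _ _ _ _ _ _ _ _ _ _ _ _ h; exact absurd rfl h
  | succ n ih =>
    intro tl th sl sh rl rh cd b1 b2 b3 c1 c2 c3 h t s r t1 t2 s1 s2 r1 r2
    unfold bb at h ih
    simp only [frc_eq] at h ih
    generalize Nat.beq (Nat.mod cd (nat_lit 4)) (nat_lit 0) = d0 at h
    generalize Nat.beq (Nat.mod cd (nat_lit 4)) (nat_lit 1) = d1 at h
    generalize Nat.beq (Nat.mod cd (nat_lit 4)) (nat_lit 2) = d2 at h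
    cases d0
    · cases d1
      · cases d2
        · obtain ⟨p, q⟩ := nz_pos _ _ h
          obtain ⟨m1, m2⟩ := hm rl rh c3
          rcases le_total r (hf rl rh : ℕ) with e | e
          · exact ih _ _ _ _ _ _ _ b1 b2 (m2.trans b3) c1 c2 m1 p t s r t1 t2 s1 s2 r1 e
          · exact ih _ _ _ _ _ _ _ b1 b2 b3 c1 c2 m2 q t s r t1 t2 s1 s2 e r2
        · obtain ⟨p, q⟩ := nz_pos _ _ h
          obtain ⟨m1, m2⟩ := hm sl sh c2
          rcases le_total s (hf sl sh : ℕ) with e | e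
          · exact ih _ _ _ _ _ _ _ b1 (m2.trans b2) b3 c1 m1 c3 p t s r t1 t2 s1 e r1 r2
          · exact ih _ _ _ _ _ _ _ b1 b2 b3 c1 m2 c3 q t s r t1 t2 e s2 r1 r2
      · obtain ⟨p, q⟩ := nz_pos _ _ h
        obtain ⟨m1, m2⟩ := hm tl th c1
        rcases le_total t (hf tl th : ℕ) with e | e
        · exact ih _ _ _ _ _ _ _ (m2.trans b1) b2 b3 m1 c2 c3 p t s r t1 e s1 s2 r1 r2
        · exact ih _ _ _ _ _ _ _ b1 b2 b3 m2 c2 c3 q t s r e t2 s1 s2 r1 r2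
    · refine hl tl th sl sh rl rh b1 b2 b3 ?_ t s r t1 t2 s1 s2 r1 r2
      cases hb : lf tl th sl sh rl rh
      · rw [hb] at h; exact absurd rfl h
      · rfl

end Pool.Agent.P.MP_53fdf1_co
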