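import Pool.Agent.P.MP_53fdf1_co.Plane

set_option autoImplicit false

open MeasureTheory Set

namespace Pool.Agent.P.MP_53fdf1_co

def crd (j : Fin 3) (X : Fin 3 → ℝ) : ℝ × ℝ × ℝ := (X j, X (j.succAbove 0), X (j.succAbove 1))

theorem crd_mp (j : Fin 3) : MeasurePreserving (crd j) volume volume :=
  ((MeasurePreserving.id volume).prod (volume_preserving_finTwoArrow ℝ)).comp
    (volume_preserving_piFinSuccAbove (fun _ : Fin 3 => ℝ) j)

def slab (j : Fin 3) (Z : Set ℝ) (S : Set (ℝ × ℝ)) : Set (Fin 3 → ℝ) := crd j ⁻¹' (Z ×ˢ S)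

theorem vol_slab (j : Fin 3) {Z : Set ℝ} {S : Set (ℝ × ℝ)} (hZ : MeasurableSet Z) (hS : MeasurableSet S) :
    volume (slab j Z S) = volume Z * volume S := by
  rw [slab, (crd_mp j).measure_preimage (hZ.prod hS).nullMeasurableSet, Measure.volume_eq_prod,
    Measure.prod_prod]

theorem meas_slab (j : Fin 3) {Z : Set ℝ} {S : Set (ℝ × ℝ)} (hZ : MeasurableSet Z) (hS : MeasurableSet S) :
    MeasurableSet (slab j Z S) := (crd_mp j).measurable (hZ.prod hS)

def iv (K : ℕ) : Set ℝ := Ioo ((1024 * K : ℕ) : ℝ) ((1024 * K + 1024 : ℕ) : ℝ)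

def cell (j : Fin 3) (K I J : ℕ) : Set (Fin 3 → ℝ) :=
  slab j (iv K) (box (1024 * I) (1024 * I + 1024) (1024 * J) (1024 * J + 1024))

theorem meas_iv (K : ℕ) : MeasurableSet (iv K) := measurableSet_Ioo

theorem vol_iv (K : ℕ) : volume (iv K) = ENNReal.ofReal 1024 := by
  rw [iv, Real.volume_Ioo]; congr 1; push_cast; ring

theorem vol_cell (j : Fin 3) (K I J : ℕ) : volume (cell j K I J) = ENNReal.ofReal (2 ^ 30) := by
  rw [cell, vol_slab j (meas_iv K) (meas_box _ _ _ _), vol_box]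
  have e : ∀ I : ℕ, ((1024 * I + 1024 : ℕ) : ℝ) - ((1024 * I : ℕ) : ℝ) = 1024 := fun I => by
    push_cast; ring
  rw [e, e, vol_iv, ← ENNReal.ofReal_mul (by norm_num), ← ENNReal.ofReal_mul (by norm_num)]
  norm_num

noncomputable def mass3 (j : Fin 3) (D : Set (Fin 3 → ℝ)) : ℝ :=
  ∑ K ∈ Finset.range 10, ∑ I ∈ Finset.range 10, ∑ J ∈ Finset.range 10,
    (T10 K I J : ℝ) * volume.real (D ∩ cell j K I J)

theorem cell_one (K I J : ℕ) : cell 1 K I J = cell 0 I K J := by
  ext X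
  simp only [cell, slab, crd, box, iv, mem_preimage, mem_prod]
  exact and_left_comm

theorem cell_two (K I J : ℕ) : cell 2 K I J = cell 1 J I K := by
  ext X
  simp only [cell, slab, crd, box, iv, mem_preimage, mem_prod]
  exact ⟨fun h => ⟨h.2.2, h.2.1, h.1⟩, fun h => ⟨h.2.2, h.2.1, h.1⟩⟩

theorem mass3_one (D : Set (Fin 3 → ℝ)) : mass3 1 D = mass3 0 D := by
  unfold mass3
  rw [Finset.sum_comm]
  refine Finset.sum_congr rfl fun I _ => Finset.sum_congr rfl fun K _ =>
    Finset.sum_congr rfl fun J _ => ?_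
  rw [cell_one, T10, T10, add_comm (al K)]

theorem mass3_two (D : Set (Fin 3 → ℝ)) : mass3 2 D = mass3 1 D := by
  unfold mass3
  rw [Finset.sum_comm]
  conv_rhs => rw [Finset.sum_comm]
  refine Finset.sum_congr rfl fun I _ => ?_
  rw [Finset.sum_comm]
  refine Finset.sum_congr rfl fun K _ => Finset.sum_congr rfl fun J _ => ?_
  rw [cell_two, T10, T10]
  congr 3
  ring

theorem mass3_eq (j : Fin 3) (D : Set (Fin 3 → ℝ)) : mass3 j D = mass3 0 D := by
  fin_cases j
  · rfl
  · exact mass3_one D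
  · exact (mass3_two D).trans (mass3_one D)

theorem mass3_slab (j : Fin 3) {Z : Set ℝ} {S : Set (ℝ × ℝ)} (hZ : Z = Ioo (-1024) 3072 ∨ Z = Ioo 7168 11264)
    (hS : MeasurableSet S) : 1024 * mass2 S ≤ mass3 0 (slab j Z S) := by
  have mZ : MeasurableSet Z := by rcases hZ with rfl | rfl <;> exact measurableSet_Ioo
  have e : ∀ K I J, volume.real (slab j Z S ∩ cell j K I J) = volume.real (Z ∩ iv K) * arc S I J := by
    intro K I J
    rw [cell, slab, slab, ← preimage_inter, prod_inter_prod, ← slab, Measure.real,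
      vol_slab j (mZ.inter (meas_iv K)) (hS.inter (meas_box _ _ _ _)), ENNReal.toReal_mul]
    rfl
  have f : ∀ K, iv K ⊆ Z → volume.real (Z ∩ iv K) = 1024 := fun K h => by
    rw [inter_eq_right.2 h, Measure.real, vol_iv, ENNReal.toReal_ofReal (by norm_num)]
  rw [← mass3_eq j, mass2, Finset.mul_sum, mass3]
  conv_rhs => rw [Finset.sum_comm]
  refine Finset.sum_le_sum fun I _ => ?_
  rw [Finset.sum_comm, Finset.mul_sum]
  refine Finset.sum_le_sum fun J _ => ?_
  simp only [e, ← mul_assoc, ← Finset.sum_mul]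
  refine mul_le_mul_of_nonneg_right ?_ measureReal_nonneg
  have p : ∀ K, 0 ≤ (T10 K I J : ℝ) * volume.real (Z ∩ iv K) := fun K => by positivity
  simp only [Finset.sum_range_succ, Finset.sum_range_zero, W10, Nat.cast_add]
  rcases hZ with hZ | hZ
  · rw [f 0 (hZ ▸ Ioo_subset_Ioo (by norm_num) (by norm_num)),
      f 1 (hZ ▸ Ioo_subset_Ioo (by norm_num) (by norm_num)),
      f 2 (hZ ▸ Ioo_subset_Ioo (by norm_num) (by norm_num))]
    linarith [p 3, p 4, p 5, p 6, p 7, p 8, p 9]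
  · rw [f 7 (hZ ▸ Ioo_subset_Ioo (by norm_num) (by norm_num)),
      f 8 (hZ ▸ Ioo_subset_Ioo (by norm_num) (by norm_num)),
      f 9 (hZ ▸ Ioo_subset_Ioo (by norm_num) (by norm_num)),
      show T10 7 I J = T10 2 I J from rfl, show T10 8 I J = T10 1 I J from rfl,
      show T10 9 I J = T10 0 I J from rfl]
    linarith [p 0, p 1, p 2, p 3, p 4, p 5, p 6]

theorem tot_eq : ∑ K ∈ Finset.range 10, ∑ I ∈ Finset.range 10, ∑ J ∈ Finset.range 10, T10 K I J = 27048 := by
  decide +kernel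

theorem sum_mass3 {k : ℕ} (D : Fin k → Set (Fin 3 → ℝ)) (hD : ∀ i, MeasurableSet (D i))
    (hd : Pairwise fun i j => Disjoint (D i) (D j)) : ∑ i, mass3 0 (D i) ≤ 27048 * 2 ^ 30 := by
  have e : (27048 : ℝ) = ∑ K ∈ Finset.range 10, ∑ I ∈ Finset.range 10, ∑ J ∈ Finset.range 10,
      (T10 K I J : ℝ) := by exact_mod_cast tot_eq.symm
  unfold mass3
  rw [e, Finset.sum_comm, Finset.sum_mul]
  refine Finset.sum_le_sum fun K _ => ?_
  rw [Finset.sum_comm, Finset.sum_mul]
  refine Finset.sum_le_sum fun I _ => ?_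
  rw [Finset.sum_comm, Finset.sum_mul]
  refine Finset.sum_le_sum fun J _ => ?_
  rw [← Finset.mul_sum]
  refine mul_le_mul_of_nonneg_left ?_ (Nat.cast_nonneg _)
  have fin : volume (cell 0 K I J) ≠ ⊤ := by rw [vol_cell]; finiteness
  have mc : MeasurableSet (cell 0 K I J) := meas_slab 0 measurableSet_Ioo (meas_box _ _ _ _)
  rw [← measureReal_iUnion_fintype (fun i j h => (hd h).mono inter_subset_left inter_subset_left)
    (fun i => (hD i).inter mc) fun i => ne_top_of_le_ne_top fin (measure_mono inter_subset_right)]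
  refine (measureReal_mono (iUnion_subset fun i => inter_subset_right) fin).trans (le_of_eq ?_)
  rw [Measure.real, vol_cell, ENNReal.toReal_ofReal (by positivity)]

/-- a prism over a square that meets a face of the central cube -/
def IsPrism (D : Set (Fin 3 → ℝ)) : Prop :=
  ∃ (j : Fin 3) (Z : Set ℝ) (c1 c2 a b : ℝ), (Z = Ioo (-1024) 3072 ∨ Z = Ioo 7168 11264) ∧
    a ^ 2 + b ^ 2 = 1 ∧ Meet c1 c2 a b ∧ D = slab j Z (Sq c1 c2 a b)

theorem count_le {k : ℕ} (D : Fin k → Set (Fin 3 → ℝ)) (hD : ∀ i, IsPrism (D i))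
    (hd : Pairwise fun i j => Disjoint (D i) (D j)) : k ≤ 26 := by
  have m : ∀ i, MeasurableSet (D i) := fun i => by
    obtain ⟨j, Z, c1, c2, a, b, hZ, -, -, e⟩ := hD i
    rw [e]
    exact meas_slab j (by rcases hZ with rfl | rfl <;> exact measurableSet_Ioo)
      (open_Sq _ _ _ _).measurableSet
  have b : ∀ i, (2202932630228537 / 2 ^ 11 : ℝ) ≤ mass3 0 (D i) := fun i => by
    obtain ⟨j, Z, c1, c2, a, b, hZ, hn, hM, e⟩ := hD i
    have h1 := mass3_slab j hZ (open_Sq c1 c2 a b).measurableSet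
    have h2 := good_all c1 c2 a b hn hM
    rw [e]
    linarith
  have h := (Finset.sum_le_sum fun i (_ : i ∈ Finset.univ) => b i).trans (sum_mass3 D m hd)
  rw [Finset.sum_const, Finset.card_univ, Fintype.card_fin, nsmul_eq_mul] at h
  by_contra hk
  have : (27 : ℝ) ≤ k := by exact_mod_cast not_le.1 hk
  linarith

end Pool.Agent.P.MP_53fdf1_co
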