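import Pool.Agent.P.MP_53fdf1_co.Leaf
import Pool.Agent.P.MP_53fdf1_co.Cert0
import Pool.Agent.P.MP_53fdf1_co.Cert1
import Pool.Agent.P.MP_53fdf1_co.Cert2
import Pool.Agent.P.MP_53fdf1_co.Cert3
import Pool.Agent.P.MP_53fdf1_co.Cert4
import Pool.Agent.P.MP_53fdf1_co.Cert5
import Pool.Agent.P.MP_53fdf1_co.Cert6
import Pool.Agent.P.MP_53fdf1_co.Cert7
import Pool.Agent.P.MP_53fdf1_co.Cert8

set_option autoImplicit false

namespace Pool.Agent.P.MP_53fdf1_co

theorem cells_ok : cells.ok := by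
  simp [cells, CL.ok]

theorem chk_sound {y : Ty} (hy : TyOK y) {tl th sl rl cd : ℕ} (h : chk y tl th sl rl cd = true)
    (h1 : tl ≤ th) (h2 : th ≤ 1024) (h3 : sl ≤ 1024) (h4 : rl ≤ 1024) (t s r : ℝ) (t0 : tl ≤ t)
    (t1 : t ≤ th) (s0 : sl ≤ s) (s1 : s ≤ 1024) (r0 : rl ≤ r) (r1 : r ≤ 1024) :
    GT cells 2202932630228537 y t s r := by
  have e := Nat.eq_of_beq_eq_true h
  refine bb_sound (leaf cells 2202932630228537 y) (GT cells 2202932630228537 y)
    (fun tl th sl sh rl rh => leaf_sound cells cells_ok _ hy tl th sl sh rl rh) 40 tl th sl 1024 rl 1024 cd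
    h2 le_rfl le_rfl h1 h3 h4 (fun h0 => ?_) t s r t0 t1 s0 (by exact_mod_cast s1) r0 (by exact_mod_cast r1)
  exact absurd (e.symm.trans h0) (by decide)

theorem slices {y : Ty} (hy : TyOK y) {sl rl d0 d1 d2 d3 d4 d5 d6 d7 : ℕ} (h3 : sl ≤ 1024)
    (h4 : rl ≤ 1024) (c0 : chk y 0 128 sl rl d0 = true) (c1 : chk y 128 256 sl rl d1 = true)
    (c2 : chk y 256 384 sl rl d2 = true) (c3 : chk y 384 512 sl rl d3 = true)
    (c4 : chk y 512 640 sl rl d4 = true) (c5 : chk y 640 768 sl rl d5 = true)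
    (c6 : chk y 768 896 sl rl d6 = true) (c7 : chk y 896 1024 sl rl d7 = true)
    (t s r : ℝ) (t0 : 0 ≤ t) (t1 : t ≤ 1024) (s0 : sl ≤ s) (s1 : s ≤ 1024) (r0 : rl ≤ r) (r1 : r ≤ 1024) :
    GT cells 2202932630228537 y t s r := by
  rcases le_total t 128 with e0 | e0
  · exact chk_sound hy c0 (by norm_num) (by norm_num) h3 h4 t s r (by exact_mod_cast t0)
      (by exact_mod_cast e0) s0 s1 r0 r1
  rcases le_total t 256 with e1 | e1
  · exact chk_sound hy c1 (by norm_num) (by norm_num) h3 h4 t s r (by exact_mod_cast e0)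
      (by exact_mod_cast e1) s0 s1 r0 r1
  rcases le_total t 384 with e2 | e2
  · exact chk_sound hy c2 (by norm_num) (by norm_num) h3 h4 t s r (by exact_mod_cast e1)
      (by exact_mod_cast e2) s0 s1 r0 r1
  rcases le_total t 512 with e3 | e3
  · exact chk_sound hy c3 (by norm_num) (by norm_num) h3 h4 t s r (by exact_mod_cast e2)
      (by exact_mod_cast e3) s0 s1 r0 r1
  rcases le_total t 640 with e4 | e4
  · exact chk_sound hy c4 (by norm_num) (by norm_num) h3 h4 t s r (by exact_mod_cast e3)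
      (by exact_mod_cast e4) s0 s1 r0 r1
  rcases le_total t 768 with e5 | e5
  · exact chk_sound hy c5 (by norm_num) (by norm_num) h3 h4 t s r (by exact_mod_cast e4)
      (by exact_mod_cast e5) s0 s1 r0 r1
  rcases le_total t 896 with e6 | e6
  · exact chk_sound hy c6 (by norm_num) (by norm_num) h3 h4 t s r (by exact_mod_cast e5)
      (by exact_mod_cast e6) s0 s1 r0 r1
  exact chk_sound hy c7 (by norm_num) (by norm_num) h3 h4 t s r (by exact_mod_cast e6)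
    (by exact_mod_cast t1) s0 s1 r0 r1

theorem tile0 (t s r : ℝ) (t0 : 0 ≤ t) (t1 : t ≤ 1024) (s0 : 512 ≤ s) (s1 : s ≤ 1024) (r0 : 512 ≤ r)
    (r1 : r ≤ 1024) : GT cells 2202932630228537 ty0 t s r :=
  slices ⟨by decide, by decide, by decide⟩ (by norm_num) (by norm_num) c0_0 c0_1 c0_2 c0_3 c0_4 c0_5 c0_6 c0_7
    t s r t0 t1 (by exact_mod_cast s0) s1 (by exact_mod_cast r0) r1

theorem tile1 (t s r : ℝ) (t0 : 0 ≤ t) (t1 : t ≤ 1024) (s0 : 384 ≤ s) (s1 : s ≤ 1024) (r0 : 0 ≤ r)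
    (r1 : r ≤ 1024) : GT cells 2202932630228537 ty1 t s r :=
  slices ⟨by decide, by decide, by decide⟩ (by norm_num) (by norm_num) c1_0 c1_1 c1_2 c1_3 c1_4 c1_5 c1_6 c1_7
    t s r t0 t1 (by exact_mod_cast s0) s1 (by exact_mod_cast r0) r1

theorem tile2 (t s r : ℝ) (t0 : 0 ≤ t) (t1 : t ≤ 1024) (s0 : 256 ≤ s) (s1 : s ≤ 1024) (r0 : 512 ≤ r)
    (r1 : r ≤ 1024) : GT cells 2202932630228537 ty2 t s r :=
  slices ⟨by decide, by decide, by decide⟩ (by norm_num) (by norm_num) c2_0 c2_1 c2_2 c2_3 c2_4 c2_5 c2_6 c2_7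
    t s r t0 t1 (by exact_mod_cast s0) s1 (by exact_mod_cast r0) r1

theorem tile3 (t s r : ℝ) (t0 : 0 ≤ t) (t1 : t ≤ 1024) (s0 : 0 ≤ s) (s1 : s ≤ 1024) (r0 : 256 ≤ r)
    (r1 : r ≤ 1024) : GT cells 2202932630228537 ty3 t s r :=
  slices ⟨by decide, by decide, by decide⟩ (by norm_num) (by norm_num) c3_0 c3_1 c3_2 c3_3 c3_4 c3_5 c3_6 c3_7
    t s r t0 t1 (by exact_mod_cast s0) s1 (by exact_mod_cast r0) r1

end Pool.Agent.P.MP_53fdf1_co
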