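import Pool.Agent.P.MP_53fdf1_co.RCore
import Pool.Agent.P.MP_53fdf1_co.eA0

set_option autoImplicit false
set_option maxRecDepth 100000

namespace Pool.Agent.P.MP_53fdf1_co.R.e

open RRup T

noncomputable section

noncomputable def tA : T := tA0

noncomputable def ta (a : Nat) : Nat := pg 32 tA a

noncomputable def tI : T := (n (nat_lit 6) (n (nat_lit 3) (n (nat_lit 1) (l (nat_lit 0x1bf1d41c41c31db1241c21f30000000000001360640be07109709c1c109f00000000000000000000000000001d0000001e21dd1e31d91d51d71de1da00000000000011307f0d00ad1110a912209b00000000000000000000000000005a002765))
(n (nat_lit 2) (l (nat_lit 0x1ea1f61fa1f80000000000001cd1c91e11d81b80a61cb0a70000000000001060ff1c70d70000000000000000690000001fb1f21e71f90000000000001ed1dc1e91f51311091bb0d90000000000001b90b51d31b5000000000000000049002766))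
(l (nat_lit 0x1ee1f41e81ec1e61ef1e01f00000000000001bc0c41ca0ab1a40e81c00fd00000000000000003b0000000000000000001eb1f11df1e51d61c61e41d00000000000000c20b11020931180b01b40a8000000000000000028002767))))
(n (nat_lit 4) (l (nat_lit 0x12116d0b20000000000000000790000000000000000000000000000000000000000000000000000000000000000000000c30e60a0000000000000000082002768))
(n (nat_lit 5) (l (nat_lit 0x1fd00017f1370f000000000000000009a0000000000000000000000000000000000000000000000000000000000000000000001961430fa00000000000000008c002769))
(l (nat_lit 0x1fc1f70000d20e20a400000000000000007c0000000000000000000000000000000000000000000000000000000000000000000000f410e0ac00000000000000007200276a)))))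
(n (nat_lit 9) (n (nat_lit 7) (l (nat_lit 0x1ff1fe00010318e0b300000000000000007d00000000000000000000000000000000000000000000000000000000000000000000012a1440c80000000000000000a100276b))
(n (nat_lit 8) (l (nat_lit 0xd50cc0880000000000000000780000000000000000000000000000000000000000000000000000000000000000000000e51260af00000000000000009100276c))
(l (nat_lit 0x1400dc0c000000000000000008f00276d))))
(n (nat_lit 11) (n (nat_lit 10) (l (nat_lit 0x1be0b80000f60000000000000000830000000000000000000000000000000000000000000000000000000000000000001cf0e100014200000000000000008500276e))
(l (nat_lit 0x1d21b60001bd0000000000000000b40000000000000000000000000000000000000000000000000000000000000000001ce1300001ba00000000000000009600276f)))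
(n (nat_lit 12) (l (nat_lit 0x1c80bf0001380000000000000000610000000000000000000000000000000000000000000000000000000000000000001cc0f30001b2000000000000000087002770))
(l (nat_lit 0x1c51280001b700000000000000009e0000000000000000000000000000000000000000000000000000000000000000001d10cb0001b3000000000000000099002771))))))

theorem ta0 : ta 0 = 3 := by decide +kernel

end

end Pool.Agent.P.MP_53fdf1_co.R.e
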