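import Pool.Agent.P.MP_53fdf1_co.RCore
import Pool.Agent.P.MP_53fdf1_co.eA
import Pool.Agent.P.MP_53fdf1_co.eD0
import Pool.Agent.P.MP_53fdf1_co.eD1
import Pool.Agent.P.MP_53fdf1_co.eP0
import Pool.Agent.P.MP_53fdf1_co.eP1

set_option autoImplicit false
set_option maxRecDepth 100000

namespace Pool.Agent.P.MP_53fdf1_co.R.e

open RRup T

noncomputable section

noncomputable def tD : T := (n (nat_lit 3438) tD0
tD1)

noncomputable def D (z : Nat) : Nat := pg 32 tD z

noncomputable def tP : T := (n (nat_lit 3578) tP0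
tP1)

noncomputable def row (l : Nat) : Nat := pg 32 tP l

end

end Pool.Agent.P.MP_53fdf1_co.R.e
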