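import Pool.Agent.P.MP_53fdf1_co.RFast
import Pool.Agent.P.MP_53fdf1_co.eD

set_option autoImplicit false
set_option maxRecDepth 100000

namespace Pool.Agent.P.MP_53fdf1_co.R.e

open RRup T

noncomputable section

noncomputable def h12 : T := (n (nat_lit 1) (l (nat_lit 0x8000d88001c8800001800001800002d8000c58001bd800002800002800002d8000e98001a5800002800002800002d8000ac8001cb800002800002800002d8001c78001d7800002000002000002d8001d38001b780000a80000a800002d8000b98001bf800009800009800002d8000b480018f800006800006800002d80013280010a800001000001000002d8000c38000b2800002000002000002d8000e38000a5800005800005800002d800100800107800001800001800002d8001278000b0800007000007000002d8000da8001bc800001000001000002d8000e78000a1800003000003000002d8001c680012980000c80000c800002d8000a98001b5800002000002000002d8001c98000c080000b80000b800002d8000a08001c2800000800000800002d8001318001cf80000a00000a000002d8000898000cd800007800007800002d8000cc8001d280000c00000c000002d8000728000bf800000800000800002d8000b1800119800002000002000002d8000aa800112800000000000000002d80009c800123800000000000000002d800080800114800000000000000002d800065800137800000800000800002d800094800103800002000002000002d80009d800098800000800000800002d8000b380016e800003800003800002d8000ae8000d1800000000000000002d01214011980111c010a00102400fa800f2c00eb000e3400db800d3c00cc000c4400bc800b4c00ad000a54009d80095c008e000864007e80076c006f000674005f80057c0050000484004080038c003100029400095b))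
(n (nat_lit 2) (l (nat_lit 0x8001ef8001f5800002800002800002d8001ea8001f6800001000001000002d8001eb8001f7800001800001800002d8001fb8001f9800001800001800002d8001e08001e6800002000002000002d8001c58001c4800000800000800002d8001e98001ed800002800002800002d8001da8001e4800000000000000002d8001e88001fa800001000001000002d8001258001dc800000800000800002d8001448000fb800004000004000002d8001458000c9800006000006000002d8001c08001d5800000800000800002d8001e38001de800000000000000002d8001e58001d1800002000002000002d8001dd8001ee800001000001000002d8001ca8001ce800001800001800002d8001c38001f4800000800000800002d8001f18001e1800002800002800002d8001ec8001f2800002000002000002d8001e78001f0800002800002800002d8001d88001d6800000000000000002d8000f1800138800004800004800002d8000dd8000c1800008000008000002d8000a78001b9800001800001800002d80010f8000ad800005000005000002d8000e28001d0800009000009000002d8001cd8000f480000b00000b000002d8000a88001cc800001800001800002d8001b68001d4800001000001000002d8000b68001ba800001000001000002d8000fe8001c1800002800002800002d01214011980111c010a00102400fa800f2c00eb000e3400db800d3c00cc000c4400bc800b4c00ad000a54009d80095c008e000864007e80076c006f000674005f80057c0050000484004080038c0031000294000960))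
(l (nat_lit 0xbb7e00bb8000bb7f00bb8400bb7b00bb8200bb8300bb8100005880006b800001dcf0000cea600cef800cf0200cefe00cf0400cf0600cf080001210000db000003b9e00019d4c019df0019e04019dfc019e08019e0c019e100002420001ee0000076edf802ee0002edfc02ee1002edec02ee0802ee0c02ee040001620002020000076ea1402ea1c02ea2802ea2002ea1802ea2402ea2c02ea300000fe0001420000077923403922802e42c03922403922003923003922c03923800018e0001420000076aa8802eaa002eaa402eaa802ea9c02eaac02eab002eab4000106000142000007784700359c003849003847803848003848803846803849800031c00012c00000eecd7006cda006cd8006cd9006cd6000198006cdb000188000029800060800001d979300979600979800979700979500979900979a00979b00004d800084800001d8001e28001d9800001800001800002dba8500ba8700ba8a00ba8800ba8600ba8900ba8b00ba8c00003f800059800001d8001fc8001f3800001000001000002d00eb400eb400eb400eb400eb400eb400eb400eb400eb400eb400eb400eb400eb400eb400eb400eb400eb400eb400eb400eb400db000cad00baa00aa6009a20089e0079a006970059400490004140031000294000965))))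

theorem k12 : allZ (fun z => Fa.chkFast ta (D z) (off 29136 (pg 32 h12) z)) 29136 29213 = 0 := by
  decide +kernel

end

end Pool.Agent.P.MP_53fdf1_co.R.e
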