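import Pool.Agent.P.MP_53fdf1_co.RGlue
import Pool.Agent.P.MP_53fdf1_co.eY0
import Pool.Agent.P.MP_53fdf1_co.eY1
import Pool.Agent.P.MP_53fdf1_co.eY2
import Pool.Agent.P.MP_53fdf1_co.eY3
import Pool.Agent.P.MP_53fdf1_co.eY4
import Pool.Agent.P.MP_53fdf1_co.eY5
import Pool.Agent.P.MP_53fdf1_co.eY6
import Pool.Agent.P.MP_53fdf1_co.eY7
import Pool.Agent.P.MP_53fdf1_co.eY8
import Pool.Agent.P.MP_53fdf1_co.eY9
import Pool.Agent.P.MP_53fdf1_co.eY10
import Pool.Agent.P.MP_53fdf1_co.eY11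
import Pool.Agent.P.MP_53fdf1_co.eY12
import Pool.Agent.P.MP_53fdf1_co.eY13
import Pool.Agent.P.MP_53fdf1_co.eY14
import Pool.Agent.P.MP_53fdf1_co.eY15
import Pool.Agent.P.MP_53fdf1_co.eY16
import Pool.Agent.P.MP_53fdf1_co.eT0
import Pool.Agent.P.MP_53fdf1_co.eT1
import Pool.Agent.P.MP_53fdf1_co.eT2
import Pool.Agent.P.MP_53fdf1_co.eT3
import Pool.Agent.P.MP_53fdf1_co.eT4
import Pool.Agent.P.MP_53fdf1_co.eT5
import Pool.Agent.P.MP_53fdf1_co.eT6
import Pool.Agent.P.MP_53fdf1_co.eT7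
import Pool.Agent.P.MP_53fdf1_co.eT8
import Pool.Agent.P.MP_53fdf1_co.eT9
import Pool.Agent.P.MP_53fdf1_co.eT10
import Pool.Agent.P.MP_53fdf1_co.eT11
import Pool.Agent.P.MP_53fdf1_co.eT12
import Pool.Agent.P.MP_53fdf1_co.eT13
import Pool.Agent.P.MP_53fdf1_co.eT14
import Pool.Agent.P.MP_53fdf1_co.eT15
import Pool.Agent.P.MP_53fdf1_co.eT16
import Pool.Agent.P.MP_53fdf1_co.eT17
import Pool.Agent.P.MP_53fdf1_co.eT18
import Pool.Agent.P.MP_53fdf1_co.eT19
import Pool.Agent.P.MP_53fdf1_co.eT20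
import Pool.Agent.P.MP_53fdf1_co.eT21
import Pool.Agent.P.MP_53fdf1_co.eT22
import Pool.Agent.P.MP_53fdf1_co.eT23
import Pool.Agent.P.MP_53fdf1_co.eT24
import Pool.Agent.P.MP_53fdf1_co.eT25
import Pool.Agent.P.MP_53fdf1_co.eT26
import Pool.Agent.P.MP_53fdf1_co.eT27
import Pool.Agent.P.MP_53fdf1_co.eF28
import Pool.Agent.P.MP_53fdf1_co.eF29
import Pool.Agent.P.MP_53fdf1_co.eF30
import Pool.Agent.P.MP_53fdf1_co.eF31
import Pool.Agent.P.MP_53fdf1_co.eF32
import Pool.Agent.P.MP_53fdf1_co.eF33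
import Pool.Agent.P.MP_53fdf1_co.eR34
import Pool.Agent.P.MP_53fdf1_co.eR35
import Pool.Agent.P.MP_53fdf1_co.eR36
import Pool.Agent.P.MP_53fdf1_co.eR37
import Pool.Agent.P.MP_53fdf1_co.eR38
import Pool.Agent.P.MP_53fdf1_co.eR39
import Pool.Agent.P.MP_53fdf1_co.eR40
import Pool.Agent.P.MP_53fdf1_co.eR41
import Pool.Agent.P.MP_53fdf1_co.eR42
import Pool.Agent.P.MP_53fdf1_co.eR43
import Pool.Agent.P.MP_53fdf1_co.eR44
import Pool.Agent.P.MP_53fdf1_co.eR45
import Pool.Agent.P.MP_53fdf1_co.eR46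
import Pool.Agent.P.MP_53fdf1_co.eR47
import Pool.Agent.P.MP_53fdf1_co.eR48
import Pool.Agent.P.MP_53fdf1_co.eR49
import Pool.Agent.P.MP_53fdf1_co.eR50
import Pool.Agent.P.MP_53fdf1_co.eR51
import Pool.Agent.P.MP_53fdf1_co.eR52
import Pool.Agent.P.MP_53fdf1_co.eR53
import Pool.Agent.P.MP_53fdf1_co.eR54
import Pool.Agent.P.MP_53fdf1_co.eR55
import Pool.Agent.P.MP_53fdf1_co.eR56
import Pool.Agent.P.MP_53fdf1_co.eR57
import Pool.Agent.P.MP_53fdf1_co.eR58
import Pool.Agent.P.MP_53fdf1_co.eR59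
import Pool.Agent.P.MP_53fdf1_co.eR60
import Pool.Agent.P.MP_53fdf1_co.eR61
import Pool.Agent.P.MP_53fdf1_co.eR62
import Pool.Agent.P.MP_53fdf1_co.eR63
import Pool.Agent.P.MP_53fdf1_co.eR64
import Pool.Agent.P.MP_53fdf1_co.eR65
import Pool.Agent.P.MP_53fdf1_co.eR66
import Pool.Agent.P.MP_53fdf1_co.eR67
import Pool.Agent.P.MP_53fdf1_co.eR68
import Pool.Agent.P.MP_53fdf1_co.eR69
import Pool.Agent.P.MP_53fdf1_co.eR70
import Pool.Agent.P.MP_53fdf1_co.eR71
import Pool.Agent.P.MP_53fdf1_co.eR72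
import Pool.Agent.P.MP_53fdf1_co.eR73
import Pool.Agent.P.MP_53fdf1_co.eR74
import Pool.Agent.P.MP_53fdf1_co.eR75
import Pool.Agent.P.MP_53fdf1_co.eR76
import Pool.Agent.P.MP_53fdf1_co.eR77
import Pool.Agent.P.MP_53fdf1_co.eR78
import Pool.Agent.P.MP_53fdf1_co.eR79
import Pool.Agent.P.MP_53fdf1_co.eR80
import Pool.Agent.P.MP_53fdf1_co.eR81
import Pool.Agent.P.MP_53fdf1_co.eR82
import Pool.Agent.P.MP_53fdf1_co.eR83
import Pool.Agent.P.MP_53fdf1_co.eR84
import Pool.Agent.P.MP_53fdf1_co.eR85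
import Pool.Agent.P.MP_53fdf1_co.eR86
import Pool.Agent.P.MP_53fdf1_co.eR87
import Pool.Agent.P.MP_53fdf1_co.eR88
import Pool.Agent.P.MP_53fdf1_co.eR89
import Pool.Agent.P.MP_53fdf1_co.eR90
import Pool.Agent.P.MP_53fdf1_co.eR91
import Pool.Agent.P.MP_53fdf1_co.eR92
import Pool.Agent.P.MP_53fdf1_co.eR93
import Pool.Agent.P.MP_53fdf1_co.eR94
import Pool.Agent.P.MP_53fdf1_co.eR95
import Pool.Agent.P.MP_53fdf1_co.eR96
import Pool.Agent.P.MP_53fdf1_co.eR97
import Pool.Agent.P.MP_53fdf1_co.eR98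

set_option autoImplicit false
set_option maxRecDepth 100000

namespace Pool.Agent.P.MP_53fdf1_co.R.e

open RRup T

noncomputable section

theorem r : Ro ta row 120566 :=
  (Fa.rowsF y16 (Fa.rowsF y15 (Fa.rowsF y14 (Fa.rowsF y13 (Fa.rowsF y12 (Fa.rowsF y11 (Fa.rowsF y10 (Fa.rowsF y9 (Fa.rowsF y8 (Fa.rowsF y7 (Fa.rowsF y6 (Fa.rowsF y5 (Fa.rowsF y4 (Fa.rowsF y3 (Fa.rowsF y2 (Fa.rowsF y1 (Fa.rowsF y0 Ro.zero)))))))))))))))))

theorem hole : Hole 17 14 5 := by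
  have u0 : Up ta D 604 := Up.fast k0 Up.zero
  have u1 : Up ta D 1404 := Up.fast k1 u0
  have u2 : Up ta D 4352 := Up.fast k2 u1
  have u3 : Up ta D 8352 := Up.fast k3 u2
  have u4 : Up ta D 12352 := Up.fast k4 u3
  have u5 : Up ta D 16352 := Up.fast k5 u4
  have u6 : Up ta D 22712 := Up.fast k6 u5
  have u7 : Up ta D 27136 := Up.fast k7 u6
  have u8 : Up ta D 27636 := Up.fast k8 u7
  have u9 : Up ta D 28136 := Up.fast k9 u8
  have u10 : Up ta D 28636 := Up.fast k10 u9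
  have u11 : Up ta D 29136 := Up.fast k11 u10
  have u12 : Up ta D 29213 := Up.fast k12 u11
  have u13 : Up ta D 29713 := Up.bool (fun _ _ _ => Cut.chkN_ok) k13 u12
  have u14 : Up ta D 30072 := Up.bool (fun _ _ _ => Cut.chkN_ok) k14 u13
  have u15 : Up ta D 38072 := Up.fast k15 u14
  have u16 : Up ta D 46072 := Up.fast k16 u15
  have u17 : Up ta D 54072 := Up.fast k17 u16
  have u18 : Up ta D 62072 := Up.fast k18 u17
  have u19 : Up ta D 70072 := Up.fast k19 u18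
  have u20 : Up ta D 78072 := Up.fast k20 u19
  have u21 : Up ta D 80415 := Up.fast k21 u20
  have u22 : Up ta D 80915 := Up.fast k22 u21
  have u23 : Up ta D 81415 := Up.fast k23 u22
  have u24 : Up ta D 81493 := Up.fast k24 u23
  have u25 : Up ta D 81743 := Up.bool (fun _ _ _ => Ln.chkLin_s) k25 u24
  have u26 : Up ta D 81993 := Up.bool (fun _ _ _ => Ln.chkLin_s) k26 u25
  have u27 : Up ta D 82029 := Up.bool (fun _ _ _ => Ln.chkLin_s) k27 u26
  have u28 : Up ta D 84696 := Up.far k28 u27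
  have u29 : Up ta D 87363 := Up.far k29 u28
  have u30 : Up ta D 90030 := Up.far k30 u29
  have u31 : Up ta D 92697 := Up.far k31 u30
  have u32 : Up ta D 95364 := Up.far k32 u31
  have u33 : Up ta D 96530 := Up.far k33 u32
  have u34 : Up ta D 97981 := Up.blk ta0 r k34 u33
  have u35 : Up ta D 98920 := Up.blk ta0 r k35 u34
  have u36 : Up ta D 99832 := Up.blk ta0 r k36 u35
  have u37 : Up ta D 100793 := Up.blk ta0 r k37 u36
  have u38 : Up ta D 101634 := Up.blk ta0 r k38 u37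
  have u39 : Up ta D 102495 := Up.blk ta0 r k39 u38
  have u40 : Up ta D 103213 := Up.blk ta0 r k40 u39
  have u41 : Up ta D 104040 := Up.blk ta0 r k41 u40
  have u42 : Up ta D 104765 := Up.blk ta0 r k42 u41
  have u43 : Up ta D 105393 := Up.blk ta0 r k43 u42
  have u44 : Up ta D 105994 := Up.blk ta0 r k44 u43
  have u45 : Up ta D 106706 := Up.blk ta0 r k45 u44
  have u46 : Up ta D 107419 := Up.blk ta0 r k46 u45
  have u47 : Up ta D 108064 := Up.blk ta0 r k47 u46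
  have u48 : Up ta D 108560 := Up.blk ta0 r k48 u47
  have u49 : Up ta D 109087 := Up.blk ta0 r k49 u48
  have u50 : Up ta D 109649 := Up.blk ta0 r k50 u49
  have u51 : Up ta D 110156 := Up.blk ta0 r k51 u50
  have u52 : Up ta D 110617 := Up.blk ta0 r k52 u51
  have u53 : Up ta D 111040 := Up.blk ta0 r k53 u52
  have u54 : Up ta D 111453 := Up.blk ta0 r k54 u53
  have u55 : Up ta D 111894 := Up.blk ta0 r k55 u54
  have u56 : Up ta D 112321 := Up.blk ta0 r k56 u55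
  have u57 : Up ta D 112704 := Up.blk ta0 r k57 u56
  have u58 : Up ta D 113162 := Up.blk ta0 r k58 u57
  have u59 : Up ta D 113427 := Up.blk ta0 r k59 u58
  have u60 : Up ta D 113806 := Up.blk ta0 r k60 u59
  have u61 : Up ta D 114227 := Up.blk ta0 r k61 u60
  have u62 : Up ta D 114522 := Up.blk ta0 r k62 u61
  have u63 : Up ta D 114904 := Up.blk ta0 r k63 u62
  have u64 : Up ta D 115178 := Up.blk ta0 r k64 u63
  have u65 : Up ta D 115427 := Up.blk ta0 r k65 u64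
  have u66 : Up ta D 115609 := Up.blk ta0 r k66 u65
  have u67 : Up ta D 115902 := Up.blk ta0 r k67 u66
  have u68 : Up ta D 116092 := Up.blk ta0 r k68 u67
  have u69 : Up ta D 116419 := Up.blk ta0 r k69 u68
  have u70 : Up ta D 116722 := Up.blk ta0 r k70 u69
  have u71 : Up ta D 117026 := Up.blk ta0 r k71 u70
  have u72 : Up ta D 117515 := Up.blk ta0 r k72 u71
  have u73 : Up ta D 117903 := Up.blk ta0 r k73 u72
  have u74 : Up ta D 118295 := Up.blk ta0 r k74 u73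
  have u75 : Up ta D 118619 := Up.blk ta0 r k75 u74
  have u76 : Up ta D 118931 := Up.blk ta0 r k76 u75
  have u77 : Up ta D 119252 := Up.blk ta0 r k77 u76
  have u78 : Up ta D 119533 := Up.blk ta0 r k78 u77
  have u79 : Up ta D 120072 := Up.blk ta0 r k79 u78
  have u80 : Up ta D 120226 := Up.blk ta0 r k80 u79
  have u81 : Up ta D 120878 := Up.blk ta0 r k81 u80
  have u82 : Up ta D 121185 := Up.blk ta0 r k82 u81
  have u83 : Up ta D 121594 := Up.blk ta0 r k83 u82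
  have u84 : Up ta D 121909 := Up.blk ta0 r k84 u83
  have u85 : Up ta D 122066 := Up.blk ta0 r k85 u84
  have u86 : Up ta D 122174 := Up.blk ta0 r k86 u85
  have u87 : Up ta D 122402 := Up.blk ta0 r k87 u86
  have u88 : Up ta D 122761 := Up.blk ta0 r k88 u87
  have u89 : Up ta D 122821 := Up.blk ta0 r k89 u88
  have u90 : Up ta D 123057 := Up.blk ta0 r k90 u89
  have u91 : Up ta D 123219 := Up.blk ta0 r k91 u90
  have u92 : Up ta D 123358 := Up.blk ta0 r k92 u91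
  have u93 : Up ta D 123690 := Up.blk ta0 r k93 u92
  have u94 : Up ta D 123853 := Up.blk ta0 r k94 u93
  have u95 : Up ta D 124100 := Up.blk ta0 r k95 u94
  have u96 : Up ta D 124258 := Up.blk ta0 r k96 u95
  have u97 : Up ta D 124402 := Up.blk ta0 r k97 u96
  have u98 : Up ta D 124403 := Up.blk ta0 r k98 u97
  exact Up.hole (m := 124402) u98 (by decide +kernel)

end

end Pool.Agent.P.MP_53fdf1_co.R.e
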