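import Pool.Agent.P.MP_53fdf1_co.RCore
import Pool.Agent.P.MP_53fdf1_co.vA0

set_option autoImplicit false
set_option maxRecDepth 100000

namespace Pool.Agent.P.MP_53fdf1_co.R.v

open RRup T

noncomputable section

noncomputable def tA : T := tA0

noncomputable def ta (a : Nat) : Nat := pg 32 tA a

noncomputable def tI : T := (n (nat_lit 6) (n (nat_lit 3) (n (nat_lit 1) (l (nat_lit 0x1cd1c81ce1e51e91d21d81e80000000000001170ca0fe0a80b20b711009d00000000000000000000000000003b0000001f11f41e31ee1d61dc1d01f00000000000001b10d30fd0c310e0d21aa0e300000000000000000000000000006c002777))
(n (nat_lit 2) (l (nat_lit 0x1e01ca1c41e60000000000001c61dd1d31c909f0ad1b50990000000000000e00a50cf0a70000000000000000340000001d91d11cf1f30000000000001c51ef1d51df0de0bd1ab09800000000000012e0ce17d0c0000000000000000046002778))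
(l (nat_lit 0x1cc1da1db1f21ea1d41c11e20000000000001561051bb0ea1190f01b70c20000000000000000610000000000000000001de1f71ec1eb1ed1e11e71f60000000000001b40dd1a71521be1161c7121000000000000000077002779))))
(n (nat_lit 4) (l (nat_lit 0x10a1a30a100000000000000008c0000000000000000000000000000000000000000000000000000000000000000000000ee1060a400000000000000008800277a))
(n (nat_lit 5) (l (nat_lit 0x1fa1f80001651ad1220000000000000000b300000000000000000000000000000000000000000000000000000000000000000000015a1a60c600000000000000008100277b))
(l (nat_lit 0x1011ba0aa00000000000000008500000000000000000000000000000000000000000000000000000000000000000000016d1bd10f00000000000000009000277c)))))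
(n (nat_lit 9) (n (nat_lit 7) (l (nat_lit 0x1fe1fb1fd00013f1ae0ae0000000000000000a60000000000000000000000000000000000000000000000000000000000000000000001241c30e400000000000000009200277d))
(n (nat_lit 8) (l (nat_lit 0x1081a20b500000000000000008700000000000000000000000000000000000000000000000000000000000000000000011e1a90c400000000000000008f00277e))
(l (nat_lit 0x1f91ff1fc1f50000c51b90a900000000000000008b0000000000000000000000000000000000000000000000000000000000000000000001201750c700000000000000008e00277f))))
(n (nat_lit 11) (n (nat_lit 10) (l (nat_lit 0x1c20f70001590000000000000000a20000000000000000000000000000000000000000000000000000000000000000001e40f20001a50000000000000000ac002780))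
(l (nat_lit 0x1cb1b20001bc0000000000000000e60000000000000000000000000000000000000000000000000000000000000000001bf1a80001b60000000000000000df002781)))
(n (nat_lit 12) (l (nat_lit 0x1c01a40001af00000000000000009a0000000000000000000000000000000000000000000000000000000000000000001d71140001b00000000000000000a3002782))
(l (nat_lit 0x1b81ac0001b30000000000000000bf002783))))))

theorem ta0 : ta 0 = 3 := by decide +kernel

end

end Pool.Agent.P.MP_53fdf1_co.R.v
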