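import Pool.Agent.P.MP_53fdf1_co.RFast
import Pool.Agent.P.MP_53fdf1_co.vD

set_option autoImplicit false
set_option maxRecDepth 100000

namespace Pool.Agent.P.MP_53fdf1_co.R.v

open RRup T

noncomputable section

noncomputable def h11 : T := (l (nat_lit 0x8001f98001fb800004800004800002d8001fe8001fc800006800006800002d8001f68001fd800008800008800002d8001ce8001c9800000800000800002d8001ee8001e2800002000002000002d8001d98001e9800000800000800002d8001df8001f8800002000002000002d8001eb8001d5800002800002800002d8001dc8001f3800002800002800002d8001d68001e0800001000001000002d8001da8001d2800001000001000002d8001ea8001d3800000800000800002d8001ed8001ec800002000002000002d8001c78001de800001800001800002d8001d18001f1800000000000000002d8001c28001e3800002800002800002d8001d48001ca800001800001800002d8001e18001cb800001800001800002d8001e48001ef800000000000000002d8001d78001dd800000000000000002d8001cf8001e6800000800000800002d8001bc8000eb800002800002800002d8001c58001e7800001800001800002d8001b88000c3800002800002800002d8001a38000b6800007800007800002d00eb000eb000eb000eb000eb000eb000eb000eb000e3400db800d3c00cc000c4400bc800b4c00ad000a54009d80095c008e000864007e80076c006f000674005f80057c0050000484004080038c003100029400081a))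

theorem k11 : allZ (fun z => Fa.chkFast ta (D z) (off 28384 (pg 32 h11) z)) 28384 28409 = 0 := by
  decide +kernel

end

end Pool.Agent.P.MP_53fdf1_co.R.v
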