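import Pool.Agent.P.MP_53fdf1_co.RDat
import Pool.Agent.P.MP_53fdf1_co.RSymF
import Pool.Agent.P.MP_53fdf1_co.vD

set_option autoImplicit false
set_option maxRecDepth 100000

namespace Pool.Agent.P.MP_53fdf1_co.R.v

open RRup T

noncomputable section

theorem y0 : allZ (Fa.thZ ta row) 0 222 = 0 := by
  decide +kernel

end

end Pool.Agent.P.MP_53fdf1_co.R.v
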