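import Pool.Agent.P.MP_53fdf1_co.RGlue
import Pool.Agent.P.MP_53fdf1_co.vY0
import Pool.Agent.P.MP_53fdf1_co.vY1
import Pool.Agent.P.MP_53fdf1_co.vY2
import Pool.Agent.P.MP_53fdf1_co.vY3
import Pool.Agent.P.MP_53fdf1_co.vY4
import Pool.Agent.P.MP_53fdf1_co.vY5
import Pool.Agent.P.MP_53fdf1_co.vY6
import Pool.Agent.P.MP_53fdf1_co.vY7
import Pool.Agent.P.MP_53fdf1_co.vY8
import Pool.Agent.P.MP_53fdf1_co.vY9
import Pool.Agent.P.MP_53fdf1_co.vY10
import Pool.Agent.P.MP_53fdf1_co.vY11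
import Pool.Agent.P.MP_53fdf1_co.vY12
import Pool.Agent.P.MP_53fdf1_co.vY13
import Pool.Agent.P.MP_53fdf1_co.vY14
import Pool.Agent.P.MP_53fdf1_co.vY15
import Pool.Agent.P.MP_53fdf1_co.vY16
import Pool.Agent.P.MP_53fdf1_co.vT0
import Pool.Agent.P.MP_53fdf1_co.vT1
import Pool.Agent.P.MP_53fdf1_co.vT2
import Pool.Agent.P.MP_53fdf1_co.vT3
import Pool.Agent.P.MP_53fdf1_co.vT4
import Pool.Agent.P.MP_53fdf1_co.vT5
import Pool.Agent.P.MP_53fdf1_co.vT6
import Pool.Agent.P.MP_53fdf1_co.vT7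
import Pool.Agent.P.MP_53fdf1_co.vT8
import Pool.Agent.P.MP_53fdf1_co.vT9
import Pool.Agent.P.MP_53fdf1_co.vT10
import Pool.Agent.P.MP_53fdf1_co.vT11
import Pool.Agent.P.MP_53fdf1_co.vT12
import Pool.Agent.P.MP_53fdf1_co.vT13
import Pool.Agent.P.MP_53fdf1_co.vT14
import Pool.Agent.P.MP_53fdf1_co.vT15
import Pool.Agent.P.MP_53fdf1_co.vT16
import Pool.Agent.P.MP_53fdf1_co.vT17
import Pool.Agent.P.MP_53fdf1_co.vT18
import Pool.Agent.P.MP_53fdf1_co.vT19
import Pool.Agent.P.MP_53fdf1_co.vT20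
import Pool.Agent.P.MP_53fdf1_co.vT21
import Pool.Agent.P.MP_53fdf1_co.vT22
import Pool.Agent.P.MP_53fdf1_co.vT23
import Pool.Agent.P.MP_53fdf1_co.vT24
import Pool.Agent.P.MP_53fdf1_co.vT25
import Pool.Agent.P.MP_53fdf1_co.vT26
import Pool.Agent.P.MP_53fdf1_co.vF27
import Pool.Agent.P.MP_53fdf1_co.vF28
import Pool.Agent.P.MP_53fdf1_co.vF29
import Pool.Agent.P.MP_53fdf1_co.vF30
import Pool.Agent.P.MP_53fdf1_co.vF31
import Pool.Agent.P.MP_53fdf1_co.vF32
import Pool.Agent.P.MP_53fdf1_co.vR33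
import Pool.Agent.P.MP_53fdf1_co.vR34
import Pool.Agent.P.MP_53fdf1_co.vR35
import Pool.Agent.P.MP_53fdf1_co.vR36
import Pool.Agent.P.MP_53fdf1_co.vR37
import Pool.Agent.P.MP_53fdf1_co.vR38
import Pool.Agent.P.MP_53fdf1_co.vR39
import Pool.Agent.P.MP_53fdf1_co.vR40
import Pool.Agent.P.MP_53fdf1_co.vR41
import Pool.Agent.P.MP_53fdf1_co.vR42
import Pool.Agent.P.MP_53fdf1_co.vR43
import Pool.Agent.P.MP_53fdf1_co.vR44
import Pool.Agent.P.MP_53fdf1_co.vR45
import Pool.Agent.P.MP_53fdf1_co.vR46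
import Pool.Agent.P.MP_53fdf1_co.vR47
import Pool.Agent.P.MP_53fdf1_co.vR48
import Pool.Agent.P.MP_53fdf1_co.vR49
import Pool.Agent.P.MP_53fdf1_co.vR50
import Pool.Agent.P.MP_53fdf1_co.vR51
import Pool.Agent.P.MP_53fdf1_co.vR52
import Pool.Agent.P.MP_53fdf1_co.vR53
import Pool.Agent.P.MP_53fdf1_co.vR54
import Pool.Agent.P.MP_53fdf1_co.vR55
import Pool.Agent.P.MP_53fdf1_co.vR56
import Pool.Agent.P.MP_53fdf1_co.vR57
import Pool.Agent.P.MP_53fdf1_co.vR58
import Pool.Agent.P.MP_53fdf1_co.vR59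
import Pool.Agent.P.MP_53fdf1_co.vR60
import Pool.Agent.P.MP_53fdf1_co.vR61
import Pool.Agent.P.MP_53fdf1_co.vR62
import Pool.Agent.P.MP_53fdf1_co.vR63
import Pool.Agent.P.MP_53fdf1_co.vR64
import Pool.Agent.P.MP_53fdf1_co.vR65
import Pool.Agent.P.MP_53fdf1_co.vR66
import Pool.Agent.P.MP_53fdf1_co.vR67
import Pool.Agent.P.MP_53fdf1_co.vR68
import Pool.Agent.P.MP_53fdf1_co.vR69
import Pool.Agent.P.MP_53fdf1_co.vR70
import Pool.Agent.P.MP_53fdf1_co.vR71
import Pool.Agent.P.MP_53fdf1_co.vR72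
import Pool.Agent.P.MP_53fdf1_co.vR73
import Pool.Agent.P.MP_53fdf1_co.vR74
import Pool.Agent.P.MP_53fdf1_co.vR75
import Pool.Agent.P.MP_53fdf1_co.vR76
import Pool.Agent.P.MP_53fdf1_co.vR77
import Pool.Agent.P.MP_53fdf1_co.vR78
import Pool.Agent.P.MP_53fdf1_co.vR79
import Pool.Agent.P.MP_53fdf1_co.vR80
import Pool.Agent.P.MP_53fdf1_co.vR81
import Pool.Agent.P.MP_53fdf1_co.vR82
import Pool.Agent.P.MP_53fdf1_co.vR83
import Pool.Agent.P.MP_53fdf1_co.vR84
import Pool.Agent.P.MP_53fdf1_co.vR85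
import Pool.Agent.P.MP_53fdf1_co.vR86
import Pool.Agent.P.MP_53fdf1_co.vR87
import Pool.Agent.P.MP_53fdf1_co.vR88
import Pool.Agent.P.MP_53fdf1_co.vR89
import Pool.Agent.P.MP_53fdf1_co.vR90
import Pool.Agent.P.MP_53fdf1_co.vR91
import Pool.Agent.P.MP_53fdf1_co.vR92
import Pool.Agent.P.MP_53fdf1_co.vR93
import Pool.Agent.P.MP_53fdf1_co.vR94
import Pool.Agent.P.MP_53fdf1_co.vR95
import Pool.Agent.P.MP_53fdf1_co.vR96
import Pool.Agent.P.MP_53fdf1_co.vR97

set_option autoImplicit false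
set_option maxRecDepth 100000

namespace Pool.Agent.P.MP_53fdf1_co.R.v

open RRup T

noncomputable section

theorem r : Ro ta row 121426 :=
  (Fa.rowsF y16 (Fa.rowsF y15 (Fa.rowsF y14 (Fa.rowsF y13 (Fa.rowsF y12 (Fa.rowsF y11 (Fa.rowsF y10 (Fa.rowsF y9 (Fa.rowsF y8 (Fa.rowsF y7 (Fa.rowsF y6 (Fa.rowsF y5 (Fa.rowsF y4 (Fa.rowsF y3 (Fa.rowsF y2 (Fa.rowsF y1 (Fa.rowsF y0 Ro.zero)))))))))))))))))

theorem hole : Hole 25 18 3 := by
  have u0 : Up ta D 607 := Up.fast k0 Up.zero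
  have u1 : Up ta D 1407 := Up.fast k1 u0
  have u2 : Up ta D 6155 := Up.fast k2 u1
  have u3 : Up ta D 10155 := Up.fast k3 u2
  have u4 : Up ta D 14155 := Up.fast k4 u3
  have u5 : Up ta D 19190 := Up.fast k5 u4
  have u6 : Up ta D 25894 := Up.fast k6 u5
  have u7 : Up ta D 26884 := Up.fast k7 u6
  have u8 : Up ta D 27384 := Up.fast k8 u7
  have u9 : Up ta D 27884 := Up.fast k9 u8
  have u10 : Up ta D 28384 := Up.fast k10 u9
  have u11 : Up ta D 28409 := Up.fast k11 u10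
  have u12 : Up ta D 28909 := Up.bool (fun _ _ _ => Cut.chkN_ok) k12 u11
  have u13 : Up ta D 29409 := Up.bool (fun _ _ _ => Cut.chkN_ok) k13 u12
  have u14 : Up ta D 29524 := Up.bool (fun _ _ _ => Cut.chkN_ok) k14 u13
  have u15 : Up ta D 37524 := Up.fast k15 u14
  have u16 : Up ta D 45524 := Up.fast k16 u15
  have u17 : Up ta D 53524 := Up.fast k17 u16
  have u18 : Up ta D 61524 := Up.fast k18 u17
  have u19 : Up ta D 69524 := Up.fast k19 u18
  have u20 : Up ta D 77524 := Up.fast k20 u19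
  have u21 : Up ta D 80733 := Up.fast k21 u20
  have u22 : Up ta D 81233 := Up.fast k22 u21
  have u23 : Up ta D 81733 := Up.fast k23 u22
  have u24 : Up ta D 81804 := Up.fast k24 u23
  have u25 : Up ta D 82054 := Up.bool (fun _ _ _ => Ln.chkLin_s) k25 u24
  have u26 : Up ta D 82285 := Up.bool (fun _ _ _ => Ln.chkLin_s) k26 u25
  have u27 : Up ta D 84952 := Up.far k27 u26
  have u28 : Up ta D 87619 := Up.far k28 u27
  have u29 : Up ta D 90286 := Up.far k29 u28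
  have u30 : Up ta D 92953 := Up.far k30 u29
  have u31 : Up ta D 95620 := Up.far k31 u30
  have u32 : Up ta D 95986 := Up.far k32 u31
  have u33 : Up ta D 97234 := Up.blk ta0 r k33 u32
  have u34 : Up ta D 98153 := Up.blk ta0 r k34 u33
  have u35 : Up ta D 98984 := Up.blk ta0 r k35 u34
  have u36 : Up ta D 99862 := Up.blk ta0 r k36 u35
  have u37 : Up ta D 100585 := Up.blk ta0 r k37 u36
  have u38 : Up ta D 101367 := Up.blk ta0 r k38 u37
  have u39 : Up ta D 102023 := Up.blk ta0 r k39 u38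
  have u40 : Up ta D 102693 := Up.blk ta0 r k40 u39
  have u41 : Up ta D 103262 := Up.blk ta0 r k41 u40
  have u42 : Up ta D 104116 := Up.blk ta0 r k42 u41
  have u43 : Up ta D 104747 := Up.blk ta0 r k43 u42
  have u44 : Up ta D 105342 := Up.blk ta0 r k44 u43
  have u45 : Up ta D 105897 := Up.blk ta0 r k45 u44
  have u46 : Up ta D 106434 := Up.blk ta0 r k46 u45
  have u47 : Up ta D 106996 := Up.blk ta0 r k47 u46
  have u48 : Up ta D 107438 := Up.blk ta0 r k48 u47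
  have u49 : Up ta D 108020 := Up.blk ta0 r k49 u48
  have u50 : Up ta D 108428 := Up.blk ta0 r k50 u49
  have u51 : Up ta D 108795 := Up.blk ta0 r k51 u50
  have u52 : Up ta D 109222 := Up.blk ta0 r k52 u51
  have u53 : Up ta D 109725 := Up.blk ta0 r k53 u52
  have u54 : Up ta D 110131 := Up.blk ta0 r k54 u53
  have u55 : Up ta D 110553 := Up.blk ta0 r k55 u54
  have u56 : Up ta D 111003 := Up.blk ta0 r k56 u55
  have u57 : Up ta D 111374 := Up.blk ta0 r k57 u56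
  have u58 : Up ta D 111683 := Up.blk ta0 r k58 u57
  have u59 : Up ta D 112071 := Up.blk ta0 r k59 u58
  have u60 : Up ta D 112511 := Up.blk ta0 r k60 u59
  have u61 : Up ta D 112844 := Up.blk ta0 r k61 u60
  have u62 : Up ta D 113072 := Up.blk ta0 r k62 u61
  have u63 : Up ta D 113427 := Up.blk ta0 r k63 u62
  have u64 : Up ta D 113848 := Up.blk ta0 r k64 u63
  have u65 : Up ta D 114221 := Up.blk ta0 r k65 u64
  have u66 : Up ta D 114609 := Up.blk ta0 r k66 u65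
  have u67 : Up ta D 114904 := Up.blk ta0 r k67 u66
  have u68 : Up ta D 115155 := Up.blk ta0 r k68 u67
  have u69 : Up ta D 115482 := Up.blk ta0 r k69 u68
  have u70 : Up ta D 115918 := Up.blk ta0 r k70 u69
  have u71 : Up ta D 116274 := Up.blk ta0 r k71 u70
  have u72 : Up ta D 116445 := Up.blk ta0 r k72 u71
  have u73 : Up ta D 116588 := Up.blk ta0 r k73 u72
  have u74 : Up ta D 116860 := Up.blk ta0 r k74 u73
  have u75 : Up ta D 117170 := Up.blk ta0 r k75 u74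
  have u76 : Up ta D 117587 := Up.blk ta0 r k76 u75
  have u77 : Up ta D 117985 := Up.blk ta0 r k77 u76
  have u78 : Up ta D 118398 := Up.blk ta0 r k78 u77
  have u79 : Up ta D 118810 := Up.blk ta0 r k79 u78
  have u80 : Up ta D 119192 := Up.blk ta0 r k80 u79
  have u81 : Up ta D 119639 := Up.blk ta0 r k81 u80
  have u82 : Up ta D 119975 := Up.blk ta0 r k82 u81
  have u83 : Up ta D 120307 := Up.blk ta0 r k83 u82
  have u84 : Up ta D 120560 := Up.blk ta0 r k84 u83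
  have u85 : Up ta D 120867 := Up.blk ta0 r k85 u84
  have u86 : Up ta D 121081 := Up.blk ta0 r k86 u85
  have u87 : Up ta D 121279 := Up.blk ta0 r k87 u86
  have u88 : Up ta D 121481 := Up.blk ta0 r k88 u87
  have u89 : Up ta D 121632 := Up.blk ta0 r k89 u88
  have u90 : Up ta D 121866 := Up.blk ta0 r k90 u89
  have u91 : Up ta D 122045 := Up.blk ta0 r k91 u90
  have u92 : Up ta D 122251 := Up.blk ta0 r k92 u91
  have u93 : Up ta D 122257 := Up.blk ta0 r k93 u92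
  have u94 : Up ta D 122474 := Up.blk ta0 r k94 u93
  have u95 : Up ta D 122670 := Up.blk ta0 r k95 u94
  have u96 : Up ta D 122671 := Up.blk ta0 r k96 u95
  have u97 : Up ta D 122672 := Up.blk ta0 r k97 u96
  exact Up.hole (m := 122671) u97 (by decide +kernel)

end

end Pool.Agent.P.MP_53fdf1_co.R.v
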